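import Pool.Agent.Lib.MP_193d8d_pr.Defs

set_option autoImplicit false
open MeasureTheory Set

namespace Pool.Agent.Lib.MP_193d8d_pr

/-! ## `sup0` -/

section sup0
variable {ι : Type} [Fintype ι] {f g : ι → ℝ}

theorem sup0_nonneg (f : ι → ℝ) : 0 ≤ sup0 f :=
  Finset.le_max' _ _ (Finset.mem_insert_self _ _)

theorem le_sup0 (f : ι → ℝ) (k : ι) : f k ≤ sup0 f :=
  Finset.le_max' _ _ (Finset.mem_insert_of_mem (Finset.mem_image_of_mem _ (Finset.mem_univ k)))

theorem sup0_le {b : ℝ} (h0 : 0 ≤ b) (h : ∀ k, f k ≤ b) : sup0 f ≤ b := by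
  refine Finset.max'_le _ _ _ fun y hy => ?_
  rcases Finset.mem_insert.1 hy with rfl | hy
  · exact h0
  · obtain ⟨k, -, rfl⟩ := Finset.mem_image.1 hy
    exact h k

theorem sup0_le_iff {b : ℝ} : sup0 f ≤ b ↔ 0 ≤ b ∧ ∀ k, f k ≤ b :=
  ⟨fun h => ⟨(sup0_nonneg f).trans h, fun k => (le_sup0 f k).trans h⟩, fun h => sup0_le h.1 h.2⟩

theorem sup0_mono (h : ∀ k, f k ≤ g k) : sup0 f ≤ sup0 g :=
  sup0_le (sup0_nonneg g) fun k => (h k).trans (le_sup0 g k)

theorem sup0_eq (f : ι → ℝ) : sup0 f = 0 ∨ ∃ k, sup0 f = f k := by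
  rcases Finset.mem_insert.1 (Finset.max'_mem (insert 0 (Finset.univ.image f))
    (Finset.insert_nonempty _ _)) with h | h
  · exact Or.inl h
  · obtain ⟨k, -, hk⟩ := Finset.mem_image.1 h
    exact Or.inr ⟨k, hk.symm⟩

theorem sup0_abs_le {b : ℝ} (hb : 0 ≤ b) (h : ∀ k, f k ≤ b) : |sup0 f| ≤ b := by
  rw [abs_of_nonneg (sup0_nonneg f)]; exact sup0_le hb h

end sup0

/-! ## `ext` and edges -/

section ext
variable {n : ℕ} {α : Type*}

theorem ext_of_lt (d : α) (x : Edge n → α) {i j : Fin n} (h : i < j) :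
    ext d x i j = x ⟨i, j, h⟩ := by simp [ext, h]

theorem ext_of_gt (d : α) (x : Edge n → α) {i j : Fin n} (h : j < i) :
    ext d x i j = x ⟨j, i, h⟩ := by simp [ext, h, not_lt.2 h.le]

theorem ext_self (d : α) (x : Edge n → α) (i : Fin n) : ext d x i i = d := by simp [ext]

theorem ext_symm (d : α) (x : Edge n → α) (i j : Fin n) : ext d x i j = ext d x j i := by
  rcases lt_trichotomy i j with h | h | h
  · rw [ext_of_lt d x h, ext_of_gt d x h]
  · rw [h]
  · rw [ext_of_gt d x h, ext_of_lt d x h]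

theorem ext_edge (d : α) (x : Edge n → α) (e : Edge n) : ext d x e.a e.b = x e :=
  ext_of_lt d x e.lt

/-- the edge between two different vertices -/
noncomputable def edge {n : ℕ} (i j : Fin n) (h : i ≠ j) : Edge n :=
  if h' : i < j then ⟨i, j, h'⟩ else ⟨j, i, lt_of_le_of_ne (not_lt.1 h') h.symm⟩

theorem ext_ne (d : α) (x : Edge n → α) {i j : Fin n} (h : i ≠ j) :
    ext d x i j = x (edge i j h) := by
  by_cases h' : i < j
  · simp [ext, edge, h']
  · have h2 : j < i := lt_of_le_of_ne (not_lt.1 h') h.symm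
    simp [ext, edge, h', h2]

theorem ext_comp {β : Type*} (d : α) (x : Edge n → α) (g : α → β) (i j : Fin n) :
    g (ext d x i j) = ext (g d) (fun e => g (x e)) i j := by
  unfold ext; split_ifs <;> rfl

/-- colexicographic order -/
theorem Edge.lt_iff {e f : Edge n} : e < f ↔ e.b < f.b ∨ (e.b = f.b ∧ e.a < f.a) := by
  have : e < f ↔ e.key < f.key := Iff.rfl
  rw [this, Edge.key, Edge.key, Prod.Lex.toLex_lt_toLex]

end ext

/-! ## `clamp`, `lamf` -/

theorem clamp_le {K x : ℝ} (hK : 0 ≤ K) : clamp K x ≤ K := by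
  unfold clamp; exact max_le (by linarith) (min_le_right _ _)

theorem neg_le_clamp {K x : ℝ} : -K ≤ clamp K x := le_max_left _ _

theorem abs_clamp_le {K x : ℝ} (hK : 0 ≤ K) : |clamp K x| ≤ K :=
  abs_le.2 ⟨neg_le_clamp, clamp_le hK⟩

theorem clamp_mono {K x y : ℝ} (h : x ≤ y) : clamp K x ≤ clamp K y := by
  unfold clamp; exact max_le_max le_rfl (min_le_min h le_rfl)

theorem clamp_eq {K x : ℝ} (h : |x| ≤ K) : clamp K x = x := by
  obtain ⟨h1, h2⟩ := abs_le.1 h
  unfold clamp; rw [min_eq_left h2, max_eq_right h1]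

/-! ## `EE` -/

section EE
variable {ι κ : Type} [Fintype ι] [DecidableEq ι] [Fintype κ] {p : κ → ℝ}

theorem EE_add (p : κ → ℝ) (f g : (ι → κ) → ℝ) :
    EE p (fun c => f c + g c) = EE p f + EE p g := by
  unfold EE; rw [← Finset.sum_add_distrib]
  exact Finset.sum_congr rfl fun c _ => by ring

theorem EE_sub (p : κ → ℝ) (f g : (ι → κ) → ℝ) :
    EE p (fun c => f c - g c) = EE p f - EE p g := by
  unfold EE; rw [← Finset.sum_sub_distrib]
  exact Finset.sum_congr rfl fun c _ => by ring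

theorem EE_neg (p : κ → ℝ) (f : (ι → κ) → ℝ) : EE p (fun c => -f c) = -EE p f := by
  unfold EE; rw [← Finset.sum_neg_distrib]
  exact Finset.sum_congr rfl fun c _ => by ring

theorem EE_mul_left (p : κ → ℝ) (r : ℝ) (f : (ι → κ) → ℝ) :
    EE p (fun c => r * f c) = r * EE p f := by
  unfold EE; rw [Finset.mul_sum]
  exact Finset.sum_congr rfl fun c _ => by ring

theorem EE_mul_right (p : κ → ℝ) (r : ℝ) (f : (ι → κ) → ℝ) :
    EE p (fun c => f c * r) = EE p f * r := by
  unfold EE; rw [Finset.sum_mul]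
  exact Finset.sum_congr rfl fun c _ => by ring

theorem EE_sum {α : Type*} (p : κ → ℝ) (s : Finset α) (f : α → (ι → κ) → ℝ) :
    EE p (fun c => ∑ a ∈ s, f a c) = ∑ a ∈ s, EE p (f a) := by
  unfold EE; rw [Finset.sum_comm]
  exact Finset.sum_congr rfl fun c _ => by rw [Finset.mul_sum]

theorem EE_one (hp1 : ∑ h, p h = 1) : EE p (fun _ : ι → κ => (1 : ℝ)) = 1 := by
  unfold EE
  simp only [mul_one]
  have h := (Finset.prod_univ_sum (fun _ : ι => (Finset.univ : Finset κ)) (fun _ h => p h)).symm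
  rw [Fintype.piFinset_univ] at h
  rw [h]; simp [hp1]

theorem EE_const (hp1 : ∑ h, p h = 1) (r : ℝ) : EE p (fun _ : ι → κ => r) = r := by
  have := EE_mul_left (ι := ι) p r (fun _ => 1)
  rw [EE_one hp1] at this
  simpa using this

theorem EE_nonneg (hp : ∀ h, 0 ≤ p h) {f : (ι → κ) → ℝ} (h : ∀ c, 0 ≤ f c) : 0 ≤ EE p f :=
  Finset.sum_nonneg fun c _ => mul_nonneg (Finset.prod_nonneg fun _ _ => hp _) (h c)

theorem EE_mono (hp : ∀ h, 0 ≤ p h) {f g : (ι → κ) → ℝ} (h : ∀ c, f c ≤ g c) :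
    EE p f ≤ EE p g :=
  Finset.sum_le_sum fun c _ => mul_le_mul_of_nonneg_left (h c) (Finset.prod_nonneg fun _ _ => hp _)

/-- integrate one coordinate first -/
theorem EE_split (p : κ → ℝ) (hp1 : ∑ h, p h = 1) (e : ι) (f : (ι → κ) → ℝ) :
    EE p f = EE p (fun c => ∑ h, p h * f (Function.update c e h)) := by
  classical
  unfold EE
  simp only [Finset.mul_sum]
  -- both sides are sums over (c, h); the map (c, h) ↦ (update c e h, c e) is an involution
  have key : ∀ c : ι → κ, ∀ h : κ, (∏ e', p (c e')) * p h =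
      (∏ e', p (Function.update c e h e')) * p (c e) := by
    intro c h
    have h1 : ∏ e', p (c e') = p (c e) * ∏ e' ∈ Finset.univ.erase e, p (c e') :=
      (Finset.mul_prod_erase _ _ (Finset.mem_univ e)).symm
    have h2 : ∏ e', p (Function.update c e h e') = p h * ∏ e' ∈ Finset.univ.erase e, p (c e') := by
      rw [← Finset.mul_prod_erase _ _ (Finset.mem_univ e), Function.update_self]
      congr 1
      refine Finset.prod_congr rfl fun e' he' => ?_
      rw [Function.update_of_ne (Finset.ne_of_mem_erase he')]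
    rw [h1, h2]; ring
  have lhs : ∑ c : ι → κ, (∏ e', p (c e')) * f c =
      ∑ x : (ι → κ) × κ, (∏ e', p (x.1 e')) * p x.2 * f x.1 := by
    rw [Fintype.sum_prod_type]
    refine Finset.sum_congr rfl fun c _ => ?_
    have : ∀ h : κ, (∏ e', p (c e')) * p h * f c = ((∏ e', p (c e')) * f c) * p h := fun h => by ring
    simp only [this]
    rw [← Finset.mul_sum, hp1, mul_one]
  have rhs : ∑ c : ι → κ, ∑ h, (∏ e', p (c e')) * (p h * f (Function.update c e h)) =
      ∑ x : (ι → κ) × κ, (∏ e', p (x.1 e')) * (p x.2 * f (Function.update x.1 e x.2)) := by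
    rw [Fintype.sum_prod_type]
  rw [lhs, rhs]
  refine Finset.sum_nbij' (fun x => (Function.update x.1 e x.2, x.1 e))
    (fun x => (Function.update x.1 e x.2, x.1 e)) (by simp) (by simp) ?_ ?_ ?_
  · intro x _; ext1 <;> simp
  · intro x _; ext1 <;> simp
  · rintro ⟨c, h⟩ -
    simp only [Function.update_idem, Function.update_eq_self]
    rw [key c h]; ring

/-- independence: a function of the coordinate `e` times a function independent of it -/
theorem EE_indep (hp1 : ∑ h, p h = 1) (e : ι) (u : κ → ℝ) (f : (ι → κ) → ℝ)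
    (hf : ∀ c h, f (Function.update c e h) = f c) :
    EE p (fun c => u (c e) * f c) = (∑ h, p h * u h) * EE p f := by
  rw [EE_split p hp1 e]
  simp only [Function.update_self, hf]
  rw [← EE_mul_left]
  unfold EE
  refine Finset.sum_congr rfl fun c _ => ?_
  congr 1
  show ∑ h, p h * (u h * f c) = (∑ h, p h * u h) * f c
  rw [Finset.sum_mul]
  exact Finset.sum_congr rfl fun h _ => by ring

theorem EE_congr {f g : (ι → κ) → ℝ} (h : ∀ c, f c = g c) : EE p f = EE p g := by
  unfold EE; exact Finset.sum_congr rfl fun c _ => by rw [h c]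

/-- Cauchy - Schwarz -/
theorem EE_sq_le (hp : ∀ h, 0 ≤ p h) (f g : (ι → κ) → ℝ) :
    EE p (fun c => f c * g c) ^ 2 ≤ EE p (fun c => f c ^ 2) * EE p (fun c => g c ^ 2) := by
  unfold EE
  have h := Finset.sum_mul_sq_le_sq_mul_sq Finset.univ
    (fun c : ι → κ => Real.sqrt (∏ e, p (c e)) * f c) (fun c => Real.sqrt (∏ e, p (c e)) * g c)
  have hs : ∀ c : ι → κ, Real.sqrt (∏ e, p (c e)) * Real.sqrt (∏ e, p (c e)) = ∏ e, p (c e) :=
    fun c => Real.mul_self_sqrt (Finset.prod_nonneg fun _ _ => hp _)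
  have e1 : ∀ c : ι → κ, (∏ e, p (c e)) * (f c * g c) =
      Real.sqrt (∏ e, p (c e)) * f c * (Real.sqrt (∏ e, p (c e)) * g c) := fun c => by
    calc (∏ e, p (c e)) * (f c * g c)
        = (Real.sqrt (∏ e, p (c e)) * Real.sqrt (∏ e, p (c e))) * (f c * g c) := by rw [hs c]
      _ = _ := by ring
  have e2 : ∀ (u : (ι → κ) → ℝ) (c : ι → κ), (∏ e, p (c e)) * u c ^ 2 =
      (Real.sqrt (∏ e, p (c e)) * u c) ^ 2 := fun u c => by
    calc (∏ e, p (c e)) * u c ^ 2
        = (Real.sqrt (∏ e, p (c e)) * Real.sqrt (∏ e, p (c e))) * u c ^ 2 := by rw [hs c]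
      _ = _ := by ring
  simp only [e1, e2 f, e2 g]
  exact h

theorem EE_abs_le (hp : ∀ h, 0 ≤ p h) (hp1 : ∑ h, p h = 1) (f : (ι → κ) → ℝ) :
    EE p (fun c => |f c|) ^ 2 ≤ EE p (fun c => f c ^ 2) := by
  have h := EE_sq_le hp (fun c => |f c|) (fun _ => 1)
  simp only [mul_one, sq_abs, one_pow, EE_one hp1] at h
  exact h

end EE

/-! ## `AV` -/

section AV
variable {n : ℕ}

theorem AV_add (f g : Edge n → ℝ) : AV (fun e => f e + g e) = AV f + AV g := by
  unfold AV; rw [Finset.sum_add_distrib, add_div]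

theorem AV_sub (f g : Edge n → ℝ) : AV (fun e => f e - g e) = AV f - AV g := by
  unfold AV; rw [Finset.sum_sub_distrib, sub_div]

theorem AV_mul_left (r : ℝ) (f : Edge n → ℝ) : AV (fun e => r * f e) = r * AV f := by
  unfold AV; rw [← Finset.mul_sum, mul_div_assoc]

theorem AV_mono {f g : Edge n → ℝ} (h : ∀ e, f e ≤ g e) : AV f ≤ AV g := by
  unfold AV; exact div_le_div_of_nonneg_right (Finset.sum_le_sum fun e _ => h e) (Nat.cast_nonneg _)

theorem AV_nonneg {f : Edge n → ℝ} (h : ∀ e, 0 ≤ f e) : 0 ≤ AV f := by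
  unfold AV; exact div_nonneg (Finset.sum_nonneg fun e _ => h e) (Nat.cast_nonneg _)

theorem card_edge_pos (hn : 2 ≤ n) : 0 < (Fintype.card (Edge n) : ℝ) := by
  have : Nonempty (Edge n) := ⟨⟨⟨0, by omega⟩, ⟨1, by omega⟩, by simp [Fin.lt_def]⟩⟩
  exact_mod_cast Fintype.card_pos

theorem AV_const (hn : 2 ≤ n) (r : ℝ) : AV (fun _ : Edge n => r) = r := by
  unfold AV
  rw [Finset.sum_const, Finset.card_univ, nsmul_eq_mul]
  have := card_edge_pos hn
  field_simp

end AV

end Pool.Agent.Lib.MP_193d8d_pr
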