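import Pool.Agent.Lib.MP_193d8d_pr.StA
import Pool.Agent.Lib.MP_193d8d_pr.Base

set_option autoImplicit false
open MeasureTheory Set

namespace Pool.Agent.Lib.MP_193d8d_pr

/-! # T3: averages over the cells of the tree of quantiles -/

namespace AvgAux

variable {E : Type} [Fintype E] [LinearOrder E] {S : Set (E → ℝ)} {H : ℕ} {l : ℕ → ℝ}

/-- the part of `S` where the coordinates in `A` lie in their cells -/
def RA (S : Set (E → ℝ)) (H : ℕ) (Q : E → (E → Fin (H + 1)) → ℕ → ℝ) (A : Finset E)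
    (c : E → Fin (H + 1)) : Set (E → ℝ) :=
  {x | x ∈ S ∧ ∀ e' ∈ A, Q e' c (c e') < x e' ∧ x e' ≤ Q e' c ((c e' : ℕ) + 1)}

theorem RA_lt (Q : E → (E → Fin (H + 1)) → ℕ → ℝ) (e : E) (c : E → Fin (H + 1)) :
    RA S H Q (Finset.univ.filter (fun e' => e' < e)) c = Rset S H Q e c := by
  ext x
  simp only [RA, Rset, mem_ofPred_eq, Finset.mem_filter, Finset.mem_univ, true_and]

theorem meas (hS : MeasurableSet S) (Q : E → (E → Fin (H + 1)) → ℕ → ℝ) (A : Finset E)
    (c : E → Fin (H + 1)) : MeasurableSet (RA S H Q A c) := by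
  have : RA S H Q A c = S ∩ ⋂ e' ∈ A, {x : E → ℝ | Q e' c (c e') < x e' ∧
      x e' ≤ Q e' c ((c e' : ℕ) + 1)} := by
    ext x
    simp only [RA, mem_ofPred_eq, mem_inter_iff, mem_iInter]
  rw [this]
  exact hS.inter (Finset.measurableSet_biInter _ fun e' _ =>
    (measurableSet_lt measurable_const (measurable_pi_apply e')).inter
      (measurableSet_le (measurable_pi_apply e') measurable_const))

theorem mono_le {q : ℕ → ℝ} (hq : ∀ h, h ≤ H → q h < q (h + 1)) {i j : ℕ} (hij : i ≤ j)
    (hj : j ≤ H + 1) : q i ≤ q j := by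
  induction j with
  | zero => rw [Nat.le_zero.1 hij]
  | succ j ih =>
    rcases Nat.le_succ_iff.1 hij with h | h
    · exact (ih h (by omega)).trans (hq j (by omega)).le
    · rw [h]

/-- every point is in one of the cells -/
theorem exists_cell {q : ℕ → ℝ} {y : ℝ} (h0 : q 0 < y) (h1 : y ≤ q (H + 1)) :
    ∃ h : Fin (H + 1), q h < y ∧ y ≤ q ((h : ℕ) + 1) := by
  classical
  have hex : ∃ m, y ≤ q m := ⟨H + 1, h1⟩
  have hm := Nat.find_spec hex
  have hmin := fun m => Nat.find_min hex (m := m)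
  have hle : Nat.find hex ≤ H + 1 := Nat.find_min' hex h1
  obtain ⟨m, hmm⟩ : ∃ m, Nat.find hex = m + 1 := by
    refine ⟨Nat.find hex - 1, ?_⟩
    have : Nat.find hex ≠ 0 := fun h => by
      rw [h] at hm
      exact absurd h0 (not_lt.2 hm)
    omega
  rw [hmm] at hm hle
  refine ⟨⟨m, by omega⟩, ?_, hm⟩
  exact not_le.1 (hmin m (by omega))

/-- the set of one cell -/
theorem split {q : ℕ → ℝ} (hq : ∀ h, h ≤ H → q h < q (h + 1)) {R : Set (E → ℝ)}
    (hR : MeasurableSet R) (a : E) (h0 : ∀ x ∈ R, q 0 < x a ∧ x a ≤ q (H + 1))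
    {g : (E → ℝ) → ℝ} (hg : IntegrableOn g R) : ∫ x in R, g x =
      ∑ h : Fin (H + 1), ∫ x in R ∩ {x | q h < x a ∧ x a ≤ q ((h : ℕ) + 1)}, g x := by
  have hU : R = ⋃ h : Fin (H + 1), R ∩ {x | q h < x a ∧ x a ≤ q ((h : ℕ) + 1)} := by
    ext x
    simp only [mem_iUnion, mem_inter_iff, mem_ofPred_eq]
    constructor
    · intro hx
      obtain ⟨h, h1⟩ := exists_cell (h0 x hx).1 (h0 x hx).2
      exact ⟨h, hx, h1⟩
    · rintro ⟨_, hx, _⟩
      exact hx
  have hm : ∀ h : Fin (H + 1), MeasurableSet (R ∩ {x : E → ℝ | q h < x a ∧ x a ≤ q ((h : ℕ) + 1)}) :=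
    fun h => hR.inter ((measurableSet_lt measurable_const (measurable_pi_apply a)).inter
      (measurableSet_le (measurable_pi_apply a) measurable_const))
  conv_lhs => rw [hU]
  refine integral_iUnion_fintype hm ?_ fun h => hg.mono_set inter_subset_left
  intro i j hij
  rw [Function.onFun, Set.disjoint_left]
  rintro x ⟨-, hi1, hi2⟩ ⟨-, hj1, hj2⟩
  rcases lt_or_gt_of_ne (fun h => hij (Fin.ext h) : (i : ℕ) ≠ j) with h | h
  · have := mono_le hq (show (i : ℕ) + 1 ≤ j by omega) (by omega)
    linarith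
  · have := mono_le hq (show (j : ℕ) + 1 ≤ i by omega) (by omega)
    linarith

/-- the normalised integral over the cells of the coordinates in `A` -/
noncomputable def FA (l : ℕ → ℝ) (S : Set (E → ℝ)) (H : ℕ)
    (Q : E → (E → Fin (H + 1)) → ℕ → ℝ) (g : (E → ℝ) → ℝ) (A : Finset E)
    (c : E → Fin (H + 1)) : ℝ :=
  (∫ x in RA S H Q A c, g x) / ((∏ e' ∈ A, wts H l (c e')) * vol S)

theorem main (hS : MeasurableSet S) (T : Tree S H l) (hb : ∀ x ∈ S, ∀ e, 0 < x e ∧ x e ≤ 2)
    (h0 : l 0 = 0) (h1 : l (H + 1) = 1) (hl : ∀ h, h ≤ H → l h < l (h + 1))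
    {g : (E → ℝ) → ℝ} (hg : IntegrableOn g S) (A : Finset E) :
    (∀ a ∈ A, ∀ b, b < a → b ∈ A) → EE (wts H l) (FA l S H T.Q g A) = mean S g := by
  have hw : ∀ h : Fin (H + 1), wts H l h ≠ 0 := fun h => by
    unfold wts
    have := hl h (Nat.lt_succ_iff.1 h.2)
    linarith
  have hs1 : ∑ h, wts H l h = 1 := by
    unfold wts
    rw [Fin.sum_univ_eq_sum_range (fun h => l (h + 1) - l h), Finset.sum_range_sub, h1, h0, sub_zero]
  induction A using Finset.induction_on_max with
  | empty =>
    intro _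
    have : FA l S H T.Q g ∅ = fun _ => mean S g := by
      funext c
      unfold FA mean
      rw [Finset.prod_empty, one_mul]
      congr 2
      congr 1
      ext x
      simp [RA]
    rw [this, EE_const hs1]
  | insert a s hmax ih =>
    intro hlow
    have ha : a ∉ s := fun h => lt_irrefl _ (hmax a h)
    have hs : s = Finset.univ.filter (fun e' => e' < a) := by
      ext b
      simp only [Finset.mem_filter, Finset.mem_univ, true_and]
      refine ⟨fun h => hmax b h, fun h => ?_⟩
      rcases Finset.mem_insert.1 (hlow a (Finset.mem_insert_self _ _) b h) with h' | h'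
      · exact absurd h' h.ne
      · exact h'
    have hlow' : ∀ x ∈ s, ∀ b, b < x → b ∈ s := fun x hx b hb => by
      rw [hs, Finset.mem_filter]
      exact ⟨Finset.mem_univ _, hb.trans (hmax x hx)⟩
    rw [← ih hlow', EE_split _ hs1 a]
    refine EE_congr fun c => ?_
    have hne : ∀ h : Fin (H + 1), ∀ b ∈ s, Function.update c a h b = c b := fun h b hbs =>
      Function.update_of_ne (hmax b hbs).ne h c
    have hQ : ∀ h : Fin (H + 1), T.Q a (Function.update c a h) = T.Q a c := fun h =>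
      T.pred a _ _ fun e' he' => Function.update_of_ne he'.ne h c
    have hQ' : ∀ h : Fin (H + 1), ∀ b ∈ s, T.Q b (Function.update c a h) = T.Q b c :=
      fun h b hbs => T.pred b _ _ fun e' he' =>
        Function.update_of_ne (he'.trans (hmax b hbs)).ne h c
    have hset : ∀ h : Fin (H + 1), RA S H T.Q (insert a s) (Function.update c a h) =
        RA S H T.Q s c ∩ {x | T.Q a c h < x a ∧ x a ≤ T.Q a c ((h : ℕ) + 1)} := by
      intro h
      ext x
      simp only [RA, mem_ofPred_eq, Finset.forall_mem_insert, mem_inter_iff, Function.update_self,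
        hQ]
      constructor
      · rintro ⟨hxS, hxa, hx⟩
        refine ⟨⟨hxS, fun b hbs => ?_⟩, hxa⟩
        have := hx b hbs
        rwa [hne h b hbs, hQ' h b hbs] at this
      · rintro ⟨⟨hxS, hx⟩, hxa⟩
        refine ⟨hxS, hxa, fun b hbs => ?_⟩
        rw [hne h b hbs, hQ' h b hbs]
        exact hx b hbs
    have hprod : ∀ h : Fin (H + 1), ∏ e' ∈ insert a s, wts H l (Function.update c a h e') =
        wts H l h * ∏ e' ∈ s, wts H l (c e') := by
      intro h
      rw [Finset.prod_insert ha, Function.update_self]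
      congr 1
      exact Finset.prod_congr rfl fun b hbs => by rw [hne h b hbs]
    have hsub : RA S H T.Q s c ⊆ S := fun x hx => hx.1
    have key := split (T.lt a c) (meas hS T.Q s c) a (fun x hx => by
      rw [T.zero, T.top]
      exact hb x hx.1 a) (hg.mono_set hsub)
    unfold FA
    rw [key, Finset.sum_div]
    refine Finset.sum_congr rfl fun h _ => ?_
    rw [hset, hprod, mul_assoc, ← mul_div_assoc, mul_div_mul_left _ _ (hw h)]

end AvgAux

open AvgAux in
theorem stAvg (h : StVolR) : StAvg := by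
  intro E _ _ S H l T hS hb hS0 h0 h1 hl e g hg
  have hv := (h E S H l T hS hb hS0 h0 h1 hl).1 e
  rw [← main hS T hb h0 h1 hl hg (Finset.univ.filter (fun e' => e' < e)) fun a ha b hba => by
    rw [Finset.mem_filter] at ha ⊢
    exact ⟨Finset.mem_univ _, hba.trans ha.2⟩]
  refine EE_congr fun c => ?_
  unfold FA mean
  rw [RA_lt, (hv c).2.1]

end Pool.Agent.Lib.MP_193d8d_pr
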