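import Pool.Agent.Lib.MP_193d8d_pr.StA
import Pool.Agent.Lib.MP_193d8d_pr.Base

set_option autoImplicit false
open MeasureTheory Set

namespace Pool.Agent.Lib.MP_193d8d_pr

/-! # B3: many cherries -/

namespace BavgAux

/-! ## edges -/

theorem edge_eq {n : ℕ} {i j i' j' : Fin n} {h : i ≠ j} {h' : i' ≠ j'}
    (he : edge i j h = edge i' j' h') : (i = i' ∧ j = j') ∨ (i = j' ∧ j = i') := by
  unfold edge at he
  split_ifs at he with h1 h2 h2 <;> rw [Edge.mk.injEq] at he
  · exact Or.inl he
  · exact Or.inr he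
  · exact Or.inr ⟨he.2, he.1⟩
  · exact Or.inl ⟨he.2, he.1⟩

theorem edge_mk {n : ℕ} (e : Edge n) : edge e.a e.b e.lt.ne = e := by
  unfold edge
  rw [dif_pos e.lt]

theorem edge_symm {n : ℕ} {i j : Fin n} (h : i ≠ j) : edge i j h = edge j i h.symm := by
  unfold edge
  rcases lt_or_gt_of_ne h with h1 | h1
  · rw [dif_pos h1, dif_neg (not_lt.2 h1.le)]
  · rw [dif_neg (not_lt.2 h1.le), dif_pos h1]

theorem sum_edges {n : ℕ} (g : Fin n → Fin n → ℝ) (hg : ∀ i j, g i j = g j i) :
    ∑ i, ∑ j, g i j = 2 * ∑ e : Edge n, g e.a e.b + ∑ i, g i i := by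
  have h1 : ∑ e : Edge n, g e.a e.b =
      ∑ p ∈ Finset.univ.filter (fun p : Fin n × Fin n => p.1 < p.2), g p.1 p.2 := by
    refine Finset.sum_bij (fun e _ => (e.a, e.b)) ?_ ?_ ?_ ?_
    · intro e _
      simpa using e.lt
    · intro e _ e' _ h
      rw [Prod.mk.injEq] at h
      exact Edge.ext h.1 h.2
    · intro p hp
      exact ⟨⟨p.1, p.2, (Finset.mem_filter.1 hp).2⟩, Finset.mem_univ _, rfl⟩
    · intro e _
      rfl
  have h2 : ∑ p ∈ Finset.univ.filter (fun p : Fin n × Fin n => p.2 < p.1), g p.1 p.2 =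
      ∑ p ∈ Finset.univ.filter (fun p : Fin n × Fin n => p.1 < p.2), g p.1 p.2 := by
    refine Finset.sum_bij (fun p _ => p.swap) ?_ ?_ ?_ ?_
    · intro p hp
      simpa using hp
    · intro p _ q _ h
      exact Prod.swap_injective h
    · intro p hp
      exact ⟨p.swap, by simpa using hp, Prod.swap_swap p⟩
    · intro p _
      exact hg _ _
  have h3 : ∑ i, ∑ j, g i j = ∑ p : Fin n × Fin n, ((if p.1 < p.2 then g p.1 p.2 else 0) +
      (if p.2 < p.1 then g p.1 p.2 else 0) + (if p.1 = p.2 then g p.1 p.2 else 0)) := by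
    rw [← Fintype.sum_prod_type' (f := g)]
    refine Finset.sum_congr rfl fun p _ => ?_
    rcases lt_trichotomy p.1 p.2 with h | h | h
    · rw [if_pos h, if_neg (not_lt.2 h.le), if_neg h.ne, add_zero, add_zero]
    · rw [if_neg h.not_lt, if_neg (by rw [h]; exact lt_irrefl _), if_pos h, zero_add, zero_add]
    · rw [if_neg (not_lt.2 h.le), if_pos h, if_neg h.ne', zero_add, add_zero]
  rw [h3, Finset.sum_add_distrib, Finset.sum_add_distrib, ← Finset.sum_filter,
    ← Finset.sum_filter, h2, ← h1, Fintype.sum_prod_type]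
  have h4 : ∀ i : Fin n, ∑ j, (if i = j then g i j else 0) = g i i := fun i => by
    rw [Finset.sum_ite_eq, if_pos (Finset.mem_univ i)]
  rw [Finset.sum_congr rfl fun i _ => h4 i]
  ring

/-! ## the deterministic inequalities -/

theorem tri (a b c : ℝ) : 2 * |a| ≤ |a + b| + |a + c| + |b + c| := by
  have h1 : 2 * |a| = |(a + b) + (a + c) - (b + c)| := by
    rw [show (a + b) + (a + c) - (b + c) = 2 * a by ring, abs_mul, abs_two]
  rw [h1]
  calc |(a + b) + (a + c) - (b + c)| ≤ |(a + b) + (a + c)| + |b + c| := abs_sub _ _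
    _ ≤ |a + b| + |a + c| + |b + c| := by
      have := abs_add_le (a + b) (a + c)
      linarith

theorem quad {α : Type} [Fintype α] (z y : α → ℝ) (hz : ∀ i, 0 ≤ z i) :
    (∑ i, z i) * ∑ i, z i * (y i + |y i| / 3) ≤
      ∑ i, ∑ j, z i * z j * max 0 (y i + y j) := by
  set m := ∑ i, z i with hm
  set B := ∑ i, z i * |y i| with hB
  set Y := ∑ i, z i * y i with hY
  set A := ∑ i, ∑ j, z i * z j * |y i + y j| with hA
  have hm0 : 0 ≤ m := Finset.sum_nonneg fun i _ => hz i
  have e1 : ∑ i, z i * (y i + |y i| / 3) = Y + B / 3 := by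
    rw [hY, hB, Finset.sum_div, ← Finset.sum_add_distrib]
    exact Finset.sum_congr rfl fun i _ => by ring
  have e2 : ∑ i, ∑ j, z i * z j * max 0 (y i + y j) = m * Y + A / 2 := by
    have h1 : ∀ x : ℝ, max 0 x = x / 2 + |x| / 2 := by
      intro x
      rcases le_total 0 x with h | h
      · rw [max_eq_right h, abs_of_nonneg h]; ring
      · rw [max_eq_left h, abs_of_nonpos h]; ring
    have h2 : ∀ i, ∑ j, z i * z j * max 0 (y i + y j) =
        (z i * y i / 2) * m + (z i / 2) * Y + (∑ j, z i * z j * |y i + y j|) / 2 := by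
      intro i
      rw [hm, hY, Finset.mul_sum, Finset.mul_sum, Finset.sum_div, ← Finset.sum_add_distrib,
        ← Finset.sum_add_distrib]
      exact Finset.sum_congr rfl fun j _ => by rw [h1]; ring
    rw [Finset.sum_congr rfl fun i _ => h2 i, Finset.sum_add_distrib, Finset.sum_add_distrib,
      ← Finset.sum_mul, ← Finset.sum_mul, ← Finset.sum_div, ← Finset.sum_div, ← Finset.sum_div]
    ring
  have e3 : 2 * m * m * B ≤ 3 * m * A := by
    have h1 : ∑ i, ∑ j, ∑ l, z i * z j * z l * (2 * |y i|) ≤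
        ∑ i, ∑ j, ∑ l, z i * z j * z l * (|y i + y j| + |y i + y l| + |y j + y l|) :=
      Finset.sum_le_sum fun i _ => Finset.sum_le_sum fun j _ => Finset.sum_le_sum fun l _ =>
        mul_le_mul_of_nonneg_left (tri _ _ _) (mul_nonneg (mul_nonneg (hz i) (hz j)) (hz l))
    have h2 : ∑ i, ∑ j, ∑ l, z i * z j * z l * (2 * |y i|) = 2 * m * m * B := by
      have : ∀ i, ∑ j, ∑ l, z i * z j * z l * (2 * |y i|) = 2 * m * m * (z i * |y i|) := by
        intro i
        have : ∀ j, ∑ l, z i * z j * z l * (2 * |y i|) = z j * (2 * m * (z i * |y i|)) := by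
          intro j
          rw [hm, ← Finset.sum_mul, ← Finset.mul_sum]
          ring
        rw [Finset.sum_congr rfl fun j _ => this j, ← Finset.sum_mul, ← hm]
        ring
      rw [Finset.sum_congr rfl fun i _ => this i, ← Finset.mul_sum]
    have h3 : ∑ i, ∑ j, ∑ l, z i * z j * z l * |y i + y j| = m * A := by
      have : ∀ i j, ∑ l, z i * z j * z l * |y i + y j| = m * (z i * z j * |y i + y j|) := by
        intro i j
        rw [hm, ← Finset.sum_mul, ← Finset.mul_sum]
        ring
      rw [Finset.sum_congr rfl fun i _ => Finset.sum_congr rfl fun j _ => this i j, hA,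
        Finset.mul_sum]
      exact Finset.sum_congr rfl fun i _ => (Finset.mul_sum _ _ _).symm
    have h4 : ∑ i, ∑ j, ∑ l, z i * z j * z l * |y i + y l| = m * A := by
      rw [← h3]
      refine Finset.sum_congr rfl fun i _ => ?_
      rw [Finset.sum_comm]
      exact Finset.sum_congr rfl fun j _ => Finset.sum_congr rfl fun l _ => by ring
    have h5 : ∑ i, ∑ j, ∑ l, z i * z j * z l * |y j + y l| = m * A := by
      rw [← h3, Finset.sum_comm]
      refine Finset.sum_congr rfl fun j _ => ?_
      rw [Finset.sum_comm]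
      exact Finset.sum_congr rfl fun l _ => Finset.sum_congr rfl fun i _ => by ring
    have h6 : ∑ i, ∑ j, ∑ l, z i * z j * z l * (|y i + y j| + |y i + y l| + |y j + y l|) =
        3 * m * A := by
      simp only [mul_add, Finset.sum_add_distrib]
      rw [h3, h4, h5]
      ring
    rw [h2, h6] at h1
    exact h1
  rw [e1, e2]
  rcases hm0.eq_or_lt with h0 | h0
  · have hA0 : 0 ≤ A := Finset.sum_nonneg fun i _ => Finset.sum_nonneg fun j _ =>
      mul_nonneg (mul_nonneg (hz i) (hz j)) (abs_nonneg _)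
    rw [← h0]
    linarith
  · have h1 : 2 * m * B ≤ 3 * A := by
      refine le_of_mul_le_mul_left ?_ h0
      linarith
    have h2 : m * (Y + B / 3) = m * Y + m * B / 3 := by ring
    rw [h2]
    linarith

theorem comb {n : ℕ} (Z Y : Fin n → Fin n → ℝ) (K : ℝ) (hZs : ∀ i j, Z i j = Z j i)
    (hYs : ∀ i j, Y i j = Y j i) (hZ0 : ∀ i, Z i i = 0) (hZ1 : ∀ i j, Z i j = 0 ∨ Z i j = 1)
    (hY : ∀ i j, |Y i j| ≤ K) :
    (∑ i, ∑ k, Z i k * ((∑ j ∈ Finset.univ.filter (fun j => j ≠ i ∧ j ≠ k), Z j k) *
      (Y i k + |Y i k| / 3) - 2 / 3 * K)) / 2 ≤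
    ∑ e : Edge n, ∑ k, Z e.a k * Z k e.b * max 0 (Y e.a k + Y k e.b) := by
  have hZn : ∀ i j, 0 ≤ Z i j := fun i j => by
    rcases hZ1 i j with h | h <;> rw [h]
    exact zero_le_one
  have h1 := sum_edges (fun i j => ∑ k, Z i k * Z k j * max 0 (Y i k + Y k j)) (by
    intro i j
    refine Finset.sum_congr rfl fun k _ => ?_
    rw [hZs i k, hZs k j, hYs i k, hYs k j, mul_comm (Z k i), add_comm (Y k i)])
  have h2 : ∑ k, (∑ i, Z i k) * ∑ i, Z i k * (Y i k + |Y i k| / 3) ≤
      ∑ i, ∑ j, ∑ k, Z i k * Z k j * max 0 (Y i k + Y k j) := by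
    have h3 : ∑ i, ∑ j, ∑ k, Z i k * Z k j * max 0 (Y i k + Y k j) =
        ∑ k, ∑ i, ∑ j, Z i k * Z j k * max 0 (Y i k + Y j k) := by
      have h4 : ∀ i, ∑ j, ∑ k, Z i k * Z k j * max 0 (Y i k + Y k j) =
          ∑ k, ∑ j, Z i k * Z j k * max 0 (Y i k + Y j k) := by
        intro i
        rw [Finset.sum_comm]
        exact Finset.sum_congr rfl fun k _ => Finset.sum_congr rfl fun j _ => by
          rw [hZs k j, hYs k j]
      rw [Finset.sum_congr rfl fun i _ => h4 i, Finset.sum_comm]
    rw [h3]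
    exact Finset.sum_le_sum fun k _ => quad (fun i => Z i k) (fun i => Y i k) fun i => hZn i k
  have h5 : ∑ i, ∑ k, Z i k * ((∑ j ∈ Finset.univ.filter (fun j => j ≠ i ∧ j ≠ k), Z j k) *
      (Y i k + |Y i k| / 3) - 2 / 3 * K) ≤
      (∑ k, (∑ i, Z i k) * ∑ i, Z i k * (Y i k + |Y i k| / 3)) -
      ∑ i, ∑ k, Z i k * Z k i * max 0 (Y i k + Y k i) := by
    have h6 : ∑ k, (∑ i, Z i k) * ∑ i, Z i k * (Y i k + |Y i k| / 3) =
        ∑ i, ∑ k, (∑ j, Z j k) * (Z i k * (Y i k + |Y i k| / 3)) := by
      rw [Finset.sum_comm]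
      exact Finset.sum_congr rfl fun k _ => Finset.mul_sum _ _ _
    rw [h6, ← Finset.sum_sub_distrib]
    refine Finset.sum_le_sum fun i _ => ?_
    rw [← Finset.sum_sub_distrib]
    refine Finset.sum_le_sum fun k _ => ?_
    rcases hZ1 i k with h | h
    · rw [h]
      simp
    · have hik : i ≠ k := by
        rintro rfl
        rw [hZ0] at h
        exact zero_ne_one h
      have h7 : ∑ j, Z j k = 1 + ∑ j ∈ Finset.univ.filter (fun j => j ≠ i ∧ j ≠ k), Z j k := by
        rw [← Finset.sum_filter_add_sum_filter_not Finset.univ (fun j => j ≠ i ∧ j ≠ k)]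
        have h8 : Finset.univ.filter (fun j => ¬ (j ≠ i ∧ j ≠ k)) = {i, k} := by
          ext j
          simp only [Finset.mem_filter, Finset.mem_univ, true_and, Finset.mem_insert,
            Finset.mem_singleton]
          tauto
        rw [h8, Finset.sum_pair hik, h, hZ0]
        ring
      rw [h7, h, ← hZs i k, h, ← hYs i k]
      have h9 := hY i k
      have h10 : -(2 / 3 * K) ≤ (Y i k + |Y i k| / 3) - max 0 (Y i k + Y i k) := by
        rcases le_total 0 (Y i k) with h' | h'
        · rw [abs_of_nonneg h'] at h9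
          rw [max_eq_right (by linarith), abs_of_nonneg h']
          linarith
        · rw [abs_of_nonpos h'] at h9
          rw [max_eq_left (by linarith), abs_of_nonpos h']
          linarith
      nlinarith
  have h11 : ∑ i, ∑ k, Z i k * Z k i * max 0 (Y i k + Y k i) =
      ∑ i, (fun i j => ∑ k, Z i k * Z k j * max 0 (Y i k + Y k j)) i i := rfl
  linarith

theorem ratio {S M B ch K : ℝ} (hB : 0 < B) (hM : 0 ≤ M) (hS0 : 0 ≤ S) (hS : S ≤ M * ch)
    (hSK : S ≤ 2 * K * M) (hch : 0 ≤ ch) : S / B - 2 * K / B ^ 2 * (M * |M - B|) ≤ ch := by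
  rcases hM.eq_or_lt with h0 | h0
  · rw [← h0, zero_mul] at hS
    rw [← h0, le_antisymm hS hS0]
    simpa using hch
  · have h1 : S * |M - B| ≤ 2 * K * M * |M - B| := mul_le_mul_of_nonneg_right hSK (abs_nonneg _)
    have h2 : S / B - ch ≤ S * |M - B| / B ^ 2 := by
      have h3 : S / M ≤ ch := by
        rw [div_le_iff₀ h0]
        linarith
      have h4 : S / B - S / M ≤ S * |M - B| / B ^ 2 := by
        have h5 : S / B - S / M = S * (M - B) / (B * M) := by
          field_simp
        rw [h5]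
        rcases le_total B M with h | h
        · rw [abs_of_nonneg (by linarith)]
          refine div_le_div_of_nonneg_left (mul_nonneg hS0 (by linarith)) (by positivity) ?_
          rw [sq]
          exact mul_le_mul_of_nonneg_left h hB.le
        · refine le_trans (b := 0) ?_ (by positivity)
          exact div_nonpos_of_nonpos_of_nonneg (mul_nonpos_of_nonneg_of_nonpos hS0 (by linarith))
            (by positivity)
      linarith
    have h6 : S * |M - B| / B ^ 2 ≤ 2 * K / B ^ 2 * (M * |M - B|) := by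
      rw [div_mul_eq_mul_div]
      refine div_le_div_of_nonneg_right ?_ (by positivity)
      linarith
    linarith

/-! ## probability -/

section prob

variable {ι κ : Type} [Fintype ι] [DecidableEq ι] [Fintype κ] {p : κ → ℝ}

theorem EE_indep0 (hp1 : ∑ h, p h = 1) (e : ι) (u : κ → ℝ) (hu : ∑ h, p h * u h = 0)
    (f : (ι → κ) → ℝ) (hf : ∀ c h, f (Function.update c e h) = f c) :
    EE p (fun c => u (c e) * f c) = 0 := by
  rw [EE_indep hp1 e u f hf, hu, zero_mul]

theorem EE_single (hp1 : ∑ h, p h = 1) (e : ι) (u : κ → ℝ) :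
    EE p (fun c => u (c e)) = ∑ h, p h * u h := by
  have := EE_indep (p := p) hp1 e u (fun _ => 1) (fun _ _ => rfl)
  rw [EE_one hp1] at this
  simpa using this

theorem var_sum {α : Type} (s : Finset α) (X : α → (ι → κ) → ℝ) (v : ℝ)
    (h0 : ∀ k ∈ s, ∀ l ∈ s, k ≠ l → EE p (fun c => X k c * X l c) = 0)
    (h1 : ∀ k ∈ s, EE p (fun c => X k c * X k c) ≤ v) :
    EE p (fun c => (∑ k ∈ s, X k c) ^ 2) ≤ s.card * v := by
  have h2 : EE p (fun c => (∑ k ∈ s, X k c) ^ 2) =
      ∑ k ∈ s, ∑ l ∈ s, EE p (fun c => X k c * X l c) := by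
    rw [← Finset.sum_congr rfl fun k _ => EE_sum p s fun l c => X k c * X l c, ← EE_sum]
    refine EE_congr fun c => ?_
    rw [sq, Finset.sum_mul_sum]
  rw [h2, ← nsmul_eq_mul]
  refine Finset.sum_le_card_nsmul s _ v fun k hk => ?_
  rw [Finset.sum_eq_single k (fun l hl hlk => h0 k hk l hl hlk.symm) (fun h => absurd hk h)]
  exact h1 k hk

theorem EE_abs_sqrt (hp : ∀ h, 0 ≤ p h) (hp1 : ∑ h, p h = 1) (f : (ι → κ) → ℝ) {v : ℝ}
    (h : EE p (fun c => f c ^ 2) ≤ v) : EE p (fun c => |f c|) ≤ Real.sqrt v :=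
  Real.le_sqrt_of_sq_le ((EE_abs_le hp hp1 f).trans h)

end prob

/-! ## the two counts -/

section counts

variable {n : ℕ} {κ : Type} [Fintype κ] [DecidableEq κ]

/-- not the last cell -/
def zz (last : κ) (h : κ) : ℝ := if h = last then 0 else 1

theorem zz_01 (last h : κ) : zz last h = 0 ∨ zz last h = 1 := by
  unfold zz
  split_ifs
  · exact Or.inl rfl
  · exact Or.inr rfl

theorem zz_nonneg (last h : κ) : 0 ≤ zz last h := by
  rcases zz_01 last h with h' | h' <;> rw [h']
  exact zero_le_one

theorem zz_sq (last h : κ) : zz last h * zz last h = zz last h := by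
  rcases zz_01 last h with h' | h' <;> rw [h'] <;> ring

variable {p : κ → ℝ}

theorem sum_zz (hp1 : ∑ h, p h = 1) (last : κ) : ∑ h, p h * zz last h = 1 - p last := by
  have h1 : ∀ h, p h * zz last h = p h - if h = last then p h else 0 := by
    intro h
    unfold zz
    split_ifs <;> ring
  rw [Finset.sum_congr rfl fun h _ => h1 h, Finset.sum_sub_distrib, hp1,
    Finset.sum_ite_eq' Finset.univ last, if_pos (Finset.mem_univ _)]

/-- not the last cell, for ordered pairs -/
def Z (last : κ) (c : Edge n → κ) (i j : Fin n) : ℝ := ext 0 (fun e => zz last (c e)) i j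

theorem Z_ne (last : κ) (c : Edge n → κ) {i j : Fin n} (h : i ≠ j) :
    Z last c i j = zz last (c (edge i j h)) := ext_ne _ _ h

theorem Z_self (last : κ) (c : Edge n → κ) (i : Fin n) : Z last c i i = 0 := ext_self _ _ i

theorem Z_symm (last : κ) (c : Edge n → κ) (i j : Fin n) : Z last c i j = Z last c j i :=
  ext_symm _ _ i j

theorem Z_01 (last : κ) (c : Edge n → κ) (i j : Fin n) : Z last c i j = 0 ∨ Z last c i j = 1 := by
  by_cases h : i = j
  · rw [h, Z_self]
    exact Or.inl rfl
  · rw [Z_ne last c h]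
    exact zz_01 _ _

theorem Z_nonneg (last : κ) (c : Edge n → κ) (i j : Fin n) : 0 ≤ Z last c i j := by
  rcases Z_01 last c i j with h' | h' <;> rw [h']
  exact zero_le_one

/-- the other vertices -/
def oth (i k : Fin n) : Finset (Fin n) := Finset.univ.filter (fun j => j ≠ i ∧ j ≠ k)

theorem mem_oth {i k j : Fin n} : j ∈ oth i k ↔ j ≠ i ∧ j ≠ k := by
  unfold oth
  simp

theorem card_oth {i k : Fin n} (h : i ≠ k) : ((oth i k).card : ℝ) = n - 2 := by
  have h1 := Finset.card_filter_add_card_filter_not (s := (Finset.univ : Finset (Fin n)))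
    (fun j => j ≠ i ∧ j ≠ k)
  have h8 : Finset.univ.filter (fun j => ¬ (j ≠ i ∧ j ≠ k)) = {i, k} := by
    ext j
    simp only [Finset.mem_filter, Finset.mem_univ, true_and, Finset.mem_insert,
      Finset.mem_singleton]
    tauto
  rw [h8, Finset.card_pair h, Finset.card_univ, Fintype.card_fin] at h1
  have h2 : (((oth i k).card + 2 : ℕ) : ℝ) = n := by exact_mod_cast h1
  push_cast at h2
  linarith

variable (hp0 : ∀ h, 0 ≤ p h) (hp1 : ∑ h, p h = 1) (last : κ)

include hp1 in
theorem sum_u : ∑ h, p h * (zz last h - (1 - p last)) = 0 := by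
  have h1 : ∀ h, p h * (zz last h - (1 - p last)) = p h * zz last h - p h * (1 - p last) :=
    fun h => by ring
  rw [Finset.sum_congr rfl fun h _ => h1 h, Finset.sum_sub_distrib, sum_zz hp1,
    ← Finset.sum_mul, hp1]
  ring

include hp1 in
theorem EE_zz (e : Edge n) : EE p (fun c => zz last (c e)) = 1 - p last := by
  rw [EE_single hp1 e (zz last), sum_zz hp1]

include hp0 hp1 in
/-- the variance of the number of the other neighbours -/
theorem var_M {i k : Fin n} (hik : i ≠ k) :
    EE p (fun c => ((∑ j ∈ oth i k, Z last c j k) - ((n : ℝ) - 2) * (1 - p last)) ^ 2) ≤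
      ((n : ℝ) - 2) * (1 - p last) := by
  have h1 : ∀ c : Edge n → κ, (∑ j ∈ oth i k, Z last c j k) - ((n : ℝ) - 2) * (1 - p last) =
      ∑ j ∈ oth i k, (Z last c j k - (1 - p last)) := by
    intro c
    rw [Finset.sum_sub_distrib, Finset.sum_const, nsmul_eq_mul, card_oth hik]
  simp only [h1]
  rw [← card_oth hik]
  refine var_sum _ (fun j c => Z last c j k - (1 - p last)) _ ?_ ?_
  · intro j hj l hl hjl
    have hj' := (mem_oth.1 hj).2
    have hl' := (mem_oth.1 hl).2
    have h2 : edge l k hl' ≠ edge j k hj' := by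
      intro he
      rcases edge_eq he with h | h
      · exact hjl h.1.symm
      · exact hl' h.1
    refine (EE_congr fun c => ?_).trans (EE_indep0 hp1 (edge j k hj')
      (fun h => zz last h - (1 - p last)) (sum_u hp1 last)
      (fun c => zz last (c (edge l k hl')) - (1 - p last)) fun c h => ?_)
    · rw [Z_ne last c hj', Z_ne last c hl']
    · rw [Function.update_of_ne h2]
  · intro j hj
    have hj' := (mem_oth.1 hj).2
    have h2 : EE p (fun c : Edge n → κ => (Z last c j k - (1 - p last)) *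
        (Z last c j k - (1 - p last))) = (1 - p last) - (1 - p last) ^ 2 := by
      have h3 : ∀ c : Edge n → κ, (Z last c j k - (1 - p last)) * (Z last c j k - (1 - p last)) =
          (1 - 2 * (1 - p last)) * zz last (c (edge j k hj')) + (1 - p last) ^ 2 := by
        intro c
        rw [Z_ne last c hj']
        linear_combination zz_sq last (c (edge j k hj'))
      simp only [h3]
      rw [EE_add, EE_mul_left, EE_zz hp1, EE_const hp1]
      ring
    rw [h2]
    have := sq_nonneg (1 - p last)
    linarith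

include hp0 hp1 in
/-- the variance of the number of the cherries -/
theorem var_Mc (e : Edge n) :
    EE p (fun c => ((∑ k, Z last c e.a k * Z last c k e.b) -
      ((n : ℝ) - 2) * (1 - p last) ^ 2) ^ 2) ≤ ((n : ℝ) - 2) * (1 - p last) ^ 2 := by
  have hab : e.a ≠ e.b := e.lt.ne
  have h1 : ∀ c : Edge n → κ, (∑ k, Z last c e.a k * Z last c k e.b) -
      ((n : ℝ) - 2) * (1 - p last) ^ 2 =
      ∑ k ∈ oth e.a e.b, (Z last c e.a k * Z last c k e.b - (1 - p last) ^ 2) := by
    intro c
    rw [Finset.sum_sub_distrib, Finset.sum_const, nsmul_eq_mul, card_oth hab]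
    congr 1
    symm
    refine Finset.sum_subset (Finset.subset_univ _) fun k _ hk => ?_
    rw [mem_oth, not_and_or, not_not, not_not] at hk
    rcases hk with rfl | rfl
    · rw [Z_self, zero_mul]
    · rw [Z_self, mul_zero]
  simp only [h1]
  rw [← card_oth hab]
  refine var_sum _ (fun k c => Z last c e.a k * Z last c k e.b - (1 - p last) ^ 2) _ ?_ ?_
  · intro k hk l hl hkl
    have hk1 := (mem_oth.1 hk).1
    have hk2 := (mem_oth.1 hk).2
    have hl1 := (mem_oth.1 hl).1
    have hl2 := (mem_oth.1 hl).2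
    have n1 : edge k e.b hk2 ≠ edge e.a k hk1.symm := by
      intro he
      rcases edge_eq he with h | h
      · exact hk1 h.1
      · exact hab h.2.symm
    have n2 : edge e.a l hl1.symm ≠ edge e.a k hk1.symm := by
      intro he
      rcases edge_eq he with h | h
      · exact hkl h.2.symm
      · exact hk1 h.1.symm
    have n3 : edge l e.b hl2 ≠ edge e.a k hk1.symm := by
      intro he
      rcases edge_eq he with h | h
      · exact hl1 h.1
      · exact hab h.2.symm
    have n4 : edge e.a l hl1.symm ≠ edge k e.b hk2 := by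
      intro he
      rcases edge_eq he with h | h
      · exact hk1 h.1.symm
      · exact hab h.1
    have n5 : edge l e.b hl2 ≠ edge k e.b hk2 := by
      intro he
      rcases edge_eq he with h | h
      · exact hkl h.1.symm
      · exact hl2 h.1
    set X : (Edge n → κ) → ℝ := fun c =>
      zz last (c (edge e.a l hl1.symm)) * zz last (c (edge l e.b hl2)) - (1 - p last) ^ 2 with hX
    have h2 : ∀ c : Edge n → κ, (Z last c e.a k * Z last c k e.b - (1 - p last) ^ 2) *
        (Z last c e.a l * Z last c l e.b - (1 - p last) ^ 2) =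
        (zz last (c (edge e.a k hk1.symm)) - (1 - p last)) *
          (zz last (c (edge k e.b hk2)) * X c) +
        (zz last (c (edge k e.b hk2)) - (1 - p last)) * ((1 - p last) * X c) := by
      intro c
      rw [Z_ne last c hk1.symm, Z_ne last c hk2, Z_ne last c hl1.symm, Z_ne last c hl2, hX]
      ring
    simp only [h2]
    rw [EE_add]
    rw [EE_indep0 hp1 (edge e.a k hk1.symm) (fun h => zz last h - (1 - p last)) (sum_u hp1 last)
      (fun c => zz last (c (edge k e.b hk2)) * X c) (fun c h => by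
        simp only [hX]
        rw [Function.update_of_ne n1, Function.update_of_ne n2, Function.update_of_ne n3]),
      EE_indep0 hp1 (edge k e.b hk2) (fun h => zz last h - (1 - p last)) (sum_u hp1 last)
      (fun c => (1 - p last) * X c) (fun c h => by
        simp only [hX]
        rw [Function.update_of_ne n4, Function.update_of_ne n5]), add_zero]
  · intro k hk
    have hk1 := (mem_oth.1 hk).1
    have hk2 := (mem_oth.1 hk).2
    have n1 : edge k e.b hk2 ≠ edge e.a k hk1.symm := by
      intro he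
      rcases edge_eq he with h | h
      · exact hk1 h.1
      · exact hab h.2.symm
    have h3 : ∀ c : Edge n → κ, (Z last c e.a k * Z last c k e.b - (1 - p last) ^ 2) *
        (Z last c e.a k * Z last c k e.b - (1 - p last) ^ 2) =
        (1 - 2 * (1 - p last) ^ 2) *
          (zz last (c (edge e.a k hk1.symm)) * zz last (c (edge k e.b hk2))) +
          (1 - p last) ^ 4 := by
      intro c
      rw [Z_ne last c hk1.symm, Z_ne last c hk2]
      have e1 := zz_sq last (c (edge e.a k hk1.symm))
      have e2 := zz_sq last (c (edge k e.b hk2))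
      linear_combination (zz last (c (edge k e.b hk2)) * zz last (c (edge k e.b hk2))) * e1 +
        zz last (c (edge e.a k hk1.symm)) * e2
    simp only [h3]
    rw [EE_add, EE_mul_left, EE_const hp1, EE_indep hp1 (edge e.a k hk1.symm) (zz last)
      (fun c => zz last (c (edge k e.b hk2))) (fun c h => by rw [Function.update_of_ne n1]),
      sum_zz hp1, EE_zz hp1]
    have h4 : 0 ≤ (1 - p last) ^ 4 := by positivity
    nlinarith

end counts

section main

variable {n : ℕ} {κ : Type} [Fintype κ] [DecidableEq κ] {p : κ → ℝ}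

theorem abs_psi {y K : ℝ} (h : |y| ≤ K) : |y + |y| / 3| ≤ 4 / 3 * K := by
  have h1 := abs_add_le y (|y| / 3)
  rw [abs_div, abs_abs, abs_of_pos (by norm_num : (0 : ℝ) < 3)] at h1
  linarith

theorem exp_term (hp0 : ∀ h, 0 ≤ p h) (hp1 : ∑ h, p h = 1) (last : κ) {K : ℝ}
    (a : Edge n → (Edge n → κ) → ℝ) (haK : ∀ e c, |a e c| ≤ K)
    (hai : ∀ e c h, a e (Function.update c e h) = a e c) {i k : Fin n} (hik : i ≠ k) :
    (1 - p last) * (((n : ℝ) - 2) * (1 - p last) *
        EE p (fun c => a (edge i k hik) c + |a (edge i k hik) c| / 3) -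
        4 / 3 * K * Real.sqrt (((n : ℝ) - 2) * (1 - p last)) - 2 / 3 * K) ≤
    EE p (fun c => Z last c i k * ((∑ j ∈ oth i k, Z last c j k) *
      (ext 0 (fun e => a e c) i k + |ext 0 (fun e => a e c) i k| / 3) - 2 / 3 * K)) := by
  set e := edge i k hik with he
  have h1 : ∀ c, Z last c i k * ((∑ j ∈ oth i k, Z last c j k) *
      (ext 0 (fun e => a e c) i k + |ext 0 (fun e => a e c) i k| / 3) - 2 / 3 * K) =
      zz last (c e) * ((∑ j ∈ oth i k, Z last c j k) * (a e c + |a e c| / 3) - 2 / 3 * K) := by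
    intro c
    rw [Z_ne last c hik, ext_ne 0 (fun e => a e c) hik]
  simp only [h1]
  have hMi : ∀ (c : Edge n → κ) (h : κ), ∑ j ∈ oth i k, Z last (Function.update c e h) j k =
      ∑ j ∈ oth i k, Z last c j k := by
    intro c h
    refine Finset.sum_congr rfl fun j hj => ?_
    have hj1 := (mem_oth.1 hj).1
    have hj2 := (mem_oth.1 hj).2
    rw [Z_ne last _ hj2, Z_ne last _ hj2, Function.update_of_ne]
    intro h2
    rcases edge_eq h2 with h3 | h3
    · exact hj1 h3.1
    · exact hik h3.2.symm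
  rw [EE_indep hp1 e (zz last)
    (fun c => (∑ j ∈ oth i k, Z last c j k) * (a e c + |a e c| / 3) - 2 / 3 * K)
    (fun c h => by rw [hMi, hai]), sum_zz hp1]
  have hρ : 0 ≤ 1 - p last := by
    rw [← sum_zz hp1 last]
    exact Finset.sum_nonneg fun h _ => mul_nonneg (hp0 h) (zz_nonneg last h)
  refine mul_le_mul_of_nonneg_left ?_ hρ
  rw [EE_sub, EE_const hp1]
  set ν := ((n : ℝ) - 2) * (1 - p last) with hν
  have h2 : EE p (fun c => |(∑ j ∈ oth i k, Z last c j k) - ν|) ≤ Real.sqrt ν :=
    EE_abs_sqrt hp0 hp1 _ (var_M hp0 hp1 last hik)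
  have hK : 0 ≤ K := by
    by_contra hK
    obtain ⟨c⟩ : Nonempty (Edge n → κ) := by
      by_contra hne
      rw [not_nonempty_iff] at hne
      have h3 := EE_one (ι := Edge n) hp1
      unfold EE at h3
      rw [Fintype.sum_empty] at h3
      exact zero_ne_one h3
    have := (abs_nonneg _).trans (haK e c)
    exact hK this
  have h3 : EE p (fun c => ν * (a e c + |a e c| / 3) -
      4 / 3 * K * |(∑ j ∈ oth i k, Z last c j k) - ν|) ≤
      EE p (fun c => (∑ j ∈ oth i k, Z last c j k) * (a e c + |a e c| / 3)) := by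
    refine EE_mono hp0 fun c => ?_
    set D := (∑ j ∈ oth i k, Z last c j k) - ν with hD
    have h4 : ∑ j ∈ oth i k, Z last c j k = ν + D := by rw [hD]; ring
    rw [h4, add_mul]
    have h5 : -(|D| * (4 / 3 * K)) ≤ D * (a e c + |a e c| / 3) := by
      have h6 := neg_abs_le (D * (a e c + |a e c| / 3))
      rw [abs_mul] at h6
      have h7 := mul_le_mul_of_nonneg_left (abs_psi (haK e c)) (abs_nonneg D)
      linarith
    linarith
  rw [EE_sub, EE_mul_left, EE_mul_left] at h3
  have h4 : 4 / 3 * K * EE p (fun c => |(∑ j ∈ oth i k, Z last c j k) - ν|) ≤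
      4 / 3 * K * Real.sqrt ν := mul_le_mul_of_nonneg_left h2 (by positivity)
  linarith

end main

end BavgAux

open BavgAux in
/-- B3: many cherries -/
theorem stBavg : StBavg := by
  intro n κ _ _ p last K a hn hp0 hp1 hK haK hai hMb
  set ρ := 1 - p last with hρ
  set B := ((n : ℝ) - 2) * ρ ^ 2 with hB
  set ν := ((n : ℝ) - 2) * ρ with hν
  have hn' : (3 : ℝ) ≤ n := by exact_mod_cast hn
  have hρ0 : 0 ≤ ρ := by
    rw [hρ, ← sum_zz hp1 last]
    exact Finset.sum_nonneg fun h _ => mul_nonneg (hp0 h) (zz_nonneg last h)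
  have hρ1 : ρ ≤ 1 := by
    have := hp0 last
    linarith
  have hρpos : 0 < ρ := by
    rcases hρ0.eq_or_lt with h | h
    · rw [hB, ← h] at hMb
      norm_num at hMb
    · exact h
  have hνB : ν * ρ = B := by rw [hν, hB]; ring
  have hνB' : B ≤ ν := by
    have h1 : 0 ≤ ν := mul_nonneg (by linarith) hρ0
    have := mul_le_mul_of_nonneg_left hρ1 h1
    linarith
  have hB0 : 0 < B := by linarith
  have hν0 : 0 < ν := by linarith
  have hcard : 0 < (Fintype.card (Edge n) : ℝ) := card_edge_pos (by omega)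
  -- the quantities
  set Y : (Edge n → κ) → Fin n → Fin n → ℝ := fun c i k => ext 0 (fun e => a e c) i k with hY
  have hYK : ∀ c i k, |Y c i k| ≤ K := by
    intro c i k
    simp only [hY]
    by_cases h : i = k
    · rw [h, ext_self, abs_zero]
      exact hK.le
    · rw [ext_ne _ _ h]
      exact haK _ _
  have hYs : ∀ c i k, Y c i k = Y c k i := fun c i k => ext_symm _ _ i k
  set S : (Edge n → κ) → Edge n → ℝ := fun c e =>
    ∑ k, Z last c e.a k * Z last c k e.b * max 0 (Y c e.a k + Y c k e.b) with hS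
  set Mc : (Edge n → κ) → Edge n → ℝ := fun c e => ∑ k, Z last c e.a k * Z last c k e.b with hMc
  set ch : (Edge n → κ) → Edge n → ℝ := fun c e =>
    cherry (fun e' => if c e' = last then -K else a e' c) e with hch
  have hZZ : ∀ c (e : Edge n) k, 0 ≤ Z last c e.a k * Z last c k e.b := fun c e k =>
    mul_nonneg (Z_nonneg _ _ _ _) (Z_nonneg _ _ _ _)
  have hch0 : ∀ c e, 0 ≤ ch c e := fun c e => sup0_nonneg _
  have hMc0 : ∀ c e, 0 ≤ Mc c e := fun c e => Finset.sum_nonneg fun k _ => hZZ c e k
  have hS0 : ∀ c e, 0 ≤ S c e := fun c e => Finset.sum_nonneg fun k _ =>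
    mul_nonneg (hZZ c e k) (le_max_left _ _)
  have hSch : ∀ c e, S c e ≤ Mc c e * ch c e := by
    intro c e
    simp only [hS, hMc]
    rw [Finset.sum_mul]
    refine Finset.sum_le_sum fun k _ => ?_
    rcases Z_01 last c e.a k with h | h
    · rw [h, zero_mul, zero_mul, zero_mul]
    rcases Z_01 last c k e.b with h' | h'
    · rw [h', mul_zero, zero_mul, zero_mul]
    refine mul_le_mul_of_nonneg_left (max_le (hch0 c e) ?_) (hZZ c e k)
    have hk1 : e.a ≠ k := by
      rintro h1
      rw [← h1, Z_self] at h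
      exact zero_ne_one h
    have hk2 : k ≠ e.b := by
      rintro h1
      rw [h1, Z_self] at h'
      exact zero_ne_one h'
    have hl1 : c (edge e.a k hk1) ≠ last := by
      intro h1
      rw [Z_ne last c hk1, h1] at h
      unfold zz at h
      rw [if_pos rfl] at h
      exact zero_ne_one h
    have hl2 : c (edge k e.b hk2) ≠ last := by
      intro h1
      rw [Z_ne last c hk2, h1] at h'
      unfold zz at h'
      rw [if_pos rfl] at h'
      exact zero_ne_one h'
    have h2 := le_sup0 (fun k : Fin n => if k = e.a ∨ k = e.b then 0 else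
      ext 0 (fun e' => if c e' = last then -K else a e' c) e.a k +
        ext 0 (fun e' => if c e' = last then -K else a e' c) k e.b) k
    rw [if_neg (not_or.2 ⟨hk1.symm, hk2⟩), ext_ne _ _ hk1, ext_ne _ _ hk2, if_neg hl1,
      if_neg hl2] at h2
    simp only [hY]
    rw [ext_ne _ _ hk1, ext_ne _ _ hk2]
    exact h2
  have hSK : ∀ c e, S c e ≤ 2 * K * Mc c e := by
    intro c e
    simp only [hS, hMc]
    rw [Finset.mul_sum]
    refine Finset.sum_le_sum fun k _ => ?_
    rw [mul_comm (2 * K)]
    refine mul_le_mul_of_nonneg_left (max_le (by linarith) ?_) (hZZ c e k)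
    have h1 := (abs_le.1 (hYK c e.a k)).2
    have h2 := (abs_le.1 (hYK c k e.b)).2
    linarith
  -- lower bound of the cherries of one edge
  have hsB : Real.sqrt B * Real.sqrt B = B := Real.mul_self_sqrt hB0.le
  have hsB0 : 0 < Real.sqrt B := Real.sqrt_pos.2 hB0
  have hsB1 : 1 ≤ Real.sqrt B := Real.one_le_sqrt.2 hMb
  have hedge : ∀ e, EE p (fun c => S c e) / B - 4 * K / Real.sqrt B ≤ EE p (fun c => ch c e) := by
    intro e
    have h1 : EE p (fun c => S c e / B - 2 * K / B ^ 2 * (Mc c e * |Mc c e - B|)) ≤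
        EE p (fun c => ch c e) := EE_mono hp0 fun c =>
      ratio hB0 (hMc0 c e) (hS0 c e) (hSch c e) (hSK c e) (hch0 c e)
    rw [EE_sub, EE_mul_left] at h1
    have h2 : EE p (fun c => S c e / B) = EE p (fun c => S c e) / B := by
      simp only [div_eq_mul_inv]
      exact EE_mul_right _ _ _
    rw [h2] at h1
    have hvar : EE p (fun c => (Mc c e - B) ^ 2) ≤ B := var_Mc hp0 hp1 last e
    have habs : EE p (fun c => |Mc c e - B|) ≤ Real.sqrt B := EE_abs_sqrt hp0 hp1 _ hvar
    have h3 : EE p (fun c => Mc c e * |Mc c e - B|) ≤ B * Real.sqrt B + B := by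
      have h4 : EE p (fun c => Mc c e * |Mc c e - B|) ≤
          EE p (fun c => B * |Mc c e - B| + (Mc c e - B) ^ 2) := by
        refine EE_mono hp0 fun c => ?_
        have h5 : Mc c e ≤ B + |Mc c e - B| := by
          have := le_abs_self (Mc c e - B)
          linarith
        have h6 := mul_le_mul_of_nonneg_right h5 (abs_nonneg (Mc c e - B))
        rw [add_mul, abs_mul_abs_self] at h6
        calc Mc c e * |Mc c e - B| ≤ B * |Mc c e - B| + (Mc c e - B) * (Mc c e - B) := h6
          _ = B * |Mc c e - B| + (Mc c e - B) ^ 2 := by ring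
      rw [EE_add, EE_mul_left] at h4
      have h7 := mul_le_mul_of_nonneg_left habs hB0.le
      linarith
    have h8 : 2 * K / B ^ 2 * EE p (fun c => Mc c e * |Mc c e - B|) ≤ 4 * K / Real.sqrt B := by
      have h9 : B * Real.sqrt B + B ≤ 2 * (B * Real.sqrt B) := by nlinarith
      calc 2 * K / B ^ 2 * EE p (fun c => Mc c e * |Mc c e - B|)
          ≤ 2 * K / B ^ 2 * (2 * (B * Real.sqrt B)) :=
            mul_le_mul_of_nonneg_left (h3.trans h9) (by positivity)
        _ = 4 * K / Real.sqrt B := by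
            rw [div_mul_eq_mul_div, div_eq_div_iff (by positivity) hsB0.ne']
            linear_combination (4 * K * B) * hsB
    linarith
  -- the sum over the edges
  set L : Edge n → ℝ := fun e => ρ * (ν * EE p (fun c => a e c + |a e c| / 3) -
    4 / 3 * K * Real.sqrt ν - 2 / 3 * K) with hL
  have hsum : ∑ e, L e ≤ ∑ e, EE p (fun c => S c e) := by
    have h1 : EE p (fun c => (∑ i, ∑ k, Z last c i k * ((∑ j ∈ oth i k, Z last c j k) *
        (Y c i k + |Y c i k| / 3) - 2 / 3 * K)) / 2) ≤ EE p (fun c => ∑ e, S c e) :=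
      EE_mono hp0 fun c => comb (fun i k => Z last c i k) (fun i k => Y c i k) K
        (Z_symm last c) (hYs c) (Z_self last c) (Z_01 last c) (hYK c)
    rw [EE_sum] at h1
    have h2 : EE p (fun c => (∑ i, ∑ k, Z last c i k * ((∑ j ∈ oth i k, Z last c j k) *
        (Y c i k + |Y c i k| / 3) - 2 / 3 * K)) / 2) =
        (∑ i, ∑ k, EE p (fun c => Z last c i k * ((∑ j ∈ oth i k, Z last c j k) *
        (Y c i k + |Y c i k| / 3) - 2 / 3 * K))) / 2 := by
      simp only [div_eq_mul_inv]
      rw [EE_mul_right, EE_sum]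
      congr 1
      exact Finset.sum_congr rfl fun i _ => EE_sum _ _ _
    rw [h2] at h1
    set G : Fin n → Fin n → ℝ := fun i k => ext 0 L i k with hG
    have h3 : ∀ i k, G i k ≤ EE p (fun c => Z last c i k * ((∑ j ∈ oth i k, Z last c j k) *
        (Y c i k + |Y c i k| / 3) - 2 / 3 * K)) := by
      intro i k
      by_cases hik : i = k
      · subst hik
        simp only [hG, ext_self, Z_self, zero_mul]
        rw [EE_const hp1]
      · simp only [hG]
        rw [ext_ne 0 L hik]
        exact exp_term hp0 hp1 last a haK hai hik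
    have h4 := sum_edges G (fun i j => ext_symm _ _ i j)
    have h5 : ∑ e : Edge n, G e.a e.b = ∑ e, L e := Finset.sum_congr rfl fun e _ => ext_edge _ _ e
    have h6 : ∑ i, G i i = 0 := Finset.sum_eq_zero fun i _ => ext_self _ _ i
    rw [h5, h6, add_zero] at h4
    have h7 : ∑ i, ∑ k, G i k ≤ ∑ i, ∑ k, EE p (fun c => Z last c i k *
        ((∑ j ∈ oth i k, Z last c j k) * (Y c i k + |Y c i k| / 3) - 2 / 3 * K)) :=
      Finset.sum_le_sum fun i _ => Finset.sum_le_sum fun k _ => h3 i k
    linarith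
  have hAVL : AV L ≤ AV (fun e => EE p (fun c => S c e)) := by
    unfold AV
    exact div_le_div_of_nonneg_right hsum hcard.le
  have hAVL' : AV L = B * AV (fun e => EE p (fun c => a e c + |a e c| / 3)) -
      ρ * (4 / 3 * K * Real.sqrt ν + 2 / 3 * K) := by
    have h1 : L = fun e => B * EE p (fun c => a e c + |a e c| / 3) -
        ρ * (4 / 3 * K * Real.sqrt ν + 2 / 3 * K) := by
      funext e
      rw [hL, ← hνB]
      ring
    rw [h1, AV_sub, AV_mul_left, AV_const (by omega)]
  have hAVch : AV (fun e => EE p (fun c => S c e)) / B - 4 * K / Real.sqrt B ≤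
      AV (fun e => EE p (fun c => ch c e)) := by
    have h1 := AV_mono hedge
    rw [AV_sub, AV_const (by omega)] at h1
    have h2 : AV (fun e => EE p (fun c => S c e) / B) = AV (fun e => EE p (fun c => S c e)) / B := by
      have h3 : (fun e => EE p (fun c => S c e) / B) =
          fun e => B⁻¹ * EE p (fun c => S c e) := by
        funext e
        rw [div_eq_inv_mul]
      rw [h3, AV_mul_left, div_eq_inv_mul]
    rw [h2] at h1
    exact h1
  -- the error terms
  have herr : ρ * (4 / 3 * K * Real.sqrt ν + 2 / 3 * K) / B ≤ 2 * K / Real.sqrt B := by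
    have hsν0 : 0 < Real.sqrt ν := Real.sqrt_pos.2 hν0
    have hsν : Real.sqrt ν * Real.sqrt ν = ν := Real.mul_self_sqrt hν0.le
    have hsνB : Real.sqrt B ≤ Real.sqrt ν := Real.sqrt_le_sqrt hνB'
    have h1 : ρ * (4 / 3 * K * Real.sqrt ν + 2 / 3 * K) / B =
        (4 / 3 * K * Real.sqrt ν + 2 / 3 * K) / ν := by
      rw [← hνB]
      field_simp
    have h2 : 4 / 3 * K * Real.sqrt ν + 2 / 3 * K ≤ 2 * K * Real.sqrt ν := by
      nlinarith
    have h3 : 2 * K * Real.sqrt ν / ν = 2 * K / Real.sqrt ν := by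
      rw [div_eq_div_iff hν0.ne' hsν0.ne']
      linear_combination (2 * K) * hsν
    rw [h1]
    calc (4 / 3 * K * Real.sqrt ν + 2 / 3 * K) / ν ≤ 2 * K * Real.sqrt ν / ν :=
          div_le_div_of_nonneg_right h2 hν0.le
      _ = 2 * K / Real.sqrt ν := h3
      _ ≤ 2 * K / Real.sqrt B := div_le_div_of_nonneg_left (by positivity) hsB0 hsνB
  have h1 : AV L / B ≤ AV (fun e => EE p (fun c => S c e)) / B :=
    div_le_div_of_nonneg_right hAVL hB0.le
  rw [hAVL', sub_div, mul_div_cancel_left₀ _ hB0.ne'] at h1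
  have h6 : 6 * K / Real.sqrt B = 4 * K / Real.sqrt B + 2 * K / Real.sqrt B := by ring
  rw [h6]
  linarith

end Pool.Agent.Lib.MP_193d8d_pr
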