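import Pool.Agent.Lib.MP_193d8d_pr.StA
import Pool.Agent.Lib.MP_193d8d_pr.Base

set_option autoImplicit false
open MeasureTheory Set

namespace Pool.Agent.Lib.MP_193d8d_pr

/-! # T4: the box bound -/

namespace BoxAux

variable {n H : ℕ} {κ : ℝ}

/-- lower end of the side of the box -/
noncomputable def lo (Q : Edge n → (Edge n → Fin (H + 1)) → ℕ → ℝ) (c : Edge n → Fin (H + 1))
    (e : Edge n) : ℝ := Q e c (c e)

/-- upper end of the side of the box -/
noncomputable def hi (Q : Edge n → (Edge n → Fin (H + 1)) → ℕ → ℝ) (c : Edge n → Fin (H + 1))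
    (e : Edge n) : ℝ := if (c e : ℕ) = H then 2 - bt Q c e else Q e c ((c e : ℕ) + 1)

theorem len_eq (Q : Edge n → (Edge n → Fin (H + 1)) → ℕ → ℝ) (c : Edge n → Fin (H + 1))
    (e : Edge n) : hi Q c e - lo Q c e = len Q c e := by
  unfold hi lo len
  split_ifs with h
  · rw [h]
  · rfl

theorem ext_mono {x y : Edge n → ℝ} (h : ∀ e, x e ≤ y e) (i j : Fin n) :
    ext 0 x i j ≤ ext 0 y i j := by
  unfold ext
  split_ifs
  · exact h _
  · exact h _
  · exact le_rfl

theorem bt_le {Q : Edge n → (Edge n → Fin (H + 1)) → ℕ → ℝ} {c : Edge n → Fin (H + 1)}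
    {x : Edge n → ℝ} (hx : x ∈ Rall (M κ n) H Q c) (e : Edge n) : bt Q c e ≤ 2 - x e := by
  obtain ⟨⟨h1, h2⟩, h3⟩ := hx
  have hup : ∀ e', x e' ≤ Q e' c ((c e' : ℕ) + 1) := fun e' => (h3 e').2
  have h4 := (h1 e).2
  refine sup0_le (by linarith) fun k => ?_
  split_ifs
  · linarith
  · have k1 := h2 e.a e.b k
    rw [ext_edge] at k1
    have k2 := ext_mono (y := fun e' => Q e' c ((c e' : ℕ) + 1)) hup e.a k
    have k3 := ext_mono (y := fun e' => Q e' c ((c e' : ℕ) + 1)) hup k e.b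
    linarith

theorem sub {Q : Edge n → (Edge n → Fin (H + 1)) → ℕ → ℝ} {c : Edge n → Fin (H + 1)} :
    Rall (M κ n) H Q c ⊆ Set.pi univ fun e => Ioc (lo Q c e) (hi Q c e) := by
  intro x hx e _
  refine ⟨(hx.2 e).1, ?_⟩
  unfold hi
  split_ifs with h
  · have := bt_le hx e
    linarith
  · exact (hx.2 e).2

end BoxAux

open BoxAux in
theorem stBox (h1 : StVol) (h2 : StVolR) : StBox := by
  intro κ n H l T hκ hκ1 hl0 hl1 hl c
  obtain ⟨hM, -, hfin, hvol⟩ := h1 κ n hκ hκ1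
  have hM0 : volume (M κ n) ≠ 0 := by
    intro h
    unfold vol at hvol
    rw [h, ENNReal.toReal_zero] at hvol
    linarith
  have hb : ∀ x ∈ M κ n, ∀ e, 0 < x e ∧ x e ≤ 2 := fun x hx e =>
    ⟨hκ.trans_lt (hx.1 e).1, (hx.1 e).2⟩
  obtain ⟨-, hR⟩ := h2 (Edge n) (M κ n) H l T hM hb hM0 hl0 hl1 hl
  obtain ⟨-, hRv⟩ := hR c
  have hw : ∀ h : Fin (H + 1), 0 < wts H l h := fun h => by
    unfold wts
    have := hl h (Nat.lt_succ_iff.1 h.2)
    linarith
  have hpos : 0 < vol (Rall (M κ n) H T.Q c) := by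
    rw [hRv]
    exact mul_pos (Finset.prod_pos fun e _ => hw _) (by linarith)
  have hne : (Rall (M κ n) H T.Q c).Nonempty := by
    rw [nonempty_iff_ne_empty]
    intro h
    unfold vol at hpos
    rw [h, measure_empty, ENNReal.toReal_zero] at hpos
    exact lt_irrefl _ hpos
  obtain ⟨x, hx⟩ := hne
  have hlen : ∀ e, lo T.Q c e < hi T.Q c e := fun e =>
    (sub hx e (mem_univ e)).1.trans_le (sub hx e (mem_univ e)).2
  refine ⟨fun e => ?_, ?_⟩
  · rw [← len_eq]
    exact sub_pos.2 (hlen e)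
  · rw [← hRv]
    have e1 : ∏ e, len T.Q c e = (volume (Set.pi univ fun e => Ioc (lo T.Q c e) (hi T.Q c e))).toReal := by
      rw [Real.volume_pi_Ioc_toReal fun e => (hlen e).le]
      exact Finset.prod_congr rfl fun e _ => (len_eq _ _ _).symm
    rw [e1]
    unfold vol
    refine ENNReal.toReal_mono ?_ (measure_mono BoxAux.sub)
    rw [Real.volume_pi_Ioc]
    exact ENNReal.prod_ne_top fun e _ => ENNReal.ofReal_ne_top

end Pool.Agent.Lib.MP_193d8d_pr
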