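import Pool.Agent.Lib.MP_193d8d_pr.StA
import Pool.Agent.Lib.MP_193d8d_pr.Base

set_option autoImplicit false
open MeasureTheory Set

namespace Pool.Agent.Lib.MP_193d8d_pr

namespace DensAux

/-- a real function which loses at most a power of the factor along segments is continuous -/
theorem cont_of_lower {v : ℝ → ℝ} {a b : ℝ} {N : ℕ}
    (h : ∀ t ∈ Ioo a b, ∀ s ∈ Ioo a b, ∀ η : ℝ, 0 ≤ η → η ≤ 1 →
      (1 - η) ^ N * v t ≤ v ((1 - η) * t + η * s)) (hv : ∀ t, 0 ≤ v t) :
    ContinuousOn v (Ioo a b) := by
  intro t ht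
  apply ContinuousAt.continuousWithinAt
  obtain ⟨r, hr0, hra, hrb⟩ : ∃ r : ℝ, 0 < r ∧ a < t - r ∧ t + r < b := by
    refine ⟨min (t - a) (b - t) / 2, ?_, ?_, ?_⟩
    · have := lt_min (sub_pos.2 ht.1) (sub_pos.2 ht.2)
      linarith
    · have := min_le_left (t - a) (b - t)
      have := ht.1
      linarith
    · have := min_le_right (t - a) (b - t)
      have := ht.2
      linarith
  have hta : t - r ∈ Ioo a b := ⟨hra, by linarith⟩
  have htb : t + r ∈ Ioo a b := ⟨by linarith, hrb⟩
  -- the two bounds
  have low : ∀ t', |t' - t| < r → (1 - |t' - t| / r) ^ N * v t ≤ v t' := by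
    intro t' ht'
    have h0 : 0 ≤ |t' - t| / r := by positivity
    have h1 : |t' - t| / r ≤ 1 := by rw [div_le_one hr0]; exact ht'.le
    rcases le_total t t' with hle | hle
    · have h2 := h t ht (t + r) htb _ h0 h1
      convert h2 using 2
      rw [abs_of_nonneg (sub_nonneg.2 hle)]
      field_simp
      ring
    · have h2 := h t ht (t - r) hta _ h0 h1
      convert h2 using 2
      rw [abs_of_nonpos (sub_nonpos.2 hle)]
      field_simp
      ring
  have upp : ∀ t', |t' - t| < r → (1 - |t' - t| / r) ^ N * v t' ≤ v t := by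
    intro t' ht'
    have ht'ab : t' ∈ Ioo a b := by
      obtain ⟨h3, h4⟩ := abs_lt.1 ht'
      exact ⟨by linarith, by linarith⟩
    have hd : 0 < |t' - t| + r := by positivity
    have h0 : 0 ≤ |t' - t| / (|t' - t| + r) := by positivity
    have h1 : |t' - t| / (|t' - t| + r) ≤ 1 := by
      rw [div_le_one hd]; linarith
    have h5 : (1 - |t' - t| / r) ^ N * v t' ≤ (1 - |t' - t| / (|t' - t| + r)) ^ N * v t' := by
      refine mul_le_mul_of_nonneg_right (pow_le_pow_left₀ ?_ ?_ N) (hv t')
      · have : |t' - t| / r ≤ 1 := by rw [div_le_one hr0]; exact ht'.le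
        linarith
      · have : |t' - t| / (|t' - t| + r) ≤ |t' - t| / r := by
          apply div_le_div_of_nonneg_left (abs_nonneg _) hr0
          linarith [abs_nonneg (t' - t)]
        linarith
    refine h5.trans ?_
    rcases le_total t t' with hle | hle
    · have h2 := h t' ht'ab (t - r) hta _ h0 h1
      have e1 : (1 - |t' - t| / (|t' - t| + r)) * t' + |t' - t| / (|t' - t| + r) * (t - r) =
          t := by
        rw [abs_of_nonneg (sub_nonneg.2 hle)] at hd ⊢
        field_simp
        ring
      rw [e1] at h2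
      exact h2
    · have h2 := h t' ht'ab (t + r) htb _ h0 h1
      have e1 : (1 - |t' - t| / (|t' - t| + r)) * t' + |t' - t| / (|t' - t| + r) * (t + r) =
          t := by
        rw [abs_of_nonpos (sub_nonpos.2 hle)] at hd ⊢
        field_simp
        ring
      rw [e1] at h2
      exact h2
  have hθ : Filter.Tendsto (fun t' => (1 - |t' - t| / r) ^ N) (nhds t) (nhds 1) := by
    have : Continuous fun t' => (1 - |t' - t| / r) ^ N := by fun_prop
    have h6 := this.tendsto t
    simpa using h6
  have hev : ∀ᶠ t' in nhds t, |t' - t| < r := by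
    have := Metric.ball_mem_nhds t hr0
    filter_upwards [this] with t' ht'
    rwa [Metric.mem_ball, Real.dist_eq] at ht'
  refine tendsto_of_tendsto_of_tendsto_of_le_of_le'
    (g := fun t' => (1 - |t' - t| / r) ^ N * v t) (h := fun t' => v t / (1 - |t' - t| / r) ^ N)
    ?_ ?_ ?_ ?_
  · have := hθ.mul_const (v t)
    simpa using this
  · have := (tendsto_const_nhds (x := v t)).div hθ one_ne_zero
    rw [div_one] at this
    exact this
  · filter_upwards [hev] with t' ht'
    exact low t' ht'
  · filter_upwards [hev] with t' ht'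
    have h7 : 0 < (1 - |t' - t| / r) ^ N := by
      have : |t' - t| / r < 1 := by rw [div_lt_one hr0]; exact ht'
      exact pow_pos (by linarith) N
    rw [le_div_iff₀ h7, mul_comm]
    exact upp t' ht'

section

variable {κ : ℝ} {n : ℕ}

theorem slice_homothety {S : Set (Edge n → ℝ)} (hconv : Convex ℝ S) (e : Edge n) {t s η : ℝ}
    (hη : 0 ≤ η) (hη1 : η ≤ 1) {p : Edge n → ℝ} (hp : Function.update p e s ∈ S) :
    AffineMap.homothety (Function.update p e (1 / 2)) (1 - η) '' slice S e t ⊆
      slice S e ((1 - η) * t + η * s) := by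
  rintro _ ⟨x, ⟨hx1, hx2⟩, rfl⟩
  rw [AffineMap.homothety_apply]
  constructor
  · show ((1 - η) • (x - Function.update p e (1 / 2)) + Function.update p e (1 / 2)) e ∈ _
    have h1 := (convex_Ioo (0 : ℝ) 1) hx1 (show (1 / 2 : ℝ) ∈ Ioo (0 : ℝ) 1 by norm_num)
      (sub_nonneg.2 hη1) hη (by ring)
    convert h1 using 1
    simp
    ring
  · have h1 := hconv hx2 hp (sub_nonneg.2 hη1) hη (by ring)
    convert h1 using 1
    funext e'
    by_cases he : e' = e
    · subst he
      simp
    · simp [Function.update_of_ne he]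
      ring

theorem slice_finite (hκ : 0 ≤ κ) (e : Edge n) (t : ℝ) : volume (slice (M κ n) e t) ≠ ⊤ := by
  have h1 : slice (M κ n) e t ⊆ Set.pi univ fun _ : Edge n => Icc (0 : ℝ) 2 := by
    rintro x ⟨hx1, hx2⟩ e' -
    by_cases he : e' = e
    · subst he
      exact ⟨hx1.1.le, by linarith [hx1.2]⟩
    · have := hx2.1 e'
      rw [Function.update_of_ne he] at this
      exact ⟨by linarith [this.1], this.2⟩
  have h2 : IsCompact (Set.pi univ fun _ : Edge n => Icc (0 : ℝ) 2) :=
    isCompact_univ_pi fun _ => isCompact_Icc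
  exact ((measure_mono h1).trans_lt h2.measure_lt_top).ne

theorem edge_eq {i j k l : Fin n} (h : i ≠ j) (h' : k ≠ l) (he : edge i j h = edge k l h') :
    (i = k ∧ j = l) ∨ (i = l ∧ j = k) := by
  unfold edge at he
  split_ifs at he <;> simp only [Edge.mk.injEq] at he <;> tauto

theorem mem_M (hκ : 0 ≤ κ) {x : Edge n → ℝ} (hb : ∀ f, κ < x f ∧ x f ≤ 2)
    (ht : ∀ (i j k : Fin n) (hij : i ≠ j) (hik : i ≠ k) (hkj : k ≠ j),
      x (edge i j hij) ≤ x (edge i k hik) + x (edge k j hkj)) : x ∈ M κ n := by
  refine ⟨hb, fun i j k => ?_⟩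
  by_cases hij : i = j
  · subst hij
    rw [ext_self]
    by_cases hik : i = k
    · subst hik; rw [ext_self]; norm_num
    · rw [ext_ne 0 x hik, ext_ne 0 x (Ne.symm hik)]
      have h1 := hb (edge i k hik)
      have h2 := hb (edge k i (Ne.symm hik))
      linarith
  · by_cases hik : i = k
    · subst hik; rw [ext_self, zero_add]
    · by_cases hkj : k = j
      · subst hkj; rw [ext_self, add_zero]
      · rw [ext_ne 0 x hij, ext_ne 0 x hik, ext_ne 0 x hkj]
        exact ht i j k hij hik hkj

/-- a metric with a given distance -/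
theorem mem_const (hκ : 0 ≤ κ) (hκ1 : κ < 1) (e : Edge n) {s : ℝ} (hs : κ < s) (hs2 : s ≤ 2) :
    Function.update (fun _ : Edge n => (3 / 2 : ℝ)) e s ∈ M κ n := by
  set x := Function.update (fun _ : Edge n => (3 / 2 : ℝ)) e s with hx
  have hxe : x e = s := by rw [hx, Function.update_self]
  have hxn : ∀ f, f ≠ e → x f = 3 / 2 := fun f hf => by rw [hx, Function.update_of_ne hf]
  have hb : ∀ f, κ < x f ∧ x f ≤ 2 := by
    intro f
    by_cases hf : f = e
    · rw [hf, hxe]; exact ⟨hs, hs2⟩
    · rw [hxn f hf]; constructor <;> linarith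
  refine mem_M hκ hb fun i j k hij hik hkj => ?_
  have h1 := hb (edge i k hik)
  have h2 := hb (edge k j hkj)
  have h3 := hb (edge i j hij)
  by_cases h4 : edge i k hik = e
  · have h5 : edge i j hij ≠ e := by
      rw [← h4]
      intro h6
      rcases edge_eq _ _ h6 with h7 | h7
      · exact hkj h7.2.symm
      · exact hik h7.1
    have h6 : edge k j hkj ≠ e := by
      rw [← h4]
      intro h6
      rcases edge_eq _ _ h6 with h7 | h7
      · exact hik h7.1.symm
      · exact hij h7.2.symm
    rw [hxn _ h5, hxn _ h6]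
    linarith
  · by_cases h5 : edge k j hkj = e
    · have h6 : edge i j hij ≠ e := by
        rw [← h5]
        intro h6
        rcases edge_eq _ _ h6 with h7 | h7
        · exact hik h7.1
        · exact hij h7.1
      rw [hxn _ h6, hxn _ h4]
      linarith
    · rw [hxn _ h4, hxn _ h5]
      linarith

/-- the slice at `3/2` has positive volume -/
theorem pos_slice (hκ : 0 ≤ κ) (hκ1 : κ < 1) (e : Edge n) :
    0 < vol (slice (M κ n) e (3 / 2)) := by
  classical
  set U : Set (Edge n → ℝ) := Set.pi univ (fun e' => if e' = e then Ioo (0 : ℝ) 1 else Ioo 1 2)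
    with hU
  have hUo : IsOpen U := by
    apply isOpen_set_pi finite_univ
    intro e' _
    split_ifs <;> exact isOpen_Ioo
  have hUn : U.Nonempty := by
    refine ⟨fun e' => if e' = e then 1 / 2 else 3 / 2, fun e' _ => ?_⟩
    by_cases he : e' = e
    · simp only [he, if_true]
      norm_num
    · simp only [he, if_false]
      norm_num
  have hUs : U ⊆ slice (M κ n) e (3 / 2) := by
    intro x hx
    have hxe : x e ∈ Ioo (0 : ℝ) 1 := by
      have := hx e (mem_univ _)
      simpa using this
    have hxn : ∀ f, f ≠ e → x f ∈ Ioo (1 : ℝ) 2 := by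
      intro f hf
      have := hx f (mem_univ _)
      simpa [hf] using this
    have hb : ∀ f, 1 < Function.update x e (3 / 2) f ∧ Function.update x e (3 / 2) f ≤ 2 := by
      intro f
      by_cases hf : f = e
      · rw [hf, Function.update_self]; norm_num
      · rw [Function.update_of_ne hf]
        exact ⟨(hxn f hf).1, (hxn f hf).2.le⟩
    refine ⟨hxe, mem_M hκ (fun f => ⟨hκ1.trans (hb f).1, (hb f).2⟩) fun i j k hij hik hkj => ?_⟩
    have h1 := hb (edge i k hik)
    have h2 := hb (edge k j hkj)
    have h3 := hb (edge i j hij)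
    linarith
  have h1 : 0 < volume (slice (M κ n) e (3 / 2)) :=
    (hUo.measure_pos volume hUn).trans_le (measure_mono hUs)
  exact ENNReal.toReal_pos h1.ne' (slice_finite hκ e _)

theorem seg_id {c s t : ℝ} (h : c ≠ s) : (1 - (c - t) / (c - s)) * c + (c - t) / (c - s) * s = t := by
  have : c - s ≠ 0 := sub_ne_zero.2 h
  field_simp
  ring

end

end DensAux

open DensAux in
/-- module Dens -/
theorem stDens (h1 : StVol) (h2 : StFubA) : StDens := by
  intro κ n e hκ hκ1 _
  obtain ⟨hM, hconv, hfin, h1le⟩ := h1 κ n hκ hκ1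
  have hV : 0 < vol (M κ n) := by linarith
  obtain ⟨hmeas, -⟩ := h2 (Edge n) (M κ n) e univ hM MeasurableSet.univ
  -- the basic inequality
  have key : ∀ t s : ℝ, s ∈ Ioo κ 2 → ∀ η : ℝ, 0 ≤ η → η ≤ 1 →
      (1 - η) ^ (Fintype.card (Edge n)) * vol (slice (M κ n) e t) ≤
        vol (slice (M κ n) e ((1 - η) * t + η * s)) := by
    intro t s hs η hη hη1
    have h3 := measure_mono (μ := volume)
      (slice_homothety (t := t) hconv e hη hη1 (mem_const hκ hκ1 e hs.1 hs.2.le))
    rw [Measure.addHaar_image_homothety] at h3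
    have h4 := ENNReal.toReal_mono (slice_finite hκ e _) h3
    rw [ENNReal.toReal_mul, ENNReal.toReal_ofReal (abs_nonneg _),
      abs_of_nonneg (pow_nonneg (sub_nonneg.2 hη1) _)] at h4
    simpa [vol] using h4
  have hcont : ContinuousOn (fun t => vol (slice (M κ n) e t)) (Ioo κ 2) :=
    cont_of_lower (fun t _ s hs η hη hη1 => key t s hs η hη hη1)
      (fun t => ENNReal.toReal_nonneg)
  -- positivity at `3/2`
  have hpos : 0 < vol (slice (M κ n) e (3 / 2)) := pos_slice hκ hκ1 e
  refine ⟨?_, ?_, ?_, ?_, ?_⟩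
  · exact hcont.div_const _
  · intro t
    exact div_nonneg ENNReal.toReal_nonneg hV.le
  · intro t ht
    apply div_pos _ hV
    -- `t` is between `3/2` and a point of the interval
    obtain ⟨s, hs, η, hη, hη1, hηt⟩ : ∃ s ∈ Ioo κ 2, ∃ η : ℝ, 0 ≤ η ∧ η < 1 ∧
        (1 - η) * (3 / 2) + η * s = t := by
      rcases le_total t (3 / 2) with hle | hle
      · refine ⟨(κ + t) / 2, ⟨by linarith [ht.1], by linarith [ht.1, ht.2]⟩,
          (3 / 2 - t) / (3 / 2 - (κ + t) / 2), ?_, ?_, seg_id ?_⟩
        · apply div_nonneg <;> linarith [ht.1]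
        · rw [div_lt_one (by linarith [ht.1])]
          linarith [ht.1]
        · have := ht.1
          intro h
          linarith
      · refine ⟨(2 + t) / 2, ⟨by linarith [ht.1, ht.2], by linarith [ht.1, ht.2]⟩,
          (3 / 2 - t) / (3 / 2 - (2 + t) / 2), ?_, ?_, seg_id ?_⟩
        · apply div_nonneg_of_nonpos <;> linarith [ht.2]
        · rw [div_lt_one_of_neg (by linarith [ht.2])]
          linarith [ht.2]
        · have := ht.2
          intro h
          linarith
    have h5 := key (3 / 2) s hs η hη hη1.le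
    rw [hηt] at h5
    exact lt_of_lt_of_le (mul_pos (pow_pos (by linarith) _) hpos) h5
  · intro t ht
    have h3 : slice (M κ n) e t = ∅ := by
      rw [eq_empty_iff_forall_notMem]
      rintro x ⟨-, hx⟩
      have := (hx.1 e).1
      rw [Function.update_self] at this
      linarith
    show vol (slice (M κ n) e t) / vol (M κ n) = 0
    rw [h3]
    simp [vol]
  · intro a b ha hab hb
    obtain ⟨-, h3⟩ := h2 (Edge n) (M κ n) e (Ioc a b) hM measurableSet_Ioc
    have h4 : M κ n ∩ {x | x e ∈ Ioc a b} = {x | x ∈ M κ n ∧ a < x e ∧ x e ≤ b} := rfl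
    rw [h4] at h3
    have h5 : ∫⁻ t in Ioc a b, volume (slice (M κ n) e t) ≠ ⊤ := by
      rw [← h3]
      exact ((measure_mono (fun x hx => hx.1)).trans_lt hfin.lt_top).ne
    have h6 : IntegrableOn (fun t => vol (slice (M κ n) e t)) (Ioc a b) :=
      integrable_toReal_of_lintegral_ne_top hmeas.aemeasurable h5
    refine ⟨?_, ?_⟩
    · rw [intervalIntegrable_iff_integrableOn_Ioc_of_le hab]
      exact h6.div_const _
    · rw [intervalIntegral.integral_of_le hab]
      show _ = ∫ t in Ioc a b, vol (slice (M κ n) e t) / vol (M κ n)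
      rw [integral_div]
      congr 1
      show (volume _).toReal = ∫ t in Ioc a b, (volume (slice (M κ n) e t)).toReal
      rw [integral_toReal hmeas.aemeasurable
        (Filter.Eventually.of_forall fun t => (slice_finite hκ e t).lt_top), h3]

end Pool.Agent.Lib.MP_193d8d_pr
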