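import Pool.Agent.Lib.MP_193d8d_pr.StA
import Pool.Agent.Lib.MP_193d8d_pr.Base

set_option autoImplicit false
open MeasureTheory Set

namespace Pool.Agent.Lib.MP_193d8d_pr

namespace DensLCAux

variable {E : Type} [Fintype E] [DecidableEq E]

theorem measurableSet_slice {S : Set (E → ℝ)} (hS : MeasurableSet S) (e : E) (t : ℝ) :
    MeasurableSet (slice S e t) := by
  have h1 : Measurable fun x : E → ℝ => x e := measurable_pi_apply e
  have h2 : Measurable fun x : E → ℝ => Function.update x e t := by
    refine measurable_pi_iff.2 fun i => ?_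
    by_cases hi : i = e
    · subst hi
      simp only [Function.update_self]
      exact measurable_const
    · simp only [Function.update_of_ne hi]
      exact measurable_pi_apply i
  exact (h1 measurableSet_Ioo).inter (h2 hS)

theorem mid_mem {S : Set (E → ℝ)} (hS : Convex ℝ S) {e : E} {s t : ℝ} {x y : E → ℝ}
    (hx : x ∈ slice S e s) (hy : y ∈ slice S e t) :
    (fun i => (x i + y i) / 2) ∈ slice S e ((s + t) / 2) := by
  obtain ⟨⟨hx1, hx2⟩, hx3⟩ := hx
  obtain ⟨⟨hy1, hy2⟩, hy3⟩ := hy
  refine ⟨⟨?_, ?_⟩, ?_⟩
  · change 0 < (x e + y e) / 2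
    linarith
  · change (x e + y e) / 2 < 1
    linarith
  · have h := hS hx3 hy3 (a := 1 / 2) (b := 1 / 2) (by norm_num) (by norm_num) (by norm_num)
    convert h using 1
    funext i
    by_cases hi : i = e
    · subst hi
      simp only [Function.update_self, Pi.add_apply, Pi.smul_apply, smul_eq_mul]
      ring
    · simp only [Function.update_of_ne hi, Pi.add_apply, Pi.smul_apply, smul_eq_mul]
      ring

theorem bm (h2 : StPLn) {S : Set (E → ℝ)} (hm : MeasurableSet S) (hS : Convex ℝ S) (e : E)
    (s t : ℝ) : volume (slice S e s) * volume (slice S e t) ≤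
      volume (slice S e ((s + t) / 2)) ^ 2 := by
  have h := h2 E ((slice S e s).indicator 1) ((slice S e t).indicator 1)
    ((slice S e ((s + t) / 2)).indicator 1)
    (measurable_one.indicator (measurableSet_slice hm e s))
    (measurable_one.indicator (measurableSet_slice hm e t))
    (measurable_one.indicator (measurableSet_slice hm e _)) (by
      intro x y
      by_cases hx : x ∈ slice S e s
      · by_cases hy : y ∈ slice S e t
        · rw [indicator_of_mem hx, indicator_of_mem hy, indicator_of_mem (mid_mem hS hx hy)]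
          simp
        · rw [indicator_of_notMem hy, mul_zero]
          exact zero_le
      · rw [indicator_of_notMem hx, zero_mul]
        exact zero_le)
  rwa [lintegral_indicator_one (measurableSet_slice hm e s),
    lintegral_indicator_one (measurableSet_slice hm e t),
    lintegral_indicator_one (measurableSet_slice hm e _)] at h

end DensLCAux

open DensLCAux in
/-- A7: Brunn - Minkowski -/
theorem stDensLC (h1 : StDens) (h2 : StPLn) (h3 : StMidC) (h4 : StVol) : StDensLC := by
  intro n e hn
  obtain ⟨hc, -, hp, -, -⟩ := h1 0 n e le_rfl one_pos hn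
  obtain ⟨hm, hconv, -, hV⟩ := h4 0 n le_rfl one_pos
  have hV0 : 0 < vol (M 0 n) := lt_of_lt_of_le one_pos hV
  refine h3 _ 0 2 (hc.log fun t ht => (hp t ht).ne') fun s hs t ht => ?_
  have hst : (s + t) / 2 ∈ Ioo (0 : ℝ) 2 := ⟨by linarith [hs.1, ht.1], by linarith [hs.2, ht.2]⟩
  have pos : ∀ r ∈ Ioo (0 : ℝ) 2, 0 < vol (slice (M 0 n) e r) := by
    intro r hr
    have := hp r hr
    unfold dens at this
    exact (div_pos_iff_of_pos_right hV0).1 this
  have fin : ∀ r ∈ Ioo (0 : ℝ) 2, volume (slice (M 0 n) e r) ≠ ⊤ := by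
    intro r hr h
    have := pos r hr
    unfold vol at this
    rw [h] at this
    simp at this
  have h5 := bm h2 hm hconv e s t
  have h6 : vol (slice (M 0 n) e s) * vol (slice (M 0 n) e t) ≤
      vol (slice (M 0 n) e ((s + t) / 2)) ^ 2 := by
    unfold vol
    rw [← ENNReal.toReal_mul, ← ENNReal.toReal_pow]
    exact ENNReal.toReal_mono (ENNReal.pow_ne_top (fin _ hst)) h5
  have h7 : dens 0 n e s * dens 0 n e t ≤ dens 0 n e ((s + t) / 2) ^ 2 := by
    unfold dens
    rw [div_mul_div_comm, div_pow, ← sq]
    exact div_le_div_of_nonneg_right h6 (by positivity)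
  have h8 := Real.log_le_log (mul_pos (hp s hs) (hp t ht)) h7
  rw [Real.log_mul (hp s hs).ne' (hp t ht).ne', Real.log_pow] at h8
  push_cast at h8
  exact h8

end Pool.Agent.Lib.MP_193d8d_pr
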