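import Pool.Agent.Lib.MP_193d8d_pr.StA
import Pool.Agent.Lib.MP_193d8d_pr.Base

set_option autoImplicit false
open MeasureTheory Set

namespace Pool.Agent.Lib.MP_193d8d_pr

namespace DensLeAux

theorem cyl_volume_ne_top (n : ℕ) (e : Edge n) : volume (cyl (M 0 n) e) ≠ ⊤ := by
  have h : cyl (M 0 n) e ⊆ Set.pi univ (fun _ : Edge n => Icc (0 : ℝ) 2) := by
    rintro x ⟨hx, hv⟩
    have hne : (fib (M 0 n) e x).Nonempty := by
      rw [Set.nonempty_iff_ne_empty]
      intro h0
      rw [h0, measure_empty] at hv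
      exact hv rfl
    obtain ⟨y, hy⟩ := hne
    have hy' : Function.update x e y ∈ M 0 n := hy
    intro e' _
    by_cases he : e' = e
    · rw [he]
      exact ⟨hx.1.le, hx.2.le.trans (by norm_num)⟩
    · have h1 := hy'.1 e'
      rw [Function.update_of_ne he] at h1
      exact ⟨h1.1.le, h1.2⟩
  refine ne_top_of_le_ne_top ?_ (measure_mono h)
  rw [volume_pi_pi]
  refine (ENNReal.prod_lt_top fun i _ => ?_).ne
  rw [Real.volume_Icc]
  exact ENNReal.ofReal_lt_top

theorem slab_le (h2 : StFubB) (h0 : StVol) (n : ℕ) (e : Edge n) (a b : ℝ) (hab : a ≤ b) :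
    vol {x | x ∈ M 0 n ∧ a < x e ∧ x e ≤ b} ≤ (b - a) * vol (cyl (M 0 n) e) := by
  have hM := (h0 0 n le_rfl one_pos).1
  set S' : Set (Edge n → ℝ) := {x | x ∈ M 0 n ∧ a < x e ∧ x e ≤ b} with hS'
  have hS'm : MeasurableSet S' := by
    refine hM.inter ?_
    exact (measurableSet_lt measurable_const (measurable_pi_apply e)).inter
      (measurableSet_le (measurable_pi_apply e) measurable_const)
  have key := (h2 (Edge n) S' e (fun _ => 1) hS'm measurable_const (fun _ _ => rfl)).2.2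
  rw [setLIntegral_const, one_mul] at key
  have hfib : ∀ x, fib S' e x ⊆ Ioc a b := by
    intro x y hy
    have hy' : Function.update x e y ∈ S' := hy
    have h3 := hy'.2
    rw [Function.update_self] at h3
    exact ⟨h3.1, h3.2⟩
  have hcyl : cyl S' e ⊆ cyl (M 0 n) e := by
    rintro x ⟨hx, hv⟩
    refine ⟨hx, fun h => hv ?_⟩
    refine measure_mono_null (fun y hy => ?_) h
    have hy' : Function.update x e y ∈ S' := hy
    exact hy'.1
  have h4 : volume S' ≤ ENNReal.ofReal (b - a) * volume (cyl (M 0 n) e) := by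
    rw [key]
    calc ∫⁻ x in cyl S' e, 1 * volume (fib S' e x)
        ≤ ∫⁻ _ in cyl S' e, ENNReal.ofReal (b - a) := by
          refine lintegral_mono fun x => ?_
          rw [one_mul]
          calc volume (fib S' e x) ≤ volume (Ioc a b) := measure_mono (hfib x)
            _ = ENNReal.ofReal (b - a) := Real.volume_Ioc
      _ = ENNReal.ofReal (b - a) * volume (cyl S' e) := setLIntegral_const _ _
      _ ≤ ENNReal.ofReal (b - a) * volume (cyl (M 0 n) e) := by gcongr
  have h5 := ENNReal.toReal_mono (ENNReal.mul_ne_top ENNReal.ofReal_ne_top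
    (cyl_volume_ne_top n e)) h4
  rwa [ENNReal.toReal_mul, ENNReal.toReal_ofReal (sub_nonneg.2 hab)] at h5

end DensLeAux

open DensLeAux in
theorem stDensLe (h0 : StVol) (h1 : StDens) (h2 : StFubB) (h3 : StProj) : StDensLe := by
  intro n e hn t ht
  obtain ⟨hcont, -, -, -, hint⟩ := h1 0 n e le_rfl one_pos hn
  by_contra hlt
  have hlt' : 1 < dens 0 n e t := not_le.1 hlt
  have hV : 0 < vol (M 0 n) := lt_of_lt_of_le one_pos (h0 0 n le_rfl one_pos).2.2.2
  have hc : (1 + dens 0 n e t) / 2 < dens 0 n e t := by linarith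
  have hca : ContinuousAt (dens 0 n e) t := hcont.continuousAt (Ioo_mem_nhds ht.1 ht.2)
  have hev := (hca.eventually (lt_mem_nhds hc)).and (Ioo_mem_nhds ht.1 ht.2)
  obtain ⟨δ, hδ, hball⟩ := Metric.eventually_nhds_iff.1 hev
  have hmem : ∀ s ∈ Icc (t - δ / 2) (t + δ / 2),
      (1 + dens 0 n e t) / 2 < dens 0 n e s ∧ s ∈ Ioo (0 : ℝ) 2 := by
    intro s hs
    apply hball
    rw [Real.dist_eq, abs_lt]
    constructor <;> linarith [hs.1, hs.2]
  have hle : t - δ / 2 ≤ t + δ / 2 := by linarith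
  have ha := (hmem _ (left_mem_Icc.2 hle)).2
  have hb := (hmem _ (right_mem_Icc.2 hle)).2
  obtain ⟨hii, heq⟩ := hint (t - δ / 2) (t + δ / 2) ha.1.le hle hb.2.le
  have h6 : ∫ _ in (t - δ / 2)..(t + δ / 2), (1 + dens 0 n e t) / 2 ≤
      ∫ s in (t - δ / 2)..(t + δ / 2), dens 0 n e s :=
    intervalIntegral.integral_mono_on hle intervalIntegrable_const hii
      fun s hs => (hmem s hs).1.le
  rw [intervalIntegral.integral_const, smul_eq_mul, ← heq] at h6
  have h7 := slab_le h2 h0 n e (t - δ / 2) (t + δ / 2) hle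
  have h8 : vol {x | x ∈ M 0 n ∧ t - δ / 2 < x e ∧ x e ≤ t + δ / 2} / vol (M 0 n) ≤ δ := by
    rw [div_le_iff₀ hV]
    refine h7.trans ?_
    have h9 := h3 n e hn
    have h10 : t + δ / 2 - (t - δ / 2) = δ := by ring
    rw [h10]
    exact mul_le_mul_of_nonneg_left h9 hδ.le
  have h11 := h6.trans h8
  have h12 : (t + δ / 2 - (t - δ / 2)) * ((1 + dens 0 n e t) / 2) =
      δ * ((1 + dens 0 n e t) / 2) := by ring
  rw [h12] at h11
  nlinarith

end Pool.Agent.Lib.MP_193d8d_pr
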