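import Pool.Agent.Lib.MP_193d8d_pr.StA
import Pool.Agent.Lib.MP_193d8d_pr.Base

set_option autoImplicit false
open MeasureTheory Set

namespace Pool.Agent.Lib.MP_193d8d_pr

namespace EntAux

theorem meas_upd {E : Type} [DecidableEq E] (e : E) :
    Measurable (fun p : (E → ℝ) × ℝ => Function.update p.1 e p.2) := by
  rw [measurable_pi_iff]
  intro i
  by_cases h : i = e
  · subst h
    simpa using measurable_snd
  · simp only [Function.update_of_ne h]
    exact (measurable_pi_apply i).comp measurable_fst

theorem meas_fi {E : Type} [DecidableEq E] (e : E) (F : (E → ℝ) → ENNReal)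
    (hF : Measurable F) : Measurable (fun x => ∫⁻ t : ℝ, F (Function.update x e t)) :=
  Measurable.lintegral_prod_right' (f := fun p : (E → ℝ) × ℝ => F (Function.update p.1 e p.2))
    (hF.comp (meas_upd e))

/-- the indicator function of `(0,1)` -/
noncomputable def ind (s : ℝ) : ENNReal := (Ioo (0 : ℝ) 1).indicator 1 s

theorem meas_ind : Measurable ind :=
  measurable_one.indicator measurableSet_Ioo

theorem lint_ind : ∫⁻ s, ind s = 1 := by
  unfold ind
  rw [lintegral_indicator_one measurableSet_Ioo, Real.volume_Ioo]
  simp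

/-- Fubini for one coordinate, as integrals over the whole space -/
theorem fub {E : Type} [Fintype E] [DecidableEq E] (e : E) (F : (E → ℝ) → ENNReal)
    (hF : Measurable F) :
    ∫⁻ x, F x = ∫⁻ x : E → ℝ, ind (x e) * ∫⁻ t : ℝ, F (Function.update x e t) := by
  have hH := meas_fi e F hF
  have hG : Measurable (fun x : E → ℝ => ind (x e) * ∫⁻ t : ℝ, F (Function.update x e t)) :=
    (meas_ind.comp (measurable_pi_apply e)).mul hH
  have e1 := lintegral_eq_lmarginal_univ (μ := fun _ : E => (volume : Measure ℝ)) (f := F)
    (fun _ => 0)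
  have e2 := lintegral_eq_lmarginal_univ (μ := fun _ : E => (volume : Measure ℝ))
    (f := fun x : E → ℝ => ind (x e) * ∫⁻ t : ℝ, F (Function.update x e t)) (fun _ => 0)
  rw [volume_pi, e1, e2, lmarginal_erase' (μ := fun _ : E => (volume : Measure ℝ)) F hF
    (Finset.mem_univ e), lmarginal_erase' (μ := fun _ : E => (volume : Measure ℝ)) _ hG
    (Finset.mem_univ e)]
  congr 2
  funext x
  simp only [Function.update_self, Function.update_idem]
  rw [lintegral_mul_const _ meas_ind, lint_ind, one_mul]

theorem intle {α : Type*} [MeasurableSpace α] {μ : Measure α} (g : α → ℝ) :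
    ∫ a, g a ∂μ ≤ (∫⁻ a, ENNReal.ofReal (g a) ∂μ).toReal := by
  by_cases h : Integrable g μ
  · rw [integral_eq_lintegral_pos_part_sub_lintegral_neg_part h]
    have := (ENNReal.toReal_nonneg : 0 ≤ (∫⁻ a, ENNReal.ofReal (-g a) ∂μ).toReal)
    linarith
  · rw [integral_undef h]
    exact ENNReal.toReal_nonneg

/-- Jensen for one fibre -/
theorem jensen (f : ℝ → ℝ) (hf : Measurable f) (hpos : ∀ t ∈ Ioo (0 : ℝ) 2, 0 < f t ∧ f t ≤ 1)
    (h1 : (∫ t in Ioo (0 : ℝ) 2, f t) = 1) (I : Set ℝ) (hI : MeasurableSet I)
    (hI2 : I ⊆ Ioo (0 : ℝ) 2) (hI0 : volume I ≠ 0) :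
    ENNReal.ofReal (Real.log (volume I).toReal) * volume I ≤
      ∫⁻ t in I, ENNReal.ofReal (-Real.log (f t)) := by
  have hIf : volume I ≠ ⊤ := by
    refine ne_top_of_le_ne_top ?_ (measure_mono hI2)
    rw [Real.volume_Ioo]
    exact ENNReal.ofReal_ne_top
  set l := (volume I).toReal with hl
  have hl0 : 0 < l := ENNReal.toReal_pos hI0 hIf
  by_cases htop : ∫⁻ t in I, ENNReal.ofReal (-Real.log (f t)) = ⊤
  · rw [htop]
    exact le_top
  have hnn : ∀ t ∈ I, 0 ≤ -Real.log (f t) := fun t ht => by
    have h := hpos t (hI2 ht)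
    have := Real.log_nonpos h.1.le h.2
    linarith
  have hmeas : Measurable (fun t => -Real.log (f t)) := (Real.measurable_log.comp hf).neg
  have haenn : 0 ≤ᵐ[volume.restrict I] fun t => -Real.log (f t) := by
    rw [Filter.EventuallyLE, ae_restrict_iff' hI]
    exact Filter.Eventually.of_forall hnn
  have hint : Integrable (fun t => -Real.log (f t)) (volume.restrict I) := by
    refine ⟨hmeas.aestronglyMeasurable, ?_⟩
    rw [hasFiniteIntegral_iff_ofReal haenn]
    exact lt_top_iff_ne_top.2 htop
  have hfint : IntegrableOn f (Ioo (0 : ℝ) 2) := by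
    by_contra h
    rw [IntegrableOn] at h
    rw [integral_undef h] at h1
    norm_num at h1
  have hfI : IntegrableOn f I := hfint.mono_set hI2
  have hle : ∫ t in I, f t ≤ 1 := by
    rw [← h1]
    refine setIntegral_mono_set hfint ?_ (Filter.Eventually.of_forall hI2)
    rw [Filter.EventuallyLE, ae_restrict_iff' measurableSet_Ioo]
    exact Filter.Eventually.of_forall fun t ht => (hpos t ht).1.le
  have hconst : IntegrableOn (fun _ : ℝ => Real.log l + 1) I := by
    exact integrableOn_const hIf
  have key : ∫ t in I, (Real.log l + 1 - l * f t) ≤ ∫ t in I, -Real.log (f t) := by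
    refine setIntegral_mono_on (hconst.sub (hfI.const_mul l)) hint hI ?_
    intro t ht
    have hft := (hpos t (hI2 ht)).1
    have h2 := Real.log_le_sub_one_of_pos (mul_pos hl0 hft)
    rw [Real.log_mul hl0.ne' hft.ne'] at h2
    linarith
  have hcomp : ∫ t in I, (Real.log l + 1 - l * f t) = l * (Real.log l + 1) - l * ∫ t in I, f t := by
    rw [integral_sub hconst (hfI.const_mul l), integral_const_mul, setIntegral_const]
    simp only [smul_eq_mul, Measure.real]
    rw [← hl]
  have hfin : Real.log l * l ≤ ∫ t in I, -Real.log (f t) := by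
    rw [hcomp] at key
    nlinarith
  rw [← ofReal_integral_eq_lintegral_ofReal hint haenn]
  have hvI : volume I = ENNReal.ofReal l := (ENNReal.ofReal_toReal hIf).symm
  rw [hvI]
  by_cases hlog : 0 ≤ Real.log l
  · rw [← ENNReal.ofReal_mul hlog]
    exact ENNReal.ofReal_le_ofReal hfin
  · rw [ENNReal.ofReal_of_nonpos (not_le.1 hlog).le, zero_mul]
    exact bot_le

end EntAux

open EntAux in
theorem stEnt (h1 : StVol) (h2 : StFubA) (h3 : StFubB) (h4 : StDens) (h5 : StDensLe)
    (h6 : StDensLC) (h7 : StOneD) : StEnt := by
  intro n e hn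
  obtain ⟨hMm, -, hMfin, hV1⟩ := h1 0 n le_rfl one_pos
  set S := M 0 n with hS
  set V := vol S with hV
  have hV0 : 0 < V := lt_of_lt_of_le one_pos hV1
  obtain ⟨hcont, hnn, hpos, hzero, hI⟩ := h4 0 n e le_rfl one_pos hn
  have hle := h5 n e hn
  have hlc := h6 n e hn
  set f := dens 0 n e with hf
  set w := wt 0 n e with hw
  have hmemS : ∀ x ∈ S, 0 < x e ∧ x e ≤ 2 := fun x hx => hx.1 e
  -- the total mass and the weight
  have hw1 : (∫ t in (0 : ℝ)..1, f t) = w := by
    rw [← (hI 0 1 le_rfl zero_le_one one_le_two).2, hw]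
    have : {x | x ∈ M 0 n ∧ 0 < x e ∧ x e ≤ 1} = {x | x ∈ M 0 n ∧ x e ≤ 1} := by
      ext x
      exact ⟨fun h => ⟨h.1, h.2.2⟩, fun h => ⟨h.1, (hmemS x h.1).1, h.2⟩⟩
    unfold wt
    rw [this]
  have htot : (∫ t in (0 : ℝ)..2, f t) = 1 := by
    rw [← (hI 0 2 le_rfl zero_le_two le_rfl).2]
    have : {x | x ∈ M 0 n ∧ 0 < x e ∧ x e ≤ 2} = S := by
      ext x
      exact ⟨fun h => h.1, fun h => ⟨h, hmemS x h⟩⟩
    rw [this]
    exact div_self hV0.ne'
  have hw0 : 0 ≤ w := by
    rw [hw]
    exact div_nonneg ENNReal.toReal_nonneg ENNReal.toReal_nonneg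
  have hfibsub : ∀ x, fib S e x ⊆ Ioc 0 2 := by
    intro x t ht
    have := hmemS _ ht
    rw [Function.update_self] at this
    exact this
  have hfibvol : ∀ x, volume (fib S e x) ≤ 2 := fun x => by
    refine (measure_mono (hfibsub x)).trans ?_
    rw [Real.volume_Ioc]
    simp
  have hfibR : ∀ x, (volume (fib S e x)).toReal ≤ 2 := fun x => by
    have := ENNReal.toReal_mono (by simp) (hfibvol x)
    simpa using this
  have hlog2 : ∀ x, Real.log (volume (fib S e x)).toReal ≤ Real.log 2 := fun x => by
    rcases (ENNReal.toReal_nonneg : 0 ≤ (volume (fib S e x)).toReal).eq_or_lt with h | h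
    · rw [← h, Real.log_zero]
      exact Real.log_nonneg one_le_two
    · exact Real.log_le_log h (hfibR x)
  unfold mean
  rw [div_le_iff₀ hV0]
  rcases lt_or_ge (1 / 8) w with hbig | hsmall
  · -- large weight
    have hl2 : Real.log 2 ≤ 1 := by
      have := Real.log_le_sub_one_of_pos (show (0 : ℝ) < 2 by norm_num)
      linarith
    by_cases hint : IntegrableOn (fun x => Real.log (volume (fib S e x)).toReal) S
    · calc ∫ x in S, Real.log (volume (fib S e x)).toReal ≤ ∫ x in S, Real.log 2 :=
            setIntegral_mono hint (integrableOn_const hMfin) hlog2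
        _ = V * Real.log 2 := by
            rw [setIntegral_const]
            rfl
        _ ≤ 26 * w * V := by nlinarith
    · rw [integral_undef hint]
      positivity
  -- small weight
  have hone := (h7 f hcont (fun t ht => ⟨hpos t ht, hle t ht⟩) hlc htot (by rw [hw1]; exact hsmall)).2
  rw [hw1] at hone
  -- measurability
  have hslm : Measurable (fun t => volume (slice S e t)) :=
    (h2 (Edge n) S e univ hMm MeasurableSet.univ).1
  have hfm : Measurable f := hslm.ennreal_toReal.div_const V
  have hφm : Measurable (fun t => ENNReal.ofReal (-Real.log (f t))) :=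
    (Real.measurable_log.comp hfm).neg.ennreal_ofReal
  set φ : ℝ → ENNReal := fun t => ENNReal.ofReal (-Real.log (f t)) with hφ
  have hfibm : ∀ x, MeasurableSet (fib S e x) := fun x => by
    have : fib S e x = (fun t => Function.update x e t) ⁻¹' S := rfl
    rw [this]
    exact (measurable_update x) hMm
  have htotIoo : (∫ t in Ioo (0 : ℝ) 2, f t) = 1 := by
    rw [← integral_Ioc_eq_integral_Ioo, ← intervalIntegral.integral_of_le zero_le_two]
    exact htot
  -- Jensen for the fibres
  have hjen : ∀ x, volume (fib S e x) ≠ 0 →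
      ENNReal.ofReal (Real.log (volume (fib S e x)).toReal) * volume (fib S e x) ≤
        ∫⁻ t in fib S e x, φ t := by
    intro x hx
    have hne : volume (fib S e x ∩ Ioo 0 2) = volume (fib S e x) := by
      refine le_antisymm (measure_mono inter_subset_left) ?_
      have hsub : fib S e x ⊆ (fib S e x ∩ Ioo 0 2) ∪ {2} := by
        intro t ht
        have := hfibsub x ht
        rcases this.2.eq_or_lt with h | h
        · exact Or.inr h
        · exact Or.inl ⟨ht, this.1, h⟩
      refine (measure_mono hsub).trans ((measure_union_le _ _).trans ?_)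
      simp
    have := jensen f hfm (fun t ht => ⟨hpos t ht, hle t ht⟩) htotIoo (fib S e x ∩ Ioo 0 2)
      ((hfibm x).inter measurableSet_Ioo) inter_subset_right (by rw [hne]; exact hx)
    rw [hne] at this
    exact this.trans (lintegral_mono_set inter_subset_left)
  -- the main chain
  have hindS : ∀ (x : Edge n → ℝ) (t : ℝ), S.indicator (1 : (Edge n → ℝ) → ENNReal)
      (Function.update x e t) = (fib S e x).indicator 1 t := by
    intro x t
    by_cases h : Function.update x e t ∈ S
    · rw [indicator_of_mem h, indicator_of_mem (show t ∈ fib S e x from h)]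
      rfl
    · rw [indicator_of_notMem h, indicator_of_notMem (show t ∉ fib S e x from h)]
  have hIS : Measurable (S.indicator (1 : (Edge n → ℝ) → ENNReal)) := measurable_one.indicator hMm
  have hLm : Measurable (fun x : Edge n → ℝ => volume (fib S e x)) := by
    have h := meas_fi e _ hIS
    have h' : (fun x : Edge n → ℝ => ∫⁻ t : ℝ, S.indicator (1 : (Edge n → ℝ) → ENNReal)
        (Function.update x e t)) = fun x => volume (fib S e x) := by
      funext x
      simp only [hindS x]
      exact lintegral_indicator_one (hfibm x)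
    rw [h'] at h
    exact h
  have hgm : Measurable (fun x : Edge n → ℝ =>
      ENNReal.ofReal (Real.log (volume (fib S e x)).toReal)) :=
    (Real.measurable_log.comp hLm.ennreal_toReal).ennreal_ofReal
  set g : (Edge n → ℝ) → ENNReal := fun x =>
      ENNReal.ofReal (Real.log (volume (fib S e x)).toReal) with hg
  have hgup : ∀ x t, g (Function.update x e t) = g x := by
    intro x t
    have : fib S e (Function.update x e t) = fib S e x := by
      ext s
      simp [fib]
    simp only [hg, this]
  have hF1 : Measurable (fun x => S.indicator (1 : (Edge n → ℝ) → ENNReal) x * g x) := hIS.mul hgm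
  have hF2 : Measurable (fun x : Edge n → ℝ =>
      S.indicator (1 : (Edge n → ℝ) → ENNReal) x * φ (x e)) :=
    hIS.mul (hφm.comp (measurable_pi_apply e))
  have hset : ∀ G : (Edge n → ℝ) → ENNReal, ∫⁻ x in S, G x =
      ∫⁻ x, S.indicator (1 : (Edge n → ℝ) → ENNReal) x * G x := by
    intro G
    rw [← lintegral_indicator hMm]
    refine lintegral_congr fun x => ?_
    by_cases h : x ∈ S
    · rw [indicator_of_mem h, indicator_of_mem h]
      simp
    · rw [indicator_of_notMem h, indicator_of_notMem h]
      simp
  have hstep1 : ∫⁻ x in S, g x ≤ ∫⁻ x in S, φ (x e) := by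
    rw [hset g, hset (fun x => φ (x e)), fub e _ hF1, fub e _ hF2]
    refine lintegral_mono fun x => ?_
    refine mul_le_mul_right ?_ _
    simp only [hgup, hindS, Function.update_self]
    by_cases hx : volume (fib S e x) = 0
    · rw [lintegral_mul_const _ (measurable_one.indicator (hfibm x)),
        lintegral_indicator_one (hfibm x), hx, zero_mul]
      exact bot_le
    · rw [lintegral_mul_const _ (measurable_one.indicator (hfibm x)),
        lintegral_indicator_one (hfibm x), mul_comm]
      refine (hjen x hx).trans (le_of_eq ?_)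
      rw [← lintegral_indicator (hfibm x)]
      refine lintegral_congr fun t => ?_
      by_cases h : t ∈ fib S e x
      · rw [indicator_of_mem h, indicator_of_mem h]
        simp
      · rw [indicator_of_notMem h, indicator_of_notMem h]
        simp
  have hstep2 : ∫⁻ x in S, φ (x e) = ∫⁻ t : ℝ, φ t * volume (slice S e t) := by
    rw [hset (fun x => φ (x e)), fub e _ hF2]
    have hup := meas_upd e
    have hFm : Measurable (fun p : (Edge n → ℝ) × ℝ => ind (p.1 e) *
        (S.indicator (1 : (Edge n → ℝ) → ENNReal) (Function.update p.1 e p.2) * φ p.2)) :=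
      (meas_ind.comp ((measurable_pi_apply e).comp measurable_fst)).mul
        ((hIS.comp hup).mul (hφm.comp measurable_snd))
    have e1 : ∀ x : Edge n → ℝ, ind (x e) * ∫⁻ t : ℝ,
        S.indicator (1 : (Edge n → ℝ) → ENNReal) (Function.update x e t) *
          φ (Function.update x e t e) =
        ∫⁻ t : ℝ, ind (x e) * (S.indicator (1 : (Edge n → ℝ) → ENNReal)
          (Function.update x e t) * φ t) := by
      intro x
      simp only [Function.update_self]
      rw [lintegral_const_mul]
      exact (hIS.comp (measurable_update x)).mul hφm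
    simp only [e1]
    rw [lintegral_lintegral_swap hFm.aemeasurable]
    refine lintegral_congr fun t => ?_
    have e2 : ∀ x : Edge n → ℝ, ind (x e) * (S.indicator (1 : (Edge n → ℝ) → ENNReal)
          (Function.update x e t) * φ t) = φ t * (slice S e t).indicator 1 x := by
      intro x
      by_cases ha : x e ∈ Ioo (0 : ℝ) 1
      · by_cases hb : Function.update x e t ∈ S
        · rw [indicator_of_mem hb, indicator_of_mem (show x ∈ slice S e t from ⟨ha, hb⟩), ind,
            indicator_of_mem ha]
          simp
        · rw [indicator_of_notMem hb,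
            indicator_of_notMem (show x ∉ slice S e t from fun h => hb h.2)]
          simp
      · rw [indicator_of_notMem (show x ∉ slice S e t from fun h => ha h.1), ind,
          indicator_of_notMem ha]
        simp
    simp only [e2]
    have hsl : MeasurableSet (slice S e t) := by
      have : slice S e t = (fun x : Edge n → ℝ => x e) ⁻¹' Ioo 0 1 ∩
          (fun x : Edge n → ℝ => Function.update x e t) ⁻¹' S := rfl
      rw [this]
      exact (measurable_pi_apply e measurableSet_Ioo).inter
        ((hup.comp (measurable_id.prodMk measurable_const)) hMm)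
    rw [lintegral_const_mul _ (measurable_one.indicator hsl), lintegral_indicator_one hsl]
  -- the slices
  have hslice : ∀ t, t ∉ ({2} : Set ℝ) → φ t * volume (slice S e t) ≤
      (Ioo (0 : ℝ) 2).indicator (fun t => ENNReal.ofReal (V * -(f t * Real.log (f t)))) t := by
    intro t ht
    by_cases htm : t ∈ Ioo (0 : ℝ) 2
    · rw [indicator_of_mem htm]
      have hp := hpos t htm
      have hne : volume (slice S e t) ≠ ⊤ := by
        intro htop
        have : f t = 0 := by
          rw [hf]
          simp only [dens, vol]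
          rw [← hS, htop]
          simp
        linarith
      have hvs : volume (slice S e t) = ENNReal.ofReal (V * f t) := by
        rw [← ENNReal.ofReal_toReal hne]
        congr 1
        have : f t = (volume (slice S e t)).toReal / V := rfl
        rw [this]
        field_simp
      have hlogn : 0 ≤ -Real.log (f t) := by
        have := Real.log_nonpos hp.le (hle t htm)
        linarith
      rw [hvs, hφ]
      simp only
      rw [← ENNReal.ofReal_mul hlogn]
      refine ENNReal.ofReal_le_ofReal (le_of_eq ?_)
      ring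
    · rw [indicator_of_notMem htm]
      have : slice S e t = ∅ := by
        ext x
        simp only [mem_empty_iff_false, iff_false]
        intro hx
        have h := hmemS _ hx.2
        rw [Function.update_self] at h
        exact htm ⟨h.1, lt_of_le_of_ne h.2 ht⟩
      rw [this]
      simp
  have hstep3 : ∫⁻ t : ℝ, φ t * volume (slice S e t) ≤
      ∫⁻ t in Ioo (0 : ℝ) 2, ENNReal.ofReal (V * -(f t * Real.log (f t))) := by
    rw [← lintegral_indicator measurableSet_Ioo]
    refine lintegral_mono_ae ?_
    have h0 : ∀ᵐ t : ℝ, t ∉ ({2} : Set ℝ) := by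
      rw [ae_iff]
      simp
    filter_upwards [h0] with t ht using hslice t ht
  -- integrability
  have hb : ∀ t ∈ Ioo (0 : ℝ) 2, 0 ≤ -(f t * Real.log (f t)) ∧ -(f t * Real.log (f t)) ≤ 1 := by
    intro t ht
    have hp := hpos t ht
    have hl := hle t ht
    have hlogn := Real.log_nonpos hp.le hl
    refine ⟨by nlinarith, ?_⟩
    have h3 := Real.one_sub_inv_le_log_of_pos hp
    have h4 : f t * (1 - (f t)⁻¹) ≤ f t * Real.log (f t) := mul_le_mul_of_nonneg_left h3 hp.le
    have h5 : f t * (1 - (f t)⁻¹) = f t - 1 := by
      field_simp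
    linarith
  have hψm : Measurable (fun t => -(f t * Real.log (f t))) :=
    (hfm.mul (Real.measurable_log.comp hfm)).neg
  have hψint : IntegrableOn (fun t => -(f t * Real.log (f t))) (Ioo (0 : ℝ) 2) := by
    refine Measure.integrableOn_of_bounded (M := 1) ?_ hψm.aestronglyMeasurable ?_
    · rw [Real.volume_Ioo]
      exact ENNReal.ofReal_ne_top
    · rw [ae_restrict_iff' measurableSet_Ioo]
      refine Filter.Eventually.of_forall fun t ht => ?_
      rw [Real.norm_eq_abs, abs_of_nonneg (hb t ht).1]
      exact (hb t ht).2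
  have hstep4 : ∫⁻ t in Ioo (0 : ℝ) 2, ENNReal.ofReal (V * -(f t * Real.log (f t))) =
      ENNReal.ofReal (V * ∫ t in Ioo (0 : ℝ) 2, -(f t * Real.log (f t))) := by
    rw [← integral_const_mul, ← ofReal_integral_eq_lintegral_ofReal (hψint.const_mul V)]
    rw [Filter.EventuallyLE, ae_restrict_iff' measurableSet_Ioo]
    exact Filter.Eventually.of_forall fun t ht => mul_nonneg hV0.le (hb t ht).1
  have hI2 : (∫ t in Ioo (0 : ℝ) 2, -(f t * Real.log (f t))) ≤ 26 * w := by
    rw [← integral_Ioc_eq_integral_Ioo, ← intervalIntegral.integral_of_le zero_le_two]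
    exact hone
  have hI0 : 0 ≤ ∫ t in Ioo (0 : ℝ) 2, -(f t * Real.log (f t)) :=
    setIntegral_nonneg measurableSet_Ioo fun t ht => (hb t ht).1
  calc ∫ x in S, Real.log (volume (fib S e x)).toReal
      ≤ (∫⁻ x in S, g x).toReal := intle _
    _ ≤ (ENNReal.ofReal (V * ∫ t in Ioo (0 : ℝ) 2, -(f t * Real.log (f t)))).toReal := by
        refine ENNReal.toReal_mono ENNReal.ofReal_ne_top ?_
        rw [← hstep4]
        exact hstep1.trans (hstep2.le.trans hstep3)
    _ = V * ∫ t in Ioo (0 : ℝ) 2, -(f t * Real.log (f t)) :=
        ENNReal.toReal_ofReal (mul_nonneg hV0.le hI0)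
    _ ≤ 26 * w * V := by nlinarith

end Pool.Agent.Lib.MP_193d8d_pr
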