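import Pool.Agent.Lib.MP_193d8d_pr.Defs

set_option autoImplicit false
open MeasureTheory Set

namespace Pool.Agent.Lib.MP_193d8d_pr

/-! # Block 1: geometry, quantile tree, tightness -/

/-! ## A. geometry -/

/-- A1 -/
def StVol : Prop := ∀ (κ : ℝ) (n : ℕ), 0 ≤ κ → κ < 1 →
  MeasurableSet (M κ n) ∧ Convex ℝ (M κ n) ∧ volume (M κ n) ≠ ⊤ ∧ 1 ≤ vol (M κ n)

/-- A2: Fubini, one coordinate last -/
def StFubA : Prop := ∀ (E : Type) [Fintype E] [DecidableEq E] (S : Set (E → ℝ)) (e : E) (A : Set ℝ),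
  MeasurableSet S → MeasurableSet A → Measurable (fun t => volume (slice S e t)) ∧
    volume (S ∩ {x | x e ∈ A}) = ∫⁻ t in A, volume (slice S e t)

/-- A3: Fubini, one coordinate first -/
def StFubB : Prop := ∀ (E : Type) [Fintype E] [DecidableEq E] (S : Set (E → ℝ)) (e : E)
  (g : (E → ℝ) → ENNReal), MeasurableSet S → Measurable g →
  (∀ x t, g (Function.update x e t) = g x) →
    Measurable (fun x => volume (fib S e x)) ∧ MeasurableSet (cyl S e) ∧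
    ∫⁻ x in S, g x = ∫⁻ x in cyl S e, g x * volume (fib S e x)

/-- A4: the projection of the metric polytope has at most the volume of the polytope -/
def StProj : Prop := ∀ (n : ℕ) (e : Edge n), 3 ≤ n → vol (cyl (M 0 n) e) ≤ vol (M 0 n)

/-- A5: the slice density -/
def StDens : Prop := ∀ (κ : ℝ) (n : ℕ) (e : Edge n), 0 ≤ κ → κ < 1 → 3 ≤ n →
  ContinuousOn (dens κ n e) (Ioo κ 2) ∧ (∀ t, 0 ≤ dens κ n e t) ∧
  (∀ t ∈ Ioo κ 2, 0 < dens κ n e t) ∧ (∀ t, t ≤ κ → dens κ n e t = 0) ∧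
  ∀ a b, 0 ≤ a → a ≤ b → b ≤ 2 →
    IntervalIntegrable (dens κ n e) volume a b ∧
    vol {x | x ∈ M κ n ∧ a < x e ∧ x e ≤ b} / vol (M κ n) = ∫ t in a..b, dens κ n e t

/-- A6 -/
def StDensLe : Prop := ∀ (n : ℕ) (e : Edge n), 3 ≤ n → ∀ t ∈ Ioo (0 : ℝ) 2, dens 0 n e t ≤ 1

/-- A14: midpoint Prekopa - Leindler inequality in any dimension -/
def StPLn : Prop := ∀ (E : Type) [Fintype E] (F G H : (E → ℝ) → ENNReal), Measurable F →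
  Measurable G → Measurable H → (∀ x y, F x * G y ≤ H (fun e => (x e + y e) / 2) ^ 2) →
  (∫⁻ x, F x) * (∫⁻ x, G x) ≤ (∫⁻ x, H x) ^ 2

/-- A15: continuous and midpoint concave implies concave -/
def StMidC : Prop := ∀ (f : ℝ → ℝ) (a b : ℝ), ContinuousOn f (Ioo a b) →
  (∀ x ∈ Ioo a b, ∀ y ∈ Ioo a b, f x + f y ≤ 2 * f ((x + y) / 2)) → ConcaveOn ℝ (Ioo a b) f

/-- A7: Brunn - Minkowski -/
def StDensLC : Prop := ∀ (n : ℕ) (e : Edge n), 3 ≤ n →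
  ConcaveOn ℝ (Ioo (0 : ℝ) 2) (fun t => Real.log (dens 0 n e t))

/-- A8: symmetry -/
def StSym : Prop := ∀ (κ : ℝ) (n : ℕ) (e e' : Edge n),
  (∀ t, dens κ n e t = dens κ n e' t) ∧ wt κ n e = wt κ n e' ∧
  ∀ φ : ℝ → ℝ, mean (M κ n) (fun x => φ (x e)) = mean (M κ n) (fun x => φ (x e'))

/-- A9: one-dimensional analysis -/
def StOneD : Prop := ∀ f : ℝ → ℝ, ContinuousOn f (Ioo 0 2) →
  (∀ t ∈ Ioo (0 : ℝ) 2, 0 < f t ∧ f t ≤ 1) →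
  ConcaveOn ℝ (Ioo (0 : ℝ) 2) (fun t => Real.log (f t)) → (∫ t in (0 : ℝ)..2, f t) = 1 →
  (∫ t in (0 : ℝ)..1, f t) ≤ 1 / 8 →
    (∀ s ∈ Ico (0 : ℝ) 1, f (1 - s) ≤ 2 * Real.exp (-(s / (12 * ∫ t in (0 : ℝ)..1, f t)))) ∧
    (∫ t in (0 : ℝ)..2, -(f t * Real.log (f t))) ≤ 26 * ∫ t in (0 : ℝ)..1, f t

/-- A10: the mean of the logarithm of the fibre length -/
def StEnt : Prop := ∀ (n : ℕ) (e : Edge n), 3 ≤ n →
  mean (M 0 n) (fun x => Real.log (volume (fib (M 0 n) e x)).toReal) ≤ 26 * wt 0 n e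

/-- A11: the mean of the excess of the lower end of the fibre over 1 -/
def StZ : Prop := ∀ (κ : ℝ) (n : ℕ) (e : Edge n), 0 ≤ κ → κ < 1 → 3 ≤ n →
  mean (M κ n) (fun x => max 0 (sInf (fib (M κ n) e x) - 1)) ≤
    2 * wt 0 n e * vol (M 0 n) / vol (M κ n)

/-- A12: moments -/
def StMom : Prop := ∃ C : ℝ, 1 ≤ C ∧ ∀ (n : ℕ) (e : Edge n), 3 ≤ n →
  0 < wt 0 n e ∧ wt 0 n e ≤ 1 ∧
  mean (M 0 n) (fun x => max 0 (1 - x e) ^ 2) ≤ C * wt 0 n e ^ 3 ∧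
  mean (M 0 n) (fun x => max 0 (1 - x e) ^ 4) ≤ C * wt 0 n e ^ 5

/-- A13: cutting the distances below 9/10 (uses tightness, see `StTight`) -/
def StSharp : Prop := (∃ C : ℝ, ∀ (n : ℕ) (e : Edge n), 3 ≤ n → wt 0 n e * Real.sqrt n ≤ C) →
  ∃ n0 : ℕ, ∀ n : ℕ, n0 ≤ n → (1 - 1 / (n : ℝ) ^ 2) * vol (M 0 n) ≤ vol (M (9 / 10) n)

/-! ## T. the tree of conditional quantiles -/

/-- T1 -/
def StTree : Prop := ∀ (E : Type) [Fintype E] [LinearOrder E] (S : Set (E → ℝ)) (H : ℕ)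
  (l : ℕ → ℝ), MeasurableSet S → (∀ x ∈ S, ∀ e, 0 < x e ∧ x e ≤ 2) → volume S ≠ 0 →
  l 0 = 0 → l (H + 1) = 1 → (∀ h, h ≤ H → l h < l (h + 1)) → Nonempty (Tree S H l)

/-- T2: the cells are independent -/
def StVolR : Prop := ∀ (E : Type) [Fintype E] [LinearOrder E] (S : Set (E → ℝ)) (H : ℕ)
  (l : ℕ → ℝ) (T : Tree S H l), MeasurableSet S → (∀ x ∈ S, ∀ e, 0 < x e ∧ x e ≤ 2) →
  volume S ≠ 0 → l 0 = 0 → l (H + 1) = 1 → (∀ h, h ≤ H → l h < l (h + 1)) →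
  (∀ e c, MeasurableSet (Rset S H T.Q e c) ∧
    vol (Rset S H T.Q e c) = (∏ e' ∈ Finset.univ.filter (fun e' => e' < e), wts H l (c e')) * vol S ∧
    0 < vol (Rset S H T.Q e c)) ∧
  ∀ c, MeasurableSet (Rall S H T.Q c) ∧ vol (Rall S H T.Q c) = (∏ e', wts H l (c e')) * vol S

/-- T3: averages -/
def StAvg : Prop := ∀ (E : Type) [Fintype E] [LinearOrder E] (S : Set (E → ℝ)) (H : ℕ)
  (l : ℕ → ℝ) (T : Tree S H l), MeasurableSet S → (∀ x ∈ S, ∀ e, 0 < x e ∧ x e ≤ 2) →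
  volume S ≠ 0 → l 0 = 0 → l (H + 1) = 1 → (∀ h, h ≤ H → l h < l (h + 1)) →
  ∀ (e : E) (g : (E → ℝ) → ℝ), IntegrableOn g S →
    EE (wts H l) (fun c => mean (Rset S H T.Q e c) g) = mean S g

/-- T4: the box bound -/
def StBox : Prop := ∀ (κ : ℝ) (n H : ℕ) (l : ℕ → ℝ) (T : Tree (M κ n) H l), 0 ≤ κ → κ < 1 →
  l 0 = 0 → l (H + 1) = 1 → (∀ h, h ≤ H → l h < l (h + 1)) →
  ∀ c : Edge n → Fin (H + 1), (∀ e, 0 < len T.Q c e) ∧
    (∏ e, wts H l (c e)) * vol (M κ n) ≤ ∏ e, len T.Q c e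

/-- T5 -/
def StMainG : Prop := ∀ (κ : ℝ) (n H : ℕ) (l : ℕ → ℝ) (T : Tree (M κ n) H l), 0 ≤ κ → κ < 1 →
  l 0 = 0 → l (H + 1) = 1 → (∀ h, h ≤ H → l h < l (h + 1)) →
  Real.log (vol (M κ n)) ≤
    EE (wts H l) (fun c => ∑ e, Real.log (len T.Q c e / wts H l (c e)))

/-- T6: moments of the quantiles -/
def StMomT : Prop := ∀ (E : Type) [Fintype E] [LinearOrder E] (S : Set (E → ℝ)) (H : ℕ)
  (l : ℕ → ℝ) (T : Tree S H l), MeasurableSet S → (∀ x ∈ S, ∀ e, 0 < x e ∧ x e ≤ 2) →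
  volume S ≠ 0 → l 0 = 0 → l (H + 1) = 1 → (∀ h, h ≤ H → l h < l (h + 1)) →
  ∀ (e : E) (h : ℕ) (φ : ℝ → ℝ), h ≤ H + 1 → Monotone φ → (∀ t, 0 ≤ φ t) →
    l h * EE (wts H l) (fun c => φ (1 - T.Q e c h)) ≤ mean S (fun x => φ (1 - x e))

/-- T7: the quantiles are not far above 1 -/
def StNegT : Prop := ∀ (κ : ℝ) (n H : ℕ) (l : ℕ → ℝ) (T : Tree (M κ n) H l), 0 ≤ κ → κ < 1 →
  3 ≤ n → l 0 = 0 → l (H + 1) = 1 → (∀ h, h ≤ H → l h < l (h + 1)) →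
  ∀ (e : Edge n) (h : ℕ), h ≤ H + 1 →
    EE (wts H l) (fun c => max 0 (T.Q e c h - 1)) ≤
      2 * l h + mean (M κ n) (fun x => max 0 (sInf (fib (M κ n) e x) - 1))

/-- T8: conditional densities -/
def StXi : Prop := ∀ (E : Type) [Fintype E] [LinearOrder E] (S : Set (E → ℝ)) (H : ℕ)
  (l : ℕ → ℝ) (T : Tree S H l), MeasurableSet S → (∀ x ∈ S, ∀ e, 0 < x e ∧ x e ≤ 2) →
  volume S ≠ 0 → l 0 = 0 → l (H + 1) = 1 → (∀ h, h ≤ H → l h < l (h + 1)) →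
  (∀ e c (a b : ℝ), a ≤ b → vol (Rset S H T.Q e c ∩ {x | a < x e ∧ x e ≤ b}) ≤
    (b - a) * vol (cyl (Rset S H T.Q e c) e)) ∧
  (∀ e c, vol (Rset S H T.Q e c) ≤ 2 * vol (cyl (Rset S H T.Q e c) e)) ∧
  (∀ e, EE (wts H l) (fun c => vol (cyl (Rset S H T.Q e c) e) / vol (Rset S H T.Q e c)) ≤
    vol (cyl S e) / vol S)

/-- T9: logarithmic version -/
def StXiLog : Prop := ∀ (E : Type) [Fintype E] [LinearOrder E] (S : Set (E → ℝ)) (H : ℕ)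
  (l : ℕ → ℝ) (T : Tree S H l), MeasurableSet S → (∀ x ∈ S, ∀ e, 0 < x e ∧ x e ≤ 2) →
  volume S ≠ 0 → l 0 = 0 → l (H + 1) = 1 → (∀ h, h ≤ H → l h < l (h + 1)) →
  ∀ e, EE (wts H l) (fun c =>
      -Real.log (vol (cyl (Rset S H T.Q e c) e) / vol (Rset S H T.Q e c))) ≤
    mean S (fun x => Real.log (volume (fib S e x)).toReal)

/-! ## B. the main inequality and tightness -/

/-- B1: the main inequality for the dyadic/uniform levels -/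
def StMainS : Prop := ∀ (κ ε δ K : ℝ) (n J m : ℕ)
  (T : Tree (M κ n) (J + m + 1) (lev ε δ J m)), 0 ≤ κ → κ < 1 → 3 ≤ n → 0 < ε → 0 < δ → 0 < K →
  (m + 1) * δ * ε < 1 →
  Real.log (vol (M κ n)) / ((Fintype.card (Edge n) : ℝ) * ε) ≤
    AV (fun e => EE (wts (J + m + 1) (lev ε δ J m))
      (fun c => Lam δ m (fun i => clamp K (ps T.Q ε J e c i))))
    - AV (fun e => EE (wts (J + m + 1) (lev ε δ J m))
      (fun c => cherry (val K J (ps T.Q ε J) c) e))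
    + AV (fun e => EE (wts (J + m + 1) (lev ε δ J m)) (fun c => max 0 (ps T.Q ε J e c 0 - K)))
    + δ
    + (∑ j ∈ Finset.range J, δ * (1 / 2) ^ (j + 1) *
        AV (fun e => EE (wts (J + m + 1) (lev ε δ J m)) (fun c =>
          Real.log ((al T.Q ε J e c (j + 1) - al T.Q ε J e c j) / (δ * (1 / 2) ^ (j + 1))))))
    + δ * (1 / 2) ^ J * Real.log (2 / (ε * (δ * (1 / 2) ^ J)))
    + (m + 1) * δ * ε * (2 * K +
        AV (fun e => EE (wts (J + m + 1) (lev ε δ J m)) (fun c => max 0 (-ps T.Q ε J e c m))))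

/-- B2: the main inequality with all error terms estimated -/
def StUpE : Prop := ∀ C2 : ℝ, 1 ≤ C2 → ∃ C : ℝ, 1 ≤ C ∧ ∀ (κ ε δ K : ℝ) (n J m : ℕ)
  (T : Tree (M κ n) (J + m + 1) (lev ε δ J m)), 0 ≤ κ → κ < 1 → 3 ≤ n → 0 < ε → 0 < δ → δ ≤ 1 →
  0 < K → (m + 1) * δ * ε < 1 →
  (∀ e, mean (M κ n) (fun x => max 0 (1 - x e) ^ 2) ≤ C2 * ε ^ 3 ∧
    mean (M κ n) (fun x => max 0 (1 - x e) ^ 4) ≤ C2 * ε ^ 5 ∧
    mean (M κ n) (fun x => max 0 (sInf (fib (M κ n) e x) - 1)) ≤ C2 * ε) →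
  (1 / 2) ^ J * Real.log (2 / (ε * (δ * (1 / 2) ^ J))) ≤ 1 →
  Real.log (vol (M κ n)) / ((Fintype.card (Edge n) : ℝ) * ε) ≤
    AV (fun e => EE (wts (J + m + 1) (lev ε δ J m))
      (fun c => Lam δ m (fun i => clamp K (ps T.Q ε J e c i))))
    - AV (fun e => EE (wts (J + m + 1) (lev ε δ J m))
      (fun c => cherry (val K J (ps T.Q ε J) c) e))
    + C * (δ * (1 + Real.log (1 / δ)) + 1 / (δ * K ^ 3) +
        (m + 1) * δ * ε * (K + (m + 1) * δ + 1))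

/-- B3: many cherries (abstract, finite probability) -/
def StBavg : Prop := ∀ (n : ℕ) (κ : Type) [Fintype κ] [DecidableEq κ] (p : κ → ℝ) (last : κ)
  (K : ℝ) (a : Edge n → (Edge n → κ) → ℝ), 3 ≤ n → (∀ h, 0 ≤ p h) → ∑ h, p h = 1 → 0 < K →
  (∀ e c, |a e c| ≤ K) → (∀ e c h, a e (Function.update c e h) = a e c) →
  1 ≤ ((n : ℝ) - 2) * (1 - p last) ^ 2 →
  AV (fun e => EE p (fun c => a e c + |a e c| / 3))
      - 6 * K / Real.sqrt (((n : ℝ) - 2) * (1 - p last) ^ 2) ≤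
    AV (fun e => EE p (fun c => cherry (fun e' => if c e' = last then -K else a e' c) e))

/-- B4: the smallest quantile is not small on average -/
def StLowQ : Prop := ∀ (θ : ℝ) (n J : ℕ) (e : Edge n)
  (T : Tree (M 0 n) (J + 0 + 1) (lev (wt 0 n e) θ J 0)), 3 ≤ n → 0 < θ → θ ≤ 1 / 4 →
  1 / 240 ≤ EE (wts (J + 0 + 1) (lev (wt 0 n e) θ J 0))
    (fun c => max 0 (ps T.Q (wt 0 n e) J e c 0))

/-- B5: TIGHTNESS -/
def StTight : Prop := ∃ C : ℝ, 1 ≤ C ∧ ∀ (n : ℕ) (e : Edge n), 3 ≤ n →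
  wt 0 n e * Real.sqrt n ≤ C

end Pool.Agent.Lib.MP_193d8d_pr
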