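import Pool.Agent.Lib.MP_193d8d_pr.Base
import Pool.Agent.Lib.MP_193d8d_pr.StA

set_option autoImplicit false
open MeasureTheory Set

namespace Pool.Agent.Lib.MP_193d8d_pr

namespace FubAAux

variable {E : Type} [Fintype E] [DecidableEq E]

/-- split off the coordinate `e` -/
noncomputable def sp (e : E) : (E → ℝ) ≃ᵐ ℝ × ({i : E // ¬ i = e} → ℝ) :=
  (MeasurableEquiv.piEquivPiSubtypeProd (fun _ : E => ℝ) (fun i => i = e)).trans
    (MeasurableEquiv.prodCongr (MeasurableEquiv.funUnique {i : E // i = e} ℝ)
      (MeasurableEquiv.refl _))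

theorem sp_mp (e : E) : MeasurePreserving (sp e) volume volume := by
  have h1 : MeasurePreserving (MeasurableEquiv.piEquivPiSubtypeProd (fun _ : E => ℝ)
      (fun i => i = e)) volume volume := by
    have h := volume_preserving_piEquivPiSubtypeProd (fun _ : E => ℝ) (fun i => i = e)
    have hF : (Subtype.fintype (fun i => i = e) : Fintype {i : E // i = e}) =
      Fintype.subtypeEq e := Subsingleton.elim _ _
    rw [hF] at h
    exact h
  have h2 : MeasurePreserving (MeasurableEquiv.prodCongr
      (MeasurableEquiv.funUnique {i : E // i = e} ℝ)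
      (MeasurableEquiv.refl ({i : E // ¬ i = e} → ℝ))) volume volume := by
    have h3 := (volume_preserving_funUnique {i : E // i = e} ℝ).prod
      (MeasurePreserving.id (volume : Measure ({i : E // ¬ i = e} → ℝ)))
    exact h3
  exact h2.comp h1

theorem sp_apply (e : E) (x : E → ℝ) : sp e x = (x e, fun i : {i : E // ¬ i = e} => x i) := rfl

theorem sp_symm (e : E) (t : ℝ) (y : {i : E // ¬ i = e} → ℝ) :
    (sp e).symm (t, y) = fun i => if h : i = e then t else y ⟨i, h⟩ := by
  rw [MeasurableEquiv.symm_apply_eq, sp_apply]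
  refine Prod.ext ?_ ?_
  · change t = if h : e = e then t else y ⟨e, h⟩
    rw [dif_pos rfl]
  · funext i
    change y i = if h : (i : E) = e then t else y ⟨i, h⟩
    rw [dif_neg i.2]

theorem update_symm (e : E) (u t : ℝ) (y : {i : E // ¬ i = e} → ℝ) :
    Function.update ((sp e).symm (u, y)) e t = (sp e).symm (t, y) := by
  rw [sp_symm, sp_symm]
  funext i
  by_cases h : i = e
  · subst h
    rw [Function.update_self, dif_pos rfl]
  · rw [Function.update_of_ne h, dif_neg h, dif_neg h]

theorem symm_e (e : E) (t : ℝ) (y : {i : E // ¬ i = e} → ℝ) : (sp e).symm (t, y) e = t := by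
  rw [sp_symm]
  change (if h : e = e then t else y ⟨e, h⟩) = t
  rw [dif_pos rfl]

/-- the slice as a subset of the other coordinates -/
def sl (S : Set (E → ℝ)) (e : E) (t : ℝ) : Set ({i : E // ¬ i = e} → ℝ) :=
  Prod.mk t ⁻¹' ((sp e).symm ⁻¹' S)

theorem vol_eq (e : E) {S : Set (E → ℝ)} (hS : MeasurableSet S) :
    volume S = ∫⁻ t, volume (sl S e t) := by
  have h1 : volume ((sp e).symm ⁻¹' S) = volume S :=
    ((sp_mp e).symm (sp e)).measure_preimage hS.nullMeasurableSet
  rw [← h1, Measure.volume_eq_prod, Measure.prod_apply ((sp e).symm.measurable hS)]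
  rfl

theorem meas_sl (e : E) {S : Set (E → ℝ)} (hS : MeasurableSet S) :
    Measurable fun t => volume (sl S e t) :=
  measurable_measure_prodMk_left ((sp e).symm.measurable hS)

theorem slice_meas (e : E) {S : Set (E → ℝ)} (hS : MeasurableSet S) (t : ℝ) :
    MeasurableSet (slice S e t) := by
  have h1 : Measurable fun x : E → ℝ => Function.update x e t :=
    measurable_update_left
  exact (measurable_pi_apply e measurableSet_Ioo).inter (h1 hS)

theorem vol_slice (e : E) {S : Set (E → ℝ)} (hS : MeasurableSet S) (t : ℝ) :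
    volume (slice S e t) = volume (sl S e t) := by
  rw [vol_eq e (slice_meas e hS t)]
  have h1 : ∀ u : ℝ, volume (sl (slice S e t) e u) =
      (Ioo (0 : ℝ) 1).indicator (fun _ => volume (sl S e t)) u := by
    intro u
    by_cases hu : u ∈ Ioo (0 : ℝ) 1
    · rw [indicator_of_mem hu]
      congr 1
      ext y
      change ((sp e).symm (u, y) e ∈ Ioo (0 : ℝ) 1 ∧
        Function.update ((sp e).symm (u, y)) e t ∈ S) ↔ (sp e).symm (t, y) ∈ S
      rw [symm_e, update_symm]
      exact ⟨fun h => h.2, fun h => ⟨hu, h⟩⟩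
    · rw [indicator_of_notMem hu]
      have h2 : sl (slice S e t) e u = ∅ := by
        ext y
        refine ⟨fun h => ?_, fun h => h.elim⟩
        have h3 : (sp e).symm (u, y) e ∈ Ioo (0 : ℝ) 1 := h.1
        rw [symm_e] at h3
        exact hu h3
      rw [h2, measure_empty]
  simp only [h1]
  rw [lintegral_indicator measurableSet_Ioo, setLIntegral_const, Real.volume_Ioo]
  simp

end FubAAux

open FubAAux in
/-- A2: Fubini, one coordinate last -/
theorem stFubA : StFubA := by
  intro E _ _ S e A hS hA
  simp only [vol_slice e hS]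
  refine ⟨meas_sl e hS, ?_⟩
  have hSA : MeasurableSet (S ∩ {x | x e ∈ A}) := hS.inter (measurable_pi_apply e hA)
  rw [vol_eq e hSA, ← lintegral_indicator hA]
  refine lintegral_congr fun t => ?_
  by_cases ht : t ∈ A
  · rw [indicator_of_mem ht]
    congr 1
    ext y
    change ((sp e).symm (t, y) ∈ S ∧ (sp e).symm (t, y) e ∈ A) ↔ (sp e).symm (t, y) ∈ S
    rw [symm_e]
    exact ⟨fun h => h.1, fun h => ⟨h, ht⟩⟩
  · rw [indicator_of_notMem ht]
    have h2 : sl (S ∩ {x | x e ∈ A}) e t = ∅ := by
      ext y
      refine ⟨fun h => ?_, fun h => h.elim⟩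
      have h3 : (sp e).symm (t, y) e ∈ A := h.2
      rw [symm_e] at h3
      exact ht h3
    rw [h2, measure_empty]

end Pool.Agent.Lib.MP_193d8d_pr
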