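import Pool.Agent.Lib.MP_193d8d_pr.StA
import Pool.Agent.Lib.MP_193d8d_pr.Base

set_option autoImplicit false
open MeasureTheory Set

namespace Pool.Agent.Lib.MP_193d8d_pr

namespace FubBAux

variable {E : Type} [Fintype E] [DecidableEq E]

theorem fib_update (S : Set (E → ℝ)) (e : E) (x : E → ℝ) (t : ℝ) :
    fib S e (Function.update x e t) = fib S e x := by
  unfold fib
  simp only [Function.update_idem]

theorem measurableSet_fib {S : Set (E → ℝ)} (hS : MeasurableSet S) (e : E) (x : E → ℝ) :
    MeasurableSet (fib S e x) := (measurable_update x) hS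

/-- integration of the coordinate `e` over `S` -/
theorem marginal_S {S : Set (E → ℝ)} (hS : MeasurableSet S) (e : E) {g : (E → ℝ) → ENNReal}
    (hg : ∀ x t, g (Function.update x e t) = g x) (x : E → ℝ) :
    (∫⋯∫⁻_{e}, S.indicator g ∂fun _ => (volume : Measure ℝ)) x = g x * volume (fib S e x) := by
  rw [lmarginal_singleton]
  have h1 : ∀ t, S.indicator g (Function.update x e t) =
      (fib S e x).indicator (fun _ => g x) t := by
    intro t
    by_cases h : Function.update x e t ∈ S
    · rw [Set.indicator_of_mem h, Set.indicator_of_mem (show t ∈ fib S e x from h), hg]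
    · rw [Set.indicator_of_notMem h, Set.indicator_of_notMem (show t ∉ fib S e x from h)]
  simp only [h1]
  rw [lintegral_indicator (measurableSet_fib hS e x), setLIntegral_const]

theorem measurable_fib {S : Set (E → ℝ)} (hS : MeasurableSet S) (e : E) :
    Measurable (fun x => volume (fib S e x)) := by
  have h1 : Measurable (S.indicator (fun _ : E → ℝ => (1 : ENNReal))) :=
    measurable_const.indicator hS
  have h2 := h1.lmarginal (s := {e}) (fun _ : E => (volume : Measure ℝ))
  have h3 : (∫⋯∫⁻_{e}, S.indicator (fun _ : E → ℝ => (1 : ENNReal)) ∂fun _ =>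
      (volume : Measure ℝ)) = fun x => volume (fib S e x) := by
    funext x
    rw [marginal_S hS e (fun _ _ => rfl), one_mul]
  rwa [h3] at h2

theorem measurableSet_cyl {S : Set (E → ℝ)} (hS : MeasurableSet S) (e : E) :
    MeasurableSet (cyl S e) :=
  ((measurable_pi_apply e) measurableSet_Ioo).inter
    ((measurable_fib hS e) (measurableSet_singleton 0).compl)

/-- integration of the coordinate `e` over the cylinder -/
theorem marginal_cyl {S : Set (E → ℝ)} (e : E) {g : (E → ℝ) → ENNReal}
    (hg : ∀ x t, g (Function.update x e t) = g x) (x : E → ℝ) :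
    (∫⋯∫⁻_{e}, (cyl S e).indicator (fun x => g x * volume (fib S e x)) ∂fun _ =>
      (volume : Measure ℝ)) x = g x * volume (fib S e x) := by
  rw [lmarginal_singleton]
  have h1 : ∀ t, (cyl S e).indicator (fun x => g x * volume (fib S e x))
      (Function.update x e t) = (Ioo (0 : ℝ) 1).indicator
        (fun _ => g x * volume (fib S e x)) t := by
    intro t
    by_cases ht : t ∈ Ioo (0 : ℝ) 1
    · rw [Set.indicator_of_mem ht]
      by_cases hv : volume (fib S e x) = 0
      · rw [hv, mul_zero, Set.indicator_of_notMem]
        intro h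
        have h2 := h.2
        rw [fib_update] at h2
        exact h2 hv
      · rw [Set.indicator_of_mem, fib_update, hg]
        refine ⟨?_, ?_⟩
        · rw [Function.update_self]
          exact ht
        · rw [fib_update]
          exact hv
    · rw [Set.indicator_of_notMem ht, Set.indicator_of_notMem]
      intro h
      have h2 := h.1
      rw [Function.update_self] at h2
      exact ht h2
  simp only [h1]
  rw [lintegral_indicator measurableSet_Ioo, setLIntegral_const]
  simp

end FubBAux

open FubBAux in
/-- A3 -/
theorem stFubB : StFubB := by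
  intro E _ _ S e g hS hg hge
  refine ⟨measurable_fib hS e, measurableSet_cyl hS e, ?_⟩
  rw [← lintegral_indicator hS, ← lintegral_indicator (measurableSet_cyl hS e)]
  have h1 : Measurable (S.indicator g) := hg.indicator hS
  have h2 : Measurable ((cyl S e).indicator (fun x => g x * volume (fib S e x))) :=
    (hg.mul (measurable_fib hS e)).indicator (measurableSet_cyl hS e)
  have h3 : (∫⋯∫⁻_{e}, S.indicator g ∂fun _ => (volume : Measure ℝ)) =
      ∫⋯∫⁻_{e}, (cyl S e).indicator (fun x => g x * volume (fib S e x)) ∂fun _ =>
        (volume : Measure ℝ) := by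
    funext x
    rw [marginal_S hS e hge, marginal_cyl e hge]
  have h4 := lintegral_eq_of_lmarginal_eq {e} h1 h2 h3
  rw [← volume_pi] at h4
  exact h4

end Pool.Agent.Lib.MP_193d8d_pr
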