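import Pool.Agent.Lib.MP_193d8d_pr.StA
import Pool.Agent.Lib.MP_193d8d_pr.Base

set_option autoImplicit false
open MeasureTheory Set

namespace Pool.Agent.Lib.MP_193d8d_pr

namespace LowQAux

/-- the weights sum to one -/
lemma sum_wts {H : ℕ} {l : ℕ → ℝ} (h0 : l 0 = 0) (h1 : l (H + 1) = 1) :
    ∑ h : Fin (H + 1), wts H l h = 1 := by
  unfold wts
  rw [Fin.sum_univ_eq_sum_range (fun i => l (i + 1) - l i), Finset.sum_range_sub, h0, h1]
  ring

lemma wts_nonneg {H : ℕ} {l : ℕ → ℝ} (h : ∀ h, h ≤ H → l h < l (h + 1)) (i : Fin (H + 1)) :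
    0 ≤ wts H l i := by
  unfold wts
  have := h i (by omega)
  linarith

lemma lev_zero (ε δ : ℝ) (J m : ℕ) : lev ε δ J m 0 = 0 := by simp [lev]

lemma lev_top (ε δ : ℝ) (J : ℕ) : lev ε δ J 0 (J + 1 + 1) = 1 := by
  simp [lev]

lemma lev_mid (ε δ : ℝ) (J : ℕ) : lev ε δ J 0 (J + 1) = ε * δ := by
  simp [lev]

lemma lev_lt {ε δ : ℝ} (J : ℕ) (hp : 0 < ε * δ) (h1 : ε * δ < 1) :
    ∀ h, h ≤ J + 1 → lev ε δ J 0 h < lev ε δ J 0 (h + 1) := by
  intro h hh
  rcases Nat.eq_zero_or_pos h with rfl | h0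
  · rw [lev_zero]
    unfold lev
    rw [if_neg (by omega), if_pos (by omega)]
    positivity
  · rcases Nat.lt_or_ge h (J + 1) with h2 | h2
    · unfold lev
      rw [if_neg (by omega), if_pos (by omega), if_neg (by omega), if_pos (by omega)]
      have e1 : J + 1 - h = (J + 1 - (h + 1)) + 1 := by omega
      rw [e1, pow_succ]
      have : 0 < ε * δ * (1 / 2 : ℝ) ^ (J + 1 - (h + 1)) := by positivity
      linarith
    · have e1 : h = J + 1 := by omega
      subst e1
      rw [lev_mid, lev_top]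
      exact h1

lemma log60 {x : ℝ} (hx : 60 < x) : 52 ≤ x - 1 - Real.log x := by
  have h1 : Real.log (x / 60) ≤ x / 60 - 1 := Real.log_le_sub_one_of_pos (by positivity)
  rw [Real.log_div (by linarith) (by norm_num)] at h1
  have h2 : Real.log 60 ≤ 6 := by
    have : Real.log 60 ≤ Real.log (2 ^ 6) := Real.log_le_log (by norm_num) (by norm_num)
    rw [Real.log_pow] at this
    have h3 := Real.log_two_lt_d9
    push_cast at this
    linarith
  linarith

/-- the mean of an indicator function -/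
lemma mean_ind {E : Type} [Fintype E] {S : Set (E → ℝ)} {A : Set (E → ℝ)}
    (hA : MeasurableSet A) (S0 : MeasurableSet S) :
    mean S (A.indicator fun _ => (1 : ℝ)) = vol (S ∩ A) / vol S := by
  unfold mean
  rw [setIntegral_indicator hA]
  simp [vol, Measure.real]

end LowQAux

open LowQAux in
theorem stLowQ (hVol : StVol) (hVolR : StVolR) (hAvg : StAvg) (hXi : StXi) (hXiLog : StXiLog)
    (hProj : StProj) (hEnt : StEnt) (hMom : StMom) : StLowQ := by
  intro θ n J e T hn hθ hθ4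
  obtain ⟨C0, -, hMom⟩ := hMom
  obtain ⟨hw, hw1, -, -⟩ := hMom n e hn
  have y2' := hEnt n e hn
  have hwt : vol (M 0 n ∩ {x | x e ≤ 1}) / vol (M 0 n) = wt 0 n e := rfl
  generalize wt 0 n e = w at *
  obtain ⟨mM, -, fM, vM⟩ := hVol 0 n le_rfl one_pos
  have hS2 : ∀ x ∈ M 0 n, ∀ e, 0 < x e ∧ x e ≤ 2 := fun x hx e => hx.1 e
  have hS0 : volume (M 0 n) ≠ 0 := by
    intro h
    rw [vol, h] at vM
    simp at vM
    linarith
  have hl0 : lev w θ J 0 0 = 0 := lev_zero _ _ _ _
  have hl1 : lev w θ J 0 (J + 0 + 1 + 1) = 1 := lev_top _ _ _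
  have hp : 0 < w * θ := mul_pos hw hθ
  have hp1 : w * θ < 1 := by nlinarith
  have hll : ∀ h, h ≤ J + 0 + 1 → lev w θ J 0 h < lev w θ J 0 (h + 1) := lev_lt J hp hp1
  obtain ⟨hR, -⟩ := hVolR (Edge n) (M 0 n) (J + 0 + 1) (lev w θ J 0) T mM hS2 hS0 hl0 hl1 hll
  obtain ⟨x1, x2, x3⟩ := hXi (Edge n) (M 0 n) (J + 0 + 1) (lev w θ J 0) T mM hS2 hS0 hl0 hl1 hll
  have x4 := hXiLog (Edge n) (M 0 n) (J + 0 + 1) (lev w θ J 0) T mM hS2 hS0 hl0 hl1 hll e
  have x3 := x3 e
  have hsum : ∑ h, wts (J + 0 + 1) (lev w θ J 0) h = 1 := sum_wts hl0 hl1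
  have hnn : ∀ h, 0 ≤ wts (J + 0 + 1) (lev w θ J 0) h := wts_nonneg hll
  have hA : MeasurableSet {x : Edge n → ℝ | x e ≤ 1} :=
    measurableSet_le (measurable_pi_apply e) measurable_const
  have hg : IntegrableOn ({x : Edge n → ℝ | x e ≤ 1}.indicator fun _ => (1 : ℝ)) (M 0 n) := by
    refine IntegrableOn.indicator ?_ hA
    exact integrableOn_const fM
  have hav := hAvg (Edge n) (M 0 n) (J + 0 + 1) (lev w θ J 0) T mM hS2 hS0 hl0 hl1 hll e _ hg
  rw [mean_ind hA mM] at hav
  rw [hwt] at hav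
  set R : (Edge n → Fin (J + 0 + 1 + 1)) → Set (Edge n → ℝ) :=
    fun c => Rset (M 0 n) (J + 0 + 1) T.Q e c with hRdef
  set ξ : (Edge n → Fin (J + 0 + 1 + 1)) → ℝ := fun c => vol (cyl (R c) e) / vol (R c) with hξ
  set a : (Edge n → Fin (J + 0 + 1 + 1)) → ℝ := fun c => ps T.Q w J e c 0 with ha
  -- the pointwise inequality
  have key : ∀ c, mean (R c) ({x : Edge n → ℝ | x e ≤ 1}.indicator fun _ => (1 : ℝ)) ≤
      w * θ + 60 * w * max 0 (a c) + (ξ c - 1 - Real.log (ξ c)) / 52 := by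
    intro c
    obtain ⟨mR, -, pR⟩ := hR e c
    have hfR : volume (R c) ≠ ⊤ := ne_top_of_le_ne_top fM (measure_mono fun x hx => hx.1)
    have hpR : 0 < vol (R c) := pR
    rw [mean_ind hA mR]
    have hξ0 : 0 < ξ c := by
      have h2 := x2 e c
      have : 0 < vol (cyl (R c) e) := by
        have h3 : vol (R c) ≤ 2 * vol (cyl (R c) e) := h2
        linarith
      exact div_pos this hpR
    have hlog : 0 ≤ ξ c - 1 - Real.log (ξ c) := by
      have := Real.log_le_sub_one_of_pos hξ0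
      linarith
    have hmono : ∀ A B : Set (Edge n → ℝ), A ⊆ B → B ⊆ R c → vol A ≤ vol B := fun A B h1 h2 =>
      ENNReal.toReal_mono (ne_top_of_le_ne_top hfR (measure_mono h2)) (measure_mono h1)
    by_cases h60 : 60 < ξ c
    · have h1 : vol (R c ∩ {x | x e ≤ 1}) / vol (R c) ≤ 1 := by
        rw [div_le_one hpR]
        exact hmono _ _ inter_subset_left subset_rfl
      have h2 := log60 h60
      have h3 : 0 ≤ 60 * w * max 0 (a c) := by positivity
      have h4 : 1 ≤ (ξ c - 1 - Real.log (ξ c)) / 52 := by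
        rw [le_div_iff₀ (by norm_num)]
        linarith
      linarith
    · rw [not_lt] at h60
      have hcut : vol (R c ∩ {x | x e ≤ T.Q e c (J + 1)}) = w * θ * vol (R c) := by
        have h1 := T.cut e c (J + 1) (by omega)
        rw [lev_mid] at h1
        unfold vol
        rw [h1, ENNReal.toReal_mul, ENNReal.toReal_ofReal hp.le]
      rcases le_or_gt 1 (T.Q e c (J + 1)) with hQ | hQ
      · have h1 : vol (R c ∩ {x | x e ≤ 1}) ≤ w * θ * vol (R c) := by
          rw [← hcut]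
          refine hmono _ _ ?_ inter_subset_left
          exact inter_subset_inter_right _ fun x (hx : x e ≤ 1) => hx.trans hQ
        have h2 : vol (R c ∩ {x | x e ≤ 1}) / vol (R c) ≤ w * θ := by
          rw [div_le_iff₀ hpR]
          exact h1
        have h3 : 0 ≤ 60 * w * max 0 (a c) := by positivity
        linarith [div_nonneg hlog (show (0 : ℝ) ≤ 52 by norm_num)]
      · have hd : vol (R c ∩ {x | x e ≤ 1}) ≤ vol (R c ∩ {x | x e ≤ T.Q e c (J + 1)}) +
            vol (R c ∩ {x | T.Q e c (J + 1) < x e ∧ x e ≤ 1}) := by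
          have h1 : R c ∩ {x | x e ≤ 1} ⊆ (R c ∩ {x | x e ≤ T.Q e c (J + 1)}) ∪
              (R c ∩ {x | T.Q e c (J + 1) < x e ∧ x e ≤ 1}) := by
            rintro x ⟨hx, hx1⟩
            rcases le_or_gt (x e) (T.Q e c (J + 1)) with h | h
            · exact Or.inl ⟨hx, h⟩
            · exact Or.inr ⟨hx, h, hx1⟩
          have h2 := (measure_mono h1).trans (measure_union_le (μ := volume) _ _)
          have f1 : volume (R c ∩ {x | x e ≤ T.Q e c (J + 1)}) ≠ ⊤ :=
            ne_top_of_le_ne_top hfR (measure_mono inter_subset_left)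
          have f2 : volume (R c ∩ {x | T.Q e c (J + 1) < x e ∧ x e ≤ 1}) ≠ ⊤ :=
            ne_top_of_le_ne_top hfR (measure_mono inter_subset_left)
          have h3 := ENNReal.toReal_mono (ENNReal.add_ne_top.2 ⟨f1, f2⟩) h2
          rw [ENNReal.toReal_add f1 f2] at h3
          exact h3
        have h1 : vol (R c ∩ {x | T.Q e c (J + 1) < x e ∧ x e ≤ 1}) ≤
            (1 - T.Q e c (J + 1)) * vol (cyl (R c) e) := x1 e c _ _ hQ.le
        have hac : a c = (1 - T.Q e c (J + 1)) / w := rfl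
        have ha0 : 0 ≤ a c := by
          rw [hac]
          exact div_nonneg (by linarith) hw.le
        have haw : 1 - T.Q e c (J + 1) = w * a c := by
          rw [hac]
          field_simp
        have hcy : vol (cyl (R c) e) = ξ c * vol (R c) := by
          rw [hξ]
          field_simp
        rw [hcut] at hd
        rw [haw, hcy] at h1
        have h2 : vol (R c ∩ {x | x e ≤ 1}) / vol (R c) ≤ w * θ + w * a c * ξ c := by
          rw [div_le_iff₀ hpR]
          calc _ ≤ w * θ * vol (R c) + w * a c * (ξ c * vol (R c)) := hd.trans (by linarith)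
            _ = _ := by ring
        have h3 : w * a c * ξ c ≤ w * a c * 60 :=
          mul_le_mul_of_nonneg_left h60 (mul_nonneg hw.le ha0)
        rw [max_eq_right ha0]
        linarith [div_nonneg hlog (show (0 : ℝ) ≤ 52 by norm_num)]
  have hE := EE_mono hnn key
  have hav' : EE (wts (J + 0 + 1) (lev w θ J 0)) (fun c => mean (R c)
      ({x : Edge n → ℝ | x e ≤ 1}.indicator fun _ => (1 : ℝ))) = w := hav
  rw [hav'] at hE
  have e1 : EE (wts (J + 0 + 1) (lev w θ J 0)) (fun c => w * θ + 60 * w * max 0 (a c) +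
      (ξ c - 1 - Real.log (ξ c)) / 52) =
      w * θ + 60 * w * EE (wts (J + 0 + 1) (lev w θ J 0)) (fun c => max 0 (a c)) +
        (EE (wts (J + 0 + 1) (lev w θ J 0)) ξ - 1 +
          EE (wts (J + 0 + 1) (lev w θ J 0)) (fun c => -Real.log (ξ c))) / 52 := by
    have h1 : (fun c => w * θ + 60 * w * max 0 (a c) + (ξ c - 1 - Real.log (ξ c)) / 52) =
        fun c => (w * θ + 60 * w * max 0 (a c)) + (1 / 52 : ℝ) * ((ξ c - 1) + (-Real.log (ξ c))) := by
      funext c
      ring
    rw [h1, EE_add, EE_add, EE_mul_left _ (60 * w), EE_mul_left _ (1 / 52 : ℝ), EE_add, EE_sub,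
      EE_const hsum, EE_const hsum]
    ring
  rw [e1] at hE
  have y1 : EE (wts (J + 0 + 1) (lev w θ J 0)) ξ ≤ 1 := by
    refine x3.trans ?_
    rw [div_le_one (by linarith)]
    exact hProj n e hn
  have y2 : EE (wts (J + 0 + 1) (lev w θ J 0)) (fun c => -Real.log (ξ c)) ≤ 26 * w :=
    x4.trans y2'
  have y3 : w ≤ w * θ + 60 * w * EE (wts (J + 0 + 1) (lev w θ J 0)) (fun c => max 0 (a c)) +
      w / 2 := by
    linarith
  have y4 : w * (1 / 2 - θ) ≤ w * (60 * EE (wts (J + 0 + 1) (lev w θ J 0))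
      (fun c => max 0 (a c))) := by
    linarith
  have y5 := le_of_mul_le_mul_left y4 hw
  linarith

end Pool.Agent.Lib.MP_193d8d_pr
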