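import Pool.Agent.Lib.MP_193d8d_pr.StA
import Pool.Agent.Lib.MP_193d8d_pr.Base

set_option autoImplicit false
open MeasureTheory Set

namespace Pool.Agent.Lib.MP_193d8d_pr

namespace MainGAux

theorem wts_pos {H : ℕ} {l : ℕ → ℝ} (hl : ∀ h, h ≤ H → l h < l (h + 1)) (h : Fin (H + 1)) :
    0 < wts H l h := sub_pos.2 (hl h (Nat.lt_succ_iff.1 h.2))

theorem wts_sum {H : ℕ} {l : ℕ → ℝ} (h0 : l 0 = 0) (h1 : l (H + 1) = 1) :
    ∑ h, wts H l h = 1 := by
  unfold wts
  rw [Fin.sum_univ_eq_sum_range (fun i => l (i + 1) - l i) (H + 1), Finset.sum_range_sub, h0, h1]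
  norm_num

end MainGAux

open MainGAux in
theorem stMainG (hV : StVol) (hB : StBox) : StMainG := by
  intro κ n H l T hκ0 hκ1 h0 h1 hl
  obtain ⟨-, -, -, hvol⟩ := hV κ n hκ0 hκ1
  have hvp : 0 < vol (M κ n) := lt_of_lt_of_le one_pos hvol
  have key : ∀ c : Edge n → Fin (H + 1), Real.log (vol (M κ n)) ≤
      ∑ e, Real.log (len T.Q c e / wts H l (c e)) := by
    intro c
    obtain ⟨hlen, hle⟩ := hB κ n H l T hκ0 hκ1 h0 h1 hl c
    have hp : 0 < ∏ e, wts H l (c e) := Finset.prod_pos fun e _ => wts_pos hl (c e)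
    have h2 : vol (M κ n) ≤ ∏ e, (len T.Q c e / wts H l (c e)) := by
      rw [Finset.prod_div_distrib, le_div_iff₀ hp, mul_comm]
      exact hle
    calc Real.log (vol (M κ n)) ≤ Real.log (∏ e, (len T.Q c e / wts H l (c e))) :=
          Real.log_le_log hvp h2
      _ = ∑ e, Real.log (len T.Q c e / wts H l (c e)) := by
          rw [Real.log_prod]
          intro e _
          exact (div_pos (hlen e) (wts_pos hl (c e))).ne'
  have h3 := EE_const (ι := Edge n) (wts_sum (H := H) h0 h1) (Real.log (vol (M κ n)))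
  rw [← h3]
  exact EE_mono (fun h => (wts_pos hl h).le) key

end Pool.Agent.Lib.MP_193d8d_pr
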