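import Pool.Agent.Lib.MP_193d8d_pr.StA
import Pool.Agent.Lib.MP_193d8d_pr.Base

/-!
Module B1 (MainS): the main inequality for the dyadic / uniform levels.
-/

set_option autoImplicit false
open MeasureTheory Set

namespace Pool.Agent.Lib.MP_193d8d_pr

namespace MainSAux

/-! ### the function `lamf` -/

theorem lamf_add_le {δ x y : ℝ} (hδ : 0 < δ) (hy : 0 ≤ y) : lamf δ (x + y) ≤ lamf δ x + y := by
  unfold lamf
  by_cases h1 : x + y ≤ δ
  · have h2 : x ≤ δ := by linarith
    rw [if_pos h1, if_pos h2]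
  · rw [if_neg h1]
    rw [not_le] at h1
    by_cases h2 : x ≤ δ
    · rw [if_pos h2]
      have h3 : 0 < (x + y) / δ := div_pos (by linarith) hδ
      have h4 := Real.log_le_sub_one_of_pos h3
      have h5 : δ * Real.log ((x + y) / δ) ≤ δ * ((x + y) / δ - 1) :=
        mul_le_mul_of_nonneg_left h4 hδ.le
      have h6 : δ * ((x + y) / δ - 1) = x + y - δ := by field_simp
      linarith
    · rw [if_neg h2]
      rw [not_le] at h2
      have hx : 0 < x := hδ.trans h2
      have h3 : Real.log ((x + y) / δ) = Real.log (x / δ) + Real.log ((x + y) / x) := by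
        rw [← Real.log_mul (div_pos hx hδ).ne' (div_pos (by linarith) hx).ne']
        congr 1
        field_simp
      have h4 := Real.log_le_sub_one_of_pos (show 0 < (x + y) / x from div_pos (by linarith) hx)
      have h5 : (x + y) / x - 1 = y / x := by field_simp; ring
      have h6 : δ * Real.log ((x + y) / x) ≤ y := by
        calc δ * Real.log ((x + y) / x) ≤ δ * (y / x) := by
              rw [← h5]; exact mul_le_mul_of_nonneg_left h4 hδ.le
          _ ≤ x * (y / x) := by
              apply mul_le_mul_of_nonneg_right h2.le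
              exact div_nonneg hy hx.le
          _ = y := by field_simp
      rw [h3]
      nlinarith

theorem le_lamf {δ x : ℝ} (hδ : 0 < δ) (hx : 0 < x) : δ + δ * Real.log (x / δ) ≤ lamf δ x := by
  unfold lamf
  by_cases h : x ≤ δ
  · rw [if_pos h]
    have h4 := Real.log_le_sub_one_of_pos (div_pos hx hδ)
    have h5 : δ * Real.log (x / δ) ≤ δ * (x / δ - 1) := mul_le_mul_of_nonneg_left h4 hδ.le
    have h6 : δ * (x / δ - 1) = x - δ := by field_simp
    linarith
  · rw [if_neg h]

theorem sub_clamp_mono {K x y : ℝ} (hK : 0 ≤ K) (h : x ≤ y) : x - clamp K x ≤ y - clamp K y := by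
  unfold clamp
  rcases le_total x K with h1 | h1 <;> rcases le_total y K with h2 | h2 <;>
    rcases le_total (-K) x with h3 | h3 <;> rcases le_total (-K) y with h4 | h4 <;>
    simp only [min_eq_left, min_eq_right, max_eq_left, max_eq_right, h1, h2, h3, h4,
      neg_le_self hK] <;> linarith

theorem sub_clamp_le {K x : ℝ} (hK : 0 ≤ K) : x - clamp K x ≤ max 0 (x - K) := by
  unfold clamp
  rcases le_total x K with h1 | h1
  · refine le_trans ?_ (le_max_left _ _)
    rw [min_eq_left h1]
    have := le_max_right (-K) x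
    linarith
  · refine le_trans ?_ (le_max_right _ _)
    rw [min_eq_right h1, max_eq_right (by linarith)]

theorem Lam_clamp {δ K : ℝ} (hδ : 0 < δ) (hK : 0 ≤ K) (m : ℕ) (a : ℕ → ℝ)
    (ha : ∀ i, i < m → a (i + 1) ≤ a i) :
    Lam δ m a ≤ Lam δ m (fun i => clamp K (a i)) + max 0 (a 0 - K) := by
  have key : ∀ k, k ≤ m → (∑ i ∈ Finset.range k, lamf δ (a i - a (i + 1))) ≤
      (∑ i ∈ Finset.range k, lamf δ (clamp K (a i) - clamp K (a (i + 1)))) +
        ((a 0 - clamp K (a 0)) - (a k - clamp K (a k))) := by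
    intro k
    induction k with
    | zero => intro _; simp
    | succ k ih =>
      intro hk
      rw [Finset.sum_range_succ, Finset.sum_range_succ]
      have h1 := ih (by omega)
      have h2 := sub_clamp_mono hK (ha k (by omega))
      have h3 := lamf_add_le (δ := δ) (x := clamp K (a k) - clamp K (a (k + 1)))
        (y := (a k - clamp K (a k)) - (a (k + 1) - clamp K (a (k + 1)))) hδ (by linarith)
      have h4 : clamp K (a k) - clamp K (a (k + 1)) +
          ((a k - clamp K (a k)) - (a (k + 1) - clamp K (a (k + 1)))) = a k - a (k + 1) := by ring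
      rw [h4] at h3
      linarith
  have h1 := key m le_rfl
  have h2 := sub_clamp_le (x := a 0) hK
  unfold Lam
  linarith

/-! ### levels -/

section lev

variable {ε δ : ℝ} {J m : ℕ}

theorem lev_zero : lev ε δ J m 0 = 0 := by simp [lev]

theorem lev_low {j : ℕ} (hj : j ≤ J) : lev ε δ J m (J + 1 - j) = ε * δ * (1 / 2) ^ j := by
  have h1 : J + 1 - j ≠ 0 := by omega
  have h2 : J + 1 - j ≤ J + 1 := by omega
  have h3 : J + 1 - (J + 1 - j) = j := by omega
  rw [lev, if_neg h1, if_pos h2, h3]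

theorem lev_main {i : ℕ} (hi : i ≤ m) : lev ε δ J m (J + 1 + i) = ε * δ * (i + 1) := by
  rcases Nat.eq_zero_or_pos i with h | h
  · subst h
    have := lev_low (ε := ε) (δ := δ) (J := J) (m := m) (j := 0) (Nat.zero_le J)
    simpa using this
  · have h1 : J + 1 + i ≠ 0 := by omega
    have h2 : ¬ J + 1 + i ≤ J + 1 := by omega
    have h3 : J + 1 + i ≤ J + 1 + m := by omega
    rw [lev, if_neg h1, if_neg h2, if_pos h3]
    push_cast
    ring

theorem lev_top : lev ε δ J m (J + m + 1 + 1) = 1 := by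
  have h1 : J + m + 1 + 1 ≠ 0 := by omega
  have h2 : ¬ J + m + 1 + 1 ≤ J + 1 := by omega
  have h3 : ¬ J + m + 1 + 1 ≤ J + 1 + m := by omega
  rw [lev, if_neg h1, if_neg h2, if_neg h3]

theorem lev_one : lev ε δ J m 1 = ε * δ * (1 / 2) ^ J := by
  have := lev_low (ε := ε) (δ := δ) (J := J) (m := m) (j := J) le_rfl
  rwa [show J + 1 - J = 1 by omega] at this

theorem lev_last : lev ε δ J m (J + m + 1) = ε * δ * (m + 1) := by
  have := lev_main (ε := ε) (δ := δ) (J := J) (m := m) (i := m) le_rfl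
  rwa [show J + 1 + m = J + m + 1 by omega] at this

theorem lev_lt (hε : 0 < ε) (hδ : 0 < δ) (hm : (m + 1) * δ * ε < 1) :
    ∀ h, h ≤ J + m + 1 → lev ε δ J m h < lev ε δ J m (h + 1) := by
  intro h hh
  have hεδ : 0 < ε * δ := mul_pos hε hδ
  rcases Nat.eq_zero_or_pos h with h0 | h0
  · subst h0
    rw [lev_zero, zero_add, lev_one]
    positivity
  · by_cases h1 : h ≤ J
    · obtain ⟨j, hj, rfl⟩ : ∃ j, j + 1 ≤ J ∧ h = J + 1 - (j + 1) := ⟨J - h, by omega, by omega⟩
      rw [lev_low hj, show J + 1 - (j + 1) + 1 = J + 1 - j by omega, lev_low (by omega)]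
      apply mul_lt_mul_of_pos_left _ hεδ
      rw [pow_succ]
      have : (0 : ℝ) < (1 / 2) ^ j := by positivity
      linarith
    · by_cases h2 : h ≤ J + m
      · obtain ⟨i, hi, rfl⟩ : ∃ i, i + 1 ≤ m ∧ h = J + 1 + i := ⟨h - (J + 1), by omega, by omega⟩
        rw [lev_main (by omega), show J + 1 + i + 1 = J + 1 + (i + 1) by omega, lev_main hi]
        push_cast
        nlinarith
      · have h3 : h = J + m + 1 := by omega
        subst h3
        rw [lev_last, lev_top]
        nlinarith

end lev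

/-! ### expectations -/

theorem wts_sum (H : ℕ) (l : ℕ → ℝ) (h0 : l 0 = 0) (h1 : l (H + 1) = 1) :
    ∑ h, wts H l h = 1 := by
  have h := Fin.sum_univ_eq_sum_range (fun h => l (h + 1) - l h) (H + 1)
  rw [Finset.sum_range_sub, h0, h1, sub_zero] at h
  exact h

theorem AV_sum {n : ℕ} {α : Type*} (s : Finset α) (f : α → Edge n → ℝ) :
    AV (fun e => ∑ a ∈ s, f a e) = ∑ a ∈ s, AV (f a) := by
  unfold AV
  rw [Finset.sum_comm, Finset.sum_div]

section tree

variable {κ ε δ K : ℝ} {n J m : ℕ} (T : Tree (M κ n) (J + m + 1) (lev ε δ J m))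

theorem Q_mono (e : Edge n) (c : Edge n → Fin (J + m + 1 + 1)) {i j : ℕ} (hij : i ≤ j)
    (hj : j ≤ J + m + 1 + 1) : T.Q e c i ≤ T.Q e c j := by
  induction j with
  | zero =>
    have : i = 0 := by omega
    rw [this]
  | succ j ih =>
    rcases Nat.lt_or_ge i (j + 1) with h | h
    · exact (ih (by omega) (by omega)).trans (T.lt e c j (by omega)).le
    · have : i = j + 1 := by omega
      rw [this]

theorem Q_update (e : Edge n) (c : Edge n → Fin (J + m + 1 + 1)) (h : Fin (J + m + 1 + 1)) :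
    T.Q e (Function.update c e h) = T.Q e c := by
  apply T.pred
  intro e' he'
  rw [Function.update_of_ne he'.ne]

/-- the contribution of the cell `h` (not the last one) -/
noncomputable def G (e : Edge n) (h : ℕ) : ℝ :=
  (lev ε δ J m (h + 1) - lev ε δ J m h) * EE (wts (J + m + 1) (lev ε δ J m)) (fun c =>
    Real.log ((T.Q e c (h + 1) - T.Q e c h) / (lev ε δ J m (h + 1) - lev ε δ J m h)))

/-- the contribution of the last cell -/
noncomputable def Glast (e : Edge n) : ℝ :=
  EE (wts (J + m + 1) (lev ε δ J m)) (fun c => if c e = Fin.last (J + m + 1) then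
    Real.log (len T.Q c e / wts (J + m + 1) (lev ε δ J m) (c e)) else 0)

theorem decomp (hε : 0 < ε) (hδ : 0 < δ) (hm : (m + 1) * δ * ε < 1) (e : Edge n) :
    EE (wts (J + m + 1) (lev ε δ J m)) (fun c =>
      Real.log (len T.Q c e / wts (J + m + 1) (lev ε δ J m) (c e))) =
    (∑ h ∈ Finset.range (J + m + 1), G T e h) + Glast T e := by
  set p := wts (J + m + 1) (lev ε δ J m) with hp
  have hp1 : ∑ h, p h = 1 := wts_sum _ _ lev_zero lev_top
  have h1 : EE p (fun c => Real.log (len T.Q c e / p (c e))) =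
      EE p (fun c => ∑ h : Fin (J + m + 1 + 1),
        if c e = h then Real.log (len T.Q c e / p (c e)) else 0) := by
    apply EE_congr
    intro c
    rw [Finset.sum_ite_eq, if_pos (Finset.mem_univ _)]
  rw [h1, EE_sum, Fin.sum_univ_castSucc]
  congr 1
  rw [← Fin.sum_univ_eq_sum_range]
  apply Finset.sum_congr rfl
  intro h _
  have h2 : ∀ c : Edge n → Fin (J + m + 1 + 1),
      (if c e = h.castSucc then Real.log (len T.Q c e / p (c e)) else 0) =
      (fun h' => if h' = h.castSucc then (1 : ℝ) else 0) (c e) *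
        Real.log ((T.Q e c ((h : ℕ) + 1) - T.Q e c h) /
          (lev ε δ J m ((h : ℕ) + 1) - lev ε δ J m h)) := by
    intro c
    by_cases hc : c e = h.castSucc
    · rw [if_pos hc]
      simp only [if_pos hc, one_mul]
      have h3 : ((c e : Fin (J + m + 1 + 1)) : ℕ) = h := by rw [hc]; rfl
      have h4 : (h : ℕ) ≠ J + m + 1 := h.2.ne
      have h5 : len T.Q c e = T.Q e c ((h : ℕ) + 1) - T.Q e c h := by
        unfold len
        rw [h3, if_neg h4]
      have h6 : p (c e) = lev ε δ J m ((h : ℕ) + 1) - lev ε δ J m h := by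
        rw [hp]
        unfold wts
        rw [h3]
      rw [h5, h6]
    · rw [if_neg hc]
      simp only [if_neg hc, zero_mul]
  have h3 : ∑ h' : Fin (J + m + 1 + 1), p h' * (if h' = h.castSucc then (1 : ℝ) else 0) =
      lev ε δ J m ((h : ℕ) + 1) - lev ε δ J m h := by
    simp only [mul_ite, mul_one, mul_zero]
    rw [Finset.sum_ite_eq', if_pos (Finset.mem_univ _)]
    rfl
  have h4 := EE_indep (p := p) hp1 e (fun h' => if h' = h.castSucc then (1 : ℝ) else 0)
    (fun c => Real.log ((T.Q e c ((h : ℕ) + 1) - T.Q e c h) /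
          (lev ε δ J m ((h : ℕ) + 1) - lev ε δ J m h))) (fun c h' => by
      simp only [Q_update])
  rw [h3] at h4
  exact (EE_congr h2).trans h4

theorem split_range (F : ℕ → ℝ) :
    ∑ h ∈ Finset.range (J + m + 1), F h =
      F 0 + (∑ j ∈ Finset.range J, F (J - j)) + ∑ i ∈ Finset.range m, F (J + 1 + i) := by
  have h1 : J + m + 1 = (J + 1) + m := by omega
  rw [h1, Finset.sum_range_add, Finset.sum_range_succ', ← Finset.sum_range_reflect]
  have h2 : ∑ j ∈ Finset.range J, F (J - 1 - j + 1) = ∑ j ∈ Finset.range J, F (J - j) := by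
    apply Finset.sum_congr rfl
    intro j hj
    rw [Finset.mem_range] at hj
    congr 1
    omega
  rw [h2]
  ring

theorem G_zero (hε : 0 < ε) (hδ : 0 < δ) (hm : (m + 1) * δ * ε < 1) (e : Edge n) :
    G T e 0 ≤ ε * (δ * (1 / 2) ^ J * Real.log (2 / (ε * (δ * (1 / 2) ^ J)))) := by
  have hp0 : ∀ h, 0 ≤ wts (J + m + 1) (lev ε δ J m) h := fun h =>
    sub_nonneg.2 (lev_lt hε hδ hm h (by omega)).le
  have hp1 : ∑ h, wts (J + m + 1) (lev ε δ J m) h = 1 := wts_sum _ _ lev_zero lev_top
  unfold G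
  rw [zero_add, lev_zero, sub_zero, lev_one]
  have hpos : 0 < ε * δ * (1 / 2) ^ J := by positivity
  have h1 : EE (wts (J + m + 1) (lev ε δ J m)) (fun c =>
      Real.log ((T.Q e c 1 - T.Q e c 0) / (ε * δ * (1 / 2) ^ J))) ≤
      Real.log (2 / (ε * (δ * (1 / 2) ^ J))) := by
    rw [← EE_const (ι := Edge n) hp1 (Real.log (2 / (ε * (δ * (1 / 2) ^ J))))]
    apply EE_mono hp0
    intro c
    have h2 := T.lt e c 0 (Nat.zero_le _)
    have h3 := Q_mono T e c (i := 1) (j := J + m + 1 + 1) (by omega) le_rfl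
    rw [T.top] at h3
    rw [T.zero] at h2 ⊢
    rw [zero_add] at h2
    apply Real.log_le_log
    · exact div_pos (by linarith) hpos
    · rw [show ε * (δ * (1 / 2) ^ J) = ε * δ * (1 / 2) ^ J by ring]
      exact div_le_div_of_nonneg_right (by linarith) hpos.le
  calc ε * δ * (1 / 2) ^ J * EE (wts (J + m + 1) (lev ε δ J m)) (fun c =>
      Real.log ((T.Q e c 1 - T.Q e c 0) / (ε * δ * (1 / 2) ^ J)))
      ≤ ε * δ * (1 / 2) ^ J * Real.log (2 / (ε * (δ * (1 / 2) ^ J))) :=
        mul_le_mul_of_nonneg_left h1 hpos.le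
    _ = _ := by ring

theorem G_low (hε : 0 < ε) (e : Edge n) {j : ℕ} (hj : j < J) :
    G T e (J - j) = ε * (δ * (1 / 2) ^ (j + 1) * EE (wts (J + m + 1) (lev ε δ J m)) (fun c =>
      Real.log ((al T.Q ε J e c (j + 1) - al T.Q ε J e c j) / (δ * (1 / 2) ^ (j + 1))))) := by
  unfold G
  have h1 : lev ε δ J m (J - j + 1) = ε * δ * (1 / 2) ^ j := by
    rw [show J - j + 1 = J + 1 - j by omega]
    exact lev_low hj.le
  have h2 : lev ε δ J m (J - j) = ε * δ * (1 / 2) ^ (j + 1) := by
    rw [show J - j = J + 1 - (j + 1) by omega]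
    exact lev_low hj
  have h3 : lev ε δ J m (J - j + 1) - lev ε δ J m (J - j) = ε * (δ * (1 / 2) ^ (j + 1)) := by
    rw [h1, h2, pow_succ]
    ring
  rw [h3]
  have h4 : EE (wts (J + m + 1) (lev ε δ J m)) (fun c =>
      Real.log ((T.Q e c (J - j + 1) - T.Q e c (J - j)) / (ε * (δ * (1 / 2) ^ (j + 1))))) =
      EE (wts (J + m + 1) (lev ε δ J m)) (fun c =>
      Real.log ((al T.Q ε J e c (j + 1) - al T.Q ε J e c j) / (δ * (1 / 2) ^ (j + 1)))) := by
    apply EE_congr
    intro c
    congr 1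
    unfold al
    rw [show J + 1 - (j + 1) = J - j by omega, show J + 1 - j = J - j + 1 by omega]
    rw [← sub_div, div_div]
    congr 1
    ring
  rw [h4]
  ring

theorem G_main (hε : 0 < ε) (hδ : 0 < δ) (hm : (m + 1) * δ * ε < 1) (e : Edge n) {i : ℕ}
    (hi : i < m) :
    G T e (J + 1 + i) ≤ ε * (EE (wts (J + m + 1) (lev ε δ J m)) (fun c =>
      lamf δ (ps T.Q ε J e c i - ps T.Q ε J e c (i + 1))) - δ) := by
  have hp0 : ∀ h, 0 ≤ wts (J + m + 1) (lev ε δ J m) h := fun h =>
    sub_nonneg.2 (lev_lt hε hδ hm h (by omega)).le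
  have hp1 : ∑ h, wts (J + m + 1) (lev ε δ J m) h = 1 := wts_sum _ _ lev_zero lev_top
  unfold G
  have h1 : lev ε δ J m (J + 1 + i + 1) - lev ε δ J m (J + 1 + i) = ε * δ := by
    rw [show J + 1 + i + 1 = J + 1 + (i + 1) by omega, lev_main hi, lev_main hi.le]
    push_cast
    ring
  rw [h1]
  have h2 : EE (wts (J + m + 1) (lev ε δ J m)) (fun c => δ * Real.log
      ((T.Q e c (J + 1 + i + 1) - T.Q e c (J + 1 + i)) / (ε * δ))) ≤
      EE (wts (J + m + 1) (lev ε δ J m)) (fun c =>
        lamf δ (ps T.Q ε J e c i - ps T.Q ε J e c (i + 1)) - δ) := by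
    apply EE_mono hp0
    intro c
    have h3 := T.lt e c (J + 1 + i) (by omega)
    have h4 : (T.Q e c (J + 1 + i + 1) - T.Q e c (J + 1 + i)) / (ε * δ) =
        (ps T.Q ε J e c i - ps T.Q ε J e c (i + 1)) / δ := by
      unfold ps
      rw [← sub_div, div_div, show J + 1 + (i + 1) = J + 1 + i + 1 by omega]
      congr 1
      ring
    have h5 : 0 < ps T.Q ε J e c i - ps T.Q ε J e c (i + 1) := by
      unfold ps
      rw [← sub_div, show J + 1 + (i + 1) = J + 1 + i + 1 by omega]
      exact div_pos (by linarith) hε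
    have h6 := le_lamf hδ h5
    rw [h4]
    linarith
  rw [EE_mul_left, EE_sub, EE_const hp1] at h2
  calc ε * δ * EE (wts (J + m + 1) (lev ε δ J m)) (fun c =>
      Real.log ((T.Q e c (J + 1 + i + 1) - T.Q e c (J + 1 + i)) / (ε * δ)))
      = ε * (δ * EE (wts (J + m + 1) (lev ε δ J m)) (fun c =>
      Real.log ((T.Q e c (J + 1 + i + 1) - T.Q e c (J + 1 + i)) / (ε * δ)))) := by ring
    _ ≤ _ := mul_le_mul_of_nonneg_left h2 hε.le

theorem val_le (hK : 0 ≤ K) (c : Edge n → Fin (J + m + 1 + 1)) (e : Edge n) :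
    val K J (ps T.Q ε J) c e ≤ K := by
  unfold val
  split_ifs
  · linarith
  · exact clamp_le hK

theorem cherry_le (hK : 0 ≤ K) (c : Edge n → Fin (J + m + 1 + 1)) (e : Edge n) :
    cherry (val K J (ps T.Q ε J) c) e ≤ 2 * K := by
  unfold cherry
  apply sup0_le (by linarith)
  intro k
  split_ifs with h
  · linarith
  · push Not at h
    rw [ext_ne _ _ (Ne.symm h.1), ext_ne _ _ h.2]
    have h1 := val_le (ε := ε) T hK c (edge e.a k (Ne.symm h.1))
    have h2 := val_le (ε := ε) T hK c (edge k e.b h.2)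
    linarith

theorem clamp_add_le {w w' b : ℝ} (hK : 0 ≤ K) (hb : 0 ≤ b) (h : w + w' ≤ b) :
    clamp K w + clamp K w' ≤ b := by
  by_cases h1 : w < -K
  · have h2 : clamp K w = -K := by
      unfold clamp
      exact max_eq_left ((min_le_left _ _).trans h1.le)
    have h3 := clamp_le (x := w') hK
    linarith
  · by_cases h2 : w' < -K
    · have h3 : clamp K w' = -K := by
        unfold clamp
        exact max_eq_left ((min_le_left _ _).trans h2.le)
      have h4 := clamp_le (x := w) hK
      linarith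
    · rw [not_lt] at h1 h2
      have h3 : clamp K w ≤ w := by
        unfold clamp
        exact max_le h1 (min_le_left _ _)
      have h4 : clamp K w' ≤ w' := by
        unfold clamp
        exact max_le h2 (min_le_left _ _)
      linarith

theorem cherry_le_bt (hε : 0 < ε) (hK : 0 ≤ K) (c : Edge n → Fin (J + m + 1 + 1)) (e : Edge n) :
    ε * cherry (val K J (ps T.Q ε J) c) e ≤ bt T.Q c e := by
  rw [mul_comm, ← le_div_iff₀ hε]
  have hbt : 0 ≤ bt T.Q c e := sup0_nonneg _
  have hbt' : 0 ≤ bt T.Q c e / ε := div_nonneg hbt hε.le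
  unfold cherry
  apply sup0_le hbt'
  intro k
  split_ifs with h
  · exact hbt'
  · push Not at h
    have hk1 : e.a ≠ k := Ne.symm h.1
    rw [ext_ne _ _ hk1, ext_ne _ _ h.2]
    set f := edge e.a k hk1 with hf
    set g := edge k e.b h.2 with hg
    by_cases h1 : ((c f : Fin (J + m + 1 + 1)) : ℕ) = J + m + 1
    · have h2 : val K J (ps T.Q ε J) c f = -K := by
        unfold val
        rw [if_pos h1]
      have h3 := val_le (ε := ε) T hK c g
      linarith
    · by_cases h2 : ((c g : Fin (J + m + 1 + 1)) : ℕ) = J + m + 1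
      · have h4 : val K J (ps T.Q ε J) c g = -K := by
          unfold val
          rw [if_pos h2]
        have h3 := val_le (ε := ε) T hK c f
        linarith
      · have h3 : val K J (ps T.Q ε J) c f = clamp K (ps T.Q ε J f c (cls J (c f))) := by
          unfold val
          rw [if_neg h1]
        have h4 : val K J (ps T.Q ε J) c g = clamp K (ps T.Q ε J g c (cls J (c g))) := by
          unfold val
          rw [if_neg h2]
        rw [h3, h4]
        apply clamp_add_le hK hbt'
        -- unclamped positions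
        have hps : ∀ e' : Edge n, ((c e' : Fin (J + m + 1 + 1)) : ℕ) ≠ J + m + 1 →
            ps T.Q ε J e' c (cls J (c e')) ≤ (1 - T.Q e' c ((c e' : ℕ) + 1)) / ε := by
          intro e' he'
          unfold ps cls
          apply div_le_div_of_nonneg_right _ hε.le
          have h5 : T.Q e' c ((c e' : ℕ) + 1) ≤ T.Q e' c (J + 1 + ((c e' : ℕ) - J)) := by
            apply Q_mono T e' c
            · omega
            · have := (c e').2
              omega
          linarith
        have h5 := hps f h1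
        have h6 := hps g h2
        have h7 : 2 - T.Q f c ((c f : ℕ) + 1) - T.Q g c ((c g : ℕ) + 1) ≤ bt T.Q c e := by
          have h8 := le_sup0 (fun k : Fin n => if k = e.a ∨ k = e.b ∨
            ((ext (Fin.last (J + m + 1)) c e.a k : Fin (J + m + 1 + 1)) : ℕ) = J + m + 1
            ∨ ((ext (Fin.last (J + m + 1)) c k e.b : Fin (J + m + 1 + 1)) : ℕ) = J + m + 1 then 0
            else 2 - ext 0 (fun e' => T.Q e' c ((c e' : ℕ) + 1)) e.a k
              - ext 0 (fun e' => T.Q e' c ((c e' : ℕ) + 1)) k e.b) k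
          have h9 : ¬ (k = e.a ∨ k = e.b ∨
            ((ext (Fin.last (J + m + 1)) c e.a k : Fin (J + m + 1 + 1)) : ℕ) = J + m + 1
            ∨ ((ext (Fin.last (J + m + 1)) c k e.b : Fin (J + m + 1 + 1)) : ℕ) = J + m + 1) := by
            rw [ext_ne _ _ hk1, ext_ne _ _ h.2]
            push Not
            exact ⟨h.1, h.2, h1, h2⟩
          simp only [if_neg h9] at h8
          rw [ext_ne _ _ hk1, ext_ne _ _ h.2] at h8
          exact h8
        have h8 : (1 - T.Q f c ((c f : ℕ) + 1)) / ε + (1 - T.Q g c ((c g : ℕ) + 1)) / ε ≤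
            bt T.Q c e / ε := by
          rw [← add_div]
          apply div_le_div_of_nonneg_right _ hε.le
          linarith
        linarith

theorem ps_update (e : Edge n) (c : Edge n → Fin (J + m + 1 + 1)) (h : Fin (J + m + 1 + 1))
    (i : ℕ) : ps T.Q ε J e (Function.update c e h) i = ps T.Q ε J e c i := by
  unfold ps
  rw [Q_update]

theorem G_last (hbox : ∀ (c : Edge n → Fin (J + m + 1 + 1)) (e : Edge n), 0 < len T.Q c e)
    (hε : 0 < ε) (hδ : 0 < δ) (hK : 0 ≤ K) (hm : (m + 1) * δ * ε < 1) (e : Edge n) :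
    Glast T e ≤ ε * (EE (wts (J + m + 1) (lev ε δ J m)) (fun c => ps T.Q ε J e c m)
      - EE (wts (J + m + 1) (lev ε δ J m)) (fun c => cherry (val K J (ps T.Q ε J) c) e)
      + δ * (m + 1)
      + (m + 1) * δ * ε * (2 * K +
        EE (wts (J + m + 1) (lev ε δ J m)) (fun c => max 0 (-ps T.Q ε J e c m)))) := by
  set p := wts (J + m + 1) (lev ε δ J m) with hp
  have hp0 : ∀ h, 0 ≤ p h := fun h => sub_nonneg.2 (lev_lt hε hδ hm h (by omega)).le
  have hp1 : ∑ h, p h = 1 := wts_sum _ _ lev_zero lev_top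
  set q : ℝ := 1 - ε * δ * (m + 1) with hq
  have hq0 : 0 < q := by rw [hq]; nlinarith
  have hεδ : 0 ≤ ε * δ * (m + 1) := by positivity
  have hpq : p (Fin.last (J + m + 1)) = q := by
    rw [hp]
    unfold wts
    rw [Fin.val_last, lev_top, lev_last]
  -- indicators
  set u : Fin (J + m + 1 + 1) → ℝ := fun h => if h = Fin.last (J + m + 1) then 1 else 0 with hu
  set u' : Fin (J + m + 1 + 1) → ℝ := fun h => if h = Fin.last (J + m + 1) then 0 else 1 with hu'
  have hus : ∑ h, p h * u h = q := by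
    simp only [hu, mul_ite, mul_one, mul_zero]
    rw [Finset.sum_ite_eq', if_pos (Finset.mem_univ _), hpq]
  have hus' : ∑ h, p h * u' h = 1 - q := by
    have h1 : ∀ h, p h * u' h = p h - p h * u h := by
      intro h
      simp only [hu, hu']
      split_ifs <;> ring
    rw [Finset.sum_congr rfl fun h _ => h1 h, Finset.sum_sub_distrib, hus, hp1]
  have h1 : Glast T e ≤ EE p (fun c => (u (c e) * (ε * ps T.Q ε J e c m)
      - ε * cherry (val K J (ps T.Q ε J) c) e) + (u' (c e) * (2 * K * ε)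
      + u (c e) * (-Real.log q))) := by
    unfold Glast
    apply EE_mono hp0
    intro c
    have hch := cherry_le (ε := ε) T hK c e
    by_cases hc : c e = Fin.last (J + m + 1)
    · rw [if_pos hc]
      have hu1 : u (c e) = 1 := by simp only [hu, if_pos hc]
      have hu2 : u' (c e) = 0 := by simp only [hu', if_pos hc]
      rw [hu1, hu2, hc]
      have h2 := hbox c e
      have h3 : len T.Q c e = 1 + ε * ps T.Q ε J e c m - bt T.Q c e := by
        unfold len ps
        have h4 : ((c e : Fin (J + m + 1 + 1)) : ℕ) = J + m + 1 := by rw [hc]; rfl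
        rw [if_pos h4, show J + 1 + m = J + m + 1 by omega]
        field_simp
        ring
      have h4 : wts (J + m + 1) (lev ε δ J m) (Fin.last (J + m + 1)) = q := hpq
      rw [h4, Real.log_div h2.ne' hq0.ne']
      have h5 := Real.log_le_sub_one_of_pos h2
      have h6 := cherry_le_bt (ε := ε) T hε hK c e
      rw [h3] at h5 ⊢
      linarith
    · rw [if_neg hc]
      have hu1 : u (c e) = 0 := by simp only [hu, if_neg hc]
      have hu2 : u' (c e) = 1 := by simp only [hu', if_neg hc]
      rw [hu1, hu2]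
      nlinarith
  have e1 : EE p (fun c => u (c e) * (ε * ps T.Q ε J e c m)) =
      q * (ε * EE p (fun c => ps T.Q ε J e c m)) := by
    rw [← hus, ← EE_mul_left]
    exact EE_indep hp1 e u (fun c => ε * ps T.Q ε J e c m) (fun c h => by
      simp only [ps_update])
  have e2 : EE p (fun c => u' (c e) * (2 * K * ε)) = (1 - q) * (2 * K * ε) := by
    have := EE_indep (p := p) hp1 e u' (fun _ => 2 * K * ε) (fun c h => rfl)
    rw [hus', EE_const hp1] at this
    exact this
  have e3 : EE p (fun c => u (c e) * (-Real.log q)) = q * (-Real.log q) := by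
    have := EE_indep (p := p) hp1 e u (fun _ => -Real.log q) (fun c h => rfl)
    rw [hus, EE_const hp1] at this
    exact this
  rw [EE_add, EE_sub, EE_add, e1, e2, e3, EE_mul_left] at h1
  have h2 : q * (-Real.log q) ≤ 1 - q := by
    have h3 := Real.log_le_sub_one_of_pos (inv_pos.2 hq0)
    rw [Real.log_inv] at h3
    have h4 : q * (-Real.log q) ≤ q * (q⁻¹ - 1) := mul_le_mul_of_nonneg_left h3 hq0.le
    have h5 : q * (q⁻¹ - 1) = 1 - q := by field_simp
    linarith
  have h3 : -EE p (fun c => ps T.Q ε J e c m) ≤ EE p (fun c => max 0 (-ps T.Q ε J e c m)) := by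
    rw [← EE_neg]
    exact EE_mono hp0 fun c => le_max_right _ _
  have h4 : (1 - q) * -EE p (fun c => ps T.Q ε J e c m) ≤
      (1 - q) * EE p (fun c => max 0 (-ps T.Q ε J e c m)) := by
    apply mul_le_mul_of_nonneg_left h3
    rw [hq]
    linarith
  have h5 : 1 - q = ε * δ * (m + 1) := by rw [hq]; ring
  set A := EE p (fun c => ps T.Q ε J e c m)
  set B := EE p (fun c => cherry (val K J (ps T.Q ε J) c) e)
  set D := EE p (fun c => max 0 (-ps T.Q ε J e c m))
  have h6 : q * (ε * A) ≤ ε * A + ε * ((1 - q) * D) := by nlinarith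
  rw [h5] at h2 h6 h1
  nlinarith

theorem edge_bound (hbox : ∀ (c : Edge n → Fin (J + m + 1 + 1)) (e : Edge n), 0 < len T.Q c e)
    (hε : 0 < ε) (hδ : 0 < δ) (hK : 0 ≤ K) (hm : (m + 1) * δ * ε < 1) (e : Edge n) :
    EE (wts (J + m + 1) (lev ε δ J m)) (fun c =>
      Real.log (len T.Q c e / wts (J + m + 1) (lev ε δ J m) (c e))) ≤ ε *
    (EE (wts (J + m + 1) (lev ε δ J m))
      (fun c => Lam δ m (fun i => clamp K (ps T.Q ε J e c i)))
    - EE (wts (J + m + 1) (lev ε δ J m))
      (fun c => cherry (val K J (ps T.Q ε J) c) e)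
    + EE (wts (J + m + 1) (lev ε δ J m)) (fun c => max 0 (ps T.Q ε J e c 0 - K))
    + δ
    + (∑ j ∈ Finset.range J, δ * (1 / 2) ^ (j + 1) *
        EE (wts (J + m + 1) (lev ε δ J m)) (fun c =>
          Real.log ((al T.Q ε J e c (j + 1) - al T.Q ε J e c j) / (δ * (1 / 2) ^ (j + 1)))))
    + δ * (1 / 2) ^ J * Real.log (2 / (ε * (δ * (1 / 2) ^ J)))
    + (m + 1) * δ * ε * (2 * K +
        EE (wts (J + m + 1) (lev ε δ J m)) (fun c => max 0 (-ps T.Q ε J e c m)))) := by
  have hp0 : ∀ h, 0 ≤ wts (J + m + 1) (lev ε δ J m) h := fun h =>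
    sub_nonneg.2 (lev_lt hε hδ hm h (by omega)).le
  rw [decomp T hε hδ hm e, split_range (F := G T e)]
  have h0 := G_zero T hε hδ hm e
  have h1 : ∑ j ∈ Finset.range J, G T e (J - j) =
      ε * ∑ j ∈ Finset.range J, δ * (1 / 2) ^ (j + 1) *
        EE (wts (J + m + 1) (lev ε δ J m)) (fun c =>
          Real.log ((al T.Q ε J e c (j + 1) - al T.Q ε J e c j) / (δ * (1 / 2) ^ (j + 1)))) := by
    rw [Finset.mul_sum]
    apply Finset.sum_congr rfl
    intro j hj
    rw [G_low T hε e (Finset.mem_range.1 hj)]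
  have h2 : ∑ i ∈ Finset.range m, G T e (J + 1 + i) ≤
      ε * ((∑ i ∈ Finset.range m, EE (wts (J + m + 1) (lev ε δ J m)) (fun c =>
        lamf δ (ps T.Q ε J e c i - ps T.Q ε J e c (i + 1)))) - m * δ) := by
    have h3 : ∑ i ∈ Finset.range m, G T e (J + 1 + i) ≤
        ∑ i ∈ Finset.range m, ε * (EE (wts (J + m + 1) (lev ε δ J m)) (fun c =>
        lamf δ (ps T.Q ε J e c i - ps T.Q ε J e c (i + 1))) - δ) :=
      Finset.sum_le_sum fun i hi => G_main T hε hδ hm e (Finset.mem_range.1 hi)
    rw [← Finset.mul_sum, Finset.sum_sub_distrib, Finset.sum_const, Finset.card_range,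
      nsmul_eq_mul] at h3
    exact h3
  have h3 := G_last (K := K) T hbox hε hδ hK hm e
  have h4 : (∑ i ∈ Finset.range m, EE (wts (J + m + 1) (lev ε δ J m)) (fun c =>
        lamf δ (ps T.Q ε J e c i - ps T.Q ε J e c (i + 1)))) +
      EE (wts (J + m + 1) (lev ε δ J m)) (fun c => ps T.Q ε J e c m) ≤
      EE (wts (J + m + 1) (lev ε δ J m))
        (fun c => Lam δ m (fun i => clamp K (ps T.Q ε J e c i))) +
      EE (wts (J + m + 1) (lev ε δ J m)) (fun c => max 0 (ps T.Q ε J e c 0 - K)) := by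
    rw [← EE_sum, ← EE_add, ← EE_add]
    apply EE_mono hp0
    intro c
    have h5 := Lam_clamp (K := K) hδ hK m (fun i => ps T.Q ε J e c i) (fun i hi => by
      unfold ps
      apply div_le_div_of_nonneg_right _ hε.le
      have := (T.lt e c (J + 1 + i) (by omega)).le
      rw [show J + 1 + i + 1 = J + 1 + (i + 1) by omega] at this
      linarith)
    unfold Lam at h5 ⊢
    exact h5
  have h5 := mul_le_mul_of_nonneg_left h4 hε.le
  rw [h1]
  nlinarith

end tree

end MainSAux

open MainSAux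

theorem stMainS (h2 : StMainG) (h3 : StBox) : StMainS := by
  intro κ ε δ K n J m T hκ hκ1 hn hε hδ hK hm
  have hlt := lev_lt (J := J) hε hδ hm
  have hg := h2 κ n (J + m + 1) (lev ε δ J m) T hκ hκ1 lev_zero lev_top hlt
  have hbox : ∀ (c : Edge n → Fin (J + m + 1 + 1)) (e : Edge n), 0 < len T.Q c e := fun c =>
    (h3 κ n (J + m + 1) (lev ε δ J m) T hκ hκ1 lev_zero lev_top hlt c).1
  have hN := card_edge_pos (n := n) (by omega)
  rw [EE_sum] at hg
  have hg2 := hg.trans (Finset.sum_le_sum fun e _ =>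
    edge_bound (K := K) T hbox hε hδ hK.le hm e)
  rw [← Finset.mul_sum] at hg2
  have hg3 : Real.log (vol (M κ n)) / ((Fintype.card (Edge n) : ℝ) * ε) ≤ AV (fun e =>
    (EE (wts (J + m + 1) (lev ε δ J m))
      (fun c => Lam δ m (fun i => clamp K (ps T.Q ε J e c i)))
    - EE (wts (J + m + 1) (lev ε δ J m))
      (fun c => cherry (val K J (ps T.Q ε J) c) e)
    + EE (wts (J + m + 1) (lev ε δ J m)) (fun c => max 0 (ps T.Q ε J e c 0 - K))
    + δ
    + (∑ j ∈ Finset.range J, δ * (1 / 2) ^ (j + 1) *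
        EE (wts (J + m + 1) (lev ε δ J m)) (fun c =>
          Real.log ((al T.Q ε J e c (j + 1) - al T.Q ε J e c j) / (δ * (1 / 2) ^ (j + 1)))))
    + δ * (1 / 2) ^ J * Real.log (2 / (ε * (δ * (1 / 2) ^ J)))
    + (m + 1) * δ * ε * (2 * K +
        EE (wts (J + m + 1) (lev ε δ J m)) (fun c => max 0 (-ps T.Q ε J e c m))))) := by
    unfold AV
    rw [div_le_div_iff₀ (mul_pos hN hε) hN]
    calc Real.log (vol (M κ n)) * (Fintype.card (Edge n) : ℝ) ≤ _ * (Fintype.card (Edge n) : ℝ) :=
          mul_le_mul_of_nonneg_right hg2 hN.le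
      _ = _ := by ring
  refine hg3.trans (le_of_eq ?_)
  rw [AV_add, AV_add, AV_add, AV_add, AV_add, AV_sub, AV_const (by omega), AV_const (by omega),
    AV_sum, AV_mul_left, AV_add, AV_const (by omega)]
  congr 3
  apply Finset.sum_congr rfl
  intro j _
  rw [AV_mul_left]

end Pool.Agent.Lib.MP_193d8d_pr
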