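import Pool.Agent.Lib.MP_193d8d_pr.StA
import Pool.Agent.Lib.MP_193d8d_pr.Base

set_option autoImplicit false
open MeasureTheory Set

namespace Pool.Agent.Lib.MP_193d8d_pr

namespace MidCAux

theorem chord_le {f : ℝ → ℝ} {a b : ℝ} (hc : ContinuousOn f (Ioo a b))
    (hm : ∀ x ∈ Ioo a b, ∀ y ∈ Ioo a b, f x + f y ≤ 2 * f ((x + y) / 2)) {x y : ℝ}
    (hx : x ∈ Ioo a b) (hy : y ∈ Ioo a b) (hxy : x < y) :
    ∀ t ∈ Icc x y, f x + (f y - f x) / (y - x) * (t - x) ≤ f t := by
  set k : ℝ := (f y - f x) / (y - x) with hk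
  have hk' : k * (y - x) = f y - f x := by
    rw [hk, div_mul_cancel₀]
    exact (sub_pos.2 hxy).ne'
  set g : ℝ → ℝ := fun t => f t - (f x + k * (t - x)) with hg
  have hsub : Icc x y ⊆ Ioo a b := fun t ht => ⟨lt_of_lt_of_le hx.1 ht.1, lt_of_le_of_lt ht.2 hy.2⟩
  have hgc : ContinuousOn g (Icc x y) := by
    apply (hc.mono hsub).sub
    fun_prop
  have hgx : g x = 0 := by simp [hg]
  have hgy : g y = 0 := by
    have : g y = f y - (f x + k * (y - x)) := rfl
    rw [this, hk']; ring
  have hgm : ∀ s ∈ Icc x y, ∀ t ∈ Icc x y, g s + g t ≤ 2 * g ((s + t) / 2) := by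
    intro s hs t ht
    have h := hm s (hsub hs) t (hsub ht)
    have h2 : g s + g t = f s + f t - 2 * (f x + k * ((s + t) / 2 - x)) := by
      simp only [hg]; ring
    have h3 : 2 * g ((s + t) / 2) = 2 * f ((s + t) / 2) - 2 * (f x + k * ((s + t) / 2 - x)) := by
      simp only [hg]; ring
    rw [h2, h3]; linarith
  have hne : (Icc x y).Nonempty := ⟨x, left_mem_Icc.2 hxy.le⟩
  obtain ⟨c₀, hc₀, hmin⟩ := isCompact_Icc.exists_isMinOn hne hgc
  have hmin' : ∀ t ∈ Icc x y, g c₀ ≤ g t := fun t ht => hmin ht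
  by_cases hneg : 0 ≤ g c₀
  · intro t ht
    have h := hneg.trans (hmin' t ht)
    have h2 : g t = f t - (f x + k * (t - x)) := rfl
    rw [h2] at h
    linarith
  · exfalso
    rw [not_le] at hneg
    have hZc : IsClosed (Icc x y ∩ g ⁻¹' {g c₀}) :=
      hgc.preimage_isClosed_of_isClosed isClosed_Icc isClosed_singleton
    have hZ : IsCompact (Icc x y ∩ g ⁻¹' {g c₀}) :=
      isCompact_Icc.of_isClosed_subset hZc inter_subset_left
    obtain ⟨c, hc⟩ := hZ.exists_isLeast ⟨c₀, hc₀, rfl⟩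
    have hcI : c ∈ Icc x y := hc.1.1
    have hgc : g c = g c₀ := hc.1.2
    have hcx : x < c := by
      refine lt_of_le_of_ne hcI.1 fun h => ?_
      rw [← h, hgx] at hgc
      exact hneg.ne hgc.symm
    have hcy : c < y := by
      refine lt_of_le_of_ne hcI.2 fun h => ?_
      rw [h, hgy] at hgc
      exact hneg.ne hgc.symm
    set h : ℝ := min (c - x) (y - c) with hh
    have h0 : 0 < h := lt_min (sub_pos.2 hcx) (sub_pos.2 hcy)
    have h1 : h ≤ c - x := min_le_left _ _
    have h2 : h ≤ y - c := min_le_right _ _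
    have hl : c - h ∈ Icc x y := ⟨by linarith, by linarith⟩
    have hr : c + h ∈ Icc x y := ⟨by linarith, by linarith⟩
    have h3 := hgm _ hl _ hr
    have h4 : (c - h + (c + h)) / 2 = c := by ring
    rw [h4, hgc] at h3
    have h5 := hmin' _ hr
    have h6 := hmin' _ hl
    have h7 : g (c - h) = g c₀ := by linarith
    have h8 := hc.2 ⟨hl, h7⟩
    linarith

end MidCAux

theorem stMidC : StMidC := by
  intro f a b hc hm
  refine LinearOrder.concaveOn_of_lt (convex_Ioo a b) ?_
  intro x hx y hy hxy s t hs ht hst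
  have h := MidCAux.chord_le hc hm hx hy hxy (s • x + t • y) ?_
  · have h2 : s • x + t • y - x = t * (y - x) := by
      have : s = 1 - t := by linarith
      rw [this, smul_eq_mul, smul_eq_mul]; ring
    rw [h2] at h
    have h3 : (f y - f x) / (y - x) * (t * (y - x)) = t * (f y - f x) := by
      have : y - x ≠ 0 := (sub_pos.2 hxy).ne'
      field_simp
    rw [h3] at h
    have h4 : s • f x + t • f y = f x + t * (f y - f x) := by
      have : s = 1 - t := by linarith
      rw [this, smul_eq_mul, smul_eq_mul]; ring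
    rw [h4]
    exact h
  · exact (convex_Icc x y) (left_mem_Icc.2 hxy.le) (right_mem_Icc.2 hxy.le) hs.le ht.le hst

end Pool.Agent.Lib.MP_193d8d_pr
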