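import Pool.Agent.Lib.MP_193d8d_pr.StA
import Pool.Agent.Lib.MP_193d8d_pr.Base

set_option autoImplicit false
open MeasureTheory Set

namespace Pool.Agent.Lib.MP_193d8d_pr

namespace MomAux

/-- the law of one coordinate -/
theorem map_eq (hF : StFubA) {E : Type} [Fintype E] [DecidableEq E] (S : Set (E → ℝ))
    (hS : MeasurableSet S) (e : E) :
    Measure.map (fun x : E → ℝ => x e) (volume.restrict S) =
      volume.withDensity (fun t => volume (slice S e t)) := by
  ext A hA
  rw [Measure.map_apply (measurable_pi_apply e) hA, withDensity_apply _ hA,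
    Measure.restrict_apply (hA.preimage (measurable_pi_apply e)), ← (hF E S e A hS hA).2,
    inter_comm]
  rfl

/-- integrals of functions of one coordinate -/
theorem lint_eq (hF : StFubA) {E : Type} [Fintype E] [DecidableEq E] (S : Set (E → ℝ))
    (hS : MeasurableSet S) (e : E) (φ : ℝ → ENNReal) (hφ : Measurable φ) :
    ∫⁻ x in S, φ (x e) = ∫⁻ t, volume (slice S e t) * φ t := by
  have h1 := lintegral_map (μ := volume.restrict S) hφ (measurable_pi_apply e)
  rw [← h1, map_eq hF S hS e, lintegral_withDensity_eq_lintegral_mul _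
    ((hF E S e Set.univ hS MeasurableSet.univ).1) hφ]
  rfl

theorem slice_empty (n : ℕ) (e : Edge n) (t : ℝ) (ht : t ≤ 0) : slice (M 0 n) e t = ∅ := by
  ext x
  simp only [slice, mem_ofPred_eq, mem_empty_iff_false, iff_false, not_and]
  intro _ h
  have h1 := (h.1 e).1
  rw [Function.update_self] at h1
  linarith

theorem exp_bound (p : ℕ) (s b : ℝ) (hs : 0 ≤ s) (hb : 0 < b) :
    s ^ p ≤ p.factorial * b ^ p * Real.exp (s / b) := by
  have h1 : (s / b) ^ p / p.factorial ≤ Real.exp (s / b) :=
    Real.pow_div_factorial_le_exp (s / b) (by positivity) p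
  have h2 : (0 : ℝ) < p.factorial := by exact_mod_cast p.factorial_pos
  rw [div_le_iff₀ h2, div_pow, div_le_iff₀ (pow_pos hb p)] at h1
  linarith [h1]

theorem int_exp (b : ℝ) (hb : 0 < b) :
    ∫ t in (0 : ℝ)..1, Real.exp (-((1 - t) / b)) = b * (1 - Real.exp (-(1 / b))) := by
  have h1 : ∀ t ∈ uIcc (0 : ℝ) 1,
      HasDerivAt (fun t => b * Real.exp (-((1 - t) / b))) (Real.exp (-((1 - t) / b))) t := by
    intro t _
    have h2 : HasDerivAt (fun t : ℝ => -((1 - t) / b)) (1 / b) t := by
      have h3 : HasDerivAt (fun t : ℝ => -((1 - t) / b)) (-((0 - 1) / b)) t :=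
        (((hasDerivAt_const t (1 : ℝ)).sub (hasDerivAt_id t)).div_const b).neg
      rwa [zero_sub, neg_div, neg_neg] at h3
    have h4 := (h2.exp).const_mul b
    rw [mul_comm b, mul_assoc, one_div_mul_cancel hb.ne', mul_one] at h4
    exact h4
  rw [intervalIntegral.integral_eq_sub_of_hasDerivAt h1]
  · rw [sub_self, zero_div, neg_zero, Real.exp_zero, sub_zero]
    ring
  · apply Continuous.intervalIntegrable
    fun_prop

end MomAux

open MomAux in
/-- A12 -/
theorem stMom (hV : StVol) (hF : StFubA) (hD : StDens) (hL : StDensLe) (hC : StDensLC)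
    (hO : StOneD) : StMom := by
  refine ⟨10 ^ 9, by norm_num, fun n e hn => ?_⟩
  obtain ⟨hSm, -, hSf, hV1⟩ := hV 0 n le_rfl one_pos
  obtain ⟨hdc, hd0, hdp, -, hdi⟩ := hD 0 n e le_rfl one_pos hn
  have hVpos : 0 < vol (M 0 n) := lt_of_lt_of_le one_pos hV1
  obtain ⟨hi1, hw1⟩ := hdi 0 1 le_rfl zero_le_one one_le_two
  obtain ⟨hi2, hw2⟩ := hdi 0 2 le_rfl zero_le_two le_rfl
  have hw : wt 0 n e = ∫ t in (0 : ℝ)..1, dens 0 n e t := by
    rw [← hw1, wt]
    congr 2
    ext x
    constructor
    · rintro ⟨h1, h2⟩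
      exact ⟨h1, (h1.1 e).1, h2⟩
    · rintro ⟨h1, -, h2⟩
      exact ⟨h1, h2⟩
  have htot : ∫ t in (0 : ℝ)..2, dens 0 n e t = 1 := by
    rw [← hw2]
    have h1 : {x | x ∈ M 0 n ∧ 0 < x e ∧ x e ≤ 2} = M 0 n := by
      ext x
      constructor
      · exact fun h => h.1
      · exact fun h => ⟨h, (h.1 e).1, (h.1 e).2⟩
    rw [h1, div_self hVpos.ne']
  have hwpos : 0 < wt 0 n e := by
    rw [hw]
    refine intervalIntegral.intervalIntegral_pos_of_pos_on hi1 (fun t ht => ?_) one_pos
    exact hdp t ⟨ht.1, ht.2.trans one_lt_two⟩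
  have hwle : wt 0 n e ≤ 1 := by
    rw [wt, div_le_one hVpos]
    exact ENNReal.toReal_mono hSf (measure_mono fun x hx => hx.1)
  obtain ⟨w, hwdef⟩ : ∃ w, w = wt 0 n e := ⟨_, rfl⟩
  rw [← hwdef] at hwpos hwle ⊢
  -- the general bound
  have hle1 : ∀ p : ℕ, mean (M 0 n) (fun x => max 0 (1 - x e) ^ p) ≤ 1 := by
    intro p
    rw [mean, div_le_one hVpos]
    have h1 : ∀ x ∈ M 0 n, max 0 (1 - x e) ^ p ≤ 1 := fun x hx => by
      refine pow_le_one₀ (le_max_left _ _) (max_le zero_le_one ?_)
      linarith [(hx.1 e).1]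
    have h2 : ∫ x in M 0 n, max 0 (1 - x e) ^ p ≤ ∫ x in M 0 n, (1 : ℝ) := by
      refine integral_mono_of_nonneg (Filter.Eventually.of_forall fun x => ?_) ?_ ?_
      · exact pow_nonneg (le_max_left _ _) p
      · exact integrableOn_const hSf
      · exact (ae_restrict_iff' hSm).2 (Filter.Eventually.of_forall h1)
    refine h2.trans_eq ?_
    rw [setIntegral_const, smul_eq_mul, mul_one]
    rfl
  have hsm : ∀ p : ℕ, p ≠ 0 → w ≤ 1 / 8 → mean (M 0 n) (fun x => max 0 (1 - x e) ^ p) ≤
      2 * p.factorial * (24 * w) ^ (p + 1) := by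
    intro p hp hw8
    have hone := (hO (dens 0 n e) hdc (fun t ht => ⟨hdp t ht, hL n e hn t ht⟩) (hC n e hn) htot
      (by rw [← hw, ← hwdef]; exact hw8)).1
    rw [← hw, ← hwdef] at hone
    rw [mean, div_le_iff₀ hVpos]
    have hb : 0 < 24 * w := by linarith
    have hmeas : Measurable (fun t : ℝ => ENNReal.ofReal (max 0 (1 - t) ^ p)) := by
      fun_prop
    rw [integral_eq_lintegral_of_nonneg_ae (Filter.Eventually.of_forall fun x =>
      pow_nonneg (le_max_left _ _) p) (by
        apply Measurable.aestronglyMeasurable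
        fun_prop)]
    have hl := lint_eq hF (M 0 n) hSm e _ hmeas
    rw [hl]
    have hcst : 0 ≤ vol (M 0 n) * (2 * p.factorial * (24 * w) ^ p) := by positivity
    have hpt : ∀ t : ℝ, volume (slice (M 0 n) e t) * ENNReal.ofReal (max 0 (1 - t) ^ p) ≤
        (Ioo (0 : ℝ) 1).indicator (fun t => ENNReal.ofReal
          (vol (M 0 n) * (2 * p.factorial * (24 * w) ^ p) *
            Real.exp (-((1 - t) / (24 * w))))) t := by
      intro t
      by_cases ht : t ∈ Ioo (0 : ℝ) 1
      · rw [indicator_of_mem ht]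
        have hd := hdp t ⟨ht.1, ht.2.trans one_lt_two⟩
        have hvs : 0 < (volume (slice (M 0 n) e t)).toReal := by
          rw [dens, vol, lt_div_iff₀ hVpos, zero_mul] at hd
          exact hd
        have hfin : volume (slice (M 0 n) e t) ≠ ⊤ := fun h => by
          rw [h, ENNReal.toReal_top] at hvs
          exact lt_irrefl _ hvs
        have hde : (volume (slice (M 0 n) e t)).toReal = dens 0 n e t * vol (M 0 n) := by
          rw [dens, vol, div_mul_cancel₀ _ hVpos.ne']
        have hden : dens 0 n e t ≤ 2 * Real.exp (-((1 - t) / (12 * w))) := by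
          have h1 := hone (1 - t) ⟨by linarith [ht.2], by linarith [ht.1]⟩
          rwa [sub_sub_cancel] at h1
        rw [← ENNReal.ofReal_toReal hfin, ← ENNReal.ofReal_mul hvs.le, hde]
        refine ENNReal.ofReal_le_ofReal ?_
        have hs0 : 0 ≤ 1 - t := by linarith [ht.2]
        rw [max_eq_right hs0]
        have h2 := exp_bound p (1 - t) (24 * w) hs0 hb
        have h3 : Real.exp (-((1 - t) / (12 * w))) * Real.exp ((1 - t) / (24 * w)) =
            Real.exp (-((1 - t) / (24 * w))) := by
          rw [← Real.exp_add]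
          congr 1
          field_simp
          ring
        calc dens 0 n e t * vol (M 0 n) * (1 - t) ^ p ≤
            (2 * Real.exp (-((1 - t) / (12 * w)))) * vol (M 0 n) *
              (p.factorial * (24 * w) ^ p * Real.exp ((1 - t) / (24 * w))) := by
              gcongr
          _ = vol (M 0 n) * (2 * p.factorial * (24 * w) ^ p) *
              (Real.exp (-((1 - t) / (12 * w))) * Real.exp ((1 - t) / (24 * w))) := by ring
          _ = _ := by rw [h3]
      · rw [indicator_of_notMem ht]
        rcases le_or_gt t 0 with h | h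
        · rw [slice_empty n e t h, measure_empty, zero_mul]
        · have h1 : 1 ≤ t := by
            by_contra h2
            exact ht ⟨h, not_le.1 h2⟩
          rw [max_eq_left (by linarith), zero_pow hp, ENNReal.ofReal_zero, mul_zero]
    have hint : ∫⁻ t, (Ioo (0 : ℝ) 1).indicator (fun t => ENNReal.ofReal
          (vol (M 0 n) * (2 * p.factorial * (24 * w) ^ p) *
            Real.exp (-((1 - t) / (24 * w))))) t ≤
        ENNReal.ofReal (2 * p.factorial * (24 * w) ^ (p + 1) * vol (M 0 n)) := by
      rw [lintegral_indicator measurableSet_Ioo]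
      have hcont : Continuous (fun t : ℝ => vol (M 0 n) * (2 * p.factorial * (24 * w) ^ p) *
            Real.exp (-((1 - t) / (24 * w)))) := by fun_prop
      rw [← ofReal_integral_eq_lintegral_ofReal
        ((hcont.integrableOn_Icc (a := 0) (b := 1)).mono_set Ioo_subset_Icc_self)
        (Filter.Eventually.of_forall fun t => mul_nonneg hcst (Real.exp_pos _).le)]
      refine ENNReal.ofReal_le_ofReal ?_
      rw [← integral_Ioc_eq_integral_Ioo, ← intervalIntegral.integral_of_le zero_le_one,
        intervalIntegral.integral_const_mul, int_exp _ hb]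
      have h5 : (24 * w) * (1 - Real.exp (-(1 / (24 * w)))) ≤ 24 * w := by
        nlinarith [Real.exp_pos (-(1 / (24 * w)))]
      calc vol (M 0 n) * (2 * p.factorial * (24 * w) ^ p) *
            ((24 * w) * (1 - Real.exp (-(1 / (24 * w))))) ≤
          vol (M 0 n) * (2 * p.factorial * (24 * w) ^ p) * (24 * w) :=
            mul_le_mul_of_nonneg_left h5 hcst
        _ = _ := by ring
    have hfinal := (lintegral_mono hpt).trans hint
    exact ENNReal.toReal_le_of_le_ofReal (by positivity) hfinal
  refine ⟨hwpos, hwle, ?_, ?_⟩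
  · rcases le_or_gt w (1 / 8) with h | h
    · refine (hsm 2 two_ne_zero h).trans ?_
      have h1 : (2 : ℝ) * ((2 : ℕ).factorial : ℝ) * (24 * w) ^ (2 + 1) = 55296 * w ^ 3 := by
        rw [show (2 : ℕ).factorial = 2 from rfl]
        push_cast
        ring
      rw [h1]
      have := pow_pos hwpos 3
      nlinarith
    · refine (hle1 2).trans ?_
      have h1 : (1 / 8 : ℝ) ^ 3 ≤ w ^ 3 := pow_le_pow_left₀ (by norm_num) h.le 3
      nlinarith
  · rcases le_or_gt w (1 / 8) with h | h
    · refine (hsm 4 (by norm_num) h).trans ?_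
      have h1 : (2 : ℝ) * ((4 : ℕ).factorial : ℝ) * (24 * w) ^ (4 + 1) = 382205952 * w ^ 5 := by
        rw [show (4 : ℕ).factorial = 24 from rfl]
        push_cast
        ring
      rw [h1]
      have := pow_pos hwpos 5
      nlinarith
    · refine (hle1 4).trans ?_
      have h1 : (1 / 8 : ℝ) ^ 5 ≤ w ^ 5 := pow_le_pow_left₀ (by norm_num) h.le 5
      nlinarith

end Pool.Agent.Lib.MP_193d8d_pr
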