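import Pool.Agent.Lib.MP_193d8d_pr.StA
import Pool.Agent.Lib.MP_193d8d_pr.Base

set_option autoImplicit false
open MeasureTheory Set

namespace Pool.Agent.Lib.MP_193d8d_pr

namespace MomTAux

variable {E : Type} [Fintype E] [LinearOrder E]

omit [LinearOrder E] in
theorem vol_lt_top {S : Set (E → ℝ)} (hS : ∀ x ∈ S, ∀ e, 0 < x e ∧ x e ≤ 2) :
    volume S < ⊤ := by
  have h1 : S ⊆ Icc (fun _ => (0 : ℝ)) (fun _ => (2 : ℝ)) := by
    intro x hx
    exact ⟨fun e => (hS x hx e).1.le, fun e => (hS x hx e).2⟩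
  exact lt_of_le_of_lt (measure_mono h1) isCompact_Icc.measure_lt_top

theorem lev_nonneg {H : ℕ} {l : ℕ → ℝ} (h0 : l 0 = 0) (hl : ∀ h, h ≤ H → l h < l (h + 1)) :
    ∀ h, h ≤ H + 1 → 0 ≤ l h := by
  intro h
  induction h with
  | zero => intro _; rw [h0]
  | succ h ih =>
    intro hh
    exact (ih (by omega)).trans (hl h (by omega)).le

omit [LinearOrder E] in
theorem integrableOn_phi {S : Set (E → ℝ)} (hSm : MeasurableSet S)
    (hS : ∀ x ∈ S, ∀ e, 0 < x e ∧ x e ≤ 2) (e : E) {φ : ℝ → ℝ} (hφ : Monotone φ)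
    (hφ0 : ∀ t, 0 ≤ φ t) : IntegrableOn (fun x : E → ℝ => φ (1 - x e)) S := by
  have hm : Measurable (fun x : E → ℝ => φ (1 - x e)) :=
    hφ.measurable.comp (measurable_const.sub (measurable_pi_apply e))
  refine Measure.integrableOn_of_bounded (M := φ 1) (vol_lt_top hS).ne hm.aestronglyMeasurable ?_
  rw [ae_restrict_iff' hSm]
  refine Filter.Eventually.of_forall fun x hx => ?_
  rw [Real.norm_of_nonneg (hφ0 _)]
  exact hφ (by linarith [(hS x hx e).1])

end MomTAux

open MomTAux in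
theorem stMomT (hR : StVolR) (hA : StAvg) : StMomT := by
  intro E _ _ S H l T hSm hS hS0 h0 h1 hl e h φ hh hφ hφ0
  have hint := integrableOn_phi hSm hS e hφ hφ0
  have havg := hA E S H l T hSm hS hS0 h0 h1 hl e (fun x => φ (1 - x e)) hint
  obtain ⟨hRs, -⟩ := hR E S H l T hSm hS hS0 h0 h1 hl
  have hl0 := lev_nonneg h0 hl h hh
  rw [← havg, ← EE_mul_left]
  refine EE_mono (fun k => ?_) fun c => ?_
  · exact (sub_pos.2 (hl k (Nat.lt_succ_iff.1 k.2))).le
  obtain ⟨hRm, -, hRpos⟩ := hRs e c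
  set R := Rset S H T.Q e c with hRdef
  have hRS : R ⊆ S := fun x hx => hx.1
  have hRtop : volume R < ⊤ := lt_of_le_of_lt (measure_mono hRS) (vol_lt_top hS)
  set q := T.Q e c h with hq
  have hcut := T.cut e c h hh
  rw [← hRdef, ← hq] at hcut
  have hcut' : vol (R ∩ {x | x e ≤ q}) = l h * vol R := by
    unfold vol
    rw [hcut, ENNReal.toReal_mul, ENNReal.toReal_ofReal hl0]
  have hmset : MeasurableSet {x : E → ℝ | x e ≤ q} :=
    measurableSet_le (measurable_pi_apply e) measurable_const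
  show l h * φ (1 - q) ≤ mean R (fun x => φ (1 - x e))
  unfold mean
  rw [le_div_iff₀ hRpos]
  have hintR : IntegrableOn (fun x : E → ℝ => φ (1 - x e)) R := hint.mono_set hRS
  have hsub : R ∩ {x | x e ≤ q} ⊆ R := inter_subset_left
  calc l h * φ (1 - q) * vol R = φ (1 - q) * vol (R ∩ {x | x e ≤ q}) := by rw [hcut']; ring
    _ = ∫ x in R ∩ {x | x e ≤ q}, φ (1 - q) := by
        rw [setIntegral_const, smul_eq_mul, mul_comm]
        rfl
    _ ≤ ∫ x in R ∩ {x | x e ≤ q}, φ (1 - x e) := by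
        refine setIntegral_mono_on ?_ (hintR.mono_set hsub) (hRm.inter hmset) ?_
        · exact integrableOn_const (lt_of_le_of_lt (measure_mono hsub) hRtop).ne
        · intro x hx
          have : x e ≤ q := hx.2
          exact hφ (by linarith)
    _ ≤ ∫ x in R, φ (1 - x e) := by
        refine setIntegral_mono_set hintR ?_ (Filter.Eventually.of_forall hsub)
        exact Filter.Eventually.of_forall fun x => hφ0 _

end Pool.Agent.Lib.MP_193d8d_pr
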