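import Pool.Agent.Lib.MP_193d8d_pr.StA
import Pool.Agent.Lib.MP_193d8d_pr.Base

set_option autoImplicit false
open MeasureTheory Set

namespace Pool.Agent.Lib.MP_193d8d_pr

namespace NegTAux

variable {n : ℕ}

theorem ext_update (x : Edge n → ℝ) (e : Edge n) (t : ℝ) {i j : Fin n}
    (h : ¬ ((i = e.a ∧ j = e.b) ∨ (i = e.b ∧ j = e.a))) :
    ext 0 (Function.update x e t) i j = ext 0 x i j := by
  rcases lt_trichotomy i j with hij | hij | hij
  · rw [ext_of_lt _ _ hij, ext_of_lt _ _ hij, Function.update_of_ne]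
    rintro rfl
    exact h (Or.inl ⟨rfl, rfl⟩)
  · rw [hij, ext_self, ext_self]
  · rw [ext_of_gt _ _ hij, ext_of_gt _ _ hij, Function.update_of_ne]
    rintro rfl
    exact h (Or.inr ⟨rfl, rfl⟩)

theorem ext_update_ab (x : Edge n → ℝ) (e : Edge n) (t : ℝ) :
    ext 0 (Function.update x e t) e.a e.b = t := by
  rw [ext_edge, Function.update_self]

theorem ext_update_ba (x : Edge n → ℝ) (e : Edge n) (t : ℝ) :
    ext 0 (Function.update x e t) e.b e.a = t := by
  rw [ext_symm, ext_update_ab]

/-- the lower end of the fibre given by the triangle inequalities -/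
noncomputable def low (e : Edge n) (x : Edge n → ℝ) : ℝ :=
  sup0 (fun k : Fin n => if k = e.a ∨ k = e.b then 0 else |ext 0 x e.a k - ext 0 x k e.b|)

theorem low_nonneg (e : Edge n) (x : Edge n → ℝ) : 0 ≤ low e x := sup0_nonneg _

theorem abs_le_low (e : Edge n) (x : Edge n → ℝ) {k : Fin n} (ha : k ≠ e.a) (hb : k ≠ e.b) :
    |ext 0 x e.a k - ext 0 x k e.b| ≤ low e x := by
  have h := le_sup0 (fun k : Fin n =>
    if k = e.a ∨ k = e.b then 0 else |ext 0 x e.a k - ext 0 x k e.b|) k
  have h1 : ¬ (k = e.a ∨ k = e.b) := fun h1 => h1.elim ha hb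
  simp only [if_neg h1] at h
  exact h

theorem low_update (e : Edge n) (x : Edge n → ℝ) (t : ℝ) :
    low e (Function.update x e t) = low e x := by
  unfold low
  congr 1
  funext k
  by_cases h1 : k = e.a ∨ k = e.b
  · rw [if_pos h1, if_pos h1]
  · rw [if_neg h1, if_neg h1]
    rw [not_or] at h1
    rw [ext_update, ext_update]
    · rintro (⟨h2, -⟩ | ⟨h2, -⟩)
      · exact h1.1 h2
      · exact h1.2 h2
    · rintro (⟨-, h2⟩ | ⟨-, h2⟩)
      · exact h1.2 h2
      · exact h1.1 h2

theorem measurable_ext (i j : Fin n) : Measurable fun x : Edge n → ℝ => ext 0 x i j := by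
  rcases lt_trichotomy i j with hij | hij | hij
  · simp only [ext_of_lt _ _ hij]
    exact measurable_pi_apply _
  · subst hij
    simp only [ext_self]
    exact measurable_const
  · simp only [ext_of_gt _ _ hij]
    exact measurable_pi_apply _

theorem measurable_low (e : Edge n) : Measurable (low e) := by
  refine measurable_of_Iic fun b => ?_
  have h1 : low e ⁻¹' Iic b = {_x : Edge n → ℝ | (0 : ℝ) ≤ b} ∩
      ⋂ k : Fin n, {x | (if k = e.a ∨ k = e.b then 0 else
        |ext 0 x e.a k - ext 0 x k e.b|) ≤ b} := by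
    ext x
    simp only [mem_preimage, mem_Iic, mem_inter_iff, mem_iInter, mem_ofPred_eq]
    exact sup0_le_iff
  rw [h1]
  refine MeasurableSet.inter (MeasurableSet.const _) (MeasurableSet.iInter fun k => ?_)
  refine measurableSet_le ?_ measurable_const
  by_cases h2 : k = e.a ∨ k = e.b
  · simp only [if_pos h2]
    exact measurable_const
  · simp only [if_neg h2]
    exact ((measurable_ext _ _).sub (measurable_ext _ _)).abs

/-- the fibre is closed downwards up to its lower end -/
theorem mem_fib {κ : ℝ} (hκ : 0 ≤ κ) {e : Edge n} {x : Edge n → ℝ} {y y0 : ℝ}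
    (h0 : y0 ∈ fib (M κ n) e x) (h1 : max κ (low e x) < y) (h2 : y ≤ y0) :
    y ∈ fib (M κ n) e x := by
  have h0' : Function.update x e y0 ∈ M κ n := h0
  obtain ⟨c1, c2⟩ := h0'
  have hκy : κ < y := (le_max_left _ _).trans_lt h1
  have hly : low e x < y := (le_max_right _ _).trans_lt h1
  have hab : e.a ≠ e.b := e.lt.ne
  refine ⟨fun e' => ?_, fun i j k => ?_⟩
  · by_cases he : e' = e
    · subst he
      have h3 := c1 e'
      rw [Function.update_self] at h3 ⊢
      exact ⟨hκy, h2.trans h3.2⟩
    · have h3 := c1 e'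
      rw [Function.update_of_ne he] at h3 ⊢
      exact h3
  · -- abbreviations
    have key : ∀ k : Fin n, k ≠ e.a → k ≠ e.b →
        |ext 0 x e.a k - ext 0 x k e.b| < y := fun k ha hb => (abs_le_low e x ha hb).trans_lt hly
    have hc := c2 i j k
    by_cases hij : (i = e.a ∧ j = e.b) ∨ (i = e.b ∧ j = e.a)
    · -- the big side
      have e1 : ext 0 (Function.update x e y) i j = y := by
        rcases hij with ⟨rfl, rfl⟩ | ⟨rfl, rfl⟩
        · exact ext_update_ab _ _ _
        · exact ext_update_ba _ _ _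
      have e2 : ext 0 (Function.update x e y0) i j = y0 := by
        rcases hij with ⟨rfl, rfl⟩ | ⟨rfl, rfl⟩
        · exact ext_update_ab _ _ _
        · exact ext_update_ba _ _ _
      by_cases hki : k = i
      · subst hki
        rw [ext_self]
        linarith
      by_cases hkj : k = j
      · subst hkj
        rw [ext_self]
        linarith
      have e3 : ¬ ((i = e.a ∧ k = e.b) ∨ (i = e.b ∧ k = e.a)) := by
        rintro (⟨h3, h4⟩ | ⟨h3, h4⟩)
        · rcases hij with ⟨h5, h6⟩ | ⟨h5, h6⟩
          · exact hkj (h4.trans h6.symm)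
          · exact hab (h3.symm.trans h5)
        · rcases hij with ⟨h5, h6⟩ | ⟨h5, h6⟩
          · exact hab (h5.symm.trans h3)
          · exact hkj (h4.trans h6.symm)
      have e4 : ¬ ((k = e.a ∧ j = e.b) ∨ (k = e.b ∧ j = e.a)) := by
        rintro (⟨h3, h4⟩ | ⟨h3, h4⟩)
        · rcases hij with ⟨h5, h6⟩ | ⟨h5, h6⟩
          · exact hki (h3.trans h5.symm)
          · exact hab (h6.symm.trans h4)
        · rcases hij with ⟨h5, h6⟩ | ⟨h5, h6⟩
          · exact hab (h4.symm.trans h6)
          · exact hki (h3.trans h5.symm)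
      rw [e1, ext_update _ _ _ e3, ext_update _ _ _ e4]
      rw [e2, ext_update _ _ _ e3, ext_update _ _ _ e4] at hc
      linarith
    · rw [ext_update _ _ _ hij]
      rw [ext_update _ _ _ hij] at hc
      by_cases hik : (i = e.a ∧ k = e.b) ∨ (i = e.b ∧ k = e.a)
      · have e1 : ext 0 (Function.update x e y) i k = y := by
          rcases hik with ⟨rfl, rfl⟩ | ⟨rfl, rfl⟩
          · exact ext_update_ab _ _ _
          · exact ext_update_ba _ _ _
        by_cases hkj : (k = e.a ∧ j = e.b) ∨ (k = e.b ∧ j = e.a)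
        · have e2 : ext 0 (Function.update x e y) k j = y := by
            rcases hkj with ⟨rfl, rfl⟩ | ⟨rfl, rfl⟩
            · exact ext_update_ab _ _ _
            · exact ext_update_ba _ _ _
          have hji : i = j := by
            rcases hik with ⟨h3, h4⟩ | ⟨h3, h4⟩
            · rcases hkj with ⟨h5, h6⟩ | ⟨h5, h6⟩
              · exact absurd (h5.symm.trans h4) hab
              · exact h3.trans h6.symm
            · rcases hkj with ⟨h5, h6⟩ | ⟨h5, h6⟩
              · exact h3.trans h6.symm
              · exact absurd (h4.symm.trans h5) hab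
          rw [e1, e2, hji, ext_self]
          linarith
        · rw [e1, ext_update _ _ _ hkj]
          have hja : j ≠ e.a := by
            rintro rfl
            rcases hik with ⟨h3, h4⟩ | ⟨h3, h4⟩
            · exact hkj (Or.inr ⟨h4, rfl⟩)
            · exact hij (Or.inr ⟨h3, rfl⟩)
          have hjb : j ≠ e.b := by
            rintro rfl
            rcases hik with ⟨h3, h4⟩ | ⟨h3, h4⟩
            · exact hij (Or.inl ⟨h3, rfl⟩)
            · exact hkj (Or.inl ⟨h4, rfl⟩)
          have h3 := abs_lt.1 (key j hja hjb)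
          rcases hik with ⟨rfl, rfl⟩ | ⟨rfl, rfl⟩
          · rw [ext_symm 0 x e.b j]
            linarith [h3.1, h3.2]
          · rw [ext_symm 0 x e.b j]
            linarith [h3.1, h3.2]
      · rw [ext_update _ _ _ hik]
        rw [ext_update _ _ _ hik] at hc
        by_cases hkj : (k = e.a ∧ j = e.b) ∨ (k = e.b ∧ j = e.a)
        · have e2 : ext 0 (Function.update x e y) k j = y := by
            rcases hkj with ⟨rfl, rfl⟩ | ⟨rfl, rfl⟩
            · exact ext_update_ab _ _ _
            · exact ext_update_ba _ _ _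
          rw [e2]
          have hia : i ≠ e.a := by
            rintro rfl
            rcases hkj with ⟨h3, h4⟩ | ⟨h3, h4⟩
            · exact hij (Or.inl ⟨rfl, h4⟩)
            · exact hik (Or.inl ⟨rfl, h3⟩)
          have hib : i ≠ e.b := by
            rintro rfl
            rcases hkj with ⟨h3, h4⟩ | ⟨h3, h4⟩
            · exact hik (Or.inr ⟨rfl, h3⟩)
            · exact hij (Or.inr ⟨rfl, h4⟩)
          have h3 := abs_lt.1 (key i hia hib)
          rcases hkj with ⟨rfl, rfl⟩ | ⟨rfl, rfl⟩
          · rw [ext_symm 0 x i e.a]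
            linarith [h3.1, h3.2]
          · rw [ext_symm 0 x i e.a]
            linarith [h3.1, h3.2]
        · rw [ext_update _ _ _ hkj]
          rw [ext_update _ _ _ hkj] at hc
          exact hc

/-- the lower end of the fibre is a lower bound -/
theorem le_of_mem_fib {κ : ℝ} {e : Edge n} {x : Edge n → ℝ} {y : ℝ}
    (h : y ∈ fib (M κ n) e x) : max κ (low e x) ≤ y := by
  have h' : Function.update x e y ∈ M κ n := h
  obtain ⟨c1, c2⟩ := h'
  have h1 := c1 e
  rw [Function.update_self] at h1
  refine max_le h1.1.le (sup0_le ?_ fun k => ?_)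
  · have h2 := c2 e.a e.a e.b
    rw [ext_self, ext_update_ab, ext_update_ba] at h2
    linarith
  · by_cases hk : k = e.a ∨ k = e.b
    · rw [if_pos hk]
      have h2 := c2 e.a e.a e.b
      rw [ext_self, ext_update_ab, ext_update_ba] at h2
      linarith
    · rw [if_neg hk]
      rw [not_or] at hk
      obtain ⟨hka, hkb⟩ := hk
      have e1 : ext 0 (Function.update x e y) e.a k = ext 0 x e.a k := by
        refine ext_update _ _ _ ?_
        rintro (⟨-, h2⟩ | ⟨-, h2⟩)
        · exact hkb h2
        · exact hka h2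
      have e2 : ext 0 (Function.update x e y) k e.b = ext 0 x k e.b := by
        refine ext_update _ _ _ ?_
        rintro (⟨h2, -⟩ | ⟨h2, -⟩)
        · exact hka h2
        · exact hkb h2
      have h2 := c2 e.a k e.b
      have h3 := c2 k e.b e.a
      rw [ext_update_ab, e1, ext_symm 0 _ e.b k, e2] at h2
      rw [e2, ext_update_ab, ext_symm 0 _ k e.a, e1] at h3
      rw [abs_le]
      constructor <;> linarith

theorem sInf_fib {κ : ℝ} (hκ : 0 ≤ κ) {e : Edge n} {x : Edge n → ℝ} (hx : x ∈ M κ n) :
    sInf (fib (M κ n) e x) = max κ (low e x) := by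
  have hxe : x e ∈ fib (M κ n) e x := by
    show Function.update x e (x e) ∈ M κ n
    rw [Function.update_eq_self]
    exact hx
  refine csInf_eq_of_forall_ge_of_forall_gt_exists_lt ⟨_, hxe⟩ (fun y hy => le_of_mem_fib hy) ?_
  intro w hw
  rcases (le_of_mem_fib hxe).eq_or_lt with h1 | h1
  · exact ⟨x e, hxe, h1 ▸ hw⟩
  · refine ⟨(max κ (low e x) + min (x e) w) / 2, mem_fib hκ hxe ?_ ?_, ?_⟩
    · have := lt_min h1 hw
      linarith
    · have := min_le_left (x e) w
      linarith
    · have := min_le_right (x e) w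
      linarith

/-- the excess of the lower end of the fibre over `1` -/
noncomputable def ex (e : Edge n) (x : Edge n → ℝ) : ℝ := max 0 (low e x - 1)

theorem measurable_ex (e : Edge n) : Measurable (ex e) :=
  measurable_const.max ((measurable_low e).sub_const 1)

theorem ex_nonneg (e : Edge n) (x : Edge n → ℝ) : 0 ≤ ex e x := le_max_left _ _

theorem ex_eq {κ : ℝ} (hκ : 0 ≤ κ) (hκ1 : κ < 1) {e : Edge n} {x : Edge n → ℝ}
    (hx : x ∈ M κ n) : max 0 (sInf (fib (M κ n) e x) - 1) = ex e x := by
  rw [sInf_fib hκ hx, ex]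
  rcases le_total κ (low e x) with h | h
  · rw [max_eq_right h]
  · rw [max_eq_left h, max_eq_left (by linarith), max_eq_left (by linarith)]

theorem ex_le {κ : ℝ} (hκ : 0 ≤ κ) {e : Edge n} {x : Edge n → ℝ} (hx : x ∈ M κ n) :
    ex e x ≤ 2 := by
  have hxe : x e ∈ fib (M κ n) e x := by
    show Function.update x e (x e) ∈ M κ n
    rw [Function.update_eq_self]
    exact hx
  have h1 := le_of_mem_fib hxe
  have h2 := (hx.1 e).2
  have h3 := le_max_right κ (low e x)
  exact max_le (by norm_num) (by linarith)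

/-- the part of the fibre below `1 + s` -/
theorem fib_le {κ s : ℝ} (hκ : 0 ≤ κ) (hκ1 : κ < 1) (hs1 : s ≤ 1) (e : Edge n)
    (x : Edge n → ℝ) :
    ENNReal.ofReal ((s - ex e x) / 2) * volume (fib (M κ n) e x) ≤
      volume (fib (M κ n) e x ∩ Iic (1 + s)) := by
  have hex := ex_nonneg e x
  by_cases hA : fib (M κ n) e x ⊆ Iic (1 + s)
  · rw [inter_eq_left.2 hA]
    calc ENNReal.ofReal ((s - ex e x) / 2) * volume (fib (M κ n) e x)
        ≤ 1 * volume (fib (M κ n) e x) := by
          refine mul_le_mul_left ?_ _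
          rw [← ENNReal.ofReal_one]
          exact ENNReal.ofReal_le_ofReal (by linarith)
      _ = _ := one_mul _
  · obtain ⟨y0, hy0, hy1⟩ := not_subset.1 hA
    rw [mem_Iic, not_le] at hy1
    have h1 : Ioc (max κ (low e x)) (1 + s) ⊆ fib (M κ n) e x ∩ Iic (1 + s) :=
      fun y hy => ⟨mem_fib hκ hy0 hy.1 (hy.2.trans hy1.le), hy.2⟩
    have h2 : fib (M κ n) e x ⊆ Ioc 0 2 := by
      intro y hy
      have hy' : Function.update x e y ∈ M κ n := hy
      have h3 := hy'.1 e
      rw [Function.update_self] at h3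
      exact ⟨hκ.trans_lt h3.1, h3.2⟩
    have h3 : max κ (low e x) - 1 ≤ ex e x := by
      unfold ex
      rcases le_total κ (low e x) with h | h
      · rw [max_eq_right h]
        exact le_max_right _ _
      · rw [max_eq_left h]
        exact le_max_of_le_left (by linarith)
    calc ENNReal.ofReal ((s - ex e x) / 2) * volume (fib (M κ n) e x)
        ≤ ENNReal.ofReal ((s - ex e x) / 2) * volume (Ioc (0 : ℝ) 2) :=
          mul_le_mul_right (measure_mono h2) _
      _ = ENNReal.ofReal (s - ex e x) := by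
          rw [Real.volume_Ioc, ← ENNReal.ofReal_mul' (by norm_num)]
          congr 1
          ring
      _ ≤ ENNReal.ofReal (1 + s - max κ (low e x)) :=
          ENNReal.ofReal_le_ofReal (by linarith)
      _ = volume (Ioc (max κ (low e x)) (1 + s)) := Real.volume_Ioc.symm
      _ ≤ _ := measure_mono h1

end NegTAux

open NegTAux in
theorem stNegT (h1 : StVol) (h2 : StVolR) (h3 : StAvg) (h4 : StFubB) : StNegT := by
  intro κ n H l T hκ hκ1 hn l0 lH hl e h hh
  obtain ⟨v1, v2, v3, v4⟩ := h1 κ n hκ hκ1
  have hS : ∀ x ∈ M κ n, ∀ e', 0 < x e' ∧ x e' ≤ 2 :=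
    fun x hx e' => ⟨hκ.trans_lt (hx.1 e').1, (hx.1 e').2⟩
  have hS0 : volume (M κ n) ≠ 0 := by
    intro h0
    unfold vol at v4
    rw [h0, ENNReal.toReal_zero] at v4
    linarith
  obtain ⟨r1, -⟩ := h2 (Edge n) (M κ n) H l T v1 hS hS0 l0 lH hl
  -- the levels
  have hlm : ∀ i, i ≤ H + 1 → 0 ≤ l i := by
    intro i
    induction i with
    | zero => intro _; rw [l0]
    | succ i ih =>
      intro hi
      exact (ih (by omega)).trans (hl i (by omega)).le
  have hp : ∀ i, 0 ≤ wts H l i := fun i => sub_nonneg.2 (hl i (by have := i.2; omega)).le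
  have hp1 : ∑ i, wts H l i = 1 := by
    unfold wts
    rw [Fin.sum_univ_eq_sum_range (fun i => l (i + 1) - l i) (H + 1), Finset.sum_range_sub, lH, l0,
      sub_zero]
  have hQ2 : ∀ c, T.Q e c h ≤ 2 := by
    intro c
    have h5 : ∀ j, ∀ i, i + j = H + 1 → T.Q e c i ≤ 2 := by
      intro j
      induction j with
      | zero =>
        intro i hi
        have : i = H + 1 := by omega
        rw [this, T.top]
      | succ j ih =>
        intro i hi
        exact (T.lt e c i (by omega)).le.trans (ih (i + 1) (by omega))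
    exact h5 (H + 1 - h) h (by omega)
  have hint : IntegrableOn (ex e) (M κ n) := by
    refine Measure.integrableOn_of_bounded (M := 2) v3 (measurable_ex e).aestronglyMeasurable ?_
    rw [ae_restrict_iff' v1]
    refine Filter.Eventually.of_forall fun x hx => ?_
    rw [Real.norm_of_nonneg (ex_nonneg e x)]
    exact ex_le hκ hx
  have hmean : mean (M κ n) (fun x => max 0 (sInf (fib (M κ n) e x) - 1)) =
      mean (M κ n) (ex e) := by
    unfold mean
    congr 1
    exact setIntegral_congr_fun v1 fun x hx => ex_eq hκ hκ1 hx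
  -- the estimate for one cell
  have key : ∀ c, max 0 (T.Q e c h - 1) ≤ 2 * l h + mean (Rset (M κ n) H T.Q e c) (ex e) := by
    intro c
    obtain ⟨m1, -, m3⟩ := r1 e c
    have hRM : Rset (M κ n) H T.Q e c ⊆ M κ n := fun x hx => hx.1
    have hfin : volume (Rset (M κ n) H T.Q e c) ≠ ⊤ :=
      ne_top_of_le_ne_top v3 (measure_mono hRM)
    have hz0 : 0 ≤ ∫ x in Rset (M κ n) H T.Q e c, ex e x :=
      integral_nonneg fun x => ex_nonneg e x
    have hmn : 0 ≤ mean (Rset (M κ n) H T.Q e c) (ex e) := div_nonneg hz0 m3.le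
    refine max_le (by have := hlm h hh; linarith) ?_
    obtain ⟨s, hs⟩ : ∃ s, s = T.Q e c h - 1 := ⟨_, rfl⟩
    have hQs : T.Q e c h = 1 + s := by rw [hs]; ring
    have hs1 : s ≤ 1 := by
      have := hQ2 c
      linarith
    rw [← hs]
    -- measurable data
    have hgm : Measurable fun x : Edge n → ℝ => ENNReal.ofReal ((s - ex e x) / 2) :=
      ((measurable_const.sub (measurable_ex e)).div_const 2).ennreal_ofReal
    have hgi : ∀ (x : Edge n → ℝ) (t : ℝ),
        ENNReal.ofReal ((s - ex e (Function.update x e t)) / 2) =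
          ENNReal.ofReal ((s - ex e x) / 2) := by
      intro x t
      unfold ex
      rw [low_update]
    obtain ⟨-, -, f3⟩ := h4 (Edge n) (Rset (M κ n) H T.Q e c) e _ m1 hgm hgi
    have hR' : MeasurableSet (Rset (M κ n) H T.Q e c ∩ {x | x e ≤ T.Q e c h}) :=
      m1.inter (measurableSet_le (measurable_pi_apply e) measurable_const)
    obtain ⟨-, g2, g3⟩ := h4 (Edge n) (Rset (M κ n) H T.Q e c ∩ {x | x e ≤ T.Q e c h}) e
      (fun _ => 1) hR' measurable_const (fun _ _ => rfl)
    -- pointwise comparison of the fibres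
    have hpt : ∀ x, ENNReal.ofReal ((s - ex e x) / 2) *
        volume (fib (Rset (M κ n) H T.Q e c) e x) ≤
        volume (fib (Rset (M κ n) H T.Q e c ∩ {x | x e ≤ T.Q e c h}) e x) := by
      intro x
      by_cases hc : ∀ e', e' < e → T.Q e' c (c e') < x e' ∧ x e' ≤ T.Q e' c ((c e' : ℕ) + 1)
      · have hc' : ∀ y : ℝ, ∀ e', e' < e → T.Q e' c (c e') < Function.update x e y e' ∧
            Function.update x e y e' ≤ T.Q e' c ((c e' : ℕ) + 1) := by
          intro y e' he'
          rw [Function.update_of_ne he'.ne]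
          exact hc e' he'
        have e1 : fib (Rset (M κ n) H T.Q e c) e x = fib (M κ n) e x := by
          ext y
          exact ⟨fun hy => hy.1, fun hy => ⟨hy, hc' y⟩⟩
        have e2 : fib (Rset (M κ n) H T.Q e c ∩ {x | x e ≤ T.Q e c h}) e x =
            fib (M κ n) e x ∩ Iic (1 + s) := by
          ext y
          constructor
          · rintro ⟨⟨hy1, -⟩, hy2⟩
            refine ⟨hy1, ?_⟩
            have hy3 : Function.update x e y e ≤ T.Q e c h := hy2
            rw [Function.update_self, hQs] at hy3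
            exact hy3
          · rintro ⟨hy1, hy2⟩
            refine ⟨⟨hy1, hc' y⟩, ?_⟩
            show Function.update x e y e ≤ T.Q e c h
            rw [Function.update_self, hQs]
            exact hy2
        rw [e1, e2]
        exact fib_le hκ hκ1 hs1 e x
      · have e1 : fib (Rset (M κ n) H T.Q e c) e x = ∅ := by
          ext y
          simp only [mem_empty_iff_false, iff_false]
          intro hy
          apply hc
          intro e' he'
          have hy1 := (show Function.update x e y ∈ Rset (M κ n) H T.Q e c from hy).2 e' he'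
          rwa [Function.update_of_ne he'.ne] at hy1
        rw [e1, measure_empty, mul_zero]
        exact zero_le
    have hC : MeasurableSet {x : Edge n → ℝ | x e ∈ Ioo (0 : ℝ) 1} :=
      measurableSet_Ioo.preimage (measurable_pi_apply e)
    have hle : ∫⁻ x in Rset (M κ n) H T.Q e c, ENNReal.ofReal ((s - ex e x) / 2) ≤
        ENNReal.ofReal (l h) * volume (Rset (M κ n) H T.Q e c) := by
      rw [← T.cut e c h hh, f3]
      have e3 : volume (Rset (M κ n) H T.Q e c ∩ {x | x e ≤ T.Q e c h}) =
          ∫⁻ x in cyl (Rset (M κ n) H T.Q e c ∩ {x | x e ≤ T.Q e c h}) e,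
            volume (fib (Rset (M κ n) H T.Q e c ∩ {x | x e ≤ T.Q e c h}) e x) := by
        have e4 : ∫⁻ _ in Rset (M κ n) H T.Q e c ∩ {x | x e ≤ T.Q e c h}, (1 : ENNReal) =
          volume (Rset (M κ n) H T.Q e c ∩ {x | x e ≤ T.Q e c h}) := setLIntegral_one _
        rw [← e4, g3]
        simp only [one_mul]
      rw [e3]
      calc ∫⁻ x in cyl (Rset (M κ n) H T.Q e c) e, ENNReal.ofReal ((s - ex e x) / 2) *
            volume (fib (Rset (M κ n) H T.Q e c) e x)
          ≤ ∫⁻ x in {x : Edge n → ℝ | x e ∈ Ioo (0 : ℝ) 1}, ENNReal.ofReal ((s - ex e x) / 2) *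
            volume (fib (Rset (M κ n) H T.Q e c) e x) :=
            lintegral_mono_set fun x hx => hx.1
        _ ≤ ∫⁻ x in {x : Edge n → ℝ | x e ∈ Ioo (0 : ℝ) 1},
            volume (fib (Rset (M κ n) H T.Q e c ∩ {x | x e ≤ T.Q e c h}) e x) :=
            lintegral_mono fun x => hpt x
        _ = ∫⁻ x in cyl (Rset (M κ n) H T.Q e c ∩ {x | x e ≤ T.Q e c h}) e,
            volume (fib (Rset (M κ n) H T.Q e c ∩ {x | x e ≤ T.Q e c h}) e x) := by
            rw [← lintegral_indicator hC, ← lintegral_indicator g2]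
            congr 1
            funext x
            by_cases hx1 : x e ∈ Ioo (0 : ℝ) 1
            · by_cases hx2 : volume (fib (Rset (M κ n) H T.Q e c ∩
                  {x | x e ≤ T.Q e c h}) e x) = 0
              · rw [indicator_of_mem (show x ∈ {x : Edge n → ℝ | x e ∈ Ioo (0 : ℝ) 1} from hx1),
                  hx2, indicator_of_notMem]
                exact fun hx3 => hx3.2 hx2
              · rw [indicator_of_mem (show x ∈ {x : Edge n → ℝ | x e ∈ Ioo (0 : ℝ) 1} from hx1),
                  indicator_of_mem]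
                exact ⟨hx1, hx2⟩
            · rw [indicator_of_notMem (show x ∉ {x : Edge n → ℝ | x e ∈ Ioo (0 : ℝ) 1} from hx1),
                indicator_of_notMem]
              exact fun hx3 => hx1 hx3.1
    -- real version
    have hintR : IntegrableOn (ex e) (Rset (M κ n) H T.Q e c) := hint.mono_set hRM
    have hcR : IntegrableOn (fun _ : Edge n → ℝ => s) (Rset (M κ n) H T.Q e c) :=
      integrableOn_const hfin
    have hfI : IntegrableOn (fun x => (s - ex e x) / 2) (Rset (M κ n) H T.Q e c) :=
      (hcR.sub hintR).div_const 2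
    have h6 : ∫ x in Rset (M κ n) H T.Q e c, (s - ex e x) / 2 ≤
        (∫⁻ x in Rset (M κ n) H T.Q e c, ENNReal.ofReal ((s - ex e x) / 2)).toReal := by
      rw [integral_eq_lintegral_pos_part_sub_lintegral_neg_part hfI]
      exact sub_le_self _ ENNReal.toReal_nonneg
    have h7 : (∫⁻ x in Rset (M κ n) H T.Q e c, ENNReal.ofReal ((s - ex e x) / 2)).toReal ≤
        l h * vol (Rset (M κ n) H T.Q e c) := by
      have h8 := ENNReal.toReal_mono (ENNReal.mul_ne_top ENNReal.ofReal_ne_top hfin) hle
      rwa [ENNReal.toReal_mul, ENNReal.toReal_ofReal (hlm h hh)] at h8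
    have h8 : ∫ x in Rset (M κ n) H T.Q e c, (s - ex e x) / 2 =
        (s * vol (Rset (M κ n) H T.Q e c) -
          ∫ x in Rset (M κ n) H T.Q e c, ex e x) / 2 := by
      rw [integral_div, integral_sub hcR hintR, setIntegral_const, smul_eq_mul]
      unfold vol Measure.real
      ring
    have h9 : (s - 2 * l h) * vol (Rset (M κ n) H T.Q e c) ≤
        ∫ x in Rset (M κ n) H T.Q e c, ex e x := by
      rw [h8] at h6
      linarith
    have h10 : s - 2 * l h ≤ mean (Rset (M κ n) H T.Q e c) (ex e) := by
      unfold mean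
      rw [le_div_iff₀ m3]
      exact h9
    linarith
  rw [hmean, ← h3 (Edge n) (M κ n) H l T v1 hS hS0 l0 lH hl e (ex e) hint]
  calc EE (wts H l) (fun c => max 0 (T.Q e c h - 1))
      ≤ EE (wts H l) (fun c => 2 * l h + mean (Rset (M κ n) H T.Q e c) (ex e)) :=
        EE_mono hp key
    _ = 2 * l h + EE (wts H l) (fun c => mean (Rset (M κ n) H T.Q e c) (ex e)) := by
        rw [EE_add, EE_const hp1]

end Pool.Agent.Lib.MP_193d8d_pr
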