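import Pool.Agent.Lib.MP_193d8d_pr.StA

/-!
# One-dimensional analysis of a log-concave density bounded by 1
-/

set_option autoImplicit false
open MeasureTheory Set

namespace Pool.Agent.Lib.MP_193d8d_pr

namespace OneDAux

theorem exp_int (c : ℝ) (hc : 0 < c) :
    (∫ t in (0 : ℝ)..1, Real.exp (-(c * (1 - t)))) ≤ 1 / c := by
  have hd : ∀ t ∈ uIcc (0 : ℝ) 1, HasDerivAt (fun t : ℝ => Real.exp (-(c * (1 - t))) / c)
      (Real.exp (-(c * (1 - t)))) t := by
    intro t _
    have h1 : HasDerivAt (fun t : ℝ => -(c * (1 - t))) c t := by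
      have h2 := ((hasDerivAt_id t).const_sub 1).const_mul c
      have h3 : HasDerivAt (fun t : ℝ => -(c * (1 - t))) (-(c * -1)) t := h2.neg
      convert h3 using 1
      ring
    have h4 := (h1.exp).div_const c
    have h5 : Real.exp (-(c * (1 - t))) * c / c = Real.exp (-(c * (1 - t))) := by
      field_simp
    rw [h5] at h4
    exact h4
  rw [intervalIntegral.integral_eq_sub_of_hasDerivAt hd
    (Continuous.intervalIntegrable (by fun_prop) _ _)]
  have h1 : Real.exp (-(c * (1 - 1))) = 1 := by simp
  have h2 : 0 ≤ Real.exp (-(c * (1 - 0))) / c := by positivity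
  simp only [h1]
  linarith

theorem nml_le (y : ℝ) (hy : 0 < y) : -(y * Real.log y) ≤ 1 - y := by
  have h := Real.one_sub_inv_le_log_of_pos hy
  have h1 : y * (1 - y⁻¹) ≤ y * Real.log y := mul_le_mul_of_nonneg_left h hy.le
  have h2 : y * (1 - y⁻¹) = y - 1 := by field_simp
  linarith

theorem nml_sqrt (y : ℝ) (hy : 0 < y) :
    -(y * Real.log y) ≤ 2 / Real.exp 1 * Real.sqrt y := by
  set z := Real.sqrt y with hz
  have hz0 : 0 < z := Real.sqrt_pos.2 hy
  have hyz : y = z * z := (Real.mul_self_sqrt hy.le).symm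
  have hlog : Real.log y = 2 * Real.log z := by
    rw [hyz, Real.log_mul hz0.ne' hz0.ne']; ring
  have h1 : Real.log (1 / (Real.exp 1 * z)) ≤ 1 / (Real.exp 1 * z) - 1 :=
    Real.log_le_sub_one_of_pos (by positivity)
  have h2 : Real.log (1 / (Real.exp 1 * z)) = -1 - Real.log z := by
    rw [one_div, Real.log_inv, Real.log_mul (Real.exp_pos 1).ne' hz0.ne', Real.log_exp]; ring
  have h3 : -Real.log z ≤ 1 / (Real.exp 1 * z) := by linarith
  have h4 : z * z * (2 * -Real.log z) ≤ z * z * (2 * (1 / (Real.exp 1 * z))) := by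
    apply mul_le_mul_of_nonneg_left _ (by positivity)
    linarith
  have h5 : z * z * (2 * (1 / (Real.exp 1 * z))) = 2 / Real.exp 1 * z := by
    field_simp
  rw [hlog, hyz]
  rw [h5] at h4
  linarith

/-- intermediate points -/
theorem facts (f : ℝ → ℝ)
    (hf : ∀ t ∈ Ioo (0 : ℝ) 2, 0 < f t ∧ f t ≤ 1)
    (hconc : ConcaveOn ℝ (Ioo (0 : ℝ) 2) (fun t => Real.log (f t)))
    (hI : IntervalIntegrable f volume 0 2) (w : ℝ)
    (hw0 : 0 < w) (hw : w ≤ 1 / 8) (h01 : (∫ t in (0 : ℝ)..1, f t) = w)
    (h12 : (∫ t in (1 : ℝ)..2, f t) = 1 - w) :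
    1 / 4 ≤ f 1 ∧ ∃ s ∈ Ioo (0 : ℝ) (8 * w), f (1 - s) ≤ 1 / 8 := by
  have hlog2 := Real.log_two_gt_d9
  have hsub : ∀ a b : ℝ, 0 ≤ a → a ≤ b → b ≤ 2 → IntervalIntegrable f volume a b := by
    intro a b ha hab hb
    refine hI.mono_set ?_
    rw [uIcc_of_le hab, uIcc_of_le (by norm_num)]
    exact Icc_subset_Icc ha hb
  -- a point to the right
  obtain ⟨x0, hx0, hfx0⟩ : ∃ x0 ∈ Ioo (1 : ℝ) (1 + 2 * w), 1 / 2 ≤ f x0 := by
    by_contra hcon
    push Not at hcon
    have h1 : 0 < ∫ t in (1 : ℝ)..(1 + 2 * w), (1 / 2 - f t) :=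
      intervalIntegral.intervalIntegral_pos_of_pos_on
        (intervalIntegrable_const.sub (hsub _ _ (by norm_num) (by linarith) (by linarith)))
        (fun x hx => by linarith [hcon x hx]) (by linarith)
    rw [intervalIntegral.integral_sub intervalIntegrable_const
      (hsub _ _ (by norm_num) (by linarith) (by linarith)), intervalIntegral.integral_const] at h1
    have h2 : (∫ t in (1 + 2 * w)..2, f t) ≤ ∫ t in (1 + 2 * w)..2, (1 : ℝ) := by
      apply intervalIntegral.integral_mono_on_of_le_Ioo (by linarith)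
        (hsub _ _ (by linarith) (by linarith) (by linarith)) intervalIntegrable_const
      intro x hx
      exact (hf x ⟨by linarith [hx.1], hx.2⟩).2
    rw [intervalIntegral.integral_const] at h2
    have h3 := intervalIntegral.integral_add_adjacent_intervals
      (hsub 1 (1 + 2 * w) (by norm_num) (by linarith) (by linarith))
      (hsub (1 + 2 * w) 2 (by linarith) (by linarith) (by linarith))
    rw [h12] at h3
    simp only [smul_eq_mul] at h1 h2
    linarith
  have hfx0' := hf x0 ⟨by linarith [hx0.1], by linarith [hx0.2]⟩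
  have hf1 := hf 1 ⟨by norm_num, by norm_num⟩
  have hmem1 : (1 : ℝ) ∈ Ioo (0 : ℝ) 2 := ⟨by norm_num, by norm_num⟩
  refine ⟨?_, ?_⟩
  · by_contra hcon
    push Not at hcon
    -- bound on the left
    have hlogx0 : -Real.log 2 ≤ Real.log (f x0) := by
      rw [← Real.log_inv]
      exact Real.log_le_log (by norm_num) (by linarith)
    have hlog1 : Real.log (f 1) ≤ -(2 * Real.log 2) := by
      have h1 : Real.log (f 1) ≤ Real.log (1 / 4) := Real.log_le_log hf1.1 hcon.le
      have h2 : Real.log (1 / 4 : ℝ) = -(2 * Real.log 2) := by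
        rw [show (1 / 4 : ℝ) = (2 ^ 2)⁻¹ by norm_num, Real.log_inv, Real.log_pow]; norm_num
      linarith
    set c := Real.log 2 / (2 * w) with hcdef
    have hc0 : 0 < c := by positivity
    have hb : ∀ t ∈ Ioo (0 : ℝ) 1, f t ≤ 1 / 4 * Real.exp (-(c * (1 - t))) := by
      intro t ht
      have hft := hf t ⟨ht.1, by linarith [ht.2]⟩
      have h1 := hconc.slope_anti_adjacent (x := t) (y := 1) (z := x0)
        ⟨ht.1, by linarith [ht.2]⟩ ⟨by linarith [hx0.1], by linarith [hx0.2]⟩ ht.2 hx0.1
      have h2 : c ≤ (Real.log (f x0) - Real.log (f 1)) / (x0 - 1) := by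
        rw [hcdef, div_le_div_iff₀ (by linarith) (by linarith [hx0.1])]
        have h3 : Real.log 2 ≤ Real.log (f x0) - Real.log (f 1) := by linarith
        nlinarith [hx0.1, hx0.2]
      have h4 : c ≤ (Real.log (f 1) - Real.log (f t)) / (1 - t) := h2.trans h1
      rw [le_div_iff₀ (by linarith [ht.2])] at h4
      have h5 : Real.log (f t) ≤ -(2 * Real.log 2) + -(c * (1 - t)) := by linarith
      have h6 : f t = Real.exp (Real.log (f t)) := (Real.exp_log hft.1).symm
      have h7 : Real.exp (-(2 * Real.log 2)) = 1 / 4 := by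
        rw [show -(2 * Real.log 2) = Real.log (1 / 4) by
          rw [show (1 / 4 : ℝ) = (2 ^ 2)⁻¹ by norm_num, Real.log_inv, Real.log_pow]; norm_num,
          Real.exp_log (by norm_num)]
      rw [h6, ← h7, ← Real.exp_add]
      exact Real.exp_le_exp.2 h5
    have h1 : w ≤ ∫ t in (0 : ℝ)..1, 1 / 4 * Real.exp (-(c * (1 - t))) := by
      rw [← h01]
      exact intervalIntegral.integral_mono_on_of_le_Ioo (by norm_num)
        (hsub 0 1 le_rfl (by norm_num) (by norm_num))
        (Continuous.intervalIntegrable (by fun_prop) _ _) hb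
    rw [intervalIntegral.integral_const_mul] at h1
    have h2 := exp_int c hc0
    have h3 : w ≤ 1 / 4 * (1 / c) := h1.trans (by linarith)
    rw [hcdef, one_div_div] at h3
    have h4 : 1 / 4 * (2 * w / Real.log 2) < w := by
      rw [← mul_div_assoc, div_lt_iff₀ (by linarith)]
      nlinarith
    linarith
  · by_contra hcon
    push Not at hcon
    have h1 : 0 < ∫ t in (1 - 8 * w)..1, (f t - 1 / 8) :=
      intervalIntegral.intervalIntegral_pos_of_pos_on
        ((hsub _ _ (by linarith) (by linarith) (by norm_num)).sub intervalIntegrable_const)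
        (fun x hx => by
          have := hcon (1 - x) ⟨by linarith [hx.2], by linarith [hx.1]⟩
          rw [sub_sub_cancel] at this
          linarith) (by linarith)
    rw [intervalIntegral.integral_sub (hsub _ _ (by linarith) (by linarith) (by norm_num))
      intervalIntegrable_const, intervalIntegral.integral_const] at h1
    have h2 : 0 ≤ ∫ t in (0 : ℝ)..(1 - 8 * w), f t := by
      rw [intervalIntegral.integral_of_le (by linarith)]
      apply MeasureTheory.setIntegral_nonneg measurableSet_Ioc
      intro x hx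
      exact (hf x ⟨hx.1, by linarith [hx.2]⟩).1.le
    have h3 := intervalIntegral.integral_add_adjacent_intervals
      (hsub 0 (1 - 8 * w) le_rfl (by linarith) (by linarith))
      (hsub (1 - 8 * w) 1 (by linarith) (by linarith) (by norm_num))
    rw [h01] at h3
    simp only [smul_eq_mul] at h1
    linarith

end OneDAux

open OneDAux in
theorem stOneD : StOneD := by
  intro f hc hf hconc hint hw
  have hI : IntervalIntegrable f volume 0 2 := by
    by_contra h
    rw [intervalIntegral.integral_undef h] at hint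
    norm_num at hint
  have hsub : ∀ a b : ℝ, 0 ≤ a → a ≤ b → b ≤ 2 → IntervalIntegrable f volume a b := by
    intro a b ha hab hb
    refine hI.mono_set ?_
    rw [uIcc_of_le hab, uIcc_of_le (by norm_num)]
    exact Icc_subset_Icc ha hb
  have hlog2 := Real.log_two_gt_d9
  set w := ∫ t in (0 : ℝ)..1, f t with hwdef
  have hI01 := hsub 0 1 le_rfl (by norm_num) (by norm_num)
  have hI12 := hsub 1 2 (by norm_num) (by norm_num) le_rfl
  have hw0 : 0 < w := intervalIntegral.intervalIntegral_pos_of_pos_on hI01
    (fun x hx => (hf x ⟨hx.1, by linarith [hx.2]⟩).1) (by norm_num)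
  have hadd := intervalIntegral.integral_add_adjacent_intervals hI01 hI12
  rw [← hwdef, hint] at hadd
  have h12 : (∫ t in (1 : ℝ)..2, f t) = 1 - w := by linarith
  obtain ⟨hf14, s0, hs0, hfs0⟩ := facts f hf hconc hI w hw0 hw hwdef.symm h12
  have hf1 := hf 1 ⟨by norm_num, by norm_num⟩
  have hA : ∀ s ∈ Ico (0 : ℝ) 1, f (1 - s) ≤ 2 * Real.exp (-(s / (12 * w))) := by
    intro s hs
    have hfs := hf (1 - s) ⟨by linarith [hs.2], by linarith [hs.1]⟩
    rcases le_or_gt s (8 * w) with h | h
    · have h1 : Real.exp (-(2 / 3)) ≤ Real.exp (-(s / (12 * w))) := by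
        apply Real.exp_le_exp.2
        have : s / (12 * w) ≤ 2 / 3 := by
          rw [div_le_iff₀ (by linarith)]
          linarith
        linarith
      have h2 : (1 / 2 : ℝ) ≤ Real.exp (-(2 / 3)) := by
        rw [show (1 / 2 : ℝ) = Real.exp (-Real.log 2) by
          rw [Real.exp_neg, Real.exp_log (by norm_num)]; norm_num]
        apply Real.exp_le_exp.2
        linarith
      linarith [hfs.2]
    · have hs0s : s0 < s := hs0.2.trans h
      have hs0pos := hs0.1
      have hspos : 0 < s := hs0pos.trans hs0s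
      have hfs0' := hf (1 - s0) ⟨by linarith [hs.2], by linarith⟩
      have h1 := hconc.slope_anti_adjacent (x := 1 - s) (y := 1 - s0) (z := 1)
        ⟨by linarith [hs.2], by linarith⟩ ⟨by norm_num, by norm_num⟩ (by linarith) (by linarith)
      have e1 : (1 : ℝ) - (1 - s0) = s0 := by ring
      have e2 : (1 : ℝ) - s0 - (1 - s) = s - s0 := by ring
      rw [e1, e2, div_le_div_iff₀ hs0pos (by linarith)] at h1
      have hl1 : -(2 * Real.log 2) ≤ Real.log (f 1) := by
        rw [show -(2 * Real.log 2) = Real.log (1 / 4) by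
          rw [show (1 / 4 : ℝ) = (2 ^ 2)⁻¹ by norm_num, Real.log_inv, Real.log_pow]; norm_num]
        exact Real.log_le_log (by norm_num) hf14
      have hl2 : Real.log (f (1 - s0)) ≤ -(3 * Real.log 2) := by
        rw [show -(3 * Real.log 2) = Real.log (1 / 8) by
          rw [show (1 / 8 : ℝ) = (2 ^ 3)⁻¹ by norm_num, Real.log_inv, Real.log_pow]; norm_num]
        exact Real.log_le_log hfs0'.1 hfs0
      -- g(1-s) * s0 <= s * g(1-s0) - (s - s0) g(1)
      have h2 : Real.log (f (1 - s)) * s0 ≤ -(2 * Real.log 2) * s0 - s * Real.log 2 := by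
        nlinarith
      have h3 : Real.log (f (1 - s)) ≤ -(s / (12 * w)) := by
        have h4 : Real.log (f (1 - s)) * s0 ≤ -(s / (12 * w)) * s0 := by
          have h5 : s / (12 * w) * s0 ≤ s * (2 / 3) := by
            rw [div_mul_eq_mul_div, div_le_iff₀ (by linarith)]
            nlinarith [hs0.2]
          nlinarith
        exact le_of_mul_le_mul_right h4 hs0pos
      have h6 : f (1 - s) ≤ Real.exp (-(s / (12 * w))) := by
        rw [← Real.exp_log hfs.1]
        exact Real.exp_le_exp.2 h3
      linarith [Real.exp_pos (-(s / (12 * w)))]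
  refine ⟨hA, ?_⟩
  -- integrability of the entropy
  have hmeas : AEStronglyMeasurable (fun t => -(f t * Real.log (f t)))
      (volume.restrict (Ioo (0 : ℝ) 2)) := by
    apply ContinuousOn.aestronglyMeasurable _ measurableSet_Ioo
    exact (hc.mul (hc.log fun x hx => (hf x hx).1.ne')).neg
  have hint2 : IntervalIntegrable (fun t => -(f t * Real.log (f t))) volume 0 2 := by
    rw [intervalIntegrable_iff_integrableOn_Ioo_of_le (by norm_num)]
    apply Integrable.of_bound hmeas 1
    rw [ae_restrict_iff' measurableSet_Ioo]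
    refine Filter.Eventually.of_forall fun x hx => ?_
    have h1 := hf x hx
    have h2 := nml_le _ h1.1
    have h3 : 0 ≤ -(f x * Real.log (f x)) := by
      have := Real.log_nonpos h1.1.le h1.2
      nlinarith [h1.1]
    rw [Real.norm_of_nonneg h3]
    linarith [h1.1]
  have hint01 : IntervalIntegrable (fun t => -(f t * Real.log (f t))) volume 0 1 := by
    refine hint2.mono_set ?_
    rw [uIcc_of_le (by norm_num), uIcc_of_le (by norm_num)]
    exact Icc_subset_Icc le_rfl (by norm_num)
  have hint12 : IntervalIntegrable (fun t => -(f t * Real.log (f t))) volume 1 2 := by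
    refine hint2.mono_set ?_
    rw [uIcc_of_le (by norm_num), uIcc_of_le (by norm_num)]
    exact Icc_subset_Icc (by norm_num) le_rfl
  rw [← intervalIntegral.integral_add_adjacent_intervals hint01 hint12]
  have hB : (∫ t in (1 : ℝ)..2, -(f t * Real.log (f t))) ≤ w := by
    have h1 : (∫ t in (1 : ℝ)..2, -(f t * Real.log (f t))) ≤ ∫ t in (1 : ℝ)..2, (1 - f t) := by
      apply intervalIntegral.integral_mono_on_of_le_Ioo (by norm_num) hint12
        (intervalIntegrable_const.sub hI12)
      intro x hx
      exact nml_le _ (hf x ⟨by linarith [hx.1], hx.2⟩).1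
    rw [intervalIntegral.integral_sub intervalIntegrable_const hI12, h12,
      intervalIntegral.integral_const] at h1
    simp only [smul_eq_mul] at h1
    linarith
  have hC : (∫ t in (0 : ℝ)..1, -(f t * Real.log (f t))) ≤ 25 * w := by
    have h1 : (∫ t in (0 : ℝ)..1, -(f t * Real.log (f t))) ≤
        ∫ t in (0 : ℝ)..1, 2 / Real.exp 1 * Real.sqrt 2 *
          Real.exp (-(1 / (24 * w) * (1 - t))) := by
      apply intervalIntegral.integral_mono_on_of_le_Ioo (by norm_num) hint01
        (Continuous.intervalIntegrable (by fun_prop) _ _)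
      intro t ht
      have hft := hf t ⟨ht.1, by linarith [ht.2]⟩
      have h2 := hA (1 - t) ⟨by linarith [ht.2], by linarith [ht.1]⟩
      rw [sub_sub_cancel] at h2
      have h3 : Real.sqrt (f t) ≤ Real.sqrt 2 * Real.exp (-(1 / (24 * w) * (1 - t))) := by
        have h4 : Real.sqrt (2 * Real.exp (-((1 - t) / (12 * w)))) =
            Real.sqrt 2 * Real.exp (-(1 / (24 * w) * (1 - t))) := by
          rw [Real.sqrt_mul (by norm_num)]
          congr 1
          rw [Real.sqrt_eq_iff_mul_self_eq (Real.exp_pos _).le (Real.exp_pos _).le,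
            ← Real.exp_add]
          congr 1
          field_simp
          ring
        rw [← h4]
        exact Real.sqrt_le_sqrt h2
      have h5 := nml_sqrt _ hft.1
      calc -(f t * Real.log (f t)) ≤ 2 / Real.exp 1 * Real.sqrt (f t) := h5
        _ ≤ 2 / Real.exp 1 * (Real.sqrt 2 * Real.exp (-(1 / (24 * w) * (1 - t)))) :=
          mul_le_mul_of_nonneg_left h3 (by positivity)
        _ = _ := by ring
    rw [intervalIntegral.integral_const_mul] at h1
    have h2 := exp_int (1 / (24 * w)) (by positivity)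
    rw [one_div_one_div] at h2
    have h3 : 2 / Real.exp 1 * Real.sqrt 2 ≤ 25 / 24 := by
      have he := Real.exp_one_gt_d9
      have hs : Real.sqrt 2 ≤ 1.41422 := by
        rw [Real.sqrt_le_left (by norm_num)]
        norm_num
      rw [div_mul_eq_mul_div, div_le_iff₀ (by linarith)]
      linarith
    calc (∫ t in (0 : ℝ)..1, -(f t * Real.log (f t))) ≤ _ := h1
      _ ≤ 2 / Real.exp 1 * Real.sqrt 2 * (24 * w) :=
        mul_le_mul_of_nonneg_left h2 (by positivity)
      _ ≤ 25 / 24 * (24 * w) := mul_le_mul_of_nonneg_right h3 (by linarith)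
      _ = 25 * w := by ring
  linarith

end Pool.Agent.Lib.MP_193d8d_pr
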