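import Pool.Agent.Lib.MP_193d8d_pr.StA
import Pool.Agent.Lib.MP_193d8d_pr.Base
import Pool.Agent.Lib.MP_0ffb5f_gt.PL

set_option autoImplicit false
open MeasureTheory Set

namespace Pool.Agent.Lib.MP_193d8d_pr

namespace PLnAux

theorem lintegral_succ {n : ℕ} {f : (Fin (n + 1) → ℝ) → ENNReal} (hf : Measurable f) :
    ∫⁻ x, f x = ∫⁻ a : ℝ, ∫⁻ x : Fin n → ℝ, f (Fin.cons a x) := by
  have hmp := (volume_preserving_piFinSuccAbove (fun _ : Fin (n + 1) => ℝ) 0).symm
  rw [← hmp.lintegral_comp hf]
  refine (lintegral_prod (μ := (volume : Measure ℝ)) (ν := (volume : Measure (Fin n → ℝ)))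
    (fun z => f ((MeasurableEquiv.piFinSuccAbove (fun _ => ℝ) 0).symm z))
    (hf.comp hmp.measurable).aemeasurable).trans ?_
  refine lintegral_congr fun a => lintegral_congr fun x => ?_
  congr 1
  rw [MeasurableEquiv.piFinSuccAbove_symm_apply]
  simp [Fin.insertNthEquiv, Fin.insertNth_zero']

theorem pl_fin (n : ℕ) : ∀ {f g h : (Fin n → ℝ) → ENNReal}, Measurable f → Measurable g →
    Measurable h → (∀ x y, f x * g y ≤ h (fun i => (x i + y i) / 2) ^ 2) →
    (∫⁻ x, f x) * (∫⁻ x, g x) ≤ (∫⁻ x, h x) ^ 2 := by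
  induction n with
  | zero =>
    intro f g h hf hg hh hyp
    have h0 := hyp default default
    have e : ∀ x : Fin 0 → ℝ, x = default := fun x => Subsingleton.elim _ _
    have hi : ∀ (F : (Fin 0 → ℝ) → ENNReal), ∫⁻ x, F x = F default := by
      intro F
      calc ∫⁻ x, F x = ∫⁻ _ : Fin 0 → ℝ, F default := lintegral_congr fun x => by rw [e x]
        _ = F default := by
          rw [lintegral_const, volume_pi, Measure.pi_empty_univ, mul_one]
    rw [hi, hi, hi]
    rw [e (fun i => ((default : Fin 0 → ℝ) i + (default : Fin 0 → ℝ) i) / 2)] at h0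
    exact h0
  | succ n ih =>
    intro f g h hf hg hh hyp
    rw [lintegral_succ hf, lintegral_succ hg, lintegral_succ hh]
    have hcons : Measurable fun p : ℝ × (Fin n → ℝ) => (Fin.cons p.1 p.2 : Fin (n + 1) → ℝ) := by
      refine measurable_pi_lambda _ fun i => ?_
      refine Fin.cases ?_ (fun j => ?_) i
      · simp only [Fin.cons_zero]; exact measurable_fst
      · simp only [Fin.cons_succ]; exact (measurable_pi_apply j).comp measurable_snd
    have hcons' : ∀ a : ℝ, Measurable fun x : Fin n → ℝ => (Fin.cons a x : Fin (n + 1) → ℝ) :=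
      fun a => hcons.comp measurable_prodMk_left
    refine Pool.Agent.VB.pl_one ?_ ?_ ?_ fun a b => ?_
    · exact (hf.comp hcons).lintegral_prod_right'
    · exact (hg.comp hcons).lintegral_prod_right'
    · exact (hh.comp hcons).lintegral_prod_right'
    refine ih (f := fun x => f (Fin.cons a x)) (g := fun x => g (Fin.cons b x))
      (h := fun x => h (Fin.cons ((a + b) / 2) x)) (hf.comp (hcons' a)) (hg.comp (hcons' b))
      (hh.comp (hcons' _)) (fun x y => ?_)
    have h1 := hyp (Fin.cons a x) (Fin.cons b y)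
    have e1 : (fun i => ((Fin.cons a x : Fin (n + 1) → ℝ) i +
        (Fin.cons b y : Fin (n + 1) → ℝ) i) / 2)
        = Fin.cons ((a + b) / 2) (fun i => (x i + y i) / 2) := by
      funext i
      refine Fin.cases ?_ (fun j => ?_) i <;> simp
    rw [e1] at h1
    exact h1

end PLnAux

open PLnAux in
theorem stPLn : StPLn := by
  intro E _ F G H hF hG hH hyp
  set n := Fintype.card E with hn
  have e : Fin n ≃ E := (Fintype.equivFin E).symm
  have hmp := volume_measurePreserving_piCongrLeft (fun _ : E => ℝ) e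
  set φ := MeasurableEquiv.piCongrLeft (fun _ : E => ℝ) e with hφ
  have hval : ∀ (x : Fin n → ℝ) (i : E), φ x i = x (e.symm i) := by
    intro x i
    have h1 : φ x (e (e.symm i)) = x (e.symm i) := by
      rw [hφ, MeasurableEquiv.coe_piCongrLeft]
      exact Equiv.piCongrLeft_apply_apply (fun _ : E => ℝ) e x (e.symm i)
    rwa [Equiv.apply_symm_apply] at h1
  have hF' := hmp.lintegral_comp hF
  have hG' := hmp.lintegral_comp hG
  have hH' := hmp.lintegral_comp hH
  rw [← hF', ← hG', ← hH']
  refine pl_fin n (hF.comp hmp.measurable) (hG.comp hmp.measurable) (hH.comp hmp.measurable) ?_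
  intro x y
  have h1 := hyp (φ x) (φ y)
  have h2 : (fun i => (φ x i + φ y i) / 2) = φ (fun i => (x i + y i) / 2) := by
    funext i
    rw [hval, hval, hval]
  rw [h2] at h1
  exact h1

end Pool.Agent.Lib.MP_193d8d_pr
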