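import Pool.Agent.Lib.MP_193d8d_pr.StA
import Pool.Agent.Lib.MP_193d8d_pr.Base

set_option autoImplicit false
open MeasureTheory Set
open scoped Pointwise

namespace Pool.Agent.Lib.MP_193d8d_pr

namespace ProjAux

/-! ### Edges and updates -/

section Upd

variable {n : ℕ}

theorem edge_eq_iff {i j : Fin n} (h : i ≠ j) (g : Edge n) :
    edge i j h = g ↔ (i = g.a ∧ j = g.b) ∨ (i = g.b ∧ j = g.a) := by
  obtain ⟨a, b, hab⟩ := g
  unfold edge
  split_ifs with h'
  · rw [Edge.mk.injEq]
    constructor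
    · exact Or.inl
    · rintro (h1 | ⟨rfl, rfl⟩)
      · exact h1
      · exact absurd hab (not_lt.2 h'.le)
  · rw [Edge.mk.injEq]
    constructor
    · rintro ⟨rfl, rfl⟩
      exact Or.inr ⟨rfl, rfl⟩
    · rintro (⟨rfl, rfl⟩ | ⟨rfl, rfl⟩)
      · exact absurd hab h'
      · exact ⟨rfl, rfl⟩

theorem edge_comm {i j : Fin n} (h : i ≠ j) : edge i j h = edge j i h.symm := by
  rw [edge_eq_iff]
  rcases lt_or_gt_of_ne h with h' | h'
  · left
    simp [edge, not_lt.2 h'.le]
  · right
    simp [edge, h']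

theorem edge_self (g : Edge n) : edge g.a g.b g.lt.ne = g := by
  rw [edge_eq_iff]
  exact Or.inl ⟨rfl, rfl⟩

/-- `ext` of an update away from the updated edge -/
theorem ext_update_ne (x : Edge n → ℝ) (g : Edge n) (y : ℝ) {i j : Fin n} (h : i ≠ j)
    (hg : edge i j h ≠ g) : ext 0 (Function.update x g y) i j = ext 0 x i j := by
  rw [ext_ne _ _ h, ext_ne _ _ h, Function.update_of_ne hg]

theorem ext_update_eq (x : Edge n → ℝ) (g : Edge n) (y : ℝ) {i j : Fin n} (h : i ≠ j)
    (hg : edge i j h = g) : ext 0 (Function.update x g y) i j = y := by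
  rw [ext_ne _ _ h, hg, Function.update_self]

theorem edge_ne_left {g : Edge n} {k : Fin n} (ha : k ≠ g.a) (hb : k ≠ g.b) :
    edge g.a k ha.symm ≠ g := by
  rw [Ne, edge_eq_iff]
  rintro (⟨_, h⟩ | ⟨_, h⟩)
  · exact hb h
  · exact ha h

theorem edge_ne_right {g : Edge n} {k : Fin n} (ha : k ≠ g.a) (hb : k ≠ g.b) :
    edge k g.b hb ≠ g := by
  rw [Ne, edge_eq_iff]
  rintro (⟨h, _⟩ | ⟨h, _⟩)
  · exact ha h
  · exact hb h

/-- the numbers whose maximum is the lower end of the fibre -/
noncomputable def dd (g : Edge n) (x : Edge n → ℝ) (k : Fin n) : ℝ :=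
  |ext 0 x g.a k - ext 0 x k g.b|

theorem dd_update (g : Edge n) (x : Edge n → ℝ) (y : ℝ) {k : Fin n} (ha : k ≠ g.a)
    (hb : k ≠ g.b) : dd g (Function.update x g y) k = dd g x k := by
  rw [dd, dd, ext_update_ne x g y ha.symm (edge_ne_left ha hb),
    ext_update_ne x g y hb (edge_ne_right ha hb)]

theorem dd_le_of_mem {g : Edge n} {x : Edge n → ℝ} (hx : x ∈ M 0 n) (k : Fin n) :
    dd g x k ≤ x g := by
  have h1 := hx.2 g.a k g.b
  have h2 := hx.2 k g.b g.a
  rw [ext_edge] at h1 h2
  rw [ext_symm 0 x g.b k] at h1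
  rw [ext_symm 0 x k g.a] at h2
  rw [dd, abs_le]
  constructor <;> linarith

end Upd

/-! ### The sets -/

section Sets

variable {n : ℕ}

/-- relaxed metric polytope -/
def Mc (n : ℕ) (c : ℝ) : Set (Edge n → ℝ) :=
  {x | (∀ e, x e ≤ 2) ∧ ∀ i j k, i ≠ j → i ≠ k → k ≠ j →
    ext 0 x i j ≤ ext 0 x i k + ext 0 x k j + c}

/-- points just below the lower end of their fibre -/
def Dg (g : Edge n) (c : ℝ) : Set (Edge n → ℝ) :=
  {x | volume (fib (M 0 n) g x) ≠ 0} ∩ ({x | ∃ k, k ≠ g.a ∧ k ≠ g.b ∧ x g < dd g x k} ∩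
    {x | ∀ k, k ≠ g.a → k ≠ g.b → dd g x k < x g + c})

theorem exists_fib {g : Edge n} {x : Edge n → ℝ} (h : volume (fib (M 0 n) g x) ≠ 0) :
    ∃ y, Function.update x g y ∈ M 0 n := by
  by_contra h'
  push Not at h'
  apply h
  have : fib (M 0 n) g x = ∅ := Set.eq_empty_of_forall_notMem h'
  rw [this, measure_empty]

/-- the value at `g` is below the values in the fibre -/
theorem lt_of_mem_Dg {g : Edge n} {c : ℝ} {x : Edge n → ℝ} (hx : x ∈ Dg g c) {y : ℝ}
    (hy : Function.update x g y ∈ M 0 n) : x g < y := by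
  obtain ⟨_, ⟨k, ha, hb, hk⟩, _⟩ := hx
  have h1 := dd_le_of_mem (g := g) hy k
  rw [dd_update g x y ha hb, Function.update_self] at h1
  exact hk.trans_le h1

/-- the triangle inequalities where `g` is not one of the small sides -/
theorem tri_of_mem_Dg {g : Edge n} {c : ℝ} {x : Edge n → ℝ} (hx : x ∈ Dg g c) {i j k : Fin n}
    (hij : i ≠ j) (hik : i ≠ k) (hkj : k ≠ j) (h1 : edge i k hik ≠ g) (h2 : edge k j hkj ≠ g) :
    ext 0 x i j ≤ ext 0 x i k + ext 0 x k j := by
  obtain ⟨y, hy⟩ := exists_fib hx.1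
  have h3 := hy.2 i j k
  rw [ext_update_ne x g y hik h1, ext_update_ne x g y hkj h2] at h3
  refine le_trans ?_ h3
  by_cases hg : edge i j hij = g
  · rw [ext_update_eq x g y hij hg, ext_ne _ _ hij, hg]
    exact (lt_of_mem_Dg hx hy).le
  · rw [ext_update_ne x g y hij hg]

theorem Dg_sub_Mc {g : Edge n} {c : ℝ} (hc : 0 ≤ c) : Dg g c ⊆ Mc n c := by
  intro x hx
  obtain ⟨y, hy⟩ := exists_fib hx.1
  refine ⟨fun e => ?_, fun i j k hij hik hkj => ?_⟩
  · by_cases he : e = g
    · subst he
      have h1 := (hy.1 e).2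
      rw [Function.update_self] at h1
      exact (lt_of_mem_Dg hx hy).le.trans h1
    · have h1 := (hy.1 e).2
      rwa [Function.update_of_ne he] at h1
  · by_cases h1 : edge i k hik = g
    · have h2 := hx.2.2
      rw [ext_ne 0 x hik, h1]
      rcases (edge_eq_iff hik g).1 h1 with ⟨rfl, rfl⟩ | ⟨rfl, rfl⟩
      · have h3 := h2 j hij.symm hkj.symm
        rw [dd, ext_symm 0 x j g.b] at h3
        linarith [le_abs_self (ext 0 x g.a j - ext 0 x g.b j)]
      · have h3 := h2 j hkj.symm hij.symm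
        rw [dd, ext_symm 0 x j g.b] at h3
        linarith [neg_abs_le (ext 0 x g.a j - ext 0 x g.b j)]
    · by_cases h2 : edge k j hkj = g
      · have h3 := hx.2.2
        rw [ext_ne 0 x hkj, h2]
        rcases (edge_eq_iff hkj g).1 h2 with ⟨rfl, rfl⟩ | ⟨rfl, rfl⟩
        · have h4 := h3 i hik hij
          rw [dd, ext_symm 0 x g.a i] at h4
          linarith [neg_abs_le (ext 0 x i g.a - ext 0 x i g.b)]
        · have h4 := h3 i hij hik
          rw [dd, ext_symm 0 x g.a i] at h4
          linarith [le_abs_self (ext 0 x i g.a - ext 0 x i g.b)]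
      · linarith [tri_of_mem_Dg hx hij hik hkj h1 h2]

theorem notMem_of_Dg {g : Edge n} {c : ℝ} {x : Edge n → ℝ} (hx : x ∈ Dg g c) : x ∉ M 0 n := by
  intro h
  obtain ⟨_, ⟨k, ha, hb, hk⟩, _⟩ := hx
  exact absurd hk (not_lt.2 (dd_le_of_mem h k))

/-- every point is in at most two of the sets -/
theorem two_sets (e : Edge n) (x : Edge n → ℝ) (c : ℝ) : ∃ a b : Edge n, ∀ g, x ∈ Dg g c → g = a ∨ g = b := by
  by_cases h : ∃ g, x ∈ Dg g c
  · obtain ⟨g, hg⟩ := h
    obtain ⟨k, ha, hb, hk⟩ := hg.2.1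
    obtain ⟨i, j, l, hij, hil, hlj, hv⟩ : ∃ i j l : Fin n, i ≠ j ∧ i ≠ l ∧ l ≠ j ∧
        ext 0 x i l + ext 0 x l j < ext 0 x i j := by
      rw [dd, lt_abs] at hk
      rcases hk with hk | hk
      · refine ⟨g.a, k, g.b, ha.symm, g.lt.ne, hb.symm, ?_⟩
        rw [ext_edge, ext_symm 0 x g.b k]
        linarith
      · refine ⟨k, g.b, g.a, hb, ha, g.lt.ne, ?_⟩
        rw [ext_edge, ext_symm 0 x k g.a]
        linarith
    refine ⟨edge i l hil, edge l j hlj, fun g' hg' => ?_⟩
    by_contra hne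
    push Not at hne
    exact absurd hv (not_lt.2 (tri_of_mem_Dg hg' hij hil hlj hne.1.symm hne.2.symm))
  · push Not at h
    exact ⟨e, e, fun g hg => absurd hg (h g)⟩

/-! ### Measurability and volumes -/

theorem measurable_ext (i j : Fin n) : Measurable fun x : Edge n → ℝ => ext 0 x i j := by
  rcases eq_or_ne i j with rfl | h
  · simp only [ext_self]
    exact measurable_const
  · have h1 : (fun x : Edge n → ℝ => ext 0 x i j) = fun x => x (edge i j h) :=
      funext fun x => ext_ne 0 x h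
    rw [h1]
    exact measurable_pi_apply _

theorem measurable_dd (g : Edge n) (k : Fin n) : Measurable fun x => dd g x k := by
  have h1 : Measurable fun x : Edge n → ℝ => ext 0 x g.a k - ext 0 x k g.b :=
    (measurable_ext _ _).sub (measurable_ext _ _)
  exact continuous_abs.measurable.comp h1

theorem measurableSet_Mc (c : ℝ) : MeasurableSet (Mc n c) := by
  have h1 : Mc n c = (⋂ e, {x : Edge n → ℝ | x e ≤ 2}) ∩ ⋂ i, ⋂ j, ⋂ k, ⋂ (_ : i ≠ j),
      ⋂ (_ : i ≠ k), ⋂ (_ : k ≠ j), {x | ext 0 x i j ≤ ext 0 x i k + ext 0 x k j + c} := by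
    ext x
    simp only [Mc, mem_ofPred_eq, mem_inter_iff, mem_iInter]
  rw [h1]
  refine MeasurableSet.inter (MeasurableSet.iInter fun e =>
    measurableSet_le (measurable_pi_apply e) measurable_const) ?_
  refine MeasurableSet.iInter fun i => MeasurableSet.iInter fun j => MeasurableSet.iInter fun k =>
    MeasurableSet.iInter fun _ => MeasurableSet.iInter fun _ => MeasurableSet.iInter fun _ =>
    measurableSet_le (measurable_ext _ _) (((measurable_ext _ _).add (measurable_ext _ _)).add
      measurable_const)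

theorem measurableSet_Dg (hV : StVol) (hF : StFubB) (g : Edge n) (c : ℝ) :
    MeasurableSet (Dg g c) := by
  have h0 := (hV 0 n le_rfl zero_lt_one).1
  have h1 := (hF (Edge n) (M 0 n) g (fun _ => 0) h0 measurable_const fun _ _ => rfl).1
  refine MeasurableSet.inter ?_ (MeasurableSet.inter ?_ ?_)
  · exact h1 (measurableSet_singleton (0 : ENNReal)).compl
  · have h2 : {x : Edge n → ℝ | ∃ k, k ≠ g.a ∧ k ≠ g.b ∧ x g < dd g x k} =
        ⋃ k, ⋃ (_ : k ≠ g.a), ⋃ (_ : k ≠ g.b), {x | x g < dd g x k} := by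
      ext x
      simp only [mem_ofPred_eq, mem_iUnion, exists_prop]
    rw [h2]
    exact MeasurableSet.iUnion fun k => MeasurableSet.iUnion fun _ => MeasurableSet.iUnion fun _ =>
      measurableSet_lt (measurable_pi_apply g) (measurable_dd g k)
  · have h2 : {x : Edge n → ℝ | ∀ k, k ≠ g.a → k ≠ g.b → dd g x k < x g + c} =
        ⋂ k, ⋂ (_ : k ≠ g.a), ⋂ (_ : k ≠ g.b), {x | dd g x k < x g + c} := by
      ext x
      simp only [mem_ofPred_eq, mem_iInter]
    rw [h2]
    exact MeasurableSet.iInter fun k => MeasurableSet.iInter fun _ => MeasurableSet.iInter fun _ =>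
      measurableSet_lt (measurable_dd g k) ((measurable_pi_apply g).add measurable_const)

/-- the fibre of `Dg` -/
theorem volume_fib_Dg (hn : 3 ≤ n) (g : Edge n) (c : ℝ) (x : Edge n → ℝ)
    (hx : volume (fib (M 0 n) g x) ≠ 0) : volume (fib (Dg g c) g x) = ENNReal.ofReal c := by
  classical
  have hne : (Finset.univ.filter fun k : Fin n => k ≠ g.a ∧ k ≠ g.b).Nonempty := by
    by_contra h
    rw [Finset.not_nonempty_iff_eq_empty, Finset.filter_eq_empty_iff] at h
    have h1 : (Finset.univ : Finset (Fin n)) ⊆ {g.a, g.b} := by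
      intro k _
      have h2 := h (Finset.mem_univ k)
      rw [Finset.mem_insert, Finset.mem_singleton]
      tauto
    have h2 := (Finset.card_le_card h1).trans Finset.card_le_two
    rw [Finset.card_univ, Fintype.card_fin] at h2
    omega
  set m := (Finset.univ.filter fun k : Fin n => k ≠ g.a ∧ k ≠ g.b).sup' hne (dd g x) with hm
  have h1 : fib (Dg g c) g x = Ioo (m - c) m := by
    ext y
    have h2 : fib (M 0 n) g (Function.update x g y) = fib (M 0 n) g x := by
      ext t
      simp only [fib, mem_ofPred_eq, Function.update_idem]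
    have h3 : y ∈ fib (Dg g c) g x ↔ (∃ k, k ≠ g.a ∧ k ≠ g.b ∧ y < dd g x k) ∧
        ∀ k, k ≠ g.a → k ≠ g.b → dd g x k < y + c := by
      constructor
      · rintro ⟨_, ⟨k, ha, hb, hk⟩, h4⟩
        rw [dd_update g x y ha hb, Function.update_self] at hk
        refine ⟨⟨k, ha, hb, hk⟩, fun k' ha' hb' => ?_⟩
        have h5 := h4 k' ha' hb'
        rwa [dd_update g x y ha' hb', Function.update_self] at h5
      · rintro ⟨⟨k, ha, hb, hk⟩, h4⟩
        refine ⟨?_, ⟨k, ha, hb, ?_⟩, fun k' ha' hb' => ?_⟩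
        · change volume (fib (M 0 n) g (Function.update x g y)) ≠ 0
          rw [h2]
          exact hx
        · rw [dd_update g x y ha hb, Function.update_self]
          exact hk
        · rw [dd_update g x y ha' hb', Function.update_self]
          exact h4 k' ha' hb'
    rw [h3, mem_Ioo, Finset.lt_sup'_iff, sub_lt_iff_lt_add, Finset.sup'_lt_iff]
    simp only [Finset.mem_filter, Finset.mem_univ, true_and, and_imp]
    constructor
    · rintro ⟨⟨k, ha, hb, hk⟩, h4⟩
      exact ⟨h4, k, ⟨ha, hb⟩, hk⟩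
    · rintro ⟨h4, k, ⟨ha, hb⟩, hk⟩
      exact ⟨⟨k, ha, hb, hk⟩, h4⟩
  rw [h1, Real.volume_Ioo]
  congr 1
  ring

theorem volume_Dg (hV : StVol) (hF : StFubB) (hn : 3 ≤ n) (g : Edge n) {c : ℝ} (hc : 0 < c) :
    volume (Dg g c) = ENNReal.ofReal c * volume (cyl (M 0 n) g) := by
  have h0 := (hV 0 n le_rfl zero_lt_one).1
  have h1 := hF (Edge n) (M 0 n) g (fun _ => 1) h0 measurable_const fun _ _ => rfl
  have h2 := hF (Edge n) (Dg g c) g (fun _ => 1) (measurableSet_Dg hV hF g c) measurable_const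
    fun _ _ => rfl
  have h3 : cyl (Dg g c) g = cyl (M 0 n) g := by
    ext x
    refine and_congr_right fun _ => ?_
    by_cases hx : volume (fib (M 0 n) g x) = 0
    · have h4 : fib (Dg g c) g x = ∅ := by
        refine Set.eq_empty_of_forall_notMem fun y hy => ?_
        have h5 : volume (fib (M 0 n) g (Function.update x g y)) ≠ 0 := hy.1
        apply h5
        rw [← hx]
        congr 1
        ext t
        simp only [fib, mem_ofPred_eq, Function.update_idem]
      rw [h4, measure_empty, hx]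
    · rw [volume_fib_Dg hn g c x hx]
      simp only [ne_eq, ENNReal.ofReal_eq_zero, not_le, hc, true_iff]
      exact hx
  calc volume (Dg g c) = ∫⁻ x in Dg g c, 1 := by rw [setLIntegral_one]
    _ = ∫⁻ x in cyl (M 0 n) g, 1 * volume (fib (Dg g c) g x) := by rw [h2.2.2, h3]
    _ = ∫⁻ x in cyl (M 0 n) g, ENNReal.ofReal c := by
        refine setLIntegral_congr_fun h1.2.1 fun x hx => ?_
        rw [one_mul, volume_fib_Dg hn g c x hx.2]
    _ = ENNReal.ofReal c * volume (cyl (M 0 n) g) := by rw [setLIntegral_const]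

theorem M_sub_Mc {c : ℝ} (hc : 0 ≤ c) : M 0 n ⊆ Mc n c := fun x hx =>
  ⟨fun e => (hx.1 e).2, fun i j k _ _ _ => (hx.2 i j k).trans (by linarith)⟩

/-- the relaxed polytope is a translate of a multiple of the metric polytope -/
theorem volume_Mc (hn : 3 ≤ n) {c : ℝ} (hc : 0 ≤ c) :
    volume (Mc n c) ≤ ENNReal.ofReal ((1 + c / 2) ^ Fintype.card (Edge n)) * volume (M 0 n) := by
  set r : ℝ := 1 + c / 2 with hr
  have hr0 : 0 < r := by positivity
  set Z : Set (Edge n → ℝ) := ⋃ e, {x | x e = 0} with hZ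
  have hZ0 : volume Z = 0 := by
    rw [hZ, measure_iUnion_null_iff]
    intro e
    exact Measure.pi_hyperplane (fun _ => volume) e 0
  have h1 : Mc n c ⊆ (fun x => x + fun _ => c) ⁻¹' (r • (M 0 n ∪ Z)) := by
    intro x hx
    rw [mem_preimage, Set.mem_smul_set]
    refine ⟨fun e => (x e + c) / r, ?_, ?_⟩
    · by_cases h0 : ∃ e, x e + c = 0
      · obtain ⟨e, he⟩ := h0
        refine Or.inr (mem_iUnion.2 ⟨e, ?_⟩)
        change (x e + c) / r = 0
        rw [he, zero_div]
      · push Not at h0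
        left
        have hext : ∀ i j, i ≠ j → ext 0 (fun e => (x e + c) / r) i j = (ext 0 x i j + c) / r := by
          intro i j hij
          rw [ext_ne _ _ hij, ext_ne _ _ hij]
        have hpos : ∀ i j, i ≠ j → 0 < ext 0 x i j + c := by
          intro i j hij
          obtain ⟨k, hik, hkj⟩ : ∃ k : Fin n, i ≠ k ∧ k ≠ j := by
            have h2 : ((Finset.univ : Finset (Fin n)) \ {i, j}).Nonempty := by
              rw [← Finset.card_pos]
              have h3 := Finset.le_card_sdiff ({i, j} : Finset (Fin n)) Finset.univ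
              have h4 : ({i, j} : Finset (Fin n)).card ≤ 2 := Finset.card_le_two
              rw [Finset.card_univ, Fintype.card_fin] at h3
              omega
            obtain ⟨k, hk⟩ := h2
            rw [Finset.mem_sdiff, Finset.mem_insert, Finset.mem_singleton, not_or] at hk
            exact ⟨k, fun h => hk.2.1 h.symm, hk.2.2⟩
          have h2 := hx.2 i k j hik hij hkj.symm
          have h3 := hx.2 j k i hkj.symm hij.symm hik
          rw [ext_symm 0 x j i] at h3
          rw [ext_symm 0 x j k] at h2 h3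
          have h4 : 0 ≤ ext 0 x i j + c := by linarith
          refine lt_of_le_of_ne h4 fun h5 => h0 (edge i j hij) ?_
          rw [ext_ne _ _ hij] at h5
          exact h5.symm
        refine ⟨fun e => ⟨?_, ?_⟩, fun i j k => ?_⟩
        · have h2 := hpos e.a e.b e.lt.ne
          rw [ext_edge] at h2
          exact div_pos h2 hr0
        · rw [div_le_iff₀ hr0]
          have h2 := hx.1 e
          rw [hr]
          linarith
        · have h0' : ∀ i j, 0 ≤ ext 0 (fun e => (x e + c) / r) i j := by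
            intro i j
            rcases eq_or_ne i j with rfl | hij
            · rw [ext_self]
            · rw [hext i j hij]
              exact (div_pos (hpos i j hij) hr0).le
          rcases eq_or_ne i j with rfl | hij
          · rw [ext_self]
            exact add_nonneg (h0' _ _) (h0' _ _)
          rcases eq_or_ne i k with rfl | hik
          · rw [ext_self, zero_add]
          rcases eq_or_ne k j with rfl | hkj
          · rw [ext_self, add_zero]
          rw [hext i j hij, hext i k hik, hext k j hkj, ← add_div]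
          refine div_le_div_of_nonneg_right ?_ hr0.le
          linarith [hx.2 i j k hij hik hkj]
    · funext e
      change r * ((x e + c) / r) = x e + c
      field_simp
  calc volume (Mc n c) ≤ volume ((fun x => x + fun _ => c) ⁻¹' (r • (M 0 n ∪ Z))) :=
        measure_mono h1
    _ = volume (r • (M 0 n ∪ Z)) := measure_preimage_add_right _ _ _
    _ = ENNReal.ofReal (r ^ Fintype.card (Edge n)) * volume (M 0 n ∪ Z) := by
        rw [Measure.addHaar_smul, Module.finrank_fintype_fun_eq_card,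
          abs_of_nonneg (pow_nonneg hr0.le _)]
    _ ≤ ENNReal.ofReal (r ^ Fintype.card (Edge n)) * volume (M 0 n) := by
        refine mul_le_mul_right ?_ _
        refine (measure_union_le _ _).trans ?_
        rw [hZ0, add_zero]

end Sets

/-! ### The inequality for the sum -/

section Sum

variable {n : ℕ}

theorem sum_Dg (hV : StVol) (hF : StFubB) (e : Edge n) {c : ℝ} (hc : 0 ≤ c) :
    ∑ g : Edge n, volume (Dg g c) ≤ 2 * volume (Mc n c \ M 0 n) := by
  classical
  have hM := (hV 0 n le_rfl zero_lt_one).1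
  have h1 : ∑ g : Edge n, volume (Dg g c) =
      ∫⁻ x, ∑ g : Edge n, (Dg g c).indicator (fun _ => (1 : ENNReal)) x := by
    rw [lintegral_finsetSum]
    · refine Finset.sum_congr rfl fun g _ => ?_
      rw [lintegral_indicator (measurableSet_Dg hV hF g c), setLIntegral_one]
    · intro g _
      exact measurable_const.indicator (measurableSet_Dg hV hF g c)
  have h2 : 2 * volume (Mc n c \ M 0 n) =
      ∫⁻ x, (Mc n c \ M 0 n).indicator (fun _ => (2 : ENNReal)) x := by
    rw [lintegral_indicator ((measurableSet_Mc c).diff hM), setLIntegral_const]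
  rw [h1, h2]
  refine lintegral_mono fun x => ?_
  by_cases hx : x ∈ Mc n c \ M 0 n
  · rw [indicator_of_mem hx]
    obtain ⟨a, b, hab⟩ := two_sets e x c
    calc ∑ g : Edge n, (Dg g c).indicator (fun _ => (1 : ENNReal)) x
        ≤ ∑ g : Edge n, if g ∈ ({a, b} : Finset (Edge n)) then (1 : ENNReal) else 0 := by
          refine Finset.sum_le_sum fun g _ => ?_
          by_cases hg : x ∈ Dg g c
          · have h3 : g ∈ ({a, b} : Finset (Edge n)) := by
              rw [Finset.mem_insert, Finset.mem_singleton]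
              exact hab g hg
            rw [indicator_of_mem hg, if_pos h3]
          · rw [indicator_of_notMem hg]
            exact zero_le
      _ = (({a, b} : Finset (Edge n)).card : ENNReal) := by
          rw [Finset.sum_ite_mem, Finset.univ_inter, Finset.sum_const, nsmul_eq_mul, mul_one]
      _ ≤ 2 := by exact_mod_cast Finset.card_le_two
  · rw [indicator_of_notMem hx]
    refine le_of_eq (Finset.sum_eq_zero fun g _ => ?_)
    rw [indicator_of_notMem]
    exact fun h => hx ⟨Dg_sub_Mc hc h, notMem_of_Dg h⟩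

theorem real_ineq (hV : StVol) (hF : StFubB) (hn : 3 ≤ n) (e : Edge n) {c : ℝ} (hc : 0 < c) :
    c * ∑ g : Edge n, vol (cyl (M 0 n) g) ≤
      2 * vol (M 0 n) * ((1 + c / 2) ^ Fintype.card (Edge n) - 1) := by
  obtain ⟨hM, _, hfin, h1⟩ := hV 0 n le_rfl zero_lt_one
  set V := vol (M 0 n) with hVd
  set N := Fintype.card (Edge n)
  set r : ℝ := (1 + c / 2) ^ N with hr
  have hr1 : 1 ≤ r := one_le_pow₀ (by linarith)
  have hVm : volume (M 0 n) = ENNReal.ofReal V := (ENNReal.ofReal_toReal hfin).symm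
  have hMc := volume_Mc hn hc.le
  rw [hVm, ← hr, ← ENNReal.ofReal_mul (by linarith)] at hMc
  have hv : ∀ g : Edge n, ENNReal.ofReal c * volume (cyl (M 0 n) g) =
      ENNReal.ofReal (c * vol (cyl (M 0 n) g)) := by
    intro g
    have h2 := volume_Dg hV hF hn g hc
    have h3 : volume (Dg g c) < ⊤ :=
      ((measure_mono (Dg_sub_Mc hc.le)).trans hMc).trans_lt ENNReal.ofReal_lt_top
    have h4 : volume (cyl (M 0 n) g) ≠ ⊤ := by
      intro h5
      rw [h2, h5, ENNReal.mul_top (by simpa using hc)] at h3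
      exact lt_irrefl _ h3
    rw [ENNReal.ofReal_mul hc.le, vol, ENNReal.ofReal_toReal h4]
  have h2 := sum_Dg hV hF e hc.le
  rw [measure_sdiff (M_sub_Mc hc.le) hM.nullMeasurableSet hfin] at h2
  simp only [volume_Dg hV hF hn _ hc, hv] at h2
  have hnn : ∀ g ∈ (Finset.univ : Finset (Edge n)), 0 ≤ c * vol (cyl (M 0 n) g) :=
    fun g _ => mul_nonneg hc.le ENNReal.toReal_nonneg
  rw [← ENNReal.ofReal_sum_of_nonneg hnn] at h2
  have h3 : 2 * (volume (Mc n c) - volume (M 0 n)) ≤ ENNReal.ofReal (2 * (r * V - V)) := by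
    rw [ENNReal.ofReal_mul (by norm_num), ENNReal.ofReal_ofNat, ENNReal.ofReal_sub _ (by linarith),
      ← hVm]
    exact mul_le_mul_right (tsub_le_tsub_right hMc _) _
  have h4 := h2.trans h3
  rw [ENNReal.ofReal_le_ofReal_iff, ← Finset.mul_sum] at h4
  · linarith
  · have h5 : V ≤ r * V := le_mul_of_one_le_left (by linarith) hr1
    linarith

theorem sum_le (hV : StVol) (hF : StFubB) (hn : 3 ≤ n) (e : Edge n) :
    ∑ g : Edge n, vol (cyl (M 0 n) g) ≤ Fintype.card (Edge n) * vol (M 0 n) := by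
  set N := Fintype.card (Edge n)
  have h1 : HasDerivAt (fun c : ℝ => (1 + c / 2) ^ N) (N / 2) 0 := by
    have h2 := (((hasDerivAt_id (0 : ℝ)).div_const 2).const_add 1).pow N
    have h3 : (N : ℝ) * (1 + id 0 / 2) ^ (N - 1) * (1 / 2) = N / 2 := by
      rw [id, zero_div, add_zero, one_pow]
      ring
    rw [h3] at h2
    exact h2
  have h2 := (hasDerivAt_iff_tendsto_slope_zero.1 h1).mono_left
    (nhdsGT_le_nhdsNE (0 : ℝ))
  have h3 : Filter.Tendsto (fun t : ℝ => 2 * vol (M 0 n) *
      (t⁻¹ • ((1 + (0 + t) / 2) ^ N - (1 + (0 : ℝ) / 2) ^ N))) (nhdsWithin 0 (Ioi 0))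
      (nhds (2 * vol (M 0 n) * (N / 2))) := h2.const_mul _
  have h4 : 2 * vol (M 0 n) * ((N : ℝ) / 2) = N * vol (M 0 n) := by ring
  rw [h4] at h3
  refine ge_of_tendsto h3 ?_
  filter_upwards [self_mem_nhdsWithin] with t ht
  have ht' : 0 < t := ht
  have h5 := real_ineq hV hF hn e ht'
  rw [zero_add, zero_div, add_zero, one_pow, smul_eq_mul]
  have h6 : 2 * vol (M 0 n) * (t⁻¹ * ((1 + t / 2) ^ N - 1)) =
      (2 * vol (M 0 n) * ((1 + t / 2) ^ N - 1)) / t := by
    field_simp
  rw [h6, le_div_iff₀ ht', mul_comm]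
  exact h5

end Sum

/-! ### Symmetry -/

section Symm

variable {n : ℕ}

theorem edge_inj {i j k l : Fin n} (h : i ≠ j) (h' : k ≠ l) :
    edge i j h = edge k l h' ↔ (i = k ∧ j = l) ∨ (i = l ∧ j = k) := by
  rcases lt_or_gt_of_ne h' with h1 | h1
  · have e : edge k l h' = ⟨k, l, h1⟩ := by simp [edge, h1]
    rw [e, edge_eq_iff]
  · have e : edge k l h' = ⟨l, k, h1⟩ := by simp [edge, not_lt.2 h1.le]
    rw [e, edge_eq_iff]
    exact or_comm

/-- the permutation of the edges of a permutation of the vertices -/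
noncomputable def sg (π : Equiv.Perm (Fin n)) : Edge n ≃ Edge n :=
  Equiv.ofBijective (fun e => edge (π e.a) (π e.b) (π.injective.ne e.lt.ne)) (by
    rw [← Finite.injective_iff_bijective]
    intro e f h
    have h1 := (edge_inj _ _).1 h
    rw [π.injective.eq_iff, π.injective.eq_iff, π.injective.eq_iff, π.injective.eq_iff] at h1
    rcases h1 with ⟨h2, h3⟩ | ⟨h2, h3⟩
    · exact Edge.ext h2 h3
    · have h4 := e.lt
      have h5 := f.lt
      rw [h2, h3] at h4
      exact absurd h4 (not_lt.2 h5.le))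

theorem sg_apply (π : Equiv.Perm (Fin n)) (e : Edge n) :
    sg π e = edge (π e.a) (π e.b) (π.injective.ne e.lt.ne) := rfl

theorem sg_edge (π : Equiv.Perm (Fin n)) {i j : Fin n} (h : i ≠ j) :
    sg π (edge i j h) = edge (π i) (π j) (π.injective.ne h) := by
  rw [sg_apply, edge_inj]
  rcases lt_or_gt_of_ne h with h' | h'
  · simp [edge, h']
  · simp [edge, not_lt.2 h'.le]

theorem ext_sg (π : Equiv.Perm (Fin n)) (x : Edge n → ℝ) (i j : Fin n) :
    ext 0 (fun e => x (sg π e)) i j = ext 0 x (π i) (π j) := by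
  rcases eq_or_ne i j with rfl | h
  · rw [ext_self, ext_self]
  · rw [ext_ne _ _ h, ext_ne _ _ (π.injective.ne h), sg_edge]

theorem M_sg (π : Equiv.Perm (Fin n)) (x : Edge n → ℝ) :
    (fun e => x (sg π e)) ∈ M 0 n ↔ x ∈ M 0 n := by
  have h1 : (∀ e, 0 < x (sg π e) ∧ x (sg π e) ≤ 2) ↔ ∀ e, 0 < x e ∧ x e ≤ 2 :=
    ((sg π).surjective.forall (p := fun e => 0 < x e ∧ x e ≤ 2)).symm
  have h2 : (∀ i j k, ext 0 x (π i) (π j) ≤ ext 0 x (π i) (π k) + ext 0 x (π k) (π j)) ↔
      ∀ i j k, ext 0 x i j ≤ ext 0 x i k + ext 0 x k j :=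
    (π.surjective.forall₃ (p := fun i j k => ext 0 x i j ≤ ext 0 x i k + ext 0 x k j)).symm
  change (_ ∧ _) ↔ (_ ∧ _)
  simp only [ext_sg]
  rw [h1, h2]

theorem exists_perm {e e' : Edge n} : ∃ π : Equiv.Perm (Fin n), sg π e' = e := by
  refine ⟨(Equiv.swap e'.a e.a).trans (Equiv.swap (Equiv.swap e'.a e.a e'.b) e.b), ?_⟩
  have h1 : Equiv.swap e'.a e.a e'.b ≠ e.a := by
    intro h
    have h2 : Equiv.swap e'.a e.a e'.b = Equiv.swap e'.a e.a e'.a := by
      rw [h, Equiv.swap_apply_left]
    exact e'.lt.ne ((Equiv.swap e'.a e.a).injective h2).symm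
  rw [sg_apply, edge_eq_iff]
  left
  constructor
  · rw [Equiv.trans_apply, Equiv.swap_apply_left, Equiv.swap_apply_of_ne_of_ne h1.symm e.lt.ne]
  · rw [Equiv.trans_apply, Equiv.swap_apply_left]

theorem cyl_symm (e e' : Edge n) :
    volume (cyl (M 0 n) e) = volume (cyl (M 0 n) e') := by
  obtain ⟨π, hπ⟩ := exists_perm (e := e) (e' := e')
  have h1 := (volume_measurePreserving_piCongrLeft (fun _ : Edge n => ℝ)
    (sg π)).measure_preimage_equiv (cyl (M 0 n) e)
  rw [← h1]
  congr 1
  ext x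
  have h2 : ∀ z : Edge n → ℝ, MeasurableEquiv.piCongrLeft (fun _ : Edge n => ℝ) (sg π) z =
      fun f => z ((sg π).symm f) := by
    intro z
    funext f
    obtain ⟨f', rfl⟩ := (sg π).surjective f
    rw [Equiv.symm_apply_apply, MeasurableEquiv.piCongrLeft_apply_apply]
  have h3 : (sg π).symm e = e' := by rw [← hπ, Equiv.symm_apply_apply]
  rw [mem_preimage, h2]
  change (x ((sg π).symm e) ∈ Ioo (0 : ℝ) 1 ∧ volume (fib (M 0 n) e fun f => x ((sg π).symm f)) ≠ 0)
    ↔ (x e' ∈ Ioo (0 : ℝ) 1 ∧ volume (fib (M 0 n) e' x) ≠ 0)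
  have h4 : fib (M 0 n) e (fun f => x ((sg π).symm f)) = fib (M 0 n) e' x := by
    ext y
    change Function.update (fun f => x ((sg π).symm f)) e y ∈ M 0 n ↔
      Function.update x e' y ∈ M 0 n
    rw [← M_sg π]
    have h5 : (fun f => Function.update (fun f => x ((sg π).symm f)) e y (sg π f)) =
        Function.update x e' y := by
      funext f
      by_cases hf : f = e'
      · rw [hf, hπ, Function.update_self, Function.update_self]
      · rw [Function.update_of_ne hf, Function.update_of_ne, Equiv.symm_apply_apply]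
        intro h6
        rw [← hπ] at h6
        exact hf ((sg π).injective h6)
    rw [h5]
  rw [h3, h4]

end Symm

end ProjAux

/-- A4: the projection of the metric polytope has at most the volume of the polytope -/
theorem stProj (hV : StVol) (hF : StFubB) : StProj := by
  intro n e hn
  have h1 := ProjAux.sum_le hV hF hn e
  have h2 : ∀ g : Edge n, vol (cyl (M 0 n) g) = vol (cyl (M 0 n) e) := fun g => by
    rw [vol, ProjAux.cyl_symm g e, vol]
  rw [Finset.sum_congr rfl fun g _ => h2 g, Finset.sum_const, Finset.card_univ,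
    nsmul_eq_mul] at h1
  have h3 := card_edge_pos (n := n) (by omega)
  exact le_of_mul_le_mul_left h1 h3

end Pool.Agent.Lib.MP_193d8d_pr
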