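import Pool.Agent.Lib.MP_193d8d_pr.StA
import Pool.Agent.Lib.MP_193d8d_pr.Base

/-!
Project MF, module Sharp: cutting the distances below `9/10`.
-/

set_option autoImplicit false
open MeasureTheory Set

namespace Pool.Agent.Lib.MP_193d8d_pr

namespace SharpAux

theorem card_edge_le (n : ℕ) : (Fintype.card (Edge n) : ℝ) ≤ (n : ℝ) ^ 2 := by
  have h : Fintype.card (Edge n) ≤ n ^ 2 := by
    have h1 : Fintype.card (Edge n) ≤ Fintype.card (Fin n × Fin n) := by
      refine Fintype.card_le_of_injective (fun e : Edge n => (e.a, e.b)) ?_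
      intro e f h
      rw [Prod.mk.injEq] at h
      exact Edge.ext h.1 h.2
    rwa [Fintype.card_prod, Fintype.card_fin, ← sq] at h1
  exact_mod_cast h

/-- the union bound -/
theorem vol_le (n : ℕ) (hfin : volume (M 0 n) ≠ ⊤) :
    vol (M 0 n) ≤ vol (M (9 / 10) n) +
      ∑ e : Edge n, vol {x | x ∈ M 0 n ∧ 0 < x e ∧ x e ≤ 9 / 10} := by
  have hsub : ∀ e : Edge n, {x | x ∈ M 0 n ∧ 0 < x e ∧ x e ≤ 9 / 10} ⊆ M 0 n :=
    fun e x hx => hx.1
  have hM : M (9 / 10) n ⊆ M 0 n := by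
    rintro x ⟨h1, h2⟩
    exact ⟨fun e => ⟨by linarith [(h1 e).1], (h1 e).2⟩, h2⟩
  have hcov : M 0 n ⊆ M (9 / 10) n ∪
      ⋃ e ∈ (Finset.univ : Finset (Edge n)), {x | x ∈ M 0 n ∧ 0 < x e ∧ x e ≤ 9 / 10} := by
    intro x hx
    by_cases h : x ∈ M (9 / 10) n
    · exact Or.inl h
    · right
      have h1 : ∃ e : Edge n, x e ≤ 9 / 10 := by
        by_contra hcon
        push Not at hcon
        exact h ⟨fun e => ⟨hcon e, (hx.1 e).2⟩, hx.2⟩
      obtain ⟨e, he⟩ := h1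
      simp only [mem_iUnion]
      exact ⟨e, Finset.mem_univ e, hx, (hx.1 e).1, he⟩
  have hu : (M (9 / 10) n ∪
      ⋃ e ∈ (Finset.univ : Finset (Edge n)), {x | x ∈ M 0 n ∧ 0 < x e ∧ x e ≤ 9 / 10}) ⊆
      M 0 n := by
    refine union_subset hM ?_
    exact iUnion₂_subset fun e _ => hsub e
  have h1 : (volume : Measure (Edge n → ℝ)).real (M 0 n) ≤ _ :=
    measureReal_mono hcov (measure_ne_top_of_subset hu hfin)
  have h2 := h1.trans (measureReal_union_le _ _)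
  refine h2.trans (add_le_add le_rfl ?_)
  exact measureReal_biUnion_finset_le _ _

/-- elementary asymptotics -/
theorem exists_n0 (C : ℝ) : ∃ n0 : ℕ, ∀ n : ℕ, n0 ≤ n → 3 ≤ n ∧ 8 * C ≤ Real.sqrt n ∧
    (0 < C → 2 * (n : ℝ) ^ 4 * Real.exp (-(Real.sqrt n / (120 * C))) ≤ 1) := by
  have hs : Filter.Tendsto (fun n : ℕ => Real.sqrt n) Filter.atTop Filter.atTop :=
    Real.tendsto_sqrt_atTop.comp tendsto_natCast_atTop_atTop
  have h1 : ∀ᶠ n : ℕ in Filter.atTop, 8 * C ≤ Real.sqrt n := hs.eventually_ge_atTop _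
  have h2 : ∀ᶠ n : ℕ in Filter.atTop,
      (0 < C → 2 * (n : ℝ) ^ 4 * Real.exp (-(Real.sqrt n / (120 * C))) ≤ 1) := by
    by_cases hC : 0 < C
    · have h3 : Filter.Tendsto (fun n : ℕ => Real.sqrt n / (120 * C)) Filter.atTop
          Filter.atTop := hs.atTop_div_const (by positivity)
      have h4 := (Real.tendsto_pow_mul_exp_neg_atTop_nhds_zero 8).comp h3
      have h5 : (0 : ℝ) < 1 / (2 * (120 * C) ^ 8) := by positivity
      filter_upwards [h4.eventually (ge_mem_nhds h5)] with n hn _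
      have h6 : (Real.sqrt n / (120 * C)) ^ 8 * Real.exp (-(Real.sqrt n / (120 * C))) ≤
          1 / (2 * (120 * C) ^ 8) := hn
      have h7 : (n : ℝ) ^ 4 = (120 * C) ^ 8 * (Real.sqrt n / (120 * C)) ^ 8 := by
        rw [div_pow, mul_div_cancel₀ _ (by positivity)]
        rw [show (8 : ℕ) = 2 * 4 from rfl, pow_mul, Real.sq_sqrt (Nat.cast_nonneg n)]
      rw [h7]
      calc 2 * ((120 * C) ^ 8 * (Real.sqrt n / (120 * C)) ^ 8) *
            Real.exp (-(Real.sqrt n / (120 * C))) =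
            2 * (120 * C) ^ 8 * ((Real.sqrt n / (120 * C)) ^ 8 *
              Real.exp (-(Real.sqrt n / (120 * C)))) := by ring
        _ ≤ 2 * (120 * C) ^ 8 * (1 / (2 * (120 * C) ^ 8)) :=
            mul_le_mul_of_nonneg_left h6 (by positivity)
        _ = 1 := by
            rw [mul_one_div, div_self (by positivity)]
    · exact Filter.Eventually.of_forall fun n h => absurd h hC
  obtain ⟨n0, hn0⟩ := Filter.eventually_atTop.1
    ((Filter.eventually_ge_atTop 3).and (h1.and h2))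
  exact ⟨n0, hn0⟩

/-- the part with a small coordinate -/
theorem small (h1 : StVol) (h2 : StDens) (h3 : StDensLe) (h4 : StDensLC) (h5 : StOneD) {n : ℕ}
    (hn : 3 ≤ n) (e : Edge n) (hw : wt 0 n e ≤ 1 / 8) : 0 < wt 0 n e ∧
      vol {x | x ∈ M 0 n ∧ 0 < x e ∧ x e ≤ 9 / 10} ≤
        2 * Real.exp (-(1 / (120 * wt 0 n e))) * vol (M 0 n) := by
  obtain ⟨-, -, hfin, hv1⟩ := h1 0 n le_rfl one_pos
  have hv : 0 < vol (M 0 n) := by linarith
  obtain ⟨hc, h0, hpos, -, hint⟩ := h2 0 n e le_rfl one_pos hn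
  have hw1 : (∫ t in (0 : ℝ)..1, dens 0 n e t) = wt 0 n e := by
    rw [← (hint 0 1 le_rfl zero_le_one one_le_two).2, wt]
    congr 2
    ext x
    simp only [mem_ofPred_eq]
    exact ⟨fun h => ⟨h.1, h.2.2⟩, fun h => ⟨h.1, (h.1.1 e).1, h.2⟩⟩
  have hw2 : (∫ t in (0 : ℝ)..2, dens 0 n e t) = 1 := by
    rw [← (hint 0 2 le_rfl zero_le_two le_rfl).2]
    have : {x | x ∈ M 0 n ∧ 0 < x e ∧ x e ≤ 2} = M 0 n := by
      ext x
      simp only [mem_ofPred_eq]
      exact ⟨fun h => h.1, fun h => ⟨h, (h.1 e).1, (h.1 e).2⟩⟩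
    rw [this, div_self hv.ne']
  have hwpos : 0 < wt 0 n e := by
    rw [← hw1]
    refine intervalIntegral.intervalIntegral_pos_of_pos_on
      (hint 0 1 le_rfl zero_le_one one_le_two).1 ?_ one_pos
    intro t ht
    exact hpos t ⟨ht.1, ht.2.trans one_lt_two⟩
  refine ⟨hwpos, ?_⟩
  obtain ⟨hexp, -⟩ := h5 (dens 0 n e) hc (fun t ht => ⟨hpos t ht, h3 n e hn t ht⟩) (h4 n e hn)
    hw2 (by rw [hw1]; exact hw)
  rw [hw1] at hexp
  have hb : ∀ t ∈ uIoc (0 : ℝ) (9 / 10), ‖dens 0 n e t‖ ≤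
      2 * Real.exp (-(1 / (120 * wt 0 n e))) := by
    intro t ht
    rw [uIoc_of_le (by norm_num)] at ht
    rw [Real.norm_of_nonneg (h0 t)]
    have h6 := hexp (1 - t) ⟨by linarith [ht.2], by linarith [ht.1]⟩
    rw [sub_sub_cancel] at h6
    refine h6.trans (mul_le_mul_of_nonneg_left (Real.exp_le_exp.2 (neg_le_neg ?_)) zero_le_two)
    rw [div_le_div_iff₀ (by positivity) (by positivity)]
    have h7 : 1 / 10 ≤ 1 - t := by linarith [ht.2]
    have h8 : 1 / 10 * (120 * wt 0 n e) ≤ (1 - t) * (120 * wt 0 n e) :=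
      mul_le_mul_of_nonneg_right h7 (by positivity)
    linarith
  have hI := intervalIntegral.norm_integral_le_of_norm_le_const hb
  rw [← (hint 0 (9 / 10) le_rfl (by norm_num) (by norm_num)).2] at hI
  have hI2 := (le_abs_self _).trans hI
  rw [div_le_iff₀ hv] at hI2
  refine hI2.trans (mul_le_mul_of_nonneg_right ?_ hv.le)
  have h9 : |(9 / 10 : ℝ) - 0| ≤ 1 := by norm_num [abs_of_pos]
  have h10 : 0 ≤ 2 * Real.exp (-(1 / (120 * wt 0 n e))) := by positivity
  exact mul_le_of_le_one_right h10 h9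

end SharpAux

open SharpAux

/-- A13: cutting the distances below 9/10 -/
theorem stSharp (h1 : StVol) (h2 : StDens) (h3 : StDensLe) (h4 : StDensLC) (h5 : StOneD) :
    StSharp := by
  rintro ⟨C, hC⟩
  obtain ⟨n0, hn0⟩ := exists_n0 C
  refine ⟨n0, fun n hn => ?_⟩
  obtain ⟨hn3, hs, hlim⟩ := hn0 n hn
  obtain ⟨-, -, hfin, hv1⟩ := h1 0 n le_rfl one_pos
  have hv : 0 < vol (M 0 n) := by linarith
  have hnpos : (0 : ℝ) < n := by
    have : 0 < n := by omega
    exact_mod_cast this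
  have hsq : 0 < Real.sqrt n := Real.sqrt_pos.2 hnpos
  have hsmall : ∀ e : Edge n, vol {x | x ∈ M 0 n ∧ 0 < x e ∧ x e ≤ 9 / 10} ≤
      1 / (n : ℝ) ^ 4 * vol (M 0 n) := by
    intro e
    have hw8 : wt 0 n e ≤ 1 / 8 := by
      have h6 := (hC n e hn3).trans (show C ≤ Real.sqrt n / 8 by linarith)
      have h7 : wt 0 n e * Real.sqrt n ≤ 1 / 8 * Real.sqrt n := by linarith
      exact le_of_mul_le_mul_right h7 hsq
    obtain ⟨hw, hle⟩ := small h1 h2 h3 h4 h5 hn3 e hw8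
    have hCpos : 0 < C := (mul_pos hw hsq).trans_le (hC n e hn3)
    refine hle.trans (mul_le_mul_of_nonneg_right ?_ hv.le)
    have h8 : Real.sqrt n / (120 * C) ≤ 1 / (120 * wt 0 n e) := by
      rw [div_le_div_iff₀ (by positivity) (by positivity)]
      have := hC n e hn3
      nlinarith
    have h9 := hlim hCpos
    rw [le_div_iff₀ (by positivity)]
    calc 2 * Real.exp (-(1 / (120 * wt 0 n e))) * (n : ℝ) ^ 4 ≤
          2 * Real.exp (-(Real.sqrt n / (120 * C))) * (n : ℝ) ^ 4 := by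
          refine mul_le_mul_of_nonneg_right ?_ (by positivity)
          exact mul_le_mul_of_nonneg_left (Real.exp_le_exp.2 (neg_le_neg h8)) zero_le_two
      _ = 2 * (n : ℝ) ^ 4 * Real.exp (-(Real.sqrt n / (120 * C))) := by ring
      _ ≤ 1 := h9
  have hsum : ∑ e : Edge n, vol {x | x ∈ M 0 n ∧ 0 < x e ∧ x e ≤ 9 / 10} ≤
      1 / (n : ℝ) ^ 2 * vol (M 0 n) := by
    calc ∑ e : Edge n, vol {x | x ∈ M 0 n ∧ 0 < x e ∧ x e ≤ 9 / 10} ≤
          ∑ _e : Edge n, 1 / (n : ℝ) ^ 4 * vol (M 0 n) := Finset.sum_le_sum fun e _ => hsmall e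
      _ = (Fintype.card (Edge n) : ℝ) * (1 / (n : ℝ) ^ 4 * vol (M 0 n)) := by
          rw [Finset.sum_const, Finset.card_univ, nsmul_eq_mul]
      _ ≤ (n : ℝ) ^ 2 * (1 / (n : ℝ) ^ 4 * vol (M 0 n)) :=
          mul_le_mul_of_nonneg_right (card_edge_le n) (by positivity)
      _ = _ := by
          field_simp
  have := vol_le n hfin
  rw [sub_mul, one_mul]
  linarith

end Pool.Agent.Lib.MP_193d8d_pr
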