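import Pool.Agent.Lib.MP_193d8d_pr.StA
import Pool.Agent.Lib.MP_193d8d_pr.Base

set_option autoImplicit false
open MeasureTheory Set

/-! # A8: the symmetry of the metric polytope -/

namespace Pool.Agent.Lib.MP_193d8d_pr

namespace SymAux

variable {n : ℕ}

/-- the image of an edge under a map of the vertices -/
noncomputable def mv (π : Equiv.Perm (Fin n)) (f : Edge n) : Edge n :=
  edge (π f.a) (π f.b) (fun h => f.lt.ne (π.injective h))

theorem ext_mv {α : Type*} (d : α) (π : Equiv.Perm (Fin n)) (x : Edge n → α) (f : Edge n) :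
    x (mv π f) = ext d x (π f.a) (π f.b) :=
  (ext_ne d x _).symm

theorem ext_comp_mv {α : Type*} (d : α) (π : Equiv.Perm (Fin n)) (x : Edge n → α) (i j : Fin n) :
    ext d (fun f => x (mv π f)) i j = ext d x (π i) (π j) := by
  rcases lt_trichotomy i j with h | h | h
  · rw [ext_of_lt d _ h]
    exact ext_mv d π x _
  · subst h
    rw [ext_self, ext_self]
  · rw [ext_of_gt d _ h, ext_symm d x]
    exact ext_mv d π x _

/-- two edges with the same ends -/
theorem edge_eq_of {f g : Edge n} (h : (f.a = g.a ∧ f.b = g.b) ∨ (f.a = g.b ∧ f.b = g.a)) :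
    f = g := by
  rcases h with ⟨h1, h2⟩ | ⟨h1, h2⟩
  · exact Edge.ext h1 h2
  · exact absurd f.lt (by rw [h1, h2]; exact not_lt.2 g.lt.le)

theorem edge_ends (i j : Fin n) (h : i ≠ j) :
    ((edge i j h).a = i ∧ (edge i j h).b = j) ∨ ((edge i j h).a = j ∧ (edge i j h).b = i) := by
  unfold edge
  split_ifs with h'
  · exact Or.inl ⟨rfl, rfl⟩
  · exact Or.inr ⟨rfl, rfl⟩

theorem mv_mv (π ρ : Equiv.Perm (Fin n)) (h : ∀ i, π (ρ i) = i) (f : Edge n) :
    mv π (mv ρ f) = f := by
  apply edge_eq_of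
  have h1 := edge_ends (ρ f.a) (ρ f.b) (fun h => f.lt.ne (ρ.injective h))
  have h2 := edge_ends (π (mv ρ f).a) (π (mv ρ f).b) (fun h => (mv ρ f).lt.ne (π.injective h))
  change ((mv ρ f).a = _ ∧ (mv ρ f).b = _) ∨ ((mv ρ f).a = _ ∧ (mv ρ f).b = _) at h1
  change ((mv π (mv ρ f)).a = _ ∧ (mv π (mv ρ f)).b = _) ∨
    ((mv π (mv ρ f)).a = _ ∧ (mv π (mv ρ f)).b = _) at h2
  rcases h1 with ⟨h1, h1'⟩ | ⟨h1, h1'⟩ <;> rcases h2 with ⟨h2, h2'⟩ | ⟨h2, h2'⟩ <;>
    rw [h1, h] at * <;> rw [h1', h] at * <;> simp_all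

/-- the permutation of the edges -/
noncomputable def sg (π : Equiv.Perm (Fin n)) : Equiv.Perm (Edge n) where
  toFun := mv π
  invFun := mv π⁻¹
  left_inv := mv_mv _ _ (fun i => by simp)
  right_inv := mv_mv _ _ (fun i => by simp)

/-- the permutation of the coordinates -/
noncomputable def ph (π : Equiv.Perm (Fin n)) : (Edge n → ℝ) ≃ᵐ (Edge n → ℝ) :=
  MeasurableEquiv.piCongrLeft (fun _ => ℝ) (sg π).symm

theorem ph_apply (π : Equiv.Perm (Fin n)) (x : Edge n → ℝ) (f : Edge n) :
    ph π x f = x (mv π f) := by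
  have h := Equiv.piCongrLeft_apply_apply (fun _ : Edge n => ℝ) (sg π).symm x (mv π f)
  have h2 : (sg π).symm (mv π f) = f := (sg π).symm_apply_apply f
  rw [h2] at h
  exact h

theorem ph_mp (π : Equiv.Perm (Fin n)) : MeasurePreserving (ph π) volume volume :=
  volume_measurePreserving_piCongrLeft (fun _ => ℝ) (sg π).symm

theorem ph_ext (π : Equiv.Perm (Fin n)) (x : Edge n → ℝ) (i j : Fin n) :
    ext 0 (ph π x) i j = ext 0 x (π i) (π j) := by
  rw [← ext_comp_mv]
  congr 1
  funext f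
  exact ph_apply π x f

theorem ph_mem (κ : ℝ) (π : Equiv.Perm (Fin n)) (x : Edge n → ℝ) : ph π x ∈ M κ n ↔ x ∈ M κ n := by
  constructor
  · rintro ⟨h1, h2⟩
    refine ⟨fun f => ?_, fun i j k => ?_⟩
    · have := h1 ((sg π).symm f)
      rw [ph_apply] at this
      have h3 : mv π ((sg π).symm f) = f := (sg π).apply_symm_apply f
      rwa [h3] at this
    · have := h2 (π⁻¹ i) (π⁻¹ j) (π⁻¹ k)
      rw [ph_ext, ph_ext, ph_ext] at this
      simpa using this
  · rintro ⟨h1, h2⟩
    refine ⟨fun f => ?_, fun i j k => ?_⟩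
    · rw [ph_apply]
      exact h1 _
    · rw [ph_ext, ph_ext, ph_ext]
      exact h2 _ _ _

/-- there is a permutation which moves an edge to another edge -/
theorem exists_perm (e e' : Edge n) : ∃ π : Equiv.Perm (Fin n), mv π e = e' := by
  obtain ⟨π, h1, h2⟩ : ∃ π : Equiv.Perm (Fin n), π e.a = e'.a ∧ π e.b = e'.b := by
    refine ⟨(Equiv.swap (Equiv.swap e.a e'.a e.b) e'.b) * (Equiv.swap e.a e'.a), ?_, ?_⟩
    · rw [Equiv.Perm.mul_apply, Equiv.swap_apply_left]
      apply Equiv.swap_apply_of_ne_of_ne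
      · intro h
        have h3 : Equiv.swap e.a e'.a e.a = Equiv.swap e.a e'.a e.b := by
          rw [Equiv.swap_apply_left]
          exact h
        exact e.lt.ne ((Equiv.swap e.a e'.a).injective h3)
      · exact e'.lt.ne
    · rw [Equiv.Perm.mul_apply, Equiv.swap_apply_left]
  refine ⟨π, ?_⟩
  have h3 := edge_ends (π e.a) (π e.b) (fun h => e.lt.ne (π.injective h))
  apply edge_eq_of
  change ((mv π e).a = _ ∧ (mv π e).b = _) ∨ ((mv π e).a = _ ∧ (mv π e).b = _) at h3
  rwa [h1, h2] at h3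

end SymAux

open SymAux in
/-- A8 -/
theorem stSym : StSym := by
  intro κ n e e'
  obtain ⟨π, hπ⟩ := exists_perm e e'
  have hval : ∀ x : Edge n → ℝ, ph π x e = x e' := by
    intro x
    rw [ph_apply, hπ]
  have hupd : ∀ (x : Edge n → ℝ) (t : ℝ), ph π (Function.update x e' t) =
      Function.update (ph π x) e t := by
    intro x t
    funext f
    rw [ph_apply]
    by_cases h : f = e
    · subst h
      rw [hπ, Function.update_self, Function.update_self]
    · rw [Function.update_of_ne h, ph_apply, Function.update_of_ne]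
      intro h'
      apply h
      rw [← hπ] at h'
      exact (sg π).injective h'
  refine ⟨fun t => ?_, ?_, fun φ => ?_⟩
  · unfold dens vol
    have h : slice (M κ n) e' t = ph π ⁻¹' (slice (M κ n) e t) := by
      ext x
      unfold slice
      rw [mem_preimage, mem_ofPred_eq, mem_ofPred_eq, hval, ← hupd, ph_mem]
    rw [h, (ph_mp π).measure_preimage_equiv]
  · unfold wt vol
    have h : {x | x ∈ M κ n ∧ x e' ≤ 1} = ph π ⁻¹' {x | x ∈ M κ n ∧ x e ≤ 1} := by
      ext x
      rw [mem_preimage, mem_ofPred_eq, mem_ofPred_eq, hval, ph_mem]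
    rw [h, (ph_mp π).measure_preimage_equiv]
  · unfold mean
    have h : M κ n = ph π ⁻¹' (M κ n) := by
      ext x
      rw [mem_preimage, ph_mem]
    have h2 := (ph_mp π).setIntegral_preimage_emb (ph π).measurableEmbedding
      (fun x : Edge n → ℝ => φ (x e)) (M κ n)
    rw [← h] at h2
    simp only [hval] at h2
    rw [← h2]

end Pool.Agent.Lib.MP_193d8d_pr
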