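import Pool.Agent.Lib.MP_193d8d_pr.StA
import Pool.Agent.Lib.MP_193d8d_pr.Base

set_option autoImplicit false
open MeasureTheory Set

namespace Pool.Agent.Lib.MP_193d8d_pr

/-! # B5: tightness -/

namespace TightAux

/-! ## levels -/

theorem lev_zero (ε δ : ℝ) (J m : ℕ) : lev ε δ J m 0 = 0 := by simp [lev]

theorem lev_low (ε δ : ℝ) (J : ℕ) {h : ℕ} (h0 : h ≠ 0) (h1 : h ≤ J + 1) :
    lev ε δ J 0 h = ε * δ * (1 / 2) ^ (J + 1 - h) := by simp [lev, h0, h1]

theorem lev_main (ε δ : ℝ) (J : ℕ) : lev ε δ J 0 (J + 1) = ε * δ := by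
  rw [lev_low ε δ J (Nat.succ_ne_zero J) le_rfl, Nat.sub_self, pow_zero, mul_one]

theorem lev_top (ε δ : ℝ) (J : ℕ) : lev ε δ J 0 (J + 0 + 1 + 1) = 1 := by simp [lev]

theorem lev_lt {ε δ : ℝ} (hε : 0 < ε) (hδ : 0 < δ) (h1 : ε * δ < 1) (J : ℕ) {h : ℕ}
    (hh : h ≤ J + 0 + 1) : lev ε δ J 0 h < lev ε δ J 0 (h + 1) := by
  have hpos : 0 < ε * δ := mul_pos hε hδ
  rcases Nat.eq_zero_or_pos h with rfl | h0
  · rw [lev_zero, lev_low ε δ J (by omega) (by omega)]
    positivity
  · rcases Nat.lt_or_ge h (J + 1) with h2 | h2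
    · rw [lev_low ε δ J (by omega) (by omega), lev_low ε δ J (by omega) (by omega)]
      have h3 : J + 1 - h = (J + 1 - (h + 1)) + 1 := by omega
      rw [h3, pow_succ]
      have h4 : 0 < ε * δ * (1 / 2 : ℝ) ^ (J + 1 - (h + 1)) := by positivity
      linarith
    · have h3 : h = J + 1 := by omega
      subst h3
      rw [lev_main, show J + 1 + 1 = J + 0 + 1 + 1 from rfl, lev_top]
      exact h1

theorem two_mul_le_pow (J : ℕ) : 2 * J ≤ 2 ^ J := by
  induction J with
  | zero => simp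
  | succ J ih =>
    rcases Nat.eq_zero_or_pos J with rfl | h
    · simp
    · rw [pow_succ]
      omega

theorem exists_J {w θ : ℝ} (hw : 0 < w) (hθ : 0 < θ) :
    ∃ J : ℕ, (1 / 2 : ℝ) ^ J * Real.log (2 / (w * (θ * (1 / 2) ^ J))) ≤ 1 := by
  obtain ⟨J, hJ⟩ := exists_nat_ge (Real.log (2 / (w * θ)))
  refine ⟨J, ?_⟩
  have h1 : Real.log (2 / (w * (θ * (1 / 2) ^ J))) = Real.log (2 / (w * θ)) + J * Real.log 2 := by
    rw [← Real.log_pow, ← Real.log_mul (by positivity) (by positivity)]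
    congr 1
    rw [one_div, inv_pow]
    field_simp
  have h2 : Real.log 2 ≤ 1 := by
    have := Real.log_two_lt_d9
    linarith
  have h3 : (J : ℝ) * Real.log 2 ≤ J := by
    have := mul_le_mul_of_nonneg_left h2 (Nat.cast_nonneg (α := ℝ) J)
    linarith
  have h4 : ((2 * J : ℕ) : ℝ) ≤ ((2 ^ J : ℕ) : ℝ) := by exact_mod_cast two_mul_le_pow J
  push_cast at h4
  rw [h1]
  have h5 : (1 / 2 : ℝ) ^ J * (2 : ℝ) ^ J = 1 := by
    rw [← mul_pow]; norm_num
  have h6 : (0 : ℝ) < (1 / 2) ^ J := by positivity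
  calc (1 / 2 : ℝ) ^ J * (Real.log (2 / (w * θ)) + J * Real.log 2)
      ≤ (1 / 2 : ℝ) ^ J * (2 : ℝ) ^ J := mul_le_mul_of_nonneg_left (by linarith) h6.le
    _ = 1 := h5

/-! ## the polytope -/

theorem volume_ne_zero (hVol : StVol) (n : ℕ) : volume (M 0 n) ≠ 0 := by
  intro h
  have h1 := (hVol 0 n le_rfl zero_lt_one).2.2.2
  unfold vol at h1
  rw [h, ENNReal.toReal_zero] at h1
  linarith

theorem integrableOn (hVol : StVol) (n : ℕ) (e : Edge n) (A : ℝ) :
    IntegrableOn (fun x : Edge n → ℝ => max 0 (1 - x e) ^ 4 * A) (M 0 n) := by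
  obtain ⟨hm, -, hf, -⟩ := hVol 0 n le_rfl zero_lt_one
  refine Measure.integrableOn_of_bounded (M := |A|) hf ?_ ?_
  · refine Continuous.aestronglyMeasurable ?_
    fun_prop
  · refine (ae_restrict_iff' hm).2 (Filter.Eventually.of_forall fun x hx => ?_)
    have h1 := hx.1 e
    have h2 : max 0 (1 - x e) ≤ 1 := max_le zero_le_one (by linarith [h1.1])
    have h3 : 0 ≤ max 0 (1 - x e) := le_max_left _ _
    rw [Real.norm_eq_abs, abs_mul, abs_of_nonneg (pow_nonneg h3 4)]
    exact mul_le_of_le_one_left (abs_nonneg A) (pow_le_one₀ h3 h2)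

theorem mean_tail (hVol : StVol) (n : ℕ) (e : Edge n) {w K : ℝ} (hw : 0 < w) (hK : 0 < K) :
    mean (M 0 n) (fun x => max 0 ((1 - x e) / w - K)) ≤
      mean (M 0 n) (fun x => max 0 (1 - x e) ^ 4) * (1 / (w ^ 4 * K ^ 3)) := by
  have hv := (hVol 0 n le_rfl zero_lt_one).2.2.2
  have h0 : 0 < vol (M 0 n) := by linarith
  unfold mean
  rw [div_mul_eq_mul_div, ← integral_mul_const]
  refine div_le_div_of_nonneg_right ?_ h0.le
  refine integral_mono_of_nonneg (Filter.Eventually.of_forall fun x => le_max_left _ _)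
    (integrableOn hVol n e _) (Filter.Eventually.of_forall fun x => ?_)
  show max 0 ((1 - x e) / w - K) ≤ max 0 (1 - x e) ^ 4 * (1 / (w ^ 4 * K ^ 3))
  refine max_le (by positivity) ?_
  rcases le_or_gt ((1 - x e) / w) K with h | h
  · have : 0 ≤ max 0 (1 - x e) ^ 4 * (1 / (w ^ 4 * K ^ 3)) := by positivity
    linarith
  · have hu : 0 < (1 - x e) / w := hK.trans h
    have hx : 0 < 1 - x e := by
      rcases (div_pos_iff.1 hu) with h' | h'
      · exact h'.1
      · linarith [h'.2]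
    rw [max_eq_right hx.le]
    have h1 : (1 - x e) ^ 4 * (1 / (w ^ 4 * K ^ 3)) = ((1 - x e) / w) ^ 4 / K ^ 3 := by
      field_simp
    rw [h1]
    have h2 : K ^ 3 ≤ ((1 - x e) / w) ^ 3 := pow_le_pow_left₀ hK.le h.le 3
    have h3 : (1 - x e) / w ≤ ((1 - x e) / w) ^ 4 / K ^ 3 := by
      rw [le_div_iff₀ (by positivity)]
      have := mul_le_mul_of_nonneg_left h2 hu.le
      calc (1 - x e) / w * K ^ 3 ≤ (1 - x e) / w * ((1 - x e) / w) ^ 3 := this
        _ = ((1 - x e) / w) ^ 4 := by ring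
    linarith

theorem low (hLow : StLowQ) {θ : ℝ} {n J : ℕ} (hn : 3 ≤ n) (hθ : 0 < θ) (hθ' : θ ≤ 1 / 4)
    (e : Edge n) {ε : ℝ} (hε : wt 0 n e = ε) (T : Tree (M 0 n) (J + 0 + 1) (lev ε θ J 0)) :
    1 / 240 ≤ EE (wts (J + 0 + 1) (lev ε θ J 0)) (fun c => max 0 (ps T.Q ε J e c 0)) := by
  subst hε
  exact hLow θ n J e T hn hθ hθ'

/-! ## the final computation -/

theorem final {n : ℕ} (hn : 3 ≤ n) {w θ B : ℝ} (hw : 0 < w) (hθ : 0 < θ) (hB : 0 ≤ B)
    (h : ((n : ℝ) - 2) * (w * θ) ^ 2 ≤ B ^ 2) : w * Real.sqrt n ≤ 2 * B / θ := by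
  have hn' : (3 : ℝ) ≤ n := by exact_mod_cast hn
  rw [le_div_iff₀ hθ]
  refine le_of_sq_le_sq ?_ (by positivity)
  have h1 : (w * Real.sqrt n * θ) ^ 2 = n * (w * θ) ^ 2 := by
    rw [mul_pow, mul_pow, Real.sq_sqrt (Nat.cast_nonneg n)]
    ring
  rw [h1]
  have h2 : (n : ℝ) * (w * θ) ^ 2 ≤ 3 * (((n : ℝ) - 2) * (w * θ) ^ 2) := by
    have : 0 ≤ (w * θ) ^ 2 := sq_nonneg _
    nlinarith
  nlinarith [sq_nonneg B]

end TightAux

open TightAux in
/-- B5: tightness -/
theorem stTight (hVol : StVol) (hTree : StTree) (hUp : StUpE) (hBavg : StBavg) (hLow : StLowQ)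
    (hMom : StMom) (hZ : StZ) (hMomT : StMomT) (hSym : StSym) : StTight := by
  obtain ⟨CM, hCM, hMom⟩ := hMom
  set C2 : ℝ := max CM 2 with hC2
  have hC2M : CM ≤ C2 := le_max_left _ _
  have hC22 : 2 ≤ C2 := le_max_right _ _
  obtain ⟨C', hC', hUp⟩ := hUp C2 (by linarith)
  -- the parameters
  set r : ℝ := min (1 / (480 * C2)) (1 / (23040 * C')) with hr
  have hr0 : 0 < r := lt_min (by positivity) (by positivity)
  have hr1 : C2 * r ≤ 1 / 480 := by
    have : r ≤ 1 / (480 * C2) := min_le_left _ _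
    rw [le_div_iff₀ (by positivity)] at this
    linarith
  have hr2 : C' * r ≤ 1 / 23040 := by
    have : r ≤ 1 / (23040 * C') := min_le_right _ _
    rw [le_div_iff₀ (by positivity)] at this
    linarith
  have hr3 : r ≤ 1 / 480 := by nlinarith
  set θ : ℝ := r ^ 3 with hθ
  have hθ0 : 0 < θ := by positivity
  have hθ1 : θ ≤ 1 / 4 := by
    have : r ^ 3 ≤ 1 ^ 2 * (1 / 480) := by
      have := pow_le_pow_left₀ hr0.le (hr3.trans (by norm_num : (1 / 480 : ℝ) ≤ 1)) 2
      calc r ^ 3 = r ^ 2 * r := by ring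
        _ ≤ 1 ^ 2 * (1 / 480) := mul_le_mul this hr3 hr0.le (by norm_num)
    rw [hθ]
    linarith
  set K : ℝ := 1 / r ^ 2 with hK
  have hK0 : 0 < K := by positivity
  have hK1 : 1 ≤ K := by
    rw [hK, le_div_iff₀ (by positivity), one_mul]
    exact pow_le_one₀ hr0.le (by linarith)
  refine ⟨34560 * K / θ, ?_, ?_⟩
  · rw [le_div_iff₀ hθ0]
    linarith
  intro n e hn
  set w : ℝ := wt 0 n e with hw
  have hwe : ∀ e', wt 0 n e' = w := fun e' => (hSym 0 n e' e).2.1
  obtain ⟨hw0, hw1, -, -⟩ := hMom n e hn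
  have hn' : (3 : ℝ) ≤ n := by exact_mod_cast hn
  -- few vertices
  by_cases hMb : 1 ≤ ((n : ℝ) - 2) * (w * θ) ^ 2
  swap
  · have h1 : ((n : ℝ) - 2) * (w * θ) ^ 2 ≤ 1 ^ 2 := by
      rw [one_pow]
      exact (not_le.1 hMb).le
    refine (final hn hw0 hθ0 zero_le_one h1).trans ?_
    refine div_le_div_of_nonneg_right ?_ hθ0.le
    linarith
  obtain ⟨J, hJ⟩ := exists_J hw0 hθ0
  obtain ⟨hmeas, -, hfin, hvol1⟩ := hVol 0 n le_rfl zero_lt_one
  have hvol0 := volume_ne_zero hVol n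
  have hwθ : w * θ < 1 := by nlinarith
  have hS : ∀ x ∈ M 0 n, ∀ e, 0 < x e ∧ x e ≤ 2 := fun x hx e => hx.1 e
  have hl1 : lev w θ J 0 (J + 0 + 1 + 1) = 1 := lev_top w θ J
  have hlt : ∀ h, h ≤ J + 0 + 1 → lev w θ J 0 h < lev w θ J 0 (h + 1) := fun h hh =>
    lev_lt hw0 hθ0 hwθ J hh
  obtain ⟨T⟩ := hTree (Edge n) (M 0 n) (J + 0 + 1) (lev w θ J 0) hmeas hS hvol0
    (lev_zero _ _ _ _) hl1 hlt
  set p := wts (J + 0 + 1) (lev w θ J 0) with hp
  have hp0 : ∀ h, 0 ≤ p h := fun h => sub_nonneg.2 (hlt h (Nat.lt_succ_iff.1 h.2)).le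
  have hp1 : ∑ h, p h = 1 := by
    have h1 : ∑ h : Fin (J + 0 + 1 + 1), p h =
        ∑ i ∈ Finset.range (J + 0 + 1 + 1), (lev w θ J 0 (i + 1) - lev w θ J 0 i) :=
      Fin.sum_univ_eq_sum_range (fun i => lev w θ J 0 (i + 1) - lev w θ J 0 i) _
    rw [h1, Finset.sum_range_sub, hl1, lev_zero, sub_zero]
  have hplast : 1 - p (Fin.last (J + 0 + 1)) = w * θ := by
    have h1 : p (Fin.last (J + 0 + 1)) = lev w θ J 0 (J + 0 + 1 + 1) - lev w θ J 0 (J + 1) := rfl
    rw [h1, hl1, lev_main]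
    ring
  -- the profile
  set a : Edge n → (Edge n → Fin (J + 0 + 1 + 1)) → ℝ :=
    fun e c => clamp K (ps T.Q w J e c 0) with ha
  have hval : ∀ c, val K J (ps T.Q w J) c =
      fun e' => if c e' = Fin.last (J + 0 + 1) then -K else a e' c := by
    intro c
    funext e'
    unfold val
    by_cases h : c e' = Fin.last (J + 0 + 1)
    · rw [if_pos h, if_pos (by rw [h]; rfl)]
    · have h1 : (c e' : ℕ) ≠ J + 0 + 1 := fun h1 => h (Fin.ext h1)
      have h2 := (c e').2
      have h3 : cls J (c e') = 0 := by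
        unfold cls
        omega
      rw [if_neg h, if_neg h1, h3]
  have hC2pos : 0 ≤ C2 := by linarith
  have hZ' : ∀ e', mean (M 0 n) (fun x => max 0 (sInf (fib (M 0 n) e' x) - 1)) ≤ C2 * w := by
    intro e'
    have h1 := hZ 0 n e' le_rfl zero_lt_one hn
    rw [mul_div_assoc, div_self (by linarith : vol (M 0 n) ≠ 0), mul_one, hwe e'] at h1
    nlinarith
  have hM2 : ∀ e', mean (M 0 n) (fun x => max 0 (1 - x e') ^ 2) ≤ C2 * w ^ 3 := by
    intro e'
    have h1 := (hMom n e' hn).2.2.1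
    rw [hwe e'] at h1
    exact h1.trans (mul_le_mul_of_nonneg_right hC2M (by positivity))
  have hM4 : ∀ e', mean (M 0 n) (fun x => max 0 (1 - x e') ^ 4) ≤ C2 * w ^ 5 := by
    intro e'
    have h1 := (hMom n e' hn).2.2.2
    rw [hwe e'] at h1
    exact h1.trans (mul_le_mul_of_nonneg_right hC2M (by positivity))
  have hup := hUp 0 w θ K n J 0 T le_rfl zero_lt_one hn hw0 hθ0 (by linarith) hK0
    (by push_cast; nlinarith) (fun e' => ⟨hM2 e', hM4 e', hZ' e'⟩) hJ
  have hlog : 0 ≤ Real.log (vol (M 0 n)) / ((Fintype.card (Edge n) : ℝ) * w) :=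
    div_nonneg (Real.log_nonneg hvol1) (by positivity)
  have hLam : AV (fun e => EE p (fun c => Lam θ 0 (fun i => clamp K (ps T.Q w J e c i)))) =
      AV (fun e => EE p (fun c => a e c)) := by
    unfold Lam
    simp only [Finset.range_zero, Finset.sum_empty, zero_add, ha]
  have hcherry : AV (fun e => EE p (fun c => cherry (val K J (ps T.Q w J) c) e)) =
      AV (fun e => EE p (fun c => cherry
        (fun e' => if c e' = Fin.last (J + 0 + 1) then -K else a e' c) e)) := by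
    simp only [hval]
  have hbv := hBavg n (Fin (J + 0 + 1 + 1)) p (Fin.last (J + 0 + 1)) K a hn hp0 hp1 hK0
    (fun e c => abs_clamp_le hK0.le) (fun e c h => by
      simp only [ha]
      unfold ps
      rw [T.pred e (Function.update c e h) c fun e' he' => Function.update_of_ne he'.ne _ _])
    (by rw [hplast]; exact hMb)
  rw [hplast] at hbv
  -- the error term
  have herr : C' * (θ * (1 + Real.log (1 / θ)) + 1 / (θ * K ^ 3) +
      ((0 : ℕ) + 1) * θ * w * (K + ((0 : ℕ) + 1) * θ + 1)) ≤ 1 / 2880 := by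
    have e1 : θ * K = r := by
      rw [hθ, hK]
      field_simp
    have e2 : 1 / (θ * K ^ 3) = r ^ 3 := by
      rw [hθ, hK]
      field_simp
    have e3 : Real.log (1 / θ) ≤ 3 * (1 / r) := by
      have h1 : (1 : ℝ) / θ = (1 / r) ^ 3 := by
        rw [hθ]
        field_simp
      rw [h1, Real.log_pow]
      have h2 : Real.log (1 / r) ≤ 1 / r := by
        have := Real.log_le_sub_one_of_pos (show 0 < 1 / r by positivity)
        linarith
      push_cast
      linarith
    have e4 : θ * (1 + Real.log (1 / θ)) ≤ 4 * r := by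
      have h1 : θ * (1 + Real.log (1 / θ)) ≤ θ * (1 + 3 * (1 / r)) :=
        mul_le_mul_of_nonneg_left (by linarith) hθ0.le
      have h2 : θ * (1 + 3 * (1 / r)) = r ^ 3 + 3 * r ^ 2 := by
        rw [hθ]
        field_simp
      have h3 : r ^ 2 ≤ r := by nlinarith
      have h4 : r ^ 3 ≤ r := by nlinarith [pow_pos hr0 2]
      linarith
    have h4 : r ^ 3 ≤ r := by
      have h3 : r ^ 2 ≤ r := by nlinarith
      nlinarith [pow_pos hr0 2]
    have e5 : ((0 : ℕ) + 1) * θ * w * (K + ((0 : ℕ) + 1) * θ + 1) ≤ 3 * r := by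
      have h1 : ((0 : ℕ) + 1) * θ * w * (K + ((0 : ℕ) + 1) * θ + 1) =
          w * (θ * K + θ * θ + θ) := by
        push_cast
        ring
      rw [h1, e1]
      have h2 : θ * θ ≤ θ := by nlinarith
      have h3 : w * (r + θ * θ + θ) ≤ 1 * (r + θ * θ + θ) :=
        mul_le_mul_of_nonneg_right hw1 (by positivity)
      have h5 : θ ≤ r := h4
      linarith
    calc C' * (θ * (1 + Real.log (1 / θ)) + 1 / (θ * K ^ 3) +
        ((0 : ℕ) + 1) * θ * w * (K + ((0 : ℕ) + 1) * θ + 1))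
        ≤ C' * (8 * r) := mul_le_mul_of_nonneg_left (by
          rw [e2]
          exact (add_le_add (add_le_add e4 h4) e5).trans (by linarith)) (by linarith)
      _ ≤ 1 / 2880 := by nlinarith
  -- the lower bound
  have hlow : ∀ e', 1 / 480 ≤ EE p (fun c => |a e' c|) := by
    intro e'
    have h1 := low hLow hn hθ0 hθ1 e' (hwe e') T
    have h2 : EE p (fun c => max 0 (ps T.Q w J e' c 0 - K)) ≤ 1 / 480 := by
      have h3 := hMomT (Edge n) (M 0 n) (J + 0 + 1) (lev w θ J 0) T hmeas hS hvol0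
        (lev_zero _ _ _ _) hl1 hlt e' (J + 1) (fun t => max 0 (t / w - K)) (by omega)
        (fun s t hst => max_le_max le_rfl (by
          have := div_le_div_of_nonneg_right hst hw0.le
          linarith)) (fun t => le_max_left _ _)
      rw [lev_main] at h3
      have h4 := mean_tail hVol n e' hw0 hK0
      have h5 : mean (M 0 n) (fun x => max 0 (1 - x e') ^ 4) * (1 / (w ^ 4 * K ^ 3)) ≤
          C2 * w ^ 5 * (1 / (w ^ 4 * K ^ 3)) :=
        mul_le_mul_of_nonneg_right (hM4 e') (by positivity)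
      have h6 : C2 * w ^ 5 * (1 / (w ^ 4 * K ^ 3)) = w * θ * (C2 * r ^ 3) := by
        rw [hθ, hK]
        field_simp
      have h7 : w * θ * EE p (fun c => max 0 (ps T.Q w J e' c 0 - K)) ≤
          w * θ * (C2 * r ^ 3) := by
        rw [← h6]
        exact (h3.trans h4).trans h5
      have h8 := le_of_mul_le_mul_left h7 (by positivity)
      have h9 : r ^ 3 ≤ r := by
        have h3 : r ^ 2 ≤ r := by nlinarith
        nlinarith [pow_pos hr0 2]
      exact h8.trans ((mul_le_mul_of_nonneg_left h9 hC2pos).trans hr1)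
    have h3 : EE p (fun c => max 0 (ps T.Q w J e' c 0)) ≤
        EE p (fun c => |a e' c| + max 0 (ps T.Q w J e' c 0 - K)) := by
      refine EE_mono hp0 fun c => ?_
      set u := ps T.Q w J e' c 0 with hu
      have h4 : min u K ≤ |a e' c| := by
        refine le_trans ?_ (le_abs_self _)
        simp only [ha]
        unfold clamp
        exact le_max_right _ _
      rcases le_total u K with h5 | h5
      · rw [min_eq_left h5] at h4
        refine max_le ?_ ?_
        · have := le_max_left 0 (u - K)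
          have := abs_nonneg (a e' c)
          linarith
        · have := le_max_left 0 (u - K)
          linarith
      · rw [min_eq_right h5] at h4
        refine max_le ?_ ?_
        · have := le_max_left 0 (u - K)
          have := abs_nonneg (a e' c)
          linarith
        · have := le_max_right 0 (u - K)
          linarith
    rw [EE_add] at h3
    linarith
  have hlowAV : 1 / 480 ≤ AV (fun e' => EE p (fun c => |a e' c|)) := by
    have := AV_mono (n := n) hlow
    rwa [AV_const (by omega)] at this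
  have hsplit : AV (fun e => EE p (fun c => a e c + |a e c| / 3)) =
      AV (fun e => EE p (fun c => a e c)) + AV (fun e => EE p (fun c => |a e c|)) / 3 := by
    have h1 : ∀ e, EE p (fun c => a e c + |a e c| / 3) =
        EE p (fun c => a e c) + (1 / 3) * EE p (fun c => |a e c|) := by
      intro e
      rw [← EE_mul_left, ← EE_add]
      refine EE_congr fun c => ?_
      ring
    simp only [h1]
    rw [AV_add, AV_mul_left]
    ring
  rw [hsplit] at hbv
  rw [hLam, hcherry] at hup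
  have hkey : 1 / 2880 ≤ 6 * K / Real.sqrt (((n : ℝ) - 2) * (w * θ) ^ 2) := by
    linarith
  have hsq : Real.sqrt (((n : ℝ) - 2) * (w * θ) ^ 2) ≤ 17280 * K := by
    have h1 : 0 < Real.sqrt (((n : ℝ) - 2) * (w * θ) ^ 2) := Real.sqrt_pos.2 (by linarith)
    rw [le_div_iff₀ h1] at hkey
    linarith
  have h2 : ((n : ℝ) - 2) * (w * θ) ^ 2 ≤ (17280 * K) ^ 2 := by
    have h3 := (Real.sqrt_le_left (by positivity)).1 hsq
    exact h3
  refine (final hn hw0 hθ0 (by positivity) h2).trans ?_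
  refine div_le_div_of_nonneg_right ?_ hθ0.le
  linarith

end Pool.Agent.Lib.MP_193d8d_pr
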