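import Pool.Agent.Lib.MP_193d8d_pr.StA
import Pool.Agent.Lib.MP_193d8d_pr.Base

set_option autoImplicit false
open MeasureTheory Set

namespace Pool.Agent.Lib.MP_193d8d_pr

namespace TreeAux

section one

variable {E : Type} [Fintype E]

/-- the open-closed box `(0,2]^E` -/
def BoxSet (E : Type) : Set (E → ℝ) := {x | ∀ e, 0 < x e ∧ x e ≤ 2}

theorem vol_slab (e : E) {a b : ℝ} :
    volume (BoxSet E ∩ {x | a < x e ∧ x e ≤ b}) ≤
      ENNReal.ofReal (2 ^ (Fintype.card E) * (b - a)) := by
  classical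
  have h1 : BoxSet E ∩ {x | a < x e ∧ x e ≤ b} ⊆
      Set.pi Set.univ (fun e' => if e' = e then Ioc a b else Ioc 0 2) := by
    rintro x ⟨hx, hx1, hx2⟩ e' _
    dsimp only
    split_ifs with h
    · subst h
      exact ⟨hx1, hx2⟩
    · exact hx e'
  refine (measure_mono h1).trans ?_
  rw [volume_pi_pi, Fintype.prod_eq_mul_prod_compl e]
  rw [if_pos rfl, Real.volume_Ioc]
  have h2 : ∏ e' ∈ ({e} : Finset E)ᶜ, volume (if e' = e then Ioc a b else Ioc 0 2) =
      ∏ e' ∈ ({e} : Finset E)ᶜ, (2 : ENNReal) := by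
    apply Finset.prod_congr rfl
    intro e' he'
    have h3 : e' ≠ e := by simpa using he'
    rw [if_neg h3, Real.volume_Ioc]
    norm_num
  rw [h2, Finset.prod_const, mul_comm]
  rw [ENNReal.ofReal_mul (by positivity)]
  gcongr
  have h4 : (2 : ENNReal) = ENNReal.ofReal 2 := by norm_num
  rw [h4, ← ENNReal.ofReal_pow (by norm_num)]
  apply ENNReal.ofReal_le_ofReal
  apply pow_le_pow_right₀ (by norm_num)
  exact Finset.card_le_univ _

theorem vol_box_lt : volume (BoxSet E) < ⊤ := by
  have h1 : BoxSet E ⊆ Set.pi Set.univ (fun _ => Ioc (0 : ℝ) 2) := by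
    intro x hx e' _
    exact hx e'
  refine (measure_mono h1).trans_lt ?_
  rw [volume_pi_pi]
  simp only [Real.volume_Ioc]
  exact ENNReal.prod_lt_top (fun _ _ => ENNReal.ofReal_lt_top)

theorem exists_q (e : E) (R : Set (E → ℝ)) (hb : R ⊆ BoxSet E) {t : ℝ} (h0 : 0 ≤ t) (h1 : t ≤ 1) :
    ∃ q, volume (R ∩ {x | x e ≤ q}) = ENNReal.ofReal t * volume R := by
  have hfin : ∀ T : Set (E → ℝ), volume (R ∩ T) ≠ ⊤ := fun T =>
    ((measure_mono (inter_subset_left.trans hb)).trans_lt vol_box_lt).ne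
  have hRfin : volume R ≠ ⊤ := by
    have := hfin Set.univ
    rwa [inter_univ] at this
  set g : ℝ → ℝ := fun y => (volume (R ∩ {x | x e ≤ y})).toReal with hg
  have hmono : Monotone g := by
    intro y z hyz
    apply ENNReal.toReal_mono (hfin _)
    apply measure_mono
    rintro x ⟨hx, hx'⟩
    exact ⟨hx, le_trans hx' hyz⟩
  have hstep : ∀ y z, y ≤ z → g z ≤ g y + 2 ^ (Fintype.card E) * (z - y) := by
    intro y z hyz
    have h2 : R ∩ {x | x e ≤ z} ⊆ (R ∩ {x | x e ≤ y}) ∪
        (R ∩ (BoxSet E ∩ {x | y < x e ∧ x e ≤ z})) := by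
      rintro x ⟨hx, hx'⟩
      by_cases h3 : x e ≤ y
      · exact Or.inl ⟨hx, h3⟩
      · exact Or.inr ⟨hx, hb hx, not_le.1 h3, hx'⟩
    have h3 : volume (R ∩ {x | x e ≤ z}) ≤ volume (R ∩ {x | x e ≤ y}) +
        ENNReal.ofReal (2 ^ (Fintype.card E) * (z - y)) := by
      refine (measure_mono h2).trans ((measure_union_le _ _).trans ?_)
      gcongr
      exact (measure_mono inter_subset_right).trans (vol_slab e)
    have h4 := ENNReal.toReal_mono (by
      rw [ENNReal.add_ne_top]
      exact ⟨hfin _, ENNReal.ofReal_ne_top⟩) h3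
    rw [ENNReal.toReal_add (hfin _) ENNReal.ofReal_ne_top, ENNReal.toReal_ofReal (by
      have : 0 ≤ z - y := sub_nonneg.2 hyz
      positivity)] at h4
    exact h4
  have hlip : LipschitzWith (2 ^ (Fintype.card E)) g := by
    apply LipschitzWith.of_le_add_mul
    intro y z
    rcases le_total y z with h | h
    · refine (hmono h).trans ?_
      have : 0 ≤ ((2 ^ (Fintype.card E) : NNReal) : ℝ) * dist y z := by positivity
      linarith
    · refine (hstep z y h).trans ?_
      rw [Real.dist_eq, abs_of_nonneg (sub_nonneg.2 h)]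
      push_cast
      exact le_rfl
  have hg0 : g 0 = 0 := by
    have : R ∩ {x | x e ≤ 0} = ∅ := by
      ext x
      constructor
      · rintro ⟨hx, hx'⟩
        exact absurd (hb hx e).1 (not_lt.2 hx')
      · intro hx
        exact absurd hx (notMem_empty x)
    rw [hg]
    simp only [this, measure_empty, ENNReal.toReal_zero]
  have hg2 : g 2 = (volume R).toReal := by
    have : R ∩ {x | x e ≤ 2} = R := by
      apply inter_eq_left.2
      intro x hx
      exact (hb hx e).2
    rw [hg]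
    simp only [this]
  have hmem : t * (volume R).toReal ∈ Icc (g 0) (g 2) := by
    rw [hg0, hg2]
    constructor
    · positivity
    · exact mul_le_of_le_one_left ENNReal.toReal_nonneg h1
  obtain ⟨q, -, hq⟩ := intermediate_value_Icc (by norm_num : (0 : ℝ) ≤ 2)
    hlip.continuous.continuousOn hmem
  refine ⟨q, ?_⟩
  rw [← ENNReal.toReal_eq_toReal_iff' (hfin _) (ENNReal.mul_ne_top ENNReal.ofReal_ne_top hRfin),
    ENNReal.toReal_mul, ENNReal.toReal_ofReal h0]
  exact hq

open Classical in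
/-- the quantile -/
noncomputable def qf (R : Set (E → ℝ)) (e : E) (t : ℝ) : ℝ :=
  if h : ∃ q, volume (R ∩ {x | x e ≤ q}) = ENNReal.ofReal t * volume R then h.choose else 0

theorem qf_spec (e : E) (R : Set (E → ℝ)) (hb : R ⊆ BoxSet E) {t : ℝ} (h0 : 0 ≤ t) (h1 : t ≤ 1) :
    volume (R ∩ {x | x e ≤ qf R e t}) = ENNReal.ofReal t * volume R := by
  have h := exists_q e R hb h0 h1
  rw [qf, dif_pos h]
  exact h.choose_spec

end one

section rec

variable {E : Type} [Fintype E] [LinearOrder E] (S : Set (E → ℝ)) (H : ℕ) (l : ℕ → ℝ)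

/-- one step of the recursion -/
noncomputable def stepQ (e : E) (Q : ∀ e', e' < e → (E → Fin (H + 1)) → ℕ → ℝ)
    (c : E → Fin (H + 1)) (h : ℕ) : ℝ :=
  if h = 0 then 0 else if H < h then 2 else
    qf {x | x ∈ S ∧ ∀ e' (he : e' < e), Q e' he c (c e') < x e' ∧ x e' ≤ Q e' he c ((c e' : ℕ) + 1)}
      e (l h)

/-- the quantiles -/
noncomputable def QQ : E → (E → Fin (H + 1)) → ℕ → ℝ :=
  (wellFounded_lt (α := E)).fix (stepQ S H l)

theorem QQ_eq (e : E) (c : E → Fin (H + 1)) (h : ℕ) :
    QQ S H l e c h = if h = 0 then 0 else if H < h then 2 else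
      qf (Rset S H (QQ S H l) e c) e (l h) := by
  rw [QQ, WellFounded.fix_eq]
  rfl

variable {S H l}

omit [Fintype E] in
theorem Rset_sub (Q : E → (E → Fin (H + 1)) → ℕ → ℝ) (hS : S ⊆ BoxSet E) (e : E)
    (c : E → Fin (H + 1)) : Rset S H Q e c ⊆ BoxSet E := fun _ hx => hS hx.1

theorem l_mem (h0 : l 0 = 0) (h1 : l (H + 1) = 1) (hl : ∀ h, h ≤ H → l h < l (h + 1)) {h : ℕ}
    (hh : h ≤ H + 1) : 0 ≤ l h ∧ l h ≤ 1 := by
  constructor
  · have : ∀ k, k ≤ H + 1 → 0 ≤ l k := by
      intro k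
      induction k with
      | zero => intro _; rw [h0]
      | succ k ih =>
        intro hk
        exact (ih (by omega)).trans (hl k (by omega)).le
    exact this h hh
  · have : ∀ k, k ≤ H + 1 → l (H + 1 - k) ≤ 1 := by
      intro k
      induction k with
      | zero => intro _; rw [Nat.sub_zero, h1]
      | succ k ih =>
        intro hk
        have h2 := hl (H + 1 - (k + 1)) (by omega)
        have h3 : H + 1 - (k + 1) + 1 = H + 1 - k := by omega
        rw [h3] at h2
        exact h2.le.trans (ih (by omega))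
    have h2 := this (H + 1 - h) (by omega)
    have h3 : H + 1 - (H + 1 - h) = h := by omega
    rwa [h3] at h2

theorem cut_eq (hS : S ⊆ BoxSet E) (h0 : l 0 = 0) (h1 : l (H + 1) = 1)
    (hl : ∀ h, h ≤ H → l h < l (h + 1)) (e : E) (c : E → Fin (H + 1)) (h : ℕ) (hh : h ≤ H + 1) :
    volume (Rset S H (QQ S H l) e c ∩ {x | x e ≤ QQ S H l e c h}) =
      ENNReal.ofReal (l h) * volume (Rset S H (QQ S H l) e c) := by
  have hb := Rset_sub (QQ S H l) hS e c
  rw [QQ_eq]
  split_ifs with h2 h3
  · subst h2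
    have : Rset S H (QQ S H l) e c ∩ {x | x e ≤ 0} = ∅ := by
      ext x
      constructor
      · rintro ⟨hx, hx'⟩
        exact absurd (hb hx e).1 (not_lt.2 hx')
      · intro hx
        exact absurd hx (notMem_empty x)
    rw [this, measure_empty, h0, ENNReal.ofReal_zero, zero_mul]
  · have h4 : h = H + 1 := by omega
    subst h4
    have : Rset S H (QQ S H l) e c ∩ {x | x e ≤ 2} = Rset S H (QQ S H l) e c := by
      apply inter_eq_left.2
      intro x hx
      exact (hb hx e).2
    rw [this, h1, ENNReal.ofReal_one, one_mul]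
  · have h4 := l_mem h0 h1 hl hh
    exact qf_spec e _ hb h4.1 h4.2

theorem fin_Rset (hS : S ⊆ BoxSet E) (e : E) (c : E → Fin (H + 1)) (T : Set (E → ℝ)) :
    volume (Rset S H (QQ S H l) e c ∩ T) ≠ ⊤ :=
  ((measure_mono (inter_subset_left.trans (Rset_sub (QQ S H l) hS e c))).trans_lt vol_box_lt).ne

/-- comparison of the levels -/
theorem level_lt (hS : S ⊆ BoxSet E) (h0 : l 0 = 0) (h1 : l (H + 1) = 1)
    (hl : ∀ h, h ≤ H → l h < l (h + 1)) (e : E) (c : E → Fin (H + 1)) (h : ℕ) (hh : h ≤ H)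
    (hR : volume (Rset S H (QQ S H l) e c) ≠ 0) :
    volume (Rset S H (QQ S H l) e c ∩ {x | x e ≤ QQ S H l e c h}) <
      volume (Rset S H (QQ S H l) e c ∩ {x | x e ≤ QQ S H l e c (h + 1)}) := by
  rw [cut_eq hS h0 h1 hl e c h (by omega), cut_eq hS h0 h1 hl e c (h + 1) (by omega)]
  have hfin : volume (Rset S H (QQ S H l) e c) ≠ ⊤ := by
    have := fin_Rset (l := l) hS e c Set.univ
    rwa [inter_univ] at this
  apply (ENNReal.mul_lt_mul_iff_left hR hfin).2
  rw [ENNReal.ofReal_lt_ofReal_iff_of_nonneg (l_mem h0 h1 hl (by omega)).1]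
  exact hl h hh

theorem Rset_pos (hS : S ⊆ BoxSet E) (hS0 : volume S ≠ 0) (h0 : l 0 = 0) (h1 : l (H + 1) = 1)
    (hl : ∀ h, h ≤ H → l h < l (h + 1)) (e : E) :
    ∀ c : E → Fin (H + 1), volume (Rset S H (QQ S H l) e c) ≠ 0 := by
  induction e using (wellFounded_lt (α := E)).induction with
  | _ e ih =>
    intro c
    classical
    by_cases hne : (Finset.univ.filter (fun e' => e' < e)).Nonempty
    · obtain ⟨m, hm, hmax⟩ := Finset.exists_max_image _ id hne
      rw [Finset.mem_filter] at hm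
      have hm' : ∀ e', e' < e → e' < m ∨ e' = m := by
        intro e' he'
        exact lt_or_eq_of_le (hmax e' (Finset.mem_filter.2 ⟨Finset.mem_univ _, he'⟩))
      have hR := ih m hm.2 c
      have h2 := level_lt hS h0 h1 hl m c (c m) (Nat.lt_succ_iff.1 (c m).2) hR
      intro h3
      have h4 : Rset S H (QQ S H l) m c ∩ {x | x m ≤ QQ S H l m c ((c m : ℕ) + 1)} ⊆
          (Rset S H (QQ S H l) m c ∩ {x | x m ≤ QQ S H l m c (c m)}) ∪
            Rset S H (QQ S H l) e c := by
        rintro x ⟨hx, hx'⟩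
        by_cases h5 : x m ≤ QQ S H l m c (c m)
        · exact Or.inl ⟨hx, h5⟩
        · refine Or.inr ⟨hx.1, fun e' he' => ?_⟩
          rcases hm' e' he' with h6 | rfl
          · exact hx.2 e' h6
          · exact ⟨not_le.1 h5, hx'⟩
      have h5 := (measure_mono (μ := volume) h4).trans (measure_union_le _ _)
      rw [h3, add_zero] at h5
      exact absurd h5 (not_le.2 h2)
    · have h2 : Rset S H (QQ S H l) e c = S := by
        ext x
        constructor
        · exact fun hx => hx.1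
        · refine fun hx => ⟨hx, fun e' he' => ?_⟩
          exact absurd ⟨e', Finset.mem_filter.2 ⟨Finset.mem_univ _, he'⟩⟩ hne
      rwa [h2]

theorem QQ_pred (e : E) : ∀ c c' : E → Fin (H + 1), (∀ e', e' < e → c e' = c' e') →
    QQ S H l e c = QQ S H l e c' := by
  induction e using (wellFounded_lt (α := E)).induction with
  | _ e ih =>
    intro c c' hc
    have h2 : Rset S H (QQ S H l) e c = Rset S H (QQ S H l) e c' := by
      ext x
      apply and_congr_right
      intro _
      apply forall_congr'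
      intro e'
      apply forall_congr'
      intro he'
      rw [ih e' he' c c' (fun e'' he'' => hc e'' (he''.trans he')), hc e' he']
    funext h
    rw [QQ_eq, QQ_eq, h2]

end rec

end TreeAux

open TreeAux in
/-- T1: existence of the tree of conditional quantiles -/
theorem stTree : StTree := by
  intro E _ _ S H l _ hS hS0 h0 h1 hl
  have hS' : S ⊆ BoxSet E := hS
  refine ⟨⟨QQ S H l, QQ_pred, ?_, ?_, ?_, cut_eq hS' h0 h1 hl⟩⟩
  · intro e c
    rw [QQ_eq, if_pos rfl]
  · intro e c
    rw [QQ_eq, if_neg (Nat.succ_ne_zero H), if_pos (Nat.lt_succ_self H)]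
  · intro e c h hh
    have h2 := level_lt hS' h0 h1 hl e c h hh (Rset_pos hS' hS0 h0 h1 hl e c)
    by_contra h3
    rw [not_lt] at h3
    have h4 : Rset S H (QQ S H l) e c ∩ {x | x e ≤ QQ S H l e c (h + 1)} ⊆
        Rset S H (QQ S H l) e c ∩ {x | x e ≤ QQ S H l e c h} := by
      rintro x ⟨hx, hx'⟩
      exact ⟨hx, le_trans hx' h3⟩
    exact absurd (measure_mono (μ := volume) h4) (not_le.2 h2)

end Pool.Agent.Lib.MP_193d8d_pr
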