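import Pool.Agent.Lib.MP_193d8d_pr.StA
import Pool.Agent.Lib.MP_193d8d_pr.Base

set_option autoImplicit false
open MeasureTheory Set

namespace Pool.Agent.Lib.MP_193d8d_pr

/-! # T2: the cells of the tree of quantiles are independent -/

namespace VolRAux

variable {E : Type} [Fintype E] [LinearOrder E] {S : Set (E → ℝ)} {H : ℕ} {l : ℕ → ℝ}

/-- the part of `S` where the coordinates in `A` lie in their cells -/
def RA (S : Set (E → ℝ)) (H : ℕ) (Q : E → (E → Fin (H + 1)) → ℕ → ℝ) (A : Finset E)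
    (c : E → Fin (H + 1)) : Set (E → ℝ) :=
  {x | x ∈ S ∧ ∀ e' ∈ A, Q e' c (c e') < x e' ∧ x e' ≤ Q e' c ((c e' : ℕ) + 1)}

theorem RA_lt (Q : E → (E → Fin (H + 1)) → ℕ → ℝ) (e : E) (c : E → Fin (H + 1)) :
    RA S H Q (Finset.univ.filter (fun e' => e' < e)) c = Rset S H Q e c := by
  ext x
  simp only [RA, Rset, mem_ofPred_eq, Finset.mem_filter, Finset.mem_univ, true_and]

theorem RA_univ (Q : E → (E → Fin (H + 1)) → ℕ → ℝ) (c : E → Fin (H + 1)) :
    RA S H Q Finset.univ c = Rall S H Q c := by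
  ext x
  simp only [RA, Rall, mem_ofPred_eq, Finset.mem_univ, true_imp_iff]

theorem meas (hS : MeasurableSet S) (Q : E → (E → Fin (H + 1)) → ℕ → ℝ) (A : Finset E)
    (c : E → Fin (H + 1)) : MeasurableSet (RA S H Q A c) := by
  have : RA S H Q A c = S ∩ ⋂ e' ∈ A, {x : E → ℝ | Q e' c (c e') < x e' ∧
      x e' ≤ Q e' c ((c e' : ℕ) + 1)} := by
    ext x
    simp only [RA, mem_ofPred_eq, mem_inter_iff, mem_iInter]
  rw [this]
  exact hS.inter (Finset.measurableSet_biInter _ fun e' _ =>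
    (measurableSet_lt measurable_const (measurable_pi_apply e')).inter
      (measurableSet_le (measurable_pi_apply e') measurable_const))

theorem fin (h : ∀ x ∈ S, ∀ e, 0 < x e ∧ x e ≤ 2) : volume S ≠ ⊤ := by
  have h1 : S ⊆ Icc (fun _ => (0 : ℝ)) (fun _ => (2 : ℝ)) := fun x hx =>
    ⟨fun e => (h x hx e).1.le, fun e => (h x hx e).2⟩
  exact ((measure_mono h1).trans_lt isCompact_Icc.measure_lt_top).ne

theorem lev_nonneg (h0 : l 0 = 0) (hl : ∀ h, h ≤ H → l h < l (h + 1)) (h : ℕ) (hh : h ≤ H + 1) :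
    0 ≤ l h := by
  induction h with
  | zero => exact h0.ge
  | succ h ih => exact (ih (by omega)).trans (hl h (by omega)).le

/-- one more coordinate -/
theorem step (hS : MeasurableSet S) (T : Tree S H l) (hfin : volume S ≠ ⊤) (h0 : l 0 = 0)
    (hl : ∀ h, h ≤ H → l h < l (h + 1)) (a : E) (c : E → Fin (H + 1)) :
    vol (Rset S H T.Q a c ∩ {x | T.Q a c (c a) < x a ∧ x a ≤ T.Q a c ((c a : ℕ) + 1)}) =
      wts H l (c a) * vol (Rset S H T.Q a c) := by
  set R := Rset S H T.Q a c with hR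
  have hRfin : volume R ≠ ⊤ := by
    refine ((measure_mono ?_).trans_lt (lt_top_iff_ne_top.2 hfin)).ne
    intro x hx
    exact hx.1
  have hca : (c a : ℕ) ≤ H := Nat.lt_succ_iff.1 (c a).2
  have k1 := T.cut a c (c a) (by omega)
  have k2 := T.cut a c ((c a : ℕ) + 1) (by omega)
  have hlt := T.lt a c (c a) hca
  have e1 : (R ∩ {x | x a ≤ T.Q a c ((c a : ℕ) + 1)}) ∩ {x | x a ≤ T.Q a c (c a)} =
      R ∩ {x | x a ≤ T.Q a c (c a)} := by
    ext x
    simp only [mem_inter_iff, mem_ofPred_eq]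
    constructor
    · rintro ⟨⟨h1, _⟩, h3⟩
      exact ⟨h1, h3⟩
    · rintro ⟨h1, h3⟩
      exact ⟨⟨h1, h3.trans hlt.le⟩, h3⟩
  have e2 : (R ∩ {x | x a ≤ T.Q a c ((c a : ℕ) + 1)}) \ {x | x a ≤ T.Q a c (c a)} =
      R ∩ {x | T.Q a c (c a) < x a ∧ x a ≤ T.Q a c ((c a : ℕ) + 1)} := by
    ext x
    simp only [mem_inter_iff, mem_ofPred_eq, mem_sdiff, not_le]
    constructor
    · rintro ⟨⟨h1, h2⟩, h3⟩
      exact ⟨h1, h3, h2⟩
    · rintro ⟨h1, h3, h2⟩
      exact ⟨⟨h1, h2⟩, h3⟩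
  have k3 := measure_inter_add_sdiff (μ := volume) (R ∩ {x | x a ≤ T.Q a c ((c a : ℕ) + 1)})
    (measurableSet_le (measurable_pi_apply a) measurable_const : MeasurableSet
      {x : E → ℝ | x a ≤ T.Q a c (c a)})
  rw [e1, e2, k1, k2] at k3
  have n1 : ENNReal.ofReal (l (c a)) * volume R ≠ ⊤ := ENNReal.mul_ne_top ENNReal.ofReal_ne_top hRfin
  have n2 : volume (R ∩ {x | T.Q a c (c a) < x a ∧ x a ≤ T.Q a c ((c a : ℕ) + 1)}) ≠ ⊤ :=
    ((measure_mono inter_subset_left).trans_lt (lt_top_iff_ne_top.2 hRfin)).ne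
  have k4 := congrArg ENNReal.toReal k3
  rw [ENNReal.toReal_add n1 n2, ENNReal.toReal_mul, ENNReal.toReal_mul,
    ENNReal.toReal_ofReal (lev_nonneg h0 hl _ (by omega)),
    ENNReal.toReal_ofReal (lev_nonneg h0 hl _ (by omega))] at k4
  unfold vol wts
  linear_combination k4

theorem prod (hS : MeasurableSet S) (T : Tree S H l) (hfin : volume S ≠ ⊤) (h0 : l 0 = 0)
    (hl : ∀ h, h ≤ H → l h < l (h + 1)) (c : E → Fin (H + 1)) (A : Finset E) :
    (∀ a ∈ A, ∀ b, b < a → b ∈ A) →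
    vol (RA S H T.Q A c) = (∏ e' ∈ A, wts H l (c e')) * vol S := by
  induction A using Finset.induction_on_max with
  | empty =>
    intro _
    rw [Finset.prod_empty, one_mul]
    congr 1
    ext x
    simp [RA]
  | insert a s hmax ih =>
    intro hlow
    have ha : a ∉ s := fun h => lt_irrefl _ (hmax a h)
    have hs : s = Finset.univ.filter (fun e' => e' < a) := by
      ext b
      simp only [Finset.mem_filter, Finset.mem_univ, true_and]
      refine ⟨fun h => hmax b h, fun h => ?_⟩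
      rcases Finset.mem_insert.1 (hlow a (Finset.mem_insert_self _ _) b h) with h' | h'
      · exact absurd h' h.ne
      · exact h'
    have hlow' : ∀ x ∈ s, ∀ b, b < x → b ∈ s := fun x hx b hb => by
      rw [hs, Finset.mem_filter]
      exact ⟨Finset.mem_univ _, hb.trans (hmax x hx)⟩
    have e1 : RA S H T.Q (insert a s) c = Rset S H T.Q a c ∩
        {x | T.Q a c (c a) < x a ∧ x a ≤ T.Q a c ((c a : ℕ) + 1)} := by
      rw [← RA_lt, ← hs]
      ext x
      simp only [RA, mem_ofPred_eq, Finset.forall_mem_insert, mem_inter_iff]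
      tauto
    rw [e1, step hS T hfin h0 hl, Finset.prod_insert ha, mul_assoc, ← ih hlow', hs, RA_lt]

end VolRAux

open VolRAux in
theorem stVolR : StVolR := by
  intro E _ _ S H l T hS hb hS0 h0 h1 hl
  have hfin := fin hb
  have hpos : 0 < vol S := ENNReal.toReal_pos hS0 hfin
  have hw : ∀ h : Fin (H + 1), 0 < wts H l h := fun h => by
    unfold wts
    have := hl h (Nat.lt_succ_iff.1 h.2)
    linarith
  refine ⟨fun e c => ?_, fun c => ⟨?_, ?_⟩⟩
  · have hv : vol (Rset S H T.Q e c) =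
        (∏ e' ∈ Finset.univ.filter (fun e' => e' < e), wts H l (c e')) * vol S := by
      rw [← RA_lt]
      refine prod hS T hfin h0 hl c _ fun a ha b hba => ?_
      rw [Finset.mem_filter] at ha ⊢
      exact ⟨Finset.mem_univ _, hba.trans ha.2⟩
    refine ⟨?_, hv, ?_⟩
    · rw [← RA_lt]
      exact meas hS _ _ _
    · rw [hv]
      exact mul_pos (Finset.prod_pos fun e' _ => hw _) hpos
  · rw [← RA_univ]
    exact meas hS _ _ _
  · rw [← RA_univ]
    exact prod hS T hfin h0 hl c _ fun a _ b _ => Finset.mem_univ b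

end Pool.Agent.Lib.MP_193d8d_pr
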