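import Pool.Agent.Lib.MP_193d8d_pr.StA
import Pool.Agent.Lib.MP_193d8d_pr.Base

set_option autoImplicit false
open MeasureTheory Set

namespace Pool.Agent.Lib.MP_193d8d_pr

namespace XiAux

section gen

variable {E : Type} [Fintype E] [DecidableEq E]

theorem cyl_bdd {R : Set (E → ℝ)} (hR : ∀ x ∈ R, ∀ e, 0 < x e ∧ x e ≤ 2) (e : E) :
    volume (cyl R e) ≠ ⊤ := by
  refine ne_top_of_le_ne_top ?_ (measure_mono (t := Icc (0 : E → ℝ) (fun _ => 2)) ?_)
  · rw [Real.volume_Icc_pi]
    exact ENNReal.prod_ne_top fun _ _ => ENNReal.ofReal_ne_top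
  · rintro x ⟨hx, hx'⟩
    obtain ⟨y, hy⟩ := nonempty_of_measure_ne_zero hx'
    have hy' : Function.update x e y ∈ R := hy
    have h : ∀ e', 0 ≤ x e' ∧ x e' ≤ 2 := by
      intro e'
      by_cases he : e' = e
      · subst he
        exact ⟨hx.1.le, by linarith [hx.2]⟩
      · have h2 := hR _ hy' e'
        rw [Function.update_of_ne he] at h2
        exact ⟨h2.1.le, h2.2⟩
    exact ⟨fun e' => (h e').1, fun e' => (h e').2⟩

omit [Fintype E] in
theorem cyl_mono {R S : Set (E → ℝ)} (h : R ⊆ S) (e : E) : cyl R e ⊆ cyl S e := by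
  rintro x ⟨hx, hx'⟩
  refine ⟨hx, fun h0 => hx' ?_⟩
  exact measure_mono_null (fun y hy => h hy) h0

theorem strip (hB : StFubB) {R : Set (E → ℝ)} (hRm : MeasurableSet R)
    (hR : ∀ x ∈ R, ∀ e, 0 < x e ∧ x e ≤ 2) (e : E) (a b : ℝ) (hab : a ≤ b) :
    vol (R ∩ {x | a < x e ∧ x e ≤ b}) ≤ (b - a) * vol (cyl R e) := by
  have hm : MeasurableSet (R ∩ {x | a < x e ∧ x e ≤ b}) :=
    hRm.inter ((measurableSet_lt measurable_const (measurable_pi_apply e)).inter
      (measurableSet_le (measurable_pi_apply e) measurable_const))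
  have h1 := (hB E (R ∩ {x | a < x e ∧ x e ≤ b}) e (fun _ => 1) hm measurable_const
    (fun _ _ => rfl)).2.2
  rw [lintegral_one, Measure.restrict_apply_univ] at h1
  have h2 : volume (R ∩ {x | a < x e ∧ x e ≤ b}) ≤
      ENNReal.ofReal (b - a) * volume (cyl R e) := by
    rw [h1, ← setLIntegral_const]
    refine lintegral_mono' (Measure.restrict_mono (cyl_mono inter_subset_left e) le_rfl)
      fun x => ?_
    rw [one_mul, ← Real.volume_Ioc]
    refine measure_mono fun y hy => ?_
    have h3 := hy.2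
    simp only [mem_ofPred_eq, Function.update_self] at h3
    exact h3
  have h3 := ENNReal.toReal_mono (ENNReal.mul_ne_top ENNReal.ofReal_ne_top (cyl_bdd hR e)) h2
  rw [ENNReal.toReal_mul, ENNReal.toReal_ofReal (sub_nonneg.2 hab)] at h3
  exact h3

end gen

section tree

variable {E : Type} [Fintype E] [LinearOrder E] {S : Set (E → ℝ)} {H : ℕ} {l : ℕ → ℝ}
  (T : Tree S H l)

theorem Q_mono (e : E) (c : E → Fin (H + 1)) {a b : ℕ} (hab : a ≤ b) (hb : b ≤ H + 1) :
    T.Q e c a ≤ T.Q e c b := by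
  induction b, hab using Nat.le_induction with
  | base => exact le_rfl
  | succ b hab ih => exact (ih (by omega)).trans (T.lt e c b (by omega)).le

theorem cell {e : E} {c : E → Fin (H + 1)} {x : E → ℝ} (h : x ∈ cyl (Rset S H T.Q e c) e) :
    ∀ e', e' < e → T.Q e' c (c e') < x e' ∧ x e' ≤ T.Q e' c ((c e' : ℕ) + 1) := by
  obtain ⟨-, h⟩ := h
  obtain ⟨y, hy⟩ := nonempty_of_measure_ne_zero h
  intro e' he'
  have h2 := hy.2 e' he'
  rw [Function.update_of_ne he'.ne] at h2
  exact h2

theorem agree {e : E} {c c' : E → Fin (H + 1)} {x : E → ℝ}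
    (h : x ∈ cyl (Rset S H T.Q e c) e) (h' : x ∈ cyl (Rset S H T.Q e c') e) :
    ∀ e', e' < e → c e' = c' e' := by
  intro e'
  induction e' using WellFoundedLT.induction with
  | ind e' ih =>
    intro he'
    have h1 := cell T h e' he'
    have h2 := cell T h' e' he'
    have h3 : T.Q e' c = T.Q e' c' := T.pred e' c c' fun e'' he'' => ih e'' he'' (he''.trans he')
    rw [← h3] at h2
    have hc := (c e').2
    have hc' := (c' e').2
    rcases lt_trichotomy (c e' : ℕ) (c' e') with h4 | h4 | h4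
    · have h5 := Q_mono T e' c (a := (c e' : ℕ) + 1) (b := c' e') (by omega) (by omega)
      linarith [h1.1, h1.2, h2.1, h2.2]
    · exact Fin.ext h4
    · have h5 := Q_mono T e' c (a := (c' e' : ℕ) + 1) (b := c e') (by omega) (by omega)
      linarith [h1.1, h1.2, h2.1, h2.2]

/-- the weight of the coordinates from `e` on -/
noncomputable def uw (H : ℕ) (l : ℕ → ℝ) (e : E) (c : E → Fin (H + 1)) : ℝ :=
  ∏ e', if e' < e then 1 else wts H l (c e')

theorem uw_nonneg (hl : ∀ h, h ≤ H → l h < l (h + 1)) (e : E) (c : E → Fin (H + 1)) :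
    0 ≤ uw H l e c := by
  refine Finset.prod_nonneg fun e' _ => ?_
  split_ifs
  · exact zero_le_one
  · exact (sub_pos.2 (hl _ (by have := (c e').2; omega))).le

theorem sum_wts (h0 : l 0 = 0) (h1 : l (H + 1) = 1) : ∑ h, wts H l h = 1 := by
  unfold wts
  rw [Fin.sum_univ_eq_sum_range (fun i => l (i + 1) - l i) (H + 1), Finset.sum_range_sub, h0, h1,
    sub_zero]

theorem sum_uw (h0 : l 0 = 0) (h1 : l (H + 1) = 1) (e : E) (c0 : E → Fin (H + 1)) :
    ∑ c ∈ Finset.univ.filter (fun c : E → Fin (H + 1) => ∀ e', e' < e → c e' = c0 e'),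
      uw H l e c = 1 := by
  have h2 := Finset.prod_univ_sum (fun e' : E => if e' < e then {c0 e'} else Finset.univ)
    (fun (e' : E) (h : Fin (H + 1)) => if e' < e then (1 : ℝ) else wts H l h)
  have h3 : ∏ e' : E, ∑ h ∈ (if e' < e then {c0 e'} else Finset.univ : Finset (Fin (H + 1))),
      (if e' < e then (1 : ℝ) else wts H l h) = 1 := by
    refine Finset.prod_eq_one fun e' _ => ?_
    by_cases he : e' < e
    · simp [he]
    · simp only [he, if_false]
      exact sum_wts h0 h1
  rw [h3] at h2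
  rw [h2]
  refine Finset.sum_congr ?_ fun _ _ => rfl
  ext c
  rw [Finset.mem_filter, Fintype.mem_piFinset]
  constructor
  · rintro ⟨-, h⟩ e'
    by_cases he : e' < e
    · simp [he, h e' he]
    · simp [he]
  · intro h
    refine ⟨Finset.mem_univ _, fun e' he' => ?_⟩
    have h4 := h e'
    rw [if_pos he', Finset.mem_singleton] at h4
    exact h4

theorem prod_eq (e : E) (c : E → Fin (H + 1)) : ∏ e', wts H l (c e') =
    (∏ e' ∈ Finset.univ.filter (fun e' => e' < e), wts H l (c e')) * uw H l e c := by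
  rw [Finset.prod_filter, uw, ← Finset.prod_mul_distrib]
  refine Finset.prod_congr rfl fun e' _ => ?_
  split_ifs <;> ring

end tree

end XiAux

open XiAux

theorem stXi (hV : StVolR) (hB : StFubB) : StXi := by
  intro E _ _ S H l T hSm hS hS0 h0 h1 hl
  obtain ⟨hR, -⟩ := hV E S H l T hSm hS hS0 h0 h1 hl
  have hRS : ∀ e c, Rset S H T.Q e c ⊆ S := fun e c x hx => hx.1
  have hRb : ∀ e c, ∀ x ∈ Rset S H T.Q e c, ∀ e, 0 < x e ∧ x e ≤ 2 :=
    fun e c x hx => hS x (hRS e c hx)
  have hstrip := fun e c a b hab => strip hB (hR e c).1 (hRb e c) e a b hab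
  refine ⟨hstrip, fun e c => ?_, fun e => ?_⟩
  · have h2 := hstrip e c 0 2 (by norm_num)
    have h3 : Rset S H T.Q e c ∩ {x | 0 < x e ∧ x e ≤ 2} = Rset S H T.Q e c :=
      inter_eq_left.2 fun x hx => hRb e c x hx e
    rw [h3, sub_zero] at h2
    exact h2
  · have hSv : 0 < vol S := by
      refine ENNReal.toReal_pos hS0 ?_
      refine ne_top_of_le_ne_top ?_ (measure_mono (t := Icc (0 : E → ℝ) (fun _ => 2)) ?_)
      · rw [Real.volume_Icc_pi]
        exact ENNReal.prod_ne_top fun _ _ => ENNReal.ofReal_ne_top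
      · exact fun x hx => ⟨fun e' => (hS x hx e').1.le, fun e' => (hS x hx e').2⟩
    have hcm : ∀ c, MeasurableSet (cyl (Rset S H T.Q e c) e) := fun c =>
      (hB E _ e (fun _ => 1) (hR e c).1 measurable_const (fun _ _ => rfl)).2.1
    have hcS : MeasurableSet (cyl S e) :=
      (hB E _ e (fun _ => 1) hSm measurable_const (fun _ _ => rfl)).2.1
    have h2 : EE (wts H l) (fun c => vol (cyl (Rset S H T.Q e c) e) /
        vol (Rset S H T.Q e c)) =
        (∑ c : E → Fin (H + 1), uw H l e c * vol (cyl (Rset S H T.Q e c) e)) / vol S := by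
      rw [EE, Finset.sum_div]
      refine Finset.sum_congr rfl fun c _ => ?_
      have h3 := (hR e c).2.1
      have h4 := (hR e c).2.2
      rw [h3] at h4
      have h5 : (∏ e' ∈ Finset.univ.filter (fun e' => e' < e), wts H l (c e')) ≠ 0 := by
        intro h6
        rw [h6, zero_mul] at h4
        exact lt_irrefl _ h4
      rw [h3, prod_eq e c]
      field_simp
    rw [h2]
    refine div_le_div_of_nonneg_right ?_ hSv.le
    have hfin : ∀ c, volume (cyl (Rset S H T.Q e c) e) ≠ ⊤ := fun c => cyl_bdd (hRb e c) e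
    have hfinS : volume (cyl S e) ≠ ⊤ := cyl_bdd hS e
    have hi : ∀ c, Integrable ((cyl (Rset S H T.Q e c) e).indicator (1 : (E → ℝ) → ℝ)) volume :=
      fun c => (integrable_indicator_iff (hcm c)).2 (integrableOn_const (hfin c))
    have hiS : Integrable ((cyl S e).indicator (1 : (E → ℝ) → ℝ)) volume :=
      (integrable_indicator_iff hcS).2 (integrableOn_const hfinS)
    have hvol : ∀ c, vol (cyl (Rset S H T.Q e c) e) =
        ∫ x, (cyl (Rset S H T.Q e c) e).indicator (1 : (E → ℝ) → ℝ) x := fun c =>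
      (integral_indicator_one (hcm c)).symm
    have hvolS : vol (cyl S e) = ∫ x, (cyl S e).indicator (1 : (E → ℝ) → ℝ) x :=
      (integral_indicator_one hcS).symm
    rw [hvolS]
    simp only [hvol, ← integral_const_mul]
    rw [← integral_finsetSum _ fun c _ => (hi c).const_mul _]
    refine integral_mono (integrable_finsetSum _ fun c _ => (hi c).const_mul _) hiS fun x => ?_
    by_cases hx : ∃ c0, x ∈ cyl (Rset S H T.Q e c0) e
    · obtain ⟨c0, hc0⟩ := hx
      rw [indicator_of_mem (cyl_mono (hRS e c0) e hc0), Pi.one_apply, ← sum_uw h0 h1 e c0,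
        Finset.sum_filter]
      refine Finset.sum_le_sum fun c _ => ?_
      by_cases hc : x ∈ cyl (Rset S H T.Q e c) e
      · rw [if_pos (agree T hc hc0), indicator_of_mem hc, Pi.one_apply, mul_one]
      · rw [indicator_of_notMem hc, mul_zero]
        split_ifs
        · exact uw_nonneg hl e c
        · exact le_rfl
    · have h3 : ∀ c ∈ (Finset.univ : Finset (E → Fin (H + 1))), uw H l e c *
          (cyl (Rset S H T.Q e c) e).indicator (1 : (E → ℝ) → ℝ) x = 0 := fun c _ => by
        rw [indicator_of_notMem fun h => hx ⟨c, h⟩, mul_zero]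
      rw [Finset.sum_eq_zero h3]
      exact indicator_nonneg (fun _ _ => zero_le_one) x

end Pool.Agent.Lib.MP_193d8d_pr
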