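import Pool.Agent.Lib.MP_193d8d_pr.StA
import Pool.Agent.Lib.MP_193d8d_pr.Base

set_option autoImplicit false
open MeasureTheory Set

namespace Pool.Agent.Lib.MP_193d8d_pr

/-! # T9: the logarithmic version of the estimate of the projections -/

namespace XiLogAux

variable {E : Type} [Fintype E] [LinearOrder E] {R : Set (E → ℝ)}

theorem fib_update (R : Set (E → ℝ)) (e : E) (x : E → ℝ) (t : ℝ) :
    fib R e (Function.update x e t) = fib R e x := by
  unfold fib
  simp only [Function.update_idem]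

theorem fib_sub (hb : ∀ x ∈ R, ∀ e, 0 < x e ∧ x e ≤ 2) (e : E) (x : E → ℝ) :
    fib R e x ⊆ Icc 0 2 := by
  intro y hy
  have h := hb _ hy e
  rw [Function.update_self] at h
  exact ⟨h.1.le, h.2⟩

theorem fib_le (hb : ∀ x ∈ R, ∀ e, 0 < x e ∧ x e ≤ 2) (e : E) (x : E → ℝ) :
    volume (fib R e x) ≤ 2 := by
  refine (measure_mono (fib_sub hb e x)).trans ?_
  rw [Real.volume_Icc, sub_zero]
  simp

theorem fib_ne_top (hb : ∀ x ∈ R, ∀ e, 0 < x e ∧ x e ≤ 2) (e : E) (x : E → ℝ) :
    volume (fib R e x) ≠ ⊤ :=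
  ((fib_le hb e x).trans_lt (by simp)).ne

theorem cyl_fin (hb : ∀ x ∈ R, ∀ e, 0 < x e ∧ x e ≤ 2) (e : E) : volume (cyl R e) ≠ ⊤ := by
  have h1 : cyl R e ⊆ Icc (fun _ => (0 : ℝ)) (fun _ => (2 : ℝ)) := by
    rintro x ⟨h1, h2⟩
    have h3 : (fib R e x).Nonempty := by
      rw [nonempty_iff_ne_empty]
      intro h
      exact h2 (by rw [h, measure_empty])
    obtain ⟨y, hy⟩ := h3
    have h4 : ∀ e', 0 ≤ x e' ∧ x e' ≤ 2 := by
      intro e'
      by_cases h : e' = e
      · subst h
        exact ⟨h1.1.le, by linarith [h1.2]⟩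
      · have h5 := hb _ hy e'
        rw [Function.update_of_ne h] at h5
        exact ⟨h5.1.le, h5.2⟩
    exact ⟨fun e' => (h4 e').1, fun e' => (h4 e').2⟩
  exact ((measure_mono h1).trans_lt isCompact_Icc.measure_lt_top).ne

theorem fin (h : ∀ x ∈ R, ∀ e, 0 < x e ∧ x e ≤ 2) : volume R ≠ ⊤ := by
  have h1 : R ⊆ Icc (fun _ => (0 : ℝ)) (fun _ => (2 : ℝ)) := fun x hx =>
    ⟨fun e => (h x hx e).1.le, fun e => (h x hx e).2⟩
  exact ((measure_mono h1).trans_lt isCompact_Icc.measure_lt_top).ne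

/-- the consequences of the formula of Fubini -/
theorem lint (h3 : StFubB) (hR : MeasurableSet R) (hb : ∀ x ∈ R, ∀ e, 0 < x e ∧ x e ≤ 2) (e : E) :
    Measurable (fun x => volume (fib R e x)) ∧
    ∫⁻ x in R, (volume (fib R e x))⁻¹ = volume (cyl R e) ∧
    (∀ᵐ x ∂(volume.restrict R), volume (fib R e x) ≠ 0) ∧
    volume R ≤ 2 * volume (cyl R e) := by
  obtain ⟨m1, m2, m3⟩ := h3 E R e (fun _ => 1) hR measurable_const (fun _ _ => rfl)
  have k2 := (h3 E R e (fun x => (volume (fib R e x))⁻¹) hR m1.inv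
    (fun x t => by rw [fib_update])).2.2
  have hA : MeasurableSet {x : E → ℝ | volume (fib R e x) = 0} :=
    m1 (measurableSet_singleton 0)
  have k3 := (h3 E R e (indicator {x : E → ℝ | volume (fib R e x) = 0} 1) hR
    (measurable_one.indicator hA) (fun x t => by
      simp only [indicator, mem_ofPred_eq, fib_update, Pi.one_apply])).2.2
  refine ⟨m1, ?_, ?_, ?_⟩
  · rw [k2, setLIntegral_congr_fun (g := fun _ => (1 : ENNReal)) m2 (fun x hx =>
      ENNReal.inv_mul_cancel hx.2 (fib_ne_top hb e x)), setLIntegral_one]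
  · rw [ae_iff]
    simp only [not_not]
    rw [← lintegral_indicator_one hA, k3]
    refine (lintegral_congr fun x => ?_).trans lintegral_zero
    by_cases hx : volume (fib R e x) = 0
    · rw [hx, mul_zero]
    · rw [indicator_of_notMem (by exact hx), zero_mul]
  · rw [setLIntegral_one] at m3
    rw [m3]
    calc ∫⁻ x in cyl R e, 1 * volume (fib R e x) ≤ ∫⁻ _ in cyl R e, 2 :=
          lintegral_mono fun x => by
            rw [one_mul]
            exact fib_le hb e x
      _ = 2 * volume (cyl R e) := by rw [setLIntegral_const]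

theorem jensen (h3 : StFubB) (hR : MeasurableSet R) (hb : ∀ x ∈ R, ∀ e, 0 < x e ∧ x e ≤ 2)
    (hpos : volume R ≠ 0) (e : E) :
    IntegrableOn (fun x => Real.log (volume (fib R e x)).toReal) R ∧
    -Real.log (vol (cyl R e) / vol R) ≤
      mean R (fun x => Real.log (volume (fib R e x)).toReal) := by
  obtain ⟨m1, m2, m3, m4⟩ := lint h3 hR hb e
  have hfin := fin hb
  have hcf := cyl_fin hb e
  have hV : 0 < vol R := ENNReal.toReal_pos hpos hfin
  have hC : 0 < vol (cyl R e) := by
    refine ENNReal.toReal_pos ?_ hcf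
    intro h
    rw [h, mul_zero] at m4
    exact hpos (nonpos_iff_eq_zero.1 m4)
  set L : (E → ℝ) → ℝ := fun x => (volume (fib R e x)).toReal with hL
  have hL0 : ∀ x, 0 ≤ L x := fun x => ENNReal.toReal_nonneg
  have hL2 : ∀ x, L x ≤ 2 := fun x => by
    have := ENNReal.toReal_mono (by simp) (fib_le hb e x)
    simpa using this
  have i0 : IntegrableOn (fun _ : E → ℝ => (1 : ℝ)) R := integrableOn_const hfin
  have i1 : IntegrableOn (fun x => (L x)⁻¹) R := by
    have h := integrable_toReal_of_lintegral_ne_top (μ := volume.restrict R)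
      (f := fun x => (volume (fib R e x))⁻¹) m1.inv.aemeasurable (by rw [m2]; exact hcf)
    simp only [ENNReal.toReal_inv] at h
    exact h
  have v1 : ∫ x in R, (L x)⁻¹ = vol (cyl R e) := by
    have h := integral_toReal (μ := volume.restrict R)
      (f := fun x => (volume (fib R e x))⁻¹) m1.inv.aemeasurable (by
        filter_upwards [m3] with x hx
        exact ENNReal.inv_lt_top.2 (pos_iff_ne_zero.2 hx))
    rw [m2] at h
    simp only [ENNReal.toReal_inv] at h
    exact h
  have i2 : IntegrableOn (fun x => Real.log (L x)) R := by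
    have hg : IntegrableOn (fun x => 2 * (1 : ℝ) + (L x)⁻¹) R := (i0.const_mul 2).add i1
    refine hg.mono' (Real.measurable_log.comp m1.ennreal_toReal).aestronglyMeasurable ?_
    filter_upwards with x
    rw [Real.norm_eq_abs, abs_le]
    rcases (hL0 x).eq_or_lt with h | h
    · rw [← h]
      simp
    · have a1 := Real.log_le_sub_one_of_pos h
      have a2 := Real.log_le_sub_one_of_pos (inv_pos.2 h)
      rw [Real.log_inv] at a2
      have a3 := hL2 x
      have a4 := inv_pos.2 h
      constructor <;> linarith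
  refine ⟨i2, ?_⟩
  set m : ℝ := vol (cyl R e) / vol R with hm
  have hm0 : 0 < m := div_pos hC hV
  have key : ∫ x in R, ((1 - Real.log m) * 1 - m⁻¹ * (L x)⁻¹) ≤ ∫ x in R, Real.log (L x) := by
    refine integral_mono_ae ((i0.const_mul _).sub (i1.const_mul _)) i2 ?_
    filter_upwards [m3] with x hx
    have hx0 : 0 < L x := ENNReal.toReal_pos hx (fib_ne_top hb e x)
    have a1 := Real.log_le_sub_one_of_pos (mul_pos (inv_pos.2 hm0) (inv_pos.2 hx0))
    rw [Real.log_mul (inv_pos.2 hm0).ne' (inv_pos.2 hx0).ne', Real.log_inv, Real.log_inv] at a1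
    show (1 - Real.log m) * 1 - m⁻¹ * (L x)⁻¹ ≤ Real.log (L x)
    linarith
  rw [integral_sub (i0.const_mul _) (i1.const_mul _), integral_const_mul, integral_const_mul,
    v1] at key
  have v0 : ∫ _ in R, (1 : ℝ) = vol R := by
    rw [setIntegral_const, smul_eq_mul, mul_one]
    rfl
  rw [v0] at key
  unfold mean
  rw [le_div_iff₀ hV]
  have e1 : m⁻¹ * vol (cyl R e) = vol R := by
    rw [hm]
    field_simp
  rw [e1] at key
  calc -Real.log m * vol R = (1 - Real.log m) * vol R - vol R := by ring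
    _ ≤ _ := key

theorem fib_Rset {S : Set (E → ℝ)} {H : ℕ} (Q : E → (E → Fin (H + 1)) → ℕ → ℝ) (e : E)
    (c : E → Fin (H + 1)) {x : E → ℝ} (hx : x ∈ Rset S H Q e c) :
    fib (Rset S H Q e c) e x = fib S e x := by
  ext y
  constructor
  · intro h
    exact h.1
  · intro h
    refine ⟨h, fun e' he' => ?_⟩
    rw [Function.update_of_ne he'.ne]
    exact hx.2 e' he'

end XiLogAux

open XiLogAux in
theorem stXiLog (h1 : StVolR) (h2 : StAvg) (h3 : StFubB) : StXiLog := by
  intro E _ _ S H l T hS hb hS0 h0 hH hl e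
  have hv := (h1 E S H l T hS hb hS0 h0 hH hl).1
  have hw : ∀ h : Fin (H + 1), 0 ≤ wts H l h := fun h => by
    unfold wts
    have := hl h (Nat.lt_succ_iff.1 h.2)
    linarith
  obtain ⟨i1, -⟩ := jensen h3 hS hb hS0 e
  rw [← h2 E S H l T hS hb hS0 h0 hH hl e _ i1]
  refine EE_mono hw fun c => ?_
  obtain ⟨r1, -, r3⟩ := hv e c
  have hbR : ∀ x ∈ Rset S H T.Q e c, ∀ e, 0 < x e ∧ x e ≤ 2 := fun x hx => hb x hx.1
  have hR0 : volume (Rset S H T.Q e c) ≠ 0 := by
    intro h
    unfold vol at r3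
    rw [h] at r3
    simp at r3
  obtain ⟨-, j2⟩ := jensen h3 r1 hbR hR0 e
  refine j2.trans_eq ?_
  unfold mean
  congr 1
  refine setIntegral_congr_fun r1 fun x hx => ?_
  show Real.log (volume (fib (Rset S H T.Q e c) e x)).toReal = Real.log (volume (fib S e x)).toReal
  rw [fib_Rset T.Q e c hx]

end Pool.Agent.Lib.MP_193d8d_pr
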