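import Pool.Agent.Lib.MP_193d8d_pr.Vol
import Pool.Agent.Lib.MP_193d8d_pr.FubA
import Pool.Agent.Lib.MP_193d8d_pr.FubB
import Pool.Agent.Lib.MP_193d8d_pr.Proj
import Pool.Agent.Lib.MP_193d8d_pr.Dens
import Pool.Agent.Lib.MP_193d8d_pr.DensLe
import Pool.Agent.Lib.MP_193d8d_pr.PLn
import Pool.Agent.Lib.MP_193d8d_pr.MidC
import Pool.Agent.Lib.MP_193d8d_pr.DensLC
import Pool.Agent.Lib.MP_193d8d_pr.Sym
import Pool.Agent.Lib.MP_193d8d_pr.OneD
import Pool.Agent.Lib.MP_193d8d_pr.Ent
import Pool.Agent.Lib.MP_193d8d_pr.Z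
import Pool.Agent.Lib.MP_193d8d_pr.Mom
import Pool.Agent.Lib.MP_193d8d_pr.Sharp
import Pool.Agent.Lib.MP_193d8d_pr.Tree
import Pool.Agent.Lib.MP_193d8d_pr.VolR
import Pool.Agent.Lib.MP_193d8d_pr.Avg
import Pool.Agent.Lib.MP_193d8d_pr.Box
import Pool.Agent.Lib.MP_193d8d_pr.MainG
import Pool.Agent.Lib.MP_193d8d_pr.MomT
import Pool.Agent.Lib.MP_193d8d_pr.NegT
import Pool.Agent.Lib.MP_193d8d_pr.Xi
import Pool.Agent.Lib.MP_193d8d_pr.XiLog
import Pool.Agent.Lib.MP_193d8d_pr.MainS
import Pool.Agent.Lib.MP_193d8d_pr.UpE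
import Pool.Agent.Lib.MP_193d8d_pr.Bavg
import Pool.Agent.Lib.MP_193d8d_pr.LowQ
import Pool.Agent.Lib.MP_193d8d_pr.Tight

/-! # Block 1 assembled -/

set_option autoImplicit false

namespace Pool.Agent.Lib.MP_193d8d_pr.MF

theorem vol : StVol := stVol
theorem fubA : StFubA := stFubA
theorem fubB : StFubB := stFubB
theorem proj : StProj := stProj vol fubB
theorem densT : StDens := stDens vol fubA
theorem densLe : StDensLe := stDensLe vol densT fubB proj
theorem pln : StPLn := stPLn
theorem midC : StMidC := stMidC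
theorem densLC : StDensLC := stDensLC densT pln midC vol
theorem sym : StSym := stSym
theorem oneD : StOneD := stOneD
theorem ent : StEnt := stEnt vol fubA fubB densT densLe densLC oneD
theorem zz : StZ := stZ vol fubB proj
theorem mom : StMom := stMom vol fubA densT densLe densLC oneD
theorem sharp : StSharp := stSharp vol densT densLe densLC oneD
theorem tree : StTree := stTree
theorem volR : StVolR := stVolR
theorem avg : StAvg := stAvg volR
theorem box : StBox := stBox vol volR
theorem mainG : StMainG := stMainG vol box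
theorem momT : StMomT := stMomT volR avg
theorem negT : StNegT := stNegT vol volR avg fubB
theorem xi : StXi := stXi volR fubB
theorem xiLog : StXiLog := stXiLog volR avg fubB
theorem mainS : StMainS := stMainS mainG box
theorem upE : StUpE := stUpE mainS momT negT vol
theorem bavg : StBavg := stBavg
theorem lowQ : StLowQ := stLowQ vol volR avg xi xiLog proj ent mom
theorem tight : StTight := stTight vol tree upE bavg lowQ mom zz momT sym

end Pool.Agent.Lib.MP_193d8d_pr.MF
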