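import Pool.Agent.Lib.MP_193d8d_pr.DefsB

set_option autoImplicit false
open MeasureTheory Set Filter Topology

namespace Pool.Agent.Lib.MP_193d8d_pr

/-! # Block 2: lower bound, linear term, a priori bounds, rigidity, convergence -/

/-! ## C. the cherry functional and the lower bound -/

/-- C1: layer cake -/
def StBetaG : Prop := ∀ (n : ℕ) (κ : Type) [Fintype κ] (p rv : κ → ℝ) (K : ℝ) (e : Edge n),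
  2 ≤ n → (∀ h, 0 ≤ p h) → ∑ h, p h = 1 → (∀ h, |rv h| ≤ K) →
  EE p (fun c : Edge n → κ => cherry (fun f => rv (c f)) e) =
    ∫ s in Ioi (0 : ℝ),
      (1 - (1 - ∑ h, ∑ h', if s < rv h + rv h' then p h * p h' else 0) ^ (n - 2))

/-- C2: the reference cells -/
def StBetaEE : Prop := ∀ (n J m : ℕ) (ε δ K : ℝ) (q : ℕ → ℝ) (e : Edge n), 2 ≤ n → 0 < ε →
  0 < δ → 0 ≤ K → (m + 1) * δ * ε ≤ 1 → (∀ i ≤ m, |q i| ≤ K) →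
  EE (wts (J + m + 1) (lev ε δ J m)) (fun c => cherry (fun f => ref K J q (c f)) e) =
    beta (n - 2) (ε * δ) m q

/-- C3: domination -/
def StBetaDom : Prop := ∀ (n m : ℕ) (ρ K : ℝ) (p : Fin (m + 1) → ℝ) (q : ℕ → ℝ) (e : Edge n),
  2 ≤ n → 0 ≤ ρ → (∀ i, 0 ≤ p i) → ∑ i, p i = 1 → (∀ i : Fin (m + 1), (i : ℕ) < m → p i ≤ ρ) → 0 ≤ K →
  (∀ i ≤ m, |q i| ≤ K) → (m + 1) * ρ ≤ 1 →
  EE p (fun c => cherry (fun f => if (c f : ℕ) = m then -K else q (c f)) e) ≤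
    beta (n - 2) ρ m q

/-- C4: disjoint boxes in the metric polytope -/
def StLowBox : Prop := ∀ (K : ℝ) (m : ℕ), 0 < K → ∃ n0 : ℕ, ∀ n, n0 ≤ n → ∀ q : ℕ → ℝ,
  (∀ i < m, q (i + 1) ≤ q i) → (∀ i ≤ m, |q i| ≤ K) → q 0 + q m ≤ 0 →
  (∀ (ω : Edge n → Fin (m + 1)) (e : Edge n), 0 ≤ lowside (rr n) K m q ω e) ∧
    ∑ ω : Edge n → Fin (m + 1), ∏ e, lowside (rr n) K m q ω e ≤ vol (M 0 n)

/-- C5: the lower bound -/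
def StLow : Prop := ∀ (δ K : ℝ) (m : ℕ), 0 < δ → 0 < K → ∃ (C : ℝ) (n0 : ℕ), ∀ n, n0 ≤ n →
  ∀ q : ℕ → ℝ, (∀ i < m, q (i + 1) ≤ q i) → (∀ i ≤ m, |q i| ≤ K) → q 0 + q m ≤ 0 →
  Lam δ m q - beta (n - 2) (δ * rr n) m q - C * rr n ≤ vv n

/-- C6: a numerical lower bound -/
def StVlow : Prop := ∃ n0 : ℕ, ∀ n, n0 ≤ n → 3 / 20 ≤ vv n

/-- C7: `beta` has a limit, uniformly -/
def StBetaConv : Prop := ∀ (δ K ρ : ℝ) (m : ℕ), 0 < δ → 0 < ρ → ∃ n0 : ℕ, ∀ n n', n0 ≤ n →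
  n0 ≤ n' → ∀ q : ℕ → ℝ, (∀ i ≤ m, |q i| ≤ K) →
  |beta (n - 2) (δ * rr n) m q - beta (n' - 2) (δ * rr n') m q| ≤ ρ

/-! ## D. the linear term (Efron - Stein) -/

/-- D1: Efron - Stein inequality -/
def StEfron : Prop := ∀ (ι κ : Type) [Fintype ι] [DecidableEq ι] [Fintype κ] (p : κ → ℝ) (c0 : κ)
  (f : (ι → κ) → ℝ), (∀ h, 0 ≤ p h) → ∑ h, p h = 1 →
  EE p (fun c => (f c - EE p f) ^ 2) ≤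
    ∑ l, EE p (fun c => (f c - f (Function.update c l c0)) ^ 2)

/-- D2: variance of the total subgradient -/
def StDvar : Prop := ∃ C : ℝ, 1 ≤ C ∧ ∀ (n : ℕ) (κ : Type) [Fintype κ] [DecidableEq κ]
  (p rv : κ → ℝ) (last : κ) (K : ℝ) (g : Edge n) (h0 : κ), 3 ≤ n → (∀ h, 0 ≤ p h) →
  ∑ h, p h = 1 → rv last = -K → (∀ h, rv h ≤ K) →
  EE p (fun c => (Dw (fun f => rv (Function.update c g h0 f)) g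
      - EE p (fun c' => Dw (fun f => rv (Function.update c' g h0 f)) g)) ^ 2) ≤
    C * ((n : ℝ) * (1 - p last) * (1 + n * (1 - p last) ^ 2) ^ 2
      + (n : ℝ) ^ 2 * (1 - p last) ^ 3)

/-- D3: symmetry -/
def StDsym : Prop := ∀ (n : ℕ) (κ : Type) [Fintype κ] [DecidableEq κ] (p rv : κ → ℝ) (h0 : κ)
  (g g' : Edge n),
  EE p (fun c => Dw (fun f => rv (Function.update c g h0 f)) g) =
    EE p (fun c => Dw (fun f => rv (Function.update c g' h0 f)) g')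

/-- D4: the linear term is small -/
def StLin : Prop := ∃ C : ℝ, 1 ≤ C ∧ ∀ (n m J : ℕ) (δ K : ℝ)
  (a : Edge n → (Edge n → Fin (J + m + 1 + 1)) → ℕ → ℝ) (q : ℕ → ℝ), 3 ≤ n → 0 < δ → 0 < K →
  (m + 1) * δ * rr n < 1 → (∀ e c h, a e (Function.update c e h) = a e c) →
  (∀ i ≤ m, q i = AV (fun e => EE (wts (J + m + 1) (lev (rr n) δ J m))
    (fun c => clamp K (a e c i)))) →
  |AV (fun e => EE (wts (J + m + 1) (lev (rr n) δ J m)) (fun c =>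
      lin (fun f => ref K J q (c f)) (fun f => val K J a c f - ref K J q (c f)) e))| ≤
    C * K * (1 + (m + 1) * δ) ^ 4 / Real.sqrt (Real.sqrt n)

/-- D5: convexity -/
def StGapNN : Prop := ∀ (n : ℕ) (u v : Edge n → ℝ) (e : Edge n), 0 ≤ gap u v e

/-- D6 -/
def StSlackNN : Prop := ∀ (δ : ℝ) (n : ℕ) (T : TT δ n), 0 < δ → 3 ≤ n →
  (md δ + 1) * δ * rr n < 1 → 0 ≤ slackA T ∧ 0 ≤ slackB T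

/-- D7: moments for the polytope with distances above 9/10 -/
def StMomK : Prop := ∃ C : ℝ, 1 ≤ C ∧ ∀ᶠ n : ℕ in atTop,
  (1 - 1 / (n : ℝ) ^ 2) * vol (M 0 n) ≤ vol (M (9 / 10) n) ∧ ∀ e : Edge n,
  mean (M (9 / 10) n) (fun x => max 0 (1 - x e) ^ 2) ≤ C * rr n ^ 3 ∧
  mean (M (9 / 10) n) (fun x => max 0 (1 - x e) ^ 4) ≤ C * rr n ^ 5 ∧
  mean (M (9 / 10) n) (fun x => max 0 (sInf (fib (M (9 / 10) n) e x) - 1)) ≤ C * rr n ∧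
  vol {x | x ∈ M (9 / 10) n ∧ x e ≤ 1} / vol (M (9 / 10) n) ≤ C * rr n ∧
  (1 - 1 / (n : ℝ) ^ 2) * vol (cyl (M (9 / 10) n) e) ≤ vol (M (9 / 10) n)

/-- D8: THE UPPER BOUND -/
def StUpJ : Prop := ∃ C : ℝ, 1 ≤ C ∧ ∀ᶠ δ in 𝓝[>] (0 : ℝ), ∀ᶠ n : ℕ in atTop, ∀ T : TT δ n,
  vv n + slackA T + slackB T ≤ Jn δ n (qv T) + C * Real.sqrt δ

/-! ## E. a priori bounds for the profile -/

/-- E1: increments of the quantiles decrease -/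
def StMonoT : Prop := ∀ (n H : ℕ) (l : ℕ → ℝ) (T : Tree (M (9 / 10) n) H l), 3 ≤ n → l 0 = 0 →
  l (H + 1) = 1 → (∀ h, h ≤ H → l h < l (h + 1)) → ∀ (e : Edge n) (c : Edge n → Fin (H + 1))
  (h : ℕ), h + 2 ≤ H + 1 → l (h + 1) - l h = l (h + 2) - l (h + 1) → l (h + 2) ≤ 1 / 2 →
  T.Q e c (h + 2) - T.Q e c (h + 1) ≤ T.Q e c (h + 1) - T.Q e c h

/-- E2: fibres are not short -/
def StXiS : Prop := ∀ (n H : ℕ) (l : ℕ → ℝ) (T : Tree (M (9 / 10) n) H l), 3 ≤ n → l 0 = 0 →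
  l (H + 1) = 1 → (∀ h, h ≤ H → l h < l (h + 1)) → ∀ (e : Edge n) (c : Edge n → Fin (H + 1)),
  7 / 10 * vol (cyl (Rset (M (9 / 10) n) H T.Q e c) e) ≤ vol (Rset (M (9 / 10) n) H T.Q e c) ∧
  0 < vol (cyl (Rset (M (9 / 10) n) H T.Q e c) e)

/-- E3: pointwise version of `StNegT` -/
def StNegC : Prop := ∀ (κ : ℝ) (n H : ℕ) (l : ℕ → ℝ) (T : Tree (M κ n) H l), 0 ≤ κ → κ < 1 →
  3 ≤ n → l 0 = 0 → l (H + 1) = 1 → (∀ h, h ≤ H → l h < l (h + 1)) →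
  ∀ (e : Edge n) (c : Edge n → Fin (H + 1)) (h : ℕ), h ≤ H + 1 →
    max 0 (T.Q e c h - 1) ≤ 2 * l h +
      mean (Rset (M κ n) H T.Q e c) (fun x => max 0 (sInf (fib (M κ n) e x) - 1))

/-- E4: moments of the positions -/
def StPsMom : Prop := ∃ C : ℝ, 1 ≤ C ∧ ∀ᶠ δ in 𝓝[>] (0 : ℝ), ∀ᶠ n : ℕ in atTop,
  ∀ (T : TT δ n) (e : Edge n), ∀ i ≤ md δ,
  EE (pw δ n) (fun c => max 0 (ps T.Q (rr n) n e c i) ^ 2) ≤ C / (((i : ℝ) + 1) * δ) ∧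
  EE (pw δ n) (fun c => max 0 (-ps T.Q (rr n) n e c i)) ≤ 2 * (((i : ℝ) + 1) * δ) + C

/-- E5: the inverse of the cylinder ratio -/
def StXiT : Prop := ∀ᶠ n : ℕ in atTop, ∀ (δ : ℝ) (T : TT δ n) (e : Edge n), 0 < δ →
  (md δ + 1) * δ * rr n < 1 →
  1 - 1 / (n : ℝ) ^ 2 ≤ EE (pw δ n) (fun c => vol (Rset (M (9 / 10) n) (HH δ n) T.Q e c) /
    vol (cyl (Rset (M (9 / 10) n) (HH δ n) T.Q e c) e)) ∧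
  ∀ c, 7 / 10 ≤ vol (Rset (M (9 / 10) n) (HH δ n) T.Q e c) /
      vol (cyl (Rset (M (9 / 10) n) (HH δ n) T.Q e c) e) ∧
    vol (Rset (M (9 / 10) n) (HH δ n) T.Q e c) /
      vol (cyl (Rset (M (9 / 10) n) (HH δ n) T.Q e c) e) ≤ 2

/-- E6 -/
def StQa : Prop := ∃ C : ℝ, 1 ≤ C ∧ ∀ᶠ δ in 𝓝[>] (0 : ℝ), ∀ᶠ n : ℕ in atTop, ∀ T : TT δ n,
  (∀ i < md δ, qv T (i + 1) ≤ qv T i) ∧ (∀ i ≤ md δ, |qv T i| ≤ Kd δ) ∧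
  (∀ i ≤ md δ, qv T i ≤ C / Real.sqrt ((i + 1) * δ)) ∧
  (∀ i ≤ md δ, -C - 2 * (((i : ℝ) + 1) * δ) ≤ qv T i)

/-- E7 -/
def StQb : Prop := ∃ C : ℝ, 1 ≤ C ∧ ∀ᶠ δ in 𝓝[>] (0 : ℝ), ∀ᶠ n : ℕ in atTop, ∀ T : TT δ n,
  ∀ i ≤ md δ, 1 ≤ ((i : ℝ) + 1) * δ → qv T i ≤ C - (i + 1) * δ / 2

/-- E8 -/
def StQc : Prop := ∃ C : ℝ, 1 ≤ C ∧ ∀ᶠ δ in 𝓝[>] (0 : ℝ), ∀ᶠ n : ℕ in atTop, ∀ T : TT δ n,
  ∀ i < md δ, qv T i - qv T (i + 1) ≤ δ * (C * (1 + 1 / (((i : ℝ) + 1) * δ)) ^ 2)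

/-- E9 -/
def StGoodA : Prop := ∃ C0 : ℝ, 1 ≤ C0 ∧ ∀ᶠ δ in 𝓝[>] (0 : ℝ), ∀ᶠ n : ℕ in atTop,
  ∀ T : TT δ n, GoodA C0 δ (qv T)

/-- E10 -/
def StSteepT : Prop := ∀ η Γ : ℝ, 0 < η → 0 < Γ → ∀ᶠ δ in 𝓝[>] (0 : ℝ), ∀ᶠ n : ℕ in atTop,
  ∀ T : TT δ n, Steep η Γ δ (qv T)

/-- E11: profiles with small `q` at a small level have a small `Lam` -/
def StLamTail : Prop := ∀ C0 : ℝ, 1 ≤ C0 → ∃ c : ℝ, 0 < c ∧ c ≤ 1 ∧ ∀ (δ : ℝ) (q : ℕ → ℝ),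
  0 < δ → δ ≤ 1 → GoodA C0 δ q → 1 / 10 ≤ Lam δ (md δ) q →
  ∀ i ≤ md δ, ((i : ℝ) + 1) * δ ≤ c → 0 < q i

/-- E12 -/
def StGoodB : Prop := ∃ C0 c1 : ℝ, 1 ≤ C0 ∧ 0 < c1 ∧ c1 ≤ 1 ∧ ∀ᶠ δ in 𝓝[>] (0 : ℝ),
  ∀ᶠ n : ℕ in atTop, ∀ T : TT δ n, Good C0 c1 δ (qv T)

/-! ## F. strict concavity -/

/-- F1: small slack gives small deviations of the increments -/
def StIncr : Prop := ∀ C0 γa Γ ρ : ℝ, 1 ≤ C0 → 0 < γa → γa < Γ → 0 < ρ → ∃ τ : ℝ, 0 < τ ∧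
  ∀ (δ : ℝ) (n : ℕ) (T : TT δ n), 0 < δ → δ < 1 → 3 ≤ n → (md δ + 1) * δ * rr n < 1 →
    (∀ i < md δ, qv T i - qv T (i + 1) ≤ δ * (C0 * (1 + 1 / (((i : ℝ) + 1) * δ)) ^ 2)) →
    Steep τ Γ δ (qv T) → slackA T ≤ τ → AE δ n (tv T γa Γ) ≤ ρ

/-- F2: two profiles -/
def StIncQ : Prop := ∀ C0 γa Γ ρ : ℝ, 1 ≤ C0 → 0 < γa → γa < Γ → 0 < ρ → ∃ τ : ℝ, 0 < τ ∧
  ∀ (δ : ℝ) (q q' : ℕ → ℝ), 0 < δ → δ < 1 → GoodA C0 δ q → GoodA C0 δ q' →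
    Steep τ Γ δ q → Steep τ Γ δ q' →
    Lam δ (md δ) (fun i => (q i + q' i) / 2) ≤ (Lam δ (md δ) q + Lam δ (md δ) q') / 2 + τ →
    ∑ i ∈ rg δ γa Γ, |(q i - q (i + 1)) - (q' i - q' (i + 1))| ≤ ρ

/-- F3: number of positive pairs -/
def StCnt0 : Prop := ∀ C0 : ℝ, 1 ≤ C0 → ∃ L : ℝ, 1 ≤ L ∧ ∀ (δ : ℝ) (q : ℕ → ℝ), 0 < δ → δ ≤ 1 →
  GoodA C0 δ q → δ ^ 2 * cnt (md δ) q 0 ≤ L

/-- F4: quantitative convexity of `beta` -/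
def StBetaGap : Prop := ∀ (n m : ℕ) (ρ K g : ℝ) (q q' : ℕ → ℝ) (Z : Finset ℕ), 3 ≤ n → 0 ≤ ρ →
  (m + 1) * ρ ≤ 1 → (∀ i ≤ m, |q i| ≤ K ∧ |q' i| ≤ K) → Z ⊆ Finset.range (m + 1) → 0 ≤ g →
  (∀ i ∈ Z, ∀ i' ∈ Z, g ≤ (max 0 (q i + q i') + max 0 (q' i + q' i')) / 2
    - max 0 ((q i + q' i) / 2 + (q i' + q' i') / 2)) →
  ((n : ℝ) - 2) * (ρ * Z.card) ^ 2 * (1 - ρ ^ 2 * (((Finset.range (m + 1) ×ˢ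
      Finset.range (m + 1)).filter (fun z => 0 < q z.1 + q z.2 ∨ 0 < q' z.1 + q' z.2 ∨
        (z.1 ∈ Z ∧ z.2 ∈ Z))).card : ℝ)) ^ (n - 3) * g ≤
    (beta (n - 2) ρ m q + beta (n - 2) ρ m q') / 2
      - beta (n - 2) ρ m (fun i => (q i + q' i) / 2)

/-- F5: near maximisers are close -/
def StCloseQ : Prop := ∀ C0 c1 γa Γ ρ : ℝ, 1 ≤ C0 → 0 < c1 → 0 < γa → γa < Γ →
  2 * C0 + 5 ≤ Γ → 0 < ρ → ∃ τ : ℝ, 0 < τ ∧ ∀ᶠ δ in 𝓝[>] (0 : ℝ), ∀ᶠ n : ℕ in atTop,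
  ∀ q q' : ℕ → ℝ, Good C0 c1 δ q → Good C0 c1 δ q' → Steep τ Γ δ q → Steep τ Γ δ q' →
    Jn δ n (fun i => (q i + q' i) / 2) ≤ (Jn δ n q + Jn δ n q') / 2 + τ →
    ∀ i ≤ md δ, γa ≤ ((i : ℝ) + 1) * δ → ((i : ℝ) + 1) * δ ≤ Γ → |q i - q' i| ≤ ρ

/-- F6: near maximisers are large at small levels -/
def StTailPos : Prop := ∀ C0 c1 T0 : ℝ, 1 ≤ C0 → 0 < c1 → 0 < T0 → ∃ γ τ : ℝ, 0 < γ ∧ 0 < τ ∧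
  ∀ᶠ δ in 𝓝[>] (0 : ℝ), ∀ᶠ n : ℕ in atTop, ∀ q : ℕ → ℝ, Good C0 c1 δ q →
    (∀ q' : ℕ → ℝ, (∀ i < md δ, q' (i + 1) ≤ q' i) → (∀ i ≤ md δ, |q' i| ≤ Kd δ + 1) →
      q' 0 + q' (md δ) ≤ 0 → Jn δ n q' ≤ Jn δ n q + τ) →
    ∀ i ≤ md δ, ((i : ℝ) + 1) * δ ≤ γ → T0 ≤ q i

/-! ## G. rigidity -/

/-- indicator of the special event: the cells of `i k` and `j k` are in `Z`, no other cherry on
`i, j` is bad -/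
noncomputable def spec {n : ℕ} {κ : Type} [DecidableEq κ] (l0 : κ) (Z : Finset κ)
    (bad : Finset (κ × κ)) (c : Edge n → κ) (i j k : Fin n) : ℝ :=
  (if ext l0 c i k ∈ Z then 1 else 0) * (if ext l0 c j k ∈ Z then 1 else 0) *
    ∏ k' : Fin n, (if k' = i ∨ k' = j ∨ k' = k then 1
      else if (ext l0 c i k', ext l0 c j k') ∈ bad then 0 else 1)

/-- G1 -/
def StIndepS : Prop := ∀ (n : ℕ) (κ : Type) [Fintype κ] [DecidableEq κ] (p : κ → ℝ) (l0 : κ)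
  (Z : Finset κ) (bad : Finset (κ × κ)) (F : (Edge n → κ) → ℝ) (i j k : Fin n) (hij : i < j)
  (hjk : j < k), (∀ h, 0 ≤ p h) → ∑ h, p h = 1 → (∀ c, 0 ≤ F c ∧ F c ≤ 1) →
  (∀ c g h, (k < g.b ∨ g = ⟨j, k, hjk⟩) → F (Function.update c g h) = F c) →
  (1 - ∑ y ∈ bad, p y.1 * p y.2) ^ n * (∑ h ∈ Z, p h) *
    (EE p (fun c => (if c ⟨i, k, hij.trans hjk⟩ ∈ Z then 1 else 0) * F c)
      - (∑ h ∈ Z, p h) * (k : ℕ) * ∑ y ∈ bad, p y.1 * p y.2) ≤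
    EE p (fun c => spec l0 Z bad c i j k * F c)

/-- G2 -/
def StMartS : Prop := ∀ (n : ℕ) (κ : Type) [Fintype κ] [DecidableEq κ] (p : κ → ℝ) (l0 : κ)
  (Z : Finset κ) (σ : Edge n → (Edge n → κ) → ℝ) (F : ℝ → ℝ → ℝ) (B s : ℝ) (j k : Fin n),
  j < k → (∀ h, 0 ≤ p h) → ∑ h, p h = 1 →
  (∀ e c c', (∀ e', e' < e → c e' = c' e') → σ e c = σ e c') → (∀ e c, |σ e c| ≤ B) → 0 < s →
  (∀ x y, 0 ≤ F x y ∧ F x y ≤ 1) → (∀ x y y', |F x y - F x y'| ≤ |y - y'|) →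
  (∑ h ∈ Z, p h) * (∑ i ∈ Finset.univ.filter (fun i => i < j),
      EE p (fun c => F (ext 0 (fun e => σ e c) i k) (ext 0 (fun e => σ e c) j k)))
    - (2 * B / s + 2) * Real.sqrt ((j : ℕ) * ∑ h ∈ Z, p h)
    - 2 * s * (∑ h ∈ Z, p h) * (j : ℕ) ≤
  ∑ i ∈ Finset.univ.filter (fun i => i < j), EE p (fun c =>
      (if ext l0 c i k ∈ Z then 1 else 0) *
        F (ext 0 (fun e => σ e c) i k) (ext 0 (fun e => σ e c) j k))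

/-- G3 -/
def StErrS : Prop := ∀ (n : ℕ) (κ : Type) [Fintype κ] [DecidableEq κ] (p : κ → ℝ) (l0 : κ)
  (Z : Finset κ) (err : Edge n → (Edge n → κ) → ℝ) (B : ℝ) (j k : Fin n),
  j < k → (∀ h, 0 ≤ p h) → ∑ h, p h = 1 →
  (∀ e c c', (∀ e', e' < e → c e' = c' e') → err e c = err e c') →
  (∀ e c, 0 ≤ err e c ∧ err e c ≤ B) →
  ∑ i ∈ Finset.univ.filter (fun i => i < j), EE p (fun c =>
      (if ext l0 c i k ∈ Z then 1 else 0) * (if ext l0 c j k ∈ Z then 1 else 0) *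
        (ext 0 (fun e => err e c) i k + ext 0 (fun e => err e c) j k)) ≤
    (∑ h ∈ Z, p h) ^ 2 * (∑ i ∈ Finset.univ.filter (fun i => i < j),
      EE p (fun c => ext 0 (fun e => err e c) i k)) +
    (∑ h ∈ Z, p h) * ((∑ h ∈ Z, p h) * (j : ℕ) * EE p (fun c => ext 0 (fun e => err e c) j k)
      + B * Real.sqrt ((j : ℕ) * ∑ h ∈ Z, p h))

/-- G4 -/
def StTriple : Prop := ∀ (n : ℕ) (s : Fin n → ℝ) (k : Fin n), 3 ≤ (k : ℕ) →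
  ∑ i ∈ Finset.univ.filter (fun i => i < k), min 1 |s i| ≤ 6 / (((k : ℕ) : ℝ) - 1) *
    ∑ j ∈ Finset.univ.filter (fun j => j < k), ∑ i ∈ Finset.univ.filter (fun i => i < j),
      min 1 |s i + s j|

/-- G5: the core estimate, one sign `ς = ± 1` -/
def StCore : Prop := ∀ (n P : ℕ) (κ : Type) [Fintype κ] [DecidableEq κ] (p : κ → ℝ) (l0 : κ)
  (Z : Finset κ) (bad : Finset (κ × κ)) (σ err G : Edge n → (Edge n → κ) → ℝ) (B s ς : ℝ),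
  (∀ h, 0 ≤ p h) → ∑ h, p h = 1 → P ≤ n → (ς = 1 ∨ ς = -1) → 0 < s → 0 ≤ B → Z ×ˢ Z ⊆ bad →
  (∀ e c c', (∀ e', e' < e → c e' = c' e') → σ e c = σ e c') → (∀ e c, |σ e c| ≤ B) →
  (∀ e c c', (∀ e', e' < e → c e' = c' e') → err e c = err e c') →
  (∀ e c, 0 ≤ err e c ∧ err e c ≤ B) → (∀ e c, 0 ≤ G e c) →
  (∀ (i j k : Fin n) (hij : i < j), j < k → ∀ c, spec l0 Z bad c i j k *
    min 1 (max 0 (ς * (ext 0 (fun e => σ e c) i k + ext 0 (fun e => σ e c) j k) - 2 * s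
      - ext 0 (fun e => err e c) i k - ext 0 (fun e => err e c) j k)) ≤ G ⟨i, j, hij⟩ c) →
  (1 - ∑ y ∈ bad, p y.1 * p y.2) ^ n * (∑ h ∈ Z, p h) ^ 2 *
    (∑ k ∈ Finset.univ.filter (fun k : Fin n => (k : ℕ) < P),
      ∑ j ∈ Finset.univ.filter (fun j => j < k), ∑ i ∈ Finset.univ.filter (fun i => i < j),
        EE p (fun c => min 1 (max 0 (ς * (ext 0 (fun e => σ e c) i k
          + ext 0 (fun e => σ e c) j k) - 2 * s)))) ≤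
    (∑ e, EE p (G e)) + (2 * B / s + 2 + B) * ((∑ h ∈ Z, p h) * Real.sqrt (∑ h ∈ Z, p h)) *
        ((P : ℝ) ^ 2 * Real.sqrt P) + s * (∑ h ∈ Z, p h) ^ 2 * (P : ℝ) ^ 3
      + (∑ h ∈ Z, p h) ^ 2 * (∑ y ∈ bad, p y.1 * p y.2) * (P : ℝ) ^ 4
      + 2 * (∑ h ∈ Z, p h) ^ 2 * P * (∑ e ∈ Finset.univ.filter (fun e : Edge n => (e.b : ℕ) < P),
        EE p (err e))

/-- G6: the convexity gap on the special event -/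
def StGapLow : Prop := ∀ (δ : ℝ) (n : ℕ) (T : TT δ n) (γa Γ s ς : ℝ) (i0 : ℕ)
  (Z : Finset (Fin (HH δ n + 1))) (bad : Finset (Fin (HH δ n + 1) × Fin (HH δ n + 1))),
  0 < δ → 3 ≤ n → (ς = 1 ∨ ς = -1) → 0 < s → (∀ i ≤ md δ, |qv T i| ≤ Kd δ) → i0 ≤ md δ →
  γa ≤ ((i0 : ℝ) + 1) * δ → ((i0 : ℝ) + 1) * δ ≤ Γ →
  (∀ h ∈ Z, (h : ℕ) ≠ HH δ n ∧ γa ≤ ((cls n h : ℝ) + 1) * δ ∧ ((cls n h : ℝ) + 1) * δ ≤ Γ ∧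
    |qv T (cls n h)| ≤ s ∧ (ς = 1 → qv T (cls n h) ≤ 0) ∧ (ς = -1 → 0 < qv T (cls n h))) →
  Z ×ˢ Z ⊆ bad → (∀ h h' : Fin (HH δ n + 1), (h : ℕ) ≠ HH δ n → (h' : ℕ) ≠ HH δ n →
    0 < qv T (cls n h) + qv T (cls n h') → (h, h') ∈ bad) →
  ∀ (i j k : Fin n) (hij : i < j), j < k → ∀ c,
    spec (Fin.last (HH δ n)) Z bad c i j k *
      min 1 (max 0 (ς * (ext 0 (fun e => pos T e c i0 - qv T i0) i k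
        + ext 0 (fun e => pos T e c i0 - qv T i0) j k) - 2 * s
        - ext 0 (fun e => tv T γa Γ e c) i k - ext 0 (fun e => tv T γa Γ e c) j k)) ≤
    gap (fun f => ref (Kd δ) n (qv T) (c f)) (val (Kd δ) n (ps T.Q (rr n) n) c) ⟨i, j, hij⟩

/-- G7: RIGIDITY -/
def StRigid : Prop := ∀ C0 c1 γa Γ ρ : ℝ, 1 ≤ C0 → 0 < c1 → 0 < γa → γa ≤ c1 →
  2 * C0 + 5 ≤ Γ → 0 < ρ → ∃ θ τ η : ℝ, 0 < θ ∧ θ < 1 ∧ 0 < τ ∧ 0 < η ∧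
  ∀ᶠ δ in 𝓝[>] (0 : ℝ), ∀ᶠ n : ℕ in atTop, ∀ T : TT δ n,
    Good C0 c1 δ (qv T) → AE δ n (tv T γa Γ) ≤ η → slackB T ≤ τ →
    ∑ e ∈ Finset.univ.filter (fun e : Edge n => (e.b : ℕ) < ⌊θ * n⌋₊),
      EE (pw δ n) (fun c => min 1 (dev T γa Γ e c)) ≤ ρ * (⌊θ * n⌋₊ : ℝ) ^ 2

/-! ## H. convergence -/

/-- H1: the marginal distribution from the profile -/
def StMarg : Prop := ∀ C0 γa Γ t ρ : ℝ, 1 ≤ C0 → 0 < γa → 2 * γa ≤ 1 → -1 ≤ t →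
  2 * C0 + 8 ≤ Γ → 0 < ρ →
  ∃ ρ' : ℝ, 0 < ρ' ∧ ∀ θ : ℝ, 0 < θ → θ < 1 → ∀ᶠ δ in 𝓝[>] (0 : ℝ), ∀ᶠ n : ℕ in atTop,
  ∀ T : TT δ n, GoodA C0 δ (qv T) → Steep (1 / 2) Γ δ (qv T) →
    (∀ i ≤ md δ, ((i : ℝ) + 1) * δ ≤ 2 * γa → t + 1 ≤ qv T i) →
    ∑ e ∈ Finset.univ.filter (fun e : Edge n => (e.b : ℕ) < ⌊θ * n⌋₊),
      EE (pw δ n) (fun c => min 1 (dev T γa Γ e c)) ≤ ρ' * (⌊θ * n⌋₊ : ℝ) ^ 2 →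
    ∀ e, |Gs n e t - lq δ (qv T) t| ≤ ρ

/-- H2: levels of close profiles are close -/
def StCountClose : Prop := ∀ C0 γa Γ t ρ : ℝ, 1 ≤ C0 → 0 < γa → 2 * γa ≤ 1 → -1 ≤ t →
  2 * C0 + 8 ≤ Γ → 0 < ρ →
  ∃ ρ' : ℝ, 0 < ρ' ∧ ∀ᶠ δ in 𝓝[>] (0 : ℝ), ∀ q q' : ℕ → ℝ, GoodA C0 δ q → GoodA C0 δ q' →
    Steep (1 / 2) Γ δ q → Steep (1 / 2) Γ δ q' →
    (∀ i ≤ md δ, ((i : ℝ) + 1) * δ ≤ 2 * γa → t + 1 ≤ q i ∧ t + 1 ≤ q' i) →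
    (∀ i ≤ md δ, γa ≤ ((i : ℝ) + 1) * δ → ((i : ℝ) + 1) * δ ≤ Γ → |q i - q' i| ≤ ρ') →
    |lq δ q t - lq δ q' t| ≤ ρ

/-- H3: near optimality -/
def StPack : Prop := ∀ τ : ℝ, 0 < τ → ∀ᶠ δ in 𝓝[>] (0 : ℝ), ∀ᶠ n : ℕ in atTop, ∀ T : TT δ n,
  slackA T ≤ τ ∧ slackB T ≤ τ ∧ vv n ≤ Jn δ n (qv T) + τ ∧
  ∀ q' : ℕ → ℝ, (∀ i < md δ, q' (i + 1) ≤ q' i) → (∀ i ≤ md δ, |q' i| ≤ Kd δ + 1) →
    q' 0 + q' (md δ) ≤ 0 → Jn δ n q' ≤ vv n + τ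

/-- H4: everything about one tree -/
def StOne : Prop := ∀ t ρ : ℝ, -1 ≤ t → 0 < ρ → ∀ᶠ δ in 𝓝[>] (0 : ℝ), ∀ᶠ n : ℕ in atTop,
  ∀ T : TT δ n, ∀ e, |Gs n e t - lq δ (qv T) t| ≤ ρ

/-- H5: two values of `n` -/
def StTwo : Prop := ∀ t ρ : ℝ, -1 ≤ t → 0 < ρ → ∀ᶠ δ in 𝓝[>] (0 : ℝ), ∃ n0 : ℕ, ∀ n n' : ℕ,
  n0 ≤ n → n0 ≤ n' → ∀ (T : TT δ n) (T' : TT δ n'), |lq δ (qv T) t - lq δ (qv T') t| ≤ ρ ∧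
    |vv n - vv n'| ≤ ρ

/-- H6: trees exist -/
def StEx : Prop := ∀ᶠ δ in 𝓝[>] (0 : ℝ), ∀ᶠ n : ℕ in atTop, Nonempty (TT δ n)

/-- H7: CONVERGENCE of the distribution functions -/
def StLimG : Prop := ∀ t : ℝ, -1 ≤ t → ∃ G : ℝ, ∀ ρ : ℝ, 0 < ρ → ∀ᶠ n : ℕ in atTop,
  ∀ e : Edge n, |Gs n e t - G| ≤ ρ

/-- H8: positivity -/
def StPosG : Prop := ∀ t : ℝ, -1 ≤ t → ∃ c : ℝ, 0 < c ∧ ∀ᶠ n : ℕ in atTop, ∀ e : Edge n,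
  c ≤ Gs n e t

/-- H9: the volume -/
def StVlim : Prop := ∃ v : ℝ, Tendsto vv atTop (𝓝 v)

/-- H10: one-dimensional analysis, part 2 -/
def StOneD2 : Prop := ∀ f : ℝ → ℝ, ContinuousOn f (Ioo 0 2) →
  (∀ t ∈ Ioo (0 : ℝ) 2, 0 < f t ∧ f t ≤ 1) →
  ConcaveOn ℝ (Ioo (0 : ℝ) 2) (fun t => Real.log (f t)) → (∫ t in (0 : ℝ)..2, f t) = 1 →
  (∫ t in (0 : ℝ)..1, f t) ≤ 1 / 100 → ∀ t ∈ Icc (1 : ℝ) (7 / 5), 1 / 4 ≤ f t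

/-- H11: from distribution functions to densities -/
def StLCConv : Prop := ∀ (f : ℕ → ℝ → ℝ) (G : ℝ → ℝ), (∀ᶠ n : ℕ in atTop,
    ContinuousOn (f n) (Ioo 0 2) ∧ (∀ t ∈ Ioo (0 : ℝ) 2, 0 < f n t ∧ f n t ≤ 1) ∧
    ConcaveOn ℝ (Ioo (0 : ℝ) 2) (fun t => Real.log (f n t)) ∧
    ∀ t ∈ Icc (1 : ℝ) (7 / 5), 1 / 4 ≤ f n t) →
  (∀ t, -1 ≤ t → Tendsto (fun n : ℕ => Real.sqrt n * ∫ s in (0 : ℝ)..(1 - t * rr n), f n s)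
    atTop (𝓝 (G t))) → (∀ t, -1 ≤ t → 0 < G t) →
  ∃ g : ℝ → ℝ, (∀ t, 0 ≤ t → 0 < g t ∧ g t ≤ 1) ∧ ContinuousOn g (Ici 0) ∧
    (∀ t, 0 ≤ t → G 0 - G t = ∫ s in (0 : ℝ)..t, g s) ∧
    ∀ b, TendstoUniformlyOn (fun (n : ℕ) t => f n (1 - t * rr n)) g atTop (Icc 0 b)

/-- H12: THE DENSITIES CONVERGE -/
def StConv : Prop := ∃ g : ℝ → ℝ, ∃ C : ℝ, 0 < C ∧ ContinuousOn g (Ici 0) ∧
  (∀ t, 0 ≤ t → 0 < g t ∧ g t ≤ 1 ∧ g t ≤ 2 * Real.exp (-(t / C))) ∧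
  (∀ᶠ n : ℕ in atTop, ∀ (e : Edge n), ∀ t, 0 ≤ t → dens 0 n e (1 - t * rr n) ≤
    2 * Real.exp (-(t / C))) ∧
  ∀ b ρ, 0 < ρ → ∀ᶠ n : ℕ in atTop, ∀ (e : Edge n), ∀ t ∈ Icc (0 : ℝ) b,
    |dens 0 n e (1 - t * rr n) - g t| ≤ ρ

end Pool.Agent.Lib.MP_193d8d_pr
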