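import Pool.Agent.Lib.MP_193d8d_pr.StA
import Pool.Agent.Lib.MP_193d8d_pr.StB
import Pool.Agent.Lib.MP_193d8d_pr.Base

set_option autoImplicit false
open MeasureTheory Set Filter Topology

/-! C7: `beta` has a limit, uniformly in the profile. -/

namespace Pool.Agent.Lib.MP_193d8d_pr

namespace BetaConvAux

theorem tendsto_pow_exp (t : ℝ) :
    Tendsto (fun n : ℕ => (1 + t / (n : ℝ)) ^ (n - 2)) atTop (𝓝 (Real.exp t)) := by
  rw [← tendsto_add_atTop_iff_nat 2]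
  have h1 : Tendsto (fun n : ℕ => (n : ℝ) * (t / ((n : ℝ) + 2))) atTop (𝓝 t) := by
    have h2 : Tendsto (fun n : ℕ => ((n : ℝ) + 2)) atTop atTop :=
      tendsto_atTop_add_const_right _ _ tendsto_natCast_atTop_atTop
    have h3 : Tendsto (fun n : ℕ => t - 2 * t * ((n : ℝ) + 2)⁻¹) atTop (𝓝 (t - 2 * t * 0)) :=
      tendsto_const_nhds.sub (tendsto_const_nhds.mul h2.inv_tendsto_atTop)
    rw [mul_zero, sub_zero] at h3
    refine h3.congr fun n => ?_
    have h4 : (n : ℝ) + 2 ≠ 0 := by positivity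
    field_simp
    ring
  have h2 := Real.tendsto_one_add_pow_exp_of_tendsto h1
  refine h2.congr fun n => ?_
  rw [Nat.add_sub_cancel]
  push_cast
  rfl

theorem cnt_eq (m : ℕ) (q : ℕ → ℝ) (s : ℝ) : cnt m q s =
    ∑ z ∈ Finset.range (m + 1) ×ˢ Finset.range (m + 1),
      (if s < q z.1 + q z.2 then (1 : ℝ) else 0) := by
  unfold cnt
  rw [Finset.card_filter, Nat.cast_sum]
  refine Finset.sum_congr rfl fun z _ => ?_
  split_ifs <;> simp

theorem cnt_measurable (m : ℕ) (q : ℕ → ℝ) : Measurable (cnt m q) := by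
  have h1 : cnt m q = fun s => ∑ z ∈ Finset.range (m + 1) ×ˢ Finset.range (m + 1),
      (if s < q z.1 + q z.2 then (1 : ℝ) else 0) := funext (cnt_eq m q)
  rw [h1]
  refine Finset.measurable_sum _ fun z _ => ?_
  exact Measurable.ite measurableSet_Iio measurable_const measurable_const

theorem cnt_nat (m : ℕ) (q : ℕ → ℝ) (s : ℝ) :
    ∃ k ∈ Finset.range ((m + 1) * (m + 1) + 1), cnt m q s = (k : ℝ) := by
  refine ⟨_, ?_, rfl⟩
  rw [Finset.mem_range, Nat.lt_succ_iff]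
  refine (Finset.card_filter_le _ _).trans ?_
  rw [Finset.card_product, Finset.card_range]

theorem cnt_zero {m : ℕ} {q : ℕ → ℝ} {K s : ℝ} (hq : ∀ i ≤ m, |q i| ≤ K) (hs : 2 * K ≤ s) :
    cnt m q s = 0 := by
  rw [cnt_eq]
  refine Finset.sum_eq_zero fun z hz => ?_
  rw [Finset.mem_product, Finset.mem_range, Finset.mem_range] at hz
  have h1 := (abs_le.1 (hq z.1 (by omega))).2
  have h2 := (abs_le.1 (hq z.2 (by omega))).2
  rw [if_neg (by linarith)]

theorem beta_eq (N : ℕ) (ρ : ℝ) {m : ℕ} {q : ℕ → ℝ} {K : ℝ} (hq : ∀ i ≤ m, |q i| ≤ K) :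
    beta N ρ m q = ∫ s in Ioc (0 : ℝ) (2 * K), (1 - (1 - ρ ^ 2 * cnt m q s) ^ N) := by
  unfold beta
  refine setIntegral_eq_of_subset_of_forall_sdiff_eq_zero measurableSet_Ioi
    (fun x hx => hx.1) fun s hs => ?_
  have h1 : 2 * K ≤ s := by
    by_contra h
    exact hs.2 ⟨hs.1, (not_le.1 h).le⟩
  rw [cnt_zero hq h1]
  simp

theorem integrable (N : ℕ) (ρ : ℝ) (m : ℕ) (q : ℕ → ℝ) (K : ℝ) :
    IntegrableOn (fun s => 1 - (1 - ρ ^ 2 * cnt m q s) ^ N) (Ioc (0 : ℝ) (2 * K)) := by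
  refine Measure.integrableOn_of_bounded (M := 1 + (1 + ρ ^ 2 * ((m + 1) * (m + 1) : ℕ)) ^ N)
    measure_Ioc_lt_top.ne ?_ ?_
  · exact (measurable_const.sub ((measurable_const.sub
      (measurable_const.mul (cnt_measurable m q))).pow_const N)).aestronglyMeasurable
  · refine Eventually.of_forall fun s => ?_
    obtain ⟨k, hk, hk'⟩ := cnt_nat m q s
    rw [Finset.mem_range, Nat.lt_succ_iff] at hk
    have hkr : (k : ℝ) ≤ ((m + 1) * (m + 1) : ℕ) := by exact_mod_cast hk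
    have hk0 : (0 : ℝ) ≤ k := Nat.cast_nonneg k
    rw [hk', Real.norm_eq_abs]
    have h1 : |(1 : ℝ) - (1 - ρ ^ 2 * k) ^ N| ≤ |(1 : ℝ)| + |(1 - ρ ^ 2 * (k : ℝ)) ^ N| :=
      abs_sub _ _
    refine h1.trans ?_
    rw [abs_one, abs_pow]
    have h2 : |1 - ρ ^ 2 * (k : ℝ)| ≤ 1 + ρ ^ 2 * ((m + 1) * (m + 1) : ℕ) := by
      have h3 : 0 ≤ ρ ^ 2 := sq_nonneg ρ
      rw [abs_le]
      constructor
      · nlinarith
      · nlinarith
    gcongr

end BetaConvAux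

open BetaConvAux

theorem stBetaConv : StBetaConv := by
  intro δ K ρ m hδ hρ
  set ρ' : ℝ := ρ / (2 * |K| + 1) with hρ'
  have hK1 : (0 : ℝ) < 2 * |K| + 1 := by positivity
  have hρ'0 : 0 < ρ' := div_pos hρ hK1
  have hev : ∀ᶠ n : ℕ in atTop, ∀ k ∈ Finset.range ((m + 1) * (m + 1) + 1),
      |(1 + (-(δ ^ 2 * (k : ℝ))) / (n : ℝ)) ^ (n - 2) - Real.exp (-(δ ^ 2 * (k : ℝ)))| ≤ ρ' / 2 := by
    rw [eventually_all_finset]
    intro k _
    have h1 := (tendsto_pow_exp (-(δ ^ 2 * (k : ℝ)))).eventually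
      (Metric.closedBall_mem_nhds _ (half_pos hρ'0))
    filter_upwards [h1] with n hn
    rw [Real.dist_eq] at hn
    exact hn
  obtain ⟨n0, hn0⟩ := eventually_atTop.1 hev
  refine ⟨max n0 1, fun n n' hn hn' q hq => ?_⟩
  have hval : ∀ n : ℕ, max n0 1 ≤ n → ∀ k ∈ Finset.range ((m + 1) * (m + 1) + 1),
      |(1 - (δ * rr n) ^ 2 * (k : ℝ)) ^ (n - 2) - Real.exp (-(δ ^ 2 * (k : ℝ)))| ≤ ρ' / 2 := by
    intro n hn k hk
    have h1 := hn0 n ((le_max_left _ _).trans hn) k hk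
    have h2 : 1 ≤ n := (le_max_right _ _).trans hn
    have h3 : (0 : ℝ) < n := by exact_mod_cast h2
    have h4 : 1 - (δ * rr n) ^ 2 * (k : ℝ) = 1 + (-(δ ^ 2 * (k : ℝ))) / (n : ℝ) := by
      unfold rr
      rw [mul_pow, div_pow, Real.sq_sqrt h3.le]
      ring
    rw [h4]
    exact h1
  have hK0 : 0 ≤ K := (abs_nonneg _).trans (hq 0 (Nat.zero_le _))
  rw [beta_eq _ _ hq, beta_eq _ _ hq, ← integral_sub (integrable _ _ m q K) (integrable _ _ m q K)]
  have hb : ∀ s ∈ Ioc (0 : ℝ) (2 * K), ‖(1 - (1 - (δ * rr n) ^ 2 * cnt m q s) ^ (n - 2)) -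
      (1 - (1 - (δ * rr n') ^ 2 * cnt m q s) ^ (n' - 2))‖ ≤ ρ' := by
    intro s _
    obtain ⟨k, hk, hk'⟩ := cnt_nat m q s
    rw [hk', Real.norm_eq_abs]
    have h1 := abs_le.1 (hval n hn k hk)
    have h2 := abs_le.1 (hval n' hn' k hk)
    rw [abs_le]
    constructor <;> linarith [h1.1, h1.2, h2.1, h2.2]
  have h1 := norm_setIntegral_le_of_norm_le_const (μ := volume) measure_Ioc_lt_top hb
  rw [Real.norm_eq_abs] at h1
  refine h1.trans ?_
  have h2 : volume.real (Ioc (0 : ℝ) (2 * K)) = 2 * K := by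
    rw [Real.volume_real_Ioc_of_le (by linarith)]
    ring
  rw [h2, hρ', abs_of_nonneg hK0]
  rw [div_mul_eq_mul_div, div_le_iff₀ (by linarith)]
  nlinarith

end Pool.Agent.Lib.MP_193d8d_pr
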