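import Pool.Agent.Lib.MP_193d8d_pr.StA
import Pool.Agent.Lib.MP_193d8d_pr.StB
import Pool.Agent.Lib.MP_193d8d_pr.Base

set_option autoImplicit false
open MeasureTheory Set Filter Topology

namespace Pool.Agent.Lib.MP_193d8d_pr

namespace BetaDomAux

theorem cnt_eq (m : ℕ) (q : ℕ → ℝ) (s : ℝ) :
    cnt m q s = ∑ z ∈ Finset.range (m + 1) ×ˢ Finset.range (m + 1),
      if s < q z.1 + q z.2 then (1 : ℝ) else 0 := by
  unfold cnt
  rw [Finset.card_filter]
  push_cast
  rfl

theorem cnt_eq' (m : ℕ) (q : ℕ → ℝ) (s : ℝ) :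
    cnt m q s = ∑ h : Fin (m + 1), ∑ h' : Fin (m + 1),
      if s < q h + q h' then (1 : ℝ) else 0 := by
  rw [cnt_eq, Finset.sum_product,
    ← Fin.sum_univ_eq_sum_range
      (fun i => ∑ y ∈ Finset.range (m + 1), if s < q i + q y then (1 : ℝ) else 0)]
  refine Finset.sum_congr rfl fun h _ => ?_
  rw [← Fin.sum_univ_eq_sum_range (fun y => if s < q h + q y then (1 : ℝ) else 0)]

theorem cnt_nonneg (m : ℕ) (q : ℕ → ℝ) (s : ℝ) : 0 ≤ cnt m q s := by
  unfold cnt
  positivity

theorem cnt_le (m : ℕ) (q : ℕ → ℝ) (s : ℝ) : cnt m q s ≤ ((m : ℝ) + 1) ^ 2 := by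
  rw [cnt_eq']
  calc ∑ h : Fin (m + 1), ∑ h' : Fin (m + 1), (if s < q h + q h' then (1 : ℝ) else 0)
      ≤ ∑ _h : Fin (m + 1), ∑ _h' : Fin (m + 1), (1 : ℝ) := by
        refine Finset.sum_le_sum fun h _ => Finset.sum_le_sum fun h' _ => ?_
        split_ifs <;> norm_num
    _ = ((m : ℝ) + 1) ^ 2 := by
        simp only [Finset.sum_const, Finset.card_univ, Fintype.card_fin, nsmul_eq_mul, mul_one]
        push_cast
        ring

theorem cnt_meas (m : ℕ) (q : ℕ → ℝ) : Measurable (fun s => cnt m q s) := by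
  simp only [cnt_eq]
  refine Finset.measurable_sum _ fun z _ => ?_
  exact Measurable.ite (measurableSet_lt measurable_id measurable_const) measurable_const
    measurable_const

theorem cnt_zero (m : ℕ) (q : ℕ → ℝ) (K s : ℝ) (hq : ∀ i ≤ m, |q i| ≤ K) (hs : 2 * K ≤ s) :
    cnt m q s = 0 := by
  rw [cnt_eq']
  refine Finset.sum_eq_zero fun h _ => Finset.sum_eq_zero fun h' _ => ?_
  rw [if_neg]
  have h1 := (abs_le.1 (hq h (Nat.lt_succ_iff.1 h.2))).2
  have h2 := (abs_le.1 (hq h' (Nat.lt_succ_iff.1 h'.2))).2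
  linarith

/-- integrability of the functions under the integral -/
theorem integ (D : ℝ → ℝ) (N : ℕ) (K : ℝ) (hD : Measurable D) (h0 : ∀ s, 0 < s → 0 ≤ D s)
    (h1 : ∀ s, 0 < s → D s ≤ 1) (hz : ∀ s, 0 < s → 2 * K ≤ s → D s = 0) :
    IntegrableOn (fun s => 1 - (1 - D s) ^ N) (Ioi (0 : ℝ)) := by
  have hm : Measurable (fun s => 1 - (1 - D s) ^ N) :=
    measurable_const.sub ((measurable_const.sub hD).pow_const N)
  have hg : IntegrableOn (Set.indicator (Ioc 0 (2 * K)) (fun _ => (1 : ℝ))) (Ioi (0 : ℝ)) := by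
    apply Integrable.integrableOn
    rw [integrable_indicator_iff measurableSet_Ioc]
    exact integrableOn_const measure_Ioc_lt_top.ne
  refine Integrable.mono' hg hm.aestronglyMeasurable ?_
  rw [ae_restrict_iff' measurableSet_Ioi]
  refine Eventually.of_forall fun s (hs : 0 < s) => ?_
  by_cases hs2 : s ∈ Ioc 0 (2 * K)
  · rw [Set.indicator_of_mem hs2, Real.norm_eq_abs, abs_le]
    have h2 : (0 : ℝ) ≤ 1 - D s := by linarith [h1 s hs]
    have h3 : 1 - D s ≤ 1 := by linarith [h0 s hs]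
    have h4 : (1 - D s) ^ N ≤ 1 := pow_le_one₀ h2 h3
    have h5 : 0 ≤ (1 - D s) ^ N := pow_nonneg h2 N
    constructor <;> linarith
  · rw [Set.indicator_of_notMem hs2]
    have h2 : 2 * K ≤ s := by
      by_contra h
      exact hs2 ⟨hs, (not_le.1 h).le⟩
    rw [hz s hs h2]
    simp

end BetaDomAux

open BetaDomAux in
/-- C3: domination -/
theorem stBetaDom (hG : StBetaG) : StBetaDom := by
  intro n m ρ K p q e hn hρ hp hsum hpρ hK hq hρ1
  let rv : Fin (m + 1) → ℝ := fun i => if (i : ℕ) = m then -K else q i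
  have hrv : ∀ i, |rv i| ≤ K := by
    intro i
    change |if (i : ℕ) = m then -K else q i| ≤ K
    split_ifs with h
    · rw [abs_neg, abs_of_nonneg hK]
    · exact hq i (Nat.lt_succ_iff.1 i.2)
  have h1 := hG n (Fin (m + 1)) p rv K e hn hp hsum hrv
  have h1' : EE p (fun c => cherry (fun f => if (c f : ℕ) = m then -K else q (c f)) e) =
      ∫ s in Ioi (0 : ℝ),
        (1 - (1 - ∑ h, ∑ h', if s < rv h + rv h' then p h * p h' else 0) ^ (n - 2)) := h1
  rw [h1']
  unfold beta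
  set D : ℝ → ℝ := fun s => ∑ h, ∑ h', if s < rv h + rv h' then p h * p h' else 0 with hD
  have hDm : Measurable D := by
    refine Finset.measurable_sum _ fun h _ => Finset.measurable_sum _ fun h' _ => ?_
    exact Measurable.ite (measurableSet_lt measurable_id measurable_const) measurable_const
      measurable_const
  have hD0 : ∀ s, 0 ≤ D s := by
    intro s
    refine Finset.sum_nonneg fun h _ => Finset.sum_nonneg fun h' _ => ?_
    split_ifs
    · exact mul_nonneg (hp h) (hp h')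
    · exact le_rfl
  have hDle : ∀ s, 0 < s → D s ≤ ρ ^ 2 * cnt m q s := by
    intro s hs
    rw [cnt_eq', Finset.mul_sum]
    refine Finset.sum_le_sum fun h _ => ?_
    rw [Finset.mul_sum]
    refine Finset.sum_le_sum fun h' _ => ?_
    by_cases hlt : s < rv h + rv h'
    · rw [if_pos hlt]
      have hh : (h : ℕ) ≠ m := by
        intro hh
        have e1 : rv h = -K := if_pos hh
        have e2 := (abs_le.1 (hrv h')).2
        rw [e1] at hlt
        linarith
      have hh' : (h' : ℕ) ≠ m := by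
        intro hh'
        have e1 : rv h' = -K := if_pos hh'
        have e2 := (abs_le.1 (hrv h)).2
        rw [e1] at hlt
        linarith
      have e1 : rv h = q h := if_neg hh
      have e2 : rv h' = q h' := if_neg hh'
      rw [e1, e2] at hlt
      rw [if_pos hlt, mul_one, sq]
      exact mul_le_mul (hpρ h (lt_of_le_of_ne (Nat.lt_succ_iff.1 h.2) hh))
        (hpρ h' (lt_of_le_of_ne (Nat.lt_succ_iff.1 h'.2) hh')) (hp h') hρ
    · rw [if_neg hlt]
      split_ifs <;> positivity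
  have hc1 : ∀ s, ρ ^ 2 * cnt m q s ≤ 1 := by
    intro s
    calc ρ ^ 2 * cnt m q s ≤ ρ ^ 2 * ((m : ℝ) + 1) ^ 2 :=
          mul_le_mul_of_nonneg_left (cnt_le m q s) (sq_nonneg ρ)
      _ = (((m : ℝ) + 1) * ρ) ^ 2 := by ring
      _ ≤ 1 := by
          refine pow_le_one₀ (by positivity) ?_
          exact hρ1
  have hc0 : ∀ s, 0 ≤ ρ ^ 2 * cnt m q s := fun s =>
    mul_nonneg (sq_nonneg ρ) (cnt_nonneg m q s)
  have hcz : ∀ s, 2 * K ≤ s → ρ ^ 2 * cnt m q s = 0 := fun s hs => by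
    rw [cnt_zero m q K s hq hs, mul_zero]
  refine setIntegral_mono_on ?_ ?_ measurableSet_Ioi ?_
  · exact integ D (n - 2) K hDm (fun s _ => hD0 s) (fun s hs => (hDle s hs).trans (hc1 s))
      (fun s hs hs2 => le_antisymm ((hDle s hs).trans (hcz s hs2).le) (hD0 s))
  · exact integ (fun s => ρ ^ 2 * cnt m q s) (n - 2) K ((cnt_meas m q).const_mul _)
      (fun s _ => hc0 s) (fun s _ => hc1 s) (fun s _ hs2 => hcz s hs2)
  · intro s hs
    have hs' : 0 < s := hs
    have h2 : 1 - ρ ^ 2 * cnt m q s ≤ 1 - D s := by linarith [hDle s hs']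
    have h3 : 0 ≤ 1 - ρ ^ 2 * cnt m q s := by linarith [hc1 s]
    have h4 := pow_le_pow_left₀ h3 h2 (n - 2)
    change 1 - (1 - D s) ^ (n - 2) ≤ 1 - (1 - ρ ^ 2 * cnt m q s) ^ (n - 2)
    linarith

end Pool.Agent.Lib.MP_193d8d_pr
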