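import Pool.Agent.Lib.MP_193d8d_pr.StA
import Pool.Agent.Lib.MP_193d8d_pr.StB
import Pool.Agent.Lib.MP_193d8d_pr.Base

set_option autoImplicit false
open MeasureTheory Set

/-! C2: the expectation of the cherry functional at the reference cells. -/

namespace Pool.Agent.Lib.MP_193d8d_pr

namespace BetaEEAux

theorem lev_zero (ε δ : ℝ) (J m : ℕ) : lev ε δ J m 0 = 0 := by simp [lev]

theorem lev_low (ε δ : ℝ) {J m h : ℕ} (h0 : h ≠ 0) (h1 : h ≤ J + 1) :
    lev ε δ J m h = ε * δ * (1 / 2) ^ (J + 1 - h) := by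
  simp [lev, h0, h1]

theorem lev_main (ε δ : ℝ) {J m i : ℕ} (hi : i ≤ m) :
    lev ε δ J m (J + 1 + i) = ε * δ * ((i : ℝ) + 1) := by
  rcases Nat.eq_zero_or_pos i with rfl | hpos
  · rw [lev_low ε δ (by omega) (by omega)]
    simp
  · have h1 : ¬ (J + 1 + i = 0) := by omega
    have h2 : ¬ (J + 1 + i ≤ J + 1) := by omega
    have h3 : J + 1 + i ≤ J + 1 + m := by omega
    simp only [lev, if_neg h1, if_neg h2, if_pos h3]
    push_cast
    ring

theorem lev_top (ε δ : ℝ) {J m h : ℕ} (hh : J + 1 + m < h) : lev ε δ J m h = 1 := by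
  have h1 : ¬ (h = 0) := by omega
  have h2 : ¬ (h ≤ J + 1) := by omega
  have h3 : ¬ (h ≤ J + 1 + m) := by omega
  simp only [lev, if_neg h1, if_neg h2, if_neg h3]

/-- nonnegative increments -/
theorem inc_nonneg {ε δ : ℝ} {J m : ℕ} (hε : 0 < ε) (hδ : 0 < δ) (hm : (m + 1) * δ * ε ≤ 1)
    {h : ℕ} (hh : h ≤ J + m + 1) : 0 ≤ lev ε δ J m (h + 1) - lev ε δ J m h := by
  have hp : 0 < ε * δ := mul_pos hε hδ
  rcases Nat.lt_or_ge h (J + 1) with h1 | h1
  · rcases Nat.eq_zero_or_pos h with rfl | h0
    · rw [lev_zero, lev_low ε δ (by omega) (by omega), sub_zero]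
      positivity
    · rw [lev_low ε δ (by omega) (by omega), lev_low ε δ (by omega) (by omega)]
      have h2 : J + 1 - h = (J + 1 - (h + 1)) + 1 := by omega
      rw [h2, pow_succ]
      have h3 : (0 : ℝ) < (1 / 2) ^ (J + 1 - (h + 1)) := by positivity
      nlinarith
  · obtain ⟨i, rfl⟩ := Nat.exists_eq_add_of_le h1
    rcases Nat.lt_or_ge i m with h2 | h2
    · rw [add_assoc (J + 1) i 1, lev_main ε δ (by omega : i + 1 ≤ m), lev_main ε δ h2.le]
      push_cast
      nlinarith
    · have h3 : i = m := by omega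
      subst h3
      rw [lev_top ε δ (by omega), lev_main ε δ le_rfl]
      nlinarith

/-- sum over the cells of each class -/
theorem sum_cls (ε δ : ℝ) (J m : ℕ) (F : ℕ → ℝ) :
    ∑ h : Fin (J + m + 1 + 1), (if (h : ℕ) = J + m + 1 then 0 else
      wts (J + m + 1) (lev ε δ J m) h * F (cls J h)) =
      ε * δ * ∑ i ∈ Finset.range (m + 1), F i := by
  have h1 : ∑ h : Fin (J + m + 1 + 1), (if (h : ℕ) = J + m + 1 then 0 else
      wts (J + m + 1) (lev ε δ J m) h * F (cls J h)) =
      ∑ h ∈ Finset.range (J + m + 1 + 1), (if h = J + m + 1 then 0 else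
        (lev ε δ J m (h + 1) - lev ε δ J m h) * F (h - J)) :=
    Fin.sum_univ_eq_sum_range (fun h : ℕ => if h = J + m + 1 then (0 : ℝ) else
        (lev ε δ J m (h + 1) - lev ε δ J m h) * F (h - J)) (J + m + 1 + 1)
  rw [h1, Finset.sum_range_succ, if_pos rfl, add_zero]
  have h2 : ∑ h ∈ Finset.range (J + m + 1), (if h = J + m + 1 then (0 : ℝ) else
        (lev ε δ J m (h + 1) - lev ε δ J m h) * F (h - J)) =
      ∑ h ∈ Finset.range (J + 1 + m), (lev ε δ J m (h + 1) - lev ε δ J m h) * F (h - J) := by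
    rw [show J + m + 1 = J + 1 + m by ring]
    refine Finset.sum_congr rfl fun h hh => ?_
    rw [if_neg (Finset.mem_range.1 hh).ne]
  rw [h2, Finset.sum_range_add, Finset.sum_range_succ' F m]
  have h3 : ∑ h ∈ Finset.range (J + 1), (lev ε δ J m (h + 1) - lev ε δ J m h) * F (h - J) =
      ε * δ * F 0 := by
    have h4 : ∑ h ∈ Finset.range (J + 1), (lev ε δ J m (h + 1) - lev ε δ J m h) * F (h - J) =
        ∑ h ∈ Finset.range (J + 1), (lev ε δ J m (h + 1) - lev ε δ J m h) * F 0 := by
      refine Finset.sum_congr rfl fun h hh => ?_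
      have := Finset.mem_range.1 hh
      rw [Nat.sub_eq_zero_of_le (by omega)]
    rw [h4, ← Finset.sum_mul, Finset.sum_range_sub, lev_zero, sub_zero]
    have h5 := lev_main ε δ (J := J) (m := m) (i := 0) (Nat.zero_le _)
    rw [add_zero] at h5
    rw [h5]
    simp
  rw [h3, mul_add, add_comm]
  congr 1
  rw [Finset.mul_sum]
  refine Finset.sum_congr rfl fun i hi => ?_
  have := Finset.mem_range.1 hi
  rw [add_assoc (J + 1) i 1, lev_main ε δ (by omega : i + 1 ≤ m), lev_main ε δ this.le]
  have h6 : J + 1 + i - J = i + 1 := by omega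
  rw [h6]
  push_cast
  ring

end BetaEEAux

open BetaEEAux

theorem stBetaEE (hG : StBetaG) : StBetaEE := by
  intro n J m ε δ K q e hn hε hδ hK hm hq
  set H := J + m + 1 with hH
  have hp : ∀ h : Fin (H + 1), 0 ≤ wts H (lev ε δ J m) h := by
    intro h
    exact inc_nonneg hε hδ hm (by have := h.2; omega)
  have hp1 : ∑ h : Fin (H + 1), wts H (lev ε δ J m) h = 1 := by
    have h1 : ∑ h : Fin (H + 1), wts H (lev ε δ J m) h =
        ∑ h ∈ Finset.range (H + 1), (lev ε δ J m (h + 1) - lev ε δ J m h) :=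
      Fin.sum_univ_eq_sum_range (fun h : ℕ => lev ε δ J m (h + 1) - lev ε δ J m h) (H + 1)
    rw [h1, Finset.sum_range_sub, lev_zero, lev_top ε δ (by omega), sub_zero]
  have hrv : ∀ h : Fin (H + 1), |ref K J q h| ≤ K := by
    intro h
    unfold ref
    split_ifs with h1
    · rw [abs_neg, abs_of_nonneg hK]
    · refine hq _ ?_
      have := h.2
      unfold cls
      omega
  rw [hG n (Fin (H + 1)) (wts H (lev ε δ J m)) (ref K J q) K e hn hp hp1 hrv]
  unfold beta
  refine setIntegral_congr_fun measurableSet_Ioi fun s hs => ?_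
  have hs0 : (0 : ℝ) < s := hs
  have key : ∑ h : Fin (H + 1), ∑ h' : Fin (H + 1), (if s < ref K J q h + ref K J q h' then
      wts H (lev ε δ J m) h * wts H (lev ε δ J m) h' else 0) =
      (ε * δ) ^ 2 * cnt m q s := by
    have h1 : ∀ h h' : Fin (H + 1), (if s < ref K J q h + ref K J q h' then
        wts H (lev ε δ J m) h * wts H (lev ε δ J m) h' else 0) =
        if (h : ℕ) = H then 0 else wts H (lev ε δ J m) h * (if (h' : ℕ) = H then 0 else
          wts H (lev ε δ J m) h' * (if s < q (cls J h) + q (cls J h') then 1 else 0)) := by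
      intro h h'
      by_cases hh : (h : ℕ) = H
      · rw [if_pos hh, if_neg]
        have h2 : ref K J q h = -K := by unfold ref; rw [if_pos hh]
        have h3 := (abs_le.1 (hrv h')).2
        rw [h2]
        linarith
      · rw [if_neg hh]
        by_cases hh' : (h' : ℕ) = H
        · rw [if_pos hh', if_neg]
          · rw [mul_zero]
          · have h2 : ref K J q h' = -K := by unfold ref; rw [if_pos hh']
            have h3 := (abs_le.1 (hrv h)).2
            rw [h2]
            linarith
        · rw [if_neg hh']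
          have h2 : ref K J q h = q (cls J h) := by unfold ref; rw [if_neg hh]
          have h3 : ref K J q h' = q (cls J h') := by unfold ref; rw [if_neg hh']
          rw [h2, h3]
          split_ifs
          · ring
          · ring
    have h2 : ∀ h : Fin (H + 1), ∑ h' : Fin (H + 1), (if s < ref K J q h + ref K J q h' then
        wts H (lev ε δ J m) h * wts H (lev ε δ J m) h' else 0) =
        if (h : ℕ) = H then 0 else wts H (lev ε δ J m) h * (ε * δ *
          ∑ i ∈ Finset.range (m + 1), if s < q (cls J h) + q i then 1 else 0) := by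
      intro h
      rw [Finset.sum_congr rfl fun h' _ => h1 h h']
      by_cases hh : (h : ℕ) = H
      · simp only [if_pos hh, Finset.sum_const_zero]
      · simp only [if_neg hh]
        rw [← Finset.mul_sum, sum_cls ε δ J m (fun i => if s < q (cls J h) + q i then 1 else 0)]
    rw [Finset.sum_congr rfl fun h _ => h2 h,
      sum_cls ε δ J m (fun j => ε * δ * ∑ i ∈ Finset.range (m + 1), if s < q j + q i then 1 else 0),
      ← Finset.mul_sum, ← mul_assoc, ← pow_two]
    congr 1
    unfold cnt
    rw [Finset.card_filter, Nat.cast_sum, Finset.sum_product]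
    refine Finset.sum_congr rfl fun i _ => Finset.sum_congr rfl fun i' _ => ?_
    split_ifs <;> simp
  change 1 - (1 - ∑ h : Fin (H + 1), ∑ h' : Fin (H + 1), (if s < ref K J q h + ref K J q h' then
      wts H (lev ε δ J m) h * wts H (lev ε δ J m) h' else 0)) ^ (n - 2) = _
  rw [key]

end Pool.Agent.Lib.MP_193d8d_pr
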