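import Pool.Agent.Lib.MP_193d8d_pr.StA
import Pool.Agent.Lib.MP_193d8d_pr.StB
import Pool.Agent.Lib.MP_193d8d_pr.Base

set_option autoImplicit false
open MeasureTheory Set

namespace Pool.Agent.Lib.MP_193d8d_pr

namespace BetaGAux

/-! ## edges -/

theorem edge_eq {n : ℕ} {i j i' j' : Fin n} {h : i ≠ j} {h' : i' ≠ j'}
    (he : edge i j h = edge i' j' h') : (i = i' ∧ j = j') ∨ (i = j' ∧ j = i') := by
  unfold edge at he
  split_ifs at he with h1 h2 h2 <;> rw [Edge.mk.injEq] at he
  · exact Or.inl he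
  · exact Or.inr he
  · exact Or.inr ⟨he.2, he.1⟩
  · exact Or.inl ⟨he.2, he.1⟩

/-- the other vertices -/
def oth {n : ℕ} (i k : Fin n) : Finset (Fin n) := Finset.univ.filter (fun j => j ≠ i ∧ j ≠ k)

theorem mem_oth {n : ℕ} {i k j : Fin n} : j ∈ oth i k ↔ j ≠ i ∧ j ≠ k := by
  unfold oth
  simp

theorem card_oth {n : ℕ} {i k : Fin n} (h : i ≠ k) : (oth i k).card = n - 2 := by
  have h1 := Finset.card_filter_add_card_filter_not (s := (Finset.univ : Finset (Fin n)))
    (fun j => j ≠ i ∧ j ≠ k)
  have h8 : Finset.univ.filter (fun j => ¬ (j ≠ i ∧ j ≠ k)) = {i, k} := by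
    ext j
    simp only [Finset.mem_filter, Finset.mem_univ, true_and, Finset.mem_insert,
      Finset.mem_singleton]
    tauto
  rw [h8, Finset.card_pair h, Finset.card_univ, Fintype.card_fin] at h1
  have h2 : (oth i k).card + 2 = n := h1
  omega

/-! ## independence -/

theorem EE_indep2 {ι κ : Type} [Fintype ι] [DecidableEq ι] [Fintype κ] {p : κ → ℝ}
    (hp1 : ∑ h, p h = 1) (e1 e2 : ι) (h12 : e1 ≠ e2) (u : κ → κ → ℝ)
    (f : (ι → κ) → ℝ) (hf1 : ∀ c h, f (Function.update c e1 h) = f c)
    (hf2 : ∀ c h, f (Function.update c e2 h) = f c) :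
    EE p (fun c => u (c e1) (c e2) * f c) = (∑ h, ∑ h', p h * p h' * u h h') * EE p f := by
  refine (EE_split p hp1 e1 _).trans ((EE_split p hp1 e2 _).trans ?_)
  rw [← EE_mul_left]
  refine EE_congr fun c => ?_
  simp only [Function.update_self, Function.update_of_ne h12.symm, hf1, hf2]
  simp only [Finset.mul_sum, Finset.sum_mul]
  rw [Finset.sum_comm]
  exact Finset.sum_congr rfl fun h _ => Finset.sum_congr rfl fun h' _ => by ring

variable {n : ℕ} {κ : Type} [Fintype κ] {p : κ → ℝ}

omit [Fintype κ] in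
theorem ext_update (rv : κ → ℝ) (c : Edge n → κ) (g : Edge n) (h : κ) {i j : Fin n} (hij : i ≠ j)
    (hg : edge i j hij ≠ g) :
    ext 0 (fun f => rv (Function.update c g h f)) i j = ext 0 (fun f => rv (c f)) i j := by
  rw [ext_ne 0 _ hij, ext_ne 0 _ hij, Function.update_of_ne hg]

theorem EE_prod (hp1 : ∑ h, p h = 1) (rv : κ → ℝ) (φ : ℝ → ℝ → ℝ) {a b : Fin n} (hab : a ≠ b)
    (S : Finset (Fin n)) (hS : ∀ k ∈ S, k ≠ a ∧ k ≠ b) :
    EE p (fun c : Edge n → κ => ∏ k ∈ S, φ (ext 0 (fun f => rv (c f)) a k)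
      (ext 0 (fun f => rv (c f)) k b)) = (∑ h, ∑ h', p h * p h' * φ (rv h) (rv h')) ^ S.card := by
  classical
  induction S using Finset.induction_on with
  | empty =>
    simp only [Finset.prod_empty, Finset.card_empty, pow_zero]
    exact EE_one hp1
  | insert k S hk ih =>
    have h1 := ih (fun k' hk' => hS k' (Finset.mem_insert_of_mem hk'))
    obtain ⟨hka, hkb⟩ := hS k (Finset.mem_insert_self k S)
    rw [Finset.card_insert_of_notMem hk, pow_succ', ← h1]
    have h2 : ∀ c : Edge n → κ, ∏ k' ∈ insert k S, φ (ext 0 (fun f => rv (c f)) a k')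
        (ext 0 (fun f => rv (c f)) k' b) = φ (rv (c (edge a k hka.symm))) (rv (c (edge k b hkb))) *
        ∏ k' ∈ S, φ (ext 0 (fun f => rv (c f)) a k') (ext 0 (fun f => rv (c f)) k' b) := by
      intro c
      rw [Finset.prod_insert hk, ext_ne 0 _ hka.symm, ext_ne 0 _ hkb]
    rw [EE_congr h2]
    refine EE_indep2 hp1 (edge a k hka.symm) (edge k b hkb) ?_ (fun h h' => φ (rv h) (rv h')) _
      ?_ ?_
    · intro he
      rcases edge_eq he with h3 | h3
      · exact hka h3.1.symm
      · exact hab h3.1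
    · intro c h
      refine Finset.prod_congr rfl fun k' hk' => ?_
      obtain ⟨hka', hkb'⟩ := hS k' (Finset.mem_insert_of_mem hk')
      have hkk : k' ≠ k := fun h0 => hk (h0 ▸ hk')
      rw [ext_update rv c _ h hka'.symm, ext_update rv c _ h hkb']
      · intro he
        rcases edge_eq he with h3 | h3
        · exact hka' h3.1
        · exact hkk h3.1
      · intro he
        rcases edge_eq he with h3 | h3
        · exact hkk h3.2
        · exact hka h3.1.symm
    · intro c h
      refine Finset.prod_congr rfl fun k' hk' => ?_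
      obtain ⟨hka', hkb'⟩ := hS k' (Finset.mem_insert_of_mem hk')
      have hkk : k' ≠ k := fun h0 => hk (h0 ▸ hk')
      rw [ext_update rv c _ h hka'.symm, ext_update rv c _ h hkb']
      · intro he
        rcases edge_eq he with h3 | h3
        · exact hkk h3.1
        · exact hkb' h3.1
      · intro he
        rcases edge_eq he with h3 | h3
        · exact hka h3.1.symm
        · exact hab h3.1

/-! ## layer cake -/

theorem integrable_ind (x : ℝ) :
    Integrable (fun s : ℝ => if s < x then (1 : ℝ) else 0) (volume.restrict (Ioi (0 : ℝ))) := by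
  have h1 : (fun s : ℝ => if s < x then (1 : ℝ) else 0) = indicator (Iio x) (fun _ => (1 : ℝ)) := by
    funext s
    rw [indicator_apply]
    rfl
  rw [h1, integrable_indicator_iff measurableSet_Iio]
  refine integrableOn_const ?_
  rw [Measure.restrict_apply measurableSet_Iio, Iio_inter_Ioi]
  exact measure_Ioo_lt_top.ne

theorem layer (x : ℝ) (hx : 0 ≤ x) :
    ∫ s in Ioi (0 : ℝ), (if s < x then (1 : ℝ) else 0) = x := by
  have h1 : (fun s : ℝ => if s < x then (1 : ℝ) else 0) = indicator (Iio x) (fun _ => (1 : ℝ)) := by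
    funext s
    rw [indicator_apply]
    rfl
  rw [h1, setIntegral_indicator measurableSet_Iio, Ioi_inter_Iio, setIntegral_const,
    Real.volume_real_Ioo_of_le hx, sub_zero, smul_eq_mul, mul_one]

end BetaGAux

open BetaGAux in
/-- C1: layer cake -/
theorem stBetaG : StBetaG := by
  intro n κ _ p rv K e hn hp hp1 hK
  classical
  have hab : e.a ≠ e.b := e.lt.ne
  -- the integrand
  have h1 : ∀ s ∈ Ioi (0 : ℝ), (1 - (1 - ∑ h, ∑ h', if s < rv h + rv h' then p h * p h' else 0)
      ^ (n - 2)) = EE p (fun c : Edge n → κ =>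
        if s < cherry (fun f => rv (c f)) e then (1 : ℝ) else 0) := by
    intro s hs
    have h2 := EE_prod (n := n) hp1 rv (fun x y => if s < x + y then (0 : ℝ) else 1) hab
      (oth e.a e.b) (fun k hk => mem_oth.1 hk)
    rw [card_oth hab] at h2
    have h3 : ∑ h, ∑ h', p h * p h' * (if s < rv h + rv h' then (0 : ℝ) else 1) =
        1 - ∑ h, ∑ h', if s < rv h + rv h' then p h * p h' else 0 := by
      have h4 : ∑ h, ∑ h', p h * p h' = 1 := by
        rw [← Finset.sum_mul_sum, hp1, one_mul]
      have h5 : ∀ h h', p h * p h' * (if s < rv h + rv h' then (0 : ℝ) else 1) =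
          p h * p h' - (if s < rv h + rv h' then p h * p h' else 0) := by
        intro h h'
        split_ifs <;> ring
      simp only [h5, Finset.sum_sub_distrib, h4]
    rw [← h3, ← h2]
    refine Eq.trans ?_ (EE_congr (p := p) (f := fun c : Edge n → κ => 1 - ∏ k ∈ oth e.a e.b,
      (if s < ext 0 (fun f => rv (c f)) e.a k + ext 0 (fun f => rv (c f)) k e.b then (0 : ℝ)
        else 1)) fun c => ?_)
    · rw [EE_sub, EE_one hp1]
    by_cases hc : s < cherry (fun f => rv (c f)) e
    · rw [if_pos hc]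
      have h6 : ¬ (0 ≤ s ∧ ∀ k : Fin n, (if k = e.a ∨ k = e.b then (0 : ℝ) else
          ext 0 (fun f => rv (c f)) e.a k + ext 0 (fun f => rv (c f)) k e.b) ≤ s) := by
        rw [← sup0_le_iff]
        exact not_le.2 hc
      rw [not_and] at h6
      have h7 := h6 (le_of_lt hs)
      push Not at h7
      obtain ⟨k, hk⟩ := h7
      have hk1 : ¬ (k = e.a ∨ k = e.b) := by
        intro h0
        rw [if_pos h0] at hk
        exact absurd hs (not_lt.2 hk.le)
      rw [if_neg hk1] at hk
      rw [not_or] at hk1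
      have h8 : ∏ k ∈ oth e.a e.b, (if s < ext 0 (fun f => rv (c f)) e.a k +
          ext 0 (fun f => rv (c f)) k e.b then (0 : ℝ) else 1) = 0 :=
        Finset.prod_eq_zero (mem_oth.2 hk1) (if_pos hk)
      rw [h8, sub_zero]
    · rw [if_neg hc]
      have h6 : (0 ≤ s ∧ ∀ k : Fin n, (if k = e.a ∨ k = e.b then (0 : ℝ) else
          ext 0 (fun f => rv (c f)) e.a k + ext 0 (fun f => rv (c f)) k e.b) ≤ s) := by
        rw [← sup0_le_iff]
        exact not_lt.1 hc
      rw [Finset.prod_eq_one, sub_self]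
      intro k hk
      have h7 := h6.2 k
      have hk1 : ¬ (k = e.a ∨ k = e.b) := by
        rw [not_or]
        exact mem_oth.1 hk
      rw [if_neg hk1] at h7
      exact if_neg (not_lt.2 h7)
  rw [setIntegral_congr_fun measurableSet_Ioi h1]
  have h2 : ∀ c : Edge n → κ, cherry (fun f => rv (c f)) e =
      ∫ s in Ioi (0 : ℝ), (if s < cherry (fun f => rv (c f)) e then (1 : ℝ) else 0) := fun c =>
    (layer _ (sup0_nonneg _)).symm
  rw [EE_congr h2]
  unfold EE
  rw [integral_finsetSum]
  · refine Finset.sum_congr rfl fun c _ => ?_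
    rw [integral_const_mul]
  · intro c _
    exact (integrable_ind _).const_mul _

end Pool.Agent.Lib.MP_193d8d_pr
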