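import Pool.Agent.Lib.MP_193d8d_pr.StA
import Pool.Agent.Lib.MP_193d8d_pr.StB
import Pool.Agent.Lib.MP_193d8d_pr.Base

set_option autoImplicit false
open MeasureTheory Set

/-! F4: quantitative convexity of `beta`. -/

namespace Pool.Agent.Lib.MP_193d8d_pr

namespace BetaGapAux

/-! ## edges -/

theorem edge_eq {n : ℕ} {i j i' j' : Fin n} {h : i ≠ j} {h' : i' ≠ j'}
    (he : edge i j h = edge i' j' h') : (i = i' ∧ j = j') ∨ (i = j' ∧ j = i') := by
  unfold edge at he
  split_ifs at he with h1 h2 h2 <;> rw [Edge.mk.injEq] at he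
  · exact Or.inl he
  · exact Or.inr he
  · exact Or.inr ⟨he.2, he.1⟩
  · exact Or.inl ⟨he.2, he.1⟩

/-- the other vertices -/
def oth {n : ℕ} (i k : Fin n) : Finset (Fin n) := Finset.univ.filter (fun j => j ≠ i ∧ j ≠ k)

theorem mem_oth {n : ℕ} {i k j : Fin n} : j ∈ oth i k ↔ j ≠ i ∧ j ≠ k := by
  unfold oth
  simp

theorem card_oth {n : ℕ} {i k : Fin n} (h : i ≠ k) : (oth i k).card = n - 2 := by
  have h1 := Finset.card_filter_add_card_filter_not (s := (Finset.univ : Finset (Fin n)))
    (fun j => j ≠ i ∧ j ≠ k)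
  have h8 : Finset.univ.filter (fun j => ¬ (j ≠ i ∧ j ≠ k)) = {i, k} := by
    ext j
    simp only [Finset.mem_filter, Finset.mem_univ, true_and, Finset.mem_insert,
      Finset.mem_singleton]
    tauto
  rw [h8, Finset.card_pair h, Finset.card_univ, Fintype.card_fin] at h1
  have h2 : (oth i k).card + 2 = n := h1
  omega

/-! ## independence -/

theorem EE_indep2 {ι κ : Type} [Fintype ι] [DecidableEq ι] [Fintype κ] {p : κ → ℝ}
    (hp1 : ∑ h, p h = 1) (e1 e2 : ι) (h12 : e1 ≠ e2) (u : κ → κ → ℝ)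
    (f : (ι → κ) → ℝ) (hf1 : ∀ c h, f (Function.update c e1 h) = f c)
    (hf2 : ∀ c h, f (Function.update c e2 h) = f c) :
    EE p (fun c => u (c e1) (c e2) * f c) = (∑ h, ∑ h', p h * p h' * u h h') * EE p f := by
  refine (EE_split p hp1 e1 _).trans ((EE_split p hp1 e2 _).trans ?_)
  rw [← EE_mul_left]
  refine EE_congr fun c => ?_
  simp only [Function.update_self, Function.update_of_ne h12.symm, hf1, hf2]
  simp only [Finset.mul_sum, Finset.sum_mul]
  rw [Finset.sum_comm]
  exact Finset.sum_congr rfl fun h _ => Finset.sum_congr rfl fun h' _ => by ring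

variable {n : ℕ}

theorem ext_update {κ : Type} (d : κ) (c : Edge n → κ) (g : Edge n) (h : κ) {i j : Fin n}
    (hij : i ≠ j) (hg : edge i j hij ≠ g) :
    ext d (Function.update c g h) i j = ext d c i j := by
  rw [ext_ne d _ hij, ext_ne d _ hij, Function.update_of_ne hg]

theorem EE_prod {κ : Type} [Fintype κ] {p : κ → ℝ} (hp1 : ∑ h, p h = 1) (d : κ)
    (φ : Fin n → κ → κ → ℝ) {a b : Fin n} (hab : a ≠ b)
    (S : Finset (Fin n)) (hS : ∀ k ∈ S, k ≠ a ∧ k ≠ b) :
    EE p (fun c : Edge n → κ => ∏ k ∈ S, φ k (ext d c a k) (ext d c k b)) =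
      ∏ k ∈ S, ∑ h, ∑ h', p h * p h' * φ k h h' := by
  classical
  induction S using Finset.induction_on with
  | empty =>
    simp only [Finset.prod_empty]
    exact EE_one hp1
  | insert k S hk ih =>
    have h1 := ih (fun k' hk' => hS k' (Finset.mem_insert_of_mem hk'))
    obtain ⟨hka, hkb⟩ := hS k (Finset.mem_insert_self k S)
    rw [Finset.prod_insert hk, ← h1]
    have h2 : ∀ c : Edge n → κ, ∏ k' ∈ insert k S, φ k' (ext d c a k') (ext d c k' b) =
        φ k (c (edge a k hka.symm)) (c (edge k b hkb)) *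
        ∏ k' ∈ S, φ k' (ext d c a k') (ext d c k' b) := by
      intro c
      rw [Finset.prod_insert hk, ext_ne d _ hka.symm, ext_ne d _ hkb]
    rw [EE_congr h2]
    refine EE_indep2 hp1 (edge a k hka.symm) (edge k b hkb) ?_ (φ k) _ ?_ ?_
    · intro he
      rcases edge_eq he with h3 | h3
      · exact hka h3.1.symm
      · exact hab h3.1
    · intro c h
      refine Finset.prod_congr rfl fun k' hk' => ?_
      obtain ⟨hka', hkb'⟩ := hS k' (Finset.mem_insert_of_mem hk')
      have hkk : k' ≠ k := fun h0 => hk (h0 ▸ hk')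
      rw [ext_update d c _ h hka'.symm, ext_update d c _ h hkb']
      · intro he
        rcases edge_eq he with h3 | h3
        · exact hka' h3.1
        · exact hkk h3.1
      · intro he
        rcases edge_eq he with h3 | h3
        · exact hkk h3.2
        · exact hka h3.1.symm
    · intro c h
      refine Finset.prod_congr rfl fun k' hk' => ?_
      obtain ⟨hka', hkb'⟩ := hS k' (Finset.mem_insert_of_mem hk')
      have hkk : k' ≠ k := fun h0 => hk (h0 ▸ hk')
      rw [ext_update d c _ h hka'.symm, ext_update d c _ h hkb']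
      · intro he
        rcases edge_eq he with h3 | h3
        · exact hkk h3.1
        · exact hkb' h3.1
      · intro he
        rcases edge_eq he with h3 | h3
        · exact hka h3.1.symm
        · exact hab h3.1

/-! ## labels -/

/-- the probabilities of the labels -/
def lp (ρ : ℝ) (m : ℕ) : Option (Fin (m + 1)) → ℝ
  | none => 1 - (m + 1) * ρ
  | some _ => ρ

/-- the values of the labels -/
def rv (K : ℝ) (m : ℕ) (q : ℕ → ℝ) : Option (Fin (m + 1)) → ℝ
  | none => -K
  | some i => q i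

/-- indicator of a set of pairs of labels -/
def phi (m : ℕ) (P : ℕ × ℕ → Prop) [DecidablePred P] :
    Option (Fin (m + 1)) → Option (Fin (m + 1)) → ℝ
  | some i, some j => if P ((i : ℕ), (j : ℕ)) then 1 else 0
  | _, _ => 0

theorem phi_cases (m : ℕ) (P : ℕ × ℕ → Prop) [DecidablePred P] (x y : Option (Fin (m + 1))) :
    phi m P x y = 0 ∨ (phi m P x y = 1 ∧ ∃ i j : Fin (m + 1), x = some i ∧ y = some j ∧
      P ((i : ℕ), (j : ℕ))) := by
  rcases x with _ | i
  · exact Or.inl rfl
  · rcases y with _ | j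
    · exact Or.inl rfl
    · by_cases h : P ((i : ℕ), (j : ℕ))
      · exact Or.inr ⟨if_pos h, i, j, rfl, rfl, h⟩
      · exact Or.inl (if_neg h)

theorem phi_one (m : ℕ) (P : ℕ × ℕ → Prop) [DecidablePred P] {i j : Fin (m + 1)}
    (h : P ((i : ℕ), (j : ℕ))) : phi m P (some i) (some j) = 1 := if_pos h

theorem lp_nonneg {ρ : ℝ} {m : ℕ} (hρ : 0 ≤ ρ) (hm : (m + 1) * ρ ≤ 1) (h : Option (Fin (m + 1))) :
    0 ≤ lp ρ m h := by
  rcases h with _ | i
  · exact sub_nonneg.2 hm
  · exact hρ

theorem lp_sum (ρ : ℝ) (m : ℕ) : ∑ h, lp ρ m h = 1 := by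
  rw [Fintype.sum_option]
  simp only [lp, Finset.sum_const, Finset.card_univ, Fintype.card_fin, nsmul_eq_mul]
  push_cast
  ring

theorem rv_abs {K : ℝ} {m : ℕ} {q : ℕ → ℝ} (hq : ∀ i ≤ m, |q i| ≤ K) (h : Option (Fin (m + 1))) :
    |rv K m q h| ≤ K := by
  have hK : 0 ≤ K := (abs_nonneg _).trans (hq 0 (Nat.zero_le m))
  rcases h with _ | i
  · change |-K| ≤ K
    rw [abs_neg, abs_of_nonneg hK]
  · exact hq i (Nat.lt_succ_iff.1 i.2)

theorem sum_pairs (m : ℕ) (ρ : ℝ) (P : ℕ × ℕ → Prop) [DecidablePred P] :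
    ∑ i : Fin (m + 1), ∑ j : Fin (m + 1), (if P ((i : ℕ), (j : ℕ)) then ρ * ρ else 0) =
      ρ ^ 2 * (((Finset.range (m + 1) ×ˢ Finset.range (m + 1)).filter P).card : ℝ) := by
  have h1 : ∀ i : Fin (m + 1), ∑ j : Fin (m + 1), (if P ((i : ℕ), (j : ℕ)) then ρ * ρ else 0) =
      ∑ j ∈ Finset.range (m + 1), (if P ((i : ℕ), j) then ρ * ρ else 0) := fun i =>
    Fin.sum_univ_eq_sum_range (fun j => if P ((i : ℕ), j) then ρ * ρ else 0) (m + 1)
  rw [Finset.sum_congr rfl fun i _ => h1 i]
  rw [Fin.sum_univ_eq_sum_range (fun i => ∑ j ∈ Finset.range (m + 1),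
    (if P (i, j) then ρ * ρ else 0)) (m + 1)]
  rw [Finset.card_filter, Nat.cast_sum, Finset.mul_sum, Finset.sum_product]
  refine Finset.sum_congr rfl fun i _ => Finset.sum_congr rfl fun j _ => ?_
  split_ifs
  · push_cast
    ring
  · push_cast
    ring

theorem sum_phi (m : ℕ) (ρ : ℝ) (P : ℕ × ℕ → Prop) [DecidablePred P] :
    ∑ h, ∑ h', lp ρ m h * lp ρ m h' * phi m P h h' =
      ρ ^ 2 * (((Finset.range (m + 1) ×ˢ Finset.range (m + 1)).filter P).card : ℝ) := by
  rw [← sum_pairs, Fintype.sum_option]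
  have h1 : ∑ h', lp ρ m none * lp ρ m h' * phi m P none h' = 0 :=
    Finset.sum_eq_zero fun h' _ => mul_zero _
  rw [h1, zero_add]
  refine Finset.sum_congr rfl fun i _ => ?_
  rw [Fintype.sum_option]
  have h2 : lp ρ m (some i) * lp ρ m none * phi m P (some i) none = 0 := mul_zero _
  rw [h2, zero_add]
  refine Finset.sum_congr rfl fun j _ => ?_
  change ρ * ρ * (if P ((i : ℕ), (j : ℕ)) then 1 else 0) = _
  split_ifs
  · rw [mul_one]
  · rw [mul_zero]

theorem sum_one_sub_phi (m : ℕ) (ρ : ℝ) (P : ℕ × ℕ → Prop) [DecidablePred P] :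
    ∑ h, ∑ h', lp ρ m h * lp ρ m h' * (1 - phi m P h h') =
      1 - ρ ^ 2 * (((Finset.range (m + 1) ×ˢ Finset.range (m + 1)).filter P).card : ℝ) := by
  rw [← sum_phi]
  have h1 : ∑ h, ∑ h', lp ρ m h * lp ρ m h' = 1 := by
    rw [← Finset.sum_mul_sum, lp_sum, one_mul]
  simp only [mul_sub, mul_one, Finset.sum_sub_distrib, h1]

theorem EE_cherry (hG : StBetaG) {m : ℕ} {ρ K : ℝ} {q : ℕ → ℝ} (e : Edge n) (hn : 2 ≤ n)
    (hρ : 0 ≤ ρ) (hm : (m + 1) * ρ ≤ 1) (hq : ∀ i ≤ m, |q i| ≤ K) :
    EE (lp ρ m) (fun c : Edge n → Option (Fin (m + 1)) =>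
      cherry (fun f => rv K m q (c f)) e) = beta (n - 2) ρ m q := by
  rw [hG n (Option (Fin (m + 1))) (lp ρ m) (rv K m q) K e hn (lp_nonneg hρ hm) (lp_sum ρ m)
    (rv_abs hq)]
  unfold beta
  refine setIntegral_congr_fun measurableSet_Ioi fun s hs => ?_
  have hs0 : (0 : ℝ) < s := hs
  have key : ∑ h, ∑ h', (if s < rv K m q h + rv K m q h' then lp ρ m h * lp ρ m h' else 0) =
      ρ ^ 2 * cnt m q s := by
    unfold cnt
    rw [← sum_pairs, Fintype.sum_option]
    have h1 : ∑ h', (if s < rv K m q none + rv K m q h' then lp ρ m none * lp ρ m h' else 0)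
        = 0 := by
      refine Finset.sum_eq_zero fun h' _ => if_neg ?_
      have h2 := (abs_le.1 (rv_abs hq h')).2
      change ¬ s < -K + rv K m q h'
      linarith
    rw [h1, zero_add]
    refine Finset.sum_congr rfl fun i _ => ?_
    rw [Fintype.sum_option]
    have h2 : (if s < rv K m q (some i) + rv K m q none then
        lp ρ m (some i) * lp ρ m none else 0) = 0 := by
      refine if_neg ?_
      have h2 := (abs_le.1 (rv_abs hq (some i))).2
      change ¬ s < rv K m q (some i) + -K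
      linarith
    rw [h2, zero_add]
    rfl
  rw [key]

/-- convexity of the cherry function -/
theorem cherry_mid (u v w : Edge n → ℝ) (e : Edge n) (hw : ∀ f, w f = (u f + v f) / 2) :
    cherry w e ≤ (cherry u e + cherry v e) / 2 := by
  have h1 : 0 ≤ cherry u e := sup0_nonneg _
  have h2 : 0 ≤ cherry v e := sup0_nonneg _
  refine sup0_le (by linarith) fun k => ?_
  have h3 := le_sup0 (fun k : Fin n => if k = e.a ∨ k = e.b then 0 else
    ext 0 u e.a k + ext 0 u k e.b) k
  have h4 := le_sup0 (fun k : Fin n => if k = e.a ∨ k = e.b then 0 else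
    ext 0 v e.a k + ext 0 v k e.b) k
  change _ ≤ cherry u e at h3
  change _ ≤ cherry v e at h4
  by_cases hk : k = e.a ∨ k = e.b
  · rw [if_pos hk]
    linarith
  · simp only [if_neg hk] at h3 h4 ⊢
    rw [not_or] at hk
    have ha : e.a ≠ k := fun h => hk.1 h.symm
    rw [ext_ne 0 _ ha, ext_ne 0 _ hk.2] at h3 h4 ⊢
    rw [hw, hw]
    linarith

theorem le_cherry (u : Edge n → ℝ) (e : Edge n) {k : Fin n} (hk : k ≠ e.a ∧ k ≠ e.b) :
    max 0 (ext 0 u e.a k + ext 0 u k e.b) ≤ cherry u e := by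
  refine max_le (sup0_nonneg _) ?_
  have h3 := le_sup0 (fun k : Fin n => if k = e.a ∨ k = e.b then 0 else
    ext 0 u e.a k + ext 0 u k e.b) k
  have h4 : ¬ (k = e.a ∨ k = e.b) := by
    rw [not_or]
    exact hk
  simp only [if_neg h4] at h3
  exact h3

theorem cherry_le (u : Edge n → ℝ) (e : Edge n) {k : Fin n}
    (h : ∀ k', k' ≠ e.a → k' ≠ e.b → k' ≠ k → ext 0 u e.a k' + ext 0 u k' e.b ≤ 0) :
    cherry u e ≤ max 0 (ext 0 u e.a k + ext 0 u k e.b) := by
  refine sup0_le (le_max_left _ _) fun k' => ?_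
  by_cases hk : k' = e.a ∨ k' = e.b
  · rw [if_pos hk]
    exact le_max_left _ _
  · rw [if_neg hk]
    rw [not_or] at hk
    by_cases hkk : k' = k
    · subst hkk
      exact le_max_right _ _
    · exact (h k' hk.1 hk.2 hkk).trans (le_max_left _ _)

/-- values of the labels -/
theorem ext_rv {m : ℕ} {K : ℝ} {q : ℕ → ℝ} (c : Edge n → Option (Fin (m + 1))) {i j : Fin n}
    (h : i ≠ j) : ext 0 (fun f => rv K m q (c f)) i j = rv K m q (ext none c i j) := by
  rw [ext_ne 0 _ h, ext_ne none _ h]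

theorem rv_add_le {m : ℕ} {K : ℝ} {q : ℕ → ℝ} (hq : ∀ i ≤ m, |q i| ≤ K)
    (x y : Option (Fin (m + 1)))
    (h : ∀ i j : Fin (m + 1), x = some i → y = some j → q i + q j ≤ 0) :
    rv K m q x + rv K m q y ≤ 0 := by
  rcases x with _ | i
  · have h2 := (abs_le.1 (rv_abs hq y)).2
    change -K + rv K m q y ≤ 0
    linarith
  · rcases y with _ | j
    · have h2 := (abs_le.1 (rv_abs hq (some i))).2
      change rv K m q (some i) + -K ≤ 0
      linarith
    · exact h i j rfl rfl

end BetaGapAux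

open BetaGapAux in
/-- F4: quantitative convexity of `beta` -/
theorem stBetaGap (hG : StBetaG) : StBetaGap := by
  intro n m ρ K g q q' Z hn hρ hm hqq hZ hg hgap
  classical
  have hq : ∀ i ≤ m, |q i| ≤ K := fun i hi => (hqq i hi).1
  have hq' : ∀ i ≤ m, |q' i| ≤ K := fun i hi => (hqq i hi).2
  have hqm : ∀ i ≤ m, |(fun i => (q i + q' i) / 2) i| ≤ K := by
    intro i hi
    have h1 := abs_le.1 (hq i hi)
    have h2 := abs_le.1 (hq' i hi)
    rw [abs_le]
    constructor
    · change -K ≤ (q i + q' i) / 2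
      linarith [h1.1, h2.1]
    · change (q i + q' i) / 2 ≤ K
      linarith [h1.2, h2.2]
  -- an edge
  obtain ⟨e⟩ : Nonempty (Edge n) := ⟨⟨⟨0, by omega⟩, ⟨1, by omega⟩, by simp [Fin.lt_def]⟩⟩
  have hab : e.a ≠ e.b := e.lt.ne
  rw [← EE_cherry hG e (by omega) hρ hm hq, ← EE_cherry hG e (by omega) hρ hm hq',
    ← EE_cherry hG e (by omega) hρ hm hqm]
  -- the events
  obtain ⟨Pb, hPb⟩ : ∃ Pb : ℕ × ℕ → Prop, Pb = fun z => 0 < q z.1 + q z.2 ∨ 0 < q' z.1 + q' z.2 ∨
    (z.1 ∈ Z ∧ z.2 ∈ Z) := ⟨_, rfl⟩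
  obtain ⟨Pz, hPz⟩ : ∃ Pz : ℕ × ℕ → Prop, Pz = fun z => z.1 ∈ Z ∧ z.2 ∈ Z := ⟨_, rfl⟩
  have hbad : ((Finset.range (m + 1) ×ˢ Finset.range (m + 1)).filter (fun z => 0 < q z.1 + q z.2 ∨
      0 < q' z.1 + q' z.2 ∨ (z.1 ∈ Z ∧ z.2 ∈ Z))) =
      (Finset.range (m + 1) ×ˢ Finset.range (m + 1)).filter Pb := by
    ext z
    rw [Finset.mem_filter, Finset.mem_filter, hPb]
  rw [hbad]
  have hcz : (((Finset.range (m + 1) ×ˢ Finset.range (m + 1)).filter Pz).card : ℝ) =
      (Z.card : ℝ) ^ 2 := by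
    have h1 : (Finset.range (m + 1) ×ˢ Finset.range (m + 1)).filter Pz = Z ×ˢ Z := by
      ext z
      rw [Finset.mem_filter, Finset.mem_product, Finset.mem_product, hPz]
      exact ⟨fun h => h.2, fun h => ⟨⟨hZ h.1, hZ h.2⟩, h⟩⟩
    rw [h1, Finset.card_product]
    push_cast
    ring
  obtain ⟨Nb, hNb⟩ : ∃ Nb : ℝ, Nb =
    (((Finset.range (m + 1) ×ˢ Finset.range (m + 1)).filter Pb).card : ℝ) := ⟨_, rfl⟩
  rw [← hNb]
  obtain ⟨O, hO⟩ : ∃ O : Fin n → (Edge n → Option (Fin (m + 1))) → ℝ, O = fun k c =>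
    ∏ k' ∈ oth e.a e.b, (fun k' x y => if k' = k then phi m Pz x y else 1 - phi m Pb x y) k'
      (ext none c e.a k') (ext none c k' e.b) := ⟨_, rfl⟩
  have hOE : ∀ k ∈ oth e.a e.b, EE (lp ρ m) (O k) =
      (ρ * Z.card) ^ 2 * (1 - ρ ^ 2 * Nb) ^ (n - 3) := by
    intro k hk
    rw [hO]
    have h1 := EE_prod (n := n) (lp_sum ρ m) none
      (fun k' x y => if k' = k then phi m Pz x y else 1 - phi m Pb x y) hab (oth e.a e.b)
      (fun k hk => mem_oth.1 hk)
    refine h1.trans ?_
    rw [← Finset.mul_prod_erase _ _ hk]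
    simp only [if_true]
    rw [sum_phi, hcz]
    have h2 : ∏ x ∈ (oth e.a e.b).erase k, ∑ h, ∑ h', lp ρ m h * lp ρ m h' *
        (if x = k then phi m Pz h h' else 1 - phi m Pb h h') =
        ∏ x ∈ (oth e.a e.b).erase k, (1 - ρ ^ 2 * Nb) := by
      refine Finset.prod_congr rfl fun x hx => ?_
      simp only [if_neg (Finset.ne_of_mem_erase hx)]
      rw [sum_one_sub_phi, hNb]
    rw [h2, Finset.prod_const, Finset.card_erase_of_mem hk, card_oth hab]
    have h3 : n - 2 - 1 = n - 3 := by omega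
    rw [h3]
    ring
  -- pointwise estimate
  have hpt : ∀ c : Edge n → Option (Fin (m + 1)), g * ∑ k ∈ oth e.a e.b, O k c ≤
      (cherry (fun f => rv K m q (c f)) e + cherry (fun f => rv K m q' (c f)) e) / 2 -
        cherry (fun f => rv K m (fun i => (q i + q' i) / 2) (c f)) e := by
    intro c
    have hmid : ∀ f, rv K m (fun i => (q i + q' i) / 2) (c f) =
        (rv K m q (c f) + rv K m q' (c f)) / 2 := by
      intro f
      rcases c f with _ | i
      · change -K = (-K + -K) / 2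
        ring
      · rfl
    by_cases hall : ∀ k ∈ oth e.a e.b, O k c = 0
    · rw [Finset.sum_eq_zero hall, mul_zero]
      have := cherry_mid (fun f => rv K m q (c f)) (fun f => rv K m q' (c f))
        (fun f => rv K m (fun i => (q i + q' i) / 2) (c f)) e hmid
      linarith
    · push Not at hall
      obtain ⟨k, hk, hk0⟩ := hall
      have hk1 := mem_oth.1 hk
      have hfac : ∀ k' ∈ oth e.a e.b, (if k' = k then phi m Pz (ext none c e.a k')
          (ext none c k' e.b) else 1 - phi m Pb (ext none c e.a k') (ext none c k' e.b)) ≠ 0 := by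
        rw [hO] at hk0
        exact fun k' hk' => Finset.prod_ne_zero_iff.1 hk0 k' hk'
      -- the pair at `k`
      have f1 := hfac k hk
      rw [if_pos rfl] at f1
      obtain ⟨-, i, j, hi, hj, hij⟩ := (phi_cases m Pz (ext none c e.a k)
        (ext none c k e.b)).resolve_left f1
      -- the other pairs
      have f2 : ∀ k' ∈ oth e.a e.b, k' ≠ k → phi m Pb (ext none c e.a k') (ext none c k' e.b) = 0 := by
        intro k' hk' hkk
        have f3 := hfac k' hk'
        rw [if_neg hkk] at f3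
        rcases phi_cases m Pb (ext none c e.a k') (ext none c k' e.b) with h | h
        · exact h
        · exact absurd (by rw [h.1, sub_self]) f3
      have f4 : ∀ k' ∈ oth e.a e.b, k' ≠ k → ∀ i j : Fin (m + 1), ext none c e.a k' = some i →
          ext none c k' e.b = some j → ¬ Pb ((i : ℕ), (j : ℕ)) := by
        intro k' hk' hkk i j hi hj hP
        have f5 := f2 k' hk' hkk
        rw [hi, hj, phi_one m Pb hP] at f5
        exact one_ne_zero f5
      -- the other events do not occur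
      have hsum : ∑ k' ∈ oth e.a e.b, O k' c = O k c := by
        refine Finset.sum_eq_single_of_mem k hk fun k' hk' hkk => ?_
        rw [hO]
        refine Finset.prod_eq_zero hk' ?_
        change (if k' = k' then phi m Pz (ext none c e.a k') (ext none c k' e.b) else _) = 0
        rw [if_pos rfl]
        rcases phi_cases m Pz (ext none c e.a k') (ext none c k' e.b) with h | ⟨-, i, j, hi, hj, hP⟩
        · exact h
        · refine absurd ?_ (f4 k' hk' hkk i j hi hj)
          rw [hPz] at hP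
          rw [hPb]
          exact Or.inr (Or.inr hP)
      have hO1 : O k c ≤ 1 := by
        rw [hO]
        refine Finset.prod_le_one (fun k' _ => ?_) (fun k' _ => ?_)
        · change 0 ≤ (if k' = k then phi m Pz (ext none c e.a k') (ext none c k' e.b) else
            1 - phi m Pb (ext none c e.a k') (ext none c k' e.b))
          rcases phi_cases m Pz (ext none c e.a k') (ext none c k' e.b) with h | h <;>
            rcases phi_cases m Pb (ext none c e.a k') (ext none c k' e.b) with h' | h' <;>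
            split_ifs <;> first | rw [h] | rw [h.1] | rw [h'] | rw [h'.1]
          all_goals norm_num
        · change (if k' = k then phi m Pz (ext none c e.a k') (ext none c k' e.b) else
            1 - phi m Pb (ext none c e.a k') (ext none c k' e.b)) ≤ 1
          rcases phi_cases m Pz (ext none c e.a k') (ext none c k' e.b) with h | h <;>
            rcases phi_cases m Pb (ext none c e.a k') (ext none c k' e.b) with h' | h' <;>
            split_ifs <;> first | rw [h] | rw [h.1] | rw [h'] | rw [h'.1]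
          all_goals norm_num
      rw [hsum]
      have hgO : g * O k c ≤ g := mul_le_of_le_one_right hg hO1
      have hak : e.a ≠ k := fun h => hk1.1 h.symm
      have c1 := le_cherry (fun f => rv K m q (c f)) e hk1
      have c2 := le_cherry (fun f => rv K m q' (c f)) e hk1
      have hnb : ∀ k', k' ≠ e.a → k' ≠ e.b → k' ≠ k → ∀ i j : Fin (m + 1),
          ext none c e.a k' = some i → ext none c k' e.b = some j →
          q i + q j ≤ 0 ∧ q' i + q' j ≤ 0 := by
        intro k' h1 h2 h3 i j hi hj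
        have f6 := f4 k' (mem_oth.2 ⟨h1, h2⟩) h3 i j hi hj
        rw [hPb] at f6
        simp only [not_or, not_lt] at f6
        exact ⟨f6.1, f6.2.1⟩
      have c3 := cherry_le (fun f => rv K m (fun i => (q i + q' i) / 2) (c f)) e (k := k) (by
        intro k' h1 h2 h3
        have h1' : e.a ≠ k' := fun h => h1 h.symm
        rw [ext_rv c h1', ext_rv c h2]
        refine rv_add_le hqm _ _ fun i j hi hj => ?_
        obtain ⟨h4, h5⟩ := hnb k' h1 h2 h3 i j hi hj
        linarith)
      rw [ext_rv c hak, ext_rv c hk1.2, hi, hj] at c1 c2 c3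
      change max 0 (q i + q j) ≤ _ at c1
      change max 0 (q' i + q' j) ≤ _ at c2
      change _ ≤ max 0 ((q i + q' i) / 2 + (q j + q' j) / 2) at c3
      rw [hPz] at hij
      have c4 := hgap i hij.1 j hij.2
      linarith
  have hfin := EE_mono (lp_nonneg hρ hm) hpt
  rw [EE_sub, EE_mul_left, EE_sum, Finset.sum_congr rfl hOE, Finset.sum_const, card_oth hab,
    nsmul_eq_mul] at hfin
  have hdiv : EE (lp ρ m) (fun c : Edge n → Option (Fin (m + 1)) =>
      (cherry (fun f => rv K m q (c f)) e + cherry (fun f => rv K m q' (c f)) e) / 2) =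
      (EE (lp ρ m) (fun c : Edge n → Option (Fin (m + 1)) => cherry (fun f => rv K m q (c f)) e) +
        EE (lp ρ m) (fun c : Edge n → Option (Fin (m + 1)) =>
          cherry (fun f => rv K m q' (c f)) e)) / 2 := by
    rw [← EE_add, div_eq_mul_inv, ← EE_mul_right]
    rfl
  rw [hdiv] at hfin
  refine le_trans (le_of_eq ?_) hfin
  have h2 : ((n - 2 : ℕ) : ℝ) = (n : ℝ) - 2 := by
    rw [Nat.cast_sub (by omega)]
    norm_num
  rw [h2]
  ring

end Pool.Agent.Lib.MP_193d8d_pr
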