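import Pool.Agent.Lib.MP_193d8d_pr.StA
import Pool.Agent.Lib.MP_193d8d_pr.StB
import Pool.Agent.Lib.MP_193d8d_pr.Base

set_option autoImplicit false
open MeasureTheory Set Filter Topology

namespace Pool.Agent.Lib.MP_193d8d_pr

namespace CloseQAux

/-! ## concavity of `lamf` and `Lam` -/

theorem lamf_le_self {δ : ℝ} (hδ : 0 < δ) (x : ℝ) : lamf δ x ≤ x := by
  unfold lamf
  split_ifs with h
  · exact le_rfl
  · rw [not_le] at h
    have hx : 0 < x := hδ.trans h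
    have h1 := Real.log_le_sub_one_of_pos (div_pos hx hδ)
    have h2 : δ * Real.log (x / δ) ≤ δ * (x / δ - 1) := mul_le_mul_of_nonneg_left h1 hδ.le
    have h3 : δ * (x / δ - 1) = x - δ := by field_simp
    linarith

theorem lamf_le_tangent {δ t : ℝ} (hδ : 0 < δ) (ht : δ < t) (x : ℝ) :
    lamf δ x ≤ δ + δ * Real.log (t / δ) + δ / t * (x - t) := by
  have ht0 : 0 < t := hδ.trans ht
  unfold lamf
  split_ifs with h
  · have h1 := Real.one_sub_inv_le_log_of_pos (div_pos ht0 hδ)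
    rw [inv_div] at h1
    have h2 : δ * (1 - δ / t) ≤ δ * Real.log (t / δ) := mul_le_mul_of_nonneg_left h1 hδ.le
    have h3 : 0 ≤ 1 - δ / t := by
      rw [sub_nonneg, div_le_one ht0]; exact ht.le
    have h4 : x * (1 - δ / t) ≤ δ * (1 - δ / t) := mul_le_mul_of_nonneg_right h h3
    have h5 : δ / t * (x - t) = δ / t * x - δ := by field_simp
    rw [h5]
    nlinarith
  · rw [not_le] at h
    have hx : 0 < x := hδ.trans h
    have h1 := Real.log_le_sub_one_of_pos (div_pos hx ht0)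
    have h2 : Real.log (x / δ) = Real.log (t / δ) + Real.log (x / t) := by
      rw [← Real.log_mul (div_pos ht0 hδ).ne' (div_pos hx ht0).ne']
      congr 1
      field_simp
    have h3 : δ * Real.log (x / t) ≤ δ * (x / t - 1) := mul_le_mul_of_nonneg_left h1 hδ.le
    have h4 : δ / t * (x - t) = δ * (x / t - 1) := by field_simp
    rw [h2, h4]
    nlinarith

theorem lamf_mid {δ : ℝ} (hδ : 0 < δ) (x y : ℝ) :
    (lamf δ x + lamf δ y) / 2 ≤ lamf δ ((x + y) / 2) := by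
  by_cases ht : (x + y) / 2 ≤ δ
  · have h1 : lamf δ ((x + y) / 2) = (x + y) / 2 := by unfold lamf; rw [if_pos ht]
    have h2 := lamf_le_self hδ x
    have h3 := lamf_le_self hδ y
    rw [h1]; linarith
  · have h1 : lamf δ ((x + y) / 2) = δ + δ * Real.log (((x + y) / 2) / δ) := by
      unfold lamf; rw [if_neg ht]
    rw [not_le] at ht
    have h2 := lamf_le_tangent hδ ht x
    have h3 := lamf_le_tangent hδ ht y
    have h4 : δ / ((x + y) / 2) * (x - (x + y) / 2) + δ / ((x + y) / 2) * (y - (x + y) / 2) = 0 := by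
      ring
    rw [h1]; linarith

theorem Lam_mid {δ : ℝ} (hδ : 0 < δ) (m : ℕ) (q q' : ℕ → ℝ) :
    (Lam δ m q + Lam δ m q') / 2 ≤ Lam δ m (fun i => (q i + q' i) / 2) := by
  unfold Lam
  have h : ∑ i ∈ Finset.range m, (lamf δ (q i - q (i + 1)) + lamf δ (q' i - q' (i + 1))) / 2 ≤
      ∑ i ∈ Finset.range m, lamf δ ((q i + q' i) / 2 - (q (i + 1) + q' (i + 1)) / 2) := by
    refine Finset.sum_le_sum fun i _ => ?_
    refine (lamf_mid hδ _ _).trans (le_of_eq ?_)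
    congr 1
    ring
  rw [← Finset.sum_div, Finset.sum_add_distrib] at h
  linarith

/-! ## elementary estimates -/

theorem tele {q : ℕ → ℝ} {D : ℝ} {a : ℕ} : ∀ b, a ≤ b →
    (∀ i, a ≤ i → i < b → q i - q (i + 1) ≤ D) → q a - q b ≤ ((b : ℝ) - a) * D := by
  intro b hab
  induction b, hab using Nat.le_induction with
  | base => intro _; simp
  | succ b hab ih =>
    intro h
    have h1 := ih fun i hi hib => h i hi (by omega)
    have h2 := h b hab (by omega)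
    push_cast
    nlinarith

theorem anti {q : ℕ → ℝ} {m : ℕ} (h : ∀ i < m, q (i + 1) ≤ q i) {a : ℕ} : ∀ b, a ≤ b → b ≤ m →
    q b ≤ q a := by
  intro b hab
  induction b, hab using Nat.le_induction with
  | base => intro _; exact le_rfl
  | succ b hab ih => intro hb; exact (h b (by omega)).trans (ih (by omega))

/-- telescoping over an interval contained in a finite set -/
theorem tele_abs {d : ℕ → ℝ} {R : Finset ℕ} {ρ : ℝ} {a b : ℕ} (hab : a ≤ b)
    (hR : ∀ i, a ≤ i → i < b → i ∈ R) (h : ∑ i ∈ R, |d i - d (i + 1)| ≤ ρ) : |d a - d b| ≤ ρ := by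
  refine le_trans ?_ h
  have h1 : d a - d b = ∑ i ∈ Finset.Ico a b, (d i - d (i + 1)) := by
    have := Finset.sum_Ico_sub d hab
    have h2 : ∑ i ∈ Finset.Ico a b, (d i - d (i + 1)) = -∑ i ∈ Finset.Ico a b, (d (i + 1) - d i) := by
      rw [← Finset.sum_neg_distrib]
      exact Finset.sum_congr rfl fun i _ => by ring
    rw [h2, this]; ring
  rw [h1]
  refine (Finset.abs_sum_le_sum_abs _ _).trans ?_
  refine Finset.sum_le_sum_of_subset_of_nonneg ?_ fun i _ _ => abs_nonneg _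
  intro i hi
  rw [Finset.mem_Ico] at hi
  exact hR i hi.1 hi.2

theorem close_of_sum {δ γ Γ r : ℝ} {d : ℕ → ℝ} (hδ : 0 < δ)
    (h : ∑ j ∈ rg δ γ Γ, |d j - d (j + 1)| ≤ r) {i j : ℕ} (hij : i ≤ j) (hj : j ≤ md δ)
    (hi1 : γ ≤ ((i : ℝ) + 1) * δ) (hj1 : ((j : ℝ) + 1) * δ ≤ Γ) : |d i - d j| ≤ r := by
  refine tele_abs hij (fun k hk1 hk2 => ?_) h
  unfold rg
  rw [Finset.mem_filter, Finset.mem_range]
  have e1 : (i : ℝ) ≤ k := by exact_mod_cast hk1
  have e2 : (k : ℝ) ≤ j := by exact_mod_cast hk2.le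
  have e3 : ((i : ℝ) + 1) * δ ≤ ((k : ℝ) + 1) * δ := mul_le_mul_of_nonneg_right (by linarith) hδ.le
  have e4 : ((k : ℝ) + 1) * δ ≤ ((j : ℝ) + 1) * δ := mul_le_mul_of_nonneg_right (by linarith) hδ.le
  exact ⟨by omega, by linarith, by linarith⟩

theorem exp_le_one_sub {x : ℝ} (h0 : 0 ≤ x) (h : x ≤ 1 / 2) : Real.exp (-(2 * x)) ≤ 1 - x := by
  rw [Real.exp_neg]
  have h1 : 1 + 2 * x ≤ Real.exp (2 * x) := by
    have := Real.add_one_le_exp (2 * x); linarith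
  have h2 : (Real.exp (2 * x))⁻¹ ≤ (1 + 2 * x)⁻¹ := inv_anti₀ (by linarith) h1
  refine h2.trans ?_
  rw [inv_le_iff_one_le_mul₀ (by linarith)]
  nlinarith

theorem pow_lower {L x : ℝ} {n : ℕ} (hL : 1 ≤ L) (hn : 4 * L ≤ n) (hx : x ≤ 2 * L / n) :
    Real.exp (-(4 * L)) ≤ (1 - x) ^ (n - 3) := by
  have hn0 : (0 : ℝ) < n := by linarith
  have h1 : 2 * L / n ≤ 1 / 2 := by
    rw [div_le_iff₀ hn0]; linarith
  have h0 : 0 ≤ 2 * L / n := by positivity
  have h2 := exp_le_one_sub h0 h1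
  have h3 : 1 - 2 * L / n ≤ 1 - x := by linarith
  have h4 : (Real.exp (-(2 * (2 * L / n)))) ^ (n - 3) ≤ (1 - x) ^ (n - 3) :=
    pow_le_pow_left₀ (Real.exp_pos _).le (h2.trans h3) _
  refine le_trans ?_ h4
  rw [← Real.exp_nat_mul]
  refine Real.exp_le_exp.2 ?_
  have h5 : ((n - 3 : ℕ) : ℝ) ≤ n := by exact_mod_cast Nat.sub_le _ _
  have h6 : ((n - 3 : ℕ) : ℝ) * (2 * (2 * L / n)) ≤ n * (2 * (2 * L / n)) :=
    mul_le_mul_of_nonneg_right h5 (by positivity)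
  have h7 : (n : ℝ) * (2 * (2 * L / n)) = 4 * L := by
    field_simp; ring
  linarith

/-! ## the core estimate -/

/-- the number of indices between the heights `s / 4` and `s / 2` -/
theorem zone {C0 c δ s Y Γ : ℝ} {q : ℕ → ℝ} (hc : 0 < c) (hs : 0 < s) (hsc : s ≤ c)
    (hY : Y = C0 * (1 + 2 / c) ^ 2) (hC0 : 1 ≤ C0) (hδ : 0 < δ) (hδc : δ ≤ c / 2)
    (hδs : δ ≤ s / (8 * Y)) (hΓ : 2 * C0 + 5 ≤ Γ) (hend : Γ ≤ ((md δ : ℝ) + 1) * δ)
    (hq : GoodA C0 δ q) (hq2 : ∀ i ≤ md δ, ((i : ℝ) + 1) * δ ≤ c → c ≤ q i) :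
    ∃ a b : ℕ, a ≤ b ∧ b ≤ md δ ∧ (∀ i, a ≤ i → i < b → s / 4 < q i ∧ q i < s / 2 ∧
      c < ((i : ℝ) + 1) * δ ∧ ((i : ℝ) + 1) * δ < Γ) ∧ s / (8 * Y) ≤ δ * ((b : ℝ) - a) := by
  obtain ⟨g1, -, -, g4, -, g6, -⟩ := hq
  have hY0 : 0 < Y := by rw [hY]; positivity
  -- the end
  have hneg : q (md δ) < 0 := by
    have := g4 (md δ) le_rfl (by linarith)
    linarith
  have hPa : ∃ i, i ≤ md δ ∧ q i < s / 2 := ⟨md δ, le_rfl, by linarith⟩
  have hPb : ∃ i, i ≤ md δ ∧ q i ≤ s / 4 := ⟨md δ, le_rfl, by linarith⟩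
  classical
  obtain ⟨ha1, ha2⟩ := Nat.find_spec hPa
  obtain ⟨hb1, hb2⟩ := Nat.find_spec hPb
  have hamin : ∀ i, i < Nat.find hPa → i ≤ md δ → s / 2 ≤ q i := by
    intro i hi him
    by_contra hcon
    exact Nat.find_min hPa hi ⟨him, not_le.1 hcon⟩
  have hbmin : ∀ i, i < Nat.find hPb → i ≤ md δ → s / 4 < q i := by
    intro i hi him
    by_contra hcon
    exact Nat.find_min hPb hi ⟨him, not_lt.1 hcon⟩
  generalize Nat.find hPa = a at *
  generalize Nat.find hPb = b at *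
  have hab : a ≤ b := by
    by_contra hcon
    have := hamin b (by omega) hb1
    linarith
  -- elements below height s/2 have a large level
  have hlev : ∀ i ≤ md δ, q i < s / 2 → c < ((i : ℝ) + 1) * δ := by
    intro i hi hqi
    by_contra hcon
    have := hq2 i hi (not_lt.1 hcon)
    linarith
  refine ⟨a, b, hab, hb1, ?_, ?_⟩
  · intro i hai hib
    have him : i ≤ md δ := by omega
    have h1 := hbmin i hib him
    have h2 : q i ≤ q a := anti g1 i hai him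
    have h3 : q i < s / 2 := by linarith
    refine ⟨h1, h3, hlev i him h3, ?_⟩
    by_contra hcon
    rw [not_lt] at hcon
    have := g4 i him (by linarith)
    linarith
  · have ha0 : a ≠ 0 := by
      intro h0
      have h5 := hlev a ha1 ha2
      rw [h0] at h5
      push_cast at h5
      linarith
    obtain ⟨a', rfl⟩ : ∃ a', a = a' + 1 := ⟨a - 1, by omega⟩
    have h1 : s / 2 ≤ q a' := hamin a' (by omega) (by omega)
    have h5 := hlev (a' + 1) ha1 ha2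
    push_cast at h5
    have hDY : ∀ i, a' ≤ i → i < b → q i - q (i + 1) ≤ δ * Y := by
      intro i hi hib
      refine (g6 i (by omega)).trans (mul_le_mul_of_nonneg_left ?_ hδ.le)
      rw [hY]
      have h6 : (a' : ℝ) ≤ i := by exact_mod_cast hi
      have h7 : c / 2 ≤ ((i : ℝ) + 1) * δ := by nlinarith
      have h8 : 1 / (((i : ℝ) + 1) * δ) ≤ 2 / c := by
        rw [div_le_div_iff₀ (by linarith) hc]; linarith
      have h9 : 0 ≤ 1 / (((i : ℝ) + 1) * δ) := by positivity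
      have h10 : (1 + 1 / (((i : ℝ) + 1) * δ)) ^ 2 ≤ (1 + 2 / c) ^ 2 :=
        pow_le_pow_left₀ (by linarith) (by linarith) 2
      exact mul_le_mul_of_nonneg_left h10 (by linarith)
    have h6 := tele b (by omega : a' ≤ b) hDY
    have h7 : s / 4 ≤ ((b : ℝ) - a') * (δ * Y) := by linarith
    have h8 : s / (4 * Y) ≤ ((b : ℝ) - a') * δ := by
      rw [div_le_iff₀ (by positivity)]
      nlinarith
    have h9 : s / (4 * Y) = 2 * (s / (8 * Y)) := by field_simp; ring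
    push_cast
    nlinarith

theorem core {C0 c δ s Y Γ L ρ : ℝ} {q q' : ℕ → ℝ} {n : ℕ} (h2 : StBetaGap) (hc : 0 < c)
    (hs : 0 < s) (hsc : s ≤ c) (hsρ : s ≤ ρ / 2)
    (hY : Y = C0 * (1 + 2 / c) ^ 2) (hC0 : 1 ≤ C0) (hδ : 0 < δ) (hδc : δ ≤ c / 2)
    (hδs : δ ≤ s / (8 * Y)) (hΓ : 2 * C0 + 5 ≤ Γ) (hend : Γ ≤ ((md δ : ℝ) + 1) * δ)
    (hq : GoodA C0 δ q) (hq2 : ∀ i ≤ md δ, ((i : ℝ) + 1) * δ ≤ c → c ≤ q i)
    (hq' : GoodA C0 δ q')
    (hL : 1 ≤ L) (hcq : δ ^ 2 * cnt (md δ) q 0 ≤ L) (hcq' : δ ^ 2 * cnt (md δ) q' 0 ≤ L)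
    (hn3 : 3 ≤ n) (hn : 4 * L ≤ n) (hnm : ((md δ : ℝ) + 1) * (δ * rr n) ≤ 1)
    (hd : ∀ j ≤ md δ, c ≤ ((j : ℝ) + 1) * δ → ((j : ℝ) + 1) * δ ≤ Γ → 3 * ρ / 4 ≤ q j - q' j) :
    (s / (8 * Y)) ^ 2 * s * Real.exp (-(4 * L)) / 12 ≤
      (beta (n - 2) (δ * rr n) (md δ) q + beta (n - 2) (δ * rr n) (md δ) q') / 2
        - beta (n - 2) (δ * rr n) (md δ) (fun i => (q i + q' i) / 2) := by
  obtain ⟨a, b, hab, hbm, hZ, hcard⟩ := zone hc hs hsc hY hC0 hδ hδc hδs hΓ hend hq hq2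
  have hY0 : 0 < Y := by rw [hY]; positivity
  have hn0 : (0 : ℝ) < n := by
    have : 0 < n := by omega
    exact_mod_cast this
  have hrr : 0 < rr n := by unfold rr; positivity
  have hrr2 : rr n ^ 2 = 1 / n := by
    unfold rr; rw [div_pow, one_pow, Real.sq_sqrt hn0.le]
  obtain ⟨-, g2, -⟩ := hq
  obtain ⟨-, g2', -⟩ := hq'
  have hmem : ∀ i, i ∈ Finset.Ico a b ↔ a ≤ i ∧ i < b := fun i => Finset.mem_Ico
  have hpos : ∀ i ∈ Finset.Ico a b, ∀ i' ∈ Finset.Ico a b, 0 < q i + q i' := by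
    intro i hi i' hi'
    rw [hmem] at hi hi'
    have h1 := (hZ i hi.1 hi.2).1
    have h1' := (hZ i' hi'.1 hi'.2).1
    linarith
  have hgap := h2 n (md δ) (δ * rr n) (Kd δ) (s / 4) q q' (Finset.Ico a b) hn3 (by positivity)
    hnm (fun i hi => ⟨g2 i hi, g2' i hi⟩) (by
      intro i hi
      rw [hmem] at hi
      rw [Finset.mem_range]; omega) (by positivity) (by
      intro i hi i' hi'
      rw [hmem] at hi hi'
      obtain ⟨k1, k2, k3, k4⟩ := hZ i hi.1 hi.2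
      obtain ⟨k1', k2', k3', k4'⟩ := hZ i' hi'.1 hi'.2
      have e1 := hd i (by omega) k3.le k4.le
      have e2 := hd i' (by omega) k3'.le k4'.le
      have e3 : max 0 (q i + q i') = q i + q i' := max_eq_right (by linarith)
      have e4 : max 0 ((q i + q' i) / 2 + (q i' + q' i') / 2) = 0 := max_eq_left (by linarith)
      have e5 : 0 ≤ max 0 (q' i + q' i') := le_max_left _ _
      rw [e3, e4]
      linarith)
  refine le_trans ?_ hgap
  -- the bad pairs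
  set bad : Finset (ℕ × ℕ) := (Finset.range (md δ + 1) ×ˢ
      Finset.range (md δ + 1)).filter (fun z => 0 < q z.1 + q z.2 ∨ 0 < q' z.1 + q' z.2 ∨
        (z.1 ∈ Finset.Ico a b ∧ z.2 ∈ Finset.Ico a b)) with hbad
  have hbadle : (bad.card : ℝ) ≤ cnt (md δ) q 0 + cnt (md δ) q' 0 := by
    unfold cnt
    have hsub : bad ⊆ (Finset.range (md δ + 1) ×ˢ Finset.range (md δ + 1)).filter
        (fun z => 0 < q z.1 + q z.2) ∪ (Finset.range (md δ + 1) ×ˢ
        Finset.range (md δ + 1)).filter (fun z => 0 < q' z.1 + q' z.2) := by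
      intro z hz
      rw [hbad, Finset.mem_filter] at hz
      rw [Finset.mem_union, Finset.mem_filter, Finset.mem_filter]
      rcases hz.2 with h | h | h
      · exact Or.inl ⟨hz.1, h⟩
      · exact Or.inr ⟨hz.1, h⟩
      · exact Or.inl ⟨hz.1, hpos _ h.1 _ h.2⟩
    have := (Finset.card_le_card hsub).trans (Finset.card_union_le _ _)
    exact_mod_cast this
  have hbad2 : (δ * rr n) ^ 2 * (bad.card : ℝ) ≤ 2 * L / n := by
    rw [mul_pow, hrr2]
    have : δ ^ 2 * (bad.card : ℝ) ≤ 2 * L := by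
      have h5 : δ ^ 2 * (bad.card : ℝ) ≤ δ ^ 2 * (cnt (md δ) q 0 + cnt (md δ) q' 0) :=
        mul_le_mul_of_nonneg_left hbadle (by positivity)
      linarith
    have h6 : δ ^ 2 * (1 / (n : ℝ)) * (bad.card : ℝ) = δ ^ 2 * (bad.card : ℝ) / n := by ring
    rw [h6]
    exact div_le_div_of_nonneg_right this hn0.le
  have hpow := pow_lower hL hn hbad2
  -- the cardinality
  have hcardZ : ((Finset.Ico a b).card : ℝ) = (b : ℝ) - a := by
    rw [Nat.card_Ico, Nat.cast_sub hab]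
  have hmain : (s / (8 * Y)) ^ 2 / 3 ≤ ((n : ℝ) - 2) * (δ * rr n * (Finset.Ico a b).card) ^ 2 := by
    rw [hcardZ]
    have h7 : (δ * rr n * ((b : ℝ) - a)) ^ 2 = (δ * ((b : ℝ) - a)) ^ 2 / n := by
      have : (δ * rr n * ((b : ℝ) - a)) ^ 2 = (δ * ((b : ℝ) - a)) ^ 2 * rr n ^ 2 := by ring
      rw [this, hrr2]; ring
    rw [h7]
    have h8 : (s / (8 * Y)) ^ 2 ≤ (δ * ((b : ℝ) - a)) ^ 2 :=
      pow_le_pow_left₀ (by positivity) hcard 2
    have h9 : (1 : ℝ) / 3 ≤ ((n : ℝ) - 2) / n := by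
      rw [div_le_div_iff₀ (by norm_num) hn0]
      have : (3 : ℝ) ≤ n := by exact_mod_cast hn3
      linarith
    have h10 : ((n : ℝ) - 2) * ((δ * ((b : ℝ) - a)) ^ 2 / n) =
        ((n : ℝ) - 2) / n * (δ * ((b : ℝ) - a)) ^ 2 := by ring
    rw [h10]
    have h11 : (1 : ℝ) / 3 * (s / (8 * Y)) ^ 2 ≤ ((n : ℝ) - 2) / n * (δ * ((b : ℝ) - a)) ^ 2 :=
      mul_le_mul h9 h8 (by positivity) (by linarith)
    linarith
  have h12 : (s / (8 * Y)) ^ 2 / 3 * Real.exp (-(4 * L)) ≤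
      ((n : ℝ) - 2) * (δ * rr n * (Finset.Ico a b).card) ^ 2 *
        (1 - (δ * rr n) ^ 2 * (bad.card : ℝ)) ^ (n - 3) :=
    mul_le_mul hmain hpow (Real.exp_pos _).le ((by positivity : (0 : ℝ) ≤ _).trans hmain)
  have h13 : (s / (8 * Y)) ^ 2 / 3 * Real.exp (-(4 * L)) * (s / 4) ≤
      ((n : ℝ) - 2) * (δ * rr n * (Finset.Ico a b).card) ^ 2 *
        (1 - (δ * rr n) ^ 2 * (bad.card : ℝ)) ^ (n - 3) * (s / 4) :=
    mul_le_mul_of_nonneg_right h12 (by positivity)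
  refine le_trans (le_of_eq ?_) h13
  ring

theorem rr_small (A : ℝ) : ∀ᶠ n : ℕ in atTop, A * rr n ≤ 1 := by
  have h : Tendsto (fun n : ℕ => Real.sqrt n) atTop atTop :=
    Real.tendsto_sqrt_atTop.comp tendsto_natCast_atTop_atTop
  filter_upwards [h.eventually_ge_atTop A, eventually_gt_atTop 0] with n hn hn0
  have h0 : (0 : ℝ) < Real.sqrt n := Real.sqrt_pos.2 (by exact_mod_cast hn0)
  unfold rr
  rw [mul_one_div, div_le_one h0]
  exact hn

end CloseQAux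

open CloseQAux in
/-- F5 -/
theorem stCloseQ (h1 : StIncQ) (h2 : StBetaGap) (h3 : StCnt0) : StCloseQ := by
  intro C0 c1 γa Γ ρ hC0 hc1 hγa hγΓ hΓ hρ
  obtain ⟨L, hL, hcnt⟩ := h3 C0 hC0
  -- constants
  obtain ⟨c, hc, hcc1, hc1'⟩ : ∃ c : ℝ, 0 < c ∧ c ≤ c1 ∧ c ≤ 1 :=
    ⟨min c1 1, lt_min hc1 one_pos, min_le_left _ _, min_le_right _ _⟩
  obtain ⟨γ, hγ, hγγa, hγc⟩ : ∃ γ : ℝ, 0 < γ ∧ γ ≤ γa ∧ γ ≤ c :=
    ⟨min γa c, lt_min hγa hc, min_le_left _ _, min_le_right _ _⟩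
  obtain ⟨s, hs, hsc, hsρ⟩ : ∃ s : ℝ, 0 < s ∧ s ≤ c ∧ s ≤ ρ / 2 :=
    ⟨min c (ρ / 2), lt_min hc (by linarith), min_le_left _ _, min_le_right _ _⟩
  obtain ⟨Y, hY⟩ : ∃ Y : ℝ, Y = C0 * (1 + 2 / c) ^ 2 := ⟨_, rfl⟩
  have hY0 : 0 < Y := by rw [hY]; positivity
  obtain ⟨τ1, hτ1, hinc⟩ := h1 C0 γ Γ (ρ / 4) hC0 hγ (by linarith) (by linarith)
  have hE : 0 < (s / (8 * Y)) ^ 2 * s * Real.exp (-(4 * L)) / 12 := by positivity
  obtain ⟨τ, hτ, hττ1, hτE⟩ : ∃ τ : ℝ, 0 < τ ∧ τ ≤ τ1 ∧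
      τ < (s / (8 * Y)) ^ 2 * s * Real.exp (-(4 * L)) / 12 :=
    ⟨min τ1 ((s / (8 * Y)) ^ 2 * s * Real.exp (-(4 * L)) / 12 / 2),
      lt_min hτ1 (by linarith), min_le_left _ _, lt_of_le_of_lt (min_le_right _ _) (by linarith)⟩
  refine ⟨τ, hτ, ?_⟩
  have hev : ∀ {A : ℝ}, 0 < A → ∀ᶠ δ : ℝ in 𝓝[>] (0 : ℝ), δ ≤ A := fun {A} hA => by
    have : ∀ᶠ δ : ℝ in 𝓝 (0 : ℝ), δ < A := gt_mem_nhds hA
    exact (this.filter_mono nhdsWithin_le_nhds).mono fun _ h => h.le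
  filter_upwards [self_mem_nhdsWithin, hev (by positivity : 0 < c / 2),
    hev (by positivity : 0 < s / (8 * Y)), hev (by norm_num : (0 : ℝ) < 1 / 2),
    hev (one_div_pos.2 (by linarith) : 0 < 1 / Γ)] with δ hδ hδc hδs hδ1 hδΓ
  rw [mem_Ioi] at hδ
  have hend : Γ ≤ ((md δ : ℝ) + 1) * δ := by
    have h4 : 1 / δ ^ 2 ≤ (md δ : ℝ) := Nat.le_ceil _
    have h5 : Γ ≤ 1 / δ := by
      rw [le_div_iff₀ hδ]
      rw [le_div_iff₀ (by linarith)] at hδΓ
      linarith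
    have h6 : 1 / δ ^ 2 * δ = 1 / δ := by field_simp
    nlinarith
  filter_upwards [eventually_ge_atTop 3, (tendsto_natCast_atTop_atTop (R := ℝ)).eventually_ge_atTop
    (4 * L), rr_small (((md δ : ℝ) + 1) * δ)] with n hn3 hn4 hnm
  have hnm' : ((md δ : ℝ) + 1) * (δ * rr n) ≤ 1 := by rw [← mul_assoc]; exact hnm
  have hrr : 0 ≤ rr n := by unfold rr; positivity
  -- one direction
  have key : ∀ q q' : ℕ → ℝ, Good C0 c1 δ q → Good C0 c1 δ q' → Steep τ Γ δ q → Steep τ Γ δ q' →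
    Jn δ n (fun i => (q i + q' i) / 2) ≤ (Jn δ n q + Jn δ n q') / 2 + τ →
    ∀ i ≤ md δ, γa ≤ ((i : ℝ) + 1) * δ → ((i : ℝ) + 1) * δ ≤ Γ → q i - q' i ≤ ρ := by
    intro q q' hq hq' hst hst' hJ i him hig hiΓ
    obtain ⟨hqA, hqB⟩ := hq
    obtain ⟨hqA', hqB'⟩ := hq'
    -- the two gaps
    have hβ0 : 0 ≤ (beta (n - 2) (δ * rr n) (md δ) q + beta (n - 2) (δ * rr n) (md δ) q') / 2
        - beta (n - 2) (δ * rr n) (md δ) (fun i => (q i + q' i) / 2) := by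
      have := h2 n (md δ) (δ * rr n) (Kd δ) 0 q q' ∅ hn3 (by positivity) hnm'
        (fun i hi => ⟨hqA.2.1 i hi, hqA'.2.1 i hi⟩) (Finset.empty_subset _) le_rfl
        (fun i hi => absurd hi (Finset.notMem_empty i))
      simpa using this
    have hΛ0 := Lam_mid hδ (md δ) q q'
    unfold Jn at hJ
    have hΛ : Lam δ (md δ) (fun i => (q i + q' i) / 2) ≤
        (Lam δ (md δ) q + Lam δ (md δ) q') / 2 + τ1 := by linarith
    have hβ : (beta (n - 2) (δ * rr n) (md δ) q + beta (n - 2) (δ * rr n) (md δ) q') / 2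
        - beta (n - 2) (δ * rr n) (md δ) (fun i => (q i + q' i) / 2) ≤ τ := by linarith
    have hstτ : Steep τ1 Γ δ q := fun j hj hjΓ => by
      refine le_trans ?_ (hst j hj hjΓ)
      nlinarith
    have hstτ' : Steep τ1 Γ δ q' := fun j hj hjΓ => by
      refine le_trans ?_ (hst' j hj hjΓ)
      nlinarith
    have hsum := hinc δ q q' hδ (by linarith) hqA hqA' hstτ hstτ' hΛ
    have hsum' : ∑ j ∈ rg δ γ Γ, |(q j - q' j) - (q (j + 1) - q' (j + 1))| ≤ ρ / 4 := by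
      refine le_trans (le_of_eq ?_) hsum
      refine Finset.sum_congr rfl fun j _ => ?_
      congr 1
      ring
    by_contra hcon
    rw [not_le] at hcon
    -- all differences are large
    have hd : ∀ j ≤ md δ, c ≤ ((j : ℝ) + 1) * δ → ((j : ℝ) + 1) * δ ≤ Γ →
        3 * ρ / 4 ≤ q j - q' j := by
      intro j hjm hj1 hj2
      have habs : |(q i - q' i) - (q j - q' j)| ≤ ρ / 4 := by
        rcases le_total i j with hij | hij
        · exact close_of_sum (d := fun k => q k - q' k) hδ hsum' hij hjm (hγγa.trans hig) hj2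
        · rw [abs_sub_comm]
          exact close_of_sum (d := fun k => q k - q' k) hδ hsum' hij him (hγc.trans hj1) hiΓ
      have := (abs_le.1 habs).2
      linarith
    have hcore := core (c := c) (s := s) (Y := Y) (Γ := Γ) (L := L) (ρ := ρ) h2 hc hs hsc hsρ hY
      hC0 hδ hδc hδs hΓ hend hqA (fun j hj hjc => hcc1.trans (hqB j hj (hjc.trans hcc1))) hqA' hL
      (hcnt δ q hδ (by linarith) hqA) (hcnt δ q' hδ (by linarith) hqA') hn3 hn4 hnm' hd
    linarith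
  intro q q' hq hq' hst hst' hJ i him hig hiΓ
  rw [abs_le]
  constructor
  · have hJ' : Jn δ n (fun i => (q' i + q i) / 2) ≤ (Jn δ n q' + Jn δ n q) / 2 + τ := by
      have e1 : (fun i => (q' i + q i) / 2) = (fun i => (q i + q' i) / 2) := by
        funext j; rw [add_comm]
      rw [e1, add_comm (Jn δ n q')]
      exact hJ
    have := key q' q hq' hq hst' hst hJ' i him hig hiΓ
    linarith
  · exact key q q' hq hq' hst hst' hJ i him hig hiΓ

end Pool.Agent.Lib.MP_193d8d_pr
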