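import Pool.Agent.Lib.MP_193d8d_pr.StB

set_option autoImplicit false
open MeasureTheory Set Filter Topology

namespace Pool.Agent.Lib.MP_193d8d_pr

/-! # F3: number of positive pairs -/

namespace Cnt0Aux

theorem sum_inv_sqrt (N : ℕ) :
    ∑ i ∈ Finset.range N, 1 / Real.sqrt ((i : ℝ) + 1) ≤ 2 * Real.sqrt N := by
  induction N with
  | zero => simp
  | succ N ih =>
    rw [Finset.sum_range_succ]
    have h1 : 0 ≤ Real.sqrt (N : ℝ) := Real.sqrt_nonneg _
    have h2 : 0 < Real.sqrt ((N : ℝ) + 1) := Real.sqrt_pos.mpr (by positivity)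
    have h3 : Real.sqrt (N : ℝ) * Real.sqrt N = N := Real.mul_self_sqrt (by positivity)
    have h4 : Real.sqrt ((N : ℝ) + 1) * Real.sqrt ((N : ℝ) + 1) = N + 1 :=
      Real.mul_self_sqrt (by positivity)
    have h5 : 1 / Real.sqrt ((N : ℝ) + 1) ≤ 2 * (Real.sqrt ((N : ℝ) + 1) - Real.sqrt N) := by
      rw [div_le_iff₀ h2]
      nlinarith [sq_nonneg (Real.sqrt ((N : ℝ) + 1) - Real.sqrt N)]
    push_cast
    linarith

theorem card_le {δ R : ℝ} (hδ : 0 < δ) (hR : 0 ≤ R) (m : ℕ) :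
    (((Finset.range (m + 1)).filter (fun i : ℕ => ((i : ℝ) + 1) * δ ≤ R)).card : ℝ) ≤ R / δ := by
  have h1 : (Finset.range (m + 1)).filter (fun i : ℕ => ((i : ℝ) + 1) * δ ≤ R) ⊆
      Finset.range ⌊R / δ⌋₊ := by
    intro i hi
    rw [Finset.mem_filter] at hi
    rw [Finset.mem_range, ← Nat.succ_le_iff, Nat.le_floor_iff (by positivity), le_div_iff₀ hδ]
    push_cast
    exact hi.2
  have h2 := Finset.card_le_card h1
  rw [Finset.card_range] at h2
  calc _ ≤ ((⌊R / δ⌋₊ : ℕ) : ℝ) := by exact_mod_cast h2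
    _ ≤ R / δ := Nat.floor_le (by positivity)

end Cnt0Aux

open Cnt0Aux in
theorem stCnt0 : StCnt0 := by
  intro C0 hC0
  refine ⟨24 * C0 ^ 2, by nlinarith, fun δ q hδ hδ1 hq => ?_⟩
  obtain ⟨-, -, h3, h4, -, -, -⟩ := hq
  set m := md δ with hm
  set R : ℕ → ℝ := fun i => 2 * C0 + 2 * C0 / Real.sqrt (((i : ℝ) + 1) * δ) with hR
  have hR0 : ∀ i, 0 ≤ R i := fun i => by rw [hR]; positivity
  -- pairs with positive first member
  set A := (Finset.range (m + 1) ×ˢ Finset.range (m + 1)).filter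
    (fun z : ℕ × ℕ => 0 < q z.1 + q z.2) with hA
  set B := (Finset.range (m + 1) ×ˢ Finset.range (m + 1)).filter
    (fun z : ℕ × ℕ => 0 < q z.1 ∧ 0 < q z.1 + q z.2) with hB
  have hAB : A ⊆ B ∪ B.image Prod.swap := by
    rintro ⟨i, j⟩ hz
    rw [hA, Finset.mem_filter, Finset.mem_product] at hz
    obtain ⟨⟨hi, hj⟩, hz⟩ := hz
    simp only at hi hj hz
    rw [Finset.mem_union]
    rcases lt_or_ge 0 (q i) with h | h
    · left
      rw [hB, Finset.mem_filter, Finset.mem_product]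
      exact ⟨⟨hi, hj⟩, h, hz⟩
    · right
      rw [Finset.mem_image]
      refine ⟨(j, i), ?_, rfl⟩
      rw [hB, Finset.mem_filter, Finset.mem_product]
      exact ⟨⟨hj, hi⟩, by simp only; linarith, by simp only; linarith⟩
  have hcard : (A.card : ℝ) ≤ 2 * B.card := by
    have h5 := (Finset.card_le_card hAB).trans (Finset.card_union_le _ _)
    have h6 : (B.image Prod.swap).card ≤ B.card := Finset.card_image_le
    have h7 : A.card ≤ 2 * B.card := by omega
    exact_mod_cast h7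
  -- the pairs of `B`
  have hlev : ∀ i : ℕ, 0 < ((i : ℝ) + 1) * δ := fun i => by positivity
  have hB1 : ∀ i j : ℕ, (i, j) ∈ B → ((i : ℝ) + 1) * δ ≤ 2 * C0 ∧ ((j : ℝ) + 1) * δ ≤ R i := by
    intro i j hz
    rw [hB, Finset.mem_filter, Finset.mem_product] at hz
    obtain ⟨⟨hi, hj⟩, hz1, hz2⟩ := hz
    simp only [Finset.mem_range] at hi hj hz1 hz2
    have hi' : i ≤ m := by omega
    have hj' : j ≤ m := by omega
    have hpos : 0 < C0 / Real.sqrt (((i : ℝ) + 1) * δ) :=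
      div_pos (by linarith) (Real.sqrt_pos.mpr (hlev i))
    constructor
    · rcases lt_or_ge (((i : ℝ) + 1) * δ) 1 with h | h
      · linarith
      · have := h4 i hi' h
        linarith
    · have e1 := h3 i hi'
      have e2 : R i = 2 * C0 + 2 * (C0 / Real.sqrt (((i : ℝ) + 1) * δ)) := by
        rw [hR]; ring
      rw [e2]
      rcases lt_or_ge (((j : ℝ) + 1) * δ) 1 with h | h
      · linarith
      · have := h4 j hj' h
        linarith
  set I := (Finset.range (m + 1)).filter (fun i : ℕ => ((i : ℝ) + 1) * δ ≤ 2 * C0) with hI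
  have hBsub : B ⊆ (I.sigma (fun i => (Finset.range (m + 1)).filter
      (fun j : ℕ => ((j : ℝ) + 1) * δ ≤ R i))).image (fun z => (z.1, z.2)) := by
    rintro ⟨i, j⟩ hz
    have h5 := hB1 i j hz
    rw [hB, Finset.mem_filter, Finset.mem_product] at hz
    rw [Finset.mem_image]
    refine ⟨⟨i, j⟩, ?_, rfl⟩
    rw [Finset.mem_sigma, hI, Finset.mem_filter, Finset.mem_filter]
    exact ⟨⟨hz.1.1, h5.1⟩, hz.1.2, h5.2⟩
  have hBcard : (B.card : ℝ) ≤ ∑ i ∈ I, R i / δ := by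
    have h5 := (Finset.card_le_card hBsub).trans Finset.card_image_le
    rw [Finset.card_sigma] at h5
    calc (B.card : ℝ) ≤ ((∑ i ∈ I, ((Finset.range (m + 1)).filter
          (fun j : ℕ => ((j : ℝ) + 1) * δ ≤ R i)).card : ℕ) : ℝ) := by exact_mod_cast h5
      _ = ∑ i ∈ I, (((Finset.range (m + 1)).filter
          (fun j : ℕ => ((j : ℝ) + 1) * δ ≤ R i)).card : ℝ) := by push_cast; rfl
      _ ≤ ∑ i ∈ I, R i / δ := Finset.sum_le_sum fun i _ => card_le hδ (hR0 i) m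
  -- the sum
  set N := ⌊2 * C0 / δ⌋₊ with hN
  have hIN : I ⊆ Finset.range N := by
    intro i hi
    rw [hI, Finset.mem_filter] at hi
    rw [hN, Finset.mem_range, ← Nat.succ_le_iff, Nat.le_floor_iff (by positivity),
      le_div_iff₀ hδ]
    push_cast
    exact hi.2
  have hNδ : (N : ℝ) * δ ≤ 2 * C0 := by
    have h5 : (N : ℝ) ≤ 2 * C0 / δ := Nat.floor_le (by positivity)
    rwa [le_div_iff₀ hδ] at h5
  have hsd : 0 < Real.sqrt δ := Real.sqrt_pos.mpr hδ
  have hsum : δ ^ 2 * ∑ i ∈ I, R i / δ ≤ 12 * C0 ^ 2 := by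
    have h5 : δ ^ 2 * ∑ i ∈ I, R i / δ = ∑ i ∈ I, δ * R i := by
      rw [Finset.mul_sum]
      refine Finset.sum_congr rfl fun i _ => ?_
      field_simp
    have h6 : ∑ i ∈ I, δ * R i ≤ ∑ i ∈ Finset.range N, δ * R i :=
      Finset.sum_le_sum_of_subset_of_nonneg hIN fun i _ _ => mul_nonneg hδ.le (hR0 i)
    have h7 : ∑ i ∈ Finset.range N, δ * R i = 2 * C0 * (N * δ) +
        2 * C0 * Real.sqrt δ * ∑ i ∈ Finset.range N, 1 / Real.sqrt ((i : ℝ) + 1) := by
      have h8 : ∀ i ∈ Finset.range N, δ * R i = 2 * C0 * δ +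
          2 * C0 * Real.sqrt δ * (1 / Real.sqrt ((i : ℝ) + 1)) := by
        intro i _
        rw [hR]
        simp only
        rw [Real.sqrt_mul (by positivity)]
        have h9 : 0 < Real.sqrt ((i : ℝ) + 1) := Real.sqrt_pos.mpr (by positivity)
        have h10 : Real.sqrt δ * Real.sqrt δ = δ := Real.mul_self_sqrt hδ.le
        field_simp
        linear_combination -h10
      rw [Finset.sum_congr rfl h8, Finset.sum_add_distrib, Finset.sum_const,
        Finset.card_range, nsmul_eq_mul, ← Finset.mul_sum]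
      ring
    have h8 := sum_inv_sqrt N
    have h9 : Real.sqrt δ * Real.sqrt N ≤ 2 * C0 := by
      rw [← Real.sqrt_mul hδ.le]
      have h10 : δ * N ≤ (2 * C0) ^ 2 := by nlinarith
      calc Real.sqrt (δ * N) ≤ Real.sqrt ((2 * C0) ^ 2) := Real.sqrt_le_sqrt h10
        _ = 2 * C0 := Real.sqrt_sq (by linarith)
    have h10 : 2 * C0 * Real.sqrt δ * ∑ i ∈ Finset.range N, 1 / Real.sqrt ((i : ℝ) + 1) ≤
        2 * C0 * Real.sqrt δ * (2 * Real.sqrt N) :=
      mul_le_mul_of_nonneg_left h8 (by positivity)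
    have h11 : 2 * C0 * (N * δ) ≤ 2 * C0 * (2 * C0) :=
      mul_le_mul_of_nonneg_left hNδ (by linarith)
    have h12 : 2 * C0 * Real.sqrt δ * (2 * Real.sqrt N) = 4 * C0 * (Real.sqrt δ * Real.sqrt N) := by
      ring
    have h13 : 4 * C0 * (Real.sqrt δ * Real.sqrt N) ≤ 4 * C0 * (2 * C0) :=
      mul_le_mul_of_nonneg_left h9 (by linarith)
    rw [h5]
    nlinarith
  have hcnt : cnt m q 0 = (A.card : ℝ) := rfl
  rw [hcnt]
  have hδ2 : 0 ≤ δ ^ 2 := by positivity
  calc δ ^ 2 * (A.card : ℝ) ≤ δ ^ 2 * (2 * B.card) := mul_le_mul_of_nonneg_left hcard hδ2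
    _ ≤ δ ^ 2 * (2 * ∑ i ∈ I, R i / δ) :=
      mul_le_mul_of_nonneg_left (by linarith) hδ2
    _ = 2 * (δ ^ 2 * ∑ i ∈ I, R i / δ) := by ring
    _ ≤ 24 * C0 ^ 2 := by linarith

end Pool.Agent.Lib.MP_193d8d_pr
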