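import Pool.Agent.Lib.MP_193d8d_pr.StA
import Pool.Agent.Lib.MP_193d8d_pr.StB
import Pool.Agent.Lib.MP_193d8d_pr.Base

set_option autoImplicit false
open MeasureTheory Set Filter Topology

namespace Pool.Agent.Lib.MP_193d8d_pr

/-! # H12: the densities converge -/

namespace ConvAux

/-- the distribution function of one distance -/
theorem int_dens (hD : StDens) {n : ℕ} (hn : 3 ≤ n) (e : Edge n) {τ : ℝ} (h0 : 0 ≤ τ)
    (h2 : τ ≤ 2) :
    (∫ t in (0 : ℝ)..τ, dens 0 n e t) = vol {x | x ∈ M 0 n ∧ x e ≤ τ} / vol (M 0 n) := by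
  have h := ((hD 0 n e le_rfl one_pos hn).2.2.2.2 0 τ le_rfl h0 h2).2
  rw [← h]
  congr 2
  ext x
  constructor
  · rintro ⟨h1, -, h3⟩
    exact ⟨h1, h3⟩
  · rintro ⟨h1, h3⟩
    exact ⟨h1, (h1.1 e).1, h3⟩

theorem int_one (hD : StDens) {n : ℕ} (hn : 3 ≤ n) (e : Edge n) :
    (∫ t in (0 : ℝ)..1, dens 0 n e t) = wt 0 n e :=
  int_dens hD hn e zero_le_one one_le_two

theorem int_two (hV : StVol) (hD : StDens) {n : ℕ} (hn : 3 ≤ n) (e : Edge n) :
    (∫ t in (0 : ℝ)..2, dens 0 n e t) = 1 := by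
  rw [int_dens hD hn e zero_le_two le_rfl]
  have h1 : {x : Edge n → ℝ | x ∈ M 0 n ∧ x e ≤ 2} = M 0 n := by
    ext x
    exact ⟨fun h => h.1, fun h => ⟨h, (h.1 e).2⟩⟩
  rw [h1]
  have h2 := (hV 0 n le_rfl one_pos).2.2.2
  exact div_self (by linarith)

/-- an edge -/
def e0 {n : ℕ} (h : 2 ≤ n) : Edge n := ⟨⟨0, by omega⟩, ⟨1, by omega⟩, by simp [Fin.lt_def]⟩

/-- the density of one distance -/
noncomputable def ff (n : ℕ) (t : ℝ) : ℝ := if h : 2 ≤ n then dens 0 n (e0 h) t else 0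

theorem ff_eq (hS : StSym) {n : ℕ} (hn : 2 ≤ n) (e : Edge n) (t : ℝ) :
    ff n t = dens 0 n e t := by
  rw [ff, dif_pos hn]
  exact (hS 0 n (e0 hn) e).1 t

theorem rr_pos {n : ℕ} (hn : 1 ≤ n) : 0 < rr n := by
  unfold rr
  have : (0 : ℝ) < n := by exact_mod_cast hn
  positivity

theorem sqrt_mul_rr {n : ℕ} (hn : 1 ≤ n) : Real.sqrt n * rr n = 1 := by
  unfold rr
  have : (0 : ℝ) < Real.sqrt n := Real.sqrt_pos.2 (by exact_mod_cast hn)
  field_simp

theorem tendsto_rr : Tendsto rr atTop (𝓝 0) := by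
  have h : Tendsto (fun n : ℕ => Real.sqrt n) atTop atTop :=
    Real.tendsto_sqrt_atTop.comp tendsto_natCast_atTop_atTop
  have := h.inv_tendsto_atTop
  refine this.congr fun n => ?_
  simp [rr]

theorem M_sub {n : ℕ} : M (9 / 10) n ⊆ M 0 n := by
  intro x hx
  exact ⟨fun e => ⟨by linarith [(hx.1 e).1], (hx.1 e).2⟩, hx.2⟩

/-- comparison of the two polytopes -/
theorem compare (hV : StVol) {n : ℕ} (hn : 3 ≤ n)
    (hSh : (1 - 1 / (n : ℝ) ^ 2) * vol (M 0 n) ≤ vol (M (9 / 10) n)) (e : Edge n) (τ : ℝ) :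
    |vol {x | x ∈ M 0 n ∧ x e ≤ τ} / vol (M 0 n) -
      vol {x | x ∈ M (9 / 10) n ∧ x e < τ} / vol (M (9 / 10) n)| ≤ 1 / (n : ℝ) ^ 2 := by
  obtain ⟨m0, -, f0, v0⟩ := hV 0 n le_rfl one_pos
  obtain ⟨m9, -, f9, v9⟩ := hV (9 / 10) n (by norm_num) (by norm_num)
  have hmeas : Measurable fun x : Edge n → ℝ => x e := measurable_pi_apply e
  have mle : MeasurableSet {x : Edge n → ℝ | x e ≤ τ} := measurableSet_le hmeas measurable_const
  have mlt : MeasurableSet {x : Edge n → ℝ | x e < τ} := measurableSet_lt hmeas measurable_const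
  set A0 := {x : Edge n → ℝ | x ∈ M 0 n ∧ x e ≤ τ} with hA0
  set A9 := {x : Edge n → ℝ | x ∈ M (9 / 10) n ∧ x e < τ} with hA9
  have fA0 : volume A0 ≠ ⊤ := measure_ne_top_of_subset (fun x hx => hx.1) f0
  have fA9 : volume A9 ≠ ⊤ := measure_ne_top_of_subset (fun x hx => hx.1) f9
  have h1 : vol A9 ≤ vol A0 :=
    ENNReal.toReal_mono fA0 (measure_mono fun x hx => ⟨M_sub hx.1, hx.2.le⟩)
  have h2 : vol A9 ≤ vol (M (9 / 10) n) :=
    ENNReal.toReal_mono f9 (measure_mono fun x hx => hx.1)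
  have fD : volume (M 0 n \ M (9 / 10) n) ≠ ⊤ := measure_ne_top_of_subset sdiff_subset f0
  have h3 : vol (M 0 n \ M (9 / 10) n) = vol (M 0 n) - vol (M (9 / 10) n) := by
    unfold vol
    rw [measure_sdiff M_sub m9.nullMeasurableSet f9,
      ENNReal.toReal_sub_of_le (measure_mono M_sub) f0]
  have hz : volume {x : Edge n → ℝ | x e = τ} = 0 := by
    rw [volume_pi]
    exact Measure.pi_hyperplane (fun _ : Edge n => (volume : Measure ℝ)) e τ
  have h4 : vol A0 ≤ vol A9 + vol (M 0 n \ M (9 / 10) n) := by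
    unfold vol
    rw [← ENNReal.toReal_add fA9 fD]
    refine ENNReal.toReal_mono (ENNReal.add_ne_top.2 ⟨fA9, fD⟩) ?_
    calc volume A0 ≤ volume (A9 ∪ (M 0 n \ M (9 / 10) n) ∪ {x : Edge n → ℝ | x e = τ}) := by
          refine measure_mono fun x hx => ?_
          rcases hx.2.lt_or_eq with h | h
          · left
            by_cases h9 : x ∈ M (9 / 10) n
            · exact Or.inl ⟨h9, h⟩
            · exact Or.inr ⟨hx.1, h9⟩
          · exact Or.inr h
      _ ≤ volume (A9 ∪ (M 0 n \ M (9 / 10) n)) + volume {x : Edge n → ℝ | x e = τ} :=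
          measure_union_le _ _
      _ = volume (A9 ∪ (M 0 n \ M (9 / 10) n)) := by rw [hz, add_zero]
      _ ≤ _ := measure_union_le _ _
  have hA9n : 0 ≤ vol A9 := ENNReal.toReal_nonneg
  have hle : vol (M (9 / 10) n) ≤ vol (M 0 n) := ENNReal.toReal_mono f0 (measure_mono M_sub)
  have hV0 : 0 < vol (M 0 n) := by linarith
  have hV9 : 0 < vol (M (9 / 10) n) := by linarith
  have hnn : (0 : ℝ) < 1 / (n : ℝ) ^ 2 := by
    have : (0 : ℝ) < n := by
      have : 0 < n := by omega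
      exact_mod_cast this
    positivity
  set δ := 1 / (n : ℝ) ^ 2 with hδ
  -- ratios
  have r1 : vol A9 / vol (M (9 / 10) n) ≤ 1 := by
    rw [div_le_one hV9]
    exact h2
  have r2 : vol A0 / vol (M 0 n) ≤ vol A9 / vol (M (9 / 10) n) + δ := by
    rw [div_le_iff₀ hV0, add_mul]
    have e1 : vol A9 ≤ vol A9 / vol (M (9 / 10) n) * vol (M 0 n) := by
      calc vol A9 = vol A9 / vol (M (9 / 10) n) * vol (M (9 / 10) n) := by field_simp
        _ ≤ _ := mul_le_mul_of_nonneg_left hle (div_nonneg hA9n hV9.le)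
    linarith [h4, h3]
  have r3 : vol A9 / vol (M (9 / 10) n) - δ ≤ vol A0 / vol (M 0 n) := by
    rw [le_div_iff₀ hV0]
    have e1 : vol A9 / vol (M (9 / 10) n) * ((1 - δ) * vol (M 0 n)) ≤ vol A9 := by
      calc vol A9 / vol (M (9 / 10) n) * ((1 - δ) * vol (M 0 n))
          ≤ vol A9 / vol (M (9 / 10) n) * vol (M (9 / 10) n) :=
            mul_le_mul_of_nonneg_left hSh (div_nonneg hA9n hV9.le)
        _ = vol A9 := by field_simp
    have e2 : vol A9 / vol (M (9 / 10) n) * (δ * vol (M 0 n)) ≤ 1 * (δ * vol (M 0 n)) :=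
      mul_le_mul_of_nonneg_right r1 (by positivity)
    nlinarith
  rw [abs_le]
  constructor <;> linarith

end ConvAux

open ConvAux in
theorem stConv (h1 : StLCConv) (h2 : StOneD) (h3 : StOneD2) (hD : StDens) (hDL : StDensLe)
    (hDC : StDensLC) (hT : StTight) (hM : StMom) (hS : StSym) (hLG : StLimG) (hPG : StPosG)
    (hSh : StSharp) (hV : StVol) : StConv := by
  obtain ⟨CT, hCT1, hCT⟩ := hT
  obtain ⟨CM, -, hCM⟩ := hM
  obtain ⟨n0, hn0⟩ := hSh ⟨CT, hCT⟩
  have hCT0 : 0 < CT := by linarith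
  -- the weights
  have hw : ∀ {n : ℕ}, 3 ≤ n → ∀ e : Edge n, wt 0 n e ≤ CT * rr n := by
    intro n hn e
    have h := hCT n e hn
    have h' := mul_le_mul_of_nonneg_right h (rr_pos (n := n) (by omega)).le
    rwa [mul_assoc, sqrt_mul_rr (by omega), mul_one] at h'
  have hsmall : ∀ᶠ n : ℕ in atTop, CT * rr n ≤ 1 / 100 := by
    have h : Tendsto (fun n : ℕ => CT * rr n) atTop (𝓝 (CT * 0)) := tendsto_rr.const_mul CT
    rw [mul_zero] at h
    exact (h.eventually (gt_mem_nhds (by norm_num : (0 : ℝ) < 1 / 100))).mono fun n hn => hn.le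
  -- the limit of the distribution functions
  choose! G hG using hLG
  have hGs : ∀ t, -1 ≤ t → Tendsto (fun n : ℕ => Real.sqrt n * ∫ s in (0 : ℝ)..(1 - t * rr n),
      ff n s) atTop (𝓝 (G t)) := by
    intro t ht
    rw [Metric.tendsto_atTop']
    intro ε hε
    have ev1 := hG t ht (ε / 2) (by linarith)
    have ht1 : Tendsto (fun n : ℕ => t * rr n) atTop (𝓝 0) := by
      have := tendsto_rr.const_mul t
      rwa [mul_zero] at this
    have ev2 : ∀ᶠ n : ℕ in atTop, |t * rr n| < 1 := by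
      have := ht1.abs
      rw [abs_zero] at this
      exact this.eventually (gt_mem_nhds one_pos)
    have ev3 : ∀ᶠ n : ℕ in atTop, rr n < ε / 2 :=
      tendsto_rr.eventually (gt_mem_nhds (by linarith))
    obtain ⟨N, hN⟩ := eventually_atTop.1 ((ev1.and ev2).and (ev3.and
      ((eventually_ge_atTop n0).and (eventually_ge_atTop 3))))
    refine ⟨N, fun n hn => ?_⟩
    obtain ⟨⟨a1, a2⟩, a3, a4, a5⟩ := hN n hn.le
    have e : Edge n := e0 (by omega)
    have hτ := abs_lt.1 a2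
    have b1 : (∫ s in (0 : ℝ)..(1 - t * rr n), ff n s) =
        vol {x | x ∈ M 0 n ∧ x e ≤ 1 - t * rr n} / vol (M 0 n) := by
      rw [← int_dens hD a5 e (by linarith [hτ.2]) (by linarith [hτ.1])]
      refine intervalIntegral.integral_congr fun s _ => ?_
      exact ff_eq hS (by omega) e s
    have b2 := compare hV a5 (hn0 n a4) e (1 - t * rr n)
    have b3 := a1 e
    rw [Real.dist_eq, b1]
    have hsq : 0 < Real.sqrt n := Real.sqrt_pos.2 (by
      have : 0 < n := by omega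
      exact_mod_cast this)
    have b4 : |Real.sqrt n * (vol {x | x ∈ M 0 n ∧ x e ≤ 1 - t * rr n} / vol (M 0 n)) -
        Gs n e t| ≤ rr n := by
      unfold Gs
      rw [← mul_sub, abs_mul, abs_of_pos hsq]
      have c1 : Real.sqrt n * (1 / (n : ℝ) ^ 2) ≤ rr n := by
        have hn1 : (1 : ℝ) ≤ n := by
          have : 1 ≤ n := by omega
          exact_mod_cast this
        have hs2 : Real.sqrt n * Real.sqrt n = n := Real.mul_self_sqrt (by linarith)
        unfold rr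
        rw [mul_one_div, div_le_div_iff₀ (by positivity) hsq, hs2]
        nlinarith
      exact (mul_le_mul_of_nonneg_left b2 hsq.le).trans c1
    calc |Real.sqrt n * (vol {x | x ∈ M 0 n ∧ x e ≤ 1 - t * rr n} / vol (M 0 n)) - G t|
        ≤ |Real.sqrt n * (vol {x | x ∈ M 0 n ∧ x e ≤ 1 - t * rr n} / vol (M 0 n)) - Gs n e t| +
          |Gs n e t - G t| := abs_sub_le _ _ _
      _ < ε := by linarith
  have hGp : ∀ t, -1 ≤ t → 0 < G t := by
    intro t ht
    obtain ⟨c, hc, ev⟩ := hPG t ht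
    obtain ⟨n, ⟨a1, a2⟩, a3⟩ := ((ev.and (hG t ht (c / 2) (by linarith))).and
      (eventually_ge_atTop 2)).exists
    have b1 := a1 (e0 a3)
    have b2 := abs_le.1 (a2 (e0 a3))
    linarith [b2.1, b2.2]
  -- properties of the densities
  have hprop : ∀ {n : ℕ} (_hn : 3 ≤ n), CT * rr n ≤ 1 / 100 →
      (ContinuousOn (ff n) (Ioo 0 2) ∧ (∀ t ∈ Ioo (0 : ℝ) 2, 0 < ff n t ∧ ff n t ≤ 1) ∧
      ConcaveOn ℝ (Ioo (0 : ℝ) 2) (fun t => Real.log (ff n t)) ∧
      (∫ t in (0 : ℝ)..2, ff n t) = 1 ∧ (∫ t in (0 : ℝ)..1, ff n t) = wt 0 n (e0 (by omega)) ∧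
      wt 0 n (e0 (by omega)) ≤ 1 / 100) := by
    intro n hn hsm
    have hfun : ff n = dens 0 n (e0 (by omega)) := by
      funext t
      exact ff_eq hS (by omega) _ t
    rw [hfun]
    obtain ⟨d1, -, d3, -, -⟩ := hD 0 n (e0 (by omega)) le_rfl one_pos hn
    exact ⟨d1, fun t ht => ⟨d3 t ht, hDL n _ hn t ht⟩, hDC n _ hn, int_two hV hD hn _,
      int_one hD hn _, (hw hn _).trans hsm⟩
  obtain ⟨g, hg1, hg2, -, hg4⟩ := h1 ff G (by
    filter_upwards [eventually_ge_atTop 3, hsmall] with n hn hsm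
    obtain ⟨p1, p2, p3, p4, p5, p6⟩ := hprop hn hsm
    exact ⟨p1, p2, p3, h3 (ff n) p1 p2 p3 p4 (by rw [p5]; exact p6)⟩) hGs hGp
  -- the exponential bound
  have hexp : ∀ᶠ n : ℕ in atTop, ∀ t, 0 ≤ t → ff n (1 - t * rr n) ≤
      2 * Real.exp (-(t / (12 * CT))) := by
    filter_upwards [eventually_ge_atTop 3, hsmall] with n hn hsm
    intro t ht
    obtain ⟨p1, p2, p3, p4, p5, p6⟩ := hprop hn hsm
    have hr := rr_pos (n := n) (by omega)
    rcases lt_or_ge (t * rr n) 1 with h | h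
    · have h5 := (h2 (ff n) p1 p2 p3 p4 (by rw [p5]; linarith)).1 (t * rr n) ⟨by positivity, h⟩
      refine h5.trans ?_
      refine mul_le_mul_of_nonneg_left (Real.exp_le_exp.2 ?_) zero_le_two
      rw [p5]
      have hw0 : 0 < wt 0 n (e0 (by omega : 2 ≤ n)) := (hCM n _ hn).1
      have hw1 := hw hn (e0 (by omega : 2 ≤ n))
      rw [neg_le_neg_iff, div_le_div_iff₀ (by positivity) (by positivity)]
      have := mul_le_mul_of_nonneg_left hw1 (by positivity : (0 : ℝ) ≤ 12 * t)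
      linarith
    · have h5 := (hD 0 n (e0 (by omega : 2 ≤ n)) le_rfl one_pos hn).2.2.2.1 (1 - t * rr n)
        (by linarith)
      rw [ff_eq hS (by omega) (e0 (by omega : 2 ≤ n)), h5]
      positivity
  refine ⟨g, 12 * CT, by positivity, hg2, fun t ht => ⟨(hg1 t ht).1, (hg1 t ht).2, ?_⟩, ?_, ?_⟩
  · have hlim : Tendsto (fun n : ℕ => ff n (1 - t * rr n)) atTop (𝓝 (g t)) :=
      (hg4 t).tendsto_at ⟨ht, le_rfl⟩
    exact le_of_tendsto hlim (hexp.mono fun n hn => hn t ht)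
  · filter_upwards [hexp, eventually_ge_atTop 2] with n hn hn2
    intro e t ht
    rw [← ff_eq hS hn2 e]
    exact hn t ht
  · intro b ρ hρ
    filter_upwards [(Metric.tendstoUniformlyOn_iff.1 (hg4 b)) ρ hρ, eventually_ge_atTop 2]
      with n hn hn2
    intro e t ht
    have h := hn t ht
    rw [Real.dist_eq, abs_sub_comm] at h
    rw [← ff_eq hS hn2 e]
    exact h.le

end Pool.Agent.Lib.MP_193d8d_pr
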