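import Pool.Agent.Lib.MP_193d8d_pr.StA
import Pool.Agent.Lib.MP_193d8d_pr.StB
import Pool.Agent.Lib.MP_193d8d_pr.Base

set_option autoImplicit false
open MeasureTheory Set Filter Topology

namespace Pool.Agent.Lib.MP_193d8d_pr

namespace CoreAux

/-! ### sums over edges and triples -/

section sums

variable {n : ℕ}

theorem sum_edge (f : Fin n → Fin n → ℝ) :
    ∑ e : Edge n, f e.a e.b =
      ∑ j : Fin n, ∑ i ∈ Finset.univ.filter (fun i => i < j), f i j := by
  rw [Finset.sum_sigma']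
  refine Finset.sum_bij' (fun (e : Edge n) _ => (⟨e.b, e.a⟩ : Σ _ : Fin n, Fin n))
    (fun z hz => ⟨z.2, z.1, by simpa using hz⟩) ?_ ?_ ?_ ?_ ?_
  · intro e _
    simpa using e.lt
  · intro z _
    exact Finset.mem_univ _
  · intro e _
    rfl
  · intro z _
    rfl
  · intro e _
    rfl

theorem sum_edge_lt (f : Fin n → Fin n → ℝ) (P : ℕ) :
    ∑ e ∈ Finset.univ.filter (fun e : Edge n => (e.b : ℕ) < P), f e.a e.b =
      ∑ j ∈ Finset.univ.filter (fun j : Fin n => (j : ℕ) < P),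
        ∑ i ∈ Finset.univ.filter (fun i => i < j), f i j := by
  rw [Finset.sum_filter, Finset.sum_filter]
  have h := sum_edge (fun i j : Fin n => if (j : ℕ) < P then f i j else 0)
  rw [h]
  refine Finset.sum_congr rfl fun j _ => ?_
  by_cases hj : (j : ℕ) < P
  · simp only [if_pos hj]
  · simp only [if_neg hj]
    exact Finset.sum_const_zero

theorem card_lt (j : Fin n) : (Finset.univ.filter (fun i : Fin n => i < j)).card = (j : ℕ) := by
  rw [show (Finset.univ.filter (fun i : Fin n => i < j)) = Finset.Iio j by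
    ext i; simp]
  exact Fin.card_Iio j

theorem sum_lt_const (j : Fin n) (r : ℝ) :
    ∑ _i ∈ Finset.univ.filter (fun i : Fin n => i < j), r = (j : ℕ) * r := by
  rw [Finset.sum_const, card_lt, nsmul_eq_mul]

theorem card_ltP {P : ℕ} (hP : P ≤ n) :
    (Finset.univ.filter (fun k : Fin n => (k : ℕ) < P)).card = P := by
  rw [Fin.card_filter_val_lt]
  exact min_eq_right hP

/-- a sum over `k < P` -/
theorem sum_ltP (f : ℕ → ℝ) {P : ℕ} (hP : P ≤ n) :
    ∑ k ∈ Finset.univ.filter (fun k : Fin n => (k : ℕ) < P), f k = ∑ k ∈ Finset.range P, f k := by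
  rw [Finset.sum_filter]
  have h := Fin.sum_univ_eq_sum_range (fun k => if k < P then f k else 0) n
  rw [h, ← Finset.sum_filter]
  congr 1
  ext k
  simp only [Finset.mem_filter, Finset.mem_range]
  omega

theorem sum_lt (f : ℕ → ℝ) (k : Fin n) :
    ∑ j ∈ Finset.univ.filter (fun j : Fin n => j < k), f j = ∑ j ∈ Finset.range k, f j := by
  have h := sum_ltP (n := n) f (P := (k : ℕ)) k.2.le
  rw [← h]
  rfl

/-- triples `i < j < k`, term depending on `i` and `k` only -/
theorem sum_ik_le {P : ℕ} (f : Fin n → Fin n → ℝ) (hf : ∀ i k, 0 ≤ f i k) :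
    ∑ k ∈ Finset.univ.filter (fun k : Fin n => (k : ℕ) < P),
      ∑ j ∈ Finset.univ.filter (fun j => j < k), ∑ i ∈ Finset.univ.filter (fun i => i < j), f i k ≤
    P * ∑ k ∈ Finset.univ.filter (fun k : Fin n => (k : ℕ) < P),
      ∑ i ∈ Finset.univ.filter (fun i => i < k), f i k := by
  rw [Finset.mul_sum]
  refine Finset.sum_le_sum fun k hk => ?_
  have hk' : (k : ℕ) < P := by simpa using hk
  calc ∑ j ∈ Finset.univ.filter (fun j => j < k),
        ∑ i ∈ Finset.univ.filter (fun i => i < j), f i k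
      ≤ ∑ j ∈ Finset.univ.filter (fun j => j < k),
        ∑ i ∈ Finset.univ.filter (fun i => i < k), f i k := by
        refine Finset.sum_le_sum fun j hj => ?_
        have hj' : j < k := by simpa using hj
        refine Finset.sum_le_sum_of_subset_of_nonneg ?_ fun i _ _ => hf i k
        intro i hi
        simp only [Finset.mem_filter, Finset.mem_univ, true_and] at hi ⊢
        exact hi.trans hj'
    _ = (k : ℕ) * ∑ i ∈ Finset.univ.filter (fun i => i < k), f i k := sum_lt_const _ _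
    _ ≤ P * ∑ i ∈ Finset.univ.filter (fun i => i < k), f i k := by
        refine mul_le_mul_of_nonneg_right ?_ (Finset.sum_nonneg fun i _ => hf i k)
        exact_mod_cast hk'.le

theorem sum_jk_le {P : ℕ} (f : Fin n → Fin n → ℝ) (hf : ∀ i k, 0 ≤ f i k) :
    ∑ k ∈ Finset.univ.filter (fun k : Fin n => (k : ℕ) < P),
      ∑ j ∈ Finset.univ.filter (fun j => j < k), ((j : ℕ) : ℝ) * f j k ≤
    P * ∑ k ∈ Finset.univ.filter (fun k : Fin n => (k : ℕ) < P),
      ∑ j ∈ Finset.univ.filter (fun j => j < k), f j k := by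
  rw [Finset.mul_sum]
  refine Finset.sum_le_sum fun k hk => ?_
  have hk' : (k : ℕ) < P := by simpa using hk
  rw [Finset.mul_sum]
  refine Finset.sum_le_sum fun j hj => ?_
  have hj' : j < k := by simpa using hj
  refine mul_le_mul_of_nonneg_right ?_ (hf j k)
  have : (j : ℕ) < P := lt_trans (Fin.lt_def.1 hj') hk'
  exact_mod_cast this.le

theorem sum_pow_le {P : ℕ} (hP : P ≤ n) :
    ∑ k ∈ Finset.univ.filter (fun k : Fin n => (k : ℕ) < P),
      ∑ j ∈ Finset.univ.filter (fun j => j < k), ((j : ℕ) : ℝ) ≤ (P : ℝ) ^ 3 / 2 := by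
  have h1 : ∀ k : Fin n, ∑ j ∈ Finset.univ.filter (fun j => j < k), ((j : ℕ) : ℝ) ≤
      ((k : ℕ) : ℝ) ^ 2 / 2 := by
    intro k
    rw [sum_lt (fun j => (j : ℝ)) k]
    have h2 : ∀ m : ℕ, ∑ j ∈ Finset.range m, (j : ℝ) ≤ (m : ℝ) ^ 2 / 2 := by
      intro m
      induction m with
      | zero => simp
      | succ m ih =>
        rw [Finset.sum_range_succ]
        push_cast
        nlinarith
    exact h2 k
  calc _ ≤ ∑ k ∈ Finset.univ.filter (fun k : Fin n => (k : ℕ) < P), (P : ℝ) ^ 2 / 2 := by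
        refine Finset.sum_le_sum fun k hk => (h1 k).trans ?_
        have hk' : (k : ℕ) < P := by simpa using hk
        have hk2 : ((k : ℕ) : ℝ) ≤ P := by exact_mod_cast hk'.le
        have : ((k : ℕ) : ℝ) ^ 2 ≤ (P : ℝ) ^ 2 := pow_le_pow_left₀ (Nat.cast_nonneg _) hk2 2
        linarith
    _ = (P : ℝ) ^ 3 / 2 := by
        rw [Finset.sum_const, card_ltP hP, nsmul_eq_mul]
        ring

/-- crude bound for a sum over pairs `j < k < P` -/
theorem sum_pairs_le {P : ℕ} (hP : P ≤ n) (f : Fin n → Fin n → ℝ) {b : ℝ} (hb : 0 ≤ b)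
    (hf : ∀ j k : Fin n, j < k → (k : ℕ) < P → f j k ≤ b) :
    ∑ k ∈ Finset.univ.filter (fun k : Fin n => (k : ℕ) < P),
      ∑ j ∈ Finset.univ.filter (fun j => j < k), f j k ≤ (P : ℝ) ^ 2 * b := by
  calc _ ≤ ∑ k ∈ Finset.univ.filter (fun k : Fin n => (k : ℕ) < P), (P : ℝ) * b := by
        refine Finset.sum_le_sum fun k hk => ?_
        have hk' : (k : ℕ) < P := by simpa using hk
        calc ∑ j ∈ Finset.univ.filter (fun j => j < k), f j k
            ≤ ∑ j ∈ Finset.univ.filter (fun j => j < k), b := by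
              refine Finset.sum_le_sum fun j hj => ?_
              have hj' : j < k := by simpa using hj
              exact hf j k hj' hk'
          _ = (k : ℕ) * b := sum_lt_const _ _
          _ ≤ P * b := mul_le_mul_of_nonneg_right (by exact_mod_cast hk'.le) hb
    _ = (P : ℝ) ^ 2 * b := by
        rw [Finset.sum_const, card_ltP hP, nsmul_eq_mul]
        ring

end sums

/-! ### the special event -/

section spec

variable {n : ℕ} {κ : Type} [DecidableEq κ]

theorem spec_01 (l0 : κ) (Z : Finset κ) (bad : Finset (κ × κ)) (c : Edge n → κ)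
    (i j k : Fin n) : spec l0 Z bad c i j k = 0 ∨ spec l0 Z bad c i j k = 1 := by
  unfold spec
  by_cases h1 : ext l0 c i k ∈ Z
  · by_cases h2 : ext l0 c j k ∈ Z
    · rw [if_pos h1, if_pos h2, one_mul, one_mul]
      by_cases h3 : ∀ k' : Fin n, (k' = i ∨ k' = j ∨ k' = k) ∨
          (ext l0 c i k', ext l0 c j k') ∉ bad
      · right
        refine Finset.prod_eq_one fun k' _ => ?_
        by_cases h4 : k' = i ∨ k' = j ∨ k' = k
        · rw [if_pos h4]
        · rw [if_neg h4, if_neg ((h3 k').resolve_left h4)]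
      · left
        push Not at h3
        obtain ⟨k', h4, h5⟩ := h3
        refine Finset.prod_eq_zero (Finset.mem_univ k') ?_
        rw [if_neg (by tauto), if_pos h5]
    · left
      rw [if_neg h2, mul_zero, zero_mul]
  · left
    rw [if_neg h1, zero_mul, zero_mul]

theorem spec_nonneg (l0 : κ) (Z : Finset κ) (bad : Finset (κ × κ)) (c : Edge n → κ)
    (i j k : Fin n) : 0 ≤ spec l0 Z bad c i j k := by
  rcases spec_01 l0 Z bad c i j k with h | h <;> rw [h]
  exact zero_le_one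

theorem spec_le (l0 : κ) (Z : Finset κ) (bad : Finset (κ × κ)) (c : Edge n → κ)
    (i j k : Fin n) : spec l0 Z bad c i j k ≤
      (if ext l0 c i k ∈ Z then 1 else 0) * (if ext l0 c j k ∈ Z then 1 else 0) := by
  rcases spec_01 l0 Z bad c i j k with h | h
  · rw [h]
    refine mul_nonneg ?_ ?_ <;> split_ifs <;> norm_num
  · unfold spec at h
    by_cases h1 : ext l0 c i k ∈ Z
    · by_cases h2 : ext l0 c j k ∈ Z
      · rw [if_pos h1, if_pos h2, one_mul]
        rcases spec_01 l0 Z bad c i j k with h' | h' <;> rw [h']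
        exact zero_le_one
      · rw [if_neg h2, mul_zero, zero_mul] at h
        norm_num at h
    · rw [if_neg h1, zero_mul, zero_mul] at h
      norm_num at h

/-- at most one `k` has the special event -/
theorem spec_unique {l0 : κ} {Z : Finset κ} {bad : Finset (κ × κ)} (hZ : Z ×ˢ Z ⊆ bad)
    {c : Edge n → κ} {i j k k' : Fin n} (hkk : k' ≠ k) (hi : k' ≠ i) (hj : k' ≠ j)
    (h : spec l0 Z bad c i j k ≠ 0) : spec l0 Z bad c i j k' = 0 := by
  by_contra h'
  have h1 : ext l0 c i k' ∈ Z := by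
    by_contra h2
    apply h'
    unfold spec
    rw [if_neg h2, zero_mul, zero_mul]
  have h2 : ext l0 c j k' ∈ Z := by
    by_contra h3
    apply h'
    unfold spec
    rw [if_neg h3, mul_zero, zero_mul]
  apply h
  unfold spec
  have h3 : (ext l0 c i k', ext l0 c j k') ∈ bad := hZ (Finset.mem_product.2 ⟨h1, h2⟩)
  rw [Finset.prod_eq_zero (Finset.mem_univ k'), mul_zero]
  rw [if_neg (by tauto), if_pos h3]

/-- the sum over `k` of a function on the special events -/
theorem sum_spec_le {l0 : κ} {Z : Finset κ} {bad : Finset (κ × κ)} (hZ : Z ×ˢ Z ⊆ bad)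
    {c : Edge n → κ} {i j : Fin n} (s : Finset (Fin n)) (hs : ∀ k ∈ s, k ≠ i ∧ k ≠ j)
    (f : Fin n → ℝ) {G : ℝ} (hG : 0 ≤ G) (hf : ∀ k ∈ s, spec l0 Z bad c i j k * f k ≤ G) :
    ∑ k ∈ s, spec l0 Z bad c i j k * f k ≤ G := by
  by_cases h : ∃ k ∈ s, spec l0 Z bad c i j k ≠ 0
  · obtain ⟨k, hk, h⟩ := h
    rw [Finset.sum_eq_single_of_mem k hk]
    · exact hf k hk
    · intro k' hk' hne
      rw [spec_unique hZ hne (hs k' hk').1 (hs k' hk').2 h, zero_mul]
  · push Not at h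
    rw [Finset.sum_eq_zero]
    · exact hG
    · intro k hk
      rw [h k hk, zero_mul]

end spec

/-! ### the function `F0` -/

/-- the truncated excess -/
noncomputable def F0 (ς s x y : ℝ) : ℝ := min 1 (max 0 (ς * (x + y) - 2 * s))

theorem F0_nonneg (ς s x y : ℝ) : 0 ≤ F0 ς s x y := le_min zero_le_one (le_max_left _ _)

theorem F0_le (ς s x y : ℝ) : F0 ς s x y ≤ 1 := min_le_left _ _

theorem trunc_sub (u v : ℝ) : |min 1 (max 0 u) - min 1 (max 0 v)| ≤ |u - v| := by
  have h1 : |max 0 u - max 0 v| ≤ |u - v| := by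
    have := abs_max_sub_max_le_abs u v 0
    rwa [max_comm u 0, max_comm v 0] at this
  have h2 : |min 1 (max 0 u) - min 1 (max 0 v)| ≤ |max 0 u - max 0 v| := by
    have := abs_inf_sub_inf_le_abs (max 0 u) (max 0 v) (1 : ℝ)
    rw [inf_comm (max 0 u) 1, inf_comm (max 0 v) 1] at this
    exact this
  exact h2.trans h1

theorem F0_lip {ς : ℝ} (hς : ς = 1 ∨ ς = -1) (s x y y' : ℝ) :
    |F0 ς s x y - F0 ς s x y'| ≤ |y - y'| := by
  refine (trunc_sub _ _).trans ?_
  rcases hς with rfl | rfl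
  · rw [show 1 * (x + y) - 2 * s - (1 * (x + y') - 2 * s) = y - y' by ring]
  · rw [show -1 * (x + y) - 2 * s - (-1 * (x + y') - 2 * s) = -(y - y') by ring, abs_neg]

theorem F0_sub (ς s x y r r' : ℝ) (hr : 0 ≤ r) (hr' : 0 ≤ r') :
    F0 ς s x y ≤ min 1 (max 0 (ς * (x + y) - 2 * s - r - r')) + (r + r') := by
  have h := (abs_le.1 (trunc_sub (ς * (x + y) - 2 * s) (ς * (x + y) - 2 * s - r - r'))).2
  have h2 : |ς * (x + y) - 2 * s - (ς * (x + y) - 2 * s - r - r')| = r + r' := by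
    rw [show ς * (x + y) - 2 * s - (ς * (x + y) - 2 * s - r - r') = r + r' by ring,
      abs_of_nonneg (by linarith)]
  rw [h2] at h
  unfold F0
  linarith

/-! ### one pair `j < k` -/

section pair

theorem pred_update {n : ℕ} {κ : Type} {σ : Edge n → (Edge n → κ) → ℝ}
    (hσ : ∀ e c c', (∀ e', e' < e → c e' = c' e') → σ e c = σ e c') (e g : Edge n)
    (hg : ¬ g < e) (c : Edge n → κ) (h : κ) : σ e (Function.update c g h) = σ e c := by
  apply hσ
  intro e' he'
  rw [Function.update_of_ne]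
  rintro rfl
  exact hg he'

variable {n : ℕ} {κ : Type} [Fintype κ] [DecidableEq κ]

theorem triple (hI : StIndepS) {p : κ → ℝ} {l0 : κ} {Z : Finset κ} {bad : Finset (κ × κ)}
    {σ err : Edge n → (Edge n → κ) → ℝ} {s ς : ℝ} (hp : ∀ h, 0 ≤ p h) (hp1 : ∑ h, p h = 1)
    (hσ : ∀ e c c', (∀ e', e' < e → c e' = c' e') → σ e c = σ e c')
    (he : ∀ e c, 0 ≤ err e c) {i j k : Fin n} (hij : i < j) (hjk : j < k) :
    (1 - ∑ y ∈ bad, p y.1 * p y.2) ^ n * (∑ h ∈ Z, p h) *
      (EE p (fun c => (if ext l0 c i k ∈ Z then 1 else 0) *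
        F0 ς s (ext 0 (fun e => σ e c) i k) (ext 0 (fun e => σ e c) j k))
        - (∑ h ∈ Z, p h) * (k : ℕ) * ∑ y ∈ bad, p y.1 * p y.2) ≤
      EE p (fun c => spec l0 Z bad c i j k * min 1 (max 0 (ς * (ext 0 (fun e => σ e c) i k
        + ext 0 (fun e => σ e c) j k) - 2 * s - ext 0 (fun e => err e c) i k
        - ext 0 (fun e => err e c) j k))) +
      EE p (fun c => (if ext l0 c i k ∈ Z then 1 else 0) * (if ext l0 c j k ∈ Z then 1 else 0) *
        (ext 0 (fun e => err e c) i k + ext 0 (fun e => err e c) j k)) := by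
  have hik : i < k := hij.trans hjk
  have h1 := hI n κ p l0 Z bad
    (fun c => F0 ς s (ext 0 (fun e => σ e c) i k) (ext 0 (fun e => σ e c) j k)) i j k hij hjk hp hp1
    (fun c => ⟨F0_nonneg _ _ _ _, F0_le _ _ _ _⟩) (by
      intro c g h hg
      have e1 : ¬ g < (⟨i, k, hik⟩ : Edge n) := by
        rw [Edge.lt_iff]
        rcases hg with hg | rfl
        · rintro (h2 | ⟨h2, -⟩)
          · exact lt_asymm hg h2
          · exact hg.ne' h2
        · rintro (h2 | ⟨-, h2⟩)
          · exact lt_irrefl _ h2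
          · exact lt_asymm hij h2
      have e2 : ¬ g < (⟨j, k, hjk⟩ : Edge n) := by
        rw [Edge.lt_iff]
        rcases hg with hg | rfl
        · rintro (h2 | ⟨h2, -⟩)
          · exact lt_asymm hg h2
          · exact hg.ne' h2
        · rintro (h2 | ⟨-, h2⟩)
          · exact lt_irrefl _ h2
          · exact lt_irrefl _ h2
      simp only [ext_of_lt _ _ hik, ext_of_lt _ _ hjk]
      rw [pred_update hσ _ _ e1, pred_update hσ _ _ e2])
  have h2 : ∀ c : Edge n → κ, ext l0 c i k = c ⟨i, k, hik⟩ := fun c => ext_of_lt _ _ hik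
  simp only [h2] at h1 ⊢
  refine h1.trans ?_
  rw [← EE_add]
  refine EE_mono hp fun c => ?_
  have e1 : 0 ≤ ext 0 (fun e => err e c) i k := by
    rw [ext_of_lt _ _ hik]
    exact he _ _
  have e2 : 0 ≤ ext 0 (fun e => err e c) j k := by
    rw [ext_of_lt _ _ hjk]
    exact he _ _
  have e3 := F0_sub ς s (ext 0 (fun e => σ e c) i k) (ext 0 (fun e => σ e c) j k) _ _ e1 e2
  have e4 := spec_nonneg l0 Z bad c i j k
  have e5 := spec_le l0 Z bad c i j k
  rw [h2] at e5
  calc _ ≤ spec l0 Z bad c i j k * (min 1 (max 0 (ς * (ext 0 (fun e => σ e c) i k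
        + ext 0 (fun e => σ e c) j k) - 2 * s - ext 0 (fun e => err e c) i k
        - ext 0 (fun e => err e c) j k)) + (ext 0 (fun e => err e c) i k +
          ext 0 (fun e => err e c) j k)) := mul_le_mul_of_nonneg_left e3 e4
    _ = spec l0 Z bad c i j k * min 1 (max 0 (ς * (ext 0 (fun e => σ e c) i k
        + ext 0 (fun e => σ e c) j k) - 2 * s - ext 0 (fun e => err e c) i k
        - ext 0 (fun e => err e c) j k)) + spec l0 Z bad c i j k *
          (ext 0 (fun e => err e c) i k + ext 0 (fun e => err e c) j k) := by ring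
    _ ≤ _ := by
      have := mul_le_mul_of_nonneg_right e5 (add_nonneg e1 e2)
      linarith

theorem pair (hI : StIndepS) (hM : StMartS) (hE : StErrS) {p : κ → ℝ} {l0 : κ} {Z : Finset κ}
    {bad : Finset (κ × κ)} {σ err : Edge n → (Edge n → κ) → ℝ} {B s ς : ℝ}
    (hp : ∀ h, 0 ≤ p h) (hp1 : ∑ h, p h = 1) (hς : ς = 1 ∨ ς = -1) (hs : 0 < s) (hB : 0 ≤ B)
    (hσ : ∀ e c c', (∀ e', e' < e → c e' = c' e') → σ e c = σ e c') (hσB : ∀ e c, |σ e c| ≤ B)
    (her : ∀ e c c', (∀ e', e' < e → c e' = c' e') → err e c = err e c')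
    (he : ∀ e c, 0 ≤ err e c ∧ err e c ≤ B) {j k : Fin n} (hjk : j < k) :
    (1 - ∑ y ∈ bad, p y.1 * p y.2) ^ n * (∑ h ∈ Z, p h) ^ 2 *
      (∑ i ∈ Finset.univ.filter (fun i => i < j), EE p (fun c =>
        F0 ς s (ext 0 (fun e => σ e c) i k) (ext 0 (fun e => σ e c) j k))) ≤
    (∑ i ∈ Finset.univ.filter (fun i => i < j), EE p (fun c => spec l0 Z bad c i j k *
      min 1 (max 0 (ς * (ext 0 (fun e => σ e c) i k + ext 0 (fun e => σ e c) j k) - 2 * s
        - ext 0 (fun e => err e c) i k - ext 0 (fun e => err e c) j k)))) +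
    (∑ h ∈ Z, p h) ^ 2 * (∑ i ∈ Finset.univ.filter (fun i => i < j),
      EE p (fun c => ext 0 (fun e => err e c) i k)) +
    (∑ h ∈ Z, p h) ^ 2 * ((j : ℕ) * EE p (fun c => ext 0 (fun e => err e c) j k)) +
    (2 * B / s + 2 + B) * ((∑ h ∈ Z, p h) * Real.sqrt ((j : ℕ) * ∑ h ∈ Z, p h)) +
    2 * s * (∑ h ∈ Z, p h) ^ 2 * (j : ℕ) +
    (∑ h ∈ Z, p h) ^ 2 * (∑ y ∈ bad, p y.1 * p y.2) * ((j : ℕ) * (k : ℕ)) := by
  set z := ∑ h ∈ Z, p h with hz
  set b := ∑ y ∈ bad, p y.1 * p y.2 with hb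
  have hz0 : 0 ≤ z := Finset.sum_nonneg fun h _ => hp h
  have hb0 : 0 ≤ b := Finset.sum_nonneg fun y _ => mul_nonneg (hp _) (hp _)
  have hb1 : b ≤ 1 := by
    calc b ≤ ∑ y : κ × κ, p y.1 * p y.2 :=
          Finset.sum_le_sum_of_subset_of_nonneg (Finset.subset_univ _)
            fun y _ _ => mul_nonneg (hp _) (hp _)
      _ = (∑ h, p h) * ∑ h, p h := by
          rw [Fintype.sum_prod_type, Finset.sum_mul_sum]
      _ = 1 := by rw [hp1, one_mul]
  have hq0 : 0 ≤ (1 - b) ^ n := pow_nonneg (by linarith) _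
  have hq1 : (1 - b) ^ n ≤ 1 := pow_le_one₀ (by linarith) (by linarith)
  have h1 : ∀ i ∈ Finset.univ.filter (fun i : Fin n => i < j),
      (1 - b) ^ n * z * (EE p (fun c => (if ext l0 c i k ∈ Z then 1 else 0) *
        F0 ς s (ext 0 (fun e => σ e c) i k) (ext 0 (fun e => σ e c) j k))
        - z * (k : ℕ) * b) ≤ _ := fun i hi =>
    triple hI (l0 := l0) (Z := Z) (bad := bad) (σ := σ) (err := err) (s := s) (ς := ς) hp hp1 hσ
      (fun e c => (he e c).1) (by simpa using hi) hjk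
  have h2 := Finset.sum_le_sum h1
  rw [← Finset.mul_sum, Finset.sum_sub_distrib, sum_lt_const, Finset.sum_add_distrib] at h2
  have h3 := hM n κ p l0 Z σ (F0 ς s) B s j k hjk hp hp1 hσ hσB hs
    (fun x y => ⟨F0_nonneg _ _ _ _, F0_le _ _ _ _⟩) (fun x y y' => F0_lip hς s x y y')
  have h4 := hE n κ p l0 Z err B j k hjk hp hp1 her he
  rw [← hz] at h3 h4
  set SA := ∑ i ∈ Finset.univ.filter (fun i : Fin n => i < j),
    EE p (fun c => (if ext l0 c i k ∈ Z then 1 else 0) *
        F0 ς s (ext 0 (fun e => σ e c) i k) (ext 0 (fun e => σ e c) j k)) with hSA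
  set Sa := ∑ i ∈ Finset.univ.filter (fun i : Fin n => i < j), EE p (fun c =>
        F0 ς s (ext 0 (fun e => σ e c) i k) (ext 0 (fun e => σ e c) j k)) with hSa
  set R := Real.sqrt ((j : ℕ) * z) with hR
  have hR0 : 0 ≤ R := Real.sqrt_nonneg _
  have hj0 : (0 : ℝ) ≤ (j : ℕ) := Nat.cast_nonneg _
  have hk0 : (0 : ℝ) ≤ (k : ℕ) := Nat.cast_nonneg _
  have hBs : 0 ≤ 2 * B / s := by positivity
  have h5 : (1 - b) ^ n * z * (z * Sa - (2 * B / s + 2) * R - 2 * s * z * (j : ℕ)
      - (j : ℕ) * (z * (k : ℕ) * b)) ≤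
      (1 - b) ^ n * z * (SA - (j : ℕ) * (z * (k : ℕ) * b)) :=
    mul_le_mul_of_nonneg_left (by linarith) (mul_nonneg hq0 hz0)
  have h6 : (1 - b) ^ n * (z * ((2 * B / s + 2) * R + 2 * s * z * (j : ℕ)
      + (j : ℕ) * (z * (k : ℕ) * b))) ≤ 1 * (z * ((2 * B / s + 2) * R + 2 * s * z * (j : ℕ)
      + (j : ℕ) * (z * (k : ℕ) * b))) :=
    mul_le_mul_of_nonneg_right hq1 (by positivity)
  nlinarith [h2, h4, h5, h6]

end pair

/-- the sum over the special events -/
theorem sum_spec_G {n P : ℕ} {κ : Type} [Fintype κ] [DecidableEq κ] {p : κ → ℝ} {l0 : κ}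
    {Z : Finset κ} {bad : Finset (κ × κ)} (hp : ∀ h, 0 ≤ p h) (hZ : Z ×ˢ Z ⊆ bad)
    {G : Edge n → (Edge n → κ) → ℝ} (hG : ∀ e c, 0 ≤ G e c)
    (m : Fin n → Fin n → Fin n → (Edge n → κ) → ℝ)
    (hm : ∀ (i j k : Fin n) (hij : i < j), j < k → ∀ c,
      spec l0 Z bad c i j k * m i j k c ≤ G ⟨i, j, hij⟩ c) :
    ∑ k ∈ Finset.univ.filter (fun k : Fin n => (k : ℕ) < P),
      ∑ j ∈ Finset.univ.filter (fun j => j < k), ∑ i ∈ Finset.univ.filter (fun i => i < j),
        EE p (fun c => spec l0 Z bad c i j k * m i j k c) ≤ ∑ e, EE p (G e) := by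
  have h1 : ∀ k : Fin n, ∑ j ∈ Finset.univ.filter (fun j => j < k),
      ∑ i ∈ Finset.univ.filter (fun i => i < j),
        EE p (fun c => spec l0 Z bad c i j k * m i j k c) =
      ∑ e : Edge n, if e.b < k then
        EE p (fun c => spec l0 Z bad c e.a e.b k * m e.a e.b k c) else 0 := by
    intro k
    rw [← Finset.sum_filter]
    exact (sum_edge_lt (fun i j => EE p (fun c => spec l0 Z bad c i j k * m i j k c)) k).symm
  simp only [h1]
  rw [Finset.sum_comm]
  refine Finset.sum_le_sum fun e _ => ?_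
  rw [← Finset.sum_filter, ← EE_sum]
  refine EE_mono hp fun c => ?_
  refine sum_spec_le hZ _ ?_ (fun k => m e.a e.b k c) (hG e c) ?_
  · intro k hk
    have hk' : e.b < k := (Finset.mem_filter.1 hk).2
    exact ⟨(e.lt.trans hk').ne', hk'.ne'⟩
  · intro k hk
    have hk' : e.b < k := (Finset.mem_filter.1 hk).2
    exact hm e.a e.b k e.lt hk' c

theorem core (hI : StIndepS) (hM : StMartS) (hE : StErrS) {n P : ℕ} {κ : Type} [Fintype κ]
    [DecidableEq κ] {p : κ → ℝ} {l0 : κ} {Z : Finset κ} {bad : Finset (κ × κ)}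
    {σ err G : Edge n → (Edge n → κ) → ℝ} {B s ς : ℝ}
    (hp : ∀ h, 0 ≤ p h) (hp1 : ∑ h, p h = 1) (hP : P ≤ n) (hς : ς = 1 ∨ ς = -1) (hs : 0 < s)
    (hB : 0 ≤ B) (hZ : Z ×ˢ Z ⊆ bad)
    (hσ : ∀ e c c', (∀ e', e' < e → c e' = c' e') → σ e c = σ e c') (hσB : ∀ e c, |σ e c| ≤ B)
    (her : ∀ e c c', (∀ e', e' < e → c e' = c' e') → err e c = err e c')
    (he : ∀ e c, 0 ≤ err e c ∧ err e c ≤ B) (hG : ∀ e c, 0 ≤ G e c)
    (hm : ∀ (i j k : Fin n) (hij : i < j), j < k → ∀ c, spec l0 Z bad c i j k *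
      min 1 (max 0 (ς * (ext 0 (fun e => σ e c) i k + ext 0 (fun e => σ e c) j k) - 2 * s
        - ext 0 (fun e => err e c) i k - ext 0 (fun e => err e c) j k)) ≤ G ⟨i, j, hij⟩ c) :
    (1 - ∑ y ∈ bad, p y.1 * p y.2) ^ n * (∑ h ∈ Z, p h) ^ 2 *
    (∑ k ∈ Finset.univ.filter (fun k : Fin n => (k : ℕ) < P),
      ∑ j ∈ Finset.univ.filter (fun j => j < k), ∑ i ∈ Finset.univ.filter (fun i => i < j),
        EE p (fun c => min 1 (max 0 (ς * (ext 0 (fun e => σ e c) i k
          + ext 0 (fun e => σ e c) j k) - 2 * s)))) ≤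
    (∑ e, EE p (G e)) + (2 * B / s + 2 + B) * ((∑ h ∈ Z, p h) * Real.sqrt (∑ h ∈ Z, p h)) *
        ((P : ℝ) ^ 2 * Real.sqrt P) + s * (∑ h ∈ Z, p h) ^ 2 * (P : ℝ) ^ 3
      + (∑ h ∈ Z, p h) ^ 2 * (∑ y ∈ bad, p y.1 * p y.2) * (P : ℝ) ^ 4
      + 2 * (∑ h ∈ Z, p h) ^ 2 * P * (∑ e ∈ Finset.univ.filter (fun e : Edge n => (e.b : ℕ) < P),
        EE p (err e)) := by
  have key : ∀ j k : Fin n, j < k → _ := fun j k hjk =>
    pair hI hM hE (l0 := l0) (Z := Z) (bad := bad) (σ := σ) (err := err) (B := B) (s := s)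
      (ς := ς) hp hp1 hς hs hB hσ hσB her he hjk
  set z := ∑ h ∈ Z, p h with hz
  set b := ∑ y ∈ bad, p y.1 * p y.2 with hb
  have hz0 : 0 ≤ z := Finset.sum_nonneg fun h _ => hp h
  have hb0 : 0 ≤ b := Finset.sum_nonneg fun y _ => mul_nonneg (hp _) (hp _)
  have hBs : 0 ≤ 2 * B / s := by positivity
  -- sum over the pairs
  have h1 : ∑ k ∈ Finset.univ.filter (fun k : Fin n => (k : ℕ) < P),
      ∑ j ∈ Finset.univ.filter (fun j => j < k), _ ≤ _ :=
    Finset.sum_le_sum fun k _ => Finset.sum_le_sum fun j hj => key j k (by simpa using hj)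
  simp only [Finset.sum_add_distrib, ← Finset.mul_sum] at h1
  -- the single terms
  have t1 := sum_spec_G (P := P) (l0 := l0) hp hZ hG (fun i j k c =>
    min 1 (max 0 (ς * (ext 0 (fun e => σ e c) i k + ext 0 (fun e => σ e c) j k) - 2 * s
        - ext 0 (fun e => err e c) i k - ext 0 (fun e => err e c) j k))) hm
  have hE0 : ∑ e ∈ Finset.univ.filter (fun e : Edge n => (e.b : ℕ) < P), EE p (err e) =
      ∑ k ∈ Finset.univ.filter (fun k : Fin n => (k : ℕ) < P),
        ∑ i ∈ Finset.univ.filter (fun i => i < k),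
          EE p (fun c => ext 0 (fun e => err e c) i k) := by
    rw [← sum_edge_lt (fun i j => EE p (fun c => ext 0 (fun e => err e c) i j)) P]
    refine Finset.sum_congr rfl fun e _ => ?_
    exact EE_congr fun c => (ext_edge 0 (fun e => err e c) e).symm
  have hext0 : ∀ i k : Fin n, 0 ≤ EE p (fun c => ext 0 (fun e => err e c) i k) := by
    intro i k
    refine EE_nonneg hp fun c => ?_
    unfold ext
    split_ifs
    · exact (he _ _).1
    · exact (he _ _).1
    · exact le_rfl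
  have t2 := sum_ik_le (P := P) (fun i k => EE p (fun c => ext 0 (fun e => err e c) i k)) hext0
  have t3 := sum_jk_le (P := P) (fun i k => EE p (fun c => ext 0 (fun e => err e c) i k)) hext0
  rw [← hE0] at t2 t3
  have t4 : ∑ k ∈ Finset.univ.filter (fun k : Fin n => (k : ℕ) < P),
      ∑ j ∈ Finset.univ.filter (fun j => j < k), Real.sqrt ((j : ℕ) * z) ≤
      (P : ℝ) ^ 2 * (Real.sqrt P * Real.sqrt z) := by
    refine sum_pairs_le hP (fun j _ => Real.sqrt ((j : ℕ) * z)) (by positivity) ?_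
    intro j k hjk hk
    rw [← Real.sqrt_mul (Nat.cast_nonneg P)]
    refine Real.sqrt_le_sqrt (mul_le_mul_of_nonneg_right ?_ hz0)
    have : (j : ℕ) < P := lt_trans (Fin.lt_def.1 hjk) hk
    exact_mod_cast this.le
  have t5 := sum_pow_le (n := n) hP
  have t6 : ∑ k ∈ Finset.univ.filter (fun k : Fin n => (k : ℕ) < P),
      ∑ j ∈ Finset.univ.filter (fun j => j < k), (((j : ℕ) : ℝ) * ((k : ℕ) : ℝ)) ≤
      (P : ℝ) ^ 2 * ((P : ℝ) * P) := by
    refine sum_pairs_le hP (fun j k => ((j : ℕ) : ℝ) * ((k : ℕ) : ℝ)) (by positivity) ?_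
    intro j k hjk hk
    have h2 : (j : ℕ) < P := lt_trans (Fin.lt_def.1 hjk) hk
    exact mul_le_mul (by exact_mod_cast h2.le) (by exact_mod_cast hk.le) (Nat.cast_nonneg _)
      (Nat.cast_nonneg _)
  have u2 := mul_le_mul_of_nonneg_left t2 (pow_nonneg hz0 2)
  have u3 := mul_le_mul_of_nonneg_left t3 (pow_nonneg hz0 2)
  have u4 := mul_le_mul_of_nonneg_left (mul_le_mul_of_nonneg_left t4 hz0)
    (show 0 ≤ 2 * B / s + 2 + B by positivity)
  have u5 := mul_le_mul_of_nonneg_left t5 (show 0 ≤ 2 * s * z ^ 2 by positivity)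
  have u6 := mul_le_mul_of_nonneg_left t6 (show 0 ≤ z ^ 2 * b by positivity)
  refine le_trans h1 ?_
  linarith [t1, u2, u3, u4, u5, u6]

end CoreAux

open CoreAux in
theorem stCore (hI : StIndepS) (hM : StMartS) (hE : StErrS) : StCore := by
  intro n P κ _ _ p l0 Z bad σ err G B s ς hp hp1 hP hς hs hB hZ hσ hσB her he hG hm
  exact core hI hM hE hp hp1 hP hς hs hB hZ hσ hσB her he hG hm

end Pool.Agent.Lib.MP_193d8d_pr
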