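import Pool.Agent.Lib.MP_193d8d_pr.StA
import Pool.Agent.Lib.MP_193d8d_pr.StB
import Pool.Agent.Lib.MP_193d8d_pr.Base

set_option autoImplicit false
open MeasureTheory Set Filter Topology

namespace Pool.Agent.Lib.MP_193d8d_pr

namespace CountCloseAux

theorem anti (m : ℕ) (q : ℕ → ℝ) (hq : ∀ i < m, q (i + 1) ≤ q i) (i j : ℕ) (hij : i ≤ j)
    (hj : j ≤ m) : q j ≤ q i := by
  induction j, hij using Nat.le_induction with
  | base => exact le_rfl
  | succ j hij ih => exact (hq j (by omega)).trans (ih (by omega))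

/-- the indices with `t < q i` are an initial segment -/
theorem mem_iff (m : ℕ) (q : ℕ → ℝ) (t : ℝ) (hq : ∀ i < m, q (i + 1) ≤ q i) (i : ℕ) :
    i < ((Finset.range (m + 1)).filter (fun i => t < q i)).card ↔ (i ≤ m ∧ t < q i) := by
  set F := (Finset.range (m + 1)).filter (fun i => t < q i) with hF
  have hmem : ∀ i, i ∈ F ↔ (i ≤ m ∧ t < q i) := by
    intro i
    rw [hF, Finset.mem_filter, Finset.mem_range, Nat.lt_succ_iff]
  have h1 : F ⊆ Finset.range F.card := by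
    intro i hi
    rw [Finset.mem_range]
    have hsub : Finset.range (i + 1) ⊆ F := by
      intro j hj
      rw [Finset.mem_range, Nat.lt_succ_iff] at hj
      rw [hmem] at hi ⊢
      exact ⟨hj.trans hi.1, lt_of_lt_of_le hi.2 (anti m q hq j i hj hi.1)⟩
    have := Finset.card_le_card hsub
    rw [Finset.card_range] at this
    omega
  have h2 : F = Finset.range F.card := Finset.eq_of_subset_of_card_le h1 (by
    rw [Finset.card_range])
  rw [← hmem i]
  conv_rhs => rw [h2]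
  rw [Finset.mem_range]

theorem steep (δ Γ : ℝ) (hδ : 0 < δ) (q : ℕ → ℝ) (hs : Steep (1 / 2) Γ δ q) (a b : ℕ)
    (hab : a ≤ b) (hb : b ≤ md δ) (hbΓ : ((b : ℝ) + 1) * δ ≤ Γ) :
    (1 / 2) * δ * ((b : ℝ) - a) ≤ q a - q b := by
  induction b, hab using Nat.le_induction with
  | base => simp
  | succ b hab ih =>
    push_cast at hbΓ
    have h1 := ih (by omega) (by nlinarith)
    have h2 := hs b (by omega) (by nlinarith)
    push_cast
    linarith

theorem one_side (C0 γa Γ t ρ' δ : ℝ) (hC : 1 ≤ C0) (hγ : 0 < γa) (ht : -1 ≤ t)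
    (hΓ : 2 * C0 + 8 ≤ Γ) (hδ : 0 < δ) (q q' : ℕ → ℝ) (hq : GoodA C0 δ q)
    (hq' : GoodA C0 δ q') (hs : Steep (1 / 2) Γ δ q)
    (hlow : ∀ i ≤ md δ, ((i : ℝ) + 1) * δ ≤ 2 * γa → t + 1 ≤ q' i)
    (hclose : ∀ i ≤ md δ, γa ≤ ((i : ℝ) + 1) * δ → ((i : ℝ) + 1) * δ ≤ Γ → |q i - q' i| ≤ ρ')
    (hρ : 0 ≤ ρ') : lq δ q t - lq δ q' t ≤ 2 * ρ' + δ := by
  unfold lq
  set N := ((Finset.range (md δ + 1)).filter (fun i => t < q i)).card with hN
  set N' := ((Finset.range (md δ + 1)).filter (fun i => t < q' i)).card with hN'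
  rcases Nat.lt_or_ge N' N with h | h
  · have hN1 := mem_iff (md δ) q t hq.1
    have hN2 := mem_iff (md δ) q' t hq'.1
    rw [← hN] at hN1
    rw [← hN'] at hN2
    obtain ⟨b1, b2⟩ := (hN1 (N - 1)).1 (by omega)
    have a1 : N' ≤ md δ := by omega
    have a2 : q' N' ≤ t := by
      by_contra hcon
      have := (hN2 N').2 ⟨a1, not_le.1 hcon⟩
      omega
    have a3 : 2 * γa < ((N' : ℝ) + 1) * δ := by
      by_contra hcon
      have := hlow N' a1 (not_lt.1 hcon)
      linarith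
    have hcast : ((N - 1 : ℕ) : ℝ) = (N : ℝ) - 1 := by
      rw [Nat.cast_sub (by omega)]
      simp
    have b3 : (((N - 1 : ℕ) : ℝ) + 1) * δ ≤ Γ := by
      by_cases h1 : 1 ≤ (((N - 1 : ℕ) : ℝ) + 1) * δ
      · have h2 := hq.2.2.2.1 (N - 1) b1 h1
        linarith
      · linarith [not_le.1 h1]
    have hle : (N' : ℝ) ≤ ((N - 1 : ℕ) : ℝ) := by
      have : N' ≤ N - 1 := by omega
      exact_mod_cast this
    have a4 : ((N' : ℝ) + 1) * δ ≤ Γ := by nlinarith
    have h3 := abs_le.1 (hclose N' a1 (by linarith) a4)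
    have h4 := steep δ Γ hδ q hs N' (N - 1) (by omega) b1 b3
    rw [hcast] at h4
    linarith [h3.1, h3.2]
  · have : (N : ℝ) ≤ N' := by exact_mod_cast h
    have : δ * (N : ℝ) ≤ δ * N' := mul_le_mul_of_nonneg_left this hδ.le
    linarith

end CountCloseAux

open CountCloseAux in
theorem stCountClose : StCountClose := by
  intro C0 γa Γ t ρ hC hγ hγ1 ht hΓ hρ
  refine ⟨ρ / 4, by positivity, ?_⟩
  filter_upwards [Ioo_mem_nhdsGT (show (0 : ℝ) < ρ / 2 by positivity)] with δ hδ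
  obtain ⟨hδ0, hδ1⟩ := hδ
  intro q q' hq hq' hs hs' hlow hclose
  have h1 := one_side C0 γa Γ t (ρ / 4) δ hC hγ ht hΓ hδ0 q q' hq hq' hs
    (fun i hi h => (hlow i hi h).2) hclose (by positivity)
  have h2 := one_side C0 γa Γ t (ρ / 4) δ hC hγ ht hΓ hδ0 q' q hq' hq hs'
    (fun i hi h => (hlow i hi h).1) (fun i hi ha hb => by
      rw [abs_sub_comm]
      exact hclose i hi ha hb) (by positivity)
  rw [abs_le]
  constructor
  · linarith
  · linarith

end Pool.Agent.Lib.MP_193d8d_pr
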