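import Pool.Agent.Lib.MP_193d8d_pr.StA
import Pool.Agent.Lib.MP_193d8d_pr.StB
import Pool.Agent.Lib.MP_193d8d_pr.Base

set_option autoImplicit false
open MeasureTheory Set Filter Topology

/-! # D2: variance of the total subgradient -/

namespace Pool.Agent.Lib.MP_193d8d_pr

namespace DvarAux

variable {n : ℕ}

/-- `e` is the pair `{x,y}` -/
def E2 (e : Edge n) (x y : Fin n) : Prop := (e.a = x ∧ e.b = y) ∨ (e.a = y ∧ e.b = x)

theorem E2.symm {e : Edge n} {x y : Fin n} (h : E2 e x y) : E2 e y x := Or.symm h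

theorem E2.ne {e : Edge n} {x y : Fin n} (h : E2 e x y) : x ≠ y := by
  have := e.lt.ne
  rcases h with ⟨rfl, rfl⟩ | ⟨rfl, rfl⟩
  · exact this
  · exact this.symm

theorem E2.unique {e f : Edge n} {x y : Fin n} (h : E2 e x y) (h' : E2 f x y) : e = f := by
  have h1 := e.lt
  have h2 := f.lt
  rcases h with ⟨h3, h4⟩ | ⟨h3, h4⟩ <;> rcases h' with ⟨h5, h6⟩ | ⟨h5, h6⟩
  · exact Edge.ext (h3.trans h5.symm) (h4.trans h6.symm)
  · rw [h3, h4] at h1
    rw [h5, h6] at h2
    exact absurd h1 (not_lt.2 h2.le)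
  · rw [h3, h4] at h1
    rw [h5, h6] at h2
    exact absurd h1 (not_lt.2 h2.le)
  · exact Edge.ext (h3.trans h5.symm) (h4.trans h6.symm)

theorem E2.ext {α : Type*} {e : Edge n} {x y : Fin n} (h : E2 e x y) (d : α) (u : Edge n → α) :
    ext d u x y = u e := by
  rcases h with ⟨rfl, rfl⟩ | ⟨rfl, rfl⟩
  · exact ext_edge d u e
  · rw [ext_symm]
    exact ext_edge d u e

/-- the pair of two vertices, with default value -/
noncomputable def mk (g : Edge n) (x y : Fin n) : Edge n := if h : x ≠ y then edge x y h else g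

theorem mk_E2 (g : Edge n) {x y : Fin n} (h : x ≠ y) : E2 (mk g x y) x y := by
  unfold mk
  rw [dif_pos h]
  unfold edge
  split_ifs with h'
  · exact Or.inl ⟨rfl, rfl⟩
  · exact Or.inr ⟨rfl, rfl⟩

/-- the indicator of `g` -/
noncomputable def one (g : Edge n) (f : Edge n) : ℝ := if f = g then 1 else 0

theorem ext_one (g : Edge n) {x y : Fin n} (h : x ≠ y) :
    (E2 g x y ∧ ext 0 (one g) x y = 1) ∨ (¬ E2 g x y ∧ ext 0 (one g) x y = 0) := by
  have h1 := mk_E2 g h
  rw [h1.ext]
  by_cases h2 : E2 g x y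
  · left
    refine ⟨h2, ?_⟩
    rw [one, if_pos (h1.unique h2)]
  · right
    refine ⟨h2, ?_⟩
    rw [one, if_neg]
    intro h3
    rw [h3] at h1
    exact h2 h1

theorem t_cases (g e : Edge n) {k : Fin n} (h1 : k ≠ e.a) (h2 : k ≠ e.b) :
    ((E2 g e.a k ∨ E2 g k e.b) ∧ ext 0 (one g) e.a k + ext 0 (one g) k e.b = 1) ∨
      ext 0 (one g) e.a k + ext 0 (one g) k e.b = 0 := by
  rcases ext_one g h1.symm with ⟨h3, h4⟩ | ⟨h3, h4⟩ <;> rcases ext_one g h2 with ⟨h5, h6⟩ | ⟨h5, h6⟩
  · exfalso
    have := e.lt.ne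
    unfold E2 at h3 h5
    grind
  · left
    exact ⟨Or.inl h3, by rw [h4, h6, add_zero]⟩
  · left
    exact ⟨Or.inr h5, by rw [h4, h6, zero_add]⟩
  · right
    rw [h4, h6, add_zero]

theorem lin_mem (u : Edge n → ℝ) (g e : Edge n) :
    0 ≤ lin u (one g) e ∧ lin u (one g) e ≤ 1 := by
  unfold lin
  split_ifs with h
  · have h0 : ∀ k ∈ amax u e, 0 ≤ ext 0 (one g) e.a k + ext 0 (one g) k e.b ∧
        ext 0 (one g) e.a k + ext 0 (one g) k e.b ≤ 1 := by
      intro k hk
      obtain ⟨-, h1, h2, -⟩ := Finset.mem_filter.1 hk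
      rcases t_cases g e h1 h2 with ⟨-, h3⟩ | h3 <;> rw [h3] <;> norm_num
    constructor
    · exact div_nonneg (Finset.sum_nonneg fun k hk => (h0 k hk).1) (Nat.cast_nonneg _)
    · have h1 : ∑ k ∈ amax u e, (ext 0 (one g) e.a k + ext 0 (one g) k e.b) ≤
          ((amax u e).card : ℝ) := by
        calc _ ≤ ∑ k ∈ amax u e, (1 : ℝ) := Finset.sum_le_sum fun k hk => (h0 k hk).2
          _ = _ := by simp
      exact div_le_one_of_le₀ h1 (Nat.cast_nonneg _)
  · exact ⟨le_rfl, zero_le_one⟩

theorem lin_ne_zero {u : Edge n → ℝ} {g e : Edge n} (h : lin u (one g) e ≠ 0) :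
    0 < cherry u e ∧ ∃ y ∈ amax u e, E2 g e.a y ∨ E2 g y e.b := by
  unfold lin at h
  split_ifs at h with h1
  · refine ⟨h1, ?_⟩
    by_contra hcon
    push Not at hcon
    apply h
    rw [Finset.sum_eq_zero, zero_div]
    intro k hk
    obtain ⟨-, h2, h3, -⟩ := Finset.mem_filter.1 hk
    rcases t_cases g e h2 h3 with ⟨h4, -⟩ | h4
    · exact absurd h4 (by have := hcon k hk; tauto)
    · exact h4
  · exact absurd rfl h

theorem lin_congr {u u' d : Edge n → ℝ} {e : Edge n} (hC : cherry u e = cherry u' e)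
    (hA : amax u e = amax u' e) : lin u d e = lin u' d e := by
  unfold lin
  rw [hC, hA]

theorem cherry_E2 (u : Edge n → ℝ) {e : Edge n} {x z : Fin n} (h : E2 e x z) :
    cherry u e = sup0 (fun k : Fin n => if k = x ∨ k = z then 0
      else ext 0 u x k + ext 0 u k z) := by
  rcases h with ⟨rfl, rfl⟩ | ⟨rfl, rfl⟩
  · rfl
  · unfold cherry
    congr 1
    funext k
    by_cases h1 : k = e.a ∨ k = e.b
    · rw [if_pos h1, if_pos h1.symm]
    · rw [if_neg h1, if_neg (fun h => h1 h.symm), ext_symm 0 u e.b k, ext_symm 0 u k e.a, add_comm]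

theorem mem_amax_E2 (u : Edge n → ℝ) {e : Edge n} {x z : Fin n} (h : E2 e x z) (k : Fin n) :
    k ∈ amax u e ↔ k ≠ x ∧ k ≠ z ∧ ext 0 u x k + ext 0 u k z = cherry u e := by
  unfold amax
  rw [Finset.mem_filter]
  rcases h with ⟨rfl, rfl⟩ | ⟨rfl, rfl⟩
  · simp
  · rw [ext_symm 0 u e.b k, ext_symm 0 u k e.a, add_comm (ext 0 u k e.b)]
    simp only [Finset.mem_univ, true_and]
    tauto

theorem sup0_agree {s s' : Fin n → ℝ} {k0 y : Fin n} (h : ∀ k, k ≠ k0 → s k = s' k)
    (hy : y ≠ k0) (h1 : s k0 < s y) : sup0 s ≤ sup0 s' := by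
  refine sup0_le (sup0_nonneg _) fun k => ?_
  by_cases hk : k = k0
  · rw [hk]
    exact (h1.le.trans (h y hy).le).trans (le_sup0 s' y)
  · rw [h k hk]
    exact le_sup0 s' k

theorem ext_le {u : Edge n → ℝ} {K : ℝ} (hu : ∀ f, u f ≤ K) {x y : Fin n} (h : x ≠ y) :
    ext 0 u x y ≤ K := by
  rw [ext_ne 0 u h]
  exact hu _

theorem ext_congr {u u' : Edge n → ℝ} {l : Edge n} (heq : ∀ f, f ≠ l → u f = u' f)
    {x y : Fin n} (hl : ¬ E2 l x y) : ext 0 u x y = ext 0 u' x y := by
  by_cases h : x = y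
  · subst h
    rw [ext_self, ext_self]
  · have h1 := mk_E2 l h
    rw [h1.ext, h1.ext]
    apply heq
    intro h2
    rw [h2] at h1
    exact hl h1

/-- which targets depend on the edge `l` -/
theorem key {u u' : Edge n → ℝ} {K : ℝ} {g l e : Edge n} (hu : ∀ f, u f ≤ K)
    (hu' : ∀ f, u' f ≤ K) (heq : ∀ f, f ≠ l → u f = u' f) (hl : u' l ≤ -K) (hlg : l ≠ g)
    (hne : lin u (one g) e ≠ lin u' (one g) e) :
    ∃ x y z, E2 g x y ∧ E2 e x z ∧ y ≠ z ∧ (E2 l y z ∨ ∃ k, k ≠ x ∧ k ≠ y ∧ k ≠ z ∧
      (E2 l x k ∨ E2 l k z) ∧ -K < ext 0 u y z ∧ -K < ext 0 u x k ∧ -K < ext 0 u k z) := by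
  -- the middle vertex
  obtain ⟨y, hya, hyb, hgy, hpos⟩ : ∃ y, y ≠ e.a ∧ y ≠ e.b ∧ (E2 g e.a y ∨ E2 g y e.b) ∧
      (0 < ext 0 u e.a y + ext 0 u y e.b ∨ 0 < ext 0 u' e.a y + ext 0 u' y e.b) := by
    by_cases h0 : lin u (one g) e = 0
    · have h1 : lin u' (one g) e ≠ 0 := fun h => hne (h0.trans h.symm)
      obtain ⟨h2, y, hy, hy'⟩ := lin_ne_zero h1
      obtain ⟨-, h3, h4, h5⟩ := Finset.mem_filter.1 hy
      exact ⟨y, h3, h4, hy', Or.inr (h5 ▸ h2)⟩
    · obtain ⟨h2, y, hy, hy'⟩ := lin_ne_zero h0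
      obtain ⟨-, h3, h4, h5⟩ := Finset.mem_filter.1 hy
      exact ⟨y, h3, h4, hy', Or.inl (h5 ▸ h2)⟩
  obtain ⟨x, z, hgx, hex, hyx, hyz, hpos⟩ : ∃ x z, E2 g x y ∧ E2 e x z ∧ y ≠ x ∧ y ≠ z ∧
      (0 < ext 0 u x y + ext 0 u y z ∨ 0 < ext 0 u' x y + ext 0 u' y z) := by
    rcases hgy with h | h
    · exact ⟨e.a, e.b, h, Or.inl ⟨rfl, rfl⟩, hya, hyb, hpos⟩
    · refine ⟨e.b, e.a, h.symm, Or.inr ⟨rfl, rfl⟩, hyb, hya, ?_⟩
      rw [ext_symm 0 u e.b y, ext_symm 0 u y e.a, ext_symm 0 u' e.b y, ext_symm 0 u' y e.a,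
        add_comm (ext 0 u y e.b), add_comm (ext 0 u' y e.b)]
      exact hpos
  have hxz : x ≠ z := hex.ne
  refine ⟨x, y, z, hgx, hex, hyz, ?_⟩
  by_cases hlyz : E2 l y z
  · exact Or.inl hlyz
  right
  have hlxy : ¬ E2 l x y := fun h => hlg (h.unique hgx)
  have e1 := ext_congr heq hlxy
  have e2 := ext_congr heq hlyz
  have hpos' : 0 < ext 0 u x y + ext 0 u y z := by
    rcases hpos with h | h
    · exact h
    · rw [e1, e2]
      exact h
  -- the competitor
  by_cases hex2 : ∃ k, k ≠ x ∧ k ≠ z ∧ (E2 l x k ∨ E2 l k z)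
  swap
  · exfalso
    push Not at hex2
    have hs : ∀ k, k ≠ x → k ≠ z → ext 0 u x k + ext 0 u k z = ext 0 u' x k + ext 0 u' k z := by
      intro k h1 h2
      have h3 := hex2 k h1 h2
      rw [ext_congr heq h3.1, ext_congr heq h3.2]
    have hC : cherry u e = cherry u' e := by
      rw [cherry_E2 u hex, cherry_E2 u' hex]
      congr 1
      funext k
      by_cases h1 : k = x ∨ k = z
      · rw [if_pos h1, if_pos h1]
      · rw [if_neg h1, if_neg h1]
        push Not at h1
        exact hs k h1.1 h1.2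
    apply hne
    refine lin_congr hC ?_
    ext k
    rw [mem_amax_E2 u hex, mem_amax_E2 u' hex, hC]
    constructor
    · rintro ⟨h1, h2, h3⟩
      exact ⟨h1, h2, by rw [← hs k h1 h2, h3]⟩
    · rintro ⟨h1, h2, h3⟩
      exact ⟨h1, h2, by rw [hs k h1 h2, h3]⟩
  obtain ⟨k, hkx, hkz, hlk⟩ := hex2
  have hky : k ≠ y := by
    rintro rfl
    rcases hlk with h | h
    · exact hlxy h
    · exact hlyz h
  have hs' : ext 0 u' x k + ext 0 u' k z ≤ 0 := by
    rcases hlk with h | h
    · rw [h.ext]
      have := ext_le hu' hkz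
      linarith
    · rw [h.ext]
      have := ext_le hu' hkx.symm
      linarith
  have hagree : ∀ k', k' ≠ k → k' ≠ x → k' ≠ z →
      ext 0 u x k' + ext 0 u k' z = ext 0 u' x k' + ext 0 u' k' z := by
    intro k' h1 h2 h3
    have h4 : ¬ E2 l x k' := by
      intro h4
      unfold E2 at h4 hlk
      grind
    have h5 : ¬ E2 l k' z := by
      intro h5
      unfold E2 at h5 hlk
      grind
    rw [ext_congr heq h4, ext_congr heq h5]
  have hle : ext 0 u x y + ext 0 u y z ≤ ext 0 u x k + ext 0 u k z := by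
    by_contra hlt
    push Not at hlt
    apply hne
    have hlt' : ext 0 u' x k + ext 0 u' k z < ext 0 u' x y + ext 0 u' y z := by
      rw [← e1, ← e2]
      linarith
    have hC : cherry u e = cherry u' e := by
      rw [cherry_E2 u hex, cherry_E2 u' hex]
      apply le_antisymm
      · refine sup0_agree (k0 := k) (y := y) ?_ hky.symm ?_
        · intro k' hk'
          by_cases h1 : k' = x ∨ k' = z
          · rw [if_pos h1, if_pos h1]
          · rw [if_neg h1, if_neg h1]
            push Not at h1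
            exact hagree k' hk' h1.1 h1.2
        · rw [if_neg (by push Not; exact ⟨hkx, hkz⟩), if_neg (by push Not; exact ⟨hyx, hyz⟩)]
          exact hlt
      · refine sup0_agree (k0 := k) (y := y) ?_ hky.symm ?_
        · intro k' hk'
          by_cases h1 : k' = x ∨ k' = z
          · rw [if_pos h1, if_pos h1]
          · rw [if_neg h1, if_neg h1]
            push Not at h1
            exact (hagree k' hk' h1.1 h1.2).symm
        · rw [if_neg (by push Not; exact ⟨hkx, hkz⟩), if_neg (by push Not; exact ⟨hyx, hyz⟩)]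
          exact hlt'
    refine lin_congr hC ?_
    have hy1 : ext 0 u x y + ext 0 u y z ≤ cherry u e := by
      rw [cherry_E2 u hex]
      have := le_sup0 (fun k : Fin n => if k = x ∨ k = z then (0 : ℝ)
        else ext 0 u x k + ext 0 u k z) y
      rwa [if_neg (by push Not; exact ⟨hyx, hyz⟩)] at this
    ext k'
    rw [mem_amax_E2 u hex, mem_amax_E2 u' hex, ← hC]
    by_cases hk' : k' = k
    · subst hk'
      constructor
      · rintro ⟨-, -, h3⟩
        linarith
      · rintro ⟨-, -, h3⟩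
        linarith
    · constructor
      · rintro ⟨h1, h2, h3⟩
        exact ⟨h1, h2, by rw [← hagree k' hk' h1 h2, h3]⟩
      · rintro ⟨h1, h2, h3⟩
        exact ⟨h1, h2, by rw [hagree k' hk' h1 h2, h3]⟩
  refine ⟨k, hkx, hky, hkz, hlk, ?_, ?_, ?_⟩
  · have := ext_le hu hyx.symm
    linarith
  · have := ext_le hu hkz
    linarith
  · have := ext_le hu hkx.symm
    linarith

/-- difference of the total subgradients -/
theorem Dw_sub_le (u u' : Edge n → ℝ) (g : Edge n) (S : Finset (Edge n))
    (hS : ∀ e, lin u (one g) e ≠ lin u' (one g) e → e ∈ S) :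
    |Dw u g - Dw u' g| ≤ S.card := by
  have h0 : ∀ w : Edge n → ℝ, Dw w g = ∑ e, lin w (one g) e := fun w => rfl
  rw [h0, h0, ← Finset.sum_sub_distrib]
  calc |∑ e, (lin u (one g) e - lin u' (one g) e)|
      ≤ ∑ e, |lin u (one g) e - lin u' (one g) e| := Finset.abs_sum_le_sum_abs _ _
    _ ≤ ∑ e, if e ∈ S then (1 : ℝ) else 0 := by
        refine Finset.sum_le_sum fun e _ => ?_
        by_cases he : e ∈ S
        · rw [if_pos he, abs_le]
          have h1 := lin_mem u g e
          have h2 := lin_mem u' g e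
          constructor <;> linarith [h1.1, h1.2, h2.1, h2.2]
        · rw [if_neg he]
          have h1 : lin u (one g) e = lin u' (one g) e := by
            by_contra h
            exact he (hS e h)
          rw [h1, sub_self, abs_zero]
    _ = S.card := by
        rw [Finset.sum_ite_mem, Finset.univ_inter]
        simp

section prob

variable {κ : Type} [Fintype κ] [DecidableEq κ]

omit [Fintype κ] in
/-- not the last cell -/
def al0 (last h : κ) : ℝ := if h = last then 0 else 1

omit [Fintype κ] in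
theorem al0_nonneg (last h : κ) : 0 ≤ al0 last h := by
  unfold al0
  split_ifs <;> norm_num

omit [Fintype κ] in
theorem al0_sq (last h : κ) : al0 last h * al0 last h = al0 last h := by
  unfold al0
  split_ifs <;> norm_num

theorem sum_al0 (p : κ → ℝ) (last : κ) (hp1 : ∑ h, p h = 1) :
    ∑ h, p h * al0 last h = 1 - p last := by
  have h1 : ∀ h, p h * al0 last h = p h - if h = last then p last else 0 := by
    intro h
    unfold al0
    split_ifs with h2
    · rw [h2]
      ring
    · ring
  simp only [h1]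
  rw [Finset.sum_sub_distrib, hp1, Finset.sum_ite_eq' Finset.univ last]
  simp

theorem EE_prod {ι : Type} [Fintype ι] [DecidableEq ι] (p : κ → ℝ) (last : κ)
    (hp1 : ∑ h, p h = 1) (F : Finset ι) :
    EE p (fun c : ι → κ => ∏ f ∈ F, al0 last (c f)) = (1 - p last) ^ F.card := by
  induction F using Finset.induction_on with
  | empty =>
    simp only [Finset.prod_empty, Finset.card_empty, pow_zero]
    exact EE_one hp1
  | insert a F ha ih =>
    have h1 : ∀ c : ι → κ, ∏ f ∈ insert a F, al0 last (c f) =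
        al0 last (c a) * ∏ f ∈ F, al0 last (c f) := fun c => Finset.prod_insert ha
    rw [EE_congr h1, EE_indep hp1 a (al0 last) (fun c => ∏ f ∈ F, al0 last (c f)), ih,
      sum_al0 p last hp1, Finset.card_insert_of_notMem ha, pow_succ, mul_comm]
    intro c h
    refine Finset.prod_congr rfl fun f hf => ?_
    rw [Function.update_of_ne]
    rintro rfl
    exact ha hf

end prob

/-- the position of an edge relative to `g` -/
theorem position {g l : Edge n} (h : l ≠ g) :
    (∃ x y z, E2 g x y ∧ E2 l y z ∧ z ≠ x) ∨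
      ∃ x y k z, E2 g x y ∧ E2 l k z ∧ k ≠ x ∧ k ≠ y ∧ z ≠ x ∧ z ≠ y := by
  have hne : ¬ (l.a = g.a ∧ l.b = g.b) := fun h1 => h (Edge.ext h1.1 h1.2)
  have h1 := l.lt
  have h2 := g.lt
  have h3 := h1.ne
  have h4 := h2.ne
  by_cases h5 : l.a = g.a
  · left
    exact ⟨g.b, g.a, l.b, Or.inr ⟨rfl, rfl⟩, Or.inl ⟨h5, rfl⟩, fun h6 => hne ⟨h5, h6⟩⟩
  by_cases h6 : l.a = g.b
  · left
    refine ⟨g.a, g.b, l.b, Or.inl ⟨rfl, rfl⟩, Or.inl ⟨h6, rfl⟩, ?_⟩
    intro h7
    rw [h6, h7] at h1
    exact absurd h1 (not_lt.2 h2.le)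
  by_cases h7 : l.b = g.a
  · left
    exact ⟨g.b, g.a, l.a, Or.inr ⟨rfl, rfl⟩, Or.inr ⟨rfl, h7⟩, h6⟩
  by_cases h8 : l.b = g.b
  · left
    exact ⟨g.a, g.b, l.a, Or.inl ⟨rfl, rfl⟩, Or.inr ⟨rfl, h8⟩, h5⟩
  right
  exact ⟨g.a, g.b, l.a, l.b, Or.inl ⟨rfl, rfl⟩, Or.inl ⟨rfl, rfl⟩, h5, h6, h7, h8⟩

theorem E2.pair {e : Edge n} {x y x' y' : Fin n} (h : E2 e x y) (h' : E2 e x' y') :
    (x = x' ∧ y = y') ∨ (x = y' ∧ y = x') := by
  unfold E2 at h h'
  grind

section cases

variable {κ : Type} [DecidableEq κ]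

/-- the total subgradient as a function of the cells -/
noncomputable def F (rv : κ → ℝ) (g : Edge n) (h0 : κ) (c : Edge n → κ) : ℝ :=
  Dw (fun f => rv (Function.update c g h0 f)) g

theorem F_sub_le (rv : κ → ℝ) (last : κ) (K : ℝ) (g : Edge n) (h0 : κ) (hlast : rv last = -K)
    (hK : ∀ h, rv h ≤ K) (l : Edge n) (hl : l ≠ g) (c : Edge n → κ) (S : Finset (Edge n))
    (hS : ∀ e x y z, E2 g x y → E2 e x z → y ≠ z → (E2 l y z ∨ ∃ k, k ≠ x ∧ k ≠ y ∧ k ≠ z ∧
      (E2 l x k ∨ E2 l k z) ∧ c (mk g y z) ≠ last ∧ (E2 g x k ∨ c (mk g x k) ≠ last) ∧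
      c (mk g k z) ≠ last) → e ∈ S) :
    |F rv g h0 c - F rv g h0 (Function.update c l last)| ≤ S.card := by
  unfold F
  refine Dw_sub_le _ _ g S fun e he => ?_
  have hu : ∀ f, (fun f => rv (Function.update c g h0 f)) f ≤ K := fun f => hK _
  have hu' : ∀ f, (fun f => rv (Function.update (Function.update c l last) g h0 f)) f ≤ K :=
    fun f => hK _
  have heq : ∀ f, f ≠ l → (fun f => rv (Function.update c g h0 f)) f =
      (fun f => rv (Function.update (Function.update c l last) g h0 f)) f := by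
    intro f hf
    change rv _ = rv _
    by_cases hfg : f = g
    · rw [hfg, Function.update_self, Function.update_self]
    · rw [Function.update_of_ne hfg, Function.update_of_ne hfg, Function.update_of_ne hf]
  have hl' : (fun f => rv (Function.update (Function.update c l last) g h0 f)) l ≤ -K := by
    change rv _ ≤ -K
    rw [Function.update_of_ne hl, Function.update_self, hlast]
  obtain ⟨x, y, z, h1, h2, h3, h4⟩ := key hu hu' heq hl' hl he
  have act : ∀ a b : Fin n, a ≠ b → -K < ext 0 (fun f => rv (Function.update c g h0 f)) a b →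
      E2 g a b ∨ c (mk g a b) ≠ last := by
    intro a b hab hlt
    by_cases hg : E2 g a b
    · exact Or.inl hg
    right
    have h5 := mk_E2 g hab
    rw [h5.ext] at hlt
    have h6 : mk g a b ≠ g := by
      intro h6
      rw [h6] at h5
      exact hg h5
    change -K < rv (Function.update c g h0 (mk g a b)) at hlt
    rw [Function.update_of_ne h6] at hlt
    intro h7
    rw [h7, hlast] at hlt
    exact lt_irrefl _ hlt
  refine hS e x y z h1 h2 h3 ?_
  rcases h4 with h4 | ⟨k, h5, h6, h7, h8, h9, h10, h11⟩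
  · exact Or.inl h4
  · right
    refine ⟨k, h5, h6, h7, h8, ?_, act x k h5.symm h10, ?_⟩
    · rcases act y z h3 h9 with h | h
      · exfalso
        have := h.pair h1
        have hxz := h2.ne
        have hyz := h3
        grind
      · exact h
    · rcases act k z h7 h11 with h | h
      · exfalso
        have := h.pair h1
        have hxz := h2.ne
        grind
      · exact h

theorem F_update_last (rv : κ → ℝ) (last : κ) (g : Edge n) (h0 : κ) (l : Edge n)
    (c : Edge n → κ) (hc : c l = last) :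
    F rv g h0 (Function.update c l last) = F rv g h0 c := by
  have : Function.update c l last = c := by
    rw [← hc, Function.update_eq_self]
  rw [this]

/-- the set of the other vertices -/
noncomputable def Zs (x y z : Fin n) : Finset (Fin n) :=
  Finset.univ.filter (fun w => w ≠ x ∧ w ≠ y ∧ w ≠ z)

theorem case1 (rv : κ → ℝ) (last : κ) (K : ℝ) (g : Edge n) (h0 : κ) (hlast : rv last = -K)
    (hK : ∀ h, rv h ≤ K) (l : Edge n) (hl : l ≠ g) {x y z : Fin n} (hg : E2 g x y)
    (hl2 : E2 l y z) (hzx : z ≠ x) (c : Edge n → κ) :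
    |F rv g h0 c - F rv g h0 (Function.update c l last)| ≤ al0 last (c l) *
      (1 + ∑ w ∈ Zs x y z, al0 last (c (mk g x w)) * al0 last (c (mk g z w))) := by
  by_cases hc : c l = last
  · rw [F_update_last rv last g h0 l c hc, sub_self, abs_zero]
    refine mul_nonneg (al0_nonneg _ _) (add_nonneg zero_le_one (Finset.sum_nonneg fun w _ => ?_))
    exact mul_nonneg (al0_nonneg _ _) (al0_nonneg _ _)
  have h1 : al0 last (c l) = 1 := if_neg hc
  rw [h1, one_mul]
  refine (F_sub_le rv last K g h0 hlast hK l hl c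
    (insert (mk g x z) (((Zs x y z).filter (fun w => c (mk g x w) ≠ last ∧
      c (mk g z w) ≠ last)).image (fun w => mk g y w))) ?_).trans ?_
  · intro e x' y' z' hg' he hyz h4
    rw [Finset.mem_insert, Finset.mem_image]
    have hne := hl2.ne
    have hxy := hg.ne
    have hxz' := he.ne
    rcases h4 with h4 | ⟨k, h5, h6, h7, h8, h9, h10, h11⟩
    · left
      have p1 := hg'.pair hg
      have p2 := h4.pair hl2
      have h12 : x' = x ∧ z' = z := by grind
      rw [h12.1, h12.2] at he
      exact he.unique (mk_E2 g hzx.symm)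
    · right
      have p1 := hg'.pair hg
      have h12 : x' = y ∧ y' = x ∧ k = z := by
        rcases h8 with h8 | h8
        · have p2 := h8.pair hl2
          grind
        · have p2 := h8.pair hl2
          grind
      obtain ⟨rfl, rfl, rfl⟩ := h12
      refine ⟨z', ?_, (he.unique (mk_E2 g hxz')).symm⟩
      rw [Finset.mem_filter]
      refine ⟨?_, h9, h11⟩
      unfold Zs
      rw [Finset.mem_filter]
      exact ⟨Finset.mem_univ _, hyz.symm, hxz'.symm, h7.symm⟩
  · have h2 : ((insert (mk g x z) (((Zs x y z).filter (fun w => c (mk g x w) ≠ last ∧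
      c (mk g z w) ≠ last)).image (fun w => mk g y w))).card : ℝ) ≤
        1 + (((Zs x y z).filter (fun w => c (mk g x w) ≠ last ∧
      c (mk g z w) ≠ last)).card : ℝ) := by
      have h3 := Finset.card_insert_le (mk g x z) (((Zs x y z).filter (fun w =>
        c (mk g x w) ≠ last ∧ c (mk g z w) ≠ last)).image (fun w => mk g y w))
      have h4 := Finset.card_image_le (s := (Zs x y z).filter (fun w =>
        c (mk g x w) ≠ last ∧ c (mk g z w) ≠ last)) (f := fun w => mk g y w)
      have h5 := h3.trans (Nat.add_le_add_right h4 1)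
      rw [add_comm] at h5
      exact_mod_cast h5
    refine h2.trans (add_le_add le_rfl ?_)
    rw [Finset.card_filter]
    push_cast
    refine Finset.sum_le_sum fun w _ => ?_
    unfold al0
    split_ifs <;> simp_all

theorem case2 (rv : κ → ℝ) (last : κ) (K : ℝ) (g : Edge n) (h0 : κ) (hlast : rv last = -K)
    (hK : ∀ h, rv h ≤ K) (l : Edge n) (hl : l ≠ g) {x y k z : Fin n} (hg : E2 g x y)
    (hl2 : E2 l k z) (hkx : k ≠ x) (hky : k ≠ y) (hzx : z ≠ x) (hzy : z ≠ y) (c : Edge n → κ) :
    |F rv g h0 c - F rv g h0 (Function.update c l last)| ≤ al0 last (c l) *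
      (2 * (al0 last (c (mk g y z)) * al0 last (c (mk g x k))) +
        2 * (al0 last (c (mk g y k)) * al0 last (c (mk g x z)))) := by
  by_cases hc : c l = last
  · rw [F_update_last rv last g h0 l c hc, sub_self, abs_zero]
    have := al0_nonneg last
    refine mul_nonneg (this _) (add_nonneg ?_ ?_)
    · exact mul_nonneg zero_le_two (mul_nonneg (this _) (this _))
    · exact mul_nonneg zero_le_two (mul_nonneg (this _) (this _))
  have h1 : al0 last (c l) = 1 := if_neg hc
  rw [h1, one_mul]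
  refine (F_sub_le rv last K g h0 hlast hK l hl c
    ((if c (mk g y z) ≠ last ∧ c (mk g x k) ≠ last then {mk g x z, mk g y k} else ∅) ∪
      (if c (mk g y k) ≠ last ∧ c (mk g x z) ≠ last then {mk g x k, mk g y z} else ∅)) ?_).trans ?_
  · intro e x' y' z' hg' he hyz h4
    rw [Finset.mem_union]
    have hne := hl2.ne
    have hxy := hg.ne
    have hxz' := he.ne
    have p1 := hg'.pair hg
    rcases h4 with h4 | ⟨k', h5, h6, h7, h8, h9, h10, h11⟩
    · exfalso
      have p2 := h4.pair hl2
      grind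
    · have h12 : E2 l k' z' := by
        rcases h8 with h8 | h8
        · exfalso
          have p2 := h8.pair hl2
          grind
        · exact h8
      have p2 := h12.pair hl2
      have h10' : c (mk g x' k') ≠ last := by
        rcases h10 with h | h
        · exfalso
          have p3 := h.pair hg
          grind
        · exact h
      have he' : e = mk g x' z' := he.unique (mk_E2 g hxz')
      rcases p1 with ⟨rfl, rfl⟩ | ⟨rfl, rfl⟩ <;> rcases p2 with ⟨rfl, rfl⟩ | ⟨rfl, rfl⟩
      · left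
        rw [if_pos ⟨h9, h10'⟩, he']
        simp
      · right
        rw [if_pos ⟨h9, h10'⟩, he']
        simp
      · right
        rw [if_pos ⟨h10', h9⟩, he']
        simp
      · left
        rw [if_pos ⟨h10', h9⟩, he']
        simp
  · have key2 : ∀ (P : Prop) [Decidable P] (a b : Edge n),
        ((if P then ({a, b} : Finset (Edge n)) else ∅).card : ℝ) ≤ 2 * (if P then (1 : ℝ) else 0) := by
      intro P _ a b
      split_ifs
      · have : ({a, b} : Finset (Edge n)).card ≤ 2 := Finset.card_le_two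
        have h3 : (({a, b} : Finset (Edge n)).card : ℝ) ≤ 2 := by exact_mod_cast this
        linarith
      · simp
    have h2 := Finset.card_union_le
      (if c (mk g y z) ≠ last ∧ c (mk g x k) ≠ last then ({mk g x z, mk g y k} : Finset (Edge n))
        else ∅)
      (if c (mk g y k) ≠ last ∧ c (mk g x z) ≠ last then ({mk g x k, mk g y z} : Finset (Edge n))
        else ∅)
    have h3 : (((if c (mk g y z) ≠ last ∧ c (mk g x k) ≠ last then
        ({mk g x z, mk g y k} : Finset (Edge n)) else ∅) ∪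
      (if c (mk g y k) ≠ last ∧ c (mk g x z) ≠ last then
        ({mk g x k, mk g y z} : Finset (Edge n)) else ∅)).card : ℝ) ≤
        ((if c (mk g y z) ≠ last ∧ c (mk g x k) ≠ last then
          ({mk g x z, mk g y k} : Finset (Edge n)) else ∅).card : ℝ) +
        ((if c (mk g y k) ≠ last ∧ c (mk g x z) ≠ last then
          ({mk g x k, mk g y z} : Finset (Edge n)) else ∅).card : ℝ) := by
      exact_mod_cast h2
    refine h3.trans (add_le_add ((key2 _ _ _).trans ?_) ((key2 _ _ _).trans ?_))
    · unfold al0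
      split_ifs <;> simp_all
    · unfold al0
      split_ifs <;> simp_all

end cases

section expect

variable {κ : Type} [Fintype κ] [DecidableEq κ]

theorem rho_nonneg (p : κ → ℝ) (last : κ) (hp : ∀ h, 0 ≤ p h) (hp1 : ∑ h, p h = 1) :
    0 ≤ 1 - p last := by
  rw [← sum_al0 p last hp1]
  exact Finset.sum_nonneg fun h _ => mul_nonneg (hp h) (al0_nonneg _ _)

theorem al0_mul_prod (last : κ) (c : Edge n → κ) (a b : Edge n) (hab : a ≠ b) :
    al0 last (c a) * al0 last (c b) = ∏ f ∈ {a, b}, al0 last (c f) := by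
  rw [Finset.prod_pair hab]

/-- the expectation of the product of two terms -/
theorem EE_pair (p : κ → ℝ) (last : κ) (hp : ∀ h, 0 ≤ p h) (hp1 : ∑ h, p h = 1) (g : Edge n)
    {x z : Fin n} (hzx : z ≠ x) {w w' : Fin n} (hwx : w ≠ x) (hwz : w ≠ z) (hwx' : w' ≠ x)
    (hwz' : w' ≠ z) :
    EE p (fun c => (al0 last (c (mk g x w)) * al0 last (c (mk g z w))) *
      (al0 last (c (mk g x w')) * al0 last (c (mk g z w')))) ≤
      (if w = w' then (1 - p last) ^ 2 else 0) + (1 - p last) ^ 4 := by
  have hρ := rho_nonneg p last hp hp1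
  have E1 := mk_E2 g hwx.symm
  have E2' := mk_E2 g hwz.symm
  have E3 := mk_E2 g hwx'.symm
  have E4 := mk_E2 g hwz'.symm
  have n12 : mk g x w ≠ mk g z w := by
    intro h
    rw [h] at E1
    have := E1.pair E2'
    grind
  by_cases hww : w = w'
  · subst hww
    rw [if_pos rfl]
    have h1 : ∀ c : Edge n → κ, (al0 last (c (mk g x w)) * al0 last (c (mk g z w))) *
        (al0 last (c (mk g x w)) * al0 last (c (mk g z w))) =
        ∏ f ∈ {mk g x w, mk g z w}, al0 last (c f) := by
      intro c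
      rw [Finset.prod_pair n12]
      have h2 := al0_sq last (c (mk g x w))
      have h3 := al0_sq last (c (mk g z w))
      calc _ = (al0 last (c (mk g x w)) * al0 last (c (mk g x w))) *
          (al0 last (c (mk g z w)) * al0 last (c (mk g z w))) := by ring
        _ = _ := by rw [h2, h3]
    rw [EE_congr h1, EE_prod p last hp1, Finset.card_pair n12]
    have : 0 ≤ (1 - p last) ^ 4 := pow_nonneg hρ 4
    linarith
  · rw [if_neg hww, zero_add]
    have n34 : mk g x w' ≠ mk g z w' := by
      intro h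
      rw [h] at E3
      have := E3.pair E4
      grind
    have n13 : mk g x w ≠ mk g x w' := by
      intro h
      rw [h] at E1
      have := E1.pair E3
      grind
    have n14 : mk g x w ≠ mk g z w' := by
      intro h
      rw [h] at E1
      have := E1.pair E4
      grind
    have n23 : mk g z w ≠ mk g x w' := by
      intro h
      rw [h] at E2'
      have := E2'.pair E3
      grind
    have n24 : mk g z w ≠ mk g z w' := by
      intro h
      rw [h] at E2'
      have := E2'.pair E4
      grind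
    have h0 : mk g z w' ∉ (∅ : Finset (Edge n)) := Finset.notMem_empty _
    have h1 : mk g x w' ∉ ({mk g z w'} : Finset (Edge n)) := by simpa using n34
    have h2 : mk g z w ∉ ({mk g x w', mk g z w'} : Finset (Edge n)) := by
      simp [n23, n24]
    have h3 : mk g x w ∉ ({mk g z w, mk g x w', mk g z w'} : Finset (Edge n)) := by
      simp [n12, n13, n14]
    have h4 : ∀ c : Edge n → κ, (al0 last (c (mk g x w)) * al0 last (c (mk g z w))) *
        (al0 last (c (mk g x w')) * al0 last (c (mk g z w'))) =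
        ∏ f ∈ ({mk g x w, mk g z w, mk g x w', mk g z w'} : Finset (Edge n)),
          al0 last (c f) := by
      intro c
      rw [Finset.prod_insert h3, Finset.prod_insert h2, Finset.prod_insert h1,
        Finset.prod_singleton]
      ring
    rw [EE_congr h4, EE_prod p last hp1, Finset.card_insert_of_notMem h3,
      Finset.card_insert_of_notMem h2, Finset.card_insert_of_notMem h1, Finset.card_singleton]

theorem EE_Nsq (p : κ → ℝ) (last : κ) (hp : ∀ h, 0 ≤ p h) (hp1 : ∑ h, p h = 1) (g : Edge n)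
    {x z : Fin n} (hzx : z ≠ x) (Z : Finset (Fin n)) (hZ : ∀ w ∈ Z, w ≠ x ∧ w ≠ z) :
    EE p (fun c => (∑ w ∈ Z, al0 last (c (mk g x w)) * al0 last (c (mk g z w))) ^ 2) ≤
      n * (1 - p last) ^ 2 + (n : ℝ) ^ 2 * (1 - p last) ^ 4 := by
  have hρ := rho_nonneg p last hp hp1
  have h1 : ∀ c : Edge n → κ,
      (∑ w ∈ Z, al0 last (c (mk g x w)) * al0 last (c (mk g z w))) ^ 2 =
      ∑ w ∈ Z, ∑ w' ∈ Z, (al0 last (c (mk g x w)) * al0 last (c (mk g z w))) *
        (al0 last (c (mk g x w')) * al0 last (c (mk g z w'))) := by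
    intro c
    rw [sq, Finset.sum_mul_sum]
  rw [EE_congr h1, EE_sum]
  have h2 : ∀ w ∈ Z, EE p (fun c => ∑ w' ∈ Z, (al0 last (c (mk g x w)) *
      al0 last (c (mk g z w))) * (al0 last (c (mk g x w')) * al0 last (c (mk g z w')))) ≤
      (1 - p last) ^ 2 + n * (1 - p last) ^ 4 := by
    intro w hw
    rw [EE_sum]
    calc _ ≤ ∑ w' ∈ Z, ((if w = w' then (1 - p last) ^ 2 else 0) + (1 - p last) ^ 4) :=
          Finset.sum_le_sum fun w' hw' => EE_pair p last hp hp1 g hzx (hZ w hw).1 (hZ w hw).2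
            (hZ w' hw').1 (hZ w' hw').2
      _ = (1 - p last) ^ 2 + Z.card * (1 - p last) ^ 4 := by
          rw [Finset.sum_add_distrib, Finset.sum_ite_eq, if_pos hw, Finset.sum_const,
            nsmul_eq_mul]
      _ ≤ _ := by
          have h3 : (Z.card : ℝ) ≤ n := by
            have := Finset.card_le_univ Z
            rw [Fintype.card_fin] at this
            exact_mod_cast this
          have h4 : 0 ≤ (1 - p last) ^ 4 := pow_nonneg hρ 4
          nlinarith
  calc _ ≤ ∑ w ∈ Z, ((1 - p last) ^ 2 + n * (1 - p last) ^ 4) := Finset.sum_le_sum h2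
    _ = Z.card * ((1 - p last) ^ 2 + n * (1 - p last) ^ 4) := by
        rw [Finset.sum_const, nsmul_eq_mul]
    _ ≤ n * ((1 - p last) ^ 2 + n * (1 - p last) ^ 4) := by
        have h3 : (Z.card : ℝ) ≤ n := by
          have := Finset.card_le_univ Z
          rw [Fintype.card_fin] at this
          exact_mod_cast this
        exact mul_le_mul_of_nonneg_right h3 (by positivity)
    _ = _ := by ring

theorem bound1 (p : κ → ℝ) (last : κ) (hp : ∀ h, 0 ≤ p h) (hp1 : ∑ h, p h = 1) (rv : κ → ℝ)
    (K : ℝ) (g : Edge n) (h0 : κ) (hlast : rv last = -K) (hK : ∀ h, rv h ≤ K) (l : Edge n)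
    (hl : l ≠ g) {x y z : Fin n} (hg : E2 g x y) (hl2 : E2 l y z) (hzx : z ≠ x) :
    EE p (fun c => (F rv g h0 c - F rv g h0 (Function.update c l last)) ^ 2) ≤
      2 * (1 - p last) * (1 + n * (1 - p last) ^ 2) ^ 2 := by
  have hρ := rho_nonneg p last hp hp1
  set N : (Edge n → κ) → ℝ := fun c =>
    ∑ w ∈ Zs x y z, al0 last (c (mk g x w)) * al0 last (c (mk g z w)) with hN
  have hN0 : ∀ c, 0 ≤ N c := fun c =>
    Finset.sum_nonneg fun w _ => mul_nonneg (al0_nonneg _ _) (al0_nonneg _ _)
  have hZ : ∀ w ∈ Zs x y z, w ≠ x ∧ w ≠ z := by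
    intro w hw
    obtain ⟨-, h1, -, h3⟩ := Finset.mem_filter.1 hw
    exact ⟨h1, h3⟩
  have hZy : ∀ w ∈ Zs x y z, w ≠ y := by
    intro w hw
    obtain ⟨-, -, h2, -⟩ := Finset.mem_filter.1 hw
    exact h2
  have h1 : ∀ c, (F rv g h0 c - F rv g h0 (Function.update c l last)) ^ 2 ≤
      al0 last (c l) * (2 + 2 * N c ^ 2) := by
    intro c
    have h2 := case1 rv last K g h0 hlast hK l hl hg hl2 hzx c
    have h3 : 0 ≤ al0 last (c l) * (1 + N c) :=
      mul_nonneg (al0_nonneg _ _) (by linarith [hN0 c])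
    have h4 : (F rv g h0 c - F rv g h0 (Function.update c l last)) ^ 2 ≤
        (al0 last (c l) * (1 + N c)) ^ 2 := by
      rw [← sq_abs]
      exact pow_le_pow_left₀ (abs_nonneg _) h2 2
    have h5 := al0_sq last (c l)
    have h6 : (al0 last (c l) * (1 + N c)) ^ 2 = al0 last (c l) * (1 + N c) ^ 2 := by
      calc _ = (al0 last (c l) * al0 last (c l)) * (1 + N c) ^ 2 := by ring
        _ = _ := by rw [h5]
    rw [h6] at h4
    refine h4.trans (mul_le_mul_of_nonneg_left ?_ (al0_nonneg _ _))
    nlinarith [sq_nonneg (1 - N c)]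
  refine (EE_mono hp h1).trans ?_
  rw [EE_indep hp1 l (al0 last) (fun c => 2 + 2 * N c ^ 2), sum_al0 p last hp1]
  · have h7 : EE p (fun c => 2 + 2 * N c ^ 2) = 2 + 2 * EE p (fun c => N c ^ 2) := by
      rw [EE_add p (fun _ => 2) (fun c => 2 * N c ^ 2), EE_const hp1, EE_mul_left]
    have h8 := EE_Nsq p last hp hp1 g hzx (Zs x y z) hZ
    rw [h7]
    have h9 : 2 + 2 * EE p (fun c => N c ^ 2) ≤ 2 * (1 + n * (1 - p last) ^ 2) ^ 2 := by
      have h10 : 0 ≤ (n : ℝ) * (1 - p last) ^ 2 := by positivity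
      have h11 : EE p (fun c => N c ^ 2) ≤ n * (1 - p last) ^ 2 + (n : ℝ) ^ 2 *
        (1 - p last) ^ 4 := h8
      nlinarith
    calc _ ≤ (1 - p last) * (2 * (1 + n * (1 - p last) ^ 2) ^ 2) :=
          mul_le_mul_of_nonneg_left h9 hρ
      _ = _ := by ring
  · intro c h
    have h7 : N (Function.update c l h) = N c := by
      refine Finset.sum_congr rfl fun w hw => ?_
      have e1 : mk g x w ≠ l := by
        intro h8
        have := mk_E2 g (hZ w hw).1.symm
        rw [h8] at this
        have p1 := this.pair hl2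
        have h9 := hg.ne
        have h10 := hZ w hw
        grind
      have e2 : mk g z w ≠ l := by
        intro h8
        have := mk_E2 g (hZ w hw).2.symm
        rw [h8] at this
        have p1 := this.pair hl2
        have h9 := hg.ne
        have h10 := hZy w hw
        have h11 := hl2.ne
        grind
      rw [Function.update_of_ne e1, Function.update_of_ne e2]
    rw [h7]

theorem EE_three (p : κ → ℝ) (last : κ) (hp1 : ∑ h, p h = 1) {a b l : Edge n} (h1 : l ≠ a)
    (h2 : l ≠ b) (h3 : a ≠ b) :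
    EE p (fun c => al0 last (c l) * (al0 last (c a) * al0 last (c b))) = (1 - p last) ^ 3 := by
  have e1 : a ∉ ({b} : Finset (Edge n)) := by simpa using h3
  have e2 : l ∉ ({a, b} : Finset (Edge n)) := by simp [h1, h2]
  have h4 : ∀ c : Edge n → κ, al0 last (c l) * (al0 last (c a) * al0 last (c b)) =
      ∏ f ∈ ({l, a, b} : Finset (Edge n)), al0 last (c f) := by
    intro c
    rw [Finset.prod_insert e2, Finset.prod_insert e1, Finset.prod_singleton]
  rw [EE_congr h4, EE_prod p last hp1, Finset.card_insert_of_notMem e2,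
    Finset.card_insert_of_notMem e1, Finset.card_singleton]

theorem bound2 (p : κ → ℝ) (last : κ) (hp : ∀ h, 0 ≤ p h) (hp1 : ∑ h, p h = 1) (rv : κ → ℝ)
    (K : ℝ) (g : Edge n) (h0 : κ) (hlast : rv last = -K) (hK : ∀ h, rv h ≤ K) (l : Edge n)
    (hl : l ≠ g) {x y k z : Fin n} (hg : E2 g x y) (hl2 : E2 l k z) (hkx : k ≠ x) (hky : k ≠ y)
    (hzx : z ≠ x) (hzy : z ≠ y) :
    EE p (fun c => (F rv g h0 c - F rv g h0 (Function.update c l last)) ^ 2) ≤
      16 * (1 - p last) ^ 3 := by
  have hxy := hg.ne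
  have hkz := hl2.ne
  have M1 := mk_E2 g hzy.symm
  have M2 := mk_E2 g hkx.symm
  have M3 := mk_E2 g hky.symm
  have M4 := mk_E2 g hzx.symm
  have a1 : l ≠ mk g y z := by
    intro h
    rw [← h] at M1
    have := M1.pair hl2
    grind
  have a2 : l ≠ mk g x k := by
    intro h
    rw [← h] at M2
    have := M2.pair hl2
    grind
  have a3 : l ≠ mk g y k := by
    intro h
    rw [← h] at M3
    have := M3.pair hl2
    grind
  have a4 : l ≠ mk g x z := by
    intro h
    rw [← h] at M4
    have := M4.pair hl2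
    grind
  have a5 : mk g y z ≠ mk g x k := by
    intro h
    rw [h] at M1
    have := M1.pair M2
    grind
  have a6 : mk g y k ≠ mk g x z := by
    intro h
    rw [h] at M3
    have := M3.pair M4
    grind
  have h1 : ∀ c, (F rv g h0 c - F rv g h0 (Function.update c l last)) ^ 2 ≤
      8 * (al0 last (c l) * (al0 last (c (mk g y z)) * al0 last (c (mk g x k)))) +
      8 * (al0 last (c l) * (al0 last (c (mk g y k)) * al0 last (c (mk g x z)))) := by
    intro c
    have h2 := case2 rv last K g h0 hlast hK l hl hg hl2 hkx hky hzx hzy c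
    set P := al0 last (c (mk g y z)) * al0 last (c (mk g x k)) with hP
    set Q := al0 last (c (mk g y k)) * al0 last (c (mk g x z)) with hQ
    have hP2 : P * P = P := by
      calc P * P = (al0 last (c (mk g y z)) * al0 last (c (mk g y z))) *
            (al0 last (c (mk g x k)) * al0 last (c (mk g x k))) := by rw [hP]; ring
        _ = P := by rw [al0_sq, al0_sq]
    have hQ2 : Q * Q = Q := by
      calc Q * Q = (al0 last (c (mk g y k)) * al0 last (c (mk g y k))) *
            (al0 last (c (mk g x z)) * al0 last (c (mk g x z))) := by rw [hQ]; ring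
        _ = Q := by rw [al0_sq, al0_sq]
    have h4 : (F rv g h0 c - F rv g h0 (Function.update c l last)) ^ 2 ≤
        (al0 last (c l) * (2 * P + 2 * Q)) ^ 2 := by
      rw [← sq_abs]
      exact pow_le_pow_left₀ (abs_nonneg _) h2 2
    have h5 := al0_sq last (c l)
    have h6 : (al0 last (c l) * (2 * P + 2 * Q)) ^ 2 = al0 last (c l) * (2 * P + 2 * Q) ^ 2 := by
      calc _ = (al0 last (c l) * al0 last (c l)) * (2 * P + 2 * Q) ^ 2 := by ring
        _ = _ := by rw [h5]
    rw [h6] at h4
    have h7 : al0 last (c l) * (2 * P + 2 * Q) ^ 2 ≤ al0 last (c l) * (8 * P + 8 * Q) := by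
      refine mul_le_mul_of_nonneg_left ?_ (al0_nonneg _ _)
      nlinarith [sq_nonneg (P - Q)]
    linarith
  refine (EE_mono hp h1).trans ?_
  rw [EE_add p (fun c => 8 * (al0 last (c l) * (al0 last (c (mk g y z)) *
      al0 last (c (mk g x k))))) (fun c => 8 * (al0 last (c l) * (al0 last (c (mk g y k)) *
      al0 last (c (mk g x z))))), EE_mul_left, EE_mul_left, EE_three p last hp1 a1 a2 a5,
    EE_three p last hp1 a3 a4 a6]
  linarith

end expect

theorem card_edge_le : (Fintype.card (Edge n) : ℝ) ≤ (n : ℝ) ^ 2 := by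
  have h : Fintype.card (Edge n) ≤ Fintype.card (Fin n × Fin n) := by
    refine Fintype.card_le_of_injective (fun e => (e.a, e.b)) ?_
    intro e f hef
    have h1 : (e.a, e.b) = (f.a, f.b) := hef
    rw [Prod.mk.injEq] at h1
    exact Edge.ext h1.1 h1.2
  rw [Fintype.card_prod, Fintype.card_fin] at h
  rw [sq]
  exact_mod_cast h

end DvarAux

open DvarAux in
/-- D2: variance of the total subgradient -/
theorem stDvar (hE : StEfron) : StDvar := by
  refine ⟨16, by norm_num, ?_⟩
  intro n κ _ _ p rv last K g h0 hn hp hp1 hlast hK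
  have hρ := rho_nonneg p last hp hp1
  set ρ := 1 - p last with hρdef
  have h1 := hE (Edge n) κ p last (F rv g h0) hp hp1
  let S : Finset (Edge n) := Finset.univ.image (mk g g.a) ∪ Finset.univ.image (mk g g.b)
  let B : Edge n → ℝ := fun l => (if l ∈ S then 2 * ρ * (1 + n * ρ ^ 2) ^ 2 else 0) + 16 * ρ ^ 3
  have hB0 : 0 ≤ 2 * ρ * (1 + n * ρ ^ 2) ^ 2 := by positivity
  have hb : ∀ l ∈ (Finset.univ : Finset (Edge n)),
      EE p (fun c => (F rv g h0 c - F rv g h0 (Function.update c l last)) ^ 2) ≤ B l := by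
    intro l _
    by_cases hl : l = g
    · have h2 : ∀ c : Edge n → κ,
          (F rv g h0 c - F rv g h0 (Function.update c l last)) ^ 2 = 0 := by
        intro c
        have h3 : F rv g h0 (Function.update c l last) = F rv g h0 c := by
          unfold F
          rw [hl, Function.update_idem]
        rw [h3]
        ring
      rw [EE_congr h2, EE_const hp1]
      change (0 : ℝ) ≤ (if l ∈ S then 2 * ρ * (1 + n * ρ ^ 2) ^ 2 else 0) + 16 * ρ ^ 3
      have h4 : 0 ≤ 16 * ρ ^ 3 := by positivity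
      split_ifs <;> linarith
    · rcases position hl with ⟨x, y, z, hg, hl2, hzx⟩ | ⟨x, y, k, z, hg, hl2, h5, h6, h7, h8⟩
      · refine (bound1 p last hp hp1 rv K g h0 hlast hK l hl hg hl2 hzx).trans ?_
        have hmem : l ∈ S := by
          have h9 : l = mk g y z := hl2.unique (mk_E2 g hl2.ne)
          have h10 : y = g.a ∨ y = g.b := by
            rcases hg with ⟨h, h'⟩ | ⟨h, h'⟩
            · exact Or.inr h'.symm
            · exact Or.inl h.symm
          rw [Finset.mem_union, Finset.mem_image, Finset.mem_image]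
          rcases h10 with h10 | h10
          · left
            exact ⟨z, Finset.mem_univ _, by rw [h9, h10]⟩
          · right
            exact ⟨z, Finset.mem_univ _, by rw [h9, h10]⟩
        change _ ≤ (if l ∈ S then 2 * ρ * (1 + n * ρ ^ 2) ^ 2 else 0) + 16 * ρ ^ 3
        rw [if_pos hmem]
        have h4 : 0 ≤ 16 * ρ ^ 3 := by positivity
        linarith
      · refine (bound2 p last hp hp1 rv K g h0 hlast hK l hl hg hl2 h5 h6 h7 h8).trans ?_
        change _ ≤ (if l ∈ S then 2 * ρ * (1 + n * ρ ^ 2) ^ 2 else 0) + 16 * ρ ^ 3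
        split_ifs <;> linarith
  have h2 := h1.trans (Finset.sum_le_sum hb)
  have hS : (S.card : ℝ) ≤ 2 * n := by
    have h3 : S.card ≤ n + n := by
      refine (Finset.card_union_le _ _).trans (Nat.add_le_add ?_ ?_)
      · exact Finset.card_image_le.trans (by rw [Finset.card_univ, Fintype.card_fin])
      · exact Finset.card_image_le.trans (by rw [Finset.card_univ, Fintype.card_fin])
    have h4 : (S.card : ℝ) ≤ (n : ℝ) + n := by exact_mod_cast h3
    linarith
  have h3 : ∑ l, B l ≤ 2 * n * (2 * ρ * (1 + n * ρ ^ 2) ^ 2) + (n : ℝ) ^ 2 * (16 * ρ ^ 3) := by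
    change ∑ l, ((if l ∈ S then 2 * ρ * (1 + n * ρ ^ 2) ^ 2 else 0) + 16 * ρ ^ 3) ≤ _
    rw [Finset.sum_add_distrib, Finset.sum_ite_mem, Finset.univ_inter, Finset.sum_const,
      Finset.sum_const, nsmul_eq_mul, nsmul_eq_mul, Finset.card_univ]
    have h4 : (0 : ℝ) ≤ 16 * ρ ^ 3 := by positivity
    exact add_le_add (mul_le_mul_of_nonneg_right hS hB0)
      (mul_le_mul_of_nonneg_right card_edge_le h4)
  refine (h2.trans h3).trans ?_
  have h4 : 0 ≤ (n : ℝ) * ρ * (1 + n * ρ ^ 2) ^ 2 := by positivity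
  linarith

end Pool.Agent.Lib.MP_193d8d_pr
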