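import Pool.Agent.Lib.MP_193d8d_pr.StA
import Pool.Agent.Lib.MP_193d8d_pr.StB
import Pool.Agent.Lib.MP_193d8d_pr.Base

set_option autoImplicit false

/-!
D1: the Efron - Stein inequality.
-/

namespace Pool.Agent.Lib.MP_193d8d_pr

namespace EfronAux

section
variable {ι κ : Type} [Fintype ι] [DecidableEq ι] [Fintype κ] {p : κ → ℝ}

/-- average over one coordinate -/
noncomputable def av (p : κ → ℝ) (l : ι) (f : (ι → κ) → ℝ) (c : ι → κ) : ℝ :=
  ∑ h, p h * f (Function.update c l h)

theorem av_update (l : ι) (f : (ι → κ) → ℝ) (c : ι → κ) (h : κ) :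
    av p l f (Function.update c l h) = av p l f c := by
  unfold av
  simp only [Function.update_idem]

theorem av_update_of (l l' : ι) (f : (ι → κ) → ℝ)
    (hf : ∀ c h, f (Function.update c l' h) = f c) (c : ι → κ) (h : κ) :
    av p l f (Function.update c l' h) = av p l f c := by
  by_cases hl : l = l'
  · subst hl
    exact av_update l f c h
  · unfold av
    refine Finset.sum_congr rfl fun h' _ => ?_
    rw [Function.update_comm (Ne.symm hl), hf]

theorem EE_av (hp1 : ∑ h, p h = 1) (l : ι) (f : (ι → κ) → ℝ) : EE p (av p l f) = EE p f :=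
  (EE_split p hp1 l f).symm

theorem EE_zero : EE p (fun _ : ι → κ => (0 : ℝ)) = 0 := by
  unfold EE
  simp

theorem orth (hp1 : ∑ h, p h = 1) (l : ι) (f g : (ι → κ) → ℝ)
    (hg : ∀ c h, g (Function.update c l h) = g c) :
    EE p (fun c => (f c - av p l f c) * g c) = 0 := by
  rw [EE_split p hp1 l]
  rw [← EE_zero (ι := ι) (p := p)]
  refine EE_congr fun c => ?_
  simp only [av_update, hg]
  have h1 : ∀ h, p h * ((f (Function.update c l h) - av p l f c) * g c) =
      (p h * f (Function.update c l h)) * g c - p h * (av p l f c * g c) := by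
    intro h
    ring
  simp only [h1, Finset.sum_sub_distrib, ← Finset.sum_mul, hp1]
  unfold av
  ring

theorem sq_split (hp1 : ∑ h, p h = 1) (l : ι) (f g : (ι → κ) → ℝ)
    (hg : ∀ c h, g (Function.update c l h) = g c) :
    EE p (fun c => (f c - av p l f c + g c) ^ 2) =
      EE p (fun c => (f c - av p l f c) ^ 2) + EE p (fun c => g c ^ 2) := by
  have h1 : ∀ c, (f c - av p l f c + g c) ^ 2 =
      ((f c - av p l f c) ^ 2 + g c ^ 2) + 2 * ((f c - av p l f c) * g c) := by
    intro c
    ring
  rw [EE_congr h1, EE_add, EE_add, EE_mul_left, orth hp1 l f g hg]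
  ring

/-- conditional variance against any reference -/
theorem var_le (hp : ∀ h, 0 ≤ p h) (hp1 : ∑ h, p h = 1) (l : ι) (f b : (ι → κ) → ℝ)
    (hb : ∀ c h, b (Function.update c l h) = b c) :
    EE p (fun c => (f c - av p l f c) ^ 2) ≤ EE p (fun c => (f c - b c) ^ 2) := by
  have h1 : ∀ c, (f c - b c) ^ 2 = (f c - av p l f c + (av p l f c - b c)) ^ 2 := by
    intro c
    ring
  rw [EE_congr h1, sq_split hp1 l f (fun c => av p l f c - b c)]
  · have := EE_nonneg (ι := ι) hp (f := fun c => (av p l f c - b c) ^ 2) fun c => sq_nonneg _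
    linarith
  · intro c h
    rw [av_update, hb]

/-- Jensen for one coordinate -/
theorem av_sq_le (hp : ∀ h, 0 ≤ p h) (hp1 : ∑ h, p h = 1) (l : ι) (g : (ι → κ) → ℝ) :
    EE p (fun c => av p l g c ^ 2) ≤ EE p (fun c => g c ^ 2) := by
  have h1 : ∀ c, g c ^ 2 = (g c - av p l g c + av p l g c) ^ 2 := by
    intro c
    ring
  rw [EE_congr h1, sq_split hp1 l g (av p l g) (av_update l g)]
  have := EE_nonneg (ι := ι) hp (f := fun c => (g c - av p l g c) ^ 2) fun c => sq_nonneg _
  linarith

/-- average over a list of coordinates -/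
noncomputable def avl (p : κ → ℝ) (L : List ι) (f : (ι → κ) → ℝ) : (ι → κ) → ℝ :=
  L.foldr (av p) f

theorem avl_update (L : List ι) (f : (ι → κ) → ℝ) (l : ι) (hl : l ∈ L) (c : ι → κ) (h : κ) :
    avl p L f (Function.update c l h) = avl p L f c := by
  induction L generalizing c h with
  | nil => simp at hl
  | cons a L ih =>
    show av p a (avl p L f) (Function.update c l h) = av p a (avl p L f) c
    rcases List.mem_cons.1 hl with rfl | hl
    · exact av_update _ _ _ _
    · exact av_update_of _ _ _ (ih hl) _ _

theorem EE_avl (hp1 : ∑ h, p h = 1) (L : List ι) (f : (ι → κ) → ℝ) :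
    EE p (avl p L f) = EE p f := by
  induction L with
  | nil => rfl
  | cons a L ih =>
    show EE p (av p a (avl p L f)) = EE p f
    rw [EE_av hp1, ih]

theorem av_sub (l : ι) (f g : (ι → κ) → ℝ) (c : ι → κ) :
    av p l (fun c => f c - g c) c = av p l f c - av p l g c := by
  unfold av
  rw [← Finset.sum_sub_distrib]
  exact Finset.sum_congr rfl fun h _ => by ring

theorem main (hp : ∀ h, 0 ≤ p h) (hp1 : ∑ h, p h = 1) (L : List ι) (f : (ι → κ) → ℝ) :
    EE p (fun c => (f c - avl p L f c) ^ 2) ≤
      (L.map fun l => EE p (fun c => (f c - av p l f c) ^ 2)).sum := by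
  induction L with
  | nil =>
    show EE p (fun c => (f c - f c) ^ 2) ≤ 0
    simp only [sub_self, ne_eq, OfNat.ofNat_ne_zero, not_false_eq_true, zero_pow]
    exact EE_zero.le
  | cons a L ih =>
    rw [List.map_cons, List.sum_cons]
    have h1 : ∀ c, (f c - avl p (a :: L) f c) ^ 2 =
        (f c - av p a f c + av p a (fun c => f c - avl p L f c) c) ^ 2 := by
      intro c
      rw [av_sub]
      show (f c - av p a (avl p L f) c) ^ 2 = _
      congr 1
      ring
    rw [EE_congr h1, sq_split hp1 a f _ (av_update a _)]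
    have h2 := av_sq_le hp hp1 a (fun c => f c - avl p L f c)
    linarith

theorem const_of (g : (ι → κ) → ℝ) (hg : ∀ l c h, g (Function.update c l h) = g c)
    (c c' : ι → κ) : g c = g c' := by
  have key : ∀ s : Finset ι, ∀ c : ι → κ, (∀ e, e ∉ s → c e = c' e) → g c = g c' := by
    intro s
    induction s using Finset.induction_on with
    | empty =>
      intro c hc
      congr 1
      funext e
      exact hc e (by simp)
    | insert a s ha ih =>
      intro c hc
      rw [← hg a c (c' a)]
      refine ih _ fun e he => ?_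
      by_cases hea : e = a
      · subst hea
        rw [Function.update_self]
      · rw [Function.update_of_ne hea]
        exact hc e (by simp [hea, he])
  exact key Finset.univ c (by simp)

end

end EfronAux

open EfronAux in
/-- D1: the Efron - Stein inequality -/
theorem stEfron : StEfron := by
  intro ι κ _ _ _ p c0 f hp hp1
  have h1 : ∀ c, avl p (Finset.univ.toList (α := ι)) f c = EE p f := by
    intro c
    have h2 : ∀ c', avl p (Finset.univ.toList (α := ι)) f c' =
        avl p (Finset.univ.toList (α := ι)) f c := by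
      intro c'
      refine const_of _ (fun l c h => ?_) _ _
      exact avl_update _ _ _ (by simp) _ _
    rw [← EE_avl hp1 (Finset.univ.toList (α := ι)) f, EE_congr h2, EE_const hp1]
  have h3 := main hp hp1 (Finset.univ.toList (α := ι)) f
  simp only [h1] at h3
  refine h3.trans ?_
  rw [Finset.sum_map_toList]
  refine Finset.sum_le_sum fun l _ => ?_
  refine var_le hp hp1 l f (fun c => f (Function.update c l c0)) fun c h => ?_
  simp only [Function.update_idem]

end Pool.Agent.Lib.MP_193d8d_pr
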