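import Pool.Agent.Lib.MP_193d8d_pr.StA
import Pool.Agent.Lib.MP_193d8d_pr.StB
import Pool.Agent.Lib.MP_193d8d_pr.Base

set_option autoImplicit false
open MeasureTheory Set Filter Topology

namespace Pool.Agent.Lib.MP_193d8d_pr

/-! # G3: the error terms in the core estimate -/

namespace ErrSAux

section prob

variable {ι κ : Type} [Fintype ι] [DecidableEq ι] [Fintype κ] {p : κ → ℝ}

theorem EE_indep0 (hp1 : ∑ h, p h = 1) (e : ι) (u : κ → ℝ) (hu : ∑ h, p h * u h = 0)
    (f : (ι → κ) → ℝ) (hf : ∀ c h, f (Function.update c e h) = f c) :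
    EE p (fun c => u (c e) * f c) = 0 := by
  rw [EE_indep hp1 e u f hf, hu, zero_mul]

theorem EE_single (hp1 : ∑ h, p h = 1) (e : ι) (u : κ → ℝ) :
    EE p (fun c => u (c e)) = ∑ h, p h * u h := by
  have := EE_indep (p := p) hp1 e u (fun _ => 1) (fun _ _ => rfl)
  rw [EE_one hp1] at this
  simpa using this

theorem var_sum {α : Type} (s : Finset α) (X : α → (ι → κ) → ℝ) (v : ℝ)
    (h0 : ∀ k ∈ s, ∀ l ∈ s, k ≠ l → EE p (fun c => X k c * X l c) = 0)
    (h1 : ∀ k ∈ s, EE p (fun c => X k c * X k c) ≤ v) :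
    EE p (fun c => (∑ k ∈ s, X k c) ^ 2) ≤ s.card * v := by
  have h2 : EE p (fun c => (∑ k ∈ s, X k c) ^ 2) =
      ∑ k ∈ s, ∑ l ∈ s, EE p (fun c => X k c * X l c) := by
    rw [← Finset.sum_congr rfl fun k _ => EE_sum p s fun l c => X k c * X l c, ← EE_sum]
    refine EE_congr fun c => ?_
    rw [sq, Finset.sum_mul_sum]
  rw [h2, ← nsmul_eq_mul]
  refine Finset.sum_le_card_nsmul s _ v fun k hk => ?_
  rw [Finset.sum_eq_single k (fun l hl hlk => h0 k hk l hl hlk.symm) (fun h => absurd hk h)]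
  exact h1 k hk

theorem EE_abs_sqrt (hp : ∀ h, 0 ≤ p h) (hp1 : ∑ h, p h = 1) (f : (ι → κ) → ℝ) {v : ℝ}
    (h : EE p (fun c => f c ^ 2) ≤ v) : EE p (fun c => |f c|) ≤ Real.sqrt v :=
  Real.le_sqrt_of_sq_le ((EE_abs_le hp hp1 f).trans h)

end prob

/-- indicator of a set of labels -/
def zz {κ : Type} [DecidableEq κ] (Z : Finset κ) (h : κ) : ℝ := if h ∈ Z then 1 else 0

theorem sum_zz {κ : Type} [Fintype κ] [DecidableEq κ] (p : κ → ℝ) (Z : Finset κ) :
    ∑ h, p h * zz Z h = ∑ h ∈ Z, p h := by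
  unfold zz
  simp only [mul_ite, mul_one, mul_zero]
  rw [Finset.sum_ite_mem, Finset.univ_inter]

theorem zz_sq {κ : Type} [DecidableEq κ] (Z : Finset κ) (h : κ) : zz Z h * zz Z h = zz Z h := by
  unfold zz
  split_ifs <;> norm_num

end ErrSAux

open ErrSAux in
theorem stErrS : StErrS := by
  intro n κ _ _ p l0 Z err B j k hjk hp0 hp1 hpred herr
  set z := ∑ h ∈ Z, p h with hz
  have hz0 : 0 ≤ z := Finset.sum_nonneg fun h _ => hp0 h
  set g : Edge n := ⟨j, k, hjk⟩ with hg
  -- the edges `i k`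
  set ed : Fin n → Edge n := fun i => if h : i < k then ⟨i, k, h⟩ else g with hed
  have hed1 : ∀ i, i < j → ∃ h : i < k, ed i = ⟨i, k, h⟩ := by
    intro i hi
    have h : i < k := hi.trans hjk
    exact ⟨h, by rw [hed]; simp only [dif_pos h]⟩
  have hlt : ∀ i, i < j → ed i < g := by
    intro i hi
    obtain ⟨h, h'⟩ := hed1 i hi
    rw [h', Edge.lt_iff]
    exact Or.inr ⟨rfl, hi⟩
  have hinj : ∀ i, i < j → ∀ i', i' < j → i ≠ i' → ed i ≠ ed i' := by
    intro i hi i' hi' hne he
    obtain ⟨h, h'⟩ := hed1 i hi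
    obtain ⟨h1, h1'⟩ := hed1 i' hi'
    rw [h', h1'] at he
    exact hne (congrArg Edge.a he)
  have hexg : ∀ c : Edge n → κ, ext l0 c j k = c g := fun c => ext_of_lt l0 c hjk
  have hexg' : ∀ c : Edge n → κ, ext 0 (fun e => err e c) j k = err g c :=
    fun c => ext_of_lt 0 (fun e => err e c) hjk
  have hexi : ∀ i, i < j → ∀ c : Edge n → κ, ext l0 c i k = c (ed i) := by
    intro i hi c
    obtain ⟨h, h'⟩ := hed1 i hi
    rw [h']
    exact ext_of_lt l0 c h
  have hexi' : ∀ i, i < j → ∀ c : Edge n → κ, ext 0 (fun e => err e c) i k = err (ed i) c := by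
    intro i hi c
    obtain ⟨h, h'⟩ := hed1 i hi
    rw [h']
    exact ext_of_lt 0 (fun e => err e c) h
  -- invariance
  have hupd : ∀ e e' : Edge n, e ≤ e' → ∀ c h, err e (Function.update c e' h) = err e c := by
    intro e e' hee c h
    refine hpred e _ _ fun f hf => ?_
    rw [Function.update_of_ne (hf.trans_le hee).ne]
  -- one summand
  have hone : ∀ i ∈ Finset.univ.filter (fun i : Fin n => i < j), EE p (fun c =>
      (if ext l0 c i k ∈ Z then 1 else 0) * (if ext l0 c j k ∈ Z then 1 else 0) *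
        (ext 0 (fun e => err e c) i k + ext 0 (fun e => err e c) j k)) =
      z ^ 2 * EE p (fun c => ext 0 (fun e => err e c) i k) +
        z * EE p (fun c => zz Z (c (ed i)) * err g c) := by
    intro i hi
    have hi' : i < j := (Finset.mem_filter.1 hi).2
    simp only [hexg, hexg', hexi i hi', hexi' i hi']
    have e1 : EE p (fun c => (if c (ed i) ∈ Z then (1 : ℝ) else 0) *
        (if c g ∈ Z then 1 else 0) * (err (ed i) c + err g c)) =
        EE p (fun c => zz Z (c g) * (zz Z (c (ed i)) * err (ed i) c)) +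
          EE p (fun c => zz Z (c g) * (zz Z (c (ed i)) * err g c)) := by
      rw [← EE_add]
      refine EE_congr fun c => ?_
      unfold zz
      ring
    rw [e1, EE_indep hp1 g (zz Z) (fun c => zz Z (c (ed i)) * err (ed i) c) (by
      intro c h
      rw [Function.update_of_ne (hlt i hi').ne, hupd _ _ (hlt i hi').le]),
      EE_indep hp1 g (zz Z) (fun c => zz Z (c (ed i)) * err g c) (by
      intro c h
      rw [Function.update_of_ne (hlt i hi').ne, hupd _ _ le_rfl]),
      EE_indep hp1 (ed i) (zz Z) (fun c => err (ed i) c) (fun c h => hupd _ _ le_rfl c h),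
      sum_zz, ← hz]
    ring
  rw [Finset.sum_congr rfl hone, Finset.sum_add_distrib, ← Finset.mul_sum, ← Finset.mul_sum,
    ← EE_sum p (Finset.univ.filter (fun i : Fin n => i < j))
      (fun i c => zz Z (c (ed i)) * err g c)]
  refine add_le_add le_rfl (mul_le_mul_of_nonneg_left ?_ hz0)
  -- the variance
  have hcard : (Finset.univ.filter (fun i : Fin n => i < j)).card = (j : ℕ) := by
    rw [Finset.filter_gt_eq_Iio, Fin.card_Iio]
  have hu : ∑ h, p h * (zz Z h - z) = 0 := by
    simp only [mul_sub]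
    rw [Finset.sum_sub_distrib, sum_zz, ← Finset.sum_mul, hp1, one_mul, hz, sub_self]
  have hvar : EE p (fun c => (∑ i ∈ Finset.univ.filter (fun i : Fin n => i < j),
      (zz Z (c (ed i)) - z)) ^ 2) ≤ (j : ℕ) * z := by
    have h := var_sum (p := p) (Finset.univ.filter (fun i : Fin n => i < j))
      (fun i c => zz Z (c (ed i)) - z) z (by
        intro i hi i' hi' hne
        have h1 : i < j := (Finset.mem_filter.1 hi).2
        have h2 : i' < j := (Finset.mem_filter.1 hi').2
        exact EE_indep0 hp1 (ed i) (fun h => zz Z h - z) hu (fun c => zz Z (c (ed i')) - z)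
          (fun c h => by rw [Function.update_of_ne (hinj i' h2 i h1 hne.symm)])) (by
        intro i hi
        have e1 : EE p (fun c : Edge n → κ => (zz Z (c (ed i)) - z) * (zz Z (c (ed i)) - z)) =
            (1 - 2 * z) * z + z ^ 2 := by
          have e2 : ∀ c : Edge n → κ, (zz Z (c (ed i)) - z) * (zz Z (c (ed i)) - z) =
              (1 - 2 * z) * zz Z (c (ed i)) + z ^ 2 := by
            intro c
            linear_combination zz_sq Z (c (ed i))
          simp only [e2]
          rw [EE_add, EE_mul_left, EE_single hp1, EE_const hp1, sum_zz]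
        rw [e1]
        nlinarith [sq_nonneg z])
    rwa [hcard] at h
  have habs := EE_abs_sqrt hp0 hp1 _ hvar
  -- pointwise
  have hpt : ∀ c : Edge n → κ, (∑ i ∈ Finset.univ.filter (fun i : Fin n => i < j),
      zz Z (c (ed i)) * err g c) ≤ z * (j : ℕ) * err g c +
        B * |∑ i ∈ Finset.univ.filter (fun i : Fin n => i < j), (zz Z (c (ed i)) - z)| := by
    intro c
    obtain ⟨b0, b1⟩ := herr g c
    have e1 : (∑ i ∈ Finset.univ.filter (fun i : Fin n => i < j), zz Z (c (ed i)) * err g c) =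
        z * (j : ℕ) * err g c +
          (∑ i ∈ Finset.univ.filter (fun i : Fin n => i < j), (zz Z (c (ed i)) - z)) *
            err g c := by
      rw [← Finset.sum_mul, Finset.sum_sub_distrib, Finset.sum_const, hcard, nsmul_eq_mul]
      ring
    rw [e1]
    refine add_le_add le_rfl ?_
    set X := ∑ i ∈ Finset.univ.filter (fun i : Fin n => i < j), (zz Z (c (ed i)) - z)
    calc X * err g c ≤ |X| * err g c := mul_le_mul_of_nonneg_right (le_abs_self X) b0
      _ ≤ |X| * B := mul_le_mul_of_nonneg_left b1 (abs_nonneg X)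
      _ = B * |X| := mul_comm _ _
  refine (EE_mono hp0 hpt).trans ?_
  rw [EE_add, EE_mul_left, EE_mul_left]
  simp only [hexg']
  refine add_le_add le_rfl (mul_le_mul_of_nonneg_left habs ?_)
  by_cases hne : Nonempty (Edge n → κ)
  · obtain ⟨c⟩ := hne
    exact (herr g c).1.trans (herr g c).2
  · exfalso
    have : IsEmpty (Edge n → κ) := not_nonempty_iff.1 hne
    have h1 := EE_one (ι := Edge n) hp1
    unfold EE at h1
    rw [Finset.univ_eq_empty, Finset.sum_empty] at h1
    exact zero_ne_one h1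

end Pool.Agent.Lib.MP_193d8d_pr
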