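import Pool.Agent.Lib.MP_193d8d_pr.StA
import Pool.Agent.Lib.MP_193d8d_pr.StB
import Pool.Agent.Lib.MP_193d8d_pr.Base

set_option autoImplicit false
open MeasureTheory Set Filter Topology

namespace Pool.Agent.Lib.MP_193d8d_pr

namespace ExAux

section lev

variable {ε δ : ℝ} {J m : ℕ}

theorem lev_zero : lev ε δ J m 0 = 0 := by simp [lev]

theorem lev_low {j : ℕ} (hj : j ≤ J) : lev ε δ J m (J + 1 - j) = ε * δ * (1 / 2) ^ j := by
  have h1 : J + 1 - j ≠ 0 := by omega
  have h2 : J + 1 - j ≤ J + 1 := by omega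
  have h3 : J + 1 - (J + 1 - j) = j := by omega
  rw [lev, if_neg h1, if_pos h2, h3]

theorem lev_main {i : ℕ} (hi : i ≤ m) : lev ε δ J m (J + 1 + i) = ε * δ * (i + 1) := by
  rcases Nat.eq_zero_or_pos i with h | h
  · subst h
    have := lev_low (ε := ε) (δ := δ) (J := J) (m := m) (j := 0) (Nat.zero_le J)
    simpa using this
  · have h1 : J + 1 + i ≠ 0 := by omega
    have h2 : ¬ J + 1 + i ≤ J + 1 := by omega
    have h3 : J + 1 + i ≤ J + 1 + m := by omega
    rw [lev, if_neg h1, if_neg h2, if_pos h3]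
    push_cast
    ring

theorem lev_top : lev ε δ J m (J + m + 1 + 1) = 1 := by
  have h1 : J + m + 1 + 1 ≠ 0 := by omega
  have h2 : ¬ J + m + 1 + 1 ≤ J + 1 := by omega
  have h3 : ¬ J + m + 1 + 1 ≤ J + 1 + m := by omega
  rw [lev, if_neg h1, if_neg h2, if_neg h3]

theorem lev_one : lev ε δ J m 1 = ε * δ * (1 / 2) ^ J := by
  have := lev_low (ε := ε) (δ := δ) (J := J) (m := m) (j := J) le_rfl
  rwa [show J + 1 - J = 1 by omega] at this

theorem lev_last : lev ε δ J m (J + m + 1) = ε * δ * (m + 1) := by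
  have := lev_main (ε := ε) (δ := δ) (J := J) (m := m) (i := m) le_rfl
  rwa [show J + 1 + m = J + m + 1 by omega] at this

theorem lev_lt (hε : 0 < ε) (hδ : 0 < δ) (hm : (m + 1) * δ * ε < 1) :
    ∀ h, h ≤ J + m + 1 → lev ε δ J m h < lev ε δ J m (h + 1) := by
  intro h hh
  have hεδ : 0 < ε * δ := mul_pos hε hδ
  rcases Nat.eq_zero_or_pos h with h0 | h0
  · subst h0
    rw [lev_zero, zero_add, lev_one]
    positivity
  · by_cases h1 : h ≤ J
    · obtain ⟨j, hj, rfl⟩ : ∃ j, j + 1 ≤ J ∧ h = J + 1 - (j + 1) := ⟨J - h, by omega, by omega⟩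
      rw [lev_low hj, show J + 1 - (j + 1) + 1 = J + 1 - j by omega, lev_low (by omega)]
      apply mul_lt_mul_of_pos_left _ hεδ
      rw [pow_succ]
      have : (0 : ℝ) < (1 / 2) ^ j := by positivity
      linarith
    · by_cases h2 : h ≤ J + m
      · obtain ⟨i, hi, rfl⟩ : ∃ i, i + 1 ≤ m ∧ h = J + 1 + i := ⟨h - (J + 1), by omega, by omega⟩
        rw [lev_main (by omega), show J + 1 + i + 1 = J + 1 + (i + 1) by omega, lev_main hi]
        push_cast
        nlinarith
      · have h3 : h = J + m + 1 := by omega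
        subst h3
        rw [lev_last, lev_top]
        nlinarith

end lev

theorem rr_tendsto : Tendsto rr atTop (𝓝 0) := by
  have h1 : Tendsto (fun n : ℕ => Real.sqrt (n : ℝ)) atTop atTop :=
    Real.tendsto_sqrt_atTop.comp tendsto_natCast_atTop_atTop
  have h2 : Tendsto (fun n : ℕ => (Real.sqrt (n : ℝ))⁻¹) atTop (𝓝 0) :=
    tendsto_inv_atTop_zero.comp h1
  refine h2.congr ?_
  intro n
  simp [rr, one_div]

end ExAux

open ExAux in
theorem stEx (hT : StTree) (hV : StVol) : StEx := by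
  have hpos : ∀ᶠ δ in 𝓝[>] (0 : ℝ), 0 < δ := eventually_mem_nhdsWithin
  filter_upwards [hpos] with δ hδ
  have h1 : Tendsto (fun n : ℕ => ((md δ : ℝ) + 1) * δ * rr n) atTop
      (𝓝 (((md δ : ℝ) + 1) * δ * 0)) := rr_tendsto.const_mul _
  rw [mul_zero] at h1
  filter_upwards [h1.eventually (gt_mem_nhds (show (0 : ℝ) < 1 by norm_num)),
    eventually_ge_atTop 1] with n hn hn1
  have hr : 0 < rr n := by
    unfold rr
    have : (0 : ℝ) < n := by exact_mod_cast hn1
    have := Real.sqrt_pos.2 this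
    positivity
  obtain ⟨hm, -, -, hv⟩ := hV (9 / 10) n (by norm_num) (by norm_num)
  refine hT (Edge n) (M (9 / 10) n) (HH δ n) (lv δ n) hm ?_ ?_ lev_zero lev_top
    (lev_lt hr hδ hn)
  · intro x hx e
    have := hx.1 e
    exact ⟨by linarith [this.1], this.2⟩
  · intro h0
    unfold vol at hv
    rw [h0] at hv
    norm_num at hv

end Pool.Agent.Lib.MP_193d8d_pr
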