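import Mathlib

/-!
# The metric polytope and the density of one distance

Definitions used in the statement of the main theorem.
-/

set_option autoImplicit false
open MeasureTheory Set Filter Topology

namespace Pool.Agent.Lib.MP_193d8d_pr

/-- the unordered pairs of distinct points of `Fin n`, written as ordered pairs `i < j` -/
abbrev Pair (n : ℕ) : Type := {p : Fin n × Fin n // p.1 < p.2}

/-- the distance matrix of `x : Pair n → ℝ`: symmetric, zero on the diagonal -/
noncomputable def dd {n : ℕ} (x : Pair n → ℝ) (i j : Fin n) : ℝ :=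
  if h : i < j then x ⟨(i, j), h⟩ else if h : j < i then x ⟨(j, i), h⟩ else 0

/-- the metric polytope `M_n`: all metrics on `Fin n` with distances at most `2` -/
def MetricPolytope (n : ℕ) : Set (Pair n → ℝ) :=
  {x | (∀ i j, i ≠ j → 0 < dd x i j ∧ dd x i j ≤ 2) ∧
    ∀ i j k, dd x i j ≤ dd x i k + dd x k j}

/-- `f` is the density of the distance `d_ij` of a uniformly distributed random point of the
metric polytope, in the version which is continuous on `(0,2)` and zero outside `(0,2]` -/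
def IsDensity (n : ℕ) (i j : Fin n) (f : ℝ → ℝ) : Prop :=
  ContinuousOn f (Ioo 0 2) ∧ (∀ t, t ≤ 0 ∨ 2 < t → f t = 0) ∧
  ∀ a b : ℝ, 0 < a → a < b → b < 2 →
    (volume {x | x ∈ MetricPolytope n ∧ a < dd x i j ∧ dd x i j < b}).toReal =
      (volume (MetricPolytope n)).toReal * ∫ t in a..b, f t

/-- THE THEOREM: the rescaled densities `g_n t = f_n (1 - t / √n)` converge -/
def ConvStatement : Prop :=
  ∃ (g : ℝ → ℝ) (C : ℝ), 0 < C ∧ ContinuousOn g (Ici 0) ∧
  (∀ t, 0 ≤ t → 0 < g t ∧ g t ≤ 1 ∧ g t ≤ 2 * Real.exp (-(t / C))) ∧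
  (∀ (n : ℕ) (i j : Fin n), i ≠ j → ∃ f, IsDensity n i j f) ∧
  (∀ f : ℕ → ℝ → ℝ,
    (∀ (n : ℕ) (h : 2 ≤ n), IsDensity n ⟨0, by omega⟩ ⟨1, by omega⟩ (f n)) →
      (∀ t, 0 ≤ t → Tendsto (fun n : ℕ => f n (1 - t / Real.sqrt n)) atTop (𝓝 (g t))) ∧
      (∀ b, TendstoUniformlyOn (fun (n : ℕ) t => f n (1 - t / Real.sqrt n)) g atTop
        (Icc 0 b)) ∧
      Tendsto (fun n : ℕ => ∫ t in Ioi (0 : ℝ), |f n (1 - t / Real.sqrt n) - g t|) atTop
        (𝓝 0))

/-- the volume -/
def VolStatement : Prop := ∃ v : ℝ,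
  Tendsto (fun n : ℕ => Real.log (volume (MetricPolytope n)).toReal / (n : ℝ) ^ (3 / 2 : ℝ))
    atTop (𝓝 v)

end Pool.Agent.Lib.MP_193d8d_pr
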