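import Pool.Agent.Lib.MP_193d8d_pr.StA
import Pool.Agent.Lib.MP_193d8d_pr.StB
import Pool.Agent.Lib.MP_193d8d_pr.Base
import Pool.Agent.Lib.MP_193d8d_pr.MainSt

set_option autoImplicit false
open MeasureTheory Set Filter Topology

namespace Pool.Agent.Lib.MP_193d8d_pr.FinAux

open Pool.Agent.Lib.MP_193d8d_pr

/-- edges and pairs -/
def φ (n : ℕ) : Edge n ≃ Pair n where
  toFun e := ⟨(e.a, e.b), e.lt⟩
  invFun p := ⟨p.1.1, p.1.2, p.2⟩
  left_inv _ := rfl
  right_inv _ := rfl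

/-- transport of coordinates -/
noncomputable def Φ (n : ℕ) : (Edge n → ℝ) ≃ᵐ (Pair n → ℝ) :=
  MeasurableEquiv.piCongrLeft (fun _ : Pair n => ℝ) (φ n)

theorem Φ_apply (n : ℕ) (x : Edge n → ℝ) (e : Edge n) : Φ n x (φ n e) = x e := by
  unfold Φ
  exact MeasurableEquiv.piCongrLeft_apply_apply (e := φ n) (β := fun _ => ℝ) x e

theorem Φ_mp (n : ℕ) : MeasurePreserving (Φ n) :=
  volume_measurePreserving_piCongrLeft (fun _ : Pair n => ℝ) (φ n)

theorem dd_Φ (n : ℕ) (x : Edge n → ℝ) (i j : Fin n) : dd (Φ n x) i j = ext 0 x i j := by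
  unfold dd ext
  split_ifs with h h'
  · exact Φ_apply n x ⟨i, j, h⟩
  · exact Φ_apply n x ⟨j, i, h'⟩
  · rfl

theorem mem_iff (n : ℕ) (x : Edge n → ℝ) : Φ n x ∈ MetricPolytope n ↔ x ∈ M 0 n := by
  unfold MetricPolytope M
  simp only [mem_ofPred_eq, dd_Φ]
  constructor
  · rintro ⟨h1, h2⟩
    refine ⟨fun e => ?_, h2⟩
    have := h1 e.a e.b e.lt.ne
    rwa [ext_edge] at this
  · rintro ⟨h1, h2⟩
    refine ⟨fun i j hij => ?_, h2⟩
    rw [ext_ne 0 x hij]
    exact h1 _

theorem vol_eq (n : ℕ) (P : ℝ → Prop) (i j : Fin n) :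
    (volume {x | x ∈ MetricPolytope n ∧ P (dd x i j)}).toReal =
      vol {x | x ∈ M 0 n ∧ P (ext 0 x i j)} := by
  unfold vol
  rw [← (Φ_mp n).measure_preimage_equiv]
  congr 2
  ext x
  simp only [mem_preimage, mem_ofPred_eq, mem_iff, dd_Φ]

theorem vol_eq' (n : ℕ) : (volume (MetricPolytope n)).toReal = vol (M 0 n) := by
  unfold vol
  rw [← (Φ_mp n).measure_preimage_equiv]
  congr 2
  ext x
  simp only [mem_preimage, mem_iff]

/-- continuous functions with the same integrals are equal -/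
theorem eq_of_int {u v : ℝ → ℝ} (hu : ContinuousOn u (Ioo 0 2)) (hv : ContinuousOn v (Ioo 0 2))
    (h : ∀ a b : ℝ, 0 < a → a < b → b < 2 → ∫ t in a..b, u t = ∫ t in a..b, v t) :
    ∀ t ∈ Ioo (0 : ℝ) 2, u t = v t := by
  have key : ∀ (u v : ℝ → ℝ), ContinuousOn u (Ioo 0 2) → ContinuousOn v (Ioo 0 2) →
      (∀ a b : ℝ, 0 < a → a < b → b < 2 → ∫ t in a..b, u t = ∫ t in a..b, v t) →
      ∀ t ∈ Ioo (0 : ℝ) 2, u t ≤ v t := by
    intro u v hu hv h t ht
    by_contra hlt
    push Not at hlt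
    have hw : ContinuousOn (fun s => u s - v s) (Ioo 0 2) := hu.sub hv
    have hwt := hw t ht
    have hev : ∀ᶠ s in 𝓝[Ioo 0 2] t, (u t - v t) / 2 < u s - v s :=
      hwt.eventually (lt_mem_nhds (by linarith : (u t - v t) / 2 < u t - v t))
    rw [isOpen_Ioo.nhdsWithin_eq ht] at hev
    obtain ⟨ε, hε, hb⟩ := Metric.eventually_nhds_iff.1 hev
    set b := min (t + ε / 2) ((t + 2) / 2) with hb'
    have htb : t < b := by
      rw [hb']; refine lt_min (by linarith) (by linarith [ht.2])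
    have hb2 : b < 2 := by
      rw [hb']; refine (min_le_right _ _).trans_lt (by linarith [ht.2])
    have hsub : Icc t b ⊆ Ioo 0 2 := fun s hs => ⟨ht.1.trans_le hs.1, hs.2.trans_lt hb2⟩
    have hiu : IntervalIntegrable u volume t b :=
      (hu.mono hsub).intervalIntegrable_of_Icc htb.le
    have hiv : IntervalIntegrable v volume t b :=
      (hv.mono hsub).intervalIntegrable_of_Icc htb.le
    have h0 : ∫ s in t..b, (u s - v s) = 0 := by
      rw [intervalIntegral.integral_sub hiu hiv, h t b ht.1 htb hb2, sub_self]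
    have h1 : ∫ s in t..b, ((u t - v t) / 2) ≤ ∫ s in t..b, (u s - v s) := by
      refine intervalIntegral.integral_mono_on htb.le (by simp) (hiu.sub hiv) fun s hs => ?_
      refine (hb ?_).le
      rw [Real.dist_eq, abs_of_nonneg (by linarith [hs.1])]
      have : b ≤ t + ε / 2 := min_le_left _ _
      linarith [hs.2]
    rw [h0, intervalIntegral.integral_const, smul_eq_mul] at h1
    have : 0 < (b - t) * ((u t - v t) / 2) := mul_pos (by linarith) (by linarith)
    linarith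
  intro t ht
  exact le_antisymm (key u v hu hv h t ht)
    (key v u hv hu (fun a b h1 h2 h3 => (h a b h1 h2 h3).symm) t ht)

theorem dens_int (hD : StDens) (hV : StVol) {n : ℕ} (hn : 3 ≤ n) (e : Edge n) {a b : ℝ}
    (ha : 0 < a) (hab : a < b) (hb : b < 2) :
    vol {x | x ∈ M 0 n ∧ a < x e ∧ x e < b} = vol (M 0 n) * ∫ t in a..b, dens 0 n e t := by
  obtain ⟨hc, -, -, -, h⟩ := hD 0 n e le_rfl (by norm_num) hn
  obtain ⟨-, h2⟩ := h a b ha.le hab.le hb.le
  obtain ⟨-, -, htop, hv1⟩ := hV 0 n le_rfl (by norm_num)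
  have hv0 : 0 < vol (M 0 n) := by linarith
  rw [← h2]
  have heq : vol {x | x ∈ M 0 n ∧ a < x e ∧ x e < b} = vol {x | x ∈ M 0 n ∧ a < x e ∧ x e ≤ b} := by
    unfold vol
    congr 1
    refine measure_congr ?_
    have hnull : (volume : Measure (Edge n → ℝ)) {x | x e = b} = 0 := by
      have := Measure.pi_hyperplane (fun _ : Edge n => (volume : Measure ℝ)) e b
      exact this
    have hae : ∀ᵐ x : Edge n → ℝ, x e ≠ b := by
      rw [ae_iff]; simpa using hnull
    filter_upwards [hae] with x hx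
    simp only [eq_iff_iff]
    show (x ∈ M 0 n ∧ a < x e ∧ x e < b) ↔ (x ∈ M 0 n ∧ a < x e ∧ x e ≤ b)
    constructor
    · rintro ⟨h1, h2, h3⟩; exact ⟨h1, h2, h3.le⟩
    · rintro ⟨h1, h2, h3⟩; exact ⟨h1, h2, lt_of_le_of_ne h3 hx⟩
  rw [heq]
  field_simp

theorem isDensity_iff (hD : StDens) (hV : StVol) {n : ℕ} (hn : 3 ≤ n) (i j : Fin n)
    (hij : i ≠ j) (f : ℝ → ℝ) (hf : IsDensity n i j f) :
    ∀ t ∈ Ioo (0 : ℝ) 2, f t = dens 0 n (edge i j hij) t := by
  obtain ⟨h1, h2, h3⟩ := hf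
  refine eq_of_int h1 (hD 0 n _ le_rfl (by norm_num) hn).1 fun a b ha hab hb => ?_
  have h := h3 a b ha hab hb
  have e1 := vol_eq n (fun y => a < y ∧ y < b) i j
  rw [e1, vol_eq' n] at h
  obtain ⟨-, -, htop, hv1⟩ := hV 0 n le_rfl (by norm_num)
  have hv0 : 0 < vol (M 0 n) := by linarith
  have h4 : vol {x | x ∈ M 0 n ∧ a < ext 0 x i j ∧ ext 0 x i j < b} =
      vol (M 0 n) * ∫ t in a..b, dens 0 n (edge i j hij) t := by
    rw [← dens_int hD hV hn (edge i j hij) ha hab hb]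
    congr 1
    ext x
    simp only [mem_ofPred_eq, ext_ne 0 x hij]
  rw [h4] at h
  exact (mul_left_cancel₀ hv0.ne' h).symm

theorem exists_density (hD : StDens) (hV : StVol) {n : ℕ} (hn : 3 ≤ n) (i j : Fin n)
    (hij : i ≠ j) : ∃ f, IsDensity n i j f := by
  classical
  set e := edge i j hij
  refine ⟨fun t => if t ∈ Ioo (0 : ℝ) 2 then dens 0 n e t else 0, ?_, ?_, ?_⟩
  · refine (hD 0 n e le_rfl (by norm_num) hn).1.congr fun t ht => ?_
    simp [ht.1, ht.2]
  · intro t ht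
    have : t ∉ Ioo (0 : ℝ) 2 := by
      rintro ⟨h1, h2⟩
      rcases ht with h | h
      · linarith
      · linarith
    simp only [this, if_false]
  · intro a b ha hab hb
    have e1 := vol_eq n (fun y => a < y ∧ y < b) i j
    rw [e1, vol_eq' n]
    have h4 : vol {x | x ∈ M 0 n ∧ a < ext 0 x i j ∧ ext 0 x i j < b} =
        vol {x | x ∈ M 0 n ∧ a < x e ∧ x e < b} := by
      congr 1
      ext x
      simp only [mem_ofPred_eq, ext_ne 0 x hij]
      rfl
    rw [h4, dens_int hD hV hn e ha hab hb]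
    congr 1
    refine intervalIntegral.integral_congr fun t ht => ?_
    rw [uIcc_of_le hab.le] at ht
    have : t ∈ Ioo (0 : ℝ) 2 := ⟨ha.trans_le ht.1, ht.2.trans_lt hb⟩
    simp [this.1, this.2]


/-! ### two points -/

theorem pair2 (p : Pair 2) : p = ⟨(0, 1), by decide⟩ := by
  obtain ⟨⟨i, j⟩, h⟩ := p
  have h' : i < j := h
  have hi : i = 0 := by omega
  have hj : j = 1 := by omega
  subst hi hj
  rfl

instance : Unique (Pair 2) := ⟨⟨⟨(0, 1), by decide⟩⟩, pair2⟩

theorem dd2 (x : Pair 2 → ℝ) (i j : Fin 2) (hij : i ≠ j) : dd x i j = x default := by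
  unfold dd
  split_ifs with h h'
  · exact congrArg x (Subsingleton.elim _ _)
  · exact congrArg x (Subsingleton.elim _ _)
  · exact absurd (le_antisymm (not_lt.1 h') (not_lt.1 h)) hij

theorem dd2' (x : Pair 2 → ℝ) (i : Fin 2) : dd x i i = 0 := by simp [dd]

theorem mem2 (x : Pair 2 → ℝ) : x ∈ MetricPolytope 2 ↔ 0 < x default ∧ x default ≤ 2 := by
  constructor
  · rintro ⟨h, -⟩
    have := h 0 1 (by decide)
    rwa [dd2 x 0 1 (by decide)] at this
  · intro h
    have hd : ∀ i j, 0 ≤ dd x i j := by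
      intro i j
      by_cases hij : i = j
      · subst hij; rw [dd2']
      · rw [dd2 x i j hij]; exact h.1.le
    refine ⟨fun i j hij => by rwa [dd2 x i j hij], fun i j k => ?_⟩
    by_cases hij : i = j
    · subst hij; rw [dd2']; exact add_nonneg (hd _ _) (hd _ _)
    · by_cases hik : i = k
      · subst hik; rw [dd2']; simp
      · have hkj : k = j := by omega
        subst hkj; rw [dd2' x k]; simp

theorem vol2 (A : Set ℝ) : volume {x : Pair 2 → ℝ | x default ∈ A} = volume A := by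
  have h := (volume_preserving_funUnique (Pair 2) ℝ).measure_preimage_equiv A
  rw [← h]
  rfl

theorem exists_density2 (i j : Fin 2) (hij : i ≠ j) : ∃ f, IsDensity 2 i j f := by
  classical
  refine ⟨fun t => if t ∈ Ioo (0 : ℝ) 2 then 1 / 2 else 0, ?_, ?_, ?_⟩
  · refine (continuousOn_const (c := (1 / 2 : ℝ))).congr fun t ht => ?_
    simp [ht.1, ht.2]
  · intro t ht
    have : t ∉ Ioo (0 : ℝ) 2 := by
      rintro ⟨h1, h2⟩
      rcases ht with h | h
      · linarith
      · linarith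
    simp only [this, if_false]
  · intro a b ha hab hb
    have e1 : {x : Pair 2 → ℝ | x ∈ MetricPolytope 2 ∧ a < dd x i j ∧ dd x i j < b} =
        {x : Pair 2 → ℝ | x default ∈ Ioo a b} := by
      ext x
      show (x ∈ MetricPolytope 2 ∧ a < dd x i j ∧ dd x i j < b) ↔ x default ∈ Ioo a b
      rw [mem2, dd2 x i j hij, mem_Ioo]
      constructor
      · rintro ⟨-, h⟩; exact h
      · rintro ⟨h1, h2⟩; exact ⟨⟨by linarith, by linarith⟩, h1, h2⟩
    have e2 : MetricPolytope 2 = {x : Pair 2 → ℝ | x default ∈ Ioc (0 : ℝ) 2} := by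
      ext x; rw [mem2]; rfl
    rw [e1, e2, vol2, vol2, Real.volume_Ioo, Real.volume_Ioc,
      ENNReal.toReal_ofReal (by linarith), ENNReal.toReal_ofReal (by norm_num)]
    have : ∫ t in a..b, (if t ∈ Ioo (0 : ℝ) 2 then (1 / 2 : ℝ) else 0) = ∫ t in a..b, (1 / 2 : ℝ) := by
      refine intervalIntegral.integral_congr fun t ht => ?_
      rw [uIcc_of_le hab.le] at ht
      have : t ∈ Ioo (0 : ℝ) 2 := ⟨ha.trans_le ht.1, ht.2.trans_lt hb⟩
      simp [this.1, this.2]
    rw [this]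
    simp
    ring

/-! ### the number of edges -/

theorem card_pair (n : ℕ) : (Fintype.card (Edge n) : ℝ) = (n : ℝ) * ((n : ℝ) - 1) / 2 := by
  have h1 : Fintype.card (Edge n) = ∑ k : Fin n, (k : ℕ) := by
    have e : Edge n ≃ (Σ k : Fin n, Fin (k : ℕ)) :=
      { toFun := fun e => ⟨e.b, ⟨(e.a : ℕ), e.lt⟩⟩
        invFun := fun s => ⟨⟨(s.2 : ℕ), s.2.2.trans s.1.2⟩, s.1, s.2.2⟩
        left_inv := fun e => rfl
        right_inv := fun s => rfl }
    rw [Fintype.card_congr e, Fintype.card_sigma]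
    simp
  rw [h1]
  push_cast
  rw [Fin.sum_univ_eq_sum_range (fun k => (k : ℝ)) n]
  clear h1
  induction n with
  | zero => simp
  | succ n ih =>
    rw [Finset.sum_range_succ, ih]
    push_cast
    ring


/-! ### convergence -/

theorem eventually_sqrt (b : ℝ) : ∀ᶠ n : ℕ in atTop, b < Real.sqrt n :=
  (Real.tendsto_sqrt_atTop.comp tendsto_natCast_atTop_atTop).eventually_gt_atTop b

theorem mul_rr (t : ℝ) (n : ℕ) : t * rr n = t / Real.sqrt n := by
  unfold rr; ring

theorem mem_of {t : ℝ} {n : ℕ} (ht : 0 ≤ t) (h : t < Real.sqrt n) :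
    1 - t / Real.sqrt n ∈ Ioo (0 : ℝ) 2 := by
  have hs : 0 < Real.sqrt n := ht.trans_lt h
  have h1 : t / Real.sqrt n < 1 := (div_lt_one hs).2 h
  have h2 : 0 ≤ t / Real.sqrt n := by positivity
  exact ⟨by linarith, by linarith⟩

theorem unif (hD : StDens) (hV : StVol) {g : ℝ → ℝ}
    (hun : ∀ b ρ : ℝ, 0 < ρ → ∀ᶠ n : ℕ in atTop, ∀ (e : Edge n), ∀ t ∈ Icc (0 : ℝ) b,
      |dens 0 n e (1 - t * rr n) - g t| ≤ ρ) (f : ℕ → ℝ → ℝ)
    (hf : ∀ (n : ℕ) (h : 2 ≤ n), IsDensity n ⟨0, by omega⟩ ⟨1, by omega⟩ (f n)) (b : ℝ) :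
    TendstoUniformlyOn (fun (n : ℕ) t => f n (1 - t / Real.sqrt n)) g atTop (Icc 0 b) := by
  rw [Metric.tendstoUniformlyOn_iff]
  intro ε hε
  filter_upwards [hun b (ε / 2) (by linarith), eventually_sqrt b, eventually_ge_atTop 3]
    with n h1 h2 h3 t ht
  have hne : (⟨0, by omega⟩ : Fin n) ≠ ⟨1, by omega⟩ := by
    intro h; simpa using congrArg Fin.val h
  have hm := mem_of ht.1 (ht.2.trans_lt h2)
  rw [isDensity_iff hD hV h3 _ _ hne (f n) (hf n (by omega)) _ hm, ← mul_rr, dist_comm,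
    Real.dist_eq]
  exact (h1 _ t ht).trans_lt (by linarith)

theorem meas {f : ℝ → ℝ} (hf : ContinuousOn f (Ioo 0 2)) (h0 : ∀ t, t ≤ 0 → f t = 0) {s : ℝ}
    (hs : 0 < s) : AEStronglyMeasurable (fun t => f (1 - t / s)) (volume.restrict (Ioi 0)) := by
  have h1 : ContinuousOn (fun t => f (1 - t / s)) (Ioo 0 s) := by
    refine hf.comp (by fun_prop) fun t ht => ?_
    have h1 : t / s < 1 := (div_lt_one hs).2 ht.2
    have h2 : 0 < t / s := div_pos ht.1 hs
    exact ⟨by linarith, by linarith⟩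
  have h2 : AEStronglyMeasurable (fun t => f (1 - t / s)) (volume.restrict (Ioo 0 s)) :=
    h1.aestronglyMeasurable measurableSet_Ioo
  have h3 : AEStronglyMeasurable ((Ioo 0 s).indicator (fun t => f (1 - t / s)))
      (volume.restrict (Ioi 0)) := by
    refine AEStronglyMeasurable.restrict ?_
    exact (aestronglyMeasurable_indicator_iff measurableSet_Ioo).2 h2
  refine h3.congr ?_
  filter_upwards [ae_restrict_mem measurableSet_Ioi] with t ht
  by_cases h : t < s
  · rw [indicator_of_mem (show t ∈ Ioo 0 s from ⟨ht, h⟩)]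
  · rw [indicator_of_notMem (fun h' : t ∈ Ioo 0 s => h h'.2)]
    have : 1 ≤ t / s := (one_le_div hs).2 (not_lt.1 h)
    rw [h0 _ (by linarith)]

theorem l1 (hD : StDens) (hV : StVol) {g : ℝ → ℝ} {C : ℝ} (hC : 0 < C)
    (hgc : ContinuousOn g (Ici 0))
    (hg : ∀ t, 0 ≤ t → 0 < g t ∧ g t ≤ 1 ∧ g t ≤ 2 * Real.exp (-(t / C)))
    (hub : ∀ᶠ n : ℕ in atTop, ∀ (e : Edge n), ∀ t, 0 ≤ t → dens 0 n e (1 - t * rr n) ≤
      2 * Real.exp (-(t / C)))
    (hun : ∀ b ρ : ℝ, 0 < ρ → ∀ᶠ n : ℕ in atTop, ∀ (e : Edge n), ∀ t ∈ Icc (0 : ℝ) b,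
      |dens 0 n e (1 - t * rr n) - g t| ≤ ρ) (f : ℕ → ℝ → ℝ)
    (hf : ∀ (n : ℕ) (h : 2 ≤ n), IsDensity n ⟨0, by omega⟩ ⟨1, by omega⟩ (f n)) :
    Tendsto (fun n : ℕ => ∫ t in Ioi (0 : ℝ), |f n (1 - t / Real.sqrt n) - g t|) atTop
      (𝓝 0) := by
  suffices key : Tendsto (fun n : ℕ => ∫ t in Ioi (0 : ℝ), |f n (1 - t / Real.sqrt n) - g t|)
      atTop (𝓝 (∫ t in Ioi (0 : ℝ), (0 : ℝ))) by simpa using key
  refine tendsto_integral_filter_of_dominated_convergence (ι := ℕ) (l := atTop)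
    (μ := volume.restrict (Ioi (0 : ℝ)))
    (F := fun (n : ℕ) (t : ℝ) => |f n (1 - t / Real.sqrt n) - g t|) (f := fun _ => (0 : ℝ))
    (fun t => 4 * Real.exp (-(1 / C) * t)) ?_ ?_ ?_ ?_
  · filter_upwards [eventually_ge_atTop 3] with n hn
    have hs : 0 < Real.sqrt n := Real.sqrt_pos.2 (by exact_mod_cast (by omega : 0 < n))
    have h1 := meas (hf n (by omega)).1 (fun t ht => (hf n (by omega)).2.1 t (Or.inl ht)) hs
    have h2 : AEStronglyMeasurable g (volume.restrict (Ioi 0)) :=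
      (hgc.mono Ioi_subset_Ici_self).aestronglyMeasurable measurableSet_Ioi
    exact (h1.sub h2).norm
  · filter_upwards [hub, eventually_ge_atTop 3] with n h1 h3
    filter_upwards [ae_restrict_mem measurableSet_Ioi] with t ht
    have ht0 : (0 : ℝ) ≤ t := le_of_lt ht
    have hs : 0 < Real.sqrt n := Real.sqrt_pos.2 (by exact_mod_cast (by omega : 0 < n))
    have hne : (⟨0, by omega⟩ : Fin n) ≠ ⟨1, by omega⟩ := by
      intro h; simpa using congrArg Fin.val h
    have he : Real.exp (-(t / C)) = Real.exp (-(1 / C) * t) := by congr 1; ring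
    have hfb : 0 ≤ f n (1 - t / Real.sqrt n) ∧
        f n (1 - t / Real.sqrt n) ≤ 2 * Real.exp (-(1 / C) * t) := by
      by_cases h : t < Real.sqrt n
      · rw [isDensity_iff hD hV h3 _ _ hne (f n) (hf n (by omega)) _ (mem_of ht0 h), ← mul_rr,
          ← he]
        exact ⟨(hD 0 n _ le_rfl (by norm_num) h3).2.1 _, h1 _ t ht0⟩
      · have : 1 ≤ t / Real.sqrt n := (one_le_div hs).2 (not_lt.1 h)
        rw [(hf n (by omega)).2.1 _ (Or.inl (by linarith))]
        exact ⟨le_rfl, by positivity⟩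
    have hgb := hg t ht0
    rw [he] at hgb
    rw [Real.norm_eq_abs, abs_abs, abs_le]
    have := Real.exp_pos (-(1 / C) * t)
    constructor
    · linarith [hgb.2.2, hfb.1]
    · linarith [hgb.1, hfb.2]
  · have := (exp_neg_integrableOn_Ioi 0 (by positivity : (0 : ℝ) < 1 / C)).const_mul 4
    exact this
  · filter_upwards [ae_restrict_mem measurableSet_Ioi] with t ht
    have ht0 : (0 : ℝ) ≤ t := le_of_lt ht
    have h := (unif hD hV hun f hf t).tendsto_at (right_mem_Icc.2 ht0)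
    have h2 : Tendsto (fun n : ℕ => f n (1 - t / Real.sqrt n) - g t) atTop (𝓝 (g t - g t)) :=
      h.sub_const (g t)
    rw [sub_self] at h2
    simpa using h2.abs

theorem volconv {v : ℝ} (hv : Tendsto vv atTop (𝓝 v)) :
    Tendsto (fun n : ℕ => Real.log (volume (MetricPolytope n)).toReal / (n : ℝ) ^ (3 / 2 : ℝ))
      atTop (𝓝 (v / 2)) := by
  have h1 : Tendsto (fun n : ℕ => ((n : ℝ) - 1) / n) atTop (𝓝 1) := by
    have h := tendsto_one_div_atTop_nhds_zero_nat (𝕜 := ℝ)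
    have h2 : Tendsto (fun n : ℕ => (1 : ℝ) - 1 / n) atTop (𝓝 (1 - 0)) := h.const_sub 1
    rw [sub_zero] at h2
    refine h2.congr' ?_
    filter_upwards [eventually_ge_atTop 1] with n hn
    have : (n : ℝ) ≠ 0 := by exact_mod_cast (by omega : n ≠ 0)
    field_simp
  have h2 : Tendsto (fun n : ℕ => vv n * (((n : ℝ) - 1) / n / 2)) atTop (𝓝 (v * (1 / 2))) :=
    hv.mul (h1.div_const 2)
  have h3 : v * (1 / 2) = v / 2 := by ring
  rw [h3] at h2
  refine h2.congr' ?_
  filter_upwards [eventually_ge_atTop 2] with n hn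
  have hn0 : (0 : ℝ) < n := by exact_mod_cast (by omega : 0 < n)
  have hn1 : (1 : ℝ) < n := by exact_mod_cast (by omega : 1 < n)
  have hs : 0 < Real.sqrt n := Real.sqrt_pos.2 hn0
  have hpow : (n : ℝ) ^ (3 / 2 : ℝ) = n * Real.sqrt n := by
    rw [show (3 / 2 : ℝ) = 1 + 1 / 2 by norm_num, Real.rpow_add hn0, Real.rpow_one,
      Real.sqrt_eq_rpow]
  rw [vol_eq', hpow]
  unfold vv
  rw [card_pair]
  unfold rr
  have h4 : ((n : ℝ) - 1) ≠ 0 := by linarith
  field_simp
  rw [Real.sq_sqrt hn0.le]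

end Pool.Agent.Lib.MP_193d8d_pr.FinAux

namespace Pool.Agent.Lib.MP_193d8d_pr

open FinAux

theorem stMain (hD : StDens) (hV : StVol) (hC : StConv) : ConvStatement := by
  obtain ⟨g, C, hC0, hgc, hg, hub, hun⟩ := hC
  refine ⟨g, C, hC0, hgc, hg, ?_, ?_⟩
  · intro n i j hij
    rcases Nat.lt_or_ge n 3 with h | h
    · have : n = 2 := by
        have h1 : n ≠ 0 := by rintro rfl; exact i.elim0
        have h2 : n ≠ 1 := by rintro rfl; exact hij (Subsingleton.elim _ _)
        omega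
      subst this
      exact exists_density2 i j hij
    · exact exists_density hD hV h i j hij
  · intro f hf
    have hu := unif hD hV hun f hf
    refine ⟨fun t ht => (hu t).tendsto_at (right_mem_Icc.2 ht), hu, ?_⟩
    exact l1 hD hV hC0 hgc hg hub hun f hf

theorem stVolMain (hL : StVlim) : VolStatement := by
  obtain ⟨v, hv⟩ := hL
  exact ⟨v / 2, volconv hv⟩

end Pool.Agent.Lib.MP_193d8d_pr
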