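import Pool.Agent.Lib.MP_193d8d_pr.StA
import Pool.Agent.Lib.MP_193d8d_pr.StB
import Pool.Agent.Lib.MP_193d8d_pr.Base

set_option autoImplicit false
open MeasureTheory Set

namespace Pool.Agent.Lib.MP_193d8d_pr

namespace GapLowAux

theorem cherry_nonneg {n : ℕ} (v : Edge n → ℝ) (e : Edge n) : 0 ≤ cherry v e := sup0_nonneg _

theorem le_cherry {n : ℕ} (v : Edge n → ℝ) (e : Edge n) (k : Fin n) (h1 : k ≠ e.a)
    (h2 : k ≠ e.b) : ext 0 v e.a k + ext 0 v k e.b ≤ cherry v e := by
  have h := le_sup0 (fun k : Fin n => if k = e.a ∨ k = e.b then 0 else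
    ext 0 v e.a k + ext 0 v k e.b) k
  simp only [h1, h2, or_self, if_false] at h
  exact h

theorem cherry_le {n : ℕ} (v : Edge n → ℝ) (e : Edge n) {b : ℝ} (hb : 0 ≤ b)
    (h : ∀ k, k ≠ e.a → k ≠ e.b → ext 0 v e.a k + ext 0 v k e.b ≤ b) : cherry v e ≤ b := by
  refine sup0_le hb fun k => ?_
  by_cases h1 : k = e.a ∨ k = e.b
  · rw [if_pos h1]
    exact hb
  · rw [if_neg h1]
    push Not at h1
    exact h k h1.1 h1.2

theorem ext_sub {n : ℕ} (v u : Edge n → ℝ) (i j : Fin n) :
    ext 0 (fun f => v f - u f) i j = ext 0 v i j - ext 0 u i j := by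
  unfold ext
  split_ifs <;> simp

/-- the convexity gap is nonnegative -/
theorem gap_nonneg {n : ℕ} (u v : Edge n → ℝ) (e : Edge n) : 0 ≤ gap u v e := by
  unfold gap lin
  by_cases hc : 0 < cherry u e
  · rw [if_pos hc]
    have hne : (amax u e).Nonempty := by
      rcases sup0_eq (fun k : Fin n => if k = e.a ∨ k = e.b then 0 else
        ext 0 u e.a k + ext 0 u k e.b) with h | ⟨k, hk⟩
      · exact absurd h hc.ne'
      · by_cases h1 : k = e.a ∨ k = e.b
        · rw [if_pos h1] at hk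
          exact absurd hk hc.ne'
        · rw [if_neg h1] at hk
          push Not at h1
          refine ⟨k, ?_⟩
          unfold amax
          rw [Finset.mem_filter]
          exact ⟨Finset.mem_univ _, h1.1, h1.2, hk.symm⟩
    have hcard : 0 < ((amax u e).card : ℝ) := by exact_mod_cast hne.card_pos
    have hsum : (∑ k ∈ amax u e, (ext 0 (fun f => v f - u f) e.a k +
        ext 0 (fun f => v f - u f) k e.b)) ≤ (amax u e).card * (cherry v e - cherry u e) := by
      rw [← nsmul_eq_mul]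
      refine Finset.sum_le_card_nsmul _ _ _ fun k hk => ?_
      unfold amax at hk
      rw [Finset.mem_filter] at hk
      obtain ⟨-, h1, h2, h3⟩ := hk
      have h4 := le_cherry v e k h1 h2
      rw [ext_sub, ext_sub]
      linarith
    have h5 : (∑ k ∈ amax u e, (ext 0 (fun f => v f - u f) e.a k +
        ext 0 (fun f => v f - u f) k e.b)) / ((amax u e).card : ℝ) ≤ cherry v e - cherry u e := by
      rw [div_le_iff₀ hcard]
      linarith
    linarith
  · rw [if_neg hc]
    have h1 := cherry_nonneg v e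
    have h2 := not_lt.1 hc
    linarith

/-- telescoping along the levels in `[γ, Γ]` -/
theorem tel (δ γ Γ : ℝ) (hδ : 0 < δ) (f : ℕ → ℝ) (a b : ℕ) (hab : a ≤ b) (hb : b ≤ md δ)
    (ha : γ ≤ ((a : ℝ) + 1) * δ) (hb' : ((b : ℝ) + 1) * δ ≤ Γ) :
    |f a - f b| ≤ ∑ i ∈ rg δ γ Γ, |f i - f (i + 1)| := by
  have h1 : f a - f b = ∑ i ∈ Finset.Ico a b, (f i - f (i + 1)) := by
    have h := Finset.sum_Ico_sub (fun i => -f i) hab
    have h2 : ∑ i ∈ Finset.Ico a b, (f i - f (i + 1)) =
        ∑ i ∈ Finset.Ico a b, (-f (i + 1) - -f i) :=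
      Finset.sum_congr rfl fun i _ => by ring
    rw [h2, h]
    ring
  rw [h1]
  refine (Finset.abs_sum_le_sum_abs _ _).trans ?_
  refine Finset.sum_le_sum_of_subset_of_nonneg ?_ fun i _ _ => abs_nonneg _
  intro i hi
  rw [Finset.mem_Ico] at hi
  unfold rg
  rw [Finset.mem_filter, Finset.mem_range]
  have e1 : (a : ℝ) ≤ i := by exact_mod_cast hi.1
  have e2 : (i : ℝ) ≤ b := by exact_mod_cast hi.2.le
  refine ⟨lt_of_lt_of_le hi.2 hb, ha.trans ?_, le_trans ?_ hb'⟩
  · exact mul_le_mul_of_nonneg_right (by linarith) hδ.le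
  · exact mul_le_mul_of_nonneg_right (by linarith) hδ.le

theorem tel' (δ γ Γ : ℝ) (hδ : 0 < δ) (f : ℕ → ℝ) (a b : ℕ) (ha' : a ≤ md δ) (hb : b ≤ md δ)
    (ha : γ ≤ ((a : ℝ) + 1) * δ) (ha2 : ((a : ℝ) + 1) * δ ≤ Γ)
    (hb1 : γ ≤ ((b : ℝ) + 1) * δ) (hb2 : ((b : ℝ) + 1) * δ ≤ Γ) :
    |f a - f b| ≤ ∑ i ∈ rg δ γ Γ, |f i - f (i + 1)| := by
  rcases le_total a b with h | h
  · exact tel δ γ Γ hδ f a b h hb ha hb2
  · rw [abs_sub_comm]
    exact tel δ γ Γ hδ f b a h ha' hb1 ha2

end GapLowAux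

open GapLowAux in
theorem stGapLow : StGapLow := by
  intro δ n T γa Γ s ς i0 Z bad hδ hn hς hs hq hi0 hγ hΓ hZ hZbad hbad i j k hij hjk c
  have hK : 0 < Kd δ := by
    unfold Kd
    positivity
  set u : Edge n → ℝ := fun f => ref (Kd δ) n (qv T) (c f) with hu
  set v : Edge n → ℝ := val (Kd δ) n (ps T.Q (rr n) n) c with hv
  have hnn : 0 ≤ gap u v ⟨i, j, hij⟩ := gap_nonneg u v _
  by_cases hsp : spec (Fin.last (HH δ n)) Z bad c i j k = 0
  · rw [hsp, zero_mul]
    exact hnn
  have hik : i < k := hij.trans hjk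
  unfold spec at hsp
  rw [← Ne, mul_ne_zero_iff, mul_ne_zero_iff, Finset.prod_ne_zero_iff] at hsp
  obtain ⟨⟨h1, h2⟩, h3⟩ := hsp
  have h1' : ext (Fin.last (HH δ n)) c i k ∈ Z := by
    by_contra h
    exact h1 (if_neg h)
  have h2' : ext (Fin.last (HH δ n)) c j k ∈ Z := by
    by_contra h
    exact h2 (if_neg h)
  have h3' : ∀ k' : Fin n, k' ≠ i → k' ≠ j → k' ≠ k →
      (ext (Fin.last (HH δ n)) c i k', ext (Fin.last (HH δ n)) c j k') ∉ bad := by
    intro k' hi hj hk hmem
    refine h3 k' (Finset.mem_univ _) ?_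
    rw [if_neg (by tauto), if_pos hmem]
  have hspec : spec (Fin.last (HH δ n)) Z bad c i j k = 1 := by
    unfold spec
    rw [if_pos h1', if_pos h2', one_mul, one_mul]
    refine Finset.prod_eq_one fun k' _ => ?_
    by_cases hk : k' = i ∨ k' = j ∨ k' = k
    · rw [if_pos hk]
    · rw [if_neg hk]
      push Not at hk
      rw [if_neg (h3' k' hk.1 hk.2.1 hk.2.2)]
  rw [hspec, one_mul]
  rw [ext_of_lt _ _ hik] at h1'
  rw [ext_of_lt _ _ hjk] at h2'
  rw [ext_of_lt _ _ hik, ext_of_lt _ _ hjk, ext_of_lt _ _ hik, ext_of_lt _ _ hjk]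
  -- the other cherries are not positive
  have href : ∀ a b : Fin (HH δ n + 1), (a, b) ∉ bad →
      ref (Kd δ) n (qv T) a + ref (Kd δ) n (qv T) b ≤ 0 := by
    intro a b hab
    have hcls : ∀ a : Fin (HH δ n + 1), (a : ℕ) ≠ HH δ n → |qv T (cls n a)| ≤ Kd δ := by
      intro a ha
      refine hq _ ?_
      have := a.2
      unfold cls
      unfold HH at *
      omega
    unfold ref
    by_cases ha : (a : ℕ) = HH δ n
    · rw [if_pos ha]
      by_cases hb : (b : ℕ) = HH δ n
      · rw [if_pos hb]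
        linarith
      · rw [if_neg hb]
        have := (abs_le.1 (hcls b hb)).2
        linarith
    · rw [if_neg ha]
      by_cases hb : (b : ℕ) = HH δ n
      · rw [if_pos hb]
        have := (abs_le.1 (hcls a ha)).2
        linarith
      · rw [if_neg hb]
        by_contra hcon
        exact hab (hbad a b ha hb (not_le.1 hcon))
  have hother : ∀ k' : Fin n, k' ≠ i → k' ≠ j → k' ≠ k →
      ext 0 u i k' + ext 0 u k' j ≤ 0 := by
    intro k' hi hj hk
    have h := h3' k' hi hj hk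
    rw [ext_ne _ _ (Ne.symm hi), ext_ne _ _ (Ne.symm hj)] at h
    rw [ext_symm 0 u k' j, ext_ne _ _ (Ne.symm hi), ext_ne _ _ (Ne.symm hj)]
    exact href _ _ h
  -- the edges `i k` and `j k`
  have hedge : ∀ e : Edge n, c e ∈ Z → |v e - u e - (pos T e c i0 - qv T i0)| ≤ tv T γa Γ e c ∧
      |u e| ≤ s ∧ (ς = 1 → u e ≤ 0) ∧ (ς = -1 → 0 < u e) := by
    intro e he
    obtain ⟨z1, z2, z3, z4, z5, z6⟩ := hZ _ he
    have hue : u e = qv T (cls n (c e)) := by
      simp only [hu, ref]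
      rw [if_neg z1]
    have hve : v e = pos T e c (cls n (c e)) := by
      simp only [hv, val, pos]
      rw [if_neg z1]
    rw [hue, hve]
    refine ⟨?_, z4, z5, z6⟩
    have hc1 : cls n (c e) ≤ md δ := by
      have := (c e).2
      unfold cls
      unfold HH at *
      omega
    have h := tel' δ γa Γ hδ (fun i => pos T e c i - qv T i) (cls n (c e)) i0 hc1 hi0 z2 z3 hγ hΓ
    refine h.trans (le_of_eq ?_)
    unfold tv
    refine Finset.sum_congr rfl fun i _ => ?_
    congr 1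
    ring
  obtain ⟨a1, a2, a3, a4⟩ := hedge ⟨i, k, hik⟩ h1'
  obtain ⟨b1, b2, b3, b4⟩ := hedge ⟨j, k, hjk⟩ h2'
  rw [abs_le] at a1 a2 b1 b2
  have hvc : v ⟨i, k, hik⟩ + v ⟨j, k, hjk⟩ ≤ cherry v ⟨i, j, hij⟩ := by
    have h := le_cherry v ⟨i, j, hij⟩ k hik.ne' hjk.ne'
    simp only [] at h
    rw [ext_of_lt _ _ hik, ext_of_gt _ _ hjk] at h
    exact h
  refine (min_le_right _ _).trans (max_le hnn ?_)
  rcases hς with rfl | rfl
  · -- cherry u = 0
    have hu1 := a3 rfl
    have hu2 := b3 rfl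
    have hcu : cherry u ⟨i, j, hij⟩ = 0 := by
      refine le_antisymm (cherry_le u _ le_rfl fun k' hi hj => ?_) (cherry_nonneg _ _)
      simp only [] at hi hj ⊢
      by_cases hk : k' = k
      · subst hk
        rw [ext_of_lt _ _ hik, ext_of_gt _ _ hjk]
        linarith
      · exact hother k' hi hj hk
    have hgap : gap u v ⟨i, j, hij⟩ = cherry v ⟨i, j, hij⟩ := by
      unfold gap lin
      rw [hcu, if_neg (lt_irrefl _)]
      ring
    rw [hgap]
    linarith [a1.1, a1.2, b1.1, b1.2, a2.1, a2.2, b2.1, b2.2]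
  · have hu1 := a4 rfl
    have hu2 := b4 rfl
    have hck : ext 0 u i k + ext 0 u k j = u ⟨i, k, hik⟩ + u ⟨j, k, hjk⟩ := by
      rw [ext_of_lt _ _ hik, ext_of_gt _ _ hjk]
    have hcu : cherry u ⟨i, j, hij⟩ = u ⟨i, k, hik⟩ + u ⟨j, k, hjk⟩ := by
      refine le_antisymm (cherry_le u _ (by linarith) fun k' hi hj => ?_) ?_
      · simp only [] at hi hj ⊢
        by_cases hk : k' = k
        · subst hk
          exact hck.le
        · have := hother k' hi hj hk
          linarith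
      · have h := le_cherry u ⟨i, j, hij⟩ k hik.ne' hjk.ne'
        simp only [] at h
        rw [hck] at h
        exact h
    have hpos : 0 < cherry u ⟨i, j, hij⟩ := by
      rw [hcu]
      linarith
    have hamax : amax u ⟨i, j, hij⟩ = {k} := by
      ext k'
      unfold amax
      rw [Finset.mem_filter, Finset.mem_singleton]
      simp only []
      constructor
      · rintro ⟨-, hi, hj, heq⟩
        by_contra hk
        have := hother k' hi hj hk
        linarith
      · rintro rfl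
        exact ⟨Finset.mem_univ _, hik.ne', hjk.ne', by rw [hck, hcu]⟩
    have hgap : gap u v ⟨i, j, hij⟩ = cherry v ⟨i, j, hij⟩ -
        (v ⟨i, k, hik⟩ + v ⟨j, k, hjk⟩) := by
      unfold gap lin
      rw [if_pos hpos, hamax, Finset.sum_singleton, Finset.card_singleton, hcu, Nat.cast_one,
        div_one]
      simp only []
      rw [ext_of_lt _ _ hik, ext_of_gt _ _ hjk]
      ring
    have hcv := cherry_nonneg v ⟨i, j, hij⟩
    rw [hgap]
    linarith [a1.1, a1.2, b1.1, b1.2, a2.1, a2.2, b2.1, b2.2]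

end Pool.Agent.Lib.MP_193d8d_pr
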