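import Pool.Agent.Lib.MP_193d8d_pr.StA
import Pool.Agent.Lib.MP_193d8d_pr.StB
import Pool.Agent.Lib.MP_193d8d_pr.Base

set_option autoImplicit false

/-! Module GapNN: convexity of the cherry function. -/

namespace Pool.Agent.Lib.MP_193d8d_pr

namespace GapNNAux

theorem ext_sub {n : ℕ} (u v : Edge n → ℝ) (i j : Fin n) :
    ext 0 (fun f => v f - u f) i j = ext 0 v i j - ext 0 u i j := by
  unfold ext
  split_ifs <;> simp

theorem le_cherry {n : ℕ} (v : Edge n → ℝ) (e : Edge n) {k : Fin n} (ha : k ≠ e.a)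
    (hb : k ≠ e.b) : ext 0 v e.a k + ext 0 v k e.b ≤ cherry v e := by
  have h := le_sup0 (fun k : Fin n =>
    if k = e.a ∨ k = e.b then 0 else ext 0 v e.a k + ext 0 v k e.b) k
  rw [if_neg (not_or.2 ⟨ha, hb⟩)] at h
  exact h

theorem amax_nonempty {n : ℕ} (u : Edge n → ℝ) (e : Edge n) (h : 0 < cherry u e) :
    (amax u e).Nonempty := by
  rcases sup0_eq (fun k : Fin n =>
    if k = e.a ∨ k = e.b then 0 else ext 0 u e.a k + ext 0 u k e.b) with h0 | ⟨k, hk⟩
  · exact absurd h0 h.ne'
  · have hc : cherry u e = if k = e.a ∨ k = e.b then 0 else ext 0 u e.a k + ext 0 u k e.b := hk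
    by_cases hab : k = e.a ∨ k = e.b
    · rw [if_pos hab] at hc
      exact absurd hc h.ne'
    · rw [if_neg hab] at hc
      rw [not_or] at hab
      refine ⟨k, ?_⟩
      unfold amax
      rw [Finset.mem_filter]
      exact ⟨Finset.mem_univ _, hab.1, hab.2, hc.symm⟩

end GapNNAux

open GapNNAux in
theorem stGapNN : StGapNN := by
  intro n u v e
  unfold gap lin
  by_cases h : 0 < cherry u e
  · rw [if_pos h]
    have hcard : (0 : ℝ) < ((amax u e).card : ℝ) := by
      exact_mod_cast Finset.card_pos.2 (amax_nonempty u e h)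
    have hsum : ∑ k ∈ amax u e, (ext 0 (fun f => v f - u f) e.a k +
        ext 0 (fun f => v f - u f) k e.b) ≤
        ((amax u e).card : ℝ) * (cherry v e - cherry u e) := by
      rw [← nsmul_eq_mul]
      refine Finset.sum_le_card_nsmul _ _ _ fun k hk => ?_
      unfold amax at hk
      rw [Finset.mem_filter] at hk
      obtain ⟨-, ha, hb, hk⟩ := hk
      have h1 := le_cherry v e ha hb
      rw [ext_sub, ext_sub]
      linarith
    have hdiv : (∑ k ∈ amax u e, (ext 0 (fun f => v f - u f) e.a k +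
        ext 0 (fun f => v f - u f) k e.b)) / ((amax u e).card : ℝ) ≤
        cherry v e - cherry u e := by
      rw [div_le_iff₀ hcard, mul_comm]
      exact hsum
    linarith
  · rw [if_neg h]
    have h1 : 0 ≤ cherry v e := sup0_nonneg _
    linarith

end Pool.Agent.Lib.MP_193d8d_pr
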