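import Pool.Agent.Lib.MP_193d8d_pr.StA
import Pool.Agent.Lib.MP_193d8d_pr.StB
import Pool.Agent.Lib.MP_193d8d_pr.Base

set_option autoImplicit false
open MeasureTheory Set Filter Topology

namespace Pool.Agent.Lib.MP_193d8d_pr

namespace GoodAAux

/-- the two ends of the profile -/
theorem ends (C δ : ℝ) (hC : 1 ≤ C) (hδ : 0 < δ) (h : Real.sqrt δ * (2 * C + 4) ≤ 1) :
    C / Real.sqrt δ + (C - 1 / (2 * δ)) ≤ -2 := by
  have hs : 0 < Real.sqrt δ := Real.sqrt_pos.2 hδ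
  obtain ⟨x, hx⟩ : ∃ x, x = 1 / Real.sqrt δ := ⟨_, rfl⟩
  have hx1 : 2 * C + 4 ≤ x := by
    rw [hx, le_div_iff₀ hs]
    linarith
  have hx2 : 1 / (2 * δ) = x ^ 2 / 2 := by
    rw [hx, div_pow, one_pow, Real.sq_sqrt hδ.le]
    field_simp
  have hx3 : C / Real.sqrt δ = C * x := by
    rw [hx]
    ring
  rw [hx2, hx3]
  nlinarith

end GoodAAux

/-- E9 -/
theorem stGoodA (hA : StQa) (hB : StQb) (hC : StQc) : StGoodA := by
  obtain ⟨Ca, hCa, hA⟩ := hA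
  obtain ⟨Cb, hCb, hB⟩ := hB
  obtain ⟨Cc, hCc, hC⟩ := hC
  refine ⟨Ca + Cb + Cc, by linarith, ?_⟩
  obtain ⟨C0, hC0⟩ : ∃ C0, C0 = Ca + Cb + Cc := ⟨_, rfl⟩
  rw [← hC0]
  have ha : Ca ≤ C0 := by linarith
  have hb : Cb ≤ C0 := by linarith
  have hc : Cc ≤ C0 := by linarith
  have h1 : 1 ≤ C0 := by linarith
  have hsm : ∀ᶠ δ in 𝓝[>] (0 : ℝ), Real.sqrt δ * (2 * C0 + 4) ≤ 1 := by
    have h2 : Tendsto (fun δ : ℝ => Real.sqrt δ * (2 * C0 + 4)) (𝓝[>] (0 : ℝ)) (𝓝 0) := by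
      have h3 : Continuous (fun δ : ℝ => Real.sqrt δ * (2 * C0 + 4)) := by fun_prop
      have h4 := h3.tendsto 0
      rw [Real.sqrt_zero, zero_mul] at h4
      exact h4.mono_left nhdsWithin_le_nhds
    exact h2.eventually_le_const zero_lt_one
  filter_upwards [hA, hB, hC, self_mem_nhdsWithin, hsm] with δ hA hB hC hδ hsm
  have hδ : 0 < δ := hδ
  filter_upwards [hA, hB, hC] with n hA hB hC T
  obtain ⟨hA1, hA2, hA3, hA4⟩ := hA T
  have hB' := hB T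
  have hC' := hC T
  have hq0 := hA3 0 (Nat.zero_le _)
  refine ⟨hA1, hA2, fun i hi => ?_, fun i hi h => ?_, fun i hi => ?_, fun i hi => ?_, ?_⟩
  · refine (hA3 i hi).trans ?_
    exact div_le_div_of_nonneg_right ha (Real.sqrt_nonneg _)
  · linarith [hB' i hi h]
  · linarith [hA4 i hi]
  · refine (hC' i hi).trans ?_
    exact mul_le_mul_of_nonneg_left (mul_le_mul_of_nonneg_right hc (sq_nonneg _)) hδ.le
  · have hm : 1 / δ ^ 2 ≤ (md δ : ℝ) := Nat.le_ceil _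
    have hm2 : 1 / δ ≤ ((md δ : ℝ) + 1) * δ := by
      have h3 : 1 / δ = 1 / δ ^ 2 * δ := by field_simp
      rw [h3]
      exact mul_le_mul_of_nonneg_right (by linarith) hδ.le
    have hs : 0 < Real.sqrt δ := Real.sqrt_pos.2 hδ
    have hs1 : Real.sqrt δ ≤ 1 := by nlinarith
    have hδ1 : δ ≤ 1 := by
      rw [← Real.sq_sqrt hδ.le]
      exact pow_le_one₀ hs.le hs1
    have hm3 : 1 ≤ ((md δ : ℝ) + 1) * δ := by
      refine le_trans ?_ hm2
      rw [le_div_iff₀ hδ]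
      linarith
    have h5 := hB' (md δ) le_rfl hm3
    have h6 := GoodAAux.ends C0 δ h1 hδ hsm
    have h7 : Ca / Real.sqrt ((((0 : ℕ) : ℝ) + 1) * δ) ≤ C0 / Real.sqrt δ := by
      rw [Nat.cast_zero, zero_add, one_mul]
      exact div_le_div_of_nonneg_right ha hs.le
    have h8 : 1 / (2 * δ) ≤ ((md δ : ℝ) + 1) * δ / 2 := by
      have h9 : 1 / (2 * δ) = 1 / δ / 2 := by field_simp
      rw [h9]
      linarith
    linarith

end Pool.Agent.Lib.MP_193d8d_pr
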