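import Pool.Agent.Lib.MP_193d8d_pr.StA
import Pool.Agent.Lib.MP_193d8d_pr.StB
import Pool.Agent.Lib.MP_193d8d_pr.Base

set_option autoImplicit false
open MeasureTheory Set Filter Topology

namespace Pool.Agent.Lib.MP_193d8d_pr

namespace GoodBAux

theorem tendsto_rr : Tendsto rr atTop (𝓝 0) := by
  have h1 : rr = fun n : ℕ => (Real.sqrt (n : ℝ))⁻¹ := by
    funext n
    unfold rr
    rw [one_div]
  rw [h1]
  exact tendsto_inv_atTop_zero.comp (Real.tendsto_sqrt_atTop.comp tendsto_natCast_atTop_atTop)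

theorem rr_nonneg (n : ℕ) : 0 ≤ rr n := by
  unfold rr
  positivity

theorem cnt_nonneg (m : ℕ) (q : ℕ → ℝ) (s : ℝ) : 0 ≤ cnt m q s := Nat.cast_nonneg _

theorem cnt_le (m : ℕ) (q : ℕ → ℝ) (s : ℝ) : cnt m q s ≤ ((m : ℝ) + 1) ^ 2 := by
  unfold cnt
  have h1 : ((Finset.range (m + 1) ×ˢ Finset.range (m + 1)).filter
      (fun z => s < q z.1 + q z.2)).card ≤ (m + 1) * (m + 1) := by
    refine (Finset.card_filter_le _ _).trans ?_
    rw [Finset.card_product, Finset.card_range]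
  have h2 : ((((Finset.range (m + 1) ×ˢ Finset.range (m + 1)).filter
      (fun z => s < q z.1 + q z.2)).card : ℕ) : ℝ) ≤ (((m + 1) * (m + 1) : ℕ) : ℝ) := by
    exact_mod_cast h1
  push_cast at h2
  rw [pow_two]
  exact h2

theorem beta_nonneg (N : ℕ) (ρ : ℝ) (m : ℕ) (q : ℕ → ℝ) (hρ : 0 ≤ ρ) (h : (m + 1) * ρ ≤ 1) :
    0 ≤ beta N ρ m q := by
  unfold beta
  refine setIntegral_nonneg measurableSet_Ioi fun s _ => ?_
  have h1 : ρ ^ 2 * cnt m q s ≤ 1 := by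
    calc ρ ^ 2 * cnt m q s ≤ ρ ^ 2 * ((m : ℝ) + 1) ^ 2 :=
          mul_le_mul_of_nonneg_left (cnt_le m q s) (sq_nonneg ρ)
      _ = ((m + 1) * ρ) ^ 2 := by ring
      _ ≤ 1 := pow_le_one₀ (by positivity) h
  have h2 : 0 ≤ ρ ^ 2 * cnt m q s := mul_nonneg (sq_nonneg ρ) (cnt_nonneg m q s)
  have h3 : (1 - ρ ^ 2 * cnt m q s) ^ N ≤ 1 := pow_le_one₀ (by linarith) (by linarith)
  linarith

end GoodBAux

open GoodBAux in
/-- E12 -/
theorem stGoodB (h1 : StGoodA) (h2 : StSteepT) (h3 : StUpJ) (h4 : StSlackNN) (h5 : StVlow)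
    (h6 : StLamTail) : StGoodB := by
  obtain ⟨C0, hC0, hA⟩ := h1
  obtain ⟨C, hC, hU⟩ := h3
  obtain ⟨nv, hv⟩ := h5
  obtain ⟨c, hc0, hc1, hL⟩ := h6 C0 hC0
  have hS := h2 (1 / 4) 1 (by norm_num) one_pos
  refine ⟨C0, c / 4, hC0, by positivity, by linarith, ?_⟩
  have hCpos : 0 < C := by linarith
  have hsmall : ∀ᶠ δ in 𝓝[>] (0 : ℝ), δ ∈ Ioo (0 : ℝ) (min (c / 6) ((1 / (20 * C)) ^ 2)) :=
    Ioo_mem_nhdsGT (lt_min (by positivity) (by positivity))
  filter_upwards [hA, hU, hS, hsmall] with δ hAδ hUδ hSδ hδ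
  obtain ⟨hδ0, hδ1⟩ := hδ
  have hδc : δ < c / 6 := hδ1.trans_le (min_le_left _ _)
  have hδC : δ < (1 / (20 * C)) ^ 2 := hδ1.trans_le (min_le_right _ _)
  have hδ2 : δ ≤ 1 := by linarith
  have hsq : C * Real.sqrt δ ≤ 1 / 20 := by
    have h7 : Real.sqrt δ ≤ 1 / (20 * C) := by
      rw [← Real.sqrt_sq (show (0 : ℝ) ≤ 1 / (20 * C) by positivity)]
      exact Real.sqrt_le_sqrt hδC.le
    calc C * Real.sqrt δ ≤ C * (1 / (20 * C)) := mul_le_mul_of_nonneg_left h7 hCpos.le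
      _ = 1 / 20 := by
        field_simp
  have hr : ∀ᶠ n : ℕ in atTop, ((md δ : ℝ) + 1) * δ * rr n < 1 := by
    have h7 := (tendsto_rr.const_mul (((md δ : ℝ) + 1) * δ))
    rw [mul_zero] at h7
    exact h7.eventually_lt_const one_pos
  filter_upwards [hAδ, hUδ, hSδ, hr, eventually_ge_atTop (max nv 3)] with n hAn hUn hSn hrn hn T
  have hnv : nv ≤ n := (le_max_left _ _).trans hn
  have hn3 : 3 ≤ n := (le_max_right _ _).trans hn
  refine ⟨hAn T, ?_⟩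
  obtain ⟨hsA, hsB⟩ := h4 δ n T hδ0 hn3 hrn
  have hLam : 1 / 10 ≤ Lam δ (md δ) (qv T) := by
    have h7 := hUn T
    have h8 := hv n hnv
    have h9 : Jn δ n (qv T) = Lam δ (md δ) (qv T) - beta (n - 2) (δ * rr n) (md δ) (qv T) := rfl
    have h10 := beta_nonneg (n - 2) (δ * rr n) (md δ) (qv T) (mul_nonneg hδ0.le (rr_nonneg n))
      (by rw [← mul_assoc]; exact hrn.le)
    rw [h9] at h7
    linarith
  have hpos := hL δ (qv T) hδ0 hδ2 (hAn T) hLam
  have hst := hSn T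
  intro i hi hic
  set J : ℕ := ⌊3 * c / 4 / δ⌋₊ with hJ
  have hJ1 : (J : ℝ) * δ ≤ 3 * c / 4 := by
    rw [← le_div_iff₀ hδ0]
    exact Nat.floor_le (by positivity)
  have hJ2 : 3 * c / 4 < ((J : ℝ) + 1) * δ := by
    rw [← div_lt_iff₀ hδ0]
    exact Nat.lt_floor_add_one _
  have hiJ : i + 1 ≤ J := by
    have h7 : ((i : ℝ) + 1) * δ < ((J : ℝ) + 1) * δ := by linarith
    have h8 : (i : ℝ) + 1 < (J : ℝ) + 1 := lt_of_mul_lt_mul_right h7 hδ0.le
    have h9 : i + 1 < J + 1 := by exact_mod_cast h8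
    omega
  obtain ⟨j, hj⟩ : ∃ j, J = j + 1 := ⟨J - 1, by omega⟩
  rw [hj] at hJ1 hJ2 hiJ
  push_cast at hJ1 hJ2
  have hjm : j < md δ := by
    have h7 : ((j : ℝ) + 1) ≤ 1 / δ ^ 2 := by
      rw [le_div_iff₀ (by positivity)]
      calc ((j : ℝ) + 1) * δ ^ 2 = ((j : ℝ) + 1) * δ * δ := by ring
        _ ≤ 1 * 1 := mul_le_mul (by linarith) hδ2 hδ0.le zero_le_one
        _ = 1 := one_mul 1
    have h8 : ((j : ℝ) + 1) ≤ (md δ : ℝ) := h7.trans (Nat.le_ceil _)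
    have h9 : j + 1 ≤ md δ := by exact_mod_cast h8
    omega
  have hind : ∀ l, i ≤ l → l ≤ j → qv T l + 3 / 4 * (((l : ℝ) - i) * δ) ≤ qv T i := by
    intro l hl
    induction l, hl using Nat.le_induction with
    | base =>
      intro _
      rw [sub_self]
      linarith
    | succ l hl ih =>
      intro hlj
      have h7 := ih (by omega)
      have h8 : ((l : ℝ) + 1) * δ ≤ ((j : ℝ) + 1) * δ := by
        refine mul_le_mul_of_nonneg_right ?_ hδ0.le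
        have : (l : ℝ) + 1 ≤ j := by exact_mod_cast hlj
        linarith
      have h9 := hst l (by omega) (by linarith)
      push_cast
      linarith
  have hfin := hind j (by omega) le_rfl
  have hqj := hpos j hjm.le (by linarith)
  have h7 : ((j : ℝ) - i) * δ = ((j : ℝ) + 1) * δ - ((i : ℝ) + 1) * δ := by ring
  rw [h7] at hfin
  linarith

end Pool.Agent.Lib.MP_193d8d_pr
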