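import Pool.Agent.Lib.MP_193d8d_pr.IncrBase

set_option autoImplicit false
open MeasureTheory Set

namespace Pool.Agent.Lib.MP_193d8d_pr

open IncrBase in
/-- F2 -/
theorem stIncQ : StIncQ := by
  intro C0 γa Γ ρ hC0 hγ hγΓ hρ
  set Ym : ℝ := C0 * (1 + 1 / γa) ^ 2 with hYm
  have hYm1 : 1 ≤ Ym := by
    have h1 : 0 < 1 / γa := by positivity
    have h2 : 1 ≤ (1 + 1 / γa) ^ 2 := by nlinarith
    calc (1 : ℝ) = 1 * 1 := by ring
      _ ≤ C0 * (1 + 1 / γa) ^ 2 := by gcongr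
  have hΓ : 0 < Γ := hγ.trans hγΓ
  obtain ⟨τ, hτ, hτρ⟩ := exists_tau Ym Γ (ρ / 2) (by positivity)
  refine ⟨τ, hτ, fun δ q q' hδ _ hg hg' hst hst' hL => ?_⟩
  set w : Fin 2 → ℝ := fun _ => 1 / 2 with hw
  have hw0 : ∀ z, 0 ≤ w z := fun _ => by rw [hw]; norm_num
  have hw1 : ∑ z, w z = 1 := by rw [hw, Fin.sum_univ_two]; norm_num
  set y : ℕ → Fin 2 → ℝ := fun i z =>
    if z = 0 then (q i - q (i + 1)) / δ else (q' i - q' (i + 1)) / δ with hy
  have hy0 : ∀ i, y i 0 = (q i - q (i + 1)) / δ := fun i => by rw [hy]; simp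
  have hy1 : ∀ i, y i 1 = (q' i - q' (i + 1)) / δ := fun i => by rw [hy]; simp
  set Y : ℕ → ℝ := fun i => ((q i + q' i) / 2 - (q (i + 1) + q' (i + 1)) / 2) / δ with hYd
  have hYe : ∀ i, Y i = ∑ z, w z * y i z := by
    intro i
    rw [Fin.sum_univ_two, hy0, hy1, hYd, hw]
    ring
  set s : ℕ → ℝ := fun i => lam (Y i) - ∑ z, w z * lam (y i z) with hs
  have hkey := fun i => key w (y i) hw0 hw1 (hYe i) (s := s i) rfl
  have hslack : ∑ i ∈ Finset.range (md δ), δ * s i ≤ τ := by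
    have h1 : ∑ i ∈ Finset.range (md δ), δ * s i =
        Lam δ (md δ) (fun i => (q i + q' i) / 2) - (Lam δ (md δ) q + Lam δ (md δ) q') / 2 := by
      unfold Lam
      have h2 : ∀ i, δ * s i = lamf δ ((q i + q' i) / 2 - (q (i + 1) + q' (i + 1)) / 2) -
          lamf δ (q i - q (i + 1)) / 2 - lamf δ (q' i - q' (i + 1)) / 2 := by
        intro i
        rw [lamf_eq hδ, lamf_eq hδ, lamf_eq hδ, hs]
        simp only
        rw [Fin.sum_univ_two, hy0, hy1, hYd, hw]
        ring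
      rw [Finset.sum_congr rfl (fun i _ => h2 i), Finset.sum_sub_distrib,
        Finset.sum_sub_distrib, ← Finset.sum_div, ← Finset.sum_div]
      ring
    rw [h1]
    linarith
  have hrg : rg δ γa Γ ⊆ Finset.range (md δ) := Finset.filter_subset _ _
  have hsum := sum_levels (Ym := Ym) (rg δ γa Γ) hrg hδ (card_rg hδ hΓ.le) hτ.le hYm1 s
    (fun i => ∑ z, w z * |y i z - Y i|) (fun i _ => (hkey i).1) hslack (by
      intro i hi
      rw [rg, Finset.mem_filter, Finset.mem_range] at hi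
      obtain ⟨hi1, hi2, hi3⟩ := hi
      have h5 : 0 < ((i : ℝ) + 1) * δ := by positivity
      have hYm2 : δ * (C0 * (1 + 1 / (((i : ℝ) + 1) * δ)) ^ 2) ≤ δ * Ym := by
        rw [hYm]
        gcongr
      apply (hkey i).2 τ Ym _ _ hYm1 hτ.le
      · rw [hYd]
        simp only
        rw [le_div_iff₀ hδ]
        have h6 := hst i hi1 hi3
        have h7 := hst' i hi1 hi3
        linarith
      · rw [hYd]
        simp only
        rw [div_le_iff₀ hδ]
        have h6 := (hg.2.2.2.2.2.1 i hi1).trans hYm2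
        have h7 := (hg'.2.2.2.2.2.1 i hi1).trans hYm2
        linarith)
  have hfin : ∑ i ∈ rg δ γa Γ, |(q i - q (i + 1)) - (q' i - q' (i + 1))| =
      2 * ∑ i ∈ rg δ γa Γ, δ * ∑ z, w z * |y i z - Y i| := by
    rw [Finset.mul_sum]
    apply Finset.sum_congr rfl
    intro i _
    rw [Fin.sum_univ_two]
    have h6 : y i 0 - Y i = ((q i - q (i + 1)) - (q' i - q' (i + 1))) / (2 * δ) := by
      rw [hy0, hYd]
      field_simp
      ring
    have h7 : y i 1 - Y i = -(((q i - q (i + 1)) - (q' i - q' (i + 1))) / (2 * δ)) := by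
      rw [hy1, hYd]
      field_simp
      ring
    rw [h6, h7, abs_neg, abs_div, abs_of_pos (by positivity : (0 : ℝ) < 2 * δ), hw]
    field_simp
    ring
  rw [hfin]
  linarith

end Pool.Agent.Lib.MP_193d8d_pr
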