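import Pool.Agent.Lib.MP_193d8d_pr.IncrBase

set_option autoImplicit false
open MeasureTheory Set

namespace Pool.Agent.Lib.MP_193d8d_pr

namespace IncrAux

open IncrBase

section lev

variable {ε δ : ℝ} {J m : ℕ}

theorem lev_zero : lev ε δ J m 0 = 0 := by simp [lev]

theorem lev_low {j : ℕ} (hj : j ≤ J) : lev ε δ J m (J + 1 - j) = ε * δ * (1 / 2) ^ j := by
  have h1 : J + 1 - j ≠ 0 := by omega
  have h2 : J + 1 - j ≤ J + 1 := by omega
  have h3 : J + 1 - (J + 1 - j) = j := by omega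
  rw [lev, if_neg h1, if_pos h2, h3]

theorem lev_main {i : ℕ} (hi : i ≤ m) : lev ε δ J m (J + 1 + i) = ε * δ * (i + 1) := by
  rcases Nat.eq_zero_or_pos i with h | h
  · subst h
    have := lev_low (ε := ε) (δ := δ) (J := J) (m := m) (j := 0) (Nat.zero_le J)
    simpa using this
  · have h1 : J + 1 + i ≠ 0 := by omega
    have h2 : ¬ J + 1 + i ≤ J + 1 := by omega
    have h3 : J + 1 + i ≤ J + 1 + m := by omega
    rw [lev, if_neg h1, if_neg h2, if_pos h3]
    push_cast
    ring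

theorem lev_top : lev ε δ J m (J + m + 1 + 1) = 1 := by
  have h1 : J + m + 1 + 1 ≠ 0 := by omega
  have h2 : ¬ J + m + 1 + 1 ≤ J + 1 := by omega
  have h3 : ¬ J + m + 1 + 1 ≤ J + 1 + m := by omega
  rw [lev, if_neg h1, if_neg h2, if_neg h3]

theorem lev_one : lev ε δ J m 1 = ε * δ * (1 / 2) ^ J := by
  have := lev_low (ε := ε) (δ := δ) (J := J) (m := m) (j := J) le_rfl
  rwa [show J + 1 - J = 1 by omega] at this

theorem lev_last : lev ε δ J m (J + m + 1) = ε * δ * (m + 1) := by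
  have := lev_main (ε := ε) (δ := δ) (J := J) (m := m) (i := m) le_rfl
  rwa [show J + 1 + m = J + m + 1 by omega] at this

theorem lev_lt (hε : 0 < ε) (hδ : 0 < δ) (hm : (m + 1) * δ * ε < 1) :
    ∀ h, h ≤ J + m + 1 → lev ε δ J m h < lev ε δ J m (h + 1) := by
  intro h hh
  have hεδ : 0 < ε * δ := mul_pos hε hδ
  rcases Nat.eq_zero_or_pos h with h0 | h0
  · subst h0
    rw [lev_zero, zero_add, lev_one]
    positivity
  · by_cases h1 : h ≤ J
    · obtain ⟨j, hj, rfl⟩ : ∃ j, j + 1 ≤ J ∧ h = J + 1 - (j + 1) := ⟨J - h, by omega, by omega⟩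
      rw [lev_low hj, show J + 1 - (j + 1) + 1 = J + 1 - j by omega, lev_low (by omega)]
      apply mul_lt_mul_of_pos_left _ hεδ
      rw [pow_succ]
      have : (0 : ℝ) < (1 / 2) ^ j := by positivity
      linarith
    · by_cases h2 : h ≤ J + m
      · obtain ⟨i, hi, rfl⟩ : ∃ i, i + 1 ≤ m ∧ h = J + 1 + i := ⟨h - (J + 1), by omega, by omega⟩
        rw [lev_main (by omega), show J + 1 + i + 1 = J + 1 + (i + 1) by omega, lev_main hi]
        push_cast
        nlinarith
      · have h3 : h = J + m + 1 := by omega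
        subst h3
        rw [lev_last, lev_top]
        nlinarith

end lev

theorem wts_sum (H : ℕ) (l : ℕ → ℝ) (h0 : l 0 = 0) (h1 : l (H + 1) = 1) :
    ∑ h, wts H l h = 1 := by
  have h := Fin.sum_univ_eq_sum_range (fun h => l (h + 1) - l h) (H + 1)
  rw [Finset.sum_range_sub, h0, h1, sub_zero] at h
  exact h

section AE

variable {δ : ℝ} {n : ℕ}

theorem rr_pos (hn : 3 ≤ n) : 0 < rr n := by
  unfold rr
  have : (0 : ℝ) < n := by
    have : 0 < n := by omega
    exact_mod_cast this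
  positivity

theorem pw_nonneg (hδ : 0 < δ) (hn : 3 ≤ n) (hm : (md δ + 1) * δ * rr n < 1)
    (h : Fin (HH δ n + 1)) : 0 ≤ pw δ n h := by
  have h1 := lev_lt (J := n) (rr_pos hn) hδ hm h (Nat.lt_succ_iff.1 h.2)
  exact sub_nonneg.2 h1.le

theorem pw_sum : ∑ h, pw δ n h = 1 := wts_sum _ _ lev_zero lev_top

/-- the weights of the average `AE` -/
noncomputable def wt' (δ : ℝ) (n : ℕ) (z : Edge n × (Edge n → Fin (HH δ n + 1))) : ℝ :=
  (∏ f, pw δ n (z.2 f)) / (Fintype.card (Edge n) : ℝ)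

theorem wt'_nonneg (hδ : 0 < δ) (hn : 3 ≤ n) (hm : (md δ + 1) * δ * rr n < 1)
    (z : Edge n × (Edge n → Fin (HH δ n + 1))) : 0 ≤ wt' δ n z :=
  div_nonneg (Finset.prod_nonneg fun _ _ => pw_nonneg hδ hn hm _) (Nat.cast_nonneg _)

theorem AE_eq (F : Edge n → (Edge n → Fin (HH δ n + 1)) → ℝ) :
    AE δ n F = ∑ z : Edge n × (Edge n → Fin (HH δ n + 1)), wt' δ n z * F z.1 z.2 := by
  rw [Fintype.sum_prod_type]
  unfold AE AV EE wt'
  rw [Finset.sum_div]
  apply Finset.sum_congr rfl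
  intro e _
  rw [Finset.sum_div]
  apply Finset.sum_congr rfl
  intro c _
  ring

theorem wt'_sum (hn : 3 ≤ n) : ∑ z : Edge n × (Edge n → Fin (HH δ n + 1)), wt' δ n z = 1 := by
  have h1 := AE_eq (δ := δ) (n := n) (fun _ _ => 1)
  simp only [mul_one] at h1
  rw [← h1]
  unfold AE
  have h2 : (fun e : Edge n => EE (pw δ n)
      ((fun (_ : Edge n) (_ : Edge n → Fin (HH δ n + 1)) => (1 : ℝ)) e)) = fun _ => (1 : ℝ) :=
    funext fun _ => EE_one pw_sum
  rw [h2]
  exact AV_const (by omega) 1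

end AE

end IncrAux

open IncrBase IncrAux in
/-- F1 -/
theorem stIncr : StIncr := by
  intro C0 γa Γ ρ hC0 hγ hγΓ hρ
  set Ym : ℝ := C0 * (1 + 1 / γa) ^ 2 with hYm
  have hYm1 : 1 ≤ Ym := by
    have h1 : 0 < 1 / γa := by positivity
    have h2 : 1 ≤ (1 + 1 / γa) ^ 2 := by nlinarith
    calc (1 : ℝ) = 1 * 1 := by ring
      _ ≤ C0 * (1 + 1 / γa) ^ 2 := by gcongr
  have hΓ : 0 < Γ := hγ.trans hγΓ
  obtain ⟨τ, hτ, hτρ⟩ := exists_tau Ym Γ ρ hρ
  refine ⟨τ, hτ, fun δ n T hδ _ hn hm hinc hsteep hslack => ?_⟩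
  set w := wt' δ n with hw
  have hw0 : ∀ z, 0 ≤ w z := wt'_nonneg hδ hn hm
  have hw1 : ∑ z, w z = 1 := wt'_sum hn
  set y : ℕ → Edge n × (Edge n → Fin (HH δ n + 1)) → ℝ := fun i z =>
    (pos T z.1 z.2 i - pos T z.1 z.2 (i + 1)) / δ with hy
  set Y : ℕ → ℝ := fun i => (qv T i - qv T (i + 1)) / δ with hYd
  have hYe : ∀ i, Y i = ∑ z, w z * y i z := by
    intro i
    have h1 : ∀ i, qv T i = ∑ z : Edge n × (Edge n → Fin (HH δ n + 1)),
        w z * pos T z.1 z.2 i := fun i => AE_eq _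
    rw [hYd]
    simp only
    rw [h1, h1, ← Finset.sum_sub_distrib, Finset.sum_div]
    apply Finset.sum_congr rfl
    intro z _
    rw [hy]
    ring
  set s : ℕ → ℝ := fun i => lam (Y i) - ∑ z, w z * lam (y i z) with hs
  have hkey := fun i => key w (y i) hw0 hw1 (hYe i) (s := s i) rfl
  have hslackA : slackA T = ∑ i ∈ Finset.range (md δ), δ * s i := by
    have h1 : AE δ n (fun e c => Lam δ (md δ) (pos T e c)) =
        ∑ i ∈ Finset.range (md δ), δ * (∑ z, w z * lam (y i z)) + qv T (md δ) := by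
      have h2 : qv T (md δ) = ∑ z : Edge n × (Edge n → Fin (HH δ n + 1)),
        w z * pos T z.1 z.2 (md δ) := AE_eq _
      rw [AE_eq, h2]
      have h3 : ∀ z : Edge n × (Edge n → Fin (HH δ n + 1)),
          w z * Lam δ (md δ) (pos T z.1 z.2) =
          ∑ i ∈ Finset.range (md δ), δ * (w z * lam (y i z)) +
            w z * pos T z.1 z.2 (md δ) := by
        intro z
        unfold Lam
        rw [mul_add, Finset.mul_sum]
        congr 1
        apply Finset.sum_congr rfl
        intro i _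
        rw [lamf_eq hδ]
        ring
      rw [Finset.sum_congr rfl (fun z _ => h3 z), Finset.sum_add_distrib, Finset.sum_comm]
      congr 1
      apply Finset.sum_congr rfl
      intro i _
      rw [Finset.mul_sum]
    unfold slackA
    rw [h1]
    unfold Lam
    have h4 : ∀ i, lamf δ (qv T i - qv T (i + 1)) = δ * lam (Y i) := fun i => lamf_eq hδ _
    rw [Finset.sum_congr rfl (fun i _ => h4 i), add_sub_add_right_eq_sub,
      ← Finset.sum_sub_distrib]
    apply Finset.sum_congr rfl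
    intro i _
    rw [hs]
    ring
  have hrg : rg δ γa Γ ⊆ Finset.range (md δ) := Finset.filter_subset _ _
  have hsum := sum_levels (Ym := Ym) (rg δ γa Γ) hrg hδ (card_rg hδ hΓ.le) hτ.le hYm1 s
    (fun i => ∑ z, w z * |y i z - Y i|) (fun i _ => (hkey i).1) (hslackA ▸ hslack) (by
      intro i hi
      rw [rg, Finset.mem_filter, Finset.mem_range] at hi
      obtain ⟨hi1, hi2, hi3⟩ := hi
      apply (hkey i).2 τ Ym _ _ hYm1 hτ.le
      · rw [hYd]
        simp only
        rw [le_div_iff₀ hδ]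
        exact hsteep i hi1 hi3
      · rw [hYd]
        simp only
        rw [div_le_iff₀ hδ]
        refine (hinc i hi1).trans ?_
        rw [mul_comm Ym δ, hYm]
        have h5 : 0 < ((i : ℝ) + 1) * δ := by positivity
        gcongr)
  have hfin : AE δ n (tv T γa Γ) =
      ∑ i ∈ rg δ γa Γ, δ * ∑ z, w z * |y i z - Y i| := by
    rw [AE_eq]
    unfold tv
    simp only [Finset.mul_sum]
    rw [Finset.sum_comm]
    apply Finset.sum_congr rfl
    intro i _
    apply Finset.sum_congr rfl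
    intro z _
    have h6 : y i z - Y i = ((pos T z.1 z.2 i - pos T z.1 z.2 (i + 1)) -
        (qv T i - qv T (i + 1))) / δ := by
      rw [hy, hYd]
      ring
    rw [h6, abs_div, abs_of_pos hδ, ← hw]
    field_simp
  rw [hfin]
  exact hsum.trans hτρ

end Pool.Agent.Lib.MP_193d8d_pr
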