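import Pool.Agent.Lib.MP_193d8d_pr.StA
import Pool.Agent.Lib.MP_193d8d_pr.StB
import Pool.Agent.Lib.MP_193d8d_pr.Base

set_option autoImplicit false
open MeasureTheory Set

namespace Pool.Agent.Lib.MP_193d8d_pr

namespace IndepSAux

section

variable {n : ℕ}

theorem edge_b (i j : Fin n) (h : i ≠ j) : (edge i j h).b = max i j := by
  unfold edge
  split_ifs with h1
  · exact (max_eq_right h1.le).symm
  · exact (max_eq_left (not_lt.1 h1)).symm

theorem edge_of_lt {i j : Fin n} (h : i < j) : edge i j h.ne = ⟨i, j, h⟩ := by simp [edge, h]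

theorem edge_inj {i j i' j' : Fin n} {h : i ≠ j} {h' : i' ≠ j'}
    (he : edge i j h = edge i' j' h') : (i = i' ∧ j = j') ∨ (i = j' ∧ j = i') := by
  unfold edge at he
  split_ifs at he with h1 h2 h2 <;> rw [Edge.mk.injEq] at he
  · exact Or.inl he
  · exact Or.inr he
  · exact Or.inr ⟨he.2, he.1⟩
  · exact Or.inl ⟨he.2, he.1⟩

end

section

variable {n : ℕ} {κ : Type} [Fintype κ] [DecidableEq κ] {p : κ → ℝ}

omit [DecidableEq κ] in
theorem EE_indep2 (hp1 : ∑ h, p h = 1) {e1 e2 : Edge n} (hne : e1 ≠ e2) (u : κ → κ → ℝ)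
    (Y : (Edge n → κ) → ℝ) (h1 : ∀ c h, Y (Function.update c e1 h) = Y c)
    (h2 : ∀ c h, Y (Function.update c e2 h) = Y c) :
    EE p (fun c => u (c e1) (c e2) * Y c) = (∑ h', p h' * ∑ h, p h * u h h') * EE p Y := by
  rw [EE_split p hp1 e1, ← EE_indep hp1 e2 (fun h' => ∑ h, p h * u h h') Y h2]
  refine EE_congr fun c => ?_
  rw [Finset.sum_mul]
  refine Finset.sum_congr rfl fun h _ => ?_
  rw [Function.update_self, Function.update_of_ne hne.symm, h1]
  ring

theorem bad_sum (bad : Finset (κ × κ)) :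
    ∑ h', p h' * ∑ h, p h * (if (h, h') ∈ bad then (1 : ℝ) else 0) =
      ∑ y ∈ bad, p y.1 * p y.2 := by
  have h1 : ∑ y ∈ bad, p y.1 * p y.2 =
      ∑ y : κ × κ, if y ∈ bad then p y.1 * p y.2 else 0 := by
    rw [Finset.sum_ite_mem, Finset.univ_inter]
  rw [h1, Fintype.sum_prod_type_right]
  refine Finset.sum_congr rfl fun h' _ => ?_
  rw [Finset.mul_sum]
  refine Finset.sum_congr rfl fun h _ => ?_
  split_ifs
  · ring
  · ring

theorem good_sum (hp1 : ∑ h, p h = 1) (bad : Finset (κ × κ)) :
    ∑ h', p h' * ∑ h, p h * (if (h, h') ∈ bad then (0 : ℝ) else 1) =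
      1 - ∑ y ∈ bad, p y.1 * p y.2 := by
  rw [← bad_sum bad, eq_sub_iff_add_eq, ← Finset.sum_add_distrib]
  refine (Finset.sum_congr rfl fun h' _ => ?_).trans hp1
  rw [← mul_add, ← Finset.sum_add_distrib]
  have h1 : ∑ h, (p h * (if (h, h') ∈ bad then (0 : ℝ) else 1) +
      p h * (if (h, h') ∈ bad then (1 : ℝ) else 0)) = 1 := by
    refine (Finset.sum_congr rfl fun h _ => ?_).trans hp1
    split_ifs <;> ring
  rw [h1, mul_one]

theorem Z_sum (Z : Finset κ) : ∑ h, p h * (if h ∈ Z then (1 : ℝ) else 0) = ∑ h ∈ Z, p h := by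
  simp only [mul_ite, mul_one, mul_zero]
  rw [Finset.sum_ite_mem, Finset.univ_inter]

theorem prod_ge {ι : Type*} [DecidableEq ι] (s : Finset ι) (g : ι → ℝ)
    (h0 : ∀ a ∈ s, 0 ≤ g a ∧ g a ≤ 1) :
    1 - ∑ a ∈ s, (1 - g a) ≤ ∏ a ∈ s, g a ∧ 0 ≤ ∏ a ∈ s, g a ∧ ∏ a ∈ s, g a ≤ 1 := by
  have hp : ∀ t ⊆ s, 0 ≤ ∏ a ∈ t, g a ∧ ∏ a ∈ t, g a ≤ 1 := fun t ht =>
    ⟨Finset.prod_nonneg fun a ha => (h0 a (ht ha)).1,
      Finset.prod_le_one (fun a ha => (h0 a (ht ha)).1) fun a ha => (h0 a (ht ha)).2⟩
  refine ⟨?_, hp s subset_rfl⟩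
  have key : ∀ t ⊆ s, 1 - ∑ a ∈ t, (1 - g a) ≤ ∏ a ∈ t, g a := by
    intro t
    induction t using Finset.induction_on with
    | empty => intro _; simp
    | insert a t ha ih =>
      intro ht
      have h1 := ih ((Finset.subset_insert a t).trans ht)
      have h2 := h0 a (ht (Finset.mem_insert_self a t))
      have h3 := hp t ((Finset.subset_insert a t).trans ht)
      rw [Finset.sum_insert ha, Finset.prod_insert ha]
      nlinarith
  exact key s subset_rfl

variable (l0 : κ) (bad : Finset (κ × κ)) (i j k : Fin n)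

/-- not bad -/
noncomputable def nb (k' : Fin n) (c : Edge n → κ) : ℝ :=
  if (ext l0 c i k', ext l0 c j k') ∈ bad then 0 else 1

/-- the factor in `spec` -/
noncomputable def G (k' : Fin n) (c : Edge n → κ) : ℝ :=
  if k' = i ∨ k' = j ∨ k' = k then 1 else nb l0 bad i j k' c

omit [Fintype κ] in
theorem nb_01 (k' : Fin n) (c : Edge n → κ) :
    0 ≤ nb l0 bad i j k' c ∧ nb l0 bad i j k' c ≤ 1 := by
  unfold nb
  split_ifs <;> norm_num

omit [Fintype κ] in
theorem G_01 (k' : Fin n) (c : Edge n → κ) :
    0 ≤ G l0 bad i j k k' c ∧ G l0 bad i j k k' c ≤ 1 := by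
  unfold G
  split_ifs
  · norm_num
  · exact nb_01 _ _ _ _ _ _

variable {i j k}

omit [Fintype κ] in
theorem nb_update {k' : Fin n} (hi : i ≠ k') (hj : j ≠ k') (c : Edge n → κ) (g : Edge n) (h : κ)
    (h1 : g ≠ edge i k' hi) (h2 : g ≠ edge j k' hj) :
    nb l0 bad i j k' (Function.update c g h) = nb l0 bad i j k' c := by
  unfold nb
  rw [ext_ne _ _ hi, ext_ne _ _ hj, ext_ne _ _ hi, ext_ne _ _ hj,
    Function.update_of_ne h1.symm, Function.update_of_ne h2.symm]

/-- the factors above `k` -/
theorem EE_above (hp1 : ∑ h, p h = 1) (hij : i < j) (hjk : j < k) (X : (Edge n → κ) → ℝ)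
    (hX : ∀ c g h, k < g.b → X (Function.update c g h) = X c) (S : Finset (Fin n)) :
    (∀ k' ∈ S, k < k') → EE p (fun c => X c * ∏ k' ∈ S, nb l0 bad i j k' c) =
      (1 - ∑ y ∈ bad, p y.1 * p y.2) ^ S.card * EE p X := by
  classical
  induction S using Finset.induction_on with
  | empty => intro _; simp
  | insert a S ha ih =>
    intro hS
    have hka : k < a := hS a (Finset.mem_insert_self a S)
    have hia : i ≠ a := ((hij.trans hjk).trans hka).ne
    have hja : j ≠ a := (hjk.trans hka).ne
    have hne : edge i a hia ≠ edge j a hja := by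
      intro he
      rcases edge_inj he with h | h
      · exact hij.ne h.1
      · exact hia h.1
    have hY : ∀ (b : Fin n) (hb : b ≠ a), b ≤ j → ∀ c h,
        X (Function.update c (edge b a hb) h) * ∏ k' ∈ S, nb l0 bad i j k'
          (Function.update c (edge b a hb) h) = X c * ∏ k' ∈ S, nb l0 bad i j k' c := by
      intro b hb hbj c h
      have hba : b < a := hbj.trans_lt (hjk.trans hka)
      rw [hX c _ h (by rw [edge_b, max_eq_right hba.le]; exact hka)]
      congr 1
      refine Finset.prod_congr rfl fun k' hk' => ?_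
      have hkk' : k < k' := hS k' (Finset.mem_insert_of_mem hk')
      have hak : a ≠ k' := by
        rintro rfl
        exact ha hk'
      have hik' : i ≠ k' := ((hij.trans hjk).trans hkk').ne
      have hjk' : j ≠ k' := (hjk.trans hkk').ne
      refine nb_update l0 bad hik' hjk' c _ h ?_ ?_
      · intro he
        rcases edge_inj he with h1 | h1
        · exact hak h1.2
        · exact hia h1.2.symm
      · intro he
        rcases edge_inj he with h1 | h1
        · exact hak h1.2
        · exact hja h1.2.symm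
    have h1 : EE p (fun c => X c * ∏ k' ∈ insert a S, nb l0 bad i j k' c) =
        EE p (fun c => (if (c (edge i a hia), c (edge j a hja)) ∈ bad then (0 : ℝ) else 1) *
          (X c * ∏ k' ∈ S, nb l0 bad i j k' c)) := by
      refine EE_congr fun c => ?_
      rw [Finset.prod_insert ha]
      have h2 : nb l0 bad i j a c =
          if (c (edge i a hia), c (edge j a hja)) ∈ bad then (0 : ℝ) else 1 := by
        unfold nb
        rw [ext_ne _ _ hia, ext_ne _ _ hja]
      rw [h2]
      ring
    rw [h1, EE_indep2 hp1 hne (fun h h' => if (h, h') ∈ bad then (0 : ℝ) else 1)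
      (fun c => X c * ∏ k' ∈ S, nb l0 bad i j k' c) (hY i hia hij.le) (hY j hja le_rfl),
      good_sum hp1, ih fun k' hk' => hS k' (Finset.mem_insert_of_mem hk'),
      Finset.card_insert_of_notMem ha]
    ring

end

end IndepSAux

open IndepSAux

theorem stIndepS : StIndepS := by
  classical
  intro n κ _ _ p l0 Z bad F i j k hij hjk hp hp1 hF hFu
  set b : ℝ := ∑ y ∈ bad, p y.1 * p y.2 with hb
  set z : ℝ := ∑ h ∈ Z, p h with hz
  have hik : i < k := hij.trans hjk
  set eik : Edge n := ⟨i, k, hij.trans hjk⟩ with heik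
  set ejk : Edge n := ⟨j, k, hjk⟩ with hejk
  have hne : eik ≠ ejk := by
    intro h
    exact hij.ne (congrArg Edge.a h)
  have hz0 : 0 ≤ z := Finset.sum_nonneg fun h _ => hp h
  have hb0 : 0 ≤ b := Finset.sum_nonneg fun y _ => mul_nonneg (hp _) (hp _)
  have hb1 : b ≤ 1 := by
    have h1 := good_sum hp1 bad
    have h2 : 0 ≤ ∑ h', p h' * ∑ h, p h * (if (h, h') ∈ bad then (0 : ℝ) else 1) := by
      refine Finset.sum_nonneg fun h' _ => mul_nonneg (hp _)
        (Finset.sum_nonneg fun h _ => mul_nonneg (hp _) ?_)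
      split_ifs <;> norm_num
    rw [h1] at h2
    linarith
  -- the indicators
  set I1 : (Edge n → κ) → ℝ := fun c => if c eik ∈ Z then 1 else 0 with hI1
  set I2 : (Edge n → κ) → ℝ := fun c => if c ejk ∈ Z then 1 else 0 with hI2
  have hI1' : ∀ c, 0 ≤ I1 c ∧ I1 c ≤ 1 := fun c => by
    simp only [hI1]
    split_ifs <;> norm_num
  have hI2' : ∀ c, 0 ≤ I2 c ∧ I2 c ≤ 1 := fun c => by
    simp only [hI2]
    split_ifs <;> norm_num
  set A : (Edge n → κ) → ℝ := fun c => ∏ k' ∈ Finset.univ.filter (fun k' => ¬ k < k'),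
    G l0 bad i j k k' c with hA
  have hAge : ∀ c, 1 - ∑ k' ∈ Finset.univ.filter (fun k' => ¬ k < k'),
      (1 - G l0 bad i j k k' c) ≤ A c ∧ 0 ≤ A c ∧ A c ≤ 1 := fun c =>
    prod_ge _ _ fun k' _ => G_01 l0 bad i j k k' c
  set X : (Edge n → κ) → ℝ := fun c => I1 c * I2 c * A c * F c with hX
  have hX0 : ∀ c, 0 ≤ X c := fun c =>
    mul_nonneg (mul_nonneg (mul_nonneg (hI1' c).1 (hI2' c).1) (hAge c).2.1) (hF c).1
  -- spec
  have hspec : EE p (fun c => spec l0 Z bad c i j k * F c) =
      EE p (fun c => X c * ∏ k' ∈ Finset.univ.filter (fun k' => k < k'), nb l0 bad i j k' c) := by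
    refine EE_congr fun c => ?_
    unfold spec
    have h1 : (∏ k' : Fin n, (if k' = i ∨ k' = j ∨ k' = k then (1 : ℝ)
        else if (ext l0 c i k', ext l0 c j k') ∈ bad then 0 else 1)) =
        (∏ k' ∈ Finset.univ.filter (fun k' => k < k'), nb l0 bad i j k' c) * A c := by
      rw [hA, ← Finset.prod_filter_mul_prod_filter_not Finset.univ (fun k' => k < k')]
      congr 1
      refine Finset.prod_congr rfl fun k' hk' => ?_
      have h2 : k < k' := (Finset.mem_filter.1 hk').2
      rw [if_neg]
      · rfl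
      · rintro (rfl | rfl | rfl)
        · exact lt_asymm hik h2
        · exact lt_asymm hjk h2
        · exact lt_irrefl _ h2
    rw [h1, ext_of_lt _ _ hik, ext_of_lt _ _ hjk]
    show I1 c * I2 c * _ * F c = X c * _
    simp only [hX]
    ring
  have hXu : ∀ c g h, k < g.b → X (Function.update c g h) = X c := by
    intro c g h hg
    have hg1 : eik ≠ g := by
      rintro rfl
      exact lt_irrefl _ hg
    have hg2 : ejk ≠ g := by
      rintro rfl
      exact lt_irrefl _ hg
    simp only [hX, hI1, hI2, hA]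
    rw [hFu c g h (Or.inl hg), Function.update_of_ne hg1, Function.update_of_ne hg2]
    congr 2
    refine Finset.prod_congr rfl fun k' hk' => ?_
    have h2 : k' ≤ k := not_lt.1 (Finset.mem_filter.1 hk').2
    unfold G
    split_ifs with h3
    · rfl
    · push Not at h3
      refine nb_update l0 bad h3.1.symm h3.2.1.symm c g h ?_ ?_
      · intro h4
        rw [h4, edge_b] at hg
        exact absurd hg (not_lt.2 (max_le hik.le h2))
      · intro h4
        rw [h4, edge_b] at hg
        exact absurd hg (not_lt.2 (max_le hjk.le h2))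
  have hmain := EE_above l0 bad hp1 hij hjk X hXu (Finset.univ.filter (fun k' => k < k'))
    fun k' hk' => (Finset.mem_filter.1 hk').2
  rw [← hb] at hmain
  rw [hspec, hmain]
  -- the lower bound for EE X
  have hZZ : EE p (fun c => I1 c * I2 c) = z * z := by
    have h1 : EE p (fun c => I1 c * I2 c) = z * EE p I2 := by
      rw [hz, ← Z_sum Z]
      refine EE_indep hp1 eik (fun h => if h ∈ Z then (1 : ℝ) else 0) I2 fun c h => ?_
      simp only [hI2]
      rw [Function.update_of_ne hne.symm]
    have h2 : EE p I2 = z := by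
      have h3 := EE_indep hp1 ejk (fun h => if h ∈ Z then (1 : ℝ) else 0)
        (fun _ => (1 : ℝ)) fun c h => rfl
      rw [Z_sum, EE_one hp1, mul_one] at h3
      rw [hz, ← h3]
      refine EE_congr fun c => ?_
      rw [mul_one]
    rw [h1, h2]
  have hF2 : EE p (fun c => I1 c * I2 c * F c) = z * EE p (fun c => I1 c * F c) := by
    have h1 := EE_indep hp1 ejk (fun h => if h ∈ Z then (1 : ℝ) else 0)
      (fun c => I1 c * F c) fun c h => by
        rw [hFu c ejk h (Or.inr rfl)]
        simp only [hI1]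
        rw [Function.update_of_ne hne]
    rw [Z_sum] at h1
    rw [hz, ← h1]
    refine EE_congr fun c => ?_
    simp only [hI2]
    ring
  have hbd : ∀ k' ∈ Finset.univ.filter (fun k' => ¬ k < k'),
      EE p (fun c => I1 c * I2 c * F c * (1 - G l0 bad i j k k' c)) ≤
        if k' < k then z * z * b else 0 := by
    intro k' hk'
    have h2 : k' ≤ k := not_lt.1 (Finset.mem_filter.1 hk').2
    by_cases h3 : k' = i ∨ k' = j ∨ k' = k
    · have h4 : ∀ c, G l0 bad i j k k' c = 1 := fun c => by
        unfold G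
        rw [if_pos h3]
      have h5 : EE p (fun c => I1 c * I2 c * F c * (1 - G l0 bad i j k k' c)) = 0 := by
        have h6 : EE p (fun c => I1 c * I2 c * F c * (1 - G l0 bad i j k k' c)) =
            EE p (fun _ => (0 : ℝ)) := EE_congr fun c => by rw [h4 c, sub_self, mul_zero]
        rw [h6, EE_const hp1]
      rw [h5]
      split_ifs
      · exact mul_nonneg (mul_nonneg hz0 hz0) hb0
      · exact le_rfl
    · have h3' := h3
      push Not at h3'
      obtain ⟨hki, hkj, hkk⟩ := h3'
      rw [if_pos (lt_of_le_of_ne h2 hkk)]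
      have e1 : edge i k' hki.symm ≠ edge j k' hkj.symm := by
        intro he
        rcases edge_inj he with h | h
        · exact hij.ne h.1
        · exact hki h.1.symm
      have hdis : ∀ (a : Fin n) (ha : a ≠ k'), a < k → ∀ c h,
          I1 (Function.update c (edge a k' ha) h) * I2 (Function.update c (edge a k' ha) h) =
            I1 c * I2 c := by
        intro a ha hak c h
        have h5 : (edge a k' ha).b ≠ k := by
          rw [edge_b]
          exact (max_lt hak (lt_of_le_of_ne h2 hkk)).ne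
        have h6 : eik ≠ edge a k' ha := fun h7 => h5 (by rw [← h7])
        have h7 : ejk ≠ edge a k' ha := fun h8 => h5 (by rw [← h8])
        simp only [hI1, hI2]
        rw [Function.update_of_ne h6, Function.update_of_ne h7]
      have h8 := EE_indep2 hp1 e1 (fun h h' => if (h, h') ∈ bad then (1 : ℝ) else 0)
        (fun c => I1 c * I2 c) (hdis i hki.symm hik) (hdis j hkj.symm hjk)
      rw [bad_sum, hZZ, ← hb] at h8
      have h9 : EE p (fun c => I1 c * I2 c * F c * (1 - G l0 bad i j k k' c)) ≤
          EE p (fun c => (if (c (edge i k' hki.symm), c (edge j k' hkj.symm)) ∈ bad then (1 : ℝ)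
            else 0) * (I1 c * I2 c)) := by
        refine EE_mono hp fun c => ?_
        have h10 : 1 - G l0 bad i j k k' c = if (c (edge i k' hki.symm),
            c (edge j k' hkj.symm)) ∈ bad then (1 : ℝ) else 0 := by
          unfold G nb
          rw [if_neg h3, ext_ne _ _ hki.symm, ext_ne _ _ hkj.symm]
          split_ifs <;> norm_num
        rw [h10]
        have h11 := mul_nonneg (hI1' c).1 (hI2' c).1
        have h12 : I1 c * I2 c * F c ≤ I1 c * I2 c := mul_le_of_le_one_right h11 (hF c).2
        split_ifs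
        · linarith
        · linarith
      refine h9.trans ?_
      rw [h8]
      linarith
  have hEX : z * EE p (fun c => I1 c * F c) - z * z * b * (k : ℕ) ≤ EE p X := by
    have h1 : EE p (fun c => I1 c * I2 c * F c - ∑ k' ∈ Finset.univ.filter (fun k' => ¬ k < k'),
        I1 c * I2 c * F c * (1 - G l0 bad i j k k' c)) ≤ EE p X := by
      refine EE_mono hp fun c => ?_
      rw [← Finset.mul_sum]
      have h2 := (hAge c).1
      have h3 : 0 ≤ I1 c * I2 c * F c :=
        mul_nonneg (mul_nonneg (hI1' c).1 (hI2' c).1) (hF c).1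
      have h4 := mul_le_mul_of_nonneg_left h2 h3
      have h5 : X c = I1 c * I2 c * F c * A c := by
        simp only [hX]
        ring
      rw [h5]
      linarith
    rw [EE_sub, EE_sum, hF2] at h1
    have h2 : ∑ k' ∈ Finset.univ.filter (fun k' => ¬ k < k'),
        EE p (fun c => I1 c * I2 c * F c * (1 - G l0 bad i j k k' c)) ≤ z * z * b * (k : ℕ) := by
      refine (Finset.sum_le_sum hbd).trans ?_
      have h3 : ∑ k' ∈ Finset.univ.filter (fun k' => ¬ k < k'),
          (if k' < k then z * z * b else 0) ≤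
          ∑ k' : Fin n, (if k' < k then z * z * b else 0) := by
        refine Finset.sum_le_sum_of_subset_of_nonneg (Finset.filter_subset _ _) fun k' _ _ => ?_
        split_ifs
        · exact mul_nonneg (mul_nonneg hz0 hz0) hb0
        · exact le_rfl
      refine h3.trans (le_of_eq ?_)
      rw [← Finset.sum_filter, Finset.sum_const, nsmul_eq_mul]
      have h4 : (Finset.univ.filter (fun k' : Fin n => k' < k)).card = (k : ℕ) := by
        rw [← Fin.card_Iio k]
        congr 1
        ext k'
        simp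
      rw [h4]
      ring
    linarith
  -- conclusion
  set Br : ℝ := EE p (fun c => I1 c * F c) - z * (k : ℕ) * b with hBr
  show (1 - b) ^ n * z * Br ≤ _
  have hEX' : z * Br ≤ EE p X := by
    refine le_trans (le_of_eq ?_) hEX
    rw [hBr]
    ring
  have hEX0 : 0 ≤ EE p X := EE_nonneg hp hX0
  have h1b : 0 ≤ 1 - b := by linarith
  rcases le_total Br 0 with h | h
  · have h1 : (1 - b) ^ n * z * Br ≤ 0 :=
      mul_nonpos_of_nonneg_of_nonpos (mul_nonneg (pow_nonneg h1b n) hz0) h
    exact h1.trans (mul_nonneg (pow_nonneg h1b _) hEX0)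
  · have h1 : (1 - b) ^ n ≤ (1 - b) ^ (Finset.univ.filter (fun k' => k < k')).card := by
      refine pow_le_pow_of_le_one h1b (by linarith) ?_
      refine (Finset.card_le_univ _).trans ?_
      rw [Fintype.card_fin]
    rw [mul_assoc]
    exact mul_le_mul h1 hEX' (mul_nonneg hz0 h) (pow_nonneg h1b _)

end Pool.Agent.Lib.MP_193d8d_pr
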