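import Pool.Agent.Lib.MP_193d8d_pr.StA
import Pool.Agent.Lib.MP_193d8d_pr.StB
import Pool.Agent.Lib.MP_193d8d_pr.Base

set_option autoImplicit false
open MeasureTheory Set Filter Topology

namespace Pool.Agent.Lib.MP_193d8d_pr

/-! # H11: from distribution functions to densities -/

namespace LCConvAux

/-- the hypotheses on one function -/
def PP (f : ℝ → ℝ) : Prop :=
  ContinuousOn f (Ioo 0 2) ∧ (∀ t ∈ Ioo (0 : ℝ) 2, 0 < f t ∧ f t ≤ 1) ∧
    ConcaveOn ℝ (Ioo (0 : ℝ) 2) (fun t => Real.log (f t)) ∧ ∀ t ∈ Icc (1 : ℝ) (7 / 5), 1 / 4 ≤ f t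

theorem PP.int {f : ℝ → ℝ} (hf : PP f) {a b : ℝ} (ha : 0 ≤ a) (hab : a ≤ b) (hb : b ≤ 2) :
    IntervalIntegrable f volume a b := by
  have h1 : IntegrableOn f (Ioo 0 2) := by
    have hfin : IsFiniteMeasure (volume.restrict (Ioo (0 : ℝ) 2)) := ⟨by simp⟩
    refine Integrable.mono' (integrable_const (1 : ℝ))
      (hf.1.aestronglyMeasurable measurableSet_Ioo) ?_
    refine (ae_restrict_iff' measurableSet_Ioo).2 (Eventually.of_forall fun t ht => ?_)
    rw [Real.norm_eq_abs, abs_of_pos (hf.2.1 t ht).1]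
    exact (hf.2.1 t ht).2
  have h2 : IntervalIntegrable f volume 0 2 := by
    rw [intervalIntegrable_iff_integrableOn_Ioo_of_le zero_le_two]
    exact h1
  refine h2.mono_set ?_
  rw [uIcc_of_le hab, uIcc_of_le zero_le_two]
  exact Icc_subset_Icc ha hb

theorem exp_int (c y : ℝ) (hc : 0 < c) :
    (∫ t in (0 : ℝ)..y, Real.exp (-(c * (y - t)))) ≤ 1 / c := by
  have hd : ∀ t ∈ uIcc (0 : ℝ) y, HasDerivAt (fun t : ℝ => Real.exp (-(c * (y - t))) / c)
      (Real.exp (-(c * (y - t)))) t := by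
    intro t _
    have h1 : HasDerivAt (fun t : ℝ => -(c * (y - t))) c t := by
      have h2 := ((hasDerivAt_id t).const_sub y).const_mul c
      have h3 : HasDerivAt (fun t : ℝ => -(c * (y - t))) (-(c * -1)) t := h2.neg
      convert h3 using 1
      ring
    have h4 := (h1.exp).div_const c
    have h5 : Real.exp (-(c * (y - t))) * c / c = Real.exp (-(c * (y - t))) := by
      field_simp
    rw [h5] at h4
    exact h4
  rw [intervalIntegral.integral_eq_sub_of_hasDerivAt hd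
    (Continuous.intervalIntegrable (by fun_prop) _ _)]
  have h1 : Real.exp (-(c * (y - y))) = 1 := by simp
  have h2 : 0 ≤ Real.exp (-(c * (y - 0))) / c := by positivity
  simp only [h1]
  linarith

/-- exponential decay after a point with a small value -/
theorem decay {f : ℝ → ℝ} (hf : PP f) {r T x : ℝ} (hr : 0 < r) (hr2 : r ≤ 2 / 5) (hT : 0 ≤ T)
    (hTr : T * r < 1) (ha : f (1 - T * r) < 1 / 8) (hx0 : 0 < x) (hx1 : x < 1 - T * r) :
    f x ≤ f (1 - T * r) * Real.exp (-(Real.log 2 / ((T + 1) * r) * (1 - T * r - x))) := by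
  have hTr0 : 0 ≤ T * r := by positivity
  have mx : x ∈ Ioo (0 : ℝ) 2 := ⟨hx0, by linarith⟩
  have my : 1 - T * r ∈ Ioo (0 : ℝ) 2 := ⟨by linarith, by linarith⟩
  have mz : 1 + r ∈ Ioo (0 : ℝ) 2 := ⟨by linarith, by linarith⟩
  have hy0 := (hf.2.1 _ my).1
  have hz := hf.2.2.2 (1 + r) ⟨by linarith, by linarith⟩
  have hsl := hf.2.2.1.slope_anti_adjacent mx mz hx1 (by linarith : 1 - T * r < 1 + r)
  have hlog : Real.log 2 ≤ Real.log (f (1 + r)) - Real.log (f (1 - T * r)) := by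
    rw [← Real.log_div (by linarith) hy0.ne']
    apply Real.log_le_log (by norm_num)
    rw [le_div_iff₀ hy0]
    linarith
  have hzy : 1 + r - (1 - T * r) = (T + 1) * r := by ring
  have hpos : 0 < (T + 1) * r := by positivity
  have h1 : Real.log 2 / ((T + 1) * r) ≤
      (Real.log (f (1 - T * r)) - Real.log (f x)) / (1 - T * r - x) := by
    refine le_trans ?_ hsl
    rw [hzy]
    exact div_le_div_of_nonneg_right hlog hpos.le
  rw [le_div_iff₀ (by linarith)] at h1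
  have h2 : Real.log (f x) ≤
      Real.log (f (1 - T * r)) + -(Real.log 2 / ((T + 1) * r) * (1 - T * r - x)) := by linarith
  calc f x = Real.exp (Real.log (f x)) := (Real.exp_log (hf.2.1 x mx).1).symm
    _ ≤ Real.exp (Real.log (f (1 - T * r)) +
        -(Real.log 2 / ((T + 1) * r) * (1 - T * r - x))) := Real.exp_le_exp.2 h2
    _ = _ := by rw [Real.exp_add, Real.exp_log hy0]

/-- the value from the distribution function -/
theorem val_of_int {f : ℝ → ℝ} (hf : PP f) {r T : ℝ} (hr : 0 < r) (hr2 : r ≤ 2 / 5) (hT : 0 ≤ T)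
    (hTr : T * r < 1) (ha : f (1 - T * r) < 1 / 8) :
    (1 / r * ∫ x in (0 : ℝ)..(1 - T * r), f x) ≤ f (1 - T * r) * ((T + 1) / Real.log 2) := by
  have hTr0 : 0 ≤ T * r := by positivity
  have my : 1 - T * r ∈ Ioo (0 : ℝ) 2 := ⟨by linarith, by linarith⟩
  have hy0 := (hf.2.1 _ my).1
  have hlog2 : 0 < Real.log 2 := Real.log_pos one_lt_two
  set k := Real.log 2 / ((T + 1) * r) with hk
  have hk0 : 0 < k := by positivity
  have h1 : (∫ x in (0 : ℝ)..(1 - T * r), f x) ≤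
      ∫ x in (0 : ℝ)..(1 - T * r), f (1 - T * r) * Real.exp (-(k * (1 - T * r - x))) := by
    refine intervalIntegral.integral_mono_on_of_le_Ioo (by linarith)
      (hf.int le_rfl (by linarith) (by linarith))
      (Continuous.intervalIntegrable (by fun_prop) _ _) ?_
    intro x hx
    exact decay hf hr hr2 hT hTr ha hx.1 hx.2
  rw [intervalIntegral.integral_const_mul] at h1
  have h2 := exp_int k (1 - T * r) hk0
  have h3 : (∫ x in (0 : ℝ)..(1 - T * r), f x) ≤ f (1 - T * r) * (1 / k) :=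
    h1.trans (mul_le_mul_of_nonneg_left h2 hy0.le)
  calc (1 / r * ∫ x in (0 : ℝ)..(1 - T * r), f x) ≤ 1 / r * (f (1 - T * r) * (1 / k)) :=
        mul_le_mul_of_nonneg_left h3 (by positivity)
    _ = _ := by
      rw [hk]
      field_simp

theorem abs_sub_le_log {a b : ℝ} (ha : 0 < a) (hb : 0 < b) (ha1 : a ≤ 1) (hb1 : b ≤ 1) :
    |a - b| ≤ |Real.log a - Real.log b| := by
  have key : ∀ x y : ℝ, 0 < x → x ≤ y → y ≤ 1 → y - x ≤ Real.log y - Real.log x := by
    intro x y hx hxy hy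
    have hy0 : 0 < y := by linarith
    have h := Real.log_le_sub_one_of_pos (div_pos hx hy0)
    rw [Real.log_div hx.ne' hy0.ne'] at h
    have h2 : y * (1 - x / y) ≤ 1 * (1 - x / y) := by
      refine mul_le_mul_of_nonneg_right hy ?_
      rw [sub_nonneg, div_le_one hy0]
      exact hxy
    have h3 : y * (1 - x / y) = y - x := by field_simp
    linarith
  rcases le_total a b with h | h
  · rw [abs_sub_comm, abs_sub_comm (Real.log a), abs_of_nonneg (sub_nonneg.2 h),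
      abs_of_nonneg (sub_nonneg.2 (Real.log_le_log ha h))]
    exact key a b ha h hb1
  · rw [abs_of_nonneg (sub_nonneg.2 h),
      abs_of_nonneg (sub_nonneg.2 (Real.log_le_log hb h))]
    exact key b a hb h ha1

/-- the Lipschitz bound -/
theorem lip_one {f : ℝ → ℝ} (hf : PP f) {r T c : ℝ} (hr : 0 < r) (hr2 : r ≤ 2 / 5) (hT : 0 ≤ T)
    (hTr : (T + 1) * r < 1) (hc : 0 < c) (hc1 : c ≤ 1) (hfc : c ≤ f (1 - (T + 1) * r))
    {s t : ℝ} (hs : 0 ≤ s) (hst : s < t) (htT : t ≤ T) :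
    |f (1 - s * r) - f (1 - t * r)| ≤ (Real.log 4 - Real.log c) * (t - s) := by
  have hsr : 0 ≤ s * r := by positivity
  have hstr : s * r < t * r := mul_lt_mul_of_pos_right hst hr
  have htTr : t * r ≤ T * r := mul_le_mul_of_nonneg_right htT hr.le
  have hTr' : (T + 1) * r = T * r + r := by ring
  have ms : 1 - s * r ∈ Ioo (0 : ℝ) 2 := ⟨by linarith, by linarith⟩
  have mt : 1 - t * r ∈ Ioo (0 : ℝ) 2 := ⟨by linarith, by linarith⟩
  have mw : 1 - (T + 1) * r ∈ Ioo (0 : ℝ) 2 := ⟨by linarith, by linarith⟩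
  have mz : 1 + r ∈ Ioo (0 : ℝ) 2 := ⟨by linarith, by linarith⟩
  obtain ⟨s0, s1⟩ := hf.2.1 _ ms
  obtain ⟨t0, t1⟩ := hf.2.1 _ mt
  obtain ⟨w0, w1⟩ := hf.2.1 _ mw
  have hz := hf.2.2.2 (1 + r) ⟨by linarith, by linarith⟩
  refine (abs_sub_le_log s0 t0 s1 t1).trans ?_
  set L := fun x => Real.log (f x) with hL
  have hLs : L (1 - s * r) ≤ 0 := Real.log_nonpos s0.le s1
  have hLt : L (1 - t * r) ≤ 0 := Real.log_nonpos t0.le t1
  have hLz : -Real.log 4 ≤ L (1 + r) := by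
    rw [← Real.log_inv]
    exact Real.log_le_log (by norm_num) (by rw [← one_div]; exact hz)
  have hLw : Real.log c ≤ L (1 - (T + 1) * r) := Real.log_le_log hc hfc
  have hl4 : 0 < Real.log 4 := Real.log_pos (by norm_num)
  have hlc : Real.log c ≤ 0 := Real.log_nonpos hc.le hc1
  have q1 := hf.2.2.1.slope_anti_adjacent mt mz (by linarith : 1 - t * r < 1 - s * r)
    (by linarith : 1 - s * r < 1 + r)
  have q2 := hf.2.2.1.slope_anti_adjacent mw ms (by linarith : 1 - (T + 1) * r < 1 - t * r)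
    (by linarith : 1 - t * r < 1 - s * r)
  change (L (1 + r) - L (1 - s * r)) / (1 + r - (1 - s * r)) ≤
    (L (1 - s * r) - L (1 - t * r)) / (1 - s * r - (1 - t * r)) at q1
  change (L (1 - s * r) - L (1 - t * r)) / (1 - s * r - (1 - t * r)) ≤
    (L (1 - t * r) - L (1 - (T + 1) * r)) / (1 - t * r - (1 - (T + 1) * r)) at q2
  have e1 : 1 + r - (1 - s * r) = (s + 1) * r := by ring
  have e2 : 1 - s * r - (1 - t * r) = (t - s) * r := by ring
  have e3 : 1 - t * r - (1 - (T + 1) * r) = (T + 1 - t) * r := by ring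
  rw [e1, e2] at q1
  rw [e2, e3] at q2
  have p1 : -Real.log 4 / r ≤ (L (1 + r) - L (1 - s * r)) / ((s + 1) * r) := by
    rw [div_le_div_iff₀ hr (by positivity)]
    nlinarith [mul_nonneg hs hr.le, mul_nonneg (mul_nonneg hs hr.le) hl4.le]
  have p2 : (L (1 - t * r) - L (1 - (T + 1) * r)) / ((T + 1 - t) * r) ≤ -Real.log c / r := by
    rw [div_le_div_iff₀ (mul_pos (by linarith) hr) hr]
    nlinarith [mul_nonneg (mul_nonneg (by linarith : 0 ≤ T - t) hr.le) (neg_nonneg.2 hlc)]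
  have hts : 0 < t - s := by linarith
  have r1 := p1.trans q1
  have r2 := q2.trans p2
  rw [div_le_div_iff₀ hr (mul_pos hts hr)] at r1
  rw [div_le_div_iff₀ (mul_pos hts hr) hr] at r2
  have k1 : -Real.log 4 * (t - s) ≤ L (1 - s * r) - L (1 - t * r) := by
    by_contra hcon
    push Not at hcon
    nlinarith [mul_lt_mul_of_pos_right hcon hr]
  have k2 : L (1 - s * r) - L (1 - t * r) ≤ -Real.log c * (t - s) := by
    by_contra hcon
    push Not at hcon
    nlinarith [mul_lt_mul_of_pos_right hcon hr]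
  rw [abs_le]
  constructor
  · change _ ≤ L (1 - s * r) - L (1 - t * r)
    nlinarith [mul_nonneg hts.le (neg_nonneg.2 hlc)]
  · change L (1 - s * r) - L (1 - t * r) ≤ _
    nlinarith [mul_nonneg hts.le hl4.le]

theorem rr_pos {n : ℕ} (hn : 1 ≤ n) : 0 < rr n := by
  unfold rr
  have : (0 : ℝ) < n := by exact_mod_cast hn
  positivity

theorem sqrt_eq {n : ℕ} : Real.sqrt n = 1 / rr n := by
  unfold rr
  rw [one_div_one_div]

theorem tendsto_rr : Tendsto rr atTop (𝓝 0) := by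
  have h : Tendsto (fun n : ℕ => Real.sqrt n) atTop atTop :=
    Real.tendsto_sqrt_atTop.comp tendsto_natCast_atTop_atTop
  have := h.inv_tendsto_atTop
  refine this.congr fun n => ?_
  simp [rr]

theorem ev_rr (T : ℝ) : ∀ᶠ n : ℕ in atTop, 0 < rr n ∧ rr n ≤ 2 / 5 ∧ T * rr n < 1 := by
  have h2 : Tendsto (fun n : ℕ => T * rr n) atTop (𝓝 0) := by
    have := tendsto_rr.const_mul T
    rwa [mul_zero] at this
  filter_upwards [eventually_ge_atTop 1, tendsto_rr.eventually (gt_mem_nhds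
    (by norm_num : (0 : ℝ) < 2 / 5)), h2.eventually (gt_mem_nhds one_pos)] with n h3 h4 h5
  exact ⟨rr_pos h3, h4.le, h5⟩

variable {f : ℕ → ℝ → ℝ} {G : ℝ → ℝ}

/-- the lower bound -/
theorem lower (hf : ∀ᶠ n : ℕ in atTop, PP (f n))
    (hG : ∀ t, -1 ≤ t → Tendsto (fun n : ℕ => Real.sqrt n * ∫ s in (0 : ℝ)..(1 - t * rr n), f n s)
      atTop (𝓝 (G t))) (hG0 : ∀ t, -1 ≤ t → 0 < G t) (T : ℝ) (hT : 0 ≤ T) :
    ∃ c : ℝ, 0 < c ∧ c ≤ 1 / 8 ∧ ∀ᶠ n : ℕ in atTop, ∀ s ∈ Icc 0 T, c ≤ f n (1 - s * rr n) := by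
  have hlog2 : 0 < Real.log 2 := Real.log_pos one_lt_two
  have hGT := hG0 T (by linarith)
  refine ⟨min (1 / 8) (G T / 2 * (Real.log 2 / (T + 1))),
    lt_min (by norm_num) (by positivity), min_le_left _ _, ?_⟩
  filter_upwards [hf, (hG T (by linarith)).eventually (lt_mem_nhds (half_lt_self hGT)),
    ev_rr T] with n h1 h2 h3
  obtain ⟨r0, r1, r2⟩ := h3
  rw [sqrt_eq] at h2
  have hTr0 : 0 ≤ T * rr n := by positivity
  have my : 1 - T * rr n ∈ Ioo (0 : ℝ) 2 := ⟨by linarith, by linarith⟩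
  have hend : min (1 / 8) (G T / 2 * (Real.log 2 / (T + 1))) ≤ f n (1 - T * rr n) := by
    rcases lt_or_ge (f n (1 - T * rr n)) (1 / 8) with h | h
    · refine (min_le_right _ _).trans ?_
      have h4 := val_of_int h1 r0 r1 hT r2 h
      have h5 : G T / 2 ≤ f n (1 - T * rr n) * ((T + 1) / Real.log 2) := h2.le.trans h4
      calc G T / 2 * (Real.log 2 / (T + 1))
          ≤ f n (1 - T * rr n) * ((T + 1) / Real.log 2) * (Real.log 2 / (T + 1)) :=
            mul_le_mul_of_nonneg_right h5 (by positivity)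
        _ = f n (1 - T * rr n) := by field_simp
    · exact (min_le_left _ _).trans h
  intro s hs
  have m1 : (1 : ℝ) ∈ Ioo (0 : ℝ) 2 := ⟨by norm_num, by norm_num⟩
  have hsr : s * rr n ≤ T * rr n := mul_le_mul_of_nonneg_right hs.2 r0.le
  have hsr0 : 0 ≤ s * rr n := mul_nonneg hs.1 r0.le
  have ms : 1 - s * rr n ∈ Ioo (0 : ℝ) 2 := ⟨by linarith, by linarith⟩
  have h6 := h1.2.2.1.min_le_of_mem_Icc my m1 (z := 1 - s * rr n)
    ⟨by linarith, by linarith⟩
  have h7 : min (f n (1 - T * rr n)) (f n 1) ≤ f n (1 - s * rr n) := by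
    rcases min_le_iff.1 h6 with h | h
    · exact (min_le_left _ _).trans ((Real.log_le_log_iff (h1.2.1 _ my).1 (h1.2.1 _ ms).1).1 h)
    · exact (min_le_right _ _).trans ((Real.log_le_log_iff (h1.2.1 _ m1).1 (h1.2.1 _ ms).1).1 h)
  refine le_trans (le_min hend ?_) h7
  have h8 := h1.2.2.2 1 ⟨le_rfl, by norm_num⟩
  refine (min_le_left _ _).trans ?_
  linarith

/-- the functions are equi-Lipschitz on compact sets -/
theorem lip (hf : ∀ᶠ n : ℕ in atTop, PP (f n))
    (hG : ∀ t, -1 ≤ t → Tendsto (fun n : ℕ => Real.sqrt n * ∫ s in (0 : ℝ)..(1 - t * rr n), f n s)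
      atTop (𝓝 (G t))) (hG0 : ∀ t, -1 ≤ t → 0 < G t) (T : ℝ) (hT : 0 ≤ T) :
    ∃ Λ : ℝ, 0 < Λ ∧ ∀ᶠ n : ℕ in atTop, ∀ s ∈ Icc 0 T, ∀ t ∈ Icc 0 T,
      |f n (1 - s * rr n) - f n (1 - t * rr n)| ≤ Λ * |s - t| := by
  obtain ⟨c, hc0, hc1, hc⟩ := lower hf hG hG0 (T + 1) (by linarith)
  have hl4 : 0 < Real.log 4 := Real.log_pos (by norm_num)
  have hlc : Real.log c ≤ 0 := Real.log_nonpos hc0.le (by linarith)
  refine ⟨Real.log 4 - Real.log c, by linarith, ?_⟩
  filter_upwards [hf, hc, ev_rr (T + 1)] with n h1 h2 h3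
  obtain ⟨r0, r1, r2⟩ := h3
  have hfc := h2 (T + 1) ⟨by linarith, le_rfl⟩
  intro s hs t ht
  rcases lt_trichotomy s t with h | h | h
  · rw [abs_sub_comm s t, abs_of_pos (sub_pos.2 h)]
    exact lip_one h1 r0 r1 hT r2 hc0 (by linarith) hfc hs.1 h ht.2
  · rw [h, sub_self, sub_self, abs_zero, mul_zero]
  · rw [abs_sub_comm (f n _), abs_of_pos (sub_pos.2 h)]
    exact lip_one h1 r0 r1 hT r2 hc0 (by linarith) hfc ht.1 h hs.2

/-- the substitution -/
theorem subst {g : ℝ → ℝ} (hg : PP g) {r s t : ℝ} (hr : 0 < r) (hs : 0 ≤ s) (hst : s ≤ t)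
    (htr : t * r < 1) :
    (1 / r * ∫ x in (0 : ℝ)..(1 - s * r), g x) - (1 / r * ∫ x in (0 : ℝ)..(1 - t * r), g x) =
      ∫ x in s..t, g (1 - x * r) := by
  have hsr : s * r ≤ t * r := mul_le_mul_of_nonneg_right hst hr.le
  have hsr0 : 0 ≤ s * r := mul_nonneg hs hr.le
  have h1 := intervalIntegral.integral_add_adjacent_intervals
    (hg.int le_rfl (by linarith : (0 : ℝ) ≤ 1 - t * r) (by linarith))
    (hg.int (by linarith : (0 : ℝ) ≤ 1 - t * r) (by linarith : 1 - t * r ≤ 1 - s * r)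
      (by linarith))
  have h2 := intervalIntegral.integral_comp_sub_mul (f := g) (a := s) (b := t) (c := r) hr.ne' 1
  have h3 : (∫ x in s..t, g (1 - x * r)) = ∫ x in s..t, g (1 - r * x) := by
    refine intervalIntegral.integral_congr fun x _ => ?_
    simp only [mul_comm]
  rw [h3, h2, ← h1, smul_eq_mul, mul_comm r t, mul_comm r s, one_div]
  ring

/-- continuity of the rescaled function -/
theorem contOn {g : ℝ → ℝ} (hg : PP g) {r s t : ℝ} (hr : 0 < r) (hs : 0 ≤ s)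
    (htr : t * r < 1) : ContinuousOn (fun x => g (1 - x * r)) (Icc s t) := by
  refine hg.1.comp (by fun_prop) ?_
  intro x hx
  have h1 : x * r ≤ t * r := mul_le_mul_of_nonneg_right hx.2 hr.le
  have h2 : 0 ≤ x * r := mul_nonneg (hs.trans hx.1) hr.le
  exact ⟨by linarith, by linarith⟩

/-- difference quotients of the distribution function -/
theorem quot {g : ℝ → ℝ} (hg : PP g) {r t ε Λ : ℝ} (hr : 0 < r) (ht : 0 ≤ t) (hε : 0 < ε)
    (htr : (t + ε) * r < 1) (hL : ∀ s ∈ Icc t (t + ε), |g (1 - s * r) - g (1 - t * r)| ≤ Λ * ε) :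
    |g (1 - t * r) - ((1 / r * ∫ x in (0 : ℝ)..(1 - t * r), g x) -
      (1 / r * ∫ x in (0 : ℝ)..(1 - (t + ε) * r), g x)) / ε| ≤ Λ * ε := by
  rw [subst hg hr ht (by linarith) htr]
  have hc := contOn hg hr ht htr
  have h1 : (∫ x in t..(t + ε), (g (1 - x * r) - g (1 - t * r))) =
      (∫ x in t..(t + ε), g (1 - x * r)) - ε * g (1 - t * r) := by
    rw [intervalIntegral.integral_sub (ContinuousOn.intervalIntegrable (by
      rw [uIcc_of_le (by linarith)]; exact hc)) intervalIntegrable_const,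
      intervalIntegral.integral_const, add_sub_cancel_left, smul_eq_mul]
  have h2 : ‖∫ x in t..(t + ε), (g (1 - x * r) - g (1 - t * r))‖ ≤ Λ * ε * |t + ε - t| := by
    refine intervalIntegral.norm_integral_le_of_norm_le_const ?_
    intro x hx
    rw [uIoc_of_le (by linarith)] at hx
    exact hL x ⟨hx.1.le, hx.2⟩
  rw [h1, add_sub_cancel_left, abs_of_pos hε, Real.norm_eq_abs] at h2
  have h3 : g (1 - t * r) - (∫ x in t..(t + ε), g (1 - x * r)) / ε =
      -(((∫ x in t..(t + ε), g (1 - x * r)) - ε * g (1 - t * r)) / ε) := by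
    field_simp
    ring
  rw [h3, abs_neg, abs_div, abs_of_pos hε, div_le_iff₀ hε]
  exact h2

/-- pointwise convergence -/
theorem ptw (hf : ∀ᶠ n : ℕ in atTop, PP (f n))
    (hG : ∀ t, -1 ≤ t → Tendsto (fun n : ℕ => Real.sqrt n * ∫ s in (0 : ℝ)..(1 - t * rr n), f n s)
      atTop (𝓝 (G t))) (hG0 : ∀ t, -1 ≤ t → 0 < G t) (t : ℝ) (ht : 0 ≤ t) :
    ∃ y : ℝ, Tendsto (fun n : ℕ => f n (1 - t * rr n)) atTop (𝓝 y) := by
  obtain ⟨Λ, hΛ0, hΛ⟩ := lip hf hG hG0 (t + 1) (by linarith)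
  refine cauchySeq_tendsto_of_complete ?_
  rw [Metric.cauchySeq_iff']
  intro η hη
  -- choose the step
  obtain ⟨ε, hε0, hε1, hε2⟩ : ∃ ε : ℝ, 0 < ε ∧ ε ≤ 1 ∧ Λ * ε ≤ η / 8 := by
    refine ⟨min 1 (η / (8 * Λ)), lt_min one_pos (by positivity), min_le_left _ _, ?_⟩
    calc Λ * min 1 (η / (8 * Λ)) ≤ Λ * (η / (8 * Λ)) :=
          mul_le_mul_of_nonneg_left (min_le_right _ _) hΛ0.le
      _ = η / 8 := by field_simp
  have hD : Tendsto (fun n : ℕ => ((Real.sqrt n * ∫ s in (0 : ℝ)..(1 - t * rr n), f n s) -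
      (Real.sqrt n * ∫ s in (0 : ℝ)..(1 - (t + ε) * rr n), f n s)) / ε) atTop
      (𝓝 ((G t - G (t + ε)) / ε)) :=
    ((hG t (by linarith)).sub (hG (t + ε) (by linarith))).div_const ε
  rw [Metric.tendsto_atTop'] at hD
  obtain ⟨N1, hN1⟩ := hD (η / 8) (by linarith)
  obtain ⟨N2, hN2⟩ := eventually_atTop.1 ((hf.and hΛ).and (ev_rr (t + ε)))
  have key : ∀ n, max (N1 + 1) N2 ≤ n →
      |f n (1 - t * rr n) - (G t - G (t + ε)) / ε| ≤ η / 4 := by
    intro n hn
    obtain ⟨⟨a1, a2⟩, r0, -, r2⟩ := hN2 n ((le_max_right _ _).trans hn)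
    have b1 := hN1 n (by
      have := (le_max_left _ _).trans hn
      omega)
    rw [Real.dist_eq, sqrt_eq] at b1
    have b2 := quot a1 r0 ht hε0 r2 (Λ := Λ) (by
      intro s hs
      refine (a2 s ⟨ht.trans hs.1, by linarith [hs.2]⟩ t ⟨ht, by linarith⟩).trans ?_
      refine mul_le_mul_of_nonneg_left ?_ hΛ0.le
      rw [abs_of_nonneg (by linarith [hs.1])]
      linarith [hs.2])
    calc |f n (1 - t * rr n) - (G t - G (t + ε)) / ε| ≤ _ + _ := abs_sub_le _ (((1 / rr n *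
          ∫ x in (0 : ℝ)..(1 - t * rr n), f n x) -
          (1 / rr n * ∫ x in (0 : ℝ)..(1 - (t + ε) * rr n), f n x)) / ε) _
      _ ≤ η / 8 + η / 8 := add_le_add (b2.trans hε2) b1.le
      _ = η / 4 := by ring
  refine ⟨max (N1 + 1) N2, fun n hn => ?_⟩
  have k1 := abs_le.1 (key n hn)
  have k2 := abs_le.1 (key _ le_rfl)
  rw [Real.dist_eq, abs_lt]
  constructor <;> linarith [k1.1, k1.2, k2.1, k2.2]

end LCConvAux

open LCConvAux in
theorem stLCConv : StLCConv := by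
  intro f G hf hG hG0
  have hf' : ∀ᶠ n : ℕ in atTop, PP (f n) := hf
  choose! g hg using ptw hf' hG hG0
  -- positivity and upper bound
  have hg1 : ∀ t, 0 ≤ t → 0 < g t ∧ g t ≤ 1 := by
    intro t ht
    obtain ⟨c, hc0, -, hc⟩ := lower hf' hG hG0 t ht
    constructor
    · refine hc0.trans_le (ge_of_tendsto (hg t ht) ?_)
      filter_upwards [hc] with n hn
      exact hn t ⟨ht, le_rfl⟩
    · refine le_of_tendsto (hg t ht) ?_
      filter_upwards [hf', ev_rr t] with n h1 h2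
      have h3 : 0 ≤ t * rr n := mul_nonneg ht h2.1.le
      exact (h1.2.1 _ ⟨by linarith [h2.2.2], by linarith⟩).2
  -- Lipschitz bounds
  have hg2 : ∀ T, 0 ≤ T → ∃ Λ : ℝ, 0 < Λ ∧ (∀ᶠ n : ℕ in atTop, ∀ s ∈ Icc 0 T, ∀ t ∈ Icc 0 T,
      |f n (1 - s * rr n) - f n (1 - t * rr n)| ≤ Λ * |s - t|) ∧
      ∀ s ∈ Icc 0 T, ∀ t ∈ Icc 0 T, |g s - g t| ≤ Λ * |s - t| := by
    intro T hT
    obtain ⟨Λ, hΛ0, hΛ⟩ := lip hf' hG hG0 T hT
    refine ⟨Λ, hΛ0, hΛ, fun s hs t ht => ?_⟩
    refine le_of_tendsto ((hg s hs.1).sub (hg t ht.1)).abs ?_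
    filter_upwards [hΛ] with n hn
    exact hn s hs t ht
  have hcont : ContinuousOn g (Ici 0) := by
    intro t ht
    obtain ⟨Λ, hΛ0, -, hΛ⟩ := hg2 (t + 1) (by
      have : (0 : ℝ) ≤ t := ht
      linarith)
    rw [Metric.continuousWithinAt_iff]
    intro η hη
    refine ⟨min 1 (η / Λ), lt_min one_pos (by positivity), fun {x} hx hd => ?_⟩
    rw [Real.dist_eq] at hd ⊢
    have h1 := lt_min_iff.1 hd
    have hx0 : (0 : ℝ) ≤ x := hx
    have ht0 : (0 : ℝ) ≤ t := ht
    have h2 := hΛ x ⟨hx0, by linarith [(abs_lt.1 h1.1).2]⟩ t ⟨ht0, by linarith⟩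
    refine h2.trans_lt ?_
    calc Λ * |x - t| < Λ * (η / Λ) := mul_lt_mul_of_pos_left h1.2 hΛ0
      _ = η := by field_simp
  -- uniform convergence
  have huni : ∀ b, TendstoUniformlyOn (fun (n : ℕ) t => f n (1 - t * rr n)) g atTop (Icc 0 b) := by
    intro b
    rcases lt_or_ge b 0 with hb | hb
    · rw [Icc_eq_empty (by linarith)]
      exact tendstoUniformlyOn_empty
    obtain ⟨Λ, hΛ0, hΛ1, hΛ2⟩ := hg2 b hb
    rw [Metric.tendstoUniformlyOn_iff]
    intro ρ hρ
    -- the grid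
    set d := ρ / (4 * Λ) with hd
    have hd0 : 0 < d := by positivity
    have hgrid : ∀ᶠ n : ℕ in atTop, ∀ k ∈ Finset.range (⌊b / d⌋₊ + 1),
        |f n (1 - ((k : ℝ) * d) * rr n) - g ((k : ℝ) * d)| < ρ / 4 := by
      rw [Filter.eventually_all_finset]
      intro k _
      have h := hg ((k : ℝ) * d) (by positivity)
      rw [Metric.tendsto_atTop'] at h
      obtain ⟨N, hN⟩ := h (ρ / 4) (by linarith)
      filter_upwards [eventually_gt_atTop N] with n hn
      exact hN n hn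
    filter_upwards [hgrid, hΛ1] with n h1 h2
    intro t ht
    set k := ⌊t / d⌋₊ with hk
    have htd : 0 ≤ t / d := div_nonneg ht.1 hd0.le
    have hk1 : (k : ℝ) * d ≤ t := by
      have := Nat.floor_le htd
      rw [← hk] at this
      rwa [le_div_iff₀ hd0] at this
    have hk2 : t < (k + 1 : ℝ) * d := by
      have := Nat.lt_floor_add_one (t / d)
      rw [← hk] at this
      rwa [div_lt_iff₀ hd0] at this
    have hkm : k ∈ Finset.range (⌊b / d⌋₊ + 1) := by
      rw [Finset.mem_range]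
      have : k ≤ ⌊b / d⌋₊ := Nat.floor_le_floor (div_le_div_of_nonneg_right ht.2 hd0.le)
      omega
    have mk : (k : ℝ) * d ∈ Icc 0 b := ⟨by positivity, hk1.trans ht.2⟩
    have habs : |t - (k : ℝ) * d| ≤ d := by
      rw [abs_of_nonneg (by linarith)]
      linarith
    have c1 := h2 t ht _ mk
    have c2 := h1 k hkm
    have c3 := hΛ2 _ mk t ht
    have hΛd : Λ * d = ρ / 4 := by
      rw [hd]
      field_simp
    have c1' : |f n (1 - t * rr n) - f n (1 - ((k : ℝ) * d) * rr n)| ≤ ρ / 4 := by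
      refine c1.trans ?_
      rw [← hΛd]
      exact mul_le_mul_of_nonneg_left habs hΛ0.le
    have c3' : |g ((k : ℝ) * d) - g t| ≤ ρ / 4 := by
      refine c3.trans ?_
      rw [← hΛd, abs_sub_comm]
      exact mul_le_mul_of_nonneg_left habs hΛ0.le
    rw [Real.dist_eq, abs_sub_comm, abs_lt]
    have c1'' := abs_le.1 c1'
    have c2'' := abs_lt.1 c2
    have c3'' := abs_le.1 c3'
    constructor <;> linarith [c1''.1, c1''.2, c2''.1, c2''.2, c3''.1, c3''.2]
  refine ⟨g, hg1, hcont, fun t ht => ?_, huni⟩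
  -- the integral
  have hlim1 : Tendsto (fun n : ℕ => (Real.sqrt n * ∫ s in (0 : ℝ)..(1 - 0 * rr n), f n s) -
      (Real.sqrt n * ∫ s in (0 : ℝ)..(1 - t * rr n), f n s)) atTop (𝓝 (G 0 - G t)) :=
    (hG 0 (by linarith)).sub (hG t (by linarith))
  have hlim2 : Tendsto (fun n : ℕ => ∫ x in (0 : ℝ)..t, f n (1 - x * rr n)) atTop
      (𝓝 (∫ s in (0 : ℝ)..t, g s)) := by
    refine intervalIntegral.tendsto_integral_filter_of_dominated_convergence (fun _ => (1 : ℝ))
      ?_ ?_ intervalIntegrable_const ?_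
    · filter_upwards [hf', ev_rr t] with n h1 h2
      rw [uIoc_of_le ht]
      exact ((contOn h1 h2.1 le_rfl h2.2.2).mono Ioc_subset_Icc_self).aestronglyMeasurable
        measurableSet_Ioc
    · filter_upwards [hf', ev_rr t] with n h1 h2
      refine Eventually.of_forall fun x hx => ?_
      rw [uIoc_of_le ht] at hx
      have h3 : 0 ≤ x * rr n := mul_nonneg hx.1.le h2.1.le
      have h4 : x * rr n ≤ t * rr n := mul_le_mul_of_nonneg_right hx.2 h2.1.le
      have h5 := h1.2.1 (1 - x * rr n) ⟨by linarith [h2.2.2], by linarith⟩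
      rw [Real.norm_eq_abs, abs_of_pos h5.1]
      exact h5.2
    · refine Eventually.of_forall fun x hx => ?_
      rw [uIoc_of_le ht] at hx
      exact hg x hx.1.le
  refine tendsto_nhds_unique hlim1 (hlim2.congr' ?_)
  filter_upwards [hf', ev_rr t] with n h1 h2
  rw [sqrt_eq]
  exact (subst h1 h2.1 le_rfl ht h2.2.2).symm

end Pool.Agent.Lib.MP_193d8d_pr
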