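import Pool.Agent.Lib.MP_193d8d_pr.StB

set_option autoImplicit false

/-!
Module LamTail: profiles with small `q` at a small level have a small `Lam`.
-/

namespace Pool.Agent.Lib.MP_193d8d_pr

namespace LamTailAux

theorem lamf_le {δ x : ℝ} (hδ : 0 < δ) : lamf δ x ≤ x := by
  unfold lamf
  split_ifs with h
  · exact le_refl x
  · rw [not_le] at h
    have h1 : Real.log (x / δ) ≤ x / δ - 1 :=
      Real.log_le_sub_one_of_pos (div_pos (hδ.trans h) hδ)
    have h2 : δ * Real.log (x / δ) ≤ δ * (x / δ - 1) := mul_le_mul_of_nonneg_left h1 hδ.le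
    have h3 : δ * (x / δ - 1) = x - δ := by field_simp
    linarith

theorem log_le {g : ℝ} (hg : 0 < g) : Real.log (1 + 1 / g) ≤ 2 / Real.sqrt g := by
  have hs : 0 < Real.sqrt g := Real.sqrt_pos.2 hg
  have h1 : 1 + 1 / g ≤ (1 + 1 / Real.sqrt g) ^ 2 := by
    have h2 : (1 / Real.sqrt g) ^ 2 = 1 / g := by rw [div_pow, one_pow, Real.sq_sqrt hg.le]
    have h3 : 0 < 1 / Real.sqrt g := by positivity
    nlinarith
  have h4 : Real.log (1 + 1 / g) ≤ Real.log ((1 + 1 / Real.sqrt g) ^ 2) :=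
    Real.log_le_log (by positivity) h1
  rw [Real.log_pow] at h4
  have h5 : Real.log (1 + 1 / Real.sqrt g) ≤ 1 / Real.sqrt g := by
    have h6 := Real.log_le_sub_one_of_pos (x := 1 + 1 / Real.sqrt g) (by positivity)
    linarith
  calc Real.log (1 + 1 / g) ≤ (2 : ℕ) * Real.log (1 + 1 / Real.sqrt g) := h4
    _ ≤ 2 * (1 / Real.sqrt g) := by
      push_cast
      linarith
    _ = 2 / Real.sqrt g := by ring

/-- one increment -/
theorem lamf_step {C0 δ g x : ℝ} (hC : 1 ≤ C0) (hδ : 0 < δ) (hg : 0 < g)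
    (hx : x ≤ δ * (C0 * (1 + 1 / g) ^ 2)) :
    lamf δ x ≤ δ * C0 + 4 * (δ / Real.sqrt g) := by
  have hs : 0 < Real.sqrt g := Real.sqrt_pos.2 hg
  unfold lamf
  split_ifs with h
  · have h1 : δ ≤ δ * C0 := le_mul_of_one_le_right hδ.le hC
    have h2 : 0 ≤ 4 * (δ / Real.sqrt g) := by positivity
    linarith
  · rw [not_le] at h
    have hx0 : 0 < x := hδ.trans h
    have h1 : x / δ ≤ C0 * (1 + 1 / g) ^ 2 := by
      rw [div_le_iff₀ hδ]
      linarith
    have h2 : Real.log (x / δ) ≤ Real.log (C0 * (1 + 1 / g) ^ 2) :=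
      Real.log_le_log (div_pos hx0 hδ) h1
    have h3 : (0 : ℝ) < 1 + 1 / g := by positivity
    rw [Real.log_mul (by positivity) (by positivity), Real.log_pow] at h2
    have h4 := log_le hg
    have h5 := Real.log_le_sub_one_of_pos (x := C0) (by linarith)
    have h6 : Real.log (x / δ) ≤ C0 - 1 + 4 / Real.sqrt g := by
      have h7 : 4 / Real.sqrt g = 2 * (2 / Real.sqrt g) := by ring
      push_cast at h2
      linarith
    have h8 := mul_le_mul_of_nonneg_left h6 hδ.le
    have h9 : δ * (C0 - 1 + 4 / Real.sqrt g) = δ * C0 - δ + 4 * (δ / Real.sqrt g) := by ring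
    linarith

theorem sqrt_step {δ : ℝ} (hδ : 0 < δ) (k : ℕ) :
    4 * (δ / Real.sqrt (((k : ℝ) + 1) * δ)) ≤
      8 * Real.sqrt (((k : ℝ) + 1) * δ) - 8 * Real.sqrt ((k : ℝ) * δ) := by
  have hk : (0 : ℝ) ≤ k := Nat.cast_nonneg k
  set a := Real.sqrt ((k : ℝ) * δ) with ha
  set b := Real.sqrt (((k : ℝ) + 1) * δ) with hb
  have ha0 : 0 ≤ a := Real.sqrt_nonneg _
  have hb0 : 0 < b := Real.sqrt_pos.2 (by positivity)
  have ha2 : a ^ 2 = k * δ := Real.sq_sqrt (by positivity)
  have hb2 : b ^ 2 = (k + 1) * δ := Real.sq_sqrt (by positivity)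
  have hab : a ≤ b := Real.sqrt_le_sqrt (by nlinarith)
  have h1 : δ = (b - a) * (b + a) := by nlinarith
  rw [← mul_div_assoc, div_le_iff₀ hb0, h1]
  nlinarith [mul_nonneg (sub_nonneg.2 hab) (sub_nonneg.2 hab)]

end LamTailAux

open LamTailAux in
theorem stLamTail : StLamTail := by
  intro C0 hC
  refine ⟨(1 / (400 * C0)) ^ 2, by positivity, ?_, ?_⟩
  · have h1 : 1 / (400 * C0) ≤ 1 := by
      rw [div_le_one (by positivity)]
      linarith
    exact pow_le_one₀ (by positivity) h1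
  intro δ q hδ hδ1 hq hL i hi hic
  obtain ⟨-, -, -, -, -, hinc, -⟩ := hq
  by_contra hcon
  rw [not_lt] at hcon
  -- the head
  have hhead : ∀ k, k ≤ md δ → ∑ l ∈ Finset.range k, lamf δ (q l - q (l + 1)) ≤
      (k : ℝ) * δ * C0 + 8 * Real.sqrt ((k : ℝ) * δ) := by
    intro k
    induction k with
    | zero =>
      intro _
      simp
    | succ k ih =>
      intro hk
      rw [Finset.sum_range_succ]
      have h1 := ih (by omega)
      have h2 := lamf_step hC hδ (g := ((k : ℝ) + 1) * δ) (by positivity) (hinc k (by omega))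
      have h3 := sqrt_step hδ k
      push_cast
      linarith
  -- the tail
  have htail : ∀ k, i ≤ k → k ≤ md δ →
      ∑ l ∈ Finset.range k, lamf δ (q l - q (l + 1)) + q k ≤
        ∑ l ∈ Finset.range i, lamf δ (q l - q (l + 1)) + q i := by
    intro k hik
    induction k, hik using Nat.le_induction with
    | base =>
      intro _
      exact le_refl _
    | succ k hk ih =>
      intro hkm
      rw [Finset.sum_range_succ]
      have h1 := ih (by omega)
      have h2 : lamf δ (q k - q (k + 1)) ≤ q k - q (k + 1) := lamf_le hδ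
      linarith
  have h1 := htail (md δ) hi (le_refl _)
  have h2 := hhead i hi
  unfold Lam at hL
  have h3 : (i : ℝ) * δ ≤ (1 / (400 * C0)) ^ 2 := by
    nlinarith
  have h4 : Real.sqrt ((i : ℝ) * δ) ≤ 1 / (400 * C0) := by
    rw [← Real.sqrt_sq (show (0 : ℝ) ≤ 1 / (400 * C0) by positivity)]
    exact Real.sqrt_le_sqrt h3
  have h5 : 1 / (400 * C0) ≤ 1 / 400 := by
    apply one_div_le_one_div_of_le (by norm_num)
    linarith
  have h6 : (1 / (400 * C0)) ^ 2 * C0 ≤ 1 / 400 := by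
    have h7 : (1 / (400 * C0)) ^ 2 * C0 = (1 / (400 * C0)) * (1 / 400) := by
      field_simp
    rw [h7]
    have h8 : 0 ≤ 1 / (400 * C0) := by positivity
    nlinarith
  have h7 : (i : ℝ) * δ * C0 ≤ (1 / (400 * C0)) ^ 2 * C0 :=
    mul_le_mul_of_nonneg_right h3 (by linarith)
  linarith

end Pool.Agent.Lib.MP_193d8d_pr
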