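import Pool.Agent.Lib.MP_193d8d_pr.StA
import Pool.Agent.Lib.MP_193d8d_pr.StB
import Pool.Agent.Lib.MP_193d8d_pr.Base

set_option autoImplicit false
open MeasureTheory Set

/-! D4: the linear term is small. -/

namespace Pool.Agent.Lib.MP_193d8d_pr

namespace LinAux

theorem lev_zero (ε δ : ℝ) (J m : ℕ) : lev ε δ J m 0 = 0 := by simp [lev]

theorem lev_low (ε δ : ℝ) {J m h : ℕ} (h0 : h ≠ 0) (h1 : h ≤ J + 1) :
    lev ε δ J m h = ε * δ * (1 / 2) ^ (J + 1 - h) := by
  simp [lev, h0, h1]

theorem lev_main (ε δ : ℝ) {J m i : ℕ} (hi : i ≤ m) :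
    lev ε δ J m (J + 1 + i) = ε * δ * ((i : ℝ) + 1) := by
  rcases Nat.eq_zero_or_pos i with rfl | hpos
  · rw [lev_low ε δ (by omega) (by omega)]
    simp
  · have h1 : ¬ (J + 1 + i = 0) := by omega
    have h2 : ¬ (J + 1 + i ≤ J + 1) := by omega
    have h3 : J + 1 + i ≤ J + 1 + m := by omega
    simp only [lev, if_neg h1, if_neg h2, if_pos h3]
    push_cast
    ring

theorem lev_top (ε δ : ℝ) {J m h : ℕ} (hh : J + 1 + m < h) : lev ε δ J m h = 1 := by
  have h1 : ¬ (h = 0) := by omega
  have h2 : ¬ (h ≤ J + 1) := by omega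
  have h3 : ¬ (h ≤ J + 1 + m) := by omega
  simp only [lev, if_neg h1, if_neg h2, if_neg h3]

/-- nonnegative increments -/
theorem inc_nonneg {ε δ : ℝ} {J m : ℕ} (hε : 0 < ε) (hδ : 0 < δ) (hm : (m + 1) * δ * ε ≤ 1)
    {h : ℕ} (hh : h ≤ J + m + 1) : 0 ≤ lev ε δ J m (h + 1) - lev ε δ J m h := by
  have hp : 0 < ε * δ := mul_pos hε hδ
  rcases Nat.lt_or_ge h (J + 1) with h1 | h1
  · rcases Nat.eq_zero_or_pos h with rfl | h0
    · rw [lev_zero, lev_low ε δ (by omega) (by omega), sub_zero]
      positivity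
    · rw [lev_low ε δ (by omega) (by omega), lev_low ε δ (by omega) (by omega)]
      have h2 : J + 1 - h = (J + 1 - (h + 1)) + 1 := by omega
      rw [h2, pow_succ]
      have h3 : (0 : ℝ) < (1 / 2) ^ (J + 1 - (h + 1)) := by positivity
      nlinarith
  · obtain ⟨i, rfl⟩ := Nat.exists_eq_add_of_le h1
    rcases Nat.lt_or_ge i m with h2 | h2
    · rw [add_assoc (J + 1) i 1, lev_main ε δ (by omega : i + 1 ≤ m), lev_main ε δ h2.le]
      push_cast
      nlinarith
    · have h3 : i = m := by omega
      subst h3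
      rw [lev_top ε δ (by omega), lev_main ε δ le_rfl]
      nlinarith

/-- decomposition of a function on the edges -/
theorem ext_sum {n : ℕ} (d : Edge n → ℝ) (i j : Fin n) :
    ext 0 d i j = ∑ g, d g * ext 0 (fun f => if f = g then (1 : ℝ) else 0) i j := by
  unfold ext
  split_ifs with h1 h2
  · simp
  · simp
  · simp

/-- linearity of `lin` in the direction -/
theorem lin_sum {n : ℕ} (u d : Edge n → ℝ) (e : Edge n) :
    lin u d e = ∑ g, d g * lin u (fun f => if f = g then 1 else 0) e := by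
  unfold lin
  by_cases h : 0 < cherry u e
  · simp only [if_pos h]
    have h1 : ∑ k ∈ amax u e, (ext 0 d e.a k + ext 0 d k e.b) =
        ∑ g, d g * ∑ k ∈ amax u e, (ext 0 (fun f => if f = g then (1 : ℝ) else 0) e.a k +
          ext 0 (fun f => if f = g then (1 : ℝ) else 0) k e.b) := by
      simp only [Finset.mul_sum]
      rw [Finset.sum_comm]
      refine Finset.sum_congr rfl fun k _ => ?_
      rw [ext_sum d e.a k, ext_sum d k e.b, ← Finset.sum_add_distrib]
      exact Finset.sum_congr rfl fun g _ => by ring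
    rw [h1, Finset.sum_div]
    exact Finset.sum_congr rfl fun g _ => mul_div_assoc _ _ _
  · simp [if_neg h]

/-- sum over the edges -/
theorem sum_lin {n : ℕ} (u d : Edge n → ℝ) : ∑ e, lin u d e = ∑ g, d g * Dw u g := by
  unfold Dw
  simp only [Finset.mul_sum]
  rw [Finset.sum_comm]
  exact Finset.sum_congr rfl fun e _ => lin_sum u d e

/-- the final estimate -/
theorem num {n : ℕ} (hn : 3 ≤ n) {C K L : ℝ} (hC : 1 ≤ C) (hK : 0 < K) (hL : 0 < L) :
    L * rr n * (2 * K * Real.sqrt (C * ((n : ℝ) * (L * rr n) * (1 + n * (L * rr n) ^ 2) ^ 2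
      + (n : ℝ) ^ 2 * (L * rr n) ^ 3))) ≤
    2 * C * K * (1 + L) ^ 4 / Real.sqrt (Real.sqrt n) := by
  have hn0 : (0 : ℝ) < n := by
    have : 0 < n := by omega
    exact_mod_cast this
  set s := Real.sqrt n with hs
  have hs0 : 0 < s := Real.sqrt_pos.2 hn0
  have hns : (n : ℝ) = s ^ 2 := (Real.sq_sqrt hn0.le).symm
  have hr : rr n = 1 / s := rfl
  set t := Real.sqrt s with ht
  have ht0 : 0 < t := Real.sqrt_pos.2 hs0
  have hst : s = t ^ 2 := (Real.sq_sqrt hs0.le).symm
  have h1 : C * ((n : ℝ) * (L * rr n) * (1 + n * (L * rr n) ^ 2) ^ 2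
      + (n : ℝ) ^ 2 * (L * rr n) ^ 3) = C * s * (L * (1 + L ^ 2) ^ 2 + L ^ 3) := by
    rw [hns, hr]
    field_simp
  have h2 : C * s * (L * (1 + L ^ 2) ^ 2 + L ^ 3) ≤ (C * t * (1 + L) ^ 3) ^ 2 := by
    have h3 : L * (1 + L ^ 2) ^ 2 + L ^ 3 ≤ (1 + L) ^ 6 := by
      have : (1 + L) ^ 6 - (L * (1 + L ^ 2) ^ 2 + L ^ 3) =
          1 + 5 * L + 15 * L ^ 2 + 17 * L ^ 3 + 15 * L ^ 4 + 5 * L ^ 5 + L ^ 6 := by ring
      have h4 : 0 ≤ 1 + 5 * L + 15 * L ^ 2 + 17 * L ^ 3 + 15 * L ^ 4 + 5 * L ^ 5 + L ^ 6 := by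
        positivity
      linarith
    have h5 : C * s ≤ C ^ 2 * s := by nlinarith [mul_pos (lt_of_lt_of_le one_pos hC) hs0]
    calc C * s * (L * (1 + L ^ 2) ^ 2 + L ^ 3) ≤ (C ^ 2 * s) * (1 + L) ^ 6 :=
          mul_le_mul h5 h3 (by positivity) (by positivity)
      _ = (C * t * (1 + L) ^ 3) ^ 2 := by rw [hst]; ring
  have h6 : Real.sqrt (C * ((n : ℝ) * (L * rr n) * (1 + n * (L * rr n) ^ 2) ^ 2
      + (n : ℝ) ^ 2 * (L * rr n) ^ 3)) ≤ C * t * (1 + L) ^ 3 := by
    rw [h1]
    exact Real.sqrt_le_iff.2 ⟨by positivity, h2⟩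
  have hr0 : 0 < rr n := by rw [hr]; positivity
  calc L * rr n * (2 * K * Real.sqrt (C * ((n : ℝ) * (L * rr n) * (1 + n * (L * rr n) ^ 2) ^ 2
      + (n : ℝ) ^ 2 * (L * rr n) ^ 3)))
      ≤ L * rr n * (2 * K * (C * t * (1 + L) ^ 3)) := by gcongr
    _ = 2 * C * K * (L * (1 + L) ^ 3) / t := by
        rw [hr, hst]
        field_simp
    _ ≤ 2 * C * K * (1 + L) ^ 4 / t := by
        have h7 : L * (1 + L) ^ 3 ≤ (1 + L) ^ 4 := by
          have : (0 : ℝ) < (1 + L) ^ 3 := by positivity
          nlinarith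
        gcongr

theorem core (hS : StDsym) {C : ℝ} (hC : 1 ≤ C)
    (hD : ∀ (n : ℕ) (κ : Type) [Fintype κ] [DecidableEq κ]
      (p rv : κ → ℝ) (last : κ) (K : ℝ) (g : Edge n) (h0 : κ), 3 ≤ n → (∀ h, 0 ≤ p h) →
      ∑ h, p h = 1 → rv last = -K → (∀ h, rv h ≤ K) →
      EE p (fun c => (Dw (fun f => rv (Function.update c g h0 f)) g
        - EE p (fun c' => Dw (fun f => rv (Function.update c' g h0 f)) g)) ^ 2) ≤
      C * ((n : ℝ) * (1 - p last) * (1 + n * (1 - p last) ^ 2) ^ 2
        + (n : ℝ) ^ 2 * (1 - p last) ^ 3))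
    (n m J H : ℕ) (hH : H = J + m + 1) (δ K : ℝ)
    (a : Edge n → (Edge n → Fin (H + 1)) → ℕ → ℝ) (q : ℕ → ℝ) (hn : 3 ≤ n) (hδ : 0 < δ)
    (hK : 0 < K) (hm : (m + 1) * δ * rr n < 1)
    (ha : ∀ e c h, a e (Function.update c e h) = a e c)
    (hq : ∀ i ≤ m, q i = AV (fun e => EE (wts H (lev (rr n) δ J m))
      (fun c => clamp K (a e c i)))) :
    |AV (fun e => EE (wts H (lev (rr n) δ J m)) (fun c =>
      lin (fun f => ref K J q (c f)) (fun f => val K J a c f - ref K J q (c f)) e))| ≤
      2 * C * K * (1 + (m + 1) * δ) ^ 4 / Real.sqrt (Real.sqrt n) := by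
  classical
  have hn0 : (0 : ℝ) < n := by
    have : 0 < n := by omega
    exact_mod_cast this
  have hr0 : 0 < rr n := by
    unfold rr
    have := Real.sqrt_pos.2 hn0
    positivity
  set p : Fin (H + 1) → ℝ := wts H (lev (rr n) δ J m) with hpdef
  have hp : ∀ h : Fin (H + 1), 0 ≤ p h := by
    intro h
    exact inc_nonneg hr0 hδ hm.le (by have := h.2; omega)
  have hp1 : ∑ h : Fin (H + 1), p h = 1 := by
    have h1 : ∑ h : Fin (H + 1), wts H (lev (rr n) δ J m) h =
        ∑ h ∈ Finset.range (H + 1), (lev (rr n) δ J m (h + 1) - lev (rr n) δ J m h) :=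
      Fin.sum_univ_eq_sum_range (fun h : ℕ => lev (rr n) δ J m (h + 1) - lev (rr n) δ J m h)
        (H + 1)
    rw [hpdef, h1, Finset.sum_range_sub, lev_zero, lev_top _ δ (by omega), sub_zero]
  have hplast : p (Fin.last H) = 1 - (m + 1) * δ * rr n := by
    change lev (rr n) δ J m (H + 1) - lev (rr n) δ J m H = _
    rw [lev_top _ δ (by omega), show H = J + 1 + m by omega, lev_main _ δ le_rfl]
    ring
  have hqK : ∀ i ≤ m, |q i| ≤ K := by
    intro i hi
    rw [hq i hi]
    have h1 : ∀ e : Edge n, EE p (fun c => clamp K (a e c i)) ≤ K := fun e => by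
      calc EE p (fun c => clamp K (a e c i)) ≤ EE p (fun _ => K) :=
            EE_mono hp fun c => clamp_le hK.le
        _ = K := EE_const hp1 K
    have h2 : ∀ e : Edge n, -K ≤ EE p (fun c => clamp K (a e c i)) := fun e => by
      calc -K = EE p (fun _ : Edge n → Fin (H + 1) => -K) := (EE_const hp1 (-K)).symm
        _ ≤ EE p (fun c => clamp K (a e c i)) := EE_mono hp fun c => neg_le_clamp
    rw [abs_le]
    constructor
    · calc -K = AV (fun _ : Edge n => -K) := (AV_const (by omega) _).symm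
        _ ≤ _ := AV_mono h2
    · calc _ ≤ AV (fun _ : Edge n => K) := AV_mono h1
        _ = K := AV_const (by omega) _
  set rv : Fin (H + 1) → ℝ := ref K J q with hrv
  have hrvl : rv (Fin.last H) = -K := by
    rw [hrv]
    unfold ref
    rw [if_pos (Fin.val_last H)]
  have hcls : ∀ h : Fin (H + 1), (h : ℕ) ≠ H → cls J h ≤ m := by
    intro h hh
    unfold cls
    have := h.2
    omega
  have hrvK : ∀ h, rv h ≤ K := by
    intro h
    rw [hrv]
    unfold ref
    split_ifs with h1
    · linarith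
    · exact (abs_le.1 (hqK _ (hcls h h1))).2
  -- the functions
  set D : Edge n → Fin (H + 1) → (Edge n → Fin (H + 1)) → ℝ := fun g h c =>
    Dw (fun f => rv (Function.update c g h f)) g with hDdef
  set w : Edge n → Fin (H + 1) → (Edge n → Fin (H + 1)) → ℝ := fun g h c =>
    if (h : ℕ) = H then 0 else clamp K (a g c (cls J h)) - q (cls J h) with hwdef
  set V : ℝ := C * ((n : ℝ) * (1 - p (Fin.last H)) * (1 + n * (1 - p (Fin.last H)) ^ 2) ^ 2
      + (n : ℝ) ^ 2 * (1 - p (Fin.last H)) ^ 3) with hV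
  have hV0 : 0 ≤ V := by
    have h1 : 0 ≤ 1 - p (Fin.last H) := by
      rw [hplast, sub_sub_cancel]
      positivity
    have h2 : 0 ≤ C := by linarith
    positivity
  have hcard := card_edge_pos (n := n) (by omega)
  -- one coordinate
  have hone : ∀ g : Edge n, EE p (fun c => (val K J a c g - rv (c g)) *
      Dw (fun f => rv (c f)) g) = ∑ h, p h * EE p (fun c => w g h c * D g h c) := by
    intro g
    rw [EE_split p hp1 g, EE_sum]
    refine Finset.sum_congr rfl fun h _ => ?_
    rw [← EE_mul_left]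
    refine EE_congr fun c => ?_
    have h1 : val K J a (Function.update c g h) g - rv (Function.update c g h g) = w g h c := by
      rw [hwdef, hrv]
      unfold val ref
      simp only [Function.update_self, ha]
      split_ifs with h2
      · ring
      · rfl
    rw [h1]
  -- the mean of `w`
  have hw0 : ∀ h, ∑ g, EE p (w g h) = 0 := by
    intro h
    by_cases hh : (h : ℕ) = H
    · refine Finset.sum_eq_zero fun g _ => ?_
      have : w g h = fun _ => 0 := by
        funext c
        simp only [hwdef, if_pos hh]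
      rw [this, EE_const hp1]
    · have h1 : ∀ g : Edge n, EE p (w g h) =
          EE p (fun c => clamp K (a g c (cls J h))) - q (cls J h) := by
        intro g
        have : w g h = fun c => clamp K (a g c (cls J h)) - q (cls J h) := by
          funext c
          simp only [hwdef, if_neg hh]
        rw [this, EE_sub, EE_const hp1]
      simp only [h1]
      rw [Finset.sum_sub_distrib, Finset.sum_const, Finset.card_univ, nsmul_eq_mul]
      have h2 := hq (cls J h) (hcls h hh)
      unfold AV at h2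
      rw [eq_div_iff hcard.ne'] at h2
      linarith
  -- one term
  have hterm : ∀ (g : Edge n) (h : Fin (H + 1)) (g0 : Edge n),
      |EE p (fun c => w g h c * (D g h c - EE p (D g0 h)))| ≤ 2 * K * Real.sqrt V := by
    intro g h g0
    have h0 : EE p (D g0 h) = EE p (D g h) := hS n (Fin (H + 1)) p rv h g0 g
    have h1 := EE_sq_le hp (fun c => w g h c) (fun c => D g h c - EE p (D g0 h))
    have h2 : EE p (fun c => w g h c ^ 2) ≤ (2 * K) ^ 2 := by
      calc EE p (fun c => w g h c ^ 2) ≤ EE p (fun _ => (2 * K) ^ 2) := by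
            refine EE_mono hp fun c => ?_
            rw [sq_le_sq, abs_of_pos (by positivity : 0 < 2 * K)]
            simp only [hwdef]
            split_ifs with hh
            · rw [abs_zero]; positivity
            · have h3 := abs_le.1 (abs_clamp_le (x := a g c (cls J h)) hK.le)
              have h4 := abs_le.1 (hqK _ (hcls h hh))
              rw [abs_le]
              constructor <;> linarith [h3.1, h3.2, h4.1, h4.2]
        _ = (2 * K) ^ 2 := EE_const hp1 _
    have h5 : EE p (fun c => (D g h c - EE p (D g0 h)) ^ 2) ≤ V := by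
      rw [h0]
      exact hD n (Fin (H + 1)) p rv (Fin.last H) K g h hn hp hp1 hrvl hrvK
    have h6 : EE p (fun c => w g h c * (D g h c - EE p (D g0 h))) ^ 2 ≤
        (2 * K * Real.sqrt V) ^ 2 := by
      calc _ ≤ _ := h1
        _ ≤ (2 * K) ^ 2 * V := mul_le_mul h2 h5
            (EE_nonneg hp fun c => sq_nonneg _) (by positivity)
        _ = (2 * K * Real.sqrt V) ^ 2 := by rw [mul_pow (2 * K) (Real.sqrt V), Real.sq_sqrt hV0]
    exact abs_le_of_sq_le_sq h6 (by positivity)
  -- all edges
  have hedges : ∀ h : Fin (H + 1), |∑ g, EE p (fun c => w g h c * D g h c)| ≤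
      (Fintype.card (Edge n) : ℝ) * (if (h : ℕ) = H then 0 else 2 * K * Real.sqrt V) := by
    intro h
    by_cases hh : (h : ℕ) = H
    · rw [if_pos hh, mul_zero]
      have : ∑ g, EE p (fun c => w g h c * D g h c) = 0 := by
        refine Finset.sum_eq_zero fun g _ => ?_
        have : (fun c => w g h c * D g h c) = fun _ => 0 := by
          funext c
          simp only [hwdef, if_pos hh, zero_mul]
        rw [this, EE_const hp1]
      rw [this, abs_zero]
    · rw [if_neg hh]
      obtain ⟨g0⟩ : Nonempty (Edge n) := by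
        by_contra hcon
        rw [not_nonempty_iff] at hcon
        rw [Fintype.card_eq_zero, Nat.cast_zero] at hcard
        exact lt_irrefl _ hcard
      have h1 : ∑ g, EE p (fun c => w g h c * D g h c) =
          ∑ g, EE p (fun c => w g h c * (D g h c - EE p (D g0 h))) := by
        have h2 : ∀ g, EE p (fun c => w g h c * (D g h c - EE p (D g0 h))) =
            EE p (fun c => w g h c * D g h c) - EE p (w g h) * EE p (D g0 h) := by
          intro g
          rw [← EE_mul_right, ← EE_sub]
          exact EE_congr fun c => by ring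
        simp only [h2]
        rw [Finset.sum_sub_distrib, ← Finset.sum_mul, hw0, zero_mul, sub_zero]
      rw [h1]
      calc _ ≤ ∑ g, |EE p (fun c => w g h c * (D g h c - EE p (D g0 h)))| :=
            Finset.abs_sum_le_sum_abs _ _
        _ ≤ ∑ _g : Edge n, 2 * K * Real.sqrt V := Finset.sum_le_sum fun g _ => hterm g h g0
        _ = _ := by rw [Finset.sum_const, Finset.card_univ, nsmul_eq_mul]
  -- assembly
  have hmain : AV (fun e => EE p (fun c =>
      lin (fun f => ref K J q (c f)) (fun f => val K J a c f - ref K J q (c f)) e)) =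
      (∑ h, p h * ∑ g, EE p (fun c => w g h c * D g h c)) / (Fintype.card (Edge n) : ℝ) := by
    unfold AV
    congr 1
    rw [← EE_sum]
    calc EE p (fun c => ∑ e, lin (fun f => ref K J q (c f))
          (fun f => val K J a c f - ref K J q (c f)) e)
        = EE p (fun c => ∑ g, (val K J a c g - rv (c g)) * Dw (fun f => rv (c f)) g) :=
          EE_congr fun c => sum_lin _ _
      _ = ∑ g, EE p (fun c => (val K J a c g - rv (c g)) * Dw (fun f => rv (c f)) g) :=
          EE_sum _ _ _
      _ = ∑ g, ∑ h, p h * EE p (fun c => w g h c * D g h c) :=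
          Finset.sum_congr rfl fun g _ => hone g
      _ = ∑ h, p h * ∑ g, EE p (fun c => w g h c * D g h c) := by
          rw [Finset.sum_comm]
          exact Finset.sum_congr rfl fun h _ => (Finset.mul_sum _ _ _).symm
  rw [hmain, abs_div, abs_of_pos hcard]
  have hsum : |∑ h, p h * ∑ g, EE p (fun c => w g h c * D g h c)| ≤
      (Fintype.card (Edge n) : ℝ) * ((m + 1) * δ * rr n * (2 * K * Real.sqrt V)) := by
    calc _ ≤ ∑ h, |p h * ∑ g, EE p (fun c => w g h c * D g h c)| :=
          Finset.abs_sum_le_sum_abs _ _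
      _ ≤ ∑ h : Fin (H + 1), p h * ((Fintype.card (Edge n) : ℝ) *
            (if (h : ℕ) = H then 0 else 2 * K * Real.sqrt V)) := by
          refine Finset.sum_le_sum fun h _ => ?_
          rw [abs_mul, abs_of_nonneg (hp h)]
          exact mul_le_mul_of_nonneg_left (hedges h) (hp h)
      _ = (Fintype.card (Edge n) : ℝ) * ((1 - p (Fin.last H)) * (2 * K * Real.sqrt V)) := by
          rw [Fin.sum_univ_castSucc]
          have h1 : ∀ i : Fin H, p i.castSucc * ((Fintype.card (Edge n) : ℝ) *
              (if ((i.castSucc : Fin (H + 1)) : ℕ) = H then 0 else 2 * K * Real.sqrt V)) =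
              p i.castSucc * ((Fintype.card (Edge n) : ℝ) * (2 * K * Real.sqrt V)) := by
            intro i
            rw [if_neg]
            rw [Fin.val_castSucc]
            exact i.2.ne
          simp only [h1]
          rw [if_pos (Fin.val_last H), mul_zero, mul_zero, add_zero, ← Finset.sum_mul]
          have h2 := hp1
          rw [Fin.sum_univ_castSucc] at h2
          have h3 : ∑ i : Fin H, p i.castSucc = 1 - p (Fin.last H) := by linarith
          rw [h3]
          ring
      _ = _ := by rw [hplast, sub_sub_cancel]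
  rw [div_le_iff₀ hcard]
  refine hsum.trans ?_
  rw [mul_comm]
  refine mul_le_mul_of_nonneg_right ?_ hcard.le
  have hL : 0 < ((m : ℝ) + 1) * δ := by positivity
  have := num hn hC hK hL
  rw [hV, hplast, sub_sub_cancel]
  exact this

end LinAux

theorem stLin (hD : StDvar) (hS : StDsym) : StLin := by
  obtain ⟨C, hC, hD⟩ := hD
  refine ⟨2 * C, by linarith, ?_⟩
  intro n m J δ K a q hn hδ hK hm ha hq
  exact LinAux.core hS hC hD n m J (J + m + 1) rfl δ K a q hn hδ hK hm ha hq

end Pool.Agent.Lib.MP_193d8d_pr
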