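import Pool.Agent.Lib.MP_193d8d_pr.StA
import Pool.Agent.Lib.MP_193d8d_pr.StB
import Pool.Agent.Lib.MP_193d8d_pr.Base

set_option autoImplicit false
open MeasureTheory Set

namespace Pool.Agent.Lib.MP_193d8d_pr

namespace LowAux

/-! ## edges and cherries -/

section edges

variable {n : ℕ}

theorem edge_eq {i j i' j' : Fin n} {h : i ≠ j} {h' : i' ≠ j'}
    (he : edge i j h = edge i' j' h') : (i = i' ∧ j = j') ∨ (i = j' ∧ j = i') := by
  unfold edge at he
  split_ifs at he with h1 h2 h2 <;> rw [Edge.mk.injEq] at he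
  · exact Or.inl he
  · exact Or.inr he
  · exact Or.inr ⟨he.2, he.1⟩
  · exact Or.inl ⟨he.2, he.1⟩

theorem edge_mk (e : Edge n) : edge e.a e.b e.lt.ne = e := by
  unfold edge
  rw [dif_pos e.lt]

theorem ext_update {κ : Type} (F : κ → ℝ) (c : Edge n → κ) (g : Edge n) (h : κ) {i j : Fin n}
    (hij : i ≠ j) (hg : edge i j hij ≠ g) :
    ext 0 (fun f => F (Function.update c g h f)) i j = ext 0 (fun f => F (c f)) i j := by
  rw [ext_ne 0 _ hij, ext_ne 0 _ hij, Function.update_of_ne hg]

theorem cherry_update {κ : Type} (F : κ → ℝ) (c : Edge n → κ) (e : Edge n) (h : κ) :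
    cherry (fun f => F (Function.update c e h f)) e = cherry (fun f => F (c f)) e := by
  unfold cherry
  congr 1
  funext k
  by_cases hk : k = e.a ∨ k = e.b
  · rw [if_pos hk, if_pos hk]
  · rw [if_neg hk, if_neg hk]
    rw [not_or] at hk
    have h1 : edge e.a k (Ne.symm hk.1) ≠ e := by
      intro h0
      rcases edge_eq (h0.trans (edge_mk e).symm) with h2 | h2
      · exact hk.2 h2.2
      · exact e.lt.ne h2.1
    have h2 : edge k e.b hk.2 ≠ e := by
      intro h0
      rcases edge_eq (h0.trans (edge_mk e).symm) with h2 | h2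
      · exact hk.1 h2.1
      · exact hk.2 h2.1
    rw [ext_update F c e h _ h1, ext_update F c e h _ h2]

theorem cherry_le (v : Edge n → ℝ) (e : Edge n) {K : ℝ} (hK : 0 ≤ K) (hv : ∀ f, v f ≤ K) :
    cherry v e ≤ 2 * K := by
  refine sup0_le (by linarith) fun k => ?_
  by_cases hk : k = e.a ∨ k = e.b
  · rw [if_pos hk]
    linarith
  · rw [if_neg hk]
    rw [not_or] at hk
    rw [ext_ne 0 _ (Ne.symm hk.1), ext_ne 0 _ hk.2]
    linarith [hv (edge e.a k (Ne.symm hk.1)), hv (edge k e.b hk.2)]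

end edges

/-! ## Jensen -/

theorem jensen {ι κ : Type} [Fintype ι] [DecidableEq ι] [Fintype κ] {p : κ → ℝ}
    (hp : ∀ h, 0 ≤ p h) (hp1 : ∑ h, p h = 1) (s : (ι → κ) → ι → ℝ) (hs : ∀ ω e, 0 ≤ s ω e)
    (hs' : ∀ ω e, 0 < p (ω e) → 0 < s ω e) :
    Real.exp (EE p (fun ω => ∑ e, (Real.log (s ω e) - Real.log (p (ω e))))) ≤
      ∑ ω, ∏ e, s ω e := by
  set L : (ι → κ) → ℝ := fun ω => ∑ e, (Real.log (s ω e) - Real.log (p (ω e))) with hL
  set E : ℝ := EE p L with hE
  have h1 : Real.exp E = EE p (fun ω => Real.exp E * (1 + (L ω - E))) := by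
    rw [EE_mul_left, EE_add, EE_sub, EE_one hp1, EE_const hp1, ← hE, sub_self, add_zero, mul_one]
  rw [h1]
  unfold EE
  refine Finset.sum_le_sum fun ω _ => ?_
  by_cases h0 : ∏ e, p (ω e) = 0
  · rw [h0, zero_mul]
    exact Finset.prod_nonneg fun e _ => hs ω e
  · have h2 : ∀ e, 0 < p (ω e) := fun e =>
      lt_of_le_of_ne (hp _) (Ne.symm (Finset.prod_ne_zero_iff.1 h0 e (Finset.mem_univ e)))
    have h3 : Real.exp (L ω) * ∏ e, p (ω e) = ∏ e, s ω e := by
      rw [hL, Real.exp_sum, ← Finset.prod_mul_distrib]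
      refine Finset.prod_congr rfl fun e _ => ?_
      rw [Real.exp_sub, Real.exp_log (hs' ω e (h2 e)), Real.exp_log (h2 e),
        div_mul_cancel₀ _ (h2 e).ne']
    have h4 : Real.exp E * (1 + (L ω - E)) ≤ Real.exp (L ω) := by
      have h5 := Real.add_one_le_exp (L ω - E)
      calc Real.exp E * (1 + (L ω - E)) ≤ Real.exp E * Real.exp (L ω - E) := by
            refine mul_le_mul_of_nonneg_left ?_ (Real.exp_pos E).le
            linarith
        _ = Real.exp (L ω) := by
            rw [← Real.exp_add]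
            congr 1
            ring
    calc (∏ e, p (ω e)) * (Real.exp E * (1 + (L ω - E)))
        ≤ (∏ e, p (ω e)) * Real.exp (L ω) :=
          mul_le_mul_of_nonneg_left h4 (Finset.prod_nonneg fun e _ => (h2 e).le)
      _ = ∏ e, s ω e := by rw [mul_comm, h3]

theorem log_ge {y : ℝ} (hy : -(1 / 2) ≤ y) : y - 2 * y ^ 2 ≤ Real.log (1 + y) := by
  have h0 : 0 < 1 + y := by linarith
  refine le_trans ?_ (Real.one_sub_inv_le_log_of_pos h0)
  have h1 : 1 - (1 + y)⁻¹ = y / (1 + y) := by
    field_simp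
    ring
  rw [h1, le_div_iff₀ h0]
  nlinarith [sq_nonneg y, mul_nonneg (sq_nonneg y) (show (0 : ℝ) ≤ 1 + 2 * y by linarith)]

/-! ## the weights -/

section weights

/-- the weights -/
noncomputable def pp (r δ : ℝ) (m : ℕ) (q : ℕ → ℝ) (i : Fin (m + 1)) : ℝ :=
  if (i : ℕ) = m then 1 - ∑ j ∈ Finset.range m, r * min δ (q j - q (j + 1))
  else r * min δ (q i - q ((i : ℕ) + 1))

variable {r δ : ℝ} {m : ℕ} {q : ℕ → ℝ}

theorem pp_last : pp r δ m q (Fin.last m) =
    1 - ∑ j ∈ Finset.range m, r * min δ (q j - q (j + 1)) := by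
  unfold pp
  rw [if_pos (Fin.val_last m)]

theorem pp_cast (i : Fin m) : pp r δ m q i.castSucc = r * min δ (q i - q ((i : ℕ) + 1)) := by
  unfold pp
  rw [if_neg (by rw [Fin.val_castSucc]; exact i.2.ne), Fin.val_castSucc]

theorem sum_pp : ∑ i, pp r δ m q i = 1 := by
  rw [Fin.sum_univ_castSucc, pp_last]
  simp only [pp_cast]
  rw [Finset.sum_range (fun j => r * min δ (q j - q (j + 1)))]
  ring

variable (hr : 0 < r) (hδ : 0 < δ) (hq : ∀ i < m, q (i + 1) ≤ q i) (hrm : r * (m * δ) ≤ 1 / 2)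

include hr in
theorem P_le : ∑ j ∈ Finset.range m, r * min δ (q j - q (j + 1)) ≤ r * (m * δ) := by
  calc ∑ j ∈ Finset.range m, r * min δ (q j - q (j + 1)) ≤ ∑ j ∈ Finset.range m, r * δ :=
        Finset.sum_le_sum fun j _ => mul_le_mul_of_nonneg_left (min_le_left _ _) hr.le
    _ = r * (m * δ) := by
        rw [Finset.sum_const, Finset.card_range, nsmul_eq_mul]
        ring

include hr hδ hq in
theorem P_nonneg : 0 ≤ ∑ j ∈ Finset.range m, r * min δ (q j - q (j + 1)) :=
  Finset.sum_nonneg fun j hj => mul_nonneg hr.le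
    (le_min hδ.le (sub_nonneg.2 (hq j (Finset.mem_range.1 hj))))

include hr hδ hq hrm in
theorem pp_nonneg (i : Fin (m + 1)) : 0 ≤ pp r δ m q i := by
  unfold pp
  split_ifs with h
  · have := P_le (δ := δ) (m := m) (q := q) hr
    linarith
  · refine mul_nonneg hr.le (le_min hδ.le (sub_nonneg.2 (hq i ?_)))
    have := i.2
    omega

end weights

end LowAux

open LowAux in
/-- C5: the lower bound -/
theorem stLow (hLB : StLowBox) (hBD : StBetaDom) : StLow := by
  intro δ K m hδ hK
  obtain ⟨n1, hn1⟩ := hLB K m hK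
  set A : ℝ := 2 * ((m + 1) * δ) + 6 * K with hA
  have hA0 : 0 < A := by positivity
  refine ⟨(m * δ) ^ 2 + 3 * K * (m * δ) + 18 * K ^ 2, max n1 (⌈A ^ 2⌉₊ + 2), ?_⟩
  intro n hn q hq hqK hq0
  have hnn1 : n1 ≤ n := (le_max_left _ _).trans hn
  have hn2 : ⌈A ^ 2⌉₊ + 2 ≤ n := (le_max_right _ _).trans hn
  obtain ⟨hside0, hsum⟩ := hn1 n hnn1 q hq hqK hq0
  have hn0 : (0 : ℝ) < n := by
    have : 0 < n := by omega
    exact_mod_cast this
  have hsq : A ≤ Real.sqrt n := by
    refine Real.le_sqrt_of_sq_le ?_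
    have h1 := Nat.le_ceil (A ^ 2)
    have h2 : ((⌈A ^ 2⌉₊ : ℕ) : ℝ) ≤ n := by
      have : ⌈A ^ 2⌉₊ ≤ n := by omega
      exact_mod_cast this
    linarith
  have hs0 : 0 < Real.sqrt n := Real.sqrt_pos.2 hn0
  set r : ℝ := rr n with hr
  have hr' : r = 1 / Real.sqrt n := rfl
  have hr0 : 0 < r := by
    rw [hr']
    positivity
  have hrA : r * A ≤ 1 := by
    rw [hr', div_mul_eq_mul_div, one_mul, div_le_one hs0]
    exact hsq
  have hm0 : (0 : ℝ) ≤ m := Nat.cast_nonneg m
  have hrm : r * (m * δ) ≤ 1 / 2 := by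
    have h1 : r * (2 * (m * δ)) ≤ r * A := by
      refine mul_le_mul_of_nonneg_left ?_ hr0.le
      rw [hA]
      nlinarith
    linarith
  have hrm1 : (m + 1) * (δ * r) ≤ 1 := by
    have h1 : r * ((m + 1) * δ) ≤ r * A := by
      refine mul_le_mul_of_nonneg_left ?_ hr0.le
      rw [hA]
      nlinarith
    nlinarith
  have hrK : 3 * K * r ≤ 1 / 2 := by
    have h1 : r * (6 * K) ≤ r * A := by
      refine mul_le_mul_of_nonneg_left ?_ hr0.le
      rw [hA]
      nlinarith
    linarith
  -- the weights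
  set p : Fin (m + 1) → ℝ := pp r δ m q with hp
  have hp0 : ∀ i, 0 ≤ p i := pp_nonneg hr0 hδ hq hrm
  have hp1 : ∑ i, p i = 1 := sum_pp
  set P : ℝ := ∑ j ∈ Finset.range m, r * min δ (q j - q (j + 1)) with hP
  have hP0 : 0 ≤ P := P_nonneg hr0 hδ hq
  have hP1 : P ≤ r * (m * δ) := P_le hr0
  have hpl : p (Fin.last m) = 1 - P := pp_last
  -- the values
  set V : Fin (m + 1) → ℝ := fun i => if (i : ℕ) = m then -K else q i with hV
  have hVK : ∀ i, V i ≤ K := by
    intro i
    change (if (i : ℕ) = m then -K else q i) ≤ K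
    split_ifs with h
    · linarith
    · have := i.2
      exact (abs_le.1 (hqK i (by omega))).2
  have hch : ∀ (ω : Edge n → Fin (m + 1)) (e : Edge n), 0 ≤ cherry (fun f => V (ω f)) e ∧
      cherry (fun f => V (ω f)) e ≤ 2 * K := fun ω e =>
    ⟨sup0_nonneg _, cherry_le _ e hK.le fun f => hVK _⟩
  set Y : Edge n → (Edge n → Fin (m + 1)) → ℝ :=
    fun e ω => r * (q m - cherry (fun f => V (ω f)) e) with hY
  have hYb : ∀ e ω, |Y e ω| ≤ 3 * K * r := by
    intro e ω
    have h1 := abs_le.1 (hqK m le_rfl)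
    have h2 := hch ω e
    change |r * (q m - cherry (fun f => V (ω f)) e)| ≤ _
    rw [abs_mul, abs_of_pos hr0, mul_comm]
    refine mul_le_mul_of_nonneg_right ?_ hr0.le
    rw [abs_le]
    constructor <;> linarith
  have hlast : ∀ (ω : Edge n → Fin (m + 1)) (e : Edge n), (ω e : ℕ) = m →
      lowside r K m q ω e = 1 + Y e ω := by
    intro ω e h
    unfold lowside
    rw [if_pos h]
  have hnot : ∀ (ω : Edge n → Fin (m + 1)) (e : Edge n), (ω e : ℕ) ≠ m →
      lowside r K m q ω e = r * (q (ω e) - q ((ω e : ℕ) + 1)) := by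
    intro ω e h
    unfold lowside
    rw [if_neg h]
  have hpos : ∀ (ω : Edge n → Fin (m + 1)) (e : Edge n), 0 < p (ω e) →
      0 < lowside r K m q ω e := by
    intro ω e h
    by_cases hm : (ω e : ℕ) = m
    · rw [hlast ω e hm]
      have := (abs_le.1 (hYb e ω)).1
      linarith
    · rw [hnot ω e hm]
      have h1 : p (ω e) = r * min δ (q (ω e) - q ((ω e : ℕ) + 1)) := by
        rw [hp]
        unfold pp
        rw [if_neg hm]
      rw [h1] at h
      have h2 : 0 < min δ (q (ω e) - q ((ω e : ℕ) + 1)) := by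
        by_contra hcon
        exact absurd h (not_lt.2 (mul_nonpos_of_nonneg_of_nonpos hr0.le (not_lt.1 hcon)))
      exact mul_pos hr0 (lt_min_iff.1 h2).2
  have hJ := jensen hp0 hp1 (fun ω e => lowside r K m q ω e) hside0 hpos
  have hE : EE p (fun ω : Edge n → Fin (m + 1) => ∑ e, (Real.log (lowside r K m q ω e) -
      Real.log (p (ω e)))) ≤ Real.log (vol (M 0 n)) := by
    have h1 := hJ.trans hsum
    rw [Real.le_log_iff_exp_le (lt_of_lt_of_le (Real.exp_pos _) h1)]
    exact h1
  -- one edge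
  have hone : ∀ e : Edge n, r * (Lam δ m q - beta (n - 2) (δ * r) m q) -
      r ^ 2 * ((m * δ) ^ 2 + 3 * K * (m * δ) + 18 * K ^ 2) ≤
      EE p (fun ω : Edge n → Fin (m + 1) => Real.log (lowside r K m q ω e) -
        Real.log (p (ω e))) := by
    intro e
    set g : Fin (m + 1) → ℝ := fun i => if (i : ℕ) = m then - Real.log (p i)
      else Real.log (r * (q i - q ((i : ℕ) + 1))) - Real.log (p i) with hg
    set ind : Fin (m + 1) → ℝ := fun i => if (i : ℕ) = m then 1 else 0 with hind
    have h1 : ∀ ω : Edge n → Fin (m + 1), g (ω e) * 1 + ind (ω e) * (Y e ω - 2 * Y e ω ^ 2) ≤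
        Real.log (lowside r K m q ω e) - Real.log (p (ω e)) := by
      intro ω
      by_cases hm : (ω e : ℕ) = m
      · have h2 : g (ω e) = - Real.log (p (ω e)) := by
          rw [hg]
          exact if_pos hm
        have h3 : ind (ω e) = 1 := if_pos hm
        rw [h2, h3, hlast ω e hm]
        have h4 := log_ge (y := Y e ω) (by
          have := (abs_le.1 (hYb e ω)).1
          linarith)
        linarith
      · have h2 : g (ω e) = Real.log (r * (q (ω e) - q ((ω e : ℕ) + 1))) -
            Real.log (p (ω e)) := by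
          rw [hg]
          exact if_neg hm
        have h3 : ind (ω e) = 0 := if_neg hm
        rw [h2, h3, hnot ω e hm]
        linarith
    refine le_trans ?_ (EE_mono hp0 h1)
    have hYu : ∀ (c : Edge n → Fin (m + 1)) (h : Fin (m + 1)),
        Y e (Function.update c e h) = Y e c := by
      intro c h
      change r * (q m - cherry (fun f => V (Function.update c e h f)) e) =
        r * (q m - cherry (fun f => V (c f)) e)
      rw [cherry_update V c e h]
    rw [EE_add, EE_indep hp1 e g (fun _ => 1) (fun _ _ => rfl), EE_one hp1, mul_one,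
      EE_indep hp1 e ind (fun ω => Y e ω - 2 * Y e ω ^ 2) (fun c h => by rw [hYu c h])]
    have h2 : ∑ h, p h * ind h = 1 - P := by
      rw [Fin.sum_univ_castSucc]
      have h3 : ∀ i : Fin m, p i.castSucc * ind i.castSucc = 0 := by
        intro i
        have h4 : ind i.castSucc = 0 := if_neg (by rw [Fin.val_castSucc]; exact i.2.ne)
        rw [h4, mul_zero]
      have h5 : ind (Fin.last m) = 1 := if_pos (Fin.val_last m)
      rw [Finset.sum_congr rfl fun i _ => h3 i, Finset.sum_const_zero, zero_add, h5, hpl, mul_one]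
    have h3 : r * (Lam δ m q - q m) - P ^ 2 ≤ ∑ h, p h * g h := by
      rw [Fin.sum_univ_castSucc]
      have h4 : ∀ i : Fin m, p i.castSucc * g i.castSucc =
          r * lamf δ (q i - q ((i : ℕ) + 1)) - r * min δ (q i - q ((i : ℕ) + 1)) := by
        intro i
        have h5 : g i.castSucc = Real.log (r * (q i - q ((i : ℕ) + 1))) -
            Real.log (p i.castSucc) := by
          have h6 : ¬ ((i.castSucc : Fin (m + 1)) : ℕ) = m := by
            rw [Fin.val_castSucc]
            exact i.2.ne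
          rw [hg]
          simp only
          rw [if_neg h6, Fin.val_castSucc]
        have h6 : p i.castSucc = r * min δ (q i - q ((i : ℕ) + 1)) := pp_cast i
        rw [h5, h6]
        unfold lamf
        set x : ℝ := q i - q ((i : ℕ) + 1) with hx
        by_cases hxd : x ≤ δ
        · rw [if_pos hxd, min_eq_right hxd, sub_self, mul_zero, sub_self]
        · rw [if_neg hxd]
          rw [not_le] at hxd
          rw [min_eq_left hxd.le, Real.log_mul hr0.ne' (hδ.trans hxd).ne',
            Real.log_mul hr0.ne' hδ.ne', Real.log_div (hδ.trans hxd).ne' hδ.ne']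
          ring
      have h5 : g (Fin.last m) = - Real.log (1 - P) := by
        rw [hg]
        simp only
        rw [if_pos (Fin.val_last m), hpl]
      rw [Finset.sum_congr rfl fun i _ => h4 i, h5, hpl, Finset.sum_sub_distrib]
      have h6 : ∑ i : Fin m, r * min δ (q i - q ((i : ℕ) + 1)) = P :=
        (Finset.sum_range (fun j => r * min δ (q j - q (j + 1)))).symm
      have h7 : ∑ i : Fin m, r * lamf δ (q i - q ((i : ℕ) + 1)) = r * (Lam δ m q - q m) := by
        rw [← Finset.mul_sum]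
        unfold Lam
        rw [Finset.sum_range (fun i => lamf δ (q i - q (i + 1)))]
        ring
      rw [h6, h7]
      have h8 : 0 < 1 - P := by linarith
      have h9 := Real.log_le_sub_one_of_pos h8
      have h10 : (1 - P) * Real.log (1 - P) ≤ (1 - P) * (1 - P - 1) :=
        mul_le_mul_of_nonneg_left h9 h8.le
      nlinarith
    have h4 : EE p (fun ω : Edge n → Fin (m + 1) => Y e ω - 2 * Y e ω ^ 2) =
        r * q m - r * EE p (fun ω : Edge n → Fin (m + 1) => cherry (fun f => V (ω f)) e) -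
          2 * EE p (fun ω : Edge n → Fin (m + 1) => Y e ω ^ 2) := by
      have h5 : EE p (Y e) = r * q m -
          r * EE p (fun ω : Edge n → Fin (m + 1) => cherry (fun f => V (ω f)) e) := by
        change EE p (fun ω => r * (q m - cherry (fun f => V (ω f)) e)) = _
        rw [EE_mul_left, EE_sub, EE_const hp1]
        ring
      have h6 : EE p (fun ω : Edge n → Fin (m + 1) => Y e ω - 2 * Y e ω ^ 2) =
          EE p (Y e) - EE p (fun ω : Edge n → Fin (m + 1) => 2 * Y e ω ^ 2) :=
        EE_sub p (Y e) (fun ω => 2 * Y e ω ^ 2)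
      rw [h6, h5, EE_mul_left p 2 (fun ω : Edge n → Fin (m + 1) => Y e ω ^ 2)]
    have h5 : EE p (fun ω : Edge n → Fin (m + 1) => cherry (fun f => V (ω f)) e) ≤
        beta (n - 2) (δ * r) m q := by
      refine hBD n m (δ * r) K p q e (by omega) (mul_pos hδ hr0).le hp0 hp1 ?_ hK.le hqK hrm1
      intro i hi
      have h6 : p i = r * min δ (q i - q ((i : ℕ) + 1)) := by
        rw [hp]
        unfold pp
        rw [if_neg hi.ne]
      rw [h6, mul_comm δ r]
      exact mul_le_mul_of_nonneg_left (min_le_left _ _) hr0.le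
    have h6 : EE p (fun ω : Edge n → Fin (m + 1) => Y e ω ^ 2) ≤ (3 * K * r) ^ 2 := by
      rw [← EE_const (ι := Edge n) hp1 ((3 * K * r) ^ 2)]
      refine EE_mono hp0 fun ω => ?_
      exact sq_le_sq' (abs_le.1 (hYb e ω)).1 (abs_le.1 (hYb e ω)).2
    have h7 : 0 ≤ EE p (fun ω : Edge n → Fin (m + 1) => Y e ω ^ 2) :=
      EE_nonneg hp0 fun ω => sq_nonneg _
    have h8 : 0 ≤ EE p (fun ω : Edge n → Fin (m + 1) => cherry (fun f => V (ω f)) e) :=
      EE_nonneg hp0 fun ω => (hch ω e).1
    have h9 : EE p (fun ω : Edge n → Fin (m + 1) => cherry (fun f => V (ω f)) e) ≤ 2 * K := by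
      rw [← EE_const (ι := Edge n) hp1 (2 * K)]
      exact EE_mono hp0 fun ω => (hch ω e).2
    rw [h2, h4]
    set c : ℝ := EE p (fun ω : Edge n → Fin (m + 1) => cherry (fun f => V (ω f)) e) with hc
    set y2 : ℝ := EE p (fun ω : Edge n → Fin (m + 1) => Y e ω ^ 2) with hy2
    have hqm := abs_le.1 (hqK m le_rfl)
    clear_value c y2
    have h10 : (1 - P) * (2 * y2) ≤ 2 * (3 * K * r) ^ 2 := by
      have := mul_nonneg hP0 h7
      linarith
    have h11 : P * (r * (q m - c)) ≤ r * (m * δ) * (r * (3 * K)) := by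
      calc P * (r * (q m - c)) ≤ P * (r * (3 * K)) := by
            refine mul_le_mul_of_nonneg_left (mul_le_mul_of_nonneg_left ?_ hr0.le) hP0
            linarith
        _ ≤ r * (m * δ) * (r * (3 * K)) :=
            mul_le_mul_of_nonneg_right hP1 (by positivity)
    have h12 : P ^ 2 ≤ (r * (m * δ)) ^ 2 := pow_le_pow_left₀ hP0 hP1 2
    have h13 : r * c ≤ r * beta (n - 2) (δ * r) m q := mul_le_mul_of_nonneg_left h5 hr0.le
    have h14 : (1 - P) * (r * q m - r * c - 2 * y2) =
        r * (q m - c) - P * (r * (q m - c)) - (1 - P) * (2 * y2) := by ring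
    have h15 : r ^ 2 * ((m * δ) ^ 2 + 3 * K * (m * δ) + 18 * K ^ 2) =
        (r * (m * δ)) ^ 2 + r * (m * δ) * (r * (3 * K)) + 2 * (3 * K * r) ^ 2 := by ring
    rw [h14, h15]
    have h16 : r * (q m - c) = r * q m - r * c := by ring
    have h17 : r * (Lam δ m q - q m) = r * Lam δ m q - r * q m := by ring
    have h18 : r * (Lam δ m q - beta (n - 2) (δ * r) m q) =
        r * Lam δ m q - r * beta (n - 2) (δ * r) m q := by ring
    rw [h17] at h3
    rw [h18]
    linarith
  -- the sum
  have hcard := card_edge_pos (n := n) (by omega)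
  have hfin : (Fintype.card (Edge n) : ℝ) * (r * (Lam δ m q - beta (n - 2) (δ * r) m q) -
      r ^ 2 * ((m * δ) ^ 2 + 3 * K * (m * δ) + 18 * K ^ 2)) ≤ Real.log (vol (M 0 n)) := by
    refine le_trans ?_ hE
    rw [EE_sum]
    calc (Fintype.card (Edge n) : ℝ) * (r * (Lam δ m q - beta (n - 2) (δ * r) m q) -
          r ^ 2 * ((m * δ) ^ 2 + 3 * K * (m * δ) + 18 * K ^ 2))
        = ∑ _e : Edge n, (r * (Lam δ m q - beta (n - 2) (δ * r) m q) -
          r ^ 2 * ((m * δ) ^ 2 + 3 * K * (m * δ) + 18 * K ^ 2)) := by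
          rw [Finset.sum_const, Finset.card_univ, nsmul_eq_mul]
      _ ≤ _ := Finset.sum_le_sum fun e _ => hone e
  unfold vv
  rw [le_div_iff₀ (mul_pos hcard hr0)]
  refine le_trans (le_of_eq ?_) hfin
  ring

end Pool.Agent.Lib.MP_193d8d_pr
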