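import Pool.Agent.Lib.MP_193d8d_pr.StA
import Pool.Agent.Lib.MP_193d8d_pr.StB
import Pool.Agent.Lib.MP_193d8d_pr.Base

set_option autoImplicit false
open MeasureTheory Set

namespace Pool.Agent.Lib.MP_193d8d_pr

namespace LowBoxAux

variable {n : ℕ}

/-- the reference values -/
noncomputable def vl (K : ℝ) (m : ℕ) (q : ℕ → ℝ) (ω : Edge n → Fin (m + 1)) (f : Edge n) : ℝ :=
  if (ω f : ℕ) = m then -K else q (ω f)

/-- lower ends -/
noncomputable def lowe (r : ℝ) (m : ℕ) (q : ℕ → ℝ) (ω : Edge n → Fin (m + 1)) (e : Edge n) : ℝ :=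
  1 - r * q (ω e)

/-- upper ends -/
noncomputable def uppe (r K : ℝ) (m : ℕ) (q : ℕ → ℝ) (ω : Edge n → Fin (m + 1)) (e : Edge n) : ℝ :=
  if (ω e : ℕ) = m then 2 - r * cherry (vl K m q ω) e else 1 - r * q ((ω e : ℕ) + 1)

theorem side (r K : ℝ) (m : ℕ) (q : ℕ → ℝ) (ω : Edge n → Fin (m + 1)) (e : Edge n) :
    uppe r K m q ω e - lowe r m q ω e = lowside r K m q ω e := by
  unfold uppe lowe lowside
  split_ifs with h
  · rw [h]
    show 2 - r * cherry (vl K m q ω) e - (1 - r * q m) =
      1 + r * (q m - cherry (vl K m q ω) e)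
    ring
  · ring

theorem le_cherry (v : Edge n → ℝ) {i j k : Fin n} (hij : i ≠ j) (hik : i ≠ k) (hkj : k ≠ j) :
    ext 0 v i k + ext 0 v k j ≤ cherry v (edge i j hij) := by
  have h := le_sup0 (fun k : Fin n => if k = (edge i j hij).a ∨ k = (edge i j hij).b then 0 else
    ext 0 v (edge i j hij).a k + ext 0 v k (edge i j hij).b) k
  refine le_trans (le_of_eq ?_) h
  by_cases hlt : i < j
  · have e1 : (edge i j hij).a = i := by simp [edge, hlt]
    have e2 : (edge i j hij).b = j := by simp [edge, hlt]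
    simp only [e1, e2, hik.symm, hkj, or_self, if_false]
  · have e1 : (edge i j hij).a = j := by simp [edge, hlt]
    have e2 : (edge i j hij).b = i := by simp [edge, hlt]
    simp only [e1, e2, hik.symm, hkj, or_self, if_false]
    rw [ext_symm 0 v j k, ext_symm 0 v k i]
    ring

theorem cherry_nonneg (v : Edge n → ℝ) (e : Edge n) : 0 ≤ cherry v e := sup0_nonneg _

theorem cherry_le {v : Edge n → ℝ} {K : ℝ} (hK : 0 ≤ K) (hv : ∀ f, v f ≤ K) (e : Edge n) :
    cherry v e ≤ 2 * K := by
  refine sup0_le (by linarith) fun k => ?_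
  have h1 : ∀ i j : Fin n, ext 0 v i j ≤ K := by
    intro i j
    unfold ext
    split_ifs
    · exact hv _
    · exact hv _
    · exact hK
  split_ifs
  · linarith
  · linarith [h1 e.a k, h1 k e.b]

/-- the boxes -/
def box (r K : ℝ) (m : ℕ) (q : ℕ → ℝ) (ω : Edge n → Fin (m + 1)) : Set (Edge n → ℝ) :=
  Set.pi univ fun e => Ioc (lowe r m q ω e) (uppe r K m q ω e)

end LowBoxAux

open LowBoxAux

theorem stLowBox : StLowBox := by
  intro K m hK
  refine ⟨⌈9 * K ^ 2⌉₊ + 1, fun n hn q hmono hqK hq0 => ?_⟩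
  have hn1 : 9 * K ^ 2 ≤ (n : ℝ) := (Nat.le_ceil _).trans (by exact_mod_cast (by omega))
  have hn0 : (0 : ℝ) < n := by
    have : 0 < n := by omega
    exact_mod_cast this
  have hsq : 3 * K ≤ Real.sqrt n := by
    refine Real.le_sqrt_of_sq_le ?_
    linarith [hn1, show (3 * K) ^ 2 = 9 * K ^ 2 by ring]
  have hs0 : 0 < Real.sqrt n := Real.sqrt_pos.2 hn0
  set r := rr n with hr
  have hr0 : 0 < r := by
    rw [hr, rr]
    positivity
  have hrK : 3 * (r * K) ≤ 1 := by
    rw [hr, rr]
    rw [show 3 * (1 / Real.sqrt n * K) = (3 * K) / Real.sqrt n by ring, div_le_one hs0]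
    exact hsq
  -- monotonicity
  have hanti : ∀ i j, i ≤ j → j ≤ m → q j ≤ q i := by
    intro i j hij hjm
    induction j, hij using Nat.le_induction with
    | base => exact le_rfl
    | succ j hj ih => exact (hmono j (by omega)).trans (ih (by omega))
  have hqb : ∀ i ≤ m, -(r * K) ≤ r * q i ∧ r * q i ≤ r * K := by
    intro i hi
    have h1 := abs_le.1 (hqK i hi)
    constructor
    · have := mul_le_mul_of_nonneg_left h1.1 hr0.le
      linarith
    · exact mul_le_mul_of_nonneg_left h1.2 hr0.le
  have hωm : ∀ (ω : Edge n → Fin (m + 1)) e, (ω e : ℕ) ≤ m := fun ω e => by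
    have := (ω e).2
    omega
  have hvK : ∀ (ω : Edge n → Fin (m + 1)) f, vl K m q ω f ≤ K := by
    intro ω f
    unfold vl
    split_ifs
    · linarith
    · exact (abs_le.1 (hqK _ (hωm ω f))).2
  have hch : ∀ (ω : Edge n → Fin (m + 1)) e, 0 ≤ r * cherry (vl K m q ω) e ∧
      r * cherry (vl K m q ω) e ≤ 2 * (r * K) := by
    intro ω e
    refine ⟨mul_nonneg hr0.le (cherry_nonneg _ _), ?_⟩
    have := mul_le_mul_of_nonneg_left (cherry_le hK.le (hvK ω) e) hr0.le
    linarith
  have hside : ∀ (ω : Edge n → Fin (m + 1)) (e : Edge n), 0 ≤ lowside r K m q ω e := by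
    intro ω e
    rw [← side]
    unfold uppe lowe
    split_ifs with h
    · have h1 := hqb _ (hωm ω e)
      have h2 := hch ω e
      linarith
    · have h1 : q ((ω e : ℕ) + 1) ≤ q (ω e) := hmono _ (lt_of_le_of_ne (hωm ω e) h)
      have h2 := mul_le_mul_of_nonneg_left h1 hr0.le
      linarith
  refine ⟨hside, ?_⟩
  -- the boxes are in the polytope
  have hsub : ∀ ω : Edge n → Fin (m + 1), box r K m q ω ⊆ M 0 n := by
    intro ω x hx
    have hlow : ∀ e, 1 - r * q (ω e) < x e := fun e => (hx e (mem_univ e)).1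
    have hupp : ∀ e, x e ≤ uppe r K m q ω e := fun e => (hx e (mem_univ e)).2
    have hxlow : ∀ e, 1 - r * K < x e := fun e => by
      have h1 := hqb _ (hωm ω e)
      linarith [hlow e]
    have hshort : ∀ e, (ω e : ℕ) ≠ m → x e ≤ 1 + r * K := by
      intro e he
      have h1 := hupp e
      unfold uppe at h1
      rw [if_neg he] at h1
      have h2 := hqb ((ω e : ℕ) + 1) (lt_of_le_of_ne (hωm ω e) he)
      linarith
    have hlong : ∀ e, (ω e : ℕ) = m → x e ≤ 2 - r * cherry (vl K m q ω) e := by
      intro e he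
      have h1 := hupp e
      unfold uppe at h1
      rwa [if_pos he] at h1
    have hpos : ∀ e, 0 < x e := fun e => by linarith [hxlow e]
    have hle2 : ∀ e, x e ≤ 2 := by
      intro e
      by_cases he : (ω e : ℕ) = m
      · linarith [hlong e he, (hch ω e).1]
      · linarith [hshort e he]
    refine ⟨fun e => ⟨hpos e, hle2 e⟩, fun i j k => ?_⟩
    have hext0 : ∀ i j : Fin n, 0 ≤ ext 0 x i j := by
      intro i j
      unfold ext
      split_ifs
      · exact (hpos _).le
      · exact (hpos _).le
      · exact le_rfl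
    by_cases hij : i = j
    · rw [hij, ext_self]
      exact add_nonneg (hext0 _ _) (hext0 _ _)
    by_cases hik : i = k
    · rw [hik, ext_self, zero_add]
    by_cases hkj : k = j
    · rw [hkj, ext_self, add_zero]
    have hc := le_cherry (vl K m q ω) hij hik hkj
    rw [ext_ne 0 x hij, ext_ne 0 x hik, ext_ne 0 x hkj]
    rw [ext_ne 0 _ hik, ext_ne 0 _ hkj] at hc
    by_cases hm : (ω (edge i j hij) : ℕ) = m
    · have h1 := hlong _ hm
      by_cases hm1 : (ω (edge i k hik) : ℕ) = m
      · have h2 := hlow (edge i k hik)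
        have h3 := hlow (edge k j hkj)
        rw [hm1] at h2
        have h4 : q (ω (edge k j hkj)) ≤ q 0 := hanti _ _ (Nat.zero_le _) (hωm ω _)
        have h5 := mul_le_mul_of_nonneg_left h4 hr0.le
        have h6 := mul_nonneg hr0.le (neg_nonneg.2 hq0)
        linarith [hle2 (edge i j hij)]
      · by_cases hm2 : (ω (edge k j hkj) : ℕ) = m
        · have h2 := hlow (edge i k hik)
          have h3 := hlow (edge k j hkj)
          rw [hm2] at h3
          have h4 : q (ω (edge i k hik)) ≤ q 0 := hanti _ _ (Nat.zero_le _) (hωm ω _)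
          have h5 := mul_le_mul_of_nonneg_left h4 hr0.le
          have h6 := mul_nonneg hr0.le (neg_nonneg.2 hq0)
          linarith [hle2 (edge i j hij)]
        · have h2 := hlow (edge i k hik)
          have h3 := hlow (edge k j hkj)
          have h4 : vl K m q ω (edge i k hik) = q (ω (edge i k hik)) := by
            unfold vl
            rw [if_neg hm1]
          have h5 : vl K m q ω (edge k j hkj) = q (ω (edge k j hkj)) := by
            unfold vl
            rw [if_neg hm2]
          rw [h4, h5] at hc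
          have h6 := mul_le_mul_of_nonneg_left hc hr0.le
          linarith
    · have h1 := hshort _ hm
      have h2 := hxlow (edge i k hik)
      have h3 := hxlow (edge k j hkj)
      linarith
  -- the boxes are disjoint
  have hdisj : Pairwise (Function.onFun Disjoint fun ω : Edge n → Fin (m + 1) =>
      box r K m q ω) := by
    have key : ∀ (ω ω' : Edge n → Fin (m + 1)) (e : Edge n), ω e < ω' e →
        Disjoint (box r K m q ω) (box r K m q ω') := by
      intro ω ω' e hlt
      rw [Set.disjoint_left]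
      intro x hx hx'
      have h1 : x e ≤ uppe r K m q ω e := (hx e (mem_univ e)).2
      have h2 : lowe r m q ω' e < x e := (hx' e (mem_univ e)).1
      have h3 : (ω e : ℕ) < (ω' e : ℕ) := hlt
      have h4 := hωm ω' e
      unfold uppe at h1
      rw [if_neg (by omega)] at h1
      unfold lowe at h2
      have h5 : q (ω' e) ≤ q ((ω e : ℕ) + 1) := hanti _ _ h3 h4
      have h6 := mul_le_mul_of_nonneg_left h5 hr0.le
      linarith
    intro ω ω' hne
    obtain ⟨e, he⟩ := Function.ne_iff.1 hne
    rcases lt_or_gt_of_ne he with h | h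
    · exact key ω ω' e h
    · exact (key ω' ω e h).symm
  have hvol : ∀ ω : Edge n → Fin (m + 1), volume (box r K m q ω) =
      ∏ e, ENNReal.ofReal (lowside r K m q ω e) := by
    intro ω
    unfold box
    rw [Real.volume_pi_Ioc]
    exact Finset.prod_congr rfl fun e _ => by rw [side]
  have hfin : volume (M 0 n) ≠ ⊤ := by
    have h1 : M 0 n ⊆ Icc (fun _ => 0) (fun _ => 2) := fun x hx =>
      ⟨fun e => (hx.1 e).1.le, fun e => (hx.1 e).2⟩
    exact ((measure_mono h1).trans_lt isCompact_Icc.measure_lt_top).ne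
  unfold vol
  rw [← ENNReal.ofReal_le_iff_le_toReal hfin,
    ENNReal.ofReal_sum_of_nonneg fun ω _ => Finset.prod_nonneg fun e _ => hside ω e]
  calc ∑ ω : Edge n → Fin (m + 1), ENNReal.ofReal (∏ e, lowside r K m q ω e)
      = ∑ ω : Edge n → Fin (m + 1), volume (box r K m q ω) := by
        refine Finset.sum_congr rfl fun ω _ => ?_
        rw [hvol, ENNReal.ofReal_prod_of_nonneg fun e _ => hside ω e]
    _ = volume (⋃ ω : Edge n → Fin (m + 1), box r K m q ω) := by
        rw [measure_iUnion hdisj fun ω => MeasurableSet.univ_pi fun e => measurableSet_Ioc,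
          tsum_fintype]
    _ ≤ volume (M 0 n) := measure_mono (iUnion_subset hsub)

end Pool.Agent.Lib.MP_193d8d_pr
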