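import Pool.Agent.Lib.MP_193d8d_pr.StA
import Pool.Agent.Lib.MP_193d8d_pr.StB
import Pool.Agent.Lib.MP_193d8d_pr.Base

set_option autoImplicit false
open MeasureTheory Set Filter Topology

namespace Pool.Agent.Lib.MP_193d8d_pr

namespace MargAux

/-! ### levels -/

section lev

variable {ε δ : ℝ} {J m : ℕ}

theorem lev_zero : lev ε δ J m 0 = 0 := by simp [lev]

theorem lev_low {j : ℕ} (hj : j ≤ J) : lev ε δ J m (J + 1 - j) = ε * δ * (1 / 2) ^ j := by
  have h1 : J + 1 - j ≠ 0 := by omega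
  have h2 : J + 1 - j ≤ J + 1 := by omega
  have h3 : J + 1 - (J + 1 - j) = j := by omega
  rw [lev, if_neg h1, if_pos h2, h3]

theorem lev_main {i : ℕ} (hi : i ≤ m) : lev ε δ J m (J + 1 + i) = ε * δ * (i + 1) := by
  rcases Nat.eq_zero_or_pos i with h | h
  · subst h
    have := lev_low (ε := ε) (δ := δ) (J := J) (m := m) (j := 0) (Nat.zero_le J)
    simpa using this
  · have h1 : J + 1 + i ≠ 0 := by omega
    have h2 : ¬ J + 1 + i ≤ J + 1 := by omega
    have h3 : J + 1 + i ≤ J + 1 + m := by omega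
    rw [lev, if_neg h1, if_neg h2, if_pos h3]
    push_cast
    ring

theorem lev_top : lev ε δ J m (J + m + 1 + 1) = 1 := by
  have h1 : J + m + 1 + 1 ≠ 0 := by omega
  have h2 : ¬ J + m + 1 + 1 ≤ J + 1 := by omega
  have h3 : ¬ J + m + 1 + 1 ≤ J + 1 + m := by omega
  rw [lev, if_neg h1, if_neg h2, if_neg h3]

theorem lev_one : lev ε δ J m 1 = ε * δ * (1 / 2) ^ J := by
  have := lev_low (ε := ε) (δ := δ) (J := J) (m := m) (j := J) le_rfl
  rwa [show J + 1 - J = 1 by omega] at this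

theorem lev_last : lev ε δ J m (J + m + 1) = ε * δ * (m + 1) := by
  have := lev_main (ε := ε) (δ := δ) (J := J) (m := m) (i := m) le_rfl
  rwa [show J + 1 + m = J + m + 1 by omega] at this

theorem lev_lt (hε : 0 < ε) (hδ : 0 < δ) (hm : (m + 1) * δ * ε < 1) :
    ∀ h, h ≤ J + m + 1 → lev ε δ J m h < lev ε δ J m (h + 1) := by
  intro h hh
  have hεδ : 0 < ε * δ := mul_pos hε hδ
  rcases Nat.eq_zero_or_pos h with h0 | h0
  · subst h0
    rw [lev_zero, zero_add, lev_one]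
    positivity
  · by_cases h1 : h ≤ J
    · obtain ⟨j, hj, rfl⟩ : ∃ j, j + 1 ≤ J ∧ h = J + 1 - (j + 1) := ⟨J - h, by omega, by omega⟩
      rw [lev_low hj, show J + 1 - (j + 1) + 1 = J + 1 - j by omega, lev_low (by omega)]
      apply mul_lt_mul_of_pos_left _ hεδ
      rw [pow_succ]
      have : (0 : ℝ) < (1 / 2) ^ j := by positivity
      linarith
    · by_cases h2 : h ≤ J + m
      · obtain ⟨i, hi, rfl⟩ : ∃ i, i + 1 ≤ m ∧ h = J + 1 + i := ⟨h - (J + 1), by omega, by omega⟩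
        rw [lev_main (by omega), show J + 1 + i + 1 = J + 1 + (i + 1) by omega, lev_main hi]
        push_cast
        nlinarith
      · have h3 : h = J + m + 1 := by omega
        subst h3
        rw [lev_last, lev_top]
        nlinarith

end lev

theorem wts_sum (H : ℕ) (l : ℕ → ℝ) (h0 : l 0 = 0) (h1 : l (H + 1) = 1) :
    ∑ h, wts H l h = 1 := by
  have h := Fin.sum_univ_eq_sum_range (fun h => l (h + 1) - l h) (H + 1)
  rw [Finset.sum_range_sub, h0, h1, sub_zero] at h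
  exact h

/-! ### indices of a profile -/

section idx

variable {δ C0 γa Γ t ρ2 : ℝ} {m : ℕ} {q : ℕ → ℝ}

theorem anti (hmono : ∀ i < m, q (i + 1) ≤ q i) {i j : ℕ} (hij : i ≤ j) (hj : j ≤ m) :
    q j ≤ q i := by
  induction j with
  | zero =>
    have : i = 0 := by omega
    rw [this]
  | succ j ih =>
    rcases Nat.lt_or_ge i (j + 1) with h | h
    · exact (hmono j (by omega)).trans (ih (by omega) (by omega))
    · have : i = j + 1 := by omega
      rw [this]

theorem mem_iff (hmono : ∀ i < m, q (i + 1) ≤ q i) {i : ℕ} (hi : i ≤ m) :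
    t < q i ↔ i < ((Finset.range (m + 1)).filter (fun i => t < q i)).card := by
  constructor
  · intro h
    have h1 : Finset.range (i + 1) ⊆ (Finset.range (m + 1)).filter (fun i => t < q i) := by
      intro k hk
      rw [Finset.mem_range] at hk
      rw [Finset.mem_filter, Finset.mem_range]
      exact ⟨by omega, h.trans_le (anti hmono (by omega) hi)⟩
    have h2 := Finset.card_le_card h1
    rw [Finset.card_range] at h2
    omega
  · intro h
    by_contra hn
    have h1 : (Finset.range (m + 1)).filter (fun i => t < q i) ⊆ Finset.range i := by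
      intro k hk
      rw [Finset.mem_filter, Finset.mem_range] at hk
      rw [Finset.mem_range]
      by_contra hki
      exact hn (hk.2.trans_le (anti hmono (by omega) (by omega)))
    have h2 := Finset.card_le_card h1
    rw [Finset.card_range] at h2
    omega

theorem chain (hδ : 0 < δ) (hst : ∀ i < m, ((i : ℝ) + 1) * δ ≤ Γ → δ / 2 ≤ q i - q (i + 1))
    {s : ℕ} (hs : s ≤ m) (hsΓ : ((s : ℝ) + 1) * δ ≤ Γ) (j k : ℕ) (hjk : j + k ≤ s) :
    q (j + k) ≤ q j - k * (δ / 2) := by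
  induction k with
  | zero => simp
  | succ k ih =>
    have h1 := ih (by omega)
    have h2 := hst (j + k) (by omega) (by
      refine le_trans ?_ hsΓ
      have : ((j + k : ℕ) : ℝ) ≤ s := by exact_mod_cast (show j + k ≤ s by omega)
      nlinarith)
    rw [← Nat.add_assoc]
    push_cast
    linarith

theorem idx (hδ : 0 < δ) (hδγ : δ ≤ γa) (hC0 : 1 ≤ C0) (hγ : 0 < γa) (hγ2 : 2 * γa ≤ 1)
    (ht : -1 ≤ t) (hΓ : 2 * C0 + 8 ≤ Γ) (hρ : 0 < ρ2) (hρ2 : ρ2 ≤ 1 / 2)
    (hm : Γ ≤ ((m : ℝ) + 1) * δ) (hmono : ∀ i < m, q (i + 1) ≤ q i)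
    (hup : ∀ i ≤ m, 1 ≤ ((i : ℝ) + 1) * δ → q i ≤ C0 - (i + 1) * δ / 2)
    (hst : ∀ i < m, ((i : ℝ) + 1) * δ ≤ Γ → δ / 2 ≤ q i - q (i + 1))
    (hlow : ∀ i ≤ m, ((i : ℝ) + 1) * δ ≤ 2 * γa → t + 1 ≤ q i) :
    (∃ i ≤ m, γa ≤ ((i : ℝ) + 1) * δ ∧ ((i : ℝ) + 1) * δ ≤ Γ ∧ q i ≤ t - ρ2 ∧
      ((i : ℝ) + 1) * δ ≤ (δ * (((Finset.range (m + 1)).filter (fun i => t < q i)).card : ℝ)) + 2 * ρ2 + 2 * δ) ∧
    (∃ i ≤ m, γa ≤ ((i : ℝ) + 1) * δ ∧ ((i : ℝ) + 1) * δ ≤ Γ ∧ t + ρ2 < q i ∧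
      (δ * (((Finset.range (m + 1)).filter (fun i => t < q i)).card : ℝ)) - 2 * ρ2 - 2 * δ ≤ ((i : ℝ) + 1) * δ) ∧
    0 ≤ (δ * (((Finset.range (m + 1)).filter (fun i => t < q i)).card : ℝ)) ∧ (δ * (((Finset.range (m + 1)).filter (fun i => t < q i)).card : ℝ)) ≤ Γ ∧
    ∃ i ≤ m, 1 ≤ ((i : ℝ) + 1) * δ ∧ ((i : ℝ) + 1) * δ ≤ Γ := by
  set j0 := ((Finset.range (m + 1)).filter (fun i => t < q i)).card with hj0
  have hδ1 : δ ≤ 1 / 2 := by linarith
  have hΓ0 : 0 < Γ := by linarith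
  -- the index of level `Γ`
  obtain ⟨s, hs1, hs2⟩ : ∃ s : ℕ, (s : ℝ) * δ ≤ Γ ∧ Γ < (s + 1) * δ := by
    refine ⟨⌊Γ / δ⌋₊, ?_, ?_⟩
    · have := Nat.floor_le (div_pos hΓ0 hδ).le
      rwa [le_div_iff₀ hδ] at this
    · have := Nat.lt_floor_add_one (Γ / δ)
      rwa [div_lt_iff₀ hδ] at this
  have hs0 : 1 ≤ s := by
    by_contra h
    have : s = 0 := by omega
    subst this
    push_cast at hs2
    linarith
  obtain ⟨st, rfl⟩ : ∃ st, s = st + 1 := ⟨s - 1, by omega⟩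
  push_cast at hs1 hs2
  have hstm : st ≤ m := by
    by_contra h
    have h1 : ((m : ℝ) + 1) ≤ st := by exact_mod_cast (show m + 1 ≤ st by omega)
    nlinarith
  have hq1 : q st ≤ t - 5 / 2 := by
    have := hup st hstm (by linarith)
    linarith
  have hjst : j0 ≤ st := by
    by_contra h
    have := (mem_iff (t := t) hmono hstm).2 (by omega)
    linarith
  -- the number of steps
  obtain ⟨N, hN1, hN2⟩ : ∃ N : ℕ, 2 * ρ2 ≤ N * δ ∧ N * δ ≤ 2 * ρ2 + δ := by
    refine ⟨⌈2 * ρ2 / δ⌉₊, ?_, ?_⟩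
    · have := Nat.le_ceil (2 * ρ2 / δ)
      rwa [div_le_iff₀ hδ] at this
    · have := (Nat.ceil_lt_add_one (show 0 ≤ 2 * ρ2 / δ by positivity)).le
      calc (⌈2 * ρ2 / δ⌉₊ : ℝ) * δ ≤ (2 * ρ2 / δ + 1) * δ := by gcongr
        _ = 2 * ρ2 + δ := by field_simp
  have hle : ∀ i : ℕ, i ≤ st → ((i : ℝ) + 1) * δ ≤ Γ := by
    intro i hi
    refine le_trans ?_ hs1
    have : (i : ℝ) ≤ st := by exact_mod_cast hi
    nlinarith
  refine ⟨?_, ?_, by positivity, ?_, st, hstm, by linarith, hs1⟩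
  · have hga : ∀ i ≤ m, q i ≤ t - ρ2 → γa ≤ ((i : ℝ) + 1) * δ := by
      intro i hi hq
      by_contra h
      have := hlow i hi (by linarith)
      linarith
    by_cases hc : j0 + N ≤ st
    · have hj0m : j0 ≤ m := by omega
      have h1 : q j0 ≤ t := by
        by_contra h
        have := (mem_iff (t := t) hmono hj0m).1 (by linarith)
        omega
      have h2 := chain hδ hst hstm hs1 j0 N hc
      have h3 : q (j0 + N) ≤ t - ρ2 := by linarith
      refine ⟨j0 + N, by omega, hga _ (by omega) h3, hle _ hc, h3, ?_⟩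
      push_cast
      nlinarith
    · have h3 : q st ≤ t - ρ2 := by linarith
      refine ⟨st, hstm, hga _ hstm h3, hs1, h3, ?_⟩
      have : (st : ℝ) + 1 ≤ j0 + N := by exact_mod_cast (show st + 1 ≤ j0 + N by omega)
      nlinarith
  · by_cases hc : N + 1 ≤ j0 ∧ γa ≤ ((j0 : ℝ) - N) * δ
    · obtain ⟨hc1, hc2⟩ := hc
      obtain ⟨i, hi⟩ : ∃ i, j0 = i + N + 1 := ⟨j0 - N - 1, by omega⟩
      have h1 : t < q (i + N) := (mem_iff (t := t) hmono (by omega)).2 (by omega)
      have h2 := chain hδ hst hstm hs1 i N (by omega)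
      have h4 : (j0 : ℝ) = i + N + 1 := by exact_mod_cast hi
      have h5 : ((i : ℝ) + 1) * δ = ((j0 : ℝ) - N) * δ := by
        rw [h4]
        ring
      refine ⟨i, by omega, ?_, hle _ (by omega), by linarith, ?_⟩
      · rw [h5]
        exact hc2
      · rw [h5]
        nlinarith
    · obtain ⟨s1, hs3, hs4⟩ : ∃ s : ℕ, (s : ℝ) * δ ≤ 2 * γa ∧ 2 * γa < (s + 1) * δ := by
        refine ⟨⌊2 * γa / δ⌋₊, ?_, ?_⟩
        · have := Nat.floor_le (show 0 ≤ 2 * γa / δ by positivity)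
          rwa [le_div_iff₀ hδ] at this
        · have := Nat.lt_floor_add_one (2 * γa / δ)
          rwa [div_lt_iff₀ hδ] at this
      have hs5 : 1 ≤ s1 := by
        by_contra h
        have : s1 = 0 := by omega
        subst this
        push_cast at hs4
        linarith
      obtain ⟨i, rfl⟩ : ∃ i, s1 = i + 1 := ⟨s1 - 1, by omega⟩
      push_cast at hs3 hs4
      have him : i ≤ m := by
        by_contra h
        have h1 : ((m : ℝ) + 1) ≤ i := by exact_mod_cast (show m + 1 ≤ i by omega)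
        nlinarith
      have h1 := hlow i him hs3
      have h2 : γa ≤ ((i : ℝ) + 1) * δ := by linarith
      refine ⟨i, him, h2, by linarith, by linarith, ?_⟩
      rw [not_and_or] at hc
      rcases hc with hc | hc
      · have : (j0 : ℝ) ≤ N := by exact_mod_cast (show j0 ≤ N by omega)
        nlinarith
      · rw [not_le] at hc
        nlinarith
  · have : (j0 : ℝ) ≤ st := by exact_mod_cast hjst
    nlinarith

end idx

/-! ### conditional probabilities -/

theorem rr_pos {n : ℕ} (hn : 3 ≤ n) : 0 < rr n := by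
  unfold rr
  have : (0 : ℝ) < n := by exact_mod_cast (show 0 < n by omega)
  positivity

theorem sqrt_rr {n : ℕ} (hn : 3 ≤ n) : Real.sqrt n * rr n = 1 := by
  unfold rr
  have : (0 : ℝ) < n := by exact_mod_cast (show 0 < n by omega)
  have h2 : Real.sqrt n ≠ 0 := (Real.sqrt_pos.2 this).ne'
  field_simp

section tree

variable {n : ℕ} {δ : ℝ} (T : TT δ n)

/-- the part of the polytope -/
abbrev RR (e : Edge n) (c : Edge n → Fin (HH δ n + 1)) : Set (Edge n → ℝ) :=
  Rset (M (9 / 10) n) (HH δ n) T.Q e c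

/-- rescaled conditional distribution function -/
noncomputable def Tc (t : ℝ) (e : Edge n) (c : Edge n → Fin (HH δ n + 1)) : ℝ :=
  Real.sqrt n * (vol (RR T e c ∩ {x | x e < 1 - t * rr n}) / vol (RR T e c))

variable {T}

theorem fin_RR (hV : StVol) (e : Edge n) (c : Edge n → Fin (HH δ n + 1)) :
    volume (RR T e c) ≠ ⊤ := by
  have h1 := (hV (9 / 10) n (by norm_num) (by norm_num)).2.2.1
  exact ne_top_of_le_ne_top h1 (measure_mono fun x hx => hx.1)

theorem vol_mono {E : Type} [Fintype E] [DecidableEq E] {R A B : Set (E → ℝ)}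
    (hR : volume R ≠ ⊤) (h : A ⊆ B) : vol (R ∩ A) ≤ vol (R ∩ B) :=
  ENNReal.toReal_mono (ne_top_of_le_ne_top hR (measure_mono inter_subset_left))
    (measure_mono (inter_subset_inter_right _ h))

theorem cut_vol (hδ : 0 < δ) (hn : 3 ≤ n) (e : Edge n) (c : Edge n → Fin (HH δ n + 1)) {i : ℕ}
    (hi : i ≤ md δ) : vol (RR T e c ∩ {x | x e ≤ T.Q e c (n + 1 + i)}) =
      rr n * δ * (i + 1) * vol (RR T e c) := by
  have hr := rr_pos hn
  have h1 := T.cut e c (n + 1 + i) (by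
    show n + 1 + i ≤ n + md δ + 1 + 1
    omega)
  unfold vol
  rw [h1, ENNReal.toReal_mul, ENNReal.toReal_ofReal]
  · unfold lv
    rw [lev_main hi]
  · unfold lv
    rw [lev_main hi]
    positivity

theorem Tc_le (hV : StVol) (hδ : 0 < δ) (hn : 3 ≤ n) {t : ℝ} {e : Edge n}
    {c : Edge n → Fin (HH δ n + 1)} {i : ℕ} (hi : i ≤ md δ) (hR : 0 < vol (RR T e c))
    (h : ps T.Q (rr n) n e c i ≤ t) : Tc T t e c ≤ ((i : ℝ) + 1) * δ := by
  have hr := rr_pos hn
  have h1 : {x : Edge n → ℝ | x e < 1 - t * rr n} ⊆ {x | x e ≤ T.Q e c (n + 1 + i)} := by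
    intro x hx
    simp only [mem_ofPred_eq] at hx ⊢
    unfold ps at h
    rw [div_le_iff₀ hr] at h
    linarith
  have h2 := vol_mono (fin_RR (T := T) hV e c) h1
  rw [cut_vol hδ hn e c hi] at h2
  unfold Tc
  have h3 : vol (RR T e c ∩ {x | x e < 1 - t * rr n}) / vol (RR T e c) ≤ rr n * δ * (i + 1) := by
    rw [div_le_iff₀ hR]
    exact h2
  calc _ ≤ Real.sqrt n * (rr n * δ * (i + 1)) := mul_le_mul_of_nonneg_left h3 (Real.sqrt_nonneg _)
    _ = (Real.sqrt n * rr n) * (((i : ℝ) + 1) * δ) := by ring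
    _ = _ := by rw [sqrt_rr hn, one_mul]

theorem le_Tc (hV : StVol) (hδ : 0 < δ) (hn : 3 ≤ n) {t : ℝ} {e : Edge n}
    {c : Edge n → Fin (HH δ n + 1)} {i : ℕ} (hi : i ≤ md δ) (hR : 0 < vol (RR T e c))
    (h : t < ps T.Q (rr n) n e c i) : ((i : ℝ) + 1) * δ ≤ Tc T t e c := by
  have hr := rr_pos hn
  have h1 : {x : Edge n → ℝ | x e ≤ T.Q e c (n + 1 + i)} ⊆ {x | x e < 1 - t * rr n} := by
    intro x hx
    simp only [mem_ofPred_eq] at hx ⊢
    unfold ps at h
    rw [lt_div_iff₀ hr] at h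
    linarith
  have h2 := vol_mono (fin_RR (T := T) hV e c) h1
  rw [cut_vol hδ hn e c hi] at h2
  unfold Tc
  have h3 : rr n * δ * (i + 1) ≤ vol (RR T e c ∩ {x | x e < 1 - t * rr n}) / vol (RR T e c) := by
    rw [le_div_iff₀ hR]
    exact h2
  calc ((i : ℝ) + 1) * δ = (Real.sqrt n * rr n) * (((i : ℝ) + 1) * δ) := by
        rw [sqrt_rr hn, one_mul]
    _ = Real.sqrt n * (rr n * δ * (i + 1)) := by ring
    _ ≤ _ := mul_le_mul_of_nonneg_left h3 (Real.sqrt_nonneg _)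

theorem Tc_nonneg (t : ℝ) (e : Edge n) (c : Edge n → Fin (HH δ n + 1)) : 0 ≤ Tc T t e c :=
  mul_nonneg (Real.sqrt_nonneg _) (div_nonneg ENNReal.toReal_nonneg ENNReal.toReal_nonneg)

theorem Tc_gen (hV : StVol) (hδ : 0 < δ) (hn : 3 ≤ n) {t : ℝ} {e : Edge n}
    {c : Edge n → Fin (HH δ n + 1)} {i : ℕ} (hi : i ≤ md δ) (hR : 0 < vol (RR T e c))
    (hx1 : ∀ a b : ℝ, a ≤ b → vol (RR T e c ∩ {x | a < x e ∧ x e ≤ b}) ≤
      (b - a) * vol (cyl (RR T e c) e))
    (hx2 : 7 / 10 * vol (cyl (RR T e c) e) ≤ vol (RR T e c)) :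
    Tc T t e c ≤ ((i : ℝ) + 1) * δ + 10 / 7 * max 0 (ps T.Q (rr n) n e c i - t) := by
  have hr := rr_pos hn
  rcases le_or_gt (ps T.Q (rr n) n e c i) t with h | h
  · have h1 := Tc_le hV hδ hn hi hR h
    have h2 : 0 ≤ max 0 (ps T.Q (rr n) n e c i - t) := le_max_left _ _
    linarith
  · rw [max_eq_right (by linarith)]
    set Q := T.Q e c (n + 1 + i) with hQ
    have hps : 1 - Q = rr n * ps T.Q (rr n) n e c i := by
      unfold ps
      rw [← hQ]
      field_simp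
    have hQt : Q ≤ 1 - t * rr n := by nlinarith
    have h1 : RR T e c ∩ {x | x e < 1 - t * rr n} ⊆ (RR T e c ∩ {x | x e ≤ Q}) ∪
        (RR T e c ∩ {x | Q < x e ∧ x e ≤ 1 - t * rr n}) := by
      rintro x ⟨hx, hx'⟩
      simp only [mem_ofPred_eq] at hx'
      rcases le_or_gt (x e) Q with h3 | h3
      · exact Or.inl ⟨hx, h3⟩
      · exact Or.inr ⟨hx, h3, hx'.le⟩
    have hfin : ∀ A : Set (Edge n → ℝ), volume (RR T e c ∩ A) ≠ ⊤ := fun A =>
      ne_top_of_le_ne_top (fin_RR (T := T) hV e c) (measure_mono inter_subset_left)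
    have h2 : vol (RR T e c ∩ {x | x e < 1 - t * rr n}) ≤ vol (RR T e c ∩ {x | x e ≤ Q}) +
        vol (RR T e c ∩ {x | Q < x e ∧ x e ≤ 1 - t * rr n}) := by
      unfold vol
      rw [← ENNReal.toReal_add (hfin _) (hfin _)]
      exact ENNReal.toReal_mono (ENNReal.add_ne_top.2 ⟨hfin _, hfin _⟩)
        ((measure_mono h1).trans (measure_union_le _ _))
    rw [hQ, cut_vol hδ hn e c hi, ← hQ] at h2
    have h3 := hx1 Q (1 - t * rr n) hQt
    have h4 : (1 - t * rr n - Q) * vol (cyl (RR T e c) e) ≤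
        (1 - t * rr n - Q) * (10 / 7 * vol (RR T e c)) :=
      mul_le_mul_of_nonneg_left (by linarith) (by linarith)
    have h5 : vol (RR T e c ∩ {x | x e < 1 - t * rr n}) / vol (RR T e c) ≤
        rr n * δ * (i + 1) + (1 - t * rr n - Q) * (10 / 7) := by
      rw [div_le_iff₀ hR]
      calc _ ≤ _ := h2
        _ ≤ rr n * δ * (i + 1) * vol (RR T e c) + (1 - t * rr n - Q) * (10 / 7 * vol (RR T e c)) := by
            linarith
        _ = _ := by ring
    unfold Tc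
    calc _ ≤ Real.sqrt n * (rr n * δ * (i + 1) + (1 - t * rr n - Q) * (10 / 7)) :=
          mul_le_mul_of_nonneg_left h5 (Real.sqrt_nonneg _)
      _ = (Real.sqrt n * rr n) * (((i : ℝ) + 1) * δ +
            10 / 7 * (ps T.Q (rr n) n e c i - t)) := by
          rw [show 1 - t * rr n - Q = rr n * (ps T.Q (rr n) n e c i - t) by linarith]
          ring
      _ = _ := by rw [sqrt_rr hn, one_mul]

theorem mean_ind {E : Type} [Fintype E] [DecidableEq E] (R : Set (E → ℝ)) (e : E) (a : ℝ) :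
    mean R (fun x => if x e < a then 1 else 0) = vol (R ∩ {x | x e < a}) / vol R := by
  have hm : MeasurableSet {x : E → ℝ | x e < a} := measurableSet_lt (measurable_pi_apply e) measurable_const
  unfold mean
  congr 1
  have h1 : (fun x : E → ℝ => if x e < a then (1 : ℝ) else 0) =
      ({x : E → ℝ | x e < a}).indicator 1 := by
    funext x
    simp only [indicator, mem_ofPred_eq, Pi.one_apply]
  rw [h1, integral_indicator_one hm, Measure.real, Measure.restrict_apply hm, inter_comm]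
  rfl

end tree

/-! ### edges -/

theorem card_edges {n P : ℕ} (hP : P ≤ n) (h3 : 3 ≤ P) :
    (P : ℝ) ^ 2 / 8 ≤ ((Finset.univ.filter (fun e : Edge n => (e.b : ℕ) < P)).card : ℝ) := by
  set h := P / 2 with hh
  let f : Fin h × Fin (P - h) → Edge n := fun x =>
    ⟨⟨x.1, by omega⟩, ⟨h + x.2, by omega⟩, by
      rw [Fin.lt_def]
      simp only
      omega⟩
  have hf : Function.Injective f := by
    rintro ⟨a, b⟩ ⟨a', b'⟩ heq
    have h1 := congrArg Edge.a heq
    have h2 := congrArg Edge.b heq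
    simp only [f, Fin.mk.injEq] at h1 h2
    refine Prod.ext (Fin.ext h1) (Fin.ext ?_)
    show (b : ℕ) = b'
    omega
  have h1 : (Finset.univ : Finset (Fin h × Fin (P - h))).image f ⊆
      Finset.univ.filter (fun e : Edge n => (e.b : ℕ) < P) := by
    intro e he
    obtain ⟨x, -, rfl⟩ := Finset.mem_image.1 he
    rw [Finset.mem_filter]
    refine ⟨Finset.mem_univ _, ?_⟩
    show h + (x.2 : ℕ) < P
    omega
  have h2 := Finset.card_le_card h1
  rw [Finset.card_image_of_injective _ hf, Finset.card_univ, Fintype.card_prod, Fintype.card_fin,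
    Fintype.card_fin] at h2
  have h4 : (h : ℝ) * (P - h : ℕ) ≤
      ((Finset.univ.filter (fun e : Edge n => (e.b : ℕ) < P)).card : ℝ) := by
    exact_mod_cast h2
  refine le_trans ?_ h4
  have h5 : (P : ℝ) / 4 ≤ h := by
    have : P ≤ 4 * h := by omega
    have : (P : ℝ) ≤ 4 * h := by exact_mod_cast this
    linarith
  have h6 : (P : ℝ) / 2 ≤ (P - h : ℕ) := by
    have : P ≤ 2 * (P - h) := by omega
    have : (P : ℝ) ≤ 2 * (P - h : ℕ) := by exact_mod_cast this
    linarith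
  have h7 : (0 : ℝ) ≤ P := Nat.cast_nonneg _
  calc (P : ℝ) ^ 2 / 8 = (P / 4) * (P / 2) := by ring
    _ ≤ _ := by gcongr

theorem dev_le {n : ℕ} {δ : ℝ} {T : TT δ n} {γa Γ ρ2 : ℝ} {e : Edge n}
    {c : Edge n → Fin (HH δ n + 1)} (h : dev T γa Γ e c ≤ ρ2) {i : ℕ} (hi : i ≤ md δ)
    (h1 : γa ≤ ((i : ℝ) + 1) * δ) (h2 : ((i : ℝ) + 1) * δ ≤ Γ) :
    |pos T e c i - qv T i| ≤ ρ2 := by
  refine le_trans ?_ h
  have h3 := le_sup0 (fun i : Fin (md δ + 1) =>
    if γa ≤ ((i : ℕ) + 1 : ℝ) * δ ∧ ((i : ℕ) + 1 : ℝ) * δ ≤ Γ then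
    |pos T e c i - qv T i| else 0) ⟨i, by omega⟩
  simp only at h3
  rw [if_pos ⟨h1, h2⟩] at h3
  exact h3

theorem le_of_clamp_le {K x t : ℝ} (h : clamp K x ≤ t) (ht : t < K) : x ≤ t := by
  unfold clamp at h
  have h1 := (le_max_right _ _).trans h
  rcases min_le_iff.1 h1 with h2 | h2
  · linarith
  · linarith

theorem lt_of_lt_clamp {K x t : ℝ} (h : t < clamp K x) (ht : -K ≤ t) : t < x := by
  unfold clamp at h
  rcases lt_max_iff.1 h with h2 | h2
  · linarith
  · exact (lt_min_iff.1 h2).1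

end MargAux

open MargAux in
theorem stMarg (h1 : StPsMom) (h2 : StXi) (h3 : StXiS) (h4 : StAvg) (h5 : StVol) (h6 : StVolR)
    (h7 : StSym) : StMarg := by
  intro C0 γa Γ t ρ hC0 hγ hγ2 ht hΓ hρ
  obtain ⟨CP, hCP, hPs⟩ := h1
  obtain ⟨ρ2, hρ2, hρ2a, hρ2b⟩ : ∃ ρ2 : ℝ, 0 < ρ2 ∧ ρ2 ≤ 1 / 4 ∧ ρ2 ≤ ρ / 16 :=
    ⟨min (1 / 4) (ρ / 16), by positivity, min_le_left _ _, min_le_right _ _⟩
  obtain ⟨lam, hlam, hlam1⟩ : ∃ lam : ℝ, 0 < lam ∧ lam * CP = ρ / 8 := by
    refine ⟨ρ / 8 / CP, by positivity, ?_⟩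
    field_simp
  obtain ⟨A, hA⟩ : ∃ A : ℝ, A = 2 * Γ + 2 + 1 / lam := ⟨_, rfl⟩
  have hΓ0 : 0 < Γ := by linarith
  have hA0 : 0 < A := by rw [hA]; positivity
  refine ⟨ρ2 * ρ / (64 * A), by positivity, ?_⟩
  intro θ hθ hθ1
  filter_upwards [hPs, Ioo_mem_nhdsGT (show (0 : ℝ) < min γa (min (ρ / 16) (min (1 / Γ)
    (4 / (|t| + 1)))) by positivity)] with δ hδ hδ'
  obtain ⟨hδ0, hδ1⟩ := hδ'
  rw [lt_min_iff, lt_min_iff, lt_min_iff] at hδ1
  obtain ⟨hδa, hδb, hδc, hδd⟩ := hδ1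
  have hΓδ : Γ ≤ 1 / δ := by
    rw [le_div_iff₀ hδ0]
    rw [lt_div_iff₀ hΓ0] at hδc
    linarith
  have htK : |t| + 1 < Kd δ := by
    unfold Kd
    rw [lt_div_iff₀ hδ0]
    rw [lt_div_iff₀ (by positivity)] at hδd
    linarith
  have hm : Γ ≤ ((md δ : ℝ) + 1) * δ := by
    have h8 : 1 / δ ^ 2 ≤ (md δ : ℝ) := Nat.le_ceil _
    have h9 : 1 / δ ^ 2 * δ = 1 / δ := by field_simp
    have h10 : 1 / δ ^ 2 * δ ≤ (md δ : ℝ) * δ := mul_le_mul_of_nonneg_right h8 hδ0.le
    rw [h9] at h10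
    linarith
  have ev1 : ∀ᶠ n : ℕ in atTop, ((md δ : ℝ) + 1) * δ * rr n < 1 := by
    filter_upwards [eventually_gt_atTop ⌈(((md δ : ℝ) + 1) * δ) ^ 2⌉₊] with n hn
    have h8 : (((md δ : ℝ) + 1) * δ) ^ 2 < n := (Nat.le_ceil _).trans_lt (by exact_mod_cast hn)
    have h9 : ((md δ : ℝ) + 1) * δ < Real.sqrt n := by
      apply Real.lt_sqrt_of_sq_lt h8
    have h10 : 0 < Real.sqrt n := lt_of_le_of_lt (by positivity) h9
    unfold rr
    rw [mul_one_div, div_lt_one h10]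
    exact h9
  have ev2 : ∀ᶠ n : ℕ in atTop, 3 ≤ ⌊θ * n⌋₊ := by
    filter_upwards [eventually_ge_atTop ⌈3 / θ⌉₊] with n hn
    have h8 : 3 / θ ≤ n := (Nat.le_ceil _).trans (by exact_mod_cast hn)
    rw [div_le_iff₀ hθ] at h8
    apply Nat.le_floor
    push_cast
    linarith
  filter_upwards [hδ, eventually_ge_atTop 3, ev1, ev2] with n hn1 hn3 hn4 hn5
  intro T hG hS hlow hsum e
  obtain ⟨hG1, hG2, hG3, hG4, hG5, hG6, hG7⟩ := hG
  -- the levels
  have hr := rr_pos hn3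
  have hl0 : lv δ n 0 = 0 := lev_zero
  have hl1 : lv δ n (HH δ n + 1) = 1 := lev_top
  have hll : ∀ h, h ≤ HH δ n → lv δ n h < lv δ n (h + 1) := lev_lt hr hδ0 hn4
  have hp0 : ∀ h, 0 ≤ pw δ n h := fun h => sub_nonneg.2 (hll h (by omega)).le
  have hp1 : ∑ h, pw δ n h = 1 := wts_sum _ _ hl0 hl1
  obtain ⟨hMm, -, hMf, hMv⟩ := h5 (9 / 10) n (by norm_num) (by norm_num)
  have hMb : ∀ x ∈ M (9 / 10) n, ∀ e, 0 < x e ∧ x e ≤ 2 := fun x hx e =>
    ⟨lt_trans (by norm_num) (hx.1 e).1, (hx.1 e).2⟩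
  have hM0 : volume (M (9 / 10) n) ≠ 0 := by
    intro h
    unfold vol at hMv
    rw [h] at hMv
    norm_num at hMv
  have hR : ∀ e c, 0 < vol (RR T e c) := fun e c =>
    ((h6 (Edge n) (M (9 / 10) n) (HH δ n) (lv δ n) T hMm hMb hM0 hl0 hl1 hll).1 e c).2.2
  have hX1 := (h2 (Edge n) (M (9 / 10) n) (HH δ n) (lv δ n) T hMm hMb hM0 hl0 hl1 hll).1
  have hX2 := fun e c => (h3 n (HH δ n) (lv δ n) T hn3 hl0 hl1 hll e c).1
  -- the indices
  obtain ⟨⟨ia, hia, hia1, hia2, hia3, hia4⟩, ⟨ib, hib, hib1, hib2, hib3, hib4⟩, hq0, hqΓ,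
    is, his, his1, his2⟩ := idx (q := qv T) (ρ2 := ρ2) hδ0 hδa.le hC0 hγ hγ2 ht hΓ hρ2
      (by linarith) hm hG1 hG4 (fun i hi hi2 => by
        have := hS i hi hi2
        linarith) hlow
  have hlq : lq δ (qv T) t = δ * (((Finset.range (md δ + 1)).filter
    (fun i => t < qv T i)).card : ℝ) := rfl
  rw [← hlq] at hia4 hib4 hq0 hqΓ
  -- the pointwise estimate
  have hpt : ∀ e c, |Tc T t e c - lq δ (qv T) t| ≤ 2 * ρ2 + 2 * δ +
      A / ρ2 * min 1 (dev T γa Γ e c) + lam * max 0 (ps T.Q (rr n) n e c is) ^ 2 := by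
    intro e c
    have hd0 : 0 ≤ dev T γa Γ e c := sup0_nonneg _
    have habs := abs_lt.1 (lt_of_lt_of_le (lt_add_one |t|) le_rfl)
    have htK' : t < Kd δ := by linarith [le_abs_self t]
    have htK'' : -Kd δ ≤ t := by linarith [neg_abs_le t]
    rcases le_or_gt (dev T γa Γ e c) ρ2 with hd | hd
    · have ha := abs_le.1 (dev_le hd hia hia1 hia2)
      have hb := abs_le.1 (dev_le hd hib hib1 hib2)
      have ha2 : ps T.Q (rr n) n e c ia ≤ t :=
        le_of_clamp_le (K := Kd δ) (show pos T e c ia ≤ t by linarith) htK'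
      have hb2 : t < ps T.Q (rr n) n e c ib :=
        lt_of_lt_clamp (K := Kd δ) (show t < pos T e c ib by linarith) htK''
      have ha3 := Tc_le h5 hδ0 hn3 hia (hR e c) ha2
      have hb3 := le_Tc h5 hδ0 hn3 hib (hR e c) hb2
      have h8 : 0 ≤ A / ρ2 * min 1 (dev T γa Γ e c) := by positivity
      have h9 : 0 ≤ lam * max 0 (ps T.Q (rr n) n e c is) ^ 2 := by positivity
      rw [abs_le]
      constructor <;> linarith
    · have h8 := Tc_gen (t := t) h5 hδ0 hn3 his (hR e c) (hX1 e c) (hX2 e c)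
      have h9 := Tc_nonneg (T := T) t e c
      set X := max 0 (ps T.Q (rr n) n e c is) with hX
      have hX0 : 0 ≤ X := le_max_left _ _
      have h10 : max 0 (ps T.Q (rr n) n e c is - t) ≤ X + 1 := by
        apply max_le
        · linarith
        · have : ps T.Q (rr n) n e c is ≤ X := le_max_right _ _
          linarith
      have h11 : 2 * X ≤ 1 / lam + lam * X ^ 2 := by
        have h12 : 0 ≤ (lam * X - 1) ^ 2 / lam := by positivity
        have h13 : (lam * X - 1) ^ 2 / lam = lam * X ^ 2 - 2 * X + 1 / lam := by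
          field_simp
          ring
        linarith
      have h14 : A ≤ A / ρ2 * min 1 (dev T γa Γ e c) := by
        rw [div_mul_eq_mul_div, le_div_iff₀ hρ2]
        apply mul_le_mul_of_nonneg_left _ hA0.le
        exact le_min (by linarith) hd.le
      rw [abs_le]
      constructor
      · rw [hA] at h14
        have : 0 < 1 / lam := by positivity
        have : 0 ≤ lam * X ^ 2 := by positivity
        rw [← hA] at h14
        linarith
      · rw [hA] at h14
        rw [← hA] at h14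
        linarith
  -- averages
  have havg : ∀ e, EE (pw δ n) (fun c => Tc T t e c) = Gs n e t := by
    intro e
    have hm' : MeasurableSet {x : Edge n → ℝ | x e < 1 - t * rr n} :=
      measurableSet_lt (measurable_pi_apply e) measurable_const
    have hint : IntegrableOn (fun x : Edge n → ℝ => if x e < 1 - t * rr n then (1 : ℝ) else 0)
        (M (9 / 10) n) := by
      have h8 : (fun x : Edge n → ℝ => if x e < 1 - t * rr n then (1 : ℝ) else 0) =
          ({x : Edge n → ℝ | x e < 1 - t * rr n}).indicator (fun _ => 1) := by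
        funext x
        simp only [indicator, mem_ofPred_eq]
      rw [h8]
      exact (integrableOn_const hMf).indicator hm'
    have h8 := h4 (Edge n) (M (9 / 10) n) (HH δ n) (lv δ n) T hMm hMb hM0 hl0 hl1 hll e _ hint
    rw [mean_ind] at h8
    unfold Gs
    have h9 : {x | x ∈ M (9 / 10) n ∧ x e < 1 - t * rr n} =
        M (9 / 10) n ∩ {x | x e < 1 - t * rr n} := rfl
    rw [h9, ← h8, ← EE_mul_left]
    apply EE_congr
    intro c
    rw [mean_ind]
    rfl
  have hE : ∀ e, |Gs n e t - lq δ (qv T) t| ≤ 2 * ρ2 + 2 * δ +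
      A / ρ2 * EE (pw δ n) (fun c => min 1 (dev T γa Γ e c)) + ρ / 8 := by
    intro e
    have h8 := (hn1 T e is his).1
    have h9 : lam * EE (pw δ n) (fun c => max 0 (ps T.Q (rr n) n e c is) ^ 2) ≤ ρ / 8 := by
      rw [← hlam1]
      apply mul_le_mul_of_nonneg_left _ hlam.le
      refine h8.trans ?_
      rw [div_le_iff₀ (by linarith)]
      nlinarith
    have h10 : EE (pw δ n) (fun c => 2 * ρ2 + 2 * δ +
        A / ρ2 * min 1 (dev T γa Γ e c) + lam * max 0 (ps T.Q (rr n) n e c is) ^ 2) =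
        2 * ρ2 + 2 * δ + A / ρ2 * EE (pw δ n) (fun c => min 1 (dev T γa Γ e c)) +
          lam * EE (pw δ n) (fun c => max 0 (ps T.Q (rr n) n e c is) ^ 2) := by
      rw [EE_add, EE_add, EE_const hp1, EE_mul_left, EE_mul_left]
    have h11 : Gs n e t - lq δ (qv T) t = EE (pw δ n) (fun c => Tc T t e c - lq δ (qv T) t) := by
      rw [EE_sub, EE_const hp1, havg]
    rw [h11, abs_le]
    constructor
    · rw [← neg_le_neg_iff, neg_neg, ← EE_neg]
      refine (EE_mono hp0 (g := fun c => 2 * ρ2 + 2 * δ +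
        A / ρ2 * min 1 (dev T γa Γ e c) + lam * max 0 (ps T.Q (rr n) n e c is) ^ 2)
        (fun c => (neg_le_abs _).trans (hpt e c))).trans ?_
      rw [h10]
      linarith
    · refine (EE_mono hp0 (g := fun c => 2 * ρ2 + 2 * δ +
        A / ρ2 * min 1 (dev T γa Γ e c) + lam * max 0 (ps T.Q (rr n) n e c is) ^ 2)
        (fun c => (le_abs_self _).trans (hpt e c))).trans ?_
      rw [h10]
      linarith
  -- an edge with a small deviation
  have hPn : ⌊θ * n⌋₊ ≤ n := by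
    apply Nat.floor_le_of_le
    have : (0 : ℝ) ≤ n := Nat.cast_nonneg _
    nlinarith
  have hcard := card_edges hPn hn5
  set P := ⌊θ * (n : ℝ)⌋₊ with hP
  have hP0 : (0 : ℝ) < (P : ℝ) ^ 2 := by
    have : (3 : ℝ) ≤ P := by exact_mod_cast hn5
    positivity
  obtain ⟨e0, he0, he0'⟩ : ∃ e0 ∈ Finset.univ.filter (fun e : Edge n => (e.b : ℕ) < P),
      EE (pw δ n) (fun c => min 1 (dev T γa Γ e0 c)) ≤ 8 * (ρ2 * ρ / (64 * A)) := by
    by_contra hne
    push Not at hne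
    have h8 : ((Finset.univ.filter (fun e : Edge n => (e.b : ℕ) < P)).card : ℝ) *
        (8 * (ρ2 * ρ / (64 * A))) < ρ2 * ρ / (64 * A) * (P : ℝ) ^ 2 := by
      refine lt_of_lt_of_le ?_ hsum
      rw [← nsmul_eq_mul, ← Finset.sum_const]
      refine Finset.sum_lt_sum_of_nonempty ?_ hne
      rw [← Finset.card_pos]
      have : (0 : ℝ) < ((Finset.univ.filter (fun e : Edge n => (e.b : ℕ) < P)).card : ℝ) :=
        lt_of_lt_of_le (by positivity) hcard
      exact_mod_cast this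
    have h9 : 0 < ρ2 * ρ / (64 * A) := by positivity
    nlinarith
  have hsym : Gs n e t = Gs n e0 t := by
    have h8 := (h7 (9 / 10) n e e0).2.2 (fun s => if s < 1 - t * rr n then 1 else 0)
    rw [mean_ind, mean_ind] at h8
    unfold Gs
    have h9 : ∀ e, {x | x ∈ M (9 / 10) n ∧ x e < 1 - t * rr n} =
        M (9 / 10) n ∩ {x | x e < 1 - t * rr n} := fun e => rfl
    rw [h9, h9, h8]
  rw [hsym]
  refine (hE e0).trans ?_
  have h8 : A / ρ2 * EE (pw δ n) (fun c => min 1 (dev T γa Γ e0 c)) ≤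
      A / ρ2 * (8 * (ρ2 * ρ / (64 * A))) := mul_le_mul_of_nonneg_left he0' (by positivity)
  have h9 : A / ρ2 * (8 * (ρ2 * ρ / (64 * A))) = ρ / 8 := by
    field_simp
    ring
  linarith

end Pool.Agent.Lib.MP_193d8d_pr
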