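import Pool.Agent.Lib.MP_193d8d_pr.StA
import Pool.Agent.Lib.MP_193d8d_pr.StB
import Pool.Agent.Lib.MP_193d8d_pr.Base

set_option autoImplicit false
open MeasureTheory Set Filter Topology

namespace Pool.Agent.Lib.MP_193d8d_pr

namespace MomKAux

lemma M_sub (n : ℕ) : M (9 / 10) n ⊆ M 0 n := fun x hx =>
  ⟨fun e => ⟨by have := (hx.1 e).1; linarith, (hx.1 e).2⟩, hx.2⟩

/-- the mean over `M (9/10) n` is at most twice the mean over `M 0 n` -/
lemma mean_le (hVol : StVol) {n : ℕ} (h2 : vol (M 0 n) ≤ 2 * vol (M (9 / 10) n)) (e : Edge n)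
    (k : ℕ) {B : ℝ} (hB : mean (M 0 n) (fun x => max 0 (1 - x e) ^ k) ≤ B) :
    mean (M (9 / 10) n) (fun x => max 0 (1 - x e) ^ k) ≤ 2 * B := by
  obtain ⟨mS, -, fS, h1S⟩ := hVol 0 n le_rfl one_pos
  obtain ⟨mS', -, fS', h1S'⟩ := hVol (9 / 10) n (by norm_num) (by norm_num)
  have hc : Continuous (fun x : Edge n → ℝ => max 0 (1 - x e) ^ k) :=
    (continuous_const.max (continuous_const.sub (continuous_apply e))).pow k
  have hint : IntegrableOn (fun x : Edge n → ℝ => max 0 (1 - x e) ^ k) (M 0 n) := by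
    refine IntegrableOn.of_bound (lt_top_iff_ne_top.mpr fS) hc.aestronglyMeasurable.restrict 1 ?_
    refine (ae_restrict_iff' mS).mpr (Eventually.of_forall fun x hx => ?_)
    have hx1 := (hx.1 e).1
    rw [Real.norm_eq_abs, abs_of_nonneg (by positivity)]
    apply pow_le_one₀ (le_max_left _ _)
    exact max_le zero_le_one (by linarith)
  have hle : ∫ x in M (9 / 10) n, max 0 (1 - x e) ^ k ≤ ∫ x in M 0 n, max 0 (1 - x e) ^ k :=
    setIntegral_mono_set hint (Eventually.of_forall fun x => by positivity)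
      (LE.le.eventuallyLE (M_sub n))
  have h0 : 0 ≤ ∫ x in M 0 n, max 0 (1 - x e) ^ k := integral_nonneg fun x => by positivity
  unfold mean at hB ⊢
  have hv : 0 < vol (M 0 n) := by linarith
  have hv' : 0 < vol (M (9 / 10) n) := by linarith
  calc (∫ x in M (9 / 10) n, max 0 (1 - x e) ^ k) / vol (M (9 / 10) n)
      ≤ (∫ x in M 0 n, max 0 (1 - x e) ^ k) / vol (M (9 / 10) n) :=
        div_le_div_of_nonneg_right hle hv'.le
    _ ≤ 2 * ((∫ x in M 0 n, max 0 (1 - x e) ^ k) / vol (M 0 n)) := by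
        rw [← mul_div_assoc, div_le_div_iff₀ hv' hv]
        nlinarith
    _ ≤ 2 * B := by linarith

lemma cyl_finite {n : ℕ} (e : Edge n) : volume (cyl (M 0 n) e) ≠ ⊤ := by
  have hsub : cyl (M 0 n) e ⊆ Set.pi univ (fun _ : Edge n => Icc (0 : ℝ) 2) := by
    intro x hx e' _
    by_cases h : e' = e
    · subst h
      have := hx.1
      exact ⟨this.1.le, by linarith [this.2]⟩
    · have h1 : (fib (M 0 n) e x).Nonempty := by
        by_contra hne
        rw [not_nonempty_iff_eq_empty] at hne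
        exact hx.2 (by rw [hne, measure_empty])
      obtain ⟨y, hy⟩ := h1
      have h2 := hy.1 e'
      rw [Function.update_of_ne h] at h2
      exact ⟨h2.1.le, h2.2⟩
  have hfin : volume (Set.pi univ (fun _ : Edge n => Icc (0 : ℝ) 2)) ≠ ⊤ :=
    (isCompact_univ_pi fun _ => isCompact_Icc).measure_lt_top.ne
  exact ne_top_of_le_ne_top hfin (measure_mono hsub)

lemma cyl_mono {n : ℕ} (e : Edge n) : vol (cyl (M (9 / 10) n) e) ≤ vol (cyl (M 0 n) e) := by
  apply ENNReal.toReal_mono (cyl_finite e)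
  apply measure_mono
  rintro x ⟨hx1, hx2⟩
  refine ⟨hx1, fun h0 => hx2 ?_⟩
  exact measure_mono_null (fun y hy => M_sub n hy) h0

end MomKAux

open MomKAux in
theorem stMomK (hVol : StVol) (hMom : StMom) (hTight : StTight) (hSharp : StSharp) (hZ : StZ)
    (hProj : StProj) : StMomK := by
  obtain ⟨CT, hCT, hT⟩ := hTight
  obtain ⟨CM, hCM, hM⟩ := hMom
  obtain ⟨n0, hS⟩ := hSharp ⟨CT, hT⟩
  refine ⟨4 * CM * CT ^ 5, ?_, ?_⟩
  · have h1 : (1 : ℝ) ≤ CT ^ 5 := one_le_pow₀ hCT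
    nlinarith
  filter_upwards [eventually_ge_atTop 3, eventually_ge_atTop n0] with n h3 hn0
  have hS := hS n hn0
  have hn : (3 : ℝ) ≤ n := by exact_mod_cast h3
  have hsq : 0 < Real.sqrt n := Real.sqrt_pos.mpr (by linarith)
  have hr : 0 < rr n := by unfold rr; positivity
  have hn2 : (1 : ℝ) / (n : ℝ) ^ 2 ≤ 1 / 2 := by
    rw [div_le_div_iff₀ (by positivity) (by norm_num)]
    nlinarith
  have hn3 : (0 : ℝ) ≤ 1 / (n : ℝ) ^ 2 := by positivity
  obtain ⟨mS, -, fS, h1S⟩ := hVol 0 n le_rfl one_pos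
  obtain ⟨mS', -, fS', h1S'⟩ := hVol (9 / 10) n (by norm_num) (by norm_num)
  have h2 : vol (M 0 n) ≤ 2 * vol (M (9 / 10) n) := by nlinarith
  refine ⟨hS, fun e => ?_⟩
  obtain ⟨hw0, hw1, hm2, hm4⟩ := hM n e h3
  have hw : wt 0 n e ≤ CT * rr n := by
    have := hT n e h3
    unfold rr
    rw [mul_one_div, le_div_iff₀ hsq]
    exact this
  have hC1 : (1 : ℝ) ≤ CT := hCT
  have p3 : CT ^ 3 ≤ CT ^ 5 := pow_le_pow_right₀ hCT (by norm_num)
  have p1 : CT ≤ CT ^ 5 := by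
    calc CT = CT ^ 1 := (pow_one _).symm
      _ ≤ CT ^ 5 := pow_le_pow_right₀ hCT (by norm_num)
  have hCT5 : 0 < CT ^ 5 := by positivity
  have hM0 : 0 < CM := by linarith
  refine ⟨?_, ?_, ?_, ?_, ?_⟩
  · refine (mean_le hVol h2 e 2 hm2).trans ?_
    calc 2 * (CM * wt 0 n e ^ 3) ≤ 2 * (CM * (CT * rr n) ^ 3) := by gcongr
      _ = 2 * CM * CT ^ 3 * rr n ^ 3 := by ring
      _ ≤ 2 * CM * CT ^ 5 * rr n ^ 3 := by gcongr
      _ ≤ 4 * CM * CT ^ 5 * rr n ^ 3 := by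
          have : 0 ≤ CM * CT ^ 5 * rr n ^ 3 := by positivity
          nlinarith
  · refine (mean_le hVol h2 e 4 hm4).trans ?_
    calc 2 * (CM * wt 0 n e ^ 5) ≤ 2 * (CM * (CT * rr n) ^ 5) := by gcongr
      _ = 2 * CM * CT ^ 5 * rr n ^ 5 := by ring
      _ ≤ 4 * CM * CT ^ 5 * rr n ^ 5 := by
          have : 0 ≤ CM * CT ^ 5 * rr n ^ 5 := by positivity
          nlinarith
  · refine (hZ (9 / 10) n e (by norm_num) (by norm_num) h3).trans ?_
    have hv' : 0 < vol (M (9 / 10) n) := by linarith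
    rw [div_le_iff₀ hv']
    calc 2 * wt 0 n e * vol (M 0 n) ≤ 2 * (CT * rr n) * (2 * vol (M (9 / 10) n)) := by gcongr
      _ = 4 * CT * rr n * vol (M (9 / 10) n) := by ring
      _ ≤ 4 * CM * CT ^ 5 * rr n * vol (M (9 / 10) n) := by
          have h5 : CT ≤ CM * CT ^ 5 := by nlinarith
          have h6 : 4 * CT ≤ 4 * CM * CT ^ 5 := by linarith
          gcongr
  · have hv' : 0 < vol (M (9 / 10) n) := by linarith
    have hv : 0 < vol (M 0 n) := by linarith
    have h4 : vol {x | x ∈ M (9 / 10) n ∧ x e ≤ 1} ≤ vol {x | x ∈ M 0 n ∧ x e ≤ 1} := by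
      apply ENNReal.toReal_mono
      · exact ne_top_of_le_ne_top fS (measure_mono fun x hx => hx.1)
      · exact measure_mono fun x hx => ⟨M_sub n hx.1, hx.2⟩
    have h5 : vol {x | x ∈ M 0 n ∧ x e ≤ 1} = wt 0 n e * vol (M 0 n) := by
      unfold wt
      rw [div_mul_cancel₀ _ hv.ne']
    rw [div_le_iff₀ hv']
    calc vol {x | x ∈ M (9 / 10) n ∧ x e ≤ 1} ≤ wt 0 n e * vol (M 0 n) := by rw [← h5]; exact h4
      _ ≤ (CT * rr n) * (2 * vol (M (9 / 10) n)) := by gcongr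
      _ = 2 * CT * rr n * vol (M (9 / 10) n) := by ring
      _ ≤ 4 * CM * CT ^ 5 * rr n * vol (M (9 / 10) n) := by
          have h5 : CT ≤ CM * CT ^ 5 := by nlinarith
          have h6 : 2 * CT ≤ 4 * CM * CT ^ 5 := by linarith
          gcongr
  · have h4 := (cyl_mono e).trans (hProj n e h3)
    have h5 : 0 ≤ 1 - 1 / (n : ℝ) ^ 2 := by linarith
    exact (mul_le_mul_of_nonneg_left h4 h5).trans hS

end Pool.Agent.Lib.MP_193d8d_pr
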