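import Pool.Agent.Lib.MP_193d8d_pr.StA
import Pool.Agent.Lib.MP_193d8d_pr.StB
import Pool.Agent.Lib.MP_193d8d_pr.Base

set_option autoImplicit false
open MeasureTheory Set

/-! # E1: the increments of the quantiles decrease -/

namespace Pool.Agent.Lib.MP_193d8d_pr

namespace MonoTAux

variable {n : ℕ}

theorem ext_nonneg {y : Edge n → ℝ} (h : ∀ f, 0 ≤ y f) (i j : Fin n) : 0 ≤ ext 0 y i j := by
  unfold ext
  split_ifs
  · exact h _
  · exact h _
  · exact le_rfl

/-- changing one distance -/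
theorem mem_M {x : Edge n → ℝ} {e : Edge n} {t t' : ℝ}
    (h : Function.update x e t ∈ M (9 / 10) n) (htt : t ≤ t' ∨ 11 / 10 ≤ t') (h95 : t' ≤ 9 / 5) :
    Function.update x e t' ∈ M (9 / 10) n := by
  obtain ⟨h1, h2⟩ := h
  set y := Function.update x e t with hy
  set y' := Function.update x e t' with hy'
  have hye : y e = t := by rw [hy, Function.update_self]
  have hye' : y' e = t' := by rw [hy', Function.update_self]
  have hne : ∀ g, g ≠ e → y' g = y g := by
    intro g hg
    rw [hy, hy', Function.update_of_ne hg, Function.update_of_ne hg]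
  have ht : 9 / 10 < t := by
    have := (h1 e).1
    rwa [hye] at this
  have hb : ∀ g, 9 / 10 < y' g ∧ y' g ≤ 2 := by
    intro g
    by_cases hg : g = e
    · rw [hg, hye']
      constructor
      · rcases htt with h | h <;> linarith
      · linarith
    · rw [hne g hg]
      exact h1 g
  refine ⟨hb, ?_⟩
  intro i j k
  have hnn : ∀ i j, 0 ≤ ext 0 y' i j := ext_nonneg (fun g => by linarith [(hb g).1])
  by_cases hij : i = j
  · rw [hij, ext_self]
    exact add_nonneg (hnn _ _) (hnn _ _)
  by_cases hik : i = k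
  · rw [← hik, ext_self, zero_add]
  by_cases hkj : k = j
  · rw [hkj, ext_self, add_zero]
  rw [ext_ne 0 y' hij, ext_ne 0 y' hik, ext_ne 0 y' hkj]
  have hold := h2 i j k
  rw [ext_ne 0 y hij, ext_ne 0 y hik, ext_ne 0 y hkj] at hold
  set g1 := edge i j hij
  set g2 := edge i k hik
  set g3 := edge k j hkj
  have b1 := hb g1
  have b2 := hb g2
  have b3 := hb g3
  by_cases e1 : g1 = e
  · have : y' g1 = t' := by rw [e1, hye']
    linarith [b2.1, b3.1]
  · have h4 : y' g1 = y g1 := hne g1 e1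
    rcases htt with h | h
    · have hge : ∀ g, y g ≤ y' g := by
        intro g
        by_cases hg : g = e
        · rw [hg, hye, hye']
          exact h
        · rw [hne g hg]
      rw [h4]
      linarith [hge g2, hge g3]
    · by_cases e2 : g2 = e
      · have : y' g2 = t' := by rw [e2, hye']
        linarith [b1.2, b3.1]
      · by_cases e3 : g3 = e
        · have : y' g3 = t' := by rw [e3, hye']
          linarith [b1.2, b2.1]
        · rw [h4, hne g2 e2, hne g3 e3]
          exact hold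

variable {H : ℕ} {Q : Edge n → (Edge n → Fin (H + 1)) → ℕ → ℝ}

theorem slice_sub {e : Edge n} {c : Edge n → Fin (H + 1)} {t t' : ℝ}
    (htt : t ≤ t' ∨ 11 / 10 ≤ t') (h95 : t' ≤ 9 / 5) :
    slice (Rset (M (9 / 10) n) H Q e c) e t ⊆ slice (Rset (M (9 / 10) n) H Q e c) e t' := by
  rintro x ⟨h1, h2, h3⟩
  refine ⟨h1, mem_M h2 htt h95, ?_⟩
  intro e' he'
  have h4 := h3 e' he'
  rw [Function.update_of_ne he'.ne] at h4 ⊢
  exact h4

theorem slice_le {e : Edge n} {c : Edge n → Fin (H + 1)} {t t' : ℝ}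
    (htt : t ≤ t' ∨ 11 / 10 ≤ t') (h95 : t' ≤ 9 / 5) :
    volume (slice (Rset (M (9 / 10) n) H Q e c) e t) ≤
      volume (slice (Rset (M (9 / 10) n) H Q e c) e t') :=
  measure_mono (slice_sub htt h95)

theorem lev_nonneg {l : ℕ → ℝ} (h0 : l 0 = 0) (hl : ∀ h, h ≤ H → l h < l (h + 1)) :
    ∀ h, h ≤ H + 1 → 0 ≤ l h := by
  intro h
  induction h with
  | zero => intro _; rw [h0]
  | succ h ih =>
    intro hh
    have h1 := ih (by omega)
    have h2 := hl h (by omega)
    linarith

end MonoTAux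

open MonoTAux in
/-- E1 -/
theorem stMonoT (hV : StVol) (hR : StVolR) (hF : StFubA) : StMonoT := by
  intro n H l T hn hl0 hlH hl e c h hh heq hhalf
  obtain ⟨hMm, -, hMfin, hM1⟩ := hV (9 / 10) n (by norm_num) (by norm_num)
  have hMbd : ∀ x ∈ M (9 / 10) n, ∀ e, 0 < x e ∧ x e ≤ 2 := by
    intro x hx e
    have := hx.1 e
    exact ⟨by linarith, this.2⟩
  have hM0 : volume (M (9 / 10) n) ≠ 0 := by
    intro h0
    unfold vol at hM1
    rw [h0] at hM1
    norm_num at hM1
  obtain ⟨hRR, -⟩ := hR (Edge n) (M (9 / 10) n) H l T hMm hMbd hM0 hl0 hlH hl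
  obtain ⟨hRm, -, hRpos⟩ := hRR e c
  set R := Rset (M (9 / 10) n) H T.Q e c with hRdef
  have hRsub : R ⊆ M (9 / 10) n := fun x hx => hx.1
  have hRfin : volume R ≠ ⊤ := ne_top_of_le_ne_top hMfin (measure_mono hRsub)
  set V : ℝ := vol R with hVdef
  -- the mass of a set of values
  set m : Set ℝ → ENNReal := fun A => volume (R ∩ {x | x e ∈ A}) with hm
  have hmfin : ∀ A, m A ≠ ⊤ := fun A =>
    ne_top_of_le_ne_top hRfin (measure_mono inter_subset_left)
  have hmint : ∀ A, MeasurableSet A → m A = ∫⁻ t in A, volume (slice R e t) := fun A hA =>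
    (hF (Edge n) R e A hRm hA).2
  -- the levels
  have hcut : ∀ k, k ≤ H + 1 → (m (Iic (T.Q e c k))).toReal = l k * V := by
    intro k hk
    have h1 := T.cut e c k hk
    have h2 : m (Iic (T.Q e c k)) = ENNReal.ofReal (l k) * volume R := h1
    rw [h2, ENNReal.toReal_mul, ENNReal.toReal_ofReal (lev_nonneg hl0 hl k hk)]
    rfl
  have hadd : ∀ a b : ℝ, a ≤ b → (m (Iic b)).toReal = (m (Iic a)).toReal + (m (Ioc a b)).toReal := by
    intro a b hab
    have h1 : m (Iic b) = m (Iic a) + m (Ioc a b) := by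
      simp only [hm]
      rw [← measure_union]
      · congr 1
        ext x
        simp only [mem_inter_iff, mem_ofPred_eq, mem_Iic, mem_union, mem_Ioc]
        constructor
        · rintro ⟨g1, g2⟩
          rcases le_or_gt (x e) a with g | g
          · exact Or.inl ⟨g1, g⟩
          · exact Or.inr ⟨g1, g, g2⟩
        · rintro (⟨g1, g2⟩ | ⟨g1, g2, g3⟩)
          · exact ⟨g1, g2.trans hab⟩
          · exact ⟨g1, g3⟩
      · rw [Set.disjoint_left]
        rintro x ⟨-, g1⟩ ⟨-, g2⟩
        simp only [mem_ofPred_eq, mem_Iic, mem_Ioc] at g1 g2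
        linarith [g2.1]
      · exact hRm.inter (measurable_pi_apply e measurableSet_Ioc)
    rw [h1, ENNReal.toReal_add (hmfin _) (hmfin _)]
  have hV2 : (m (Iic 2)).toReal = V := by
    have : R ∩ {x | x e ∈ Iic (2 : ℝ)} = R := by
      apply inter_eq_left.2
      intro x hx
      exact (hMbd x (hRsub hx) e).2
    simp only [hm]
    rw [this]
    rfl
  -- the quantiles
  set a := T.Q e c h with ha
  set b := T.Q e c (h + 1) with hb
  set d := T.Q e c (h + 2) with hd
  have hab : a < b := T.lt e c h (by omega)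
  have hbd : b < d := T.lt e c (h + 1) (by omega)
  have hm1 : (m (Ioc a b)).toReal = (l (h + 1) - l h) * V := by
    have h1 := hadd a b hab.le
    rw [hcut h (by omega), hcut (h + 1) (by omega)] at h1
    linarith
  have hm2 : (m (Ioc b d)).toReal = (l (h + 2) - l (h + 1)) * V := by
    have h1 := hadd b d hbd.le
    rw [hcut (h + 1) (by omega), hcut (h + 2) (by omega)] at h1
    linarith
  -- upper and lower bounds by the slices
  have hup : ∀ (p q : ℝ) (G : ENNReal), p ≤ q → (∀ t ∈ Ioc p q, volume (slice R e t) ≤ G) →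
      m (Ioc p q) ≤ G * ENNReal.ofReal (q - p) := by
    intro p q G _ hG
    rw [hmint _ measurableSet_Ioc]
    calc ∫⁻ t in Ioc p q, volume (slice R e t) ≤ ∫⁻ _ in Ioc p q, G :=
          setLIntegral_mono' measurableSet_Ioc hG
      _ = G * ENNReal.ofReal (q - p) := by rw [setLIntegral_const, Real.volume_Ioc]
  have hlo : ∀ (p q : ℝ) (G : ENNReal), p ≤ q → (∀ t ∈ Ioc p q, G ≤ volume (slice R e t)) →
      G * ENNReal.ofReal (q - p) ≤ m (Ioc p q) := by
    intro p q G _ hG
    rw [hmint _ measurableSet_Ioc]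
    calc G * ENNReal.ofReal (q - p) = ∫⁻ _ in Ioc p q, G := by
          rw [setLIntegral_const, Real.volume_Ioc]
      _ ≤ ∫⁻ t in Ioc p q, volume (slice R e t) := setLIntegral_mono' measurableSet_Ioc hG
  -- finiteness of the slices
  have hfinG : ∀ (p q : ℝ) (G : ENNReal), p < q → (∀ t ∈ Ioc p q, G ≤ volume (slice R e t)) →
      G ≠ ⊤ := by
    intro p q G hpq hG hT
    have h1 := hlo p q G hpq.le hG
    rw [hT, ENNReal.top_mul (by rw [Ne, ENNReal.ofReal_eq_zero]; linarith)] at h1
    exact hmfin _ (top_le_iff.1 h1)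
  -- the upper quantile is at most 9/5
  have hd95 : d ≤ 9 / 5 := by
    by_contra hlt
    push Not at hlt
    set G := volume (slice R e (9 / 5)) with hG
    have g1 : ∀ t ∈ Ioc (11 / 10 : ℝ) (9 / 5), G ≤ volume (slice R e t) := fun t ht =>
      slice_le (Or.inr ht.1.le) ht.2
    have g2 : ∀ t ∈ Ioc (9 / 5 : ℝ) 2, volume (slice R e t) ≤ G := fun t _ =>
      slice_le (Or.inr (by norm_num)) le_rfl
    have hGfin : G ≠ ⊤ := hfinG _ _ G (by norm_num) g1
    have g3 := hlo (11 / 10) (9 / 5) G (by norm_num) g1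
    have g4 := hup (9 / 5) 2 G (by norm_num) g2
    have g3' : G.toReal * (7 / 10) ≤ (m (Ioc (11 / 10) (9 / 5))).toReal := by
      have := ENNReal.toReal_mono (hmfin _) g3
      rw [ENNReal.toReal_mul, ENNReal.toReal_ofReal (by norm_num)] at this
      linarith
    have g4' : (m (Ioc (9 / 5) 2)).toReal ≤ G.toReal * (1 / 5) := by
      have := ENNReal.toReal_mono (ENNReal.mul_ne_top hGfin ENNReal.ofReal_ne_top) g4
      rw [ENNReal.toReal_mul, ENNReal.toReal_ofReal (by norm_num)] at this
      linarith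
    have h1 := hadd (11 / 10) (9 / 5) (by norm_num)
    have h2 := hadd (9 / 5) 2 (by norm_num)
    have h3 := hadd (9 / 5) d hlt.le
    have h4 := hcut (h + 2) (by omega)
    rw [← hd] at h4
    rw [hV2] at h2
    have n1 : 0 ≤ (m (Iic (11 / 10))).toReal := ENNReal.toReal_nonneg
    have n2 : 0 ≤ (m (Ioc (9 / 5) d)).toReal := ENNReal.toReal_nonneg
    have h5 : l (h + 2) * V ≤ 1 / 2 * V := mul_le_mul_of_nonneg_right hhalf hRpos.le
    have n3 : 0 ≤ G.toReal := ENNReal.toReal_nonneg
    linarith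
  -- conclusion
  set G := volume (slice R e b) with hG
  have hb95 : b ≤ 9 / 5 := hbd.le.trans hd95
  have g1 : ∀ t ∈ Ioc a b, volume (slice R e t) ≤ G := fun t ht => slice_le (Or.inl ht.2) hb95
  have g2 : ∀ t ∈ Ioc b d, G ≤ volume (slice R e t) := fun t ht =>
    slice_le (Or.inl ht.1.le) (ht.2.trans hd95)
  have hGfin : G ≠ ⊤ := hfinG _ _ G hbd g2
  have g3 := hup a b G hab.le g1
  have g4 := hlo b d G hbd.le g2
  have g3' : (m (Ioc a b)).toReal ≤ G.toReal * (b - a) := by
    have := ENNReal.toReal_mono (ENNReal.mul_ne_top hGfin ENNReal.ofReal_ne_top) g3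
    rwa [ENNReal.toReal_mul, ENNReal.toReal_ofReal (by linarith)] at this
  have g4' : G.toReal * (d - b) ≤ (m (Ioc b d)).toReal := by
    have := ENNReal.toReal_mono (hmfin _) g4
    rwa [ENNReal.toReal_mul, ENNReal.toReal_ofReal (by linarith)] at this
  have hpos : 0 < (m (Ioc a b)).toReal := by
    rw [hm1]
    exact mul_pos (by linarith [hl h (by omega)]) hRpos
  have hGpos : 0 < G.toReal := by
    rcases lt_or_eq_of_le (ENNReal.toReal_nonneg (a := G)) with h0 | h0
    · exact h0
    · rw [← h0, zero_mul] at g3'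
      linarith
  have hfin : G.toReal * (d - b) ≤ G.toReal * (b - a) := by
    rw [hm1, heq] at g3'
    rw [hm2] at g4'
    linarith
  exact le_of_mul_le_mul_left hfin hGpos

end Pool.Agent.Lib.MP_193d8d_pr
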