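import Pool.Agent.Lib.MP_193d8d_pr.StA
import Pool.Agent.Lib.MP_193d8d_pr.StB
import Pool.Agent.Lib.MP_193d8d_pr.Base

set_option autoImplicit false
open MeasureTheory Set Filter Topology

namespace Pool.Agent.Lib.MP_193d8d_pr

/-! # H4: everything about one tree -/

namespace OneAux

theorem rr_tendsto : Tendsto rr atTop (𝓝 0) := by
  have h1 : Tendsto (fun n : ℕ => Real.sqrt (n : ℝ)) atTop atTop :=
    Real.tendsto_sqrt_atTop.comp tendsto_natCast_atTop_atTop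
  have h2 : Tendsto (fun n : ℕ => (Real.sqrt (n : ℝ))⁻¹) atTop (𝓝 0) := h1.inv_tendsto_atTop
  refine h2.congr fun n => ?_
  simp [rr]

theorem ev_small (a : ℝ) : ∀ᶠ n : ℕ in atTop, a * rr n < 1 := by
  have h : Tendsto (fun n : ℕ => a * rr n) atTop (𝓝 0) := by
    simpa using rr_tendsto.const_mul a
  exact h.eventually (gt_mem_nhds one_pos)

end OneAux

open OneAux in
theorem stOne (h1 : StPack) (h2 : StGoodB) (h3 : StSteepT) (h4 : StIncr) (h5 : StRigid)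
    (h6 : StMarg) (h7 : StTailPos) : StOne := by
  intro t ρ ht hρ
  obtain ⟨C0, c1, hC0, hc1, -, hGood⟩ := h2
  obtain ⟨γ, τ1, hγ, hτ1, hTail⟩ := h7 C0 c1 (t + 2) hC0 hc1 (by linarith)
  obtain ⟨γa, hγa0, hγa1, hγa2, hγa3⟩ : ∃ γa : ℝ, 0 < γa ∧ 2 * γa ≤ 1 ∧ 2 * γa ≤ γ ∧ γa ≤ c1 := by
    refine ⟨min (γ / 2) (min c1 (1 / 2)), by positivity, ?_, ?_, ?_⟩
    · linarith [min_le_right (γ / 2) (min c1 (1 / 2 : ℝ)), min_le_right c1 (1 / 2 : ℝ)]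
    · linarith [min_le_left (γ / 2) (min c1 (1 / 2 : ℝ))]
    · linarith [min_le_right (γ / 2) (min c1 (1 / 2 : ℝ)), min_le_left c1 (1 / 2 : ℝ)]
  obtain ⟨ρ', hρ', hMarg⟩ := h6 C0 γa (2 * C0 + 8) t ρ hC0 hγa0 hγa1 ht le_rfl hρ
  obtain ⟨θ, τ2, η, hθ0, hθ1, hτ2, hη, hRigid⟩ := h5 C0 c1 γa (2 * C0 + 8) ρ' hC0 hc1 hγa0 hγa3
    (by linarith) hρ'
  obtain ⟨τ3, hτ3, hIncr⟩ := h4 C0 γa (2 * C0 + 8) η hC0 hγa0 (by linarith) hη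
  obtain ⟨τ, hτ0, hτa, hτb, hτc⟩ : ∃ τ : ℝ, 0 < τ ∧ 2 * τ ≤ τ1 ∧ τ ≤ τ2 ∧ τ ≤ τ3 := by
    refine ⟨min (τ1 / 2) (min τ2 τ3), by positivity, ?_, ?_, ?_⟩
    · linarith [min_le_left (τ1 / 2) (min τ2 τ3)]
    · linarith [min_le_right (τ1 / 2) (min τ2 τ3), min_le_left τ2 τ3]
    · linarith [min_le_right (τ1 / 2) (min τ2 τ3), min_le_right τ2 τ3]
  filter_upwards [h1 τ hτ0, hGood, h3 (1 / 2) (2 * C0 + 8) (by norm_num) (by linarith),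
    h3 τ3 (2 * C0 + 8) hτ3 (by linarith), hMarg θ hθ0 hθ1, hRigid, hTail,
    Ioo_mem_nhdsGT (zero_lt_one' ℝ)] with δ e1 e2 e3 e4 e5 e6 e7 hδ
  filter_upwards [e1, e2, e3, e4, e5, e6, e7, eventually_ge_atTop 3,
    ev_small ((md δ + 1) * δ)] with n f1 f2 f3 f4 f5 f6 f7 hn hs
  intro T
  obtain ⟨g1, g2, g3, g4⟩ := f1 T
  have hG : Good C0 c1 δ (qv T) := f2 T
  have hAE : AE δ n (tv T γa (2 * C0 + 8)) ≤ η :=
    hIncr δ n T hδ.1 hδ.2 hn hs hG.1.2.2.2.2.2.1 (f4 T) (g1.trans hτc)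
  have hR := f6 T hG hAE (g2.trans hτb)
  refine f5 T hG.1 (f3 T) ?_ hR
  intro i hi hl
  have h := f7 (qv T) hG (fun q' a1 a2 a3 => ?_) i hi (hl.trans hγa2)
  · linarith
  · have := g4 q' a1 a2 a3
    linarith

end Pool.Agent.Lib.MP_193d8d_pr
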