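import Pool.Agent.Lib.MP_193d8d_pr.StA
import Pool.Agent.Lib.MP_193d8d_pr.StB
import Pool.Agent.Lib.MP_193d8d_pr.Base

set_option autoImplicit false
open MeasureTheory Set Filter Topology

namespace Pool.Agent.Lib.MP_193d8d_pr

/-! # H10: one-dimensional analysis, part 2 -/

namespace OneD2Aux

theorem exp_int (c y : ℝ) (hc : 0 < c) :
    (∫ t in (0 : ℝ)..y, Real.exp (-(c * (y - t)))) ≤ 1 / c := by
  have hd : ∀ t ∈ uIcc (0 : ℝ) y, HasDerivAt (fun t : ℝ => Real.exp (-(c * (y - t))) / c)
      (Real.exp (-(c * (y - t)))) t := by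
    intro t _
    have h1 : HasDerivAt (fun t : ℝ => -(c * (y - t))) c t := by
      have h2 := ((hasDerivAt_id t).const_sub y).const_mul c
      have h3 : HasDerivAt (fun t : ℝ => -(c * (y - t))) (-(c * -1)) t := h2.neg
      convert h3 using 1
      ring
    have h4 := (h1.exp).div_const c
    have h5 : Real.exp (-(c * (y - t))) * c / c = Real.exp (-(c * (y - t))) := by
      field_simp
    rw [h5] at h4
    exact h4
  rw [intervalIntegral.integral_eq_sub_of_hasDerivAt hd
    (Continuous.intervalIntegrable (by fun_prop) _ _)]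
  have h1 : Real.exp (-(c * (y - y))) = 1 := by simp
  have h2 : 0 ≤ Real.exp (-(c * (y - 0))) / c := by positivity
  simp only [h1]
  linarith

end OneD2Aux

open OneD2Aux in
theorem stOneD2 : StOneD2 := by
  intro f hc hf hconc hint hw t ht
  by_contra hcon
  push Not at hcon
  have hI : IntervalIntegrable f volume 0 2 := by
    by_contra h
    rw [intervalIntegral.integral_undef h] at hint
    norm_num at hint
  have hsub : ∀ a b : ℝ, 0 ≤ a → a ≤ b → b ≤ 2 → IntervalIntegrable f volume a b := by
    intro a b ha hab hb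
    refine hI.mono_set ?_
    rw [uIcc_of_le hab, uIcc_of_le (by norm_num)]
    exact Icc_subset_Icc ha hb
  set w := ∫ t in (0 : ℝ)..1, f t with hwdef
  have hI01 := hsub 0 1 le_rfl (by norm_num) (by norm_num)
  have hI12 := hsub 1 2 (by norm_num) (by norm_num) le_rfl
  have hw0 : 0 < w := intervalIntegral.intervalIntegral_pos_of_pos_on hI01
    (fun x hx => (hf x ⟨hx.1, by linarith [hx.2]⟩).1) (by norm_num)
  have hadd := intervalIntegral.integral_add_adjacent_intervals hI01 hI12
  rw [← hwdef, hint] at hadd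
  have h12 : (∫ s in (1 : ℝ)..2, f s) = 1 - w := by linarith
  -- nonnegativity of partial integrals of `1 - f`
  have hpart : ∀ a b : ℝ, 1 ≤ a → a ≤ b → b ≤ 2 → (b - a) - (∫ s in a..b, f s) ≤ w := by
    intro a b ha hab hb
    have i1 := hsub 1 a (by norm_num) ha (by linarith)
    have i2 := hsub a b (by linarith) hab hb
    have i3 := hsub b 2 (by linarith) hb le_rfl
    have e1 := intervalIntegral.integral_add_adjacent_intervals i1 i2
    have e2 := intervalIntegral.integral_add_adjacent_intervals (i1.trans i2) i3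
    have l1 : (∫ s in (1 : ℝ)..a, f s) ≤ a - 1 := by
      have h : (∫ s in (1 : ℝ)..a, f s) ≤ ∫ _ in (1 : ℝ)..a, (1 : ℝ) :=
        intervalIntegral.integral_mono_on_of_le_Ioo ha i1 intervalIntegrable_const
          fun x hx => (hf x ⟨by linarith [hx.1], by linarith [hx.2]⟩).2
      rwa [intervalIntegral.integral_const, smul_eq_mul, mul_one] at h
    have l2 : (∫ s in b..2, f s) ≤ 2 - b := by
      have h : (∫ s in b..2, f s) ≤ ∫ _ in b..2, (1 : ℝ) :=
        intervalIntegral.integral_mono_on_of_le_Ioo hb i3 intervalIntegrable_const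
          fun x hx => (hf x ⟨by linarith [hx.1], by linarith [hx.2]⟩).2
      rwa [intervalIntegral.integral_const, smul_eq_mul, mul_one] at h
    linarith
  -- a point with a large value
  obtain ⟨z, hz1, hz2⟩ : ∃ z ∈ Ioo t (t + 21 / 10 * w), 1 / 2 ≤ f z := by
    by_contra hno
    push Not at hno
    have i := hsub t (t + 21 / 10 * w) (by linarith [ht.1]) (by linarith) (by linarith [ht.2])
    have h := hpart t (t + 21 / 10 * w) ht.1 (by linarith) (by linarith [ht.2])
    have l : (∫ s in t..(t + 21 / 10 * w), f s) ≤ ∫ _ in t..(t + 21 / 10 * w), (1 / 2 : ℝ) :=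
      intervalIntegral.integral_mono_on_of_le_Ioo (by linarith) i intervalIntegrable_const
        fun x hx => (hno x hx).le
    rw [intervalIntegral.integral_const, smul_eq_mul] at l
    linarith
  have mt : t ∈ Ioo (0 : ℝ) 2 := ⟨by linarith [ht.1], by linarith [ht.2]⟩
  have mz : z ∈ Ioo (0 : ℝ) 2 := ⟨by linarith [ht.1, hz1.1], by linarith [ht.2, hz1.2]⟩
  have ht0 := (hf t mt).1
  have hlog2 := Real.log_two_gt_d9
  have hzt : 0 < z - t := by linarith [hz1.1]
  set k := Real.log 2 / (z - t) with hk
  have hk0 : 0 < k := by positivity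
  have hlog : Real.log 2 ≤ Real.log (f z) - Real.log (f t) := by
    rw [← Real.log_div (by linarith) ht0.ne']
    apply Real.log_le_log (by norm_num)
    rw [le_div_iff₀ ht0]
    linarith
  have hdec : ∀ x ∈ Ioo (0 : ℝ) t, f x ≤ f t * Real.exp (-(k * (t - x))) := by
    intro x hx
    have mx : x ∈ Ioo (0 : ℝ) 2 := ⟨hx.1, by linarith [hx.2, mt.2]⟩
    have hsl := hconc.slope_anti_adjacent mx mz hx.2 hz1.1
    have h1 : k ≤ (Real.log (f t) - Real.log (f x)) / (t - x) :=
      (div_le_div_of_nonneg_right hlog hzt.le).trans hsl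
    rw [le_div_iff₀ (by linarith [hx.2])] at h1
    have h2 : Real.log (f x) ≤ Real.log (f t) + -(k * (t - x)) := by linarith
    calc f x = Real.exp (Real.log (f x)) := (Real.exp_log (hf x mx).1).symm
      _ ≤ Real.exp (Real.log (f t) + -(k * (t - x))) := Real.exp_le_exp.2 h2
      _ = _ := by rw [Real.exp_add, Real.exp_log ht0]
  have i0t := hsub 0 t le_rfl (by linarith [ht.1]) (by linarith [ht.2])
  have h1 : (∫ x in (0 : ℝ)..t, f x) ≤ ∫ x in (0 : ℝ)..t, f t * Real.exp (-(k * (t - x))) :=
    intervalIntegral.integral_mono_on_of_le_Ioo (by linarith [ht.1]) i0t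
      (Continuous.intervalIntegrable (by fun_prop) _ _) fun x hx => hdec x hx
  rw [intervalIntegral.integral_const_mul] at h1
  have h2 : (∫ x in (0 : ℝ)..t, f x) ≤ f t * (1 / k) :=
    h1.trans (mul_le_mul_of_nonneg_left (exp_int k t hk0) ht0.le)
  have h3 : w ≤ ∫ x in (0 : ℝ)..t, f x := by
    have i1t := hsub 1 t (by norm_num) ht.1 (by linarith [ht.2])
    have e := intervalIntegral.integral_add_adjacent_intervals hI01 i1t
    have p : 0 ≤ ∫ x in (1 : ℝ)..t, f x := by
      refine intervalIntegral.integral_nonneg_of_ae_restrict ht.1 ?_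
      refine (ae_restrict_iff' measurableSet_Icc).2 (Eventually.of_forall fun x hx => ?_)
      exact (hf x ⟨by linarith [hx.1], by linarith [hx.2, ht.2]⟩).1.le
    linarith
  have h4 : 1 / k = (z - t) / Real.log 2 := by rw [hk, one_div_div]
  have h5 : f t * (1 / k) < w := by
    rw [h4, ← mul_div_assoc, div_lt_iff₀ (by linarith)]
    have h6 : f t * (z - t) ≤ 1 / 4 * (21 / 10 * w) :=
      mul_le_mul hcon.le (by linarith [hz1.2]) hzt.le (by norm_num)
    nlinarith
  linarith

end Pool.Agent.Lib.MP_193d8d_pr
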