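import Pool.Agent.Lib.MP_193d8d_pr.StA
import Pool.Agent.Lib.MP_193d8d_pr.StB
import Pool.Agent.Lib.MP_193d8d_pr.Base

set_option autoImplicit false
open MeasureTheory Set Filter Topology

namespace Pool.Agent.Lib.MP_193d8d_pr

namespace PackAux

theorem rr_tendsto : Tendsto rr atTop (𝓝 0) := by
  have h1 : Tendsto (fun n : ℕ => Real.sqrt (n : ℝ)) atTop atTop :=
    Real.tendsto_sqrt_atTop.comp tendsto_natCast_atTop_atTop
  have h2 : Tendsto (fun n : ℕ => (Real.sqrt (n : ℝ))⁻¹) atTop (𝓝 0) :=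
    tendsto_inv_atTop_zero.comp h1
  refine h2.congr ?_
  intro n
  simp [rr, one_div]

theorem ev_mul_rr (A τ : ℝ) (hτ : 0 < τ) : ∀ᶠ n : ℕ in atTop, A * rr n < τ := by
  have h : Tendsto (fun n : ℕ => A * rr n) atTop (𝓝 (A * 0)) := rr_tendsto.const_mul A
  rw [mul_zero] at h
  exact h.eventually (gt_mem_nhds hτ)

theorem ev_sqrt (A τ : ℝ) (hτ : 0 < τ) : ∀ᶠ δ in 𝓝[>] (0 : ℝ), A * Real.sqrt δ < τ := by
  have h : Tendsto (fun δ : ℝ => A * Real.sqrt δ) (𝓝 0) (𝓝 (A * Real.sqrt 0)) :=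
    (Real.continuous_sqrt.tendsto 0).const_mul A
  rw [Real.sqrt_zero, mul_zero] at h
  exact (h.mono_left nhdsWithin_le_nhds).eventually (gt_mem_nhds hτ)

end PackAux

theorem stPack (hUp : StUpJ) (hLow : StLow) (hGood : StGoodA) (hS : StSlackNN) : StPack := by
  intro τ hτ
  obtain ⟨C1, hC1, hU⟩ := hUp
  obtain ⟨C0, hC0, hG⟩ := hGood
  have hpos : ∀ᶠ δ in 𝓝[>] (0 : ℝ), 0 < δ := eventually_mem_nhdsWithin
  filter_upwards [hU, hG, hpos, PackAux.ev_sqrt C1 (τ / 2) (half_pos hτ)] with δ hUδ hGδ hδ hsq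
  have hK : 0 < Kd δ := by
    unfold Kd
    positivity
  have hK1 : 0 < Kd δ + 1 := by linarith
  obtain ⟨C2, n0, hL⟩ := hLow δ (Kd δ + 1) (md δ) hδ hK1
  filter_upwards [hUδ, hGδ, PackAux.ev_mul_rr C2 (τ / 2) (half_pos hτ),
    PackAux.ev_mul_rr ((md δ + 1) * δ) 1 one_pos, eventually_ge_atTop n0,
    eventually_ge_atTop 3] with n hUn hGn hrn hmn hn0 hn3
  intro T
  have h1 := hUn T
  have h2 := hGn T
  obtain ⟨hmono, hab, -, -, -, -, hend⟩ := h2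
  have h3 := hS δ n T hδ hn3 hmn
  have h4 := hL n hn0 (qv T) hmono (fun i hi => (hab i hi).trans (by linarith)) (by linarith)
  have h4' : Jn δ n (qv T) - C2 * rr n ≤ vv n := h4
  refine ⟨by linarith [h3.1, h3.2], by linarith [h3.1, h3.2], by linarith [h3.1, h3.2], ?_⟩
  intro q' hm' ha' he'
  have h5 : Jn δ n q' - C2 * rr n ≤ vv n := hL n hn0 q' hm' ha' he'
  linarith

end Pool.Agent.Lib.MP_193d8d_pr
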