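import Pool.Agent.Lib.MP_193d8d_pr.StA
import Pool.Agent.Lib.MP_193d8d_pr.StB
import Pool.Agent.Lib.MP_193d8d_pr.Base

set_option autoImplicit false
open MeasureTheory Set Filter Topology

namespace Pool.Agent.Lib.MP_193d8d_pr

namespace PosGAux

/-- a profile that is above `t` on the levels up to `γ` has level at least `γ - δ` -/
theorem lq_ge {δ γ t : ℝ} {q : ℕ → ℝ} (hδ : 0 < δ) (hδ1 : δ ≤ 1) (hγ1 : γ ≤ 1)
    (h : ∀ i ≤ md δ, ((i : ℝ) + 1) * δ ≤ γ → t < q i) : γ - δ ≤ lq δ q t := by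
  rcases le_or_gt γ 0 with hγ | hγ
  · have : 0 ≤ lq δ q t := by unfold lq; positivity
    linarith
  set N := ⌊γ / δ⌋₊ with hN
  have hN1 : (N : ℝ) ≤ γ / δ := Nat.floor_le (by positivity)
  have hN2 : γ / δ < N + 1 := Nat.lt_floor_add_one _
  have hmd : 1 / δ ^ 2 ≤ md δ := Nat.le_ceil _
  have hNm : N ≤ md δ := by
    have h1 : (N : ℝ) ≤ md δ := by
      refine hN1.trans (le_trans ?_ hmd)
      rw [div_le_div_iff₀ hδ (by positivity)]
      nlinarith
    exact_mod_cast h1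
  have hsub : Finset.range N ⊆ (Finset.range (md δ + 1)).filter (fun i => t < q i) := by
    intro i hi
    rw [Finset.mem_range] at hi
    rw [Finset.mem_filter, Finset.mem_range]
    refine ⟨by omega, h i (by omega) ?_⟩
    have h1 : ((i : ℝ) + 1) ≤ N := by exact_mod_cast hi
    calc ((i : ℝ) + 1) * δ ≤ N * δ := by gcongr
      _ ≤ γ / δ * δ := by gcongr
      _ = γ := by field_simp
  have hcard := Finset.card_le_card hsub
  rw [Finset.card_range] at hcard
  have hc : (N : ℝ) ≤ (((Finset.range (md δ + 1)).filter (fun i => t < q i)).card : ℝ) := by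
    exact_mod_cast hcard
  unfold lq
  have h2 : δ * (N : ℝ) ≤ δ * (((Finset.range (md δ + 1)).filter (fun i => t < q i)).card : ℝ) := by
    gcongr
  have h3 : γ < (N + 1) * δ := by rwa [div_lt_iff₀ hδ] at hN2
  linarith

end PosGAux

open PosGAux in
theorem stPosG (hO : StOne) (hP : StPack) (hG : StGoodB) (hTP : StTailPos) (hE : StEx) :
    StPosG := by
  intro t ht
  obtain ⟨C0, c1, hC0, hc1, hc1', hG⟩ := hG
  obtain ⟨γ0, τ, hγ0, hτ, hTP⟩ := hTP C0 c1 (t + 2) hC0 hc1 (by linarith)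
  set γ := min γ0 1 with hγ
  have hγpos : 0 < γ := lt_min hγ0 one_pos
  have hsmall : ∀ᶠ δ in 𝓝[>] (0 : ℝ), δ ∈ Ioo (0 : ℝ) (min (γ / 4) 1) :=
    Ioo_mem_nhdsGT (lt_min (by linarith) one_pos)
  obtain ⟨δ, h1, h2, h3, h4, h5, hδ⟩ :=
    ((hO t (γ / 4) ht (by linarith)).and ((hP (τ / 2) (by linarith)).and (hG.and
      (hTP.and (hE.and hsmall))))).exists
  have hδ0 : 0 < δ := hδ.1
  have hδ1 : δ < γ / 4 := hδ.2.trans_le (min_le_left _ _)
  have hδ2 : δ < 1 := hδ.2.trans_le (min_le_right _ _)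
  refine ⟨γ / 4, by linarith, ?_⟩
  filter_upwards [h1, h2, h3, h4, h5] with n g1 g2 g3 g4 g5 e
  obtain ⟨T⟩ := g5
  have k1 := g1 T e
  obtain ⟨-, -, k2, k3⟩ := g2 T
  have k4 := g3 T
  have k5 := g4 (qv T) k4 (fun q' a1 a2 a3 => by linarith [k3 q' a1 a2 a3])
  have k6 : γ - δ ≤ lq δ (qv T) t := by
    refine lq_ge hδ0 hδ2.le (min_le_right _ _) fun i hi hle => ?_
    have := k5 i hi (hle.trans (min_le_left _ _))
    linarith
  have k7 := (abs_le.1 k1).1
  linarith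

end Pool.Agent.Lib.MP_193d8d_pr
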