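import Pool.Agent.Lib.MP_193d8d_pr.StA
import Pool.Agent.Lib.MP_193d8d_pr.StB
import Pool.Agent.Lib.MP_193d8d_pr.Base

set_option autoImplicit false
open MeasureTheory Set Filter Topology

namespace Pool.Agent.Lib.MP_193d8d_pr

namespace PsMomAux

section lev

variable {ε δ : ℝ} {J m : ℕ}

theorem lev_zero : lev ε δ J m 0 = 0 := by simp [lev]

theorem lev_low {j : ℕ} (hj : j ≤ J) : lev ε δ J m (J + 1 - j) = ε * δ * (1 / 2) ^ j := by
  have h1 : J + 1 - j ≠ 0 := by omega
  have h2 : J + 1 - j ≤ J + 1 := by omega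
  have h3 : J + 1 - (J + 1 - j) = j := by omega
  rw [lev, if_neg h1, if_pos h2, h3]

theorem lev_main {i : ℕ} (hi : i ≤ m) : lev ε δ J m (J + 1 + i) = ε * δ * (i + 1) := by
  rcases Nat.eq_zero_or_pos i with h | h
  · subst h
    have := lev_low (ε := ε) (δ := δ) (J := J) (m := m) (j := 0) (Nat.zero_le J)
    simpa using this
  · have h1 : J + 1 + i ≠ 0 := by omega
    have h2 : ¬ J + 1 + i ≤ J + 1 := by omega
    have h3 : J + 1 + i ≤ J + 1 + m := by omega
    rw [lev, if_neg h1, if_neg h2, if_pos h3]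
    push_cast
    ring

theorem lev_top : lev ε δ J m (J + m + 1 + 1) = 1 := by
  have h1 : J + m + 1 + 1 ≠ 0 := by omega
  have h2 : ¬ J + m + 1 + 1 ≤ J + 1 := by omega
  have h3 : ¬ J + m + 1 + 1 ≤ J + 1 + m := by omega
  rw [lev, if_neg h1, if_neg h2, if_neg h3]

theorem lev_one : lev ε δ J m 1 = ε * δ * (1 / 2) ^ J := by
  have := lev_low (ε := ε) (δ := δ) (J := J) (m := m) (j := J) le_rfl
  rwa [show J + 1 - J = 1 by omega] at this

theorem lev_last : lev ε δ J m (J + m + 1) = ε * δ * (m + 1) := by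
  have := lev_main (ε := ε) (δ := δ) (J := J) (m := m) (i := m) le_rfl
  rwa [show J + 1 + m = J + m + 1 by omega] at this

theorem lev_lt (hε : 0 < ε) (hδ : 0 < δ) (hm : (m + 1) * δ * ε < 1) :
    ∀ h, h ≤ J + m + 1 → lev ε δ J m h < lev ε δ J m (h + 1) := by
  intro h hh
  have hεδ : 0 < ε * δ := mul_pos hε hδ
  rcases Nat.eq_zero_or_pos h with h0 | h0
  · subst h0
    rw [lev_zero, zero_add, lev_one]
    positivity
  · by_cases h1 : h ≤ J
    · obtain ⟨j, hj, rfl⟩ : ∃ j, j + 1 ≤ J ∧ h = J + 1 - (j + 1) := ⟨J - h, by omega, by omega⟩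
      rw [lev_low hj, show J + 1 - (j + 1) + 1 = J + 1 - j by omega, lev_low (by omega)]
      apply mul_lt_mul_of_pos_left _ hεδ
      rw [pow_succ]
      have : (0 : ℝ) < (1 / 2) ^ j := by positivity
      linarith
    · by_cases h2 : h ≤ J + m
      · obtain ⟨i, hi, rfl⟩ : ∃ i, i + 1 ≤ m ∧ h = J + 1 + i := ⟨h - (J + 1), by omega, by omega⟩
        rw [lev_main (by omega), show J + 1 + i + 1 = J + 1 + (i + 1) by omega, lev_main hi]
        push_cast
        nlinarith
      · have h3 : h = J + m + 1 := by omega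
        subst h3
        rw [lev_last, lev_top]
        nlinarith

end lev

theorem rr_tendsto : Tendsto rr atTop (𝓝 0) := by
  have h1 : Tendsto (fun n : ℕ => Real.sqrt (n : ℝ)) atTop atTop :=
    Real.tendsto_sqrt_atTop.comp tendsto_natCast_atTop_atTop
  have h2 : Tendsto (fun n : ℕ => (Real.sqrt (n : ℝ))⁻¹) atTop (𝓝 0) :=
    tendsto_inv_atTop_zero.comp h1
  refine h2.congr ?_
  intro n
  simp [rr, one_div]

theorem max_div {a r : ℝ} (hr : 0 < r) : max 0 (a / r) = max 0 a / r := by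
  rw [← max_div_div_right hr.le 0 a, zero_div]

end PsMomAux

open PsMomAux in
theorem stPsMom (hK : StMomK) (hT : StMomT) (hN : StNegT) (hV : StVol) : StPsMom := by
  obtain ⟨C, hC, hK⟩ := hK
  refine ⟨C, hC, ?_⟩
  have hpos : ∀ᶠ δ in 𝓝[>] (0 : ℝ), 0 < δ := eventually_mem_nhdsWithin
  filter_upwards [hpos] with δ hδ
  have h1 : Tendsto (fun n : ℕ => ((md δ : ℝ) + 1) * δ * rr n) atTop
      (𝓝 (((md δ : ℝ) + 1) * δ * 0)) := rr_tendsto.const_mul _
  rw [mul_zero] at h1
  filter_upwards [h1.eventually (gt_mem_nhds (show (0 : ℝ) < 1 by norm_num)),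
    eventually_ge_atTop 3, hK] with n hn hn3 hKn T e i hi
  have hr : 0 < rr n := by
    unfold rr
    have : (0 : ℝ) < n := by exact_mod_cast (by omega : 0 < n)
    have := Real.sqrt_pos.2 this
    positivity
  obtain ⟨hm, -, -, hv⟩ := hV (9 / 10) n (by norm_num) (by norm_num)
  obtain ⟨-, hKe⟩ := hKn
  obtain ⟨h2, -, h3, -⟩ := hKe e
  have hx : ∀ x ∈ M (9 / 10) n, ∀ e, 0 < x e ∧ x e ≤ 2 := by
    intro x hx e
    have := hx.1 e
    exact ⟨by linarith [this.1], this.2⟩
  have hvol : volume (M (9 / 10) n) ≠ 0 := by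
    intro h0
    unfold vol at hv
    rw [h0] at hv
    norm_num at hv
  have hlv : lv δ n (n + 1 + i) = rr n * δ * (i + 1) := lev_main hi
  have hi0 : (0 : ℝ) < (i : ℝ) + 1 := by positivity
  have hle : n + 1 + i ≤ HH δ n + 1 := by
    unfold HH
    omega
  constructor
  · have h4 := hT (Edge n) (M (9 / 10) n) (HH δ n) (lv δ n) T hm hx hvol lev_zero lev_top
      (lev_lt hr hδ hn) e (n + 1 + i) (fun t => max 0 t ^ 2) hle
      (fun a b hab => pow_le_pow_left₀ (le_max_left _ _) (max_le_max le_rfl hab) 2)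
      (fun t => by positivity)
    have h5 := h4.trans h2
    have e1 : EE (pw δ n) (fun c => max 0 (ps T.Q (rr n) n e c i) ^ 2) =
        EE (wts (HH δ n) (lv δ n)) (fun c => max 0 (1 - T.Q e c (n + 1 + i)) ^ 2) / rr n ^ 2 := by
      calc EE (pw δ n) (fun c => max 0 (ps T.Q (rr n) n e c i) ^ 2) =
          EE (pw δ n) (fun c => max 0 (1 - T.Q e c (n + 1 + i)) ^ 2 * (rr n ^ 2)⁻¹) :=
            EE_congr fun c => by
              unfold ps
              rw [max_div hr, div_pow, div_eq_mul_inv]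
        _ = EE (pw δ n) (fun c => max 0 (1 - T.Q e c (n + 1 + i)) ^ 2) * (rr n ^ 2)⁻¹ :=
            EE_mul_right _ _ _
        _ = _ := (div_eq_mul_inv _ _).symm
    rw [e1, div_le_div_iff₀ (by positivity) (by positivity)]
    rw [hlv] at h5
    set X := EE (wts (HH δ n) (lv δ n)) (fun c => max 0 (1 - T.Q e c (n + 1 + i)) ^ 2) with hX
    have h6 : rr n * (X * (((i : ℝ) + 1) * δ)) ≤ rr n * (C * rr n ^ 2) := by
      calc rr n * (X * (((i : ℝ) + 1) * δ)) = rr n * δ * ((i : ℝ) + 1) * X := by ring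
        _ ≤ C * rr n ^ 3 := h5
        _ = _ := by ring
    exact le_of_mul_le_mul_left h6 hr
  · have h4 := hN (9 / 10) n (HH δ n) (lv δ n) T (by norm_num) (by norm_num) hn3 lev_zero lev_top
      (lev_lt hr hδ hn) e (n + 1 + i) hle
    have e1 : EE (pw δ n) (fun c => max 0 (-ps T.Q (rr n) n e c i)) =
        EE (wts (HH δ n) (lv δ n)) (fun c => max 0 (T.Q e c (n + 1 + i) - 1)) / rr n := by
      calc EE (pw δ n) (fun c => max 0 (-ps T.Q (rr n) n e c i)) =
          EE (pw δ n) (fun c => max 0 (T.Q e c (n + 1 + i) - 1) * (rr n)⁻¹) :=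
            EE_congr fun c => by
              unfold ps
              rw [← neg_div, neg_sub, max_div hr, div_eq_mul_inv]
        _ = EE (pw δ n) (fun c => max 0 (T.Q e c (n + 1 + i) - 1)) * (rr n)⁻¹ :=
            EE_mul_right _ _ _
        _ = _ := (div_eq_mul_inv _ _).symm
    rw [e1, div_le_iff₀ hr]
    rw [hlv] at h4
    calc _ ≤ 2 * (rr n * δ * ((i : ℝ) + 1)) + _ := h4
      _ ≤ 2 * (rr n * δ * ((i : ℝ) + 1)) + C * rr n := by linarith
      _ = _ := by ring

end Pool.Agent.Lib.MP_193d8d_pr
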