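import Pool.Agent.Lib.MP_193d8d_pr.StA
import Pool.Agent.Lib.MP_193d8d_pr.StB
import Pool.Agent.Lib.MP_193d8d_pr.Base

set_option autoImplicit false
open MeasureTheory Set Filter Topology

namespace Pool.Agent.Lib.MP_193d8d_pr

namespace QaAux

/-- the weights sum to one -/
lemma sum_wts {H : ℕ} {l : ℕ → ℝ} (h0 : l 0 = 0) (h1 : l (H + 1) = 1) :
    ∑ h : Fin (H + 1), wts H l h = 1 := by
  unfold wts
  rw [Fin.sum_univ_eq_sum_range (fun i => l (i + 1) - l i), Finset.sum_range_sub, h0, h1]
  ring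

lemma wts_nonneg {H : ℕ} {l : ℕ → ℝ} (h : ∀ h, h ≤ H → l h < l (h + 1)) (i : Fin (H + 1)) :
    0 ≤ wts H l i := by
  unfold wts
  have := h i (by omega)
  linarith

lemma lev_zero (ε δ : ℝ) (J m : ℕ) : lev ε δ J m 0 = 0 := by simp [lev]

lemma lev_top (ε δ : ℝ) (J m : ℕ) : lev ε δ J m (J + m + 1 + 1) = 1 := by
  unfold lev
  rw [if_neg (by omega), if_neg (by omega), if_neg (by omega)]

lemma lev_main (ε δ : ℝ) (J : ℕ) {m i : ℕ} (hi : i ≤ m) :
    lev ε δ J m (J + 1 + i) = ε * δ * (i + 1) := by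
  unfold lev
  rw [if_neg (by omega)]
  by_cases h : J + 1 + i ≤ J + 1
  · have : i = 0 := by omega
    subst this
    simp
  · rw [if_neg h, if_pos (by omega)]
    push_cast
    ring

lemma lev_lt {ε δ : ℝ} (J m : ℕ) (hp : 0 < ε * δ) (h1 : (m + 1) * δ * ε < 1) :
    ∀ h, h ≤ J + m + 1 → lev ε δ J m h < lev ε δ J m (h + 1) := by
  intro h hh
  rcases Nat.eq_zero_or_pos h with rfl | h0
  · rw [lev_zero]
    unfold lev
    rw [if_neg (by omega), if_pos (by omega)]
    positivity
  · rcases Nat.lt_or_ge h (J + 1) with h2 | h2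
    · unfold lev
      rw [if_neg (by omega), if_pos (by omega), if_neg (by omega), if_pos (by omega)]
      have e1 : J + 1 - h = (J + 1 - (h + 1)) + 1 := by omega
      rw [e1, pow_succ]
      have : 0 < ε * δ * (1 / 2 : ℝ) ^ (J + 1 - (h + 1)) := by positivity
      linarith
    · obtain ⟨i, rfl⟩ : ∃ i, h = J + 1 + i := ⟨h - (J + 1), by omega⟩
      rcases Nat.lt_or_ge i m with h3 | h3
      · rw [lev_main ε δ J h3.le, show J + 1 + i + 1 = J + 1 + (i + 1) by omega,
          lev_main ε δ J h3]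
        push_cast
        nlinarith
      · have e1 : i = m := by omega
        subst e1
        rw [lev_main ε δ J le_rfl, show J + 1 + i + 1 = J + i + 1 + 1 by omega, lev_top]
        calc ε * δ * (i + 1) = (i + 1) * δ * ε := by ring
          _ < 1 := h1


theorem clamp_le_pos {K a : ℝ} (hK : 0 ≤ K) : clamp K a ≤ max 0 a := by
  unfold clamp
  exact max_le ((neg_nonpos.2 hK).trans (le_max_left _ _))
    ((min_le_left _ _).trans (le_max_right _ _))

theorem neg_le_clamp' {K a : ℝ} (hK : 0 ≤ K) : -max 0 (-a) ≤ clamp K a := by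
  unfold clamp
  refine le_max_of_le_right (le_min ?_ ?_)
  · have := le_max_right 0 (-a)
    linarith
  · have := le_max_left 0 (-a)
    linarith

theorem rr_pos {n : ℕ} (hn : 3 ≤ n) : 0 < rr n := by
  unfold rr
  have : (0 : ℝ) < n := by exact_mod_cast (by omega : 0 < n)
  positivity

theorem tendsto_rr : Tendsto rr atTop (𝓝 0) := by
  unfold rr
  exact tendsto_const_nhds.div_atTop (Real.tendsto_sqrt_atTop.comp tendsto_natCast_atTop_atTop)

end QaAux

open QaAux in
theorem stQa (h2 : StPsMom) : StQa := by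
  obtain ⟨C2, hC2, hP⟩ := h2
  refine ⟨C2, hC2, ?_⟩
  filter_upwards [hP, Ioo_mem_nhdsGT (show (0 : ℝ) < 1 / 2 by norm_num)] with δ hPδ hδ
  obtain ⟨hδ0, hδ1⟩ := hδ
  have hlt : ∀ᶠ n : ℕ in atTop, ((md δ : ℝ) + 1) * δ * rr n < 1 := by
    have h9 : Tendsto (fun n : ℕ => ((md δ : ℝ) + 1) * δ * rr n) atTop (𝓝 0) := by
      have := tendsto_rr.const_mul (((md δ : ℝ) + 1) * δ)
      rwa [mul_zero] at this
    exact h9.eventually_lt_const one_pos
  filter_upwards [hPδ, hlt, eventually_ge_atTop 3] with n hPn hln hn T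
  have hr := rr_pos hn
  have l0 : lv δ n 0 = 0 := lev_zero _ _ _ _
  have lH : lv δ n (HH δ n + 1) = 1 := lev_top _ _ _ _
  have hl : ∀ h, h ≤ HH δ n → lv δ n h < lv δ n (h + 1) := lev_lt n (md δ) (by positivity) hln
  have hp : ∀ h, 0 ≤ pw δ n h := wts_nonneg hl
  have hp1 : ∑ h, pw δ n h = 1 := sum_wts l0 lH
  have hK : 0 ≤ Kd δ := by
    unfold Kd
    positivity
  have hav : ∀ r : ℝ, AV (fun _ : Edge n => r) = r := AV_const (by omega)
  refine ⟨fun i hi => ?_, fun i hi => ?_, fun i hi => ?_, fun i hi => ?_⟩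
  · refine AV_mono fun e => EE_mono hp fun c => clamp_mono ?_
    have h3 := T.lt e c (n + 1 + i) (by show n + 1 + i ≤ n + md δ + 1; omega)
    show (1 - T.Q e c (n + 1 + (i + 1))) / rr n ≤ (1 - T.Q e c (n + 1 + i)) / rr n
    have h4 : T.Q e c (n + 1 + (i + 1)) = T.Q e c (n + 1 + i + 1) := by rw [add_assoc (n + 1)]
    rw [h4]
    exact div_le_div_of_nonneg_right (by linarith) hr.le
  · rw [abs_le]
    constructor
    · calc -Kd δ = AV (fun _ : Edge n => -Kd δ) := (hav _).symm
        _ ≤ qv T i := by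
          refine AV_mono fun e => ?_
          rw [← EE_const (ι := Edge n) hp1 (-Kd δ)]
          exact EE_mono hp fun c => neg_le_clamp
    · calc qv T i ≤ AV (fun _ : Edge n => Kd δ) := by
            refine AV_mono fun e => ?_
            rw [← EE_const (ι := Edge n) hp1 (Kd δ)]
            exact EE_mono hp fun c => clamp_le hK
        _ = Kd δ := hav _
  · set g : ℝ := ((i : ℝ) + 1) * δ with hg
    have hg0 : 0 < g := by positivity
    calc qv T i ≤ AV (fun _ : Edge n => C2 / Real.sqrt g) := by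
          refine AV_mono fun e => ?_
          obtain ⟨p1, -⟩ := hPn T e i hi
          refine (EE_mono hp fun c => clamp_le_pos hK).trans ?_
          have e1 := EE_abs_le hp hp1 (fun c => max 0 (ps T.Q (rr n) n e c i))
          have e2 : EE (pw δ n) (fun c => |max 0 (ps T.Q (rr n) n e c i)|) =
              EE (pw δ n) (fun c => max 0 (ps T.Q (rr n) n e c i)) :=
            EE_congr fun c => abs_of_nonneg (le_max_left _ _)
          rw [e2] at e1
          refine le_of_sq_le_sq ?_ (by positivity)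
          refine (e1.trans p1).trans ?_
          rw [div_pow, Real.sq_sqrt hg0.le]
          refine div_le_div_of_nonneg_right ?_ hg0.le
          nlinarith
      _ = C2 / Real.sqrt g := hav _
  · set g : ℝ := ((i : ℝ) + 1) * δ with hg
    calc -C2 - 2 * g = AV (fun _ : Edge n => -C2 - 2 * g) := (hav _).symm
      _ ≤ qv T i := by
          refine AV_mono fun e => ?_
          obtain ⟨-, p2⟩ := hPn T e i hi
          refine le_trans ?_ (EE_mono hp fun c => neg_le_clamp' hK)
          rw [EE_neg]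
          linarith

end Pool.Agent.Lib.MP_193d8d_pr
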