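import Pool.Agent.Lib.MP_193d8d_pr.StA
import Pool.Agent.Lib.MP_193d8d_pr.StB
import Pool.Agent.Lib.MP_193d8d_pr.Base

set_option autoImplicit false
open MeasureTheory Set Filter Topology

namespace Pool.Agent.Lib.MP_193d8d_pr

namespace QbAux

variable {n : ℕ}

theorem ext_update (x : Edge n → ℝ) (e : Edge n) (t : ℝ) {i j : Fin n}
    (h : ¬ ((i = e.a ∧ j = e.b) ∨ (i = e.b ∧ j = e.a))) :
    ext 0 (Function.update x e t) i j = ext 0 x i j := by
  rcases lt_trichotomy i j with hij | hij | hij
  · rw [ext_of_lt _ _ hij, ext_of_lt _ _ hij, Function.update_of_ne]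
    rintro rfl
    exact h (Or.inl ⟨rfl, rfl⟩)
  · rw [hij, ext_self, ext_self]
  · rw [ext_of_gt _ _ hij, ext_of_gt _ _ hij, Function.update_of_ne]
    rintro rfl
    exact h (Or.inr ⟨rfl, rfl⟩)

theorem ext_update_ab (x : Edge n → ℝ) (e : Edge n) (t : ℝ) :
    ext 0 (Function.update x e t) e.a e.b = t := by
  rw [ext_edge, Function.update_self]

theorem ext_update_ba (x : Edge n → ℝ) (e : Edge n) (t : ℝ) :
    ext 0 (Function.update x e t) e.b e.a = t := by
  rw [ext_symm, ext_update_ab]

/-- the lower end of the fibre given by the triangle inequalities -/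
noncomputable def low (e : Edge n) (x : Edge n → ℝ) : ℝ :=
  sup0 (fun k : Fin n => if k = e.a ∨ k = e.b then 0 else |ext 0 x e.a k - ext 0 x k e.b|)

theorem low_nonneg (e : Edge n) (x : Edge n → ℝ) : 0 ≤ low e x := sup0_nonneg _

theorem abs_le_low (e : Edge n) (x : Edge n → ℝ) {k : Fin n} (ha : k ≠ e.a) (hb : k ≠ e.b) :
    |ext 0 x e.a k - ext 0 x k e.b| ≤ low e x := by
  have h := le_sup0 (fun k : Fin n =>
    if k = e.a ∨ k = e.b then 0 else |ext 0 x e.a k - ext 0 x k e.b|) k
  have h1 : ¬ (k = e.a ∨ k = e.b) := fun h1 => h1.elim ha hb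
  simp only [if_neg h1] at h
  exact h

theorem low_update (e : Edge n) (x : Edge n → ℝ) (t : ℝ) :
    low e (Function.update x e t) = low e x := by
  unfold low
  congr 1
  funext k
  by_cases h1 : k = e.a ∨ k = e.b
  · rw [if_pos h1, if_pos h1]
  · rw [if_neg h1, if_neg h1]
    rw [not_or] at h1
    rw [ext_update, ext_update]
    · rintro (⟨h2, -⟩ | ⟨h2, -⟩)
      · exact h1.1 h2
      · exact h1.2 h2
    · rintro (⟨-, h2⟩ | ⟨-, h2⟩)
      · exact h1.2 h2
      · exact h1.1 h2

theorem measurable_ext (i j : Fin n) : Measurable fun x : Edge n → ℝ => ext 0 x i j := by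
  rcases lt_trichotomy i j with hij | hij | hij
  · simp only [ext_of_lt _ _ hij]
    exact measurable_pi_apply _
  · subst hij
    simp only [ext_self]
    exact measurable_const
  · simp only [ext_of_gt _ _ hij]
    exact measurable_pi_apply _

theorem measurable_low (e : Edge n) : Measurable (low e) := by
  refine measurable_of_Iic fun b => ?_
  have h1 : low e ⁻¹' Iic b = {_x : Edge n → ℝ | (0 : ℝ) ≤ b} ∩
      ⋂ k : Fin n, {x | (if k = e.a ∨ k = e.b then 0 else
        |ext 0 x e.a k - ext 0 x k e.b|) ≤ b} := by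
    ext x
    simp only [mem_preimage, mem_Iic, mem_inter_iff, mem_iInter, mem_ofPred_eq]
    exact sup0_le_iff
  rw [h1]
  refine MeasurableSet.inter (MeasurableSet.const _) (MeasurableSet.iInter fun k => ?_)
  refine measurableSet_le ?_ measurable_const
  by_cases h2 : k = e.a ∨ k = e.b
  · simp only [if_pos h2]
    exact measurable_const
  · simp only [if_neg h2]
    exact ((measurable_ext _ _).sub (measurable_ext _ _)).abs

/-- the fibre is closed downwards up to its lower end -/
theorem mem_fib {κ : ℝ} (hκ : 0 ≤ κ) {e : Edge n} {x : Edge n → ℝ} {y y0 : ℝ}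
    (h0 : y0 ∈ fib (M κ n) e x) (h1 : max κ (low e x) < y) (h2 : y ≤ y0) :
    y ∈ fib (M κ n) e x := by
  have h0' : Function.update x e y0 ∈ M κ n := h0
  obtain ⟨c1, c2⟩ := h0'
  have hκy : κ < y := (le_max_left _ _).trans_lt h1
  have hly : low e x < y := (le_max_right _ _).trans_lt h1
  have hab : e.a ≠ e.b := e.lt.ne
  refine ⟨fun e' => ?_, fun i j k => ?_⟩
  · by_cases he : e' = e
    · subst he
      have h3 := c1 e'
      rw [Function.update_self] at h3 ⊢
      exact ⟨hκy, h2.trans h3.2⟩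
    · have h3 := c1 e'
      rw [Function.update_of_ne he] at h3 ⊢
      exact h3
  · -- abbreviations
    have key : ∀ k : Fin n, k ≠ e.a → k ≠ e.b →
        |ext 0 x e.a k - ext 0 x k e.b| < y := fun k ha hb => (abs_le_low e x ha hb).trans_lt hly
    have hc := c2 i j k
    by_cases hij : (i = e.a ∧ j = e.b) ∨ (i = e.b ∧ j = e.a)
    · -- the big side
      have e1 : ext 0 (Function.update x e y) i j = y := by
        rcases hij with ⟨rfl, rfl⟩ | ⟨rfl, rfl⟩
        · exact ext_update_ab _ _ _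
        · exact ext_update_ba _ _ _
      have e2 : ext 0 (Function.update x e y0) i j = y0 := by
        rcases hij with ⟨rfl, rfl⟩ | ⟨rfl, rfl⟩
        · exact ext_update_ab _ _ _
        · exact ext_update_ba _ _ _
      by_cases hki : k = i
      · subst hki
        rw [ext_self]
        linarith
      by_cases hkj : k = j
      · subst hkj
        rw [ext_self]
        linarith
      have e3 : ¬ ((i = e.a ∧ k = e.b) ∨ (i = e.b ∧ k = e.a)) := by
        rintro (⟨h3, h4⟩ | ⟨h3, h4⟩)
        · rcases hij with ⟨h5, h6⟩ | ⟨h5, h6⟩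
          · exact hkj (h4.trans h6.symm)
          · exact hab (h3.symm.trans h5)
        · rcases hij with ⟨h5, h6⟩ | ⟨h5, h6⟩
          · exact hab (h5.symm.trans h3)
          · exact hkj (h4.trans h6.symm)
      have e4 : ¬ ((k = e.a ∧ j = e.b) ∨ (k = e.b ∧ j = e.a)) := by
        rintro (⟨h3, h4⟩ | ⟨h3, h4⟩)
        · rcases hij with ⟨h5, h6⟩ | ⟨h5, h6⟩
          · exact hki (h3.trans h5.symm)
          · exact hab (h6.symm.trans h4)
        · rcases hij with ⟨h5, h6⟩ | ⟨h5, h6⟩
          · exact hab (h4.symm.trans h6)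
          · exact hki (h3.trans h5.symm)
      rw [e1, ext_update _ _ _ e3, ext_update _ _ _ e4]
      rw [e2, ext_update _ _ _ e3, ext_update _ _ _ e4] at hc
      linarith
    · rw [ext_update _ _ _ hij]
      rw [ext_update _ _ _ hij] at hc
      by_cases hik : (i = e.a ∧ k = e.b) ∨ (i = e.b ∧ k = e.a)
      · have e1 : ext 0 (Function.update x e y) i k = y := by
          rcases hik with ⟨rfl, rfl⟩ | ⟨rfl, rfl⟩
          · exact ext_update_ab _ _ _
          · exact ext_update_ba _ _ _
        by_cases hkj : (k = e.a ∧ j = e.b) ∨ (k = e.b ∧ j = e.a)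
        · have e2 : ext 0 (Function.update x e y) k j = y := by
            rcases hkj with ⟨rfl, rfl⟩ | ⟨rfl, rfl⟩
            · exact ext_update_ab _ _ _
            · exact ext_update_ba _ _ _
          have hji : i = j := by
            rcases hik with ⟨h3, h4⟩ | ⟨h3, h4⟩
            · rcases hkj with ⟨h5, h6⟩ | ⟨h5, h6⟩
              · exact absurd (h5.symm.trans h4) hab
              · exact h3.trans h6.symm
            · rcases hkj with ⟨h5, h6⟩ | ⟨h5, h6⟩
              · exact h3.trans h6.symm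
              · exact absurd (h4.symm.trans h5) hab
          rw [e1, e2, hji, ext_self]
          linarith
        · rw [e1, ext_update _ _ _ hkj]
          have hja : j ≠ e.a := by
            rintro rfl
            rcases hik with ⟨h3, h4⟩ | ⟨h3, h4⟩
            · exact hkj (Or.inr ⟨h4, rfl⟩)
            · exact hij (Or.inr ⟨h3, rfl⟩)
          have hjb : j ≠ e.b := by
            rintro rfl
            rcases hik with ⟨h3, h4⟩ | ⟨h3, h4⟩
            · exact hij (Or.inl ⟨h3, rfl⟩)
            · exact hkj (Or.inl ⟨h4, rfl⟩)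
          have h3 := abs_lt.1 (key j hja hjb)
          rcases hik with ⟨rfl, rfl⟩ | ⟨rfl, rfl⟩
          · rw [ext_symm 0 x e.b j]
            linarith [h3.1, h3.2]
          · rw [ext_symm 0 x e.b j]
            linarith [h3.1, h3.2]
      · rw [ext_update _ _ _ hik]
        rw [ext_update _ _ _ hik] at hc
        by_cases hkj : (k = e.a ∧ j = e.b) ∨ (k = e.b ∧ j = e.a)
        · have e2 : ext 0 (Function.update x e y) k j = y := by
            rcases hkj with ⟨rfl, rfl⟩ | ⟨rfl, rfl⟩
            · exact ext_update_ab _ _ _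
            · exact ext_update_ba _ _ _
          rw [e2]
          have hia : i ≠ e.a := by
            rintro rfl
            rcases hkj with ⟨h3, h4⟩ | ⟨h3, h4⟩
            · exact hij (Or.inl ⟨rfl, h4⟩)
            · exact hik (Or.inl ⟨rfl, h3⟩)
          have hib : i ≠ e.b := by
            rintro rfl
            rcases hkj with ⟨h3, h4⟩ | ⟨h3, h4⟩
            · exact hik (Or.inr ⟨rfl, h3⟩)
            · exact hij (Or.inr ⟨rfl, h4⟩)
          have h3 := abs_lt.1 (key i hia hib)
          rcases hkj with ⟨rfl, rfl⟩ | ⟨rfl, rfl⟩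
          · rw [ext_symm 0 x i e.a]
            linarith [h3.1, h3.2]
          · rw [ext_symm 0 x i e.a]
            linarith [h3.1, h3.2]
        · rw [ext_update _ _ _ hkj]
          rw [ext_update _ _ _ hkj] at hc
          exact hc

/-- the lower end of the fibre is a lower bound -/
theorem le_of_mem_fib {κ : ℝ} {e : Edge n} {x : Edge n → ℝ} {y : ℝ}
    (h : y ∈ fib (M κ n) e x) : max κ (low e x) ≤ y := by
  have h' : Function.update x e y ∈ M κ n := h
  obtain ⟨c1, c2⟩ := h'
  have h1 := c1 e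
  rw [Function.update_self] at h1
  refine max_le h1.1.le (sup0_le ?_ fun k => ?_)
  · have h2 := c2 e.a e.a e.b
    rw [ext_self, ext_update_ab, ext_update_ba] at h2
    linarith
  · by_cases hk : k = e.a ∨ k = e.b
    · rw [if_pos hk]
      have h2 := c2 e.a e.a e.b
      rw [ext_self, ext_update_ab, ext_update_ba] at h2
      linarith
    · rw [if_neg hk]
      rw [not_or] at hk
      obtain ⟨hka, hkb⟩ := hk
      have e1 : ext 0 (Function.update x e y) e.a k = ext 0 x e.a k := by
        refine ext_update _ _ _ ?_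
        rintro (⟨-, h2⟩ | ⟨-, h2⟩)
        · exact hkb h2
        · exact hka h2
      have e2 : ext 0 (Function.update x e y) k e.b = ext 0 x k e.b := by
        refine ext_update _ _ _ ?_
        rintro (⟨h2, -⟩ | ⟨h2, -⟩)
        · exact hka h2
        · exact hkb h2
      have h2 := c2 e.a k e.b
      have h3 := c2 k e.b e.a
      rw [ext_update_ab, e1, ext_symm 0 _ e.b k, e2] at h2
      rw [e2, ext_update_ab, ext_symm 0 _ k e.a, e1] at h3
      rw [abs_le]
      constructor <;> linarith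

theorem sInf_fib {κ : ℝ} (hκ : 0 ≤ κ) {e : Edge n} {x : Edge n → ℝ} (hx : x ∈ M κ n) :
    sInf (fib (M κ n) e x) = max κ (low e x) := by
  have hxe : x e ∈ fib (M κ n) e x := by
    show Function.update x e (x e) ∈ M κ n
    rw [Function.update_eq_self]
    exact hx
  refine csInf_eq_of_forall_ge_of_forall_gt_exists_lt ⟨_, hxe⟩ (fun y hy => le_of_mem_fib hy) ?_
  intro w hw
  rcases (le_of_mem_fib hxe).eq_or_lt with h1 | h1
  · exact ⟨x e, hxe, h1 ▸ hw⟩
  · refine ⟨(max κ (low e x) + min (x e) w) / 2, mem_fib hκ hxe ?_ ?_, ?_⟩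
    · have := lt_min h1 hw
      linarith
    · have := min_le_left (x e) w
      linarith
    · have := min_le_right (x e) w
      linarith

/-- the excess of the lower end of the fibre over `1` -/
noncomputable def ex (e : Edge n) (x : Edge n → ℝ) : ℝ := max 0 (low e x - 1)

theorem measurable_ex (e : Edge n) : Measurable (ex e) :=
  measurable_const.max ((measurable_low e).sub_const 1)

theorem ex_nonneg (e : Edge n) (x : Edge n → ℝ) : 0 ≤ ex e x := le_max_left _ _

theorem ex_eq {κ : ℝ} (hκ : 0 ≤ κ) (hκ1 : κ < 1) {e : Edge n} {x : Edge n → ℝ}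
    (hx : x ∈ M κ n) : max 0 (sInf (fib (M κ n) e x) - 1) = ex e x := by
  rw [sInf_fib hκ hx, ex]
  rcases le_total κ (low e x) with h | h
  · rw [max_eq_right h]
  · rw [max_eq_left h, max_eq_left (by linarith), max_eq_left (by linarith)]

theorem ex_le {κ : ℝ} (hκ : 0 ≤ κ) {e : Edge n} {x : Edge n → ℝ} (hx : x ∈ M κ n) :
    ex e x ≤ 2 := by
  have hxe : x e ∈ fib (M κ n) e x := by
    show Function.update x e (x e) ∈ M κ n
    rw [Function.update_eq_self]
    exact hx
  have h1 := le_of_mem_fib hxe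
  have h2 := (hx.1 e).2
  have h3 := le_max_right κ (low e x)
  exact max_le (by norm_num) (by linarith)

/-- the weights sum to one -/
lemma sum_wts {H : ℕ} {l : ℕ → ℝ} (h0 : l 0 = 0) (h1 : l (H + 1) = 1) :
    ∑ h : Fin (H + 1), wts H l h = 1 := by
  unfold wts
  rw [Fin.sum_univ_eq_sum_range (fun i => l (i + 1) - l i), Finset.sum_range_sub, h0, h1]
  ring

lemma wts_nonneg {H : ℕ} {l : ℕ → ℝ} (h : ∀ h, h ≤ H → l h < l (h + 1)) (i : Fin (H + 1)) :
    0 ≤ wts H l i := by
  unfold wts
  have := h i (by omega)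
  linarith

lemma lev_zero (ε δ : ℝ) (J m : ℕ) : lev ε δ J m 0 = 0 := by simp [lev]

lemma lev_top (ε δ : ℝ) (J m : ℕ) : lev ε δ J m (J + m + 1 + 1) = 1 := by
  unfold lev
  rw [if_neg (by omega), if_neg (by omega), if_neg (by omega)]

lemma lev_main (ε δ : ℝ) (J : ℕ) {m i : ℕ} (hi : i ≤ m) :
    lev ε δ J m (J + 1 + i) = ε * δ * (i + 1) := by
  unfold lev
  rw [if_neg (by omega)]
  by_cases h : J + 1 + i ≤ J + 1
  · have : i = 0 := by omega
    subst this
    simp
  · rw [if_neg h, if_pos (by omega)]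
    push_cast
    ring

lemma lev_lt {ε δ : ℝ} (J m : ℕ) (hp : 0 < ε * δ) (h1 : (m + 1) * δ * ε < 1) :
    ∀ h, h ≤ J + m + 1 → lev ε δ J m h < lev ε δ J m (h + 1) := by
  intro h hh
  rcases Nat.eq_zero_or_pos h with rfl | h0
  · rw [lev_zero]
    unfold lev
    rw [if_neg (by omega), if_pos (by omega)]
    positivity
  · rcases Nat.lt_or_ge h (J + 1) with h2 | h2
    · unfold lev
      rw [if_neg (by omega), if_pos (by omega), if_neg (by omega), if_pos (by omega)]
      have e1 : J + 1 - h = (J + 1 - (h + 1)) + 1 := by omega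
      rw [e1, pow_succ]
      have : 0 < ε * δ * (1 / 2 : ℝ) ^ (J + 1 - (h + 1)) := by positivity
      linarith
    · obtain ⟨i, rfl⟩ : ∃ i, h = J + 1 + i := ⟨h - (J + 1), by omega⟩
      rcases Nat.lt_or_ge i m with h3 | h3
      · rw [lev_main ε δ J h3.le, show J + 1 + i + 1 = J + 1 + (i + 1) by omega,
          lev_main ε δ J h3]
        push_cast
        nlinarith
      · have e1 : i = m := by omega
        subst e1
        rw [lev_main ε δ J le_rfl, show J + 1 + i + 1 = J + i + 1 + 1 by omega, lev_top]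
        calc ε * δ * (i + 1) = (i + 1) * δ * ε := by ring
          _ < 1 := h1


theorem le_clamp_add {K a z : ℝ} (hz : 0 ≤ z) (h : -a ≤ K + z) : clamp K a ≤ a + z := by
  unfold clamp
  refine max_le (by linarith) ((min_le_left _ _).trans (by linarith))

theorem md_le {δ : ℝ} (h0 : 0 < δ) (h1 : δ < 1 / 2) {i : ℕ} (hi : i ≤ md δ) :
    2 * (((i : ℝ) + 1) * δ) ≤ Kd δ := by
  have h2 : (md δ : ℝ) < 1 / δ ^ 2 + 1 := Nat.ceil_lt_add_one (by positivity)
  have h3 : (i : ℝ) ≤ md δ := by exact_mod_cast hi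
  have h4 : ((i : ℝ) + 1) * δ ≤ (1 / δ ^ 2 + 2) * δ :=
    mul_le_mul_of_nonneg_right (by linarith) h0.le
  have h5 : (1 / δ ^ 2 + 2) * δ = 1 / δ + 2 * δ := by
    field_simp
  have h6 : Kd δ = 4 * (1 / δ) := by
    unfold Kd
    ring
  have h7 : 2 * δ ≤ 1 / δ := by
    rw [le_div_iff₀ h0]
    nlinarith
  rw [h6]
  linarith

theorem rr_pos {n : ℕ} (hn : 3 ≤ n) : 0 < rr n := by
  unfold rr
  have : (0 : ℝ) < n := by exact_mod_cast (by omega : 0 < n)
  positivity

theorem tendsto_rr : Tendsto rr atTop (𝓝 0) := by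
  unfold rr
  exact tendsto_const_nhds.div_atTop (Real.tendsto_sqrt_atTop.comp tendsto_natCast_atTop_atTop)

theorem mean_ind {E : Type} [Fintype E] (R A : Set (E → ℝ)) (hA : MeasurableSet A) :
    mean R (A.indicator (fun _ => (1 : ℝ))) = vol (R ∩ A) / vol R := by
  unfold mean
  congr 1
  rw [setIntegral_indicator hA, setIntegral_const, smul_eq_mul, mul_one]
  rfl

/-- the estimate for one cell -/
theorem cell {V Y W A B r g Q : ℝ} (hV : 0 < V) (hY : 0 < Y) (hr : 0 < r) (hχ : V / Y ≤ 2)
    (hW : W = A / V) (hA0 : 0 ≤ A) (h1 : 1 ≤ Q → r * g * V ≤ A + B)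
    (h2 : 1 ≤ Q → B ≤ (Q - 1) * Y) (h3 : Q < 1 → r * g * V ≤ A) :
    (1 - Q) / r ≤ max 0 ((1 - Q) / r) + 2 / r * W - g * (V / Y) := by
  have hW0 : 0 ≤ W := by rw [hW]; positivity
  have hA : A = W * V := by rw [hW]; field_simp
  rcases le_or_gt 1 Q with h | h
  · have h4 : r * g * V ≤ W * V + (Q - 1) * Y := by
      have := h1 h
      have := h2 h
      linarith
    have h5 : g * (V / Y) ≤ W / r * (V / Y) + (Q - 1) / r := by
      have e1 : W / r * (V / Y) + (Q - 1) / r = (W * V + (Q - 1) * Y) / (r * Y) := by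
        field_simp
      rw [e1, le_div_iff₀ (by positivity)]
      have e2 : g * (V / Y) * (r * Y) = r * g * V := by
        field_simp
      rw [e2]
      exact h4
    have h6 : W / r * (V / Y) ≤ W / r * 2 := mul_le_mul_of_nonneg_left hχ (by positivity)
    have h7 : (Q - 1) / r = -((1 - Q) / r) := by ring
    have h8 : 2 / r * W = W / r * 2 := by ring
    have h9 := le_max_left 0 ((1 - Q) / r)
    rw [h8]
    linarith
  · have h4 : r * g ≤ W := by
      have h5 := h3 h
      rw [hA] at h5
      exact le_of_mul_le_mul_right h5 hV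
    have h5 : g ≤ W / r := by
      rw [le_div_iff₀ hr]
      linarith
    have h6 : g * (V / Y) ≤ W / r * (V / Y) := mul_le_mul_of_nonneg_right h5 (by positivity)
    have h7 : W / r * (V / Y) ≤ W / r * 2 := mul_le_mul_of_nonneg_left hχ (by positivity)
    have h8 : 2 / r * W = W / r * 2 := by ring
    have h9 := le_max_right 0 ((1 - Q) / r)
    rw [h8]
    linarith

end QbAux

open QbAux in
theorem stQb (h1 : StMomK) (h2 : StPsMom) (h3 : StXi) (h4 : StXiT) (h5 : StNegC) (h6 : StVol)
    (h7 : StVolR) (h8 : StAvg) : StQb := by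
  obtain ⟨C1, hC1, hM⟩ := h1
  obtain ⟨C2, hC2, hP⟩ := h2
  refine ⟨C2 + 3 * C1, by linarith, ?_⟩
  filter_upwards [hP, Ioo_mem_nhdsGT (show (0 : ℝ) < 1 / 2 by norm_num)] with δ hPδ hδ
  obtain ⟨hδ0, hδ1⟩ := hδ
  have hlt : ∀ᶠ n : ℕ in atTop, ((md δ : ℝ) + 1) * δ * rr n < 1 := by
    have h9 : Tendsto (fun n : ℕ => ((md δ : ℝ) + 1) * δ * rr n) atTop (𝓝 0) := by
      have := tendsto_rr.const_mul (((md δ : ℝ) + 1) * δ)
      rwa [mul_zero] at this
    exact h9.eventually_lt_const one_pos
  filter_upwards [hPδ, hM, h4, hlt, eventually_ge_atTop 3] with n hPn hMn hXn hln hn T i hi hg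
  have hr := rr_pos hn
  obtain ⟨v1, v2, v3, v4⟩ := h6 (9 / 10) n (by norm_num) (by norm_num)
  have hS : ∀ x ∈ M (9 / 10) n, ∀ e', 0 < x e' ∧ x e' ≤ 2 :=
    fun x hx e' => ⟨lt_trans (by norm_num) (hx.1 e').1, (hx.1 e').2⟩
  have hS0 : volume (M (9 / 10) n) ≠ 0 := by
    intro h0
    unfold vol at v4
    rw [h0, ENNReal.toReal_zero] at v4
    linarith
  have l0 : lv δ n 0 = 0 := lev_zero _ _ _ _
  have lH : lv δ n (HH δ n + 1) = 1 := lev_top _ _ _ _
  have hl : ∀ h, h ≤ HH δ n → lv δ n h < lv δ n (h + 1) := lev_lt n (md δ) (by positivity) hln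
  have hlev : lv δ n (n + 1 + i) = rr n * (((i : ℝ) + 1) * δ) := by
    have := lev_main (rr n) δ n hi
    unfold lv
    rw [this]
    ring
  have hih : n + 1 + i ≤ HH δ n + 1 := by
    show n + 1 + i ≤ n + md δ + 1 + 1
    omega
  have hp : ∀ h, 0 ≤ pw δ n h := wts_nonneg hl
  have hp1 : ∑ h, pw δ n h = 1 := sum_wts l0 lH
  set g : ℝ := ((i : ℝ) + 1) * δ with hgdef
  obtain ⟨r1, -⟩ := h7 (Edge n) (M (9 / 10) n) (HH δ n) (lv δ n) T v1 hS hS0 l0 lH hl
  obtain ⟨x1, -, -⟩ := h3 (Edge n) (M (9 / 10) n) (HH δ n) (lv δ n) T v1 hS hS0 l0 lH hl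
  have hK : 2 * g ≤ Kd δ := md_le hδ0 hδ1 hi
  -- the bound for one edge
  have key : ∀ e, EE (pw δ n) (fun c => pos T e c i) ≤ C2 + 3 * C1 - g / 2 := by
    intro e
    have hA : MeasurableSet {x : Edge n → ℝ | x e ≤ 1} :=
      measurableSet_le (measurable_pi_apply e) measurable_const
    obtain ⟨q1, q2⟩ := hXn δ T e hδ0 hln
    obtain ⟨p1, -⟩ := hPn T e i hi
    obtain ⟨-, -, m3, m4, -⟩ := hMn.2 e
    -- the three averages
    have hind : IntegrableOn ({x : Edge n → ℝ | x e ≤ 1}.indicator (fun _ => (1 : ℝ)))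
        (M (9 / 10) n) := by
      have : IntegrableOn (fun _ : Edge n → ℝ => (1 : ℝ)) (M (9 / 10) n) := integrableOn_const v3
      exact this.indicator hA
    have hz : IntegrableOn (fun x => max 0 (sInf (fib (M (9 / 10) n) e x) - 1))
        (M (9 / 10) n) := by
      have hint : IntegrableOn (ex e) (M (9 / 10) n) := by
        refine Measure.integrableOn_of_bounded (M := 2) v3
          (measurable_ex e).aestronglyMeasurable ?_
        rw [ae_restrict_iff' v1]
        refine Filter.Eventually.of_forall fun x hx => ?_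
        rw [Real.norm_of_nonneg (ex_nonneg e x)]
        exact ex_le (by norm_num) hx
      exact hint.congr_fun (fun x hx => (ex_eq (by norm_num) (by norm_num) hx).symm) v1
    have a1 := h8 (Edge n) (M (9 / 10) n) (HH δ n) (lv δ n) T v1 hS hS0 l0 lH hl e _ hind
    have a2 := h8 (Edge n) (M (9 / 10) n) (HH δ n) (lv δ n) T v1 hS hS0 l0 lH hl e _ hz
    have a1' : EE (pw δ n) (fun c =>
        vol (Rset (M (9 / 10) n) (HH δ n) T.Q e c ∩ {x : Edge n → ℝ | x e ≤ 1}) /
          vol (Rset (M (9 / 10) n) (HH δ n) T.Q e c)) ≤ C1 * rr n := by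
      have e1 : EE (pw δ n) (fun c =>
          vol (Rset (M (9 / 10) n) (HH δ n) T.Q e c ∩ {x : Edge n → ℝ | x e ≤ 1}) /
            vol (Rset (M (9 / 10) n) (HH δ n) T.Q e c)) =
          mean (M (9 / 10) n) ({x : Edge n → ℝ | x e ≤ 1}.indicator (fun _ => (1 : ℝ))) := by
        rw [← a1]
        exact EE_congr fun c => (mean_ind _ _ hA).symm
      rw [e1, mean_ind _ _ hA]
      exact m4
    have a2' : EE (pw δ n) (fun c => mean (Rset (M (9 / 10) n) (HH δ n) T.Q e c)
        (fun x => max 0 (sInf (fib (M (9 / 10) n) e x) - 1))) ≤ C1 * rr n := by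
      refine le_trans (le_of_eq a2) m3
    -- the positive part
    have a3 : EE (pw δ n) (fun c => max 0 (ps T.Q (rr n) n e c i)) ≤ C2 := by
      have e1 := EE_abs_le hp hp1 (fun c => max 0 (ps T.Q (rr n) n e c i))
      have e2 : EE (pw δ n) (fun c => |max 0 (ps T.Q (rr n) n e c i)|) =
          EE (pw δ n) (fun c => max 0 (ps T.Q (rr n) n e c i)) :=
        EE_congr fun c => abs_of_nonneg (le_max_left _ _)
      rw [e2] at e1
      have e3 : C2 / g ≤ C2 := div_le_self (by linarith) hg
      have e4 := e1.trans (p1.trans e3)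
      by_contra hcon
      rw [not_le] at hcon
      nlinarith
    -- pointwise estimate
    have pt : ∀ c, pos T e c i ≤ max 0 (ps T.Q (rr n) n e c i) + 2 / rr n *
        (vol (Rset (M (9 / 10) n) (HH δ n) T.Q e c ∩ {x : Edge n → ℝ | x e ≤ 1}) /
          vol (Rset (M (9 / 10) n) (HH δ n) T.Q e c)) -
        g * (vol (Rset (M (9 / 10) n) (HH δ n) T.Q e c) /
          vol (cyl (Rset (M (9 / 10) n) (HH δ n) T.Q e c) e)) +
        1 / rr n * mean (Rset (M (9 / 10) n) (HH δ n) T.Q e c)
          (fun x => max 0 (sInf (fib (M (9 / 10) n) e x) - 1)) := by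
      intro c
      obtain ⟨mR, -, pR⟩ := r1 e c
      obtain ⟨y1, y2⟩ := q2 c
      set R := Rset (M (9 / 10) n) (HH δ n) T.Q e c with hR
      have hRM : R ⊆ M (9 / 10) n := fun x hx => hx.1
      have hfin : volume R ≠ ⊤ := ne_top_of_le_ne_top v3 (measure_mono hRM)
      have hY : 0 < vol (cyl R e) := by
        have h0 : 0 ≤ vol (cyl R e) := ENNReal.toReal_nonneg
        rcases h0.eq_or_lt with h | h
        · rw [← h, div_zero] at y1
          norm_num at y1
        · exact h
      have hmn : 0 ≤ mean R (fun x => max 0 (sInf (fib (M (9 / 10) n) e x) - 1)) :=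
        div_nonneg (integral_nonneg fun x => le_max_left _ _) pR.le
      have hcut : vol (R ∩ {x | x e ≤ T.Q e c (n + 1 + i)}) = rr n * g * vol R := by
        unfold vol
        rw [T.cut e c (n + 1 + i) hih, ENNReal.toReal_mul, hlev, ENNReal.toReal_ofReal]
        positivity
      have hvmono : ∀ A B : Set (Edge n → ℝ), A ⊆ B → B ⊆ R → vol A ≤ vol B := by
        intro A B hAB hBR
        exact ENNReal.toReal_mono (ne_top_of_le_ne_top hfin (measure_mono hBR))
          (measure_mono hAB)
      have hps : ps T.Q (rr n) n e c i = (1 - T.Q e c (n + 1 + i)) / rr n := rfl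
      have hcell := cell (V := vol R) (Y := vol (cyl R e))
        (W := vol (R ∩ {x : Edge n → ℝ | x e ≤ 1}) / vol R)
        (A := vol (R ∩ {x : Edge n → ℝ | x e ≤ 1}))
        (B := vol (R ∩ {x : Edge n → ℝ | 1 < x e ∧ x e ≤ T.Q e c (n + 1 + i)}))
        (r := rr n) (g := g) (Q := T.Q e c (n + 1 + i)) pR hY hr y2 rfl ENNReal.toReal_nonneg
        (by
          intro hQ
          rw [← hcut]
          have e1 : R ∩ {x | x e ≤ T.Q e c (n + 1 + i)} ⊆ (R ∩ {x : Edge n → ℝ | x e ≤ 1}) ∪
              (R ∩ {x : Edge n → ℝ | 1 < x e ∧ x e ≤ T.Q e c (n + 1 + i)}) := by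
            rintro x ⟨hx1, hx2⟩
            rcases le_or_gt (x e) 1 with h | h
            · exact Or.inl ⟨hx1, h⟩
            · exact Or.inr ⟨hx1, h, hx2⟩
          have e2 : volume (R ∩ {x | x e ≤ T.Q e c (n + 1 + i)}) ≤
              volume (R ∩ {x : Edge n → ℝ | x e ≤ 1}) +
              volume (R ∩ {x : Edge n → ℝ | 1 < x e ∧ x e ≤ T.Q e c (n + 1 + i)}) :=
            (measure_mono e1).trans (measure_union_le _ _)
          have f1 : volume (R ∩ {x : Edge n → ℝ | x e ≤ 1}) ≠ ⊤ :=
            ne_top_of_le_ne_top hfin (measure_mono inter_subset_left)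
          have f2 : volume (R ∩ {x : Edge n → ℝ | 1 < x e ∧ x e ≤ T.Q e c (n + 1 + i)}) ≠ ⊤ :=
            ne_top_of_le_ne_top hfin (measure_mono inter_subset_left)
          have e3 := ENNReal.toReal_mono (ENNReal.add_ne_top.2 ⟨f1, f2⟩) e2
          rwa [ENNReal.toReal_add f1 f2] at e3)
        (by
          intro hQ
          exact x1 e c 1 _ hQ)
        (by
          intro hQ
          rw [← hcut]
          refine hvmono _ _ ?_ inter_subset_left
          rintro x ⟨hx1, hx2⟩
          exact ⟨hx1, le_trans hx2 hQ.le⟩)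
      rw [← hps] at hcell
      have hneg := h5 (9 / 10) n (HH δ n) (lv δ n) T (by norm_num) (by norm_num) hn l0 lH hl e c
        (n + 1 + i) hih
      have hneg2 : -ps T.Q (rr n) n e c i ≤ Kd δ + 1 / rr n *
          mean R (fun x => max 0 (sInf (fib (M (9 / 10) n) e x) - 1)) := by
        have e1 := (le_max_right 0 (T.Q e c (n + 1 + i) - 1)).trans hneg
        rw [hlev] at e1
        have e2 : -ps T.Q (rr n) n e c i = (T.Q e c (n + 1 + i) - 1) / rr n := by
          rw [hps]
          ring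
        rw [e2, div_le_iff₀ hr]
        have e3 : (Kd δ + 1 / rr n *
            mean R (fun x => max 0 (sInf (fib (M (9 / 10) n) e x) - 1))) * rr n =
            Kd δ * rr n + mean R (fun x => max 0 (sInf (fib (M (9 / 10) n) e x) - 1)) := by
          field_simp
        rw [e3]
        have e4 : 2 * g * rr n ≤ Kd δ * rr n := mul_le_mul_of_nonneg_right hK hr.le
        calc T.Q e c (n + 1 + i) - 1 ≤ 2 * (rr n * g) +
            mean R (fun x => max 0 (sInf (fib (M (9 / 10) n) e x) - 1)) := e1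
          _ ≤ _ := by linarith
      have hcl := le_clamp_add (K := Kd δ) (a := ps T.Q (rr n) n e c i)
        (z := 1 / rr n * mean R (fun x => max 0 (sInf (fib (M (9 / 10) n) e x) - 1)))
        (by positivity) hneg2
      calc pos T e c i = clamp (Kd δ) (ps T.Q (rr n) n e c i) := rfl
        _ ≤ _ := hcl
        _ ≤ _ := by linarith
    have s1 := EE_mono hp pt
    rw [EE_add, EE_sub, EE_add, EE_mul_left, EE_mul_left, EE_mul_left] at s1
    have s2 : 2 / rr n * EE (pw δ n) (fun c =>
        vol (Rset (M (9 / 10) n) (HH δ n) T.Q e c ∩ {x : Edge n → ℝ | x e ≤ 1}) /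
          vol (Rset (M (9 / 10) n) (HH δ n) T.Q e c)) ≤ 2 * C1 := by
      calc _ ≤ 2 / rr n * (C1 * rr n) := mul_le_mul_of_nonneg_left a1' (by positivity)
        _ = 2 * C1 := by field_simp
    have s3 : 1 / rr n * EE (pw δ n) (fun c => mean (Rset (M (9 / 10) n) (HH δ n) T.Q e c)
        (fun x => max 0 (sInf (fib (M (9 / 10) n) e x) - 1))) ≤ C1 := by
      calc _ ≤ 1 / rr n * (C1 * rr n) := mul_le_mul_of_nonneg_left a2' (by positivity)
        _ = C1 := by field_simp
    have s4 : g / 2 ≤ g * EE (pw δ n) (fun c =>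
        vol (Rset (M (9 / 10) n) (HH δ n) T.Q e c) /
          vol (cyl (Rset (M (9 / 10) n) (HH δ n) T.Q e c) e)) := by
      have e1 : (1 : ℝ) / (n : ℝ) ^ 2 ≤ 1 / 2 := by
        have : (3 : ℝ) ≤ n := by exact_mod_cast hn
        apply one_div_le_one_div_of_le (by norm_num)
        nlinarith
      have e2 : (1 : ℝ) / 2 ≤ EE (pw δ n) (fun c =>
        vol (Rset (M (9 / 10) n) (HH δ n) T.Q e c) /
          vol (cyl (Rset (M (9 / 10) n) (HH δ n) T.Q e c) e)) := by linarith
      calc g / 2 = g * (1 / 2) := by ring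
        _ ≤ _ := mul_le_mul_of_nonneg_left e2 (by linarith)
    linarith
  have h9 : qv T i ≤ AV (fun _ : Edge n => C2 + 3 * C1 - g / 2) := AV_mono key
  rw [AV_const (by omega)] at h9
  calc qv T i ≤ C2 + 3 * C1 - g / 2 := h9
    _ = C2 + 3 * C1 - ((i : ℝ) + 1) * δ / 2 := by rw [hgdef]

end Pool.Agent.Lib.MP_193d8d_pr
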