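import Pool.Agent.Lib.MP_193d8d_pr.StA
import Pool.Agent.Lib.MP_193d8d_pr.StB
import Pool.Agent.Lib.MP_193d8d_pr.Base

set_option autoImplicit false
open MeasureTheory Set Filter Topology

namespace Pool.Agent.Lib.MP_193d8d_pr

namespace RigidAux

/-! ### Cells -/

section Cells

variable {δ : ℝ} {n : ℕ}

theorem rr_nonneg (n : ℕ) : 0 ≤ rr n := by
  unfold rr; positivity

theorem rr_pos {n : ℕ} (hn : 0 < n) : 0 < rr n := by
  unfold rr
  have : (0 : ℝ) < n := by exact_mod_cast hn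
  positivity

theorem rr_sq (n : ℕ) : rr n ^ 2 = 1 / n := by
  unfold rr
  rw [div_pow, one_pow, Real.sq_sqrt (Nat.cast_nonneg n)]

theorem lev_low (ε δ : ℝ) (J m h : ℕ) (h0 : h ≠ 0) (h1 : h ≤ J + 1) :
    lev ε δ J m h = ε * δ * (1 / 2) ^ (J + 1 - h) := by
  unfold lev
  rw [if_neg h0, if_pos h1]

theorem lev_zero (ε δ : ℝ) (J m : ℕ) : lev ε δ J m 0 = 0 := by
  unfold lev
  rw [if_pos rfl]

theorem lev_main (ε δ : ℝ) (J m i : ℕ) (hi : i ≤ m) :
    lev ε δ J m (J + 1 + i) = ε * δ * ((i : ℝ) + 1) := by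
  unfold lev
  rw [if_neg (by omega)]
  rcases Nat.eq_zero_or_pos i with rfl | h0
  · rw [if_pos (by omega)]
    simp
  · rw [if_neg (by omega), if_pos (by omega)]
    push_cast
    ring

theorem lev_top (ε δ : ℝ) (J m : ℕ) : lev ε δ J m (J + m + 1 + 1) = 1 := by
  unfold lev
  rw [if_neg (by omega), if_neg (by omega), if_neg (by omega)]

theorem pw_apply (h : Fin (HH δ n + 1)) : pw δ n h =
    lev (rr n) δ n (md δ) ((h : ℕ) + 1) - lev (rr n) δ n (md δ) h := rfl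

theorem pw_nonneg (hδ : 0 < δ) (hm : (md δ + 1) * δ * rr n ≤ 1) (h : Fin (HH δ n + 1)) :
    0 ≤ pw δ n h := by
  rw [pw_apply, sub_nonneg]
  have hr := rr_nonneg n
  have hrd : 0 ≤ rr n * δ := mul_nonneg hr hδ.le
  have hh : (h : ℕ) < n + md δ + 1 + 1 := h.2
  rcases Nat.lt_or_ge (h : ℕ) (n + 1) with h1 | h1
  · rw [lev_low _ _ _ _ ((h : ℕ) + 1) (by omega) (by omega)]
    rcases Nat.eq_zero_or_pos (h : ℕ) with h0 | h0
    · rw [h0, lev_zero]
      positivity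
    · rw [lev_low _ _ _ _ (h : ℕ) (by omega) (by omega)]
      refine mul_le_mul_of_nonneg_left ?_ hrd
      exact pow_le_pow_of_le_one (by norm_num) (by norm_num) (by omega)
  · obtain ⟨i, hi⟩ : ∃ i, (h : ℕ) = n + 1 + i := ⟨h - (n + 1), by omega⟩
    rcases Nat.lt_or_ge i (md δ) with h2 | h2
    · rw [hi, lev_main _ _ _ _ i (by omega), add_assoc (n + 1) i 1,
        lev_main _ _ _ _ (i + 1) (by omega)]
      refine mul_le_mul_of_nonneg_left ?_ hrd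
      push_cast
      linarith
    · have h3 : i = md δ := by omega
      subst h3
      rw [hi, lev_main _ _ _ _ (md δ) le_rfl]
      have h4 : n + 1 + md δ + 1 = n + md δ + 1 + 1 := by omega
      rw [h4, lev_top]
      linarith

theorem pw_sum : ∑ h : Fin (HH δ n + 1), pw δ n h = 1 := by
  have h1 : ∑ h : Fin (HH δ n + 1), pw δ n h = ∑ h ∈ Finset.range (HH δ n + 1),
      (lev (rr n) δ n (md δ) (h + 1) - lev (rr n) δ n (md δ) h) :=
    Fin.sum_univ_eq_sum_range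
      (fun h => lev (rr n) δ n (md δ) (h + 1) - lev (rr n) δ n (md δ) h) (HH δ n + 1)
  rw [h1, Finset.sum_range_sub, lev_zero, sub_zero]
  exact lev_top _ _ _ _

/-- sums over the classes -/
theorem class_sum (f : ℕ → ℝ) : ∑ h : Fin (HH δ n + 1),
    (if (h : ℕ) = HH δ n then 0 else pw δ n h * f (cls n h)) =
      rr n * δ * ∑ i ∈ Finset.range (md δ + 1), f i := by
  have h1 : ∑ h : Fin (HH δ n + 1), (if (h : ℕ) = HH δ n then 0 else pw δ n h * f (cls n h)) =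
      ∑ h ∈ Finset.range (HH δ n + 1), (if h = HH δ n then 0 else
        (lev (rr n) δ n (md δ) (h + 1) - lev (rr n) δ n (md δ) h) * f (h - n)) :=
    Fin.sum_univ_eq_sum_range (fun h => if h = HH δ n then 0 else
      (lev (rr n) δ n (md δ) (h + 1) - lev (rr n) δ n (md δ) h) * f (h - n)) (HH δ n + 1)
  rw [h1, Finset.sum_range_succ, if_pos rfl, add_zero]
  have h2 : HH δ n = n + 1 + md δ := by
    unfold HH; omega
  have h3 : ∑ h ∈ Finset.range (HH δ n), (if h = HH δ n then 0 else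
        (lev (rr n) δ n (md δ) (h + 1) - lev (rr n) δ n (md δ) h) * f (h - n)) =
      ∑ h ∈ Finset.range (n + 1 + md δ),
        (lev (rr n) δ n (md δ) (h + 1) - lev (rr n) δ n (md δ) h) * f (h - n) := by
    rw [← h2]
    refine Finset.sum_congr rfl fun h hh => ?_
    rw [if_neg (Finset.mem_range.1 hh).ne]
  rw [h3, Finset.sum_range_add, Finset.sum_range_succ' f]
  have h4 : ∑ h ∈ Finset.range (n + 1),
      (lev (rr n) δ n (md δ) (h + 1) - lev (rr n) δ n (md δ) h) * f (h - n) =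
      rr n * δ * f 0 := by
    have h5 : ∀ h ∈ Finset.range (n + 1),
        (lev (rr n) δ n (md δ) (h + 1) - lev (rr n) δ n (md δ) h) * f (h - n) =
        (lev (rr n) δ n (md δ) (h + 1) - lev (rr n) δ n (md δ) h) * f 0 := by
      intro h hh
      have h6 : h - n = 0 := by
        have := Finset.mem_range.1 hh
        omega
      rw [h6]
    rw [Finset.sum_congr rfl h5, ← Finset.sum_mul, Finset.sum_range_sub, lev_zero, sub_zero]
    have h6 := lev_main (rr n) δ n (md δ) 0 (Nat.zero_le _)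
    rw [add_zero] at h6
    rw [h6]
    simp
  have h5 : ∀ i ∈ Finset.range (md δ), (lev (rr n) δ n (md δ) (n + 1 + i + 1)
      - lev (rr n) δ n (md δ) (n + 1 + i)) * f (n + 1 + i - n) = rr n * δ * f (i + 1) := by
    intro i hi
    have hi' := Finset.mem_range.1 hi
    have h6 : n + 1 + i - n = i + 1 := by omega
    rw [add_assoc (n + 1) i 1, lev_main _ _ _ _ (i + 1) (by omega),
      lev_main _ _ _ _ i (by omega), h6]
    push_cast
    ring
  rw [h4, Finset.sum_congr rfl h5, ← Finset.mul_sum]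
  ring

end Cells

/-! ### Positions -/

section Pos

variable {δ : ℝ} {n : ℕ}

theorem Kd_nonneg (hδ : 0 < δ) : 0 ≤ Kd δ := by unfold Kd; positivity

theorem abs_pos_le (hδ : 0 < δ) (T : TT δ n) (e : Edge n) (c : Edge n → Fin (HH δ n + 1)) (i : ℕ) :
    |pos T e c i| ≤ Kd δ := abs_clamp_le (Kd_nonneg hδ)

theorem pos_anti (T : TT δ n) (e : Edge n) (c : Edge n → Fin (HH δ n + 1)) (i : ℕ)
    (hi : i < md δ) : pos T e c (i + 1) ≤ pos T e c i := by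
  unfold pos
  refine clamp_mono ?_
  unfold ps
  refine div_le_div_of_nonneg_right ?_ (rr_nonneg n)
  have h1 := T.lt e c (n + 1 + i) (by unfold HH; omega)
  have h2 : n + 1 + (i + 1) = n + 1 + i + 1 := by omega
  rw [h2]
  linarith

theorem pos_pred (T : TT δ n) (e : Edge n) (c c' : Edge n → Fin (HH δ n + 1))
    (h : ∀ e', e' < e → c e' = c' e') (i : ℕ) : pos T e c i = pos T e c' i := by
  unfold pos ps
  rw [T.pred e c c' h]

theorem tv_nonneg (T : TT δ n) (γa Γ : ℝ) (e : Edge n) (c : Edge n → Fin (HH δ n + 1)) :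
    0 ≤ tv T γa Γ e c := Finset.sum_nonneg fun _ _ => abs_nonneg _

theorem tv_pred (T : TT δ n) (γa Γ : ℝ) (e : Edge n) (c c' : Edge n → Fin (HH δ n + 1))
    (h : ∀ e', e' < e → c e' = c' e') : tv T γa Γ e c = tv T γa Γ e c' := by
  unfold tv
  refine Finset.sum_congr rfl fun i _ => ?_
  rw [pos_pred T e c c' h i, pos_pred T e c c' h (i + 1)]

theorem tv_le (hδ : 0 < δ) (T : TT δ n) (γa Γ : ℝ) (hq : ∀ i < md δ, qv T (i + 1) ≤ qv T i)
    (hK : ∀ i ≤ md δ, |qv T i| ≤ Kd δ) (e : Edge n) (c : Edge n → Fin (HH δ n + 1)) :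
    tv T γa Γ e c ≤ 4 * Kd δ := by
  unfold tv
  have h1 : ∑ i ∈ rg δ γa Γ, |(pos T e c i - pos T e c (i + 1)) - (qv T i - qv T (i + 1))| ≤
      ∑ i ∈ Finset.range (md δ),
        |(pos T e c i - pos T e c (i + 1)) - (qv T i - qv T (i + 1))| :=
    Finset.sum_le_sum_of_subset_of_nonneg (Finset.filter_subset _ _)
      fun _ _ _ => abs_nonneg _
  have h2 : ∑ i ∈ Finset.range (md δ),
      |(pos T e c i - pos T e c (i + 1)) - (qv T i - qv T (i + 1))| ≤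
      ∑ i ∈ Finset.range (md δ), ((pos T e c i - pos T e c (i + 1)) + (qv T i - qv T (i + 1))) := by
    refine Finset.sum_le_sum fun i hi => ?_
    have hi' := Finset.mem_range.1 hi
    have a1 := pos_anti T e c i hi'
    have a2 := hq i hi'
    rw [abs_le]
    constructor <;> linarith
  rw [Finset.sum_add_distrib, Finset.sum_range_sub', Finset.sum_range_sub'] at h2
  have b1 := abs_le.1 (abs_pos_le hδ T e c 0)
  have b2 := abs_le.1 (abs_pos_le hδ T e c (md δ))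
  have b3 := abs_le.1 (hK 0 (Nat.zero_le _))
  have b4 := abs_le.1 (hK (md δ) le_rfl)
  linarith [b1.2, b2.1, b3.2, b4.1]

theorem path_le (d : ℕ → ℝ) (i i' : ℕ) (h : i ≤ i') :
    |d i - d i'| ≤ ∑ j ∈ Finset.Ico i i', |d j - d (j + 1)| := by
  induction i', h using Nat.le_induction with
  | base => simp
  | succ m hm ih =>
    rw [Finset.sum_Ico_succ_top hm]
    calc |d i - d (m + 1)| = |(d i - d m) + (d m - d (m + 1))| := by congr 1; ring
      _ ≤ |d i - d m| + |d m - d (m + 1)| := abs_add_le _ _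
      _ ≤ _ := by linarith

theorem rg_sub (γa Γ : ℝ) (hδ : 0 < δ) (i i' : ℕ) (hi' : i' ≤ md δ)
    (h1 : γa ≤ ((i : ℝ) + 1) * δ) (h2 : ((i' : ℝ) + 1) * δ ≤ Γ) :
    Finset.Ico i i' ⊆ rg δ γa Γ := by
  intro j hj
  have hj' := Finset.mem_Ico.1 hj
  unfold rg
  rw [Finset.mem_filter, Finset.mem_range]
  have e1 : (i : ℝ) ≤ j := by exact_mod_cast hj'.1
  have e2 : (j : ℝ) ≤ i' := by exact_mod_cast hj'.2.le
  refine ⟨by omega, h1.trans (mul_le_mul_of_nonneg_right (by linarith) hδ.le),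
    (mul_le_mul_of_nonneg_right (by linarith) hδ.le).trans h2⟩

theorem diff_le (hδ : 0 < δ) (T : TT δ n) (γa Γ : ℝ) (e : Edge n)
    (c : Edge n → Fin (HH δ n + 1)) (i i' : ℕ) (hi' : i' ≤ md δ)
    (h : i ≤ i') (h1 : γa ≤ ((i : ℝ) + 1) * δ) (h2 : ((i' : ℝ) + 1) * δ ≤ Γ) :
    |(pos T e c i - qv T i) - (pos T e c i' - qv T i')| ≤ tv T γa Γ e c := by
  refine (path_le (fun j => pos T e c j - qv T j) i i' h).trans ?_
  unfold tv
  refine (Finset.sum_le_sum_of_subset_of_nonneg (rg_sub γa Γ hδ i i' hi' h1 h2)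
    fun _ _ _ => abs_nonneg _).trans (le_of_eq ?_)
  refine Finset.sum_congr rfl fun j _ => ?_
  congr 1
  ring

theorem dev_le (hδ : 0 < δ) (T : TT δ n) (γa Γ : ℝ) (e : Edge n)
    (c : Edge n → Fin (HH δ n + 1)) (i0 : ℕ) (hi0 : i0 ≤ md δ)
    (h1 : γa ≤ ((i0 : ℝ) + 1) * δ) (h2 : ((i0 : ℝ) + 1) * δ ≤ Γ) :
    dev T γa Γ e c ≤ |pos T e c i0 - qv T i0| + tv T γa Γ e c := by
  unfold dev
  have ht := tv_nonneg T γa Γ e c
  refine sup0_le (by positivity) fun i => ?_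
  split_ifs with hc
  · obtain ⟨g1, g2⟩ := hc
    have hi : (i : ℕ) ≤ md δ := by have := i.2; omega
    have key : |(pos T e c i - qv T i) - (pos T e c i0 - qv T i0)| ≤ tv T γa Γ e c := by
      rcases le_total (i : ℕ) i0 with hh | hh
      · exact diff_le hδ T γa Γ e c i i0 hi0 hh g1 h2
      · rw [abs_sub_comm]
        exact diff_le hδ T γa Γ e c i0 i hi hh h1 g2
    calc |pos T e c i - qv T i|
        = |((pos T e c i - qv T i) - (pos T e c i0 - qv T i0)) + (pos T e c i0 - qv T i0)| := by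
          congr 1; ring
      _ ≤ _ := abs_add_le _ _
      _ ≤ _ := by linarith
  · positivity

end Pos

/-! ### The profile near its zero -/

section Profile

variable {δ : ℝ} {q : ℕ → ℝ}

theorem md_ge (hδ : 0 < δ) {A : ℝ} (hA : 0 < A) (h : δ ≤ 1 / A) : A / δ ≤ md δ := by
  have h1 : (1 : ℝ) / δ ^ 2 ≤ md δ := Nat.le_ceil _
  refine le_trans ?_ h1
  rw [div_le_div_iff₀ hδ (by positivity)]
  have h2 : δ * A ≤ 1 := by rwa [le_div_iff₀ hA] at h
  nlinarith [hδ]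

theorem mono_le (hq : ∀ i < md δ, q (i + 1) ≤ q i) (i i' : ℕ) (h : i ≤ i') (h' : i' ≤ md δ) :
    q i' ≤ q i := by
  induction i', h using Nat.le_induction with
  | base => exact le_rfl
  | succ m hm ih => exact (hq m (by omega)).trans (ih (by omega))

/-- the first index with `q i ≤ 0` -/
theorem zero_index (C0 c1 : ℝ) (hC0 : 1 ≤ C0) (hc1 : 0 < c1) (hδ : 0 < δ) (hδ1 : δ ≤ 1)
    (hδ4 : δ ≤ 1 / (2 * C0 + 3)) (hq : Good C0 c1 δ q) :
    ∃ i0 : ℕ, i0 ≤ md δ ∧ q i0 ≤ 0 ∧ (∀ i < i0, 0 < q i) ∧ c1 < ((i0 : ℝ) + 1) * δ ∧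
      ((i0 : ℝ) + 1) * δ ≤ 2 * C0 + 3 := by
  classical
  obtain ⟨⟨-, -, -, h4, -, -, -⟩, h8⟩ := hq
  have hex : ∃ i, i ≤ ⌈2 * C0 / δ⌉₊ ∧ q i ≤ 0 := by
    refine ⟨⌈2 * C0 / δ⌉₊, le_rfl, ?_⟩
    have a1 : 2 * C0 / δ ≤ (⌈2 * C0 / δ⌉₊ : ℝ) := Nat.le_ceil _
    have a2 : (⌈2 * C0 / δ⌉₊ : ℝ) < 2 * C0 / δ + 1 := Nat.ceil_lt_add_one (by positivity)
    have a3 : (2 * C0 + 3) / δ ≤ md δ := md_ge hδ (by linarith) hδ4
    have a4 : 1 ≤ 1 / δ := by rw [le_div_iff₀ hδ]; linarith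
    have a5 : ((⌈2 * C0 / δ⌉₊ : ℕ) : ℝ) ≤ md δ := by
      have : (2 * C0 + 3) / δ = 2 * C0 / δ + 3 * (1 / δ) := by ring
      linarith
    have a6 : ⌈2 * C0 / δ⌉₊ ≤ md δ := by exact_mod_cast a5
    have a7 : 2 * C0 ≤ ((⌈2 * C0 / δ⌉₊ : ℝ) + 1) * δ := by
      rw [div_le_iff₀ hδ] at a1
      nlinarith
    have := h4 _ a6 (by linarith)
    linarith
  have hex' : ∃ i, q i ≤ 0 := ⟨hex.choose, hex.choose_spec.2⟩
  have hle : Nat.find hex' ≤ ⌈2 * C0 / δ⌉₊ := by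
    obtain ⟨i, hi, hqi⟩ := hex
    exact (Nat.find_min' hex' hqi).trans hi
  have a2 : (⌈2 * C0 / δ⌉₊ : ℝ) < 2 * C0 / δ + 1 := Nat.ceil_lt_add_one (by positivity)
  have a3 : (2 * C0 + 3) / δ ≤ md δ := md_ge hδ (by linarith) hδ4
  have a4 : 1 ≤ 1 / δ := by rw [le_div_iff₀ hδ]; linarith
  have hle' : ((Nat.find hex' : ℕ) : ℝ) ≤ (⌈2 * C0 / δ⌉₊ : ℝ) := by exact_mod_cast hle
  have a5 : ((Nat.find hex' : ℕ) : ℝ) ≤ md δ := by
    have : (2 * C0 + 3) / δ = 2 * C0 / δ + 3 * (1 / δ) := by ring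
    linarith
  have a6 : Nat.find hex' ≤ md δ := by exact_mod_cast a5
  refine ⟨Nat.find hex', a6, Nat.find_spec hex', fun i hi => ?_, ?_, ?_⟩
  · exact not_le.1 (Nat.find_min hex' hi)
  · by_contra hcon
    have := h8 _ a6 (not_lt.1 hcon)
    have := Nat.find_spec hex'
    linarith
  · have b1 : ((Nat.find hex' : ℕ) : ℝ) + 1 ≤ 2 * C0 / δ + 2 := by linarith
    calc (((Nat.find hex' : ℕ) : ℝ) + 1) * δ ≤ (2 * C0 / δ + 2) * δ :=
          mul_le_mul_of_nonneg_right b1 hδ.le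
      _ = 2 * C0 + 2 * δ := by field_simp
      _ ≤ _ := by linarith

/-- increments above level `c1 / 2` -/
theorem incr_le (C0 c1 : ℝ) (hC0 : 1 ≤ C0) (hc1 : 0 < c1) (hδ : 0 < δ) (hq : Good C0 c1 δ q)
    (i : ℕ) (hi : i < md δ) (h : c1 / 2 ≤ ((i : ℝ) + 1) * δ) :
    q i - q (i + 1) ≤ δ * (C0 * (1 + 2 / c1) ^ 2) := by
  obtain ⟨⟨-, -, -, -, -, h6, -⟩, -⟩ := hq
  refine (h6 i hi).trans ?_
  have hpos : 0 < ((i : ℝ) + 1) * δ := by positivity
  have a1 : 1 / (((i : ℝ) + 1) * δ) ≤ 2 / c1 := by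
    rw [div_le_div_iff₀ hpos hc1]
    linarith
  have a2 : 0 ≤ 1 / (((i : ℝ) + 1) * δ) := by positivity
  refine mul_le_mul_of_nonneg_left ?_ hδ.le
  refine mul_le_mul_of_nonneg_left ?_ (by linarith)
  exact pow_le_pow_left₀ (by linarith) (by linarith) 2

/-- below the zero -/
theorem down (C0 c1 s : ℝ) (hC0 : 1 ≤ C0) (hc1 : 0 < c1) (hδ : 0 < δ) (hδ2 : δ ≤ c1 / 2)
    (hq : Good C0 c1 δ q) (hsc : s ≤ c1 / 2) (i0 : ℕ) (hi0 : i0 ≤ md δ) (hz : q i0 ≤ 0)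
    (N : ℕ) (hN : (N : ℝ) * (δ * (C0 * (1 + 2 / c1) ^ 2)) ≤ s) (j : ℕ) (hj : j ≤ N) :
    j ≤ i0 ∧ q (i0 - j) ≤ j * (δ * (C0 * (1 + 2 / c1) ^ 2)) := by
  have hD : 0 ≤ δ * (C0 * (1 + 2 / c1) ^ 2) := by positivity
  induction j with
  | zero => simp [hz]
  | succ j ih =>
    obtain ⟨h1, h2⟩ := ih (by omega)
    have hjN : (j : ℝ) ≤ N := by exact_mod_cast (by omega : j ≤ N)
    have h3 : q (i0 - j) ≤ s := h2.trans ((mul_le_mul_of_nonneg_right hjN hD).trans hN)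
    have h4 : c1 < (((i0 - j : ℕ) : ℝ) + 1) * δ := by
      by_contra hcon
      have := hq.2 (i0 - j) (by omega) (not_lt.1 hcon)
      linarith
    have h5 : 1 ≤ i0 - j := by
      by_contra hcon
      have h6 : i0 - j = 0 := by omega
      rw [h6] at h4
      norm_num at h4
      linarith
    refine ⟨by omega, ?_⟩
    have h7 : i0 - j = (i0 - (j + 1)) + 1 := by omega
    have h8 : c1 / 2 ≤ (((i0 - (j + 1) : ℕ) : ℝ) + 1) * δ := by
      rw [h7] at h4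
      push_cast at h4
      nlinarith
    have h9 := incr_le C0 c1 hC0 hc1 hδ hq (i0 - (j + 1)) (by omega) h8
    rw [← h7] at h9
    push_cast
    linarith

/-- above the zero -/
theorem up (C0 c1 s : ℝ) (hC0 : 1 ≤ C0) (hc1 : 0 < c1) (hδ : 0 < δ) (hδ2 : δ ≤ c1 / 2)
    (hδ4 : δ ≤ 1 / (2 * C0 + 3))
    (hq : Good C0 c1 δ q) (hs1 : s ≤ 1) (i0 : ℕ) (hi0 : i0 ≤ md δ)
    (hp : ∀ i < i0, 0 < q i) (hlev : c1 < ((i0 : ℝ) + 1) * δ)
    (N : ℕ) (hN : (N : ℝ) * (δ * (C0 * (1 + 2 / c1) ^ 2)) ≤ s) (j : ℕ) (hj : j < N) :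
    i0 + j ≤ md δ ∧ -((j + 1) * (δ * (C0 * (1 + 2 / c1) ^ 2))) ≤ q (i0 + j) ∧
      (((i0 + j : ℕ) : ℝ) + 1) * δ ≤ 2 * C0 + 3 := by
  have hD : 0 ≤ δ * (C0 * (1 + 2 / c1) ^ 2) := by positivity
  have lv : ∀ i ≤ md δ, -1 ≤ q i → ((i : ℝ) + 1) * δ ≤ 2 * C0 + 2 := by
    intro i hi hqi
    by_contra hcon
    have := hq.1.2.2.2.1 i hi (by linarith)
    linarith
  induction j with
  | zero =>
    have h5 : 1 ≤ i0 := by
      by_contra hcon
      have h6 : i0 = 0 := by omega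
      rw [h6] at hlev
      norm_num at hlev
      linarith
    have h7 : i0 = (i0 - 1) + 1 := by omega
    have h8 : c1 / 2 ≤ (((i0 - 1 : ℕ) : ℝ) + 1) * δ := by
      rw [h7] at hlev
      push_cast at hlev
      nlinarith
    have h9 := incr_le C0 c1 hC0 hc1 hδ hq (i0 - 1) (by omega) h8
    rw [← h7] at h9
    have h10 := hp (i0 - 1) (by omega)
    have hN1 : (1 : ℝ) ≤ N := by exact_mod_cast hj
    have h11 : δ * (C0 * (1 + 2 / c1) ^ 2) ≤ s := by nlinarith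
    refine ⟨by omega, ?_, ?_⟩
    · push_cast
      simp only [add_zero]
      linarith
    · simp only [add_zero]
      have := lv i0 hi0 (by linarith)
      linarith
  | succ j ih =>
    obtain ⟨h1, h2, -⟩ := ih (by omega)
    have hjN : (j : ℝ) + 1 ≤ N := by exact_mod_cast (by omega : j + 1 ≤ N)
    have hjN2 : (j : ℝ) + 1 + 1 ≤ N := by exact_mod_cast (by omega : j + 1 + 1 ≤ N)
    have h3 : -s ≤ q (i0 + j) := by
      have := (mul_le_mul_of_nonneg_right hjN hD).trans hN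
      linarith
    have h4 := lv _ h1 (by linarith)
    have a3 : (2 * C0 + 3) / δ ≤ md δ := md_ge hδ (by linarith) hδ4
    have h5 : i0 + j + 1 ≤ md δ := by
      have : (((i0 + j : ℕ) : ℝ) + 1) ≤ md δ := by
        refine le_trans ?_ a3
        rw [le_div_iff₀ hδ]
        linarith
      exact_mod_cast this
    have h8 : c1 / 2 ≤ (((i0 + j : ℕ) : ℝ) + 1) * δ := by
      push_cast
      nlinarith [Nat.cast_nonneg (α := ℝ) j]
    have h9 := incr_le C0 c1 hC0 hc1 hδ hq (i0 + j) (by omega) h8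
    have h10 : i0 + (j + 1) = i0 + j + 1 := by omega
    have h11 : -((((j + 1 : ℕ) : ℝ) + 1) * (δ * (C0 * (1 + 2 / c1) ^ 2))) ≤ q (i0 + (j + 1)) := by
      rw [h10]
      push_cast
      linarith
    refine ⟨by omega, h11, ?_⟩
    have h12 : -s ≤ q (i0 + (j + 1)) := by
      have := (mul_le_mul_of_nonneg_right hjN2 hD).trans hN
      push_cast at h11
      linarith
    have := lv (i0 + (j + 1)) (by omega) (by linarith)
    linarith

/-- the condition for the special cells -/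
def Cond (δ γa Γ s ς : ℝ) (q : ℕ → ℝ) (i : ℕ) : Prop :=
  γa ≤ ((i : ℝ) + 1) * δ ∧ ((i : ℝ) + 1) * δ ≤ Γ ∧ |q i| ≤ s ∧ (ς = 1 → q i ≤ 0) ∧
    (ς = -1 → 0 < q i)

open Classical in
noncomputable def Ic (δ γa Γ s ς : ℝ) (q : ℕ → ℝ) : Finset ℕ :=
  (Finset.range (md δ + 1)).filter (Cond δ γa Γ s ς q)

theorem Ic_card_le (γa Γ s ς : ℝ) (hδ : 0 < δ) (hΓ : 0 ≤ Γ) :
    δ * ((Ic δ γa Γ s ς q).card : ℝ) ≤ Γ := by
  classical
  have h1 : Ic δ γa Γ s ς q ⊆ Finset.range ⌊Γ / δ⌋₊ := by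
    intro i hi
    unfold Ic at hi
    rw [Finset.mem_filter] at hi
    rw [Finset.mem_range]
    have h2 : ((i + 1 : ℕ) : ℝ) ≤ Γ / δ := by
      rw [le_div_iff₀ hδ]
      push_cast
      exact hi.2.2.1
    exact Nat.lt_of_lt_of_le (Nat.lt_succ_self i) (Nat.le_floor h2)
  have h2 := Finset.card_le_card h1
  rw [Finset.card_range] at h2
  have h3 : ((Ic δ γa Γ s ς q).card : ℝ) ≤ Γ / δ :=
    (Nat.cast_le.2 h2).trans (Nat.floor_le (by positivity))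
  rw [le_div_iff₀ hδ] at h3
  linarith

theorem Ic_card_ge (C0 c1 γa Γ s ς : ℝ) (hC0 : 1 ≤ C0) (hc1 : 0 < c1) (hγ : γa ≤ c1)
    (hΓ : 2 * C0 + 5 ≤ Γ) (hs : 0 < s) (hς : ς = 1 ∨ ς = -1)
    (hδ : 0 < δ) (hδ2 : δ ≤ c1 / 2) (hδ4 : δ ≤ 1 / (2 * C0 + 3))
    (hδ3 : δ * (C0 * (1 + 2 / c1) ^ 2) ≤ s / 2)
    (hq : Good C0 c1 δ q) (hsc : s ≤ c1 / 2) (hs1 : s ≤ 1) (i0 : ℕ) (hi0 : i0 ≤ md δ)
    (hz : q i0 ≤ 0) (hp : ∀ i < i0, 0 < q i) (hlev : c1 < ((i0 : ℝ) + 1) * δ)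
    (hlev2 : ((i0 : ℝ) + 1) * δ ≤ 2 * C0 + 3) :
    s / (2 * (C0 * (1 + 2 / c1) ^ 2)) ≤ δ * ((Ic δ γa Γ s ς q).card : ℝ) := by
  classical
  set Y : ℝ := C0 * (1 + 2 / c1) ^ 2 with hY
  have hYpos : 0 < Y := by positivity
  have hDpos : 0 < δ * Y := by positivity
  set N : ℕ := ⌊s / (δ * Y)⌋₊ with hNdef
  have hN : (N : ℝ) * (δ * Y) ≤ s := by
    have := Nat.floor_le (a := s / (δ * Y)) (by positivity)
    rwa [le_div_iff₀ hDpos] at this
  have hN2 : s / (2 * Y) ≤ δ * N := by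
    have h1 : s / (δ * Y) < N + 1 := Nat.lt_floor_add_one _
    rw [div_lt_iff₀ hDpos] at h1
    rw [div_le_iff₀ (by positivity)]
    nlinarith
  refine hN2.trans (mul_le_mul_of_nonneg_left ?_ hδ.le)
  rw [Nat.cast_le]
  have hmono := mono_le hq.1.1
  rcases hς with rfl | rfl
  · -- cells above
    have hinj : Set.InjOn (fun j : ℕ => i0 + j) (Finset.range N : Set ℕ) := by
      intro a _ b _ hab
      simpa using hab
    have hmaps : ∀ j ∈ Finset.range N, (fun j : ℕ => i0 + j) j ∈ Ic δ γa Γ s 1 q := by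
      intro j hj
      have hj' := Finset.mem_range.1 hj
      show i0 + j ∈ Ic δ γa Γ s 1 q
      obtain ⟨u1, u2, u3⟩ := up C0 c1 s hC0 hc1 hδ hδ2 hδ4 hq hs1 i0 hi0 hp hlev N hN j hj'
      unfold Ic
      rw [Finset.mem_filter, Finset.mem_range]
      have hjN : (j : ℝ) + 1 ≤ N := by exact_mod_cast hj'
      have u4 : -s ≤ q (i0 + j) := by
        have := (mul_le_mul_of_nonneg_right hjN hDpos.le).trans hN
        linarith
      have u5 : q (i0 + j) ≤ 0 := (hmono i0 (i0 + j) (by omega) u1).trans hz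
      refine ⟨by omega, ?_, by linarith, ?_, fun _ => u5, fun h => by norm_num at h⟩
      · push_cast
        nlinarith [Nat.cast_nonneg (α := ℝ) j]
      · rw [abs_le]
        constructor <;> linarith
    have := Finset.card_le_card_of_injOn _ hmaps hinj
    rwa [Finset.card_range] at this
  · have hdown := down C0 c1 s hC0 hc1 hδ hδ2 hq hsc i0 hi0 hz N hN
    have hinj : Set.InjOn (fun j : ℕ => i0 - (j + 1)) (Finset.range N : Set ℕ) := by
      intro a ha b hb hab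
      have ha' := (hdown (a + 1) (Finset.mem_range.1 ha)).1
      have hb' := (hdown (b + 1) (Finset.mem_range.1 hb)).1
      simp only at hab
      omega
    have hmaps : ∀ j ∈ Finset.range N, (fun j : ℕ => i0 - (j + 1)) j ∈ Ic δ γa Γ s (-1) q := by
      intro j hj
      have hj' := Finset.mem_range.1 hj
      show i0 - (j + 1) ∈ Ic δ γa Γ s (-1) q
      obtain ⟨u1, u2⟩ := hdown (j + 1) hj'
      unfold Ic
      rw [Finset.mem_filter, Finset.mem_range]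
      have hjN : ((j + 1 : ℕ) : ℝ) ≤ N := by exact_mod_cast hj'
      have u4 : q (i0 - (j + 1)) ≤ s :=
        u2.trans ((mul_le_mul_of_nonneg_right hjN hDpos.le).trans hN)
      have u5 : 0 < q (i0 - (j + 1)) := hp _ (by omega)
      refine ⟨by omega, ?_, ?_, ?_, fun h => by norm_num at h, fun _ => u5⟩
      · by_contra hcon
        have := hq.2 (i0 - (j + 1)) (by omega) (by linarith [not_le.1 hcon])
        linarith
      · have : ((i0 - (j + 1) : ℕ) : ℝ) ≤ i0 := by exact_mod_cast Nat.sub_le _ _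
        have := mul_le_mul_of_nonneg_right (add_le_add_left this 1) hδ.le
        nlinarith
      · rw [abs_le]
        constructor <;> linarith
    have := Finset.card_le_card_of_injOn _ hmaps hinj
    rwa [Finset.card_range] at this

end Profile

/-! ### The special cells -/

section Special

variable {δ : ℝ} {n : ℕ}

open Classical in
/-- special cells -/
noncomputable def Zc (δ : ℝ) (n : ℕ) (γa Γ s ς : ℝ) (q : ℕ → ℝ) : Finset (Fin (HH δ n + 1)) :=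
  Finset.univ.filter (fun h => (h : ℕ) ≠ HH δ n ∧ Cond δ γa Γ s ς q (cls n h))

open Classical in
/-- bad pairs -/
noncomputable def Bc (δ : ℝ) (n : ℕ) (γa Γ s ς : ℝ) (q : ℕ → ℝ) :
    Finset (Fin (HH δ n + 1) × Fin (HH δ n + 1)) :=
  Finset.univ.filter (fun y => ((y.1 : ℕ) ≠ HH δ n ∧ (y.2 : ℕ) ≠ HH δ n ∧
    0 < q (cls n y.1) + q (cls n y.2)) ∨ (y.1 ∈ Zc δ n γa Γ s ς q ∧ y.2 ∈ Zc δ n γa Γ s ς q))

theorem Zc_sum (γa Γ s ς : ℝ) (q : ℕ → ℝ) :
    ∑ h ∈ Zc δ n γa Γ s ς q, pw δ n h = rr n * (δ * ((Ic δ γa Γ s ς q).card : ℝ)) := by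
  classical
  have h1 := class_sum (δ := δ) (n := n) (fun i => if Cond δ γa Γ s ς q i then 1 else 0)
  have h2 : ∑ h ∈ Zc δ n γa Γ s ς q, pw δ n h = ∑ h : Fin (HH δ n + 1),
      (if (h : ℕ) = HH δ n then 0 else pw δ n h *
        (if Cond δ γa Γ s ς q (cls n h) then 1 else 0)) := by
    unfold Zc
    rw [Finset.sum_filter]
    refine Finset.sum_congr rfl fun h _ => ?_
    by_cases a : (h : ℕ) = HH δ n
    · simp [a]
    · by_cases b : Cond δ γa Γ s ς q (cls n h)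
      · simp [a, b]
      · simp [a, b]
  rw [h2, h1]
  have h3 : ∑ i ∈ Finset.range (md δ + 1), (if Cond δ γa Γ s ς q i then (1 : ℝ) else 0) =
      ((Ic δ γa Γ s ς q).card : ℝ) := by
    unfold Ic
    rw [Finset.card_filter]
    push_cast
    rfl
  rw [h3]
  ring

theorem cnt_sum (q : ℕ → ℝ) : ∑ h : Fin (HH δ n + 1), ∑ h' : Fin (HH δ n + 1),
    (if (h : ℕ) ≠ HH δ n ∧ (h' : ℕ) ≠ HH δ n ∧ 0 < q (cls n h) + q (cls n h')
      then pw δ n h * pw δ n h' else 0) = rr n ^ 2 * (δ ^ 2 * cnt (md δ) q 0) := by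
  classical
  have h1 : ∀ h : Fin (HH δ n + 1), ∑ h' : Fin (HH δ n + 1),
      (if (h : ℕ) ≠ HH δ n ∧ (h' : ℕ) ≠ HH δ n ∧ 0 < q (cls n h) + q (cls n h')
        then pw δ n h * pw δ n h' else 0) =
      if (h : ℕ) = HH δ n then 0 else pw δ n h * (rr n * δ * ∑ i' ∈ Finset.range (md δ + 1),
        (if 0 < q (cls n h) + q i' then (1 : ℝ) else 0)) := by
    intro h
    by_cases a : (h : ℕ) = HH δ n
    · simp [a]
    · rw [if_neg a, ← class_sum (δ := δ) (n := n)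
        (fun i' => if 0 < q (cls n h) + q i' then (1 : ℝ) else 0), Finset.mul_sum]
      refine Finset.sum_congr rfl fun h' _ => ?_
      by_cases b : (h' : ℕ) = HH δ n
      · simp [b]
      · by_cases c : 0 < q (cls n h) + q (cls n h')
        · simp [a, b, c]
        · simp [a, b, c]
  rw [Finset.sum_congr rfl fun h _ => h1 h]
  rw [class_sum (δ := δ) (n := n) (fun i => rr n * δ * ∑ i' ∈ Finset.range (md δ + 1),
        (if 0 < q i + q i' then (1 : ℝ) else 0))]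
  have h3 : cnt (md δ) q 0 = ∑ i ∈ Finset.range (md δ + 1), ∑ i' ∈ Finset.range (md δ + 1),
        (if 0 < q i + q i' then (1 : ℝ) else 0) := by
    unfold cnt
    rw [Finset.card_filter, Finset.sum_product]
    push_cast
    rfl
  rw [h3, ← Finset.mul_sum]
  ring

theorem Bc_sum_le (hp : ∀ h, 0 ≤ pw δ n h) (γa Γ s ς : ℝ) (q : ℕ → ℝ) (hδ : 0 < δ) (hΓ : 0 ≤ Γ)
    (L : ℝ) (hL : δ ^ 2 * cnt (md δ) q 0 ≤ L) :
    ∑ y ∈ Bc δ n γa Γ s ς q, pw δ n y.1 * pw δ n y.2 ≤ (L + Γ ^ 2) / n := by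
  classical
  have h1 : ∑ y ∈ Bc δ n γa Γ s ς q, pw δ n y.1 * pw δ n y.2 ≤
      ∑ h : Fin (HH δ n + 1), ∑ h' : Fin (HH δ n + 1),
      (if (h : ℕ) ≠ HH δ n ∧ (h' : ℕ) ≠ HH δ n ∧ 0 < q (cls n h) + q (cls n h')
        then pw δ n h * pw δ n h' else 0) +
      (∑ h ∈ Zc δ n γa Γ s ς q, pw δ n h) * (∑ h ∈ Zc δ n γa Γ s ς q, pw δ n h) := by
    unfold Bc
    rw [Finset.sum_filter, ← Finset.univ_product_univ, Finset.sum_product]
    have h2 : (∑ h ∈ Zc δ n γa Γ s ς q, pw δ n h) * (∑ h ∈ Zc δ n γa Γ s ς q, pw δ n h) =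
        ∑ h : Fin (HH δ n + 1), ∑ h' : Fin (HH δ n + 1),
          (if h ∈ Zc δ n γa Γ s ς q ∧ h' ∈ Zc δ n γa Γ s ς q then pw δ n h * pw δ n h' else 0) := by
      rw [Finset.sum_mul_sum]
      have h3 : ∀ h : Fin (HH δ n + 1), ∑ h' : Fin (HH δ n + 1),
          (if h ∈ Zc δ n γa Γ s ς q ∧ h' ∈ Zc δ n γa Γ s ς q then pw δ n h * pw δ n h' else 0) =
          if h ∈ Zc δ n γa Γ s ς q then
            ∑ h' ∈ Zc δ n γa Γ s ς q, pw δ n h * pw δ n h' else 0 := by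
        intro h
        by_cases a : h ∈ Zc δ n γa Γ s ς q
        · simp only [a, true_and, if_true]
          rw [← Finset.sum_filter]
          congr 1
          ext x
          simp
        · simp [a]
      rw [Finset.sum_congr rfl fun h _ => h3 h, ← Finset.sum_filter]
      refine Finset.sum_congr ?_ fun _ _ => rfl
      ext x
      simp
    rw [h2, ← Finset.sum_add_distrib]
    refine Finset.sum_le_sum fun h _ => ?_
    rw [← Finset.sum_add_distrib]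
    refine Finset.sum_le_sum fun h' _ => ?_
    have hpp : 0 ≤ pw δ n h * pw δ n h' := mul_nonneg (hp h) (hp h')
    simp only
    by_cases a : ((h : ℕ) ≠ HH δ n ∧ (h' : ℕ) ≠ HH δ n ∧ 0 < q (cls n h) + q (cls n h'))
    · rw [if_pos (Or.inl a), if_pos a]
      split_ifs <;> linarith
    · by_cases b : h ∈ Zc δ n γa Γ s ς q ∧ h' ∈ Zc δ n γa Γ s ς q
      · rw [if_pos (Or.inr b), if_neg a, if_pos b]
        linarith
      · rw [if_neg (by tauto), if_neg a, if_neg b]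
        linarith
  rw [cnt_sum, Zc_sum] at h1
  have h2 := Ic_card_le (q := q) γa Γ s ς hδ hΓ
  have h3 : 0 ≤ δ * ((Ic δ γa Γ s ς q).card : ℝ) := by positivity
  have h4 := rr_sq n
  have h5 : rr n * (δ * ((Ic δ γa Γ s ς q).card : ℝ)) * (rr n * (δ * ((Ic δ γa Γ s ς q).card : ℝ)))
      = rr n ^ 2 * (δ * ((Ic δ γa Γ s ς q).card : ℝ)) ^ 2 := by ring
  rw [h5, h4] at h1
  have h6 : (δ * ((Ic δ γa Γ s ς q).card : ℝ)) ^ 2 ≤ Γ ^ 2 := pow_le_pow_left₀ h3 h2 2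
  have h7 : (0 : ℝ) ≤ 1 / n := by positivity
  calc ∑ y ∈ Bc δ n γa Γ s ς q, pw δ n y.1 * pw δ n y.2
      ≤ 1 / n * (δ ^ 2 * cnt (md δ) q 0) + 1 / n * (δ * ((Ic δ γa Γ s ς q).card : ℝ)) ^ 2 := h1
    _ ≤ 1 / n * L + 1 / n * Γ ^ 2 :=
        add_le_add (mul_le_mul_of_nonneg_left hL h7) (mul_le_mul_of_nonneg_left h6 h7)
    _ = _ := by ring

end Special

/-! ### Numbers -/

section Numbers

theorem one_sub_ge (x : ℝ) (h0 : 0 ≤ x) (h1 : x ≤ 1 / 2) : Real.exp (-(2 * x)) ≤ 1 - x := by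
  -- convexity: exp (-2x) ≤ 1 - 2x + 2x^2 ≤ 1 - x
  have h2 : 1 + 2 * x ≤ Real.exp (2 * x) := by
    have := Real.add_one_le_exp (2 * x)
    linarith
  have h3 : 0 < Real.exp (2 * x) := Real.exp_pos _
  rw [Real.exp_neg, inv_le_iff_one_le_mul₀ h3]
  nlinarith

theorem pow_ge (n : ℕ) (b L : ℝ) (hn : 0 < n) (hb0 : 0 ≤ b) (hb : b ≤ L / n)
    (hnL : 2 * L ≤ n) : Real.exp (-(2 * L)) ≤ (1 - b) ^ n := by
  have hn' : (0 : ℝ) < n := by exact_mod_cast hn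
  have hb1 : L / n ≤ 1 / 2 := by
    rw [div_le_div_iff₀ hn' (by norm_num)]
    linarith
  have h0 : 0 ≤ L / n := hb0.trans hb
  have h1 := one_sub_ge (L / n) h0 hb1
  have h2 : Real.exp (-(2 * (L / n))) ≤ 1 - b := h1.trans (by linarith)
  have h3 := pow_le_pow_left₀ (Real.exp_pos _).le h2 n
  rw [← Real.exp_nat_mul] at h3
  have h4 : (n : ℝ) * -(2 * (L / n)) = -(2 * L) := by field_simp
  rwa [h4] at h3

theorem core_num (n P : ℕ) (ζ z s θ b L A S CB Tv τ η X : ℝ) (hn : 0 < n) (hζ : 0 < ζ)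
    (hz : ζ * rr n ≤ z) (hs : 0 < s) (hθ : 0 < θ) (hL : 0 < L) (hA : 0 ≤ A)
    (hτ : 0 < τ) (hη : 0 < η)
    (hX : Real.exp (-(2 * L)) ≤ X) (hb : b ≤ L / n)
    (hcore : X * z ^ 2 * A ≤ S + CB * (z * Real.sqrt z) * ((P : ℝ) ^ 2 * Real.sqrt P)
      + s * z ^ 2 * (P : ℝ) ^ 3 + z ^ 2 * b * (P : ℝ) ^ 4 + 2 * z ^ 2 * P * Tv)
    (hS : S ≤ n ^ 2 * τ) (hTv : Tv ≤ n ^ 2 * η) (hP1 : θ * n / 2 ≤ P) (hP2 : (P : ℝ) ≤ θ * n)
    (hCP : (CB / s) ^ 2 ≤ z * P) :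
    A ≤ Real.exp (2 * L) * (8 * τ / (ζ ^ 2 * θ ^ 3) + 2 * s + L * θ + 8 * η / θ ^ 2) *
      (P : ℝ) ^ 3 := by
  have hn' : (0 : ℝ) < n := by exact_mod_cast hn
  have hr := rr_pos hn
  have hz0 : 0 < z := lt_of_lt_of_le (by positivity) hz
  have hP0 : (0 : ℝ) < P := lt_of_lt_of_le (by positivity) hP1
  -- the four terms
  have hz2 : ζ ^ 2 / n ≤ z ^ 2 := by
    have h1 : (ζ * rr n) ^ 2 ≤ z ^ 2 := pow_le_pow_left₀ (by positivity) hz 2
    rw [mul_pow, rr_sq] at h1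
    calc ζ ^ 2 / n = ζ ^ 2 * (1 / n) := by ring
      _ ≤ _ := h1
  have hn2 : (n : ℝ) ^ 2 ≤ 4 / θ ^ 2 * (P : ℝ) ^ 2 := by
    have h1 : (θ * n / 2) ^ 2 ≤ (P : ℝ) ^ 2 := pow_le_pow_left₀ (by positivity) hP1 2
    calc (n : ℝ) ^ 2 = 4 / θ ^ 2 * (θ * n / 2) ^ 2 := by field_simp; ring
      _ ≤ _ := mul_le_mul_of_nonneg_left h1 (by positivity)
  have hn3 : (n : ℝ) ^ 3 ≤ 8 / θ ^ 3 * (P : ℝ) ^ 3 := by
    have h1 : (θ * n / 2) ^ 3 ≤ (P : ℝ) ^ 3 := pow_le_pow_left₀ (by positivity) hP1 3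
    calc (n : ℝ) ^ 3 = 8 / θ ^ 3 * (θ * n / 2) ^ 3 := by field_simp; ring
      _ ≤ _ := mul_le_mul_of_nonneg_left h1 (by positivity)
  have t1 : S ≤ z ^ 2 * (8 * τ / (ζ ^ 2 * θ ^ 3) * (P : ℝ) ^ 3) := by
    calc S ≤ n ^ 2 * τ := hS
      _ = (ζ ^ 2 / n) * (τ / ζ ^ 2 * (n : ℝ) ^ 3) := by field_simp
      _ ≤ z ^ 2 * (τ / ζ ^ 2 * (8 / θ ^ 3 * (P : ℝ) ^ 3)) := by
          refine mul_le_mul hz2 (mul_le_mul_of_nonneg_left hn3 (by positivity)) (by positivity)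
            (by positivity)
      _ = _ := by field_simp
  have t2 : CB * (z * Real.sqrt z) * ((P : ℝ) ^ 2 * Real.sqrt P) ≤ z ^ 2 * (s * (P : ℝ) ^ 3) := by
    have h1 : CB / s ≤ Real.sqrt z * Real.sqrt P := by
      rw [← Real.sqrt_mul hz0.le]
      exact Real.le_sqrt_of_sq_le hCP
    have h2 : CB ≤ s * (Real.sqrt z * Real.sqrt P) := by
      rw [div_le_iff₀ hs] at h1
      linarith
    have h3 : Real.sqrt z * Real.sqrt z = z := Real.mul_self_sqrt hz0.le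
    have h4 : Real.sqrt (P : ℝ) * Real.sqrt (P : ℝ) = P := Real.mul_self_sqrt hP0.le
    calc CB * (z * Real.sqrt z) * ((P : ℝ) ^ 2 * Real.sqrt P)
        ≤ s * (Real.sqrt z * Real.sqrt P) * (z * Real.sqrt z) * ((P : ℝ) ^ 2 * Real.sqrt P) := by
          refine mul_le_mul_of_nonneg_right (mul_le_mul_of_nonneg_right h2 (by positivity))
            (by positivity)
      _ = s * z * (P : ℝ) ^ 2 * (Real.sqrt z * Real.sqrt z) * (Real.sqrt P * Real.sqrt P) := by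
          ring
      _ = s * z * (P : ℝ) ^ 2 * z * P := by rw [h3, h4]
      _ = _ := by ring
  have t4 : z ^ 2 * b * (P : ℝ) ^ 4 ≤ z ^ 2 * (L * θ * (P : ℝ) ^ 3) := by
    have h1 : b * P ≤ L * θ := by
      calc b * P ≤ L / n * (θ * n) := mul_le_mul hb hP2 hP0.le (by positivity)
        _ = _ := by field_simp
    calc z ^ 2 * b * (P : ℝ) ^ 4 = z ^ 2 * ((b * P) * (P : ℝ) ^ 3) := by ring
      _ ≤ _ := mul_le_mul_of_nonneg_left (mul_le_mul_of_nonneg_right h1 (by positivity))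
            (by positivity)
  have t5 : 2 * z ^ 2 * P * Tv ≤ z ^ 2 * (8 * η / θ ^ 2 * (P : ℝ) ^ 3) := by
    have h1 : Tv ≤ 4 / θ ^ 2 * (P : ℝ) ^ 2 * η := hTv.trans
      (mul_le_mul_of_nonneg_right hn2 hη.le)
    calc 2 * z ^ 2 * P * Tv ≤ 2 * z ^ 2 * P * (4 / θ ^ 2 * (P : ℝ) ^ 2 * η) :=
          mul_le_mul_of_nonneg_left h1 (by positivity)
      _ = _ := by ring
  have hsum : X * z ^ 2 * A ≤ z ^ 2 * ((8 * τ / (ζ ^ 2 * θ ^ 3) + 2 * s + L * θ + 8 * η / θ ^ 2) *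
      (P : ℝ) ^ 3) := by
    calc X * z ^ 2 * A ≤ _ := hcore
      _ ≤ z ^ 2 * (8 * τ / (ζ ^ 2 * θ ^ 3) * (P : ℝ) ^ 3) + z ^ 2 * (s * (P : ℝ) ^ 3)
          + s * z ^ 2 * (P : ℝ) ^ 3 + z ^ 2 * (L * θ * (P : ℝ) ^ 3)
          + z ^ 2 * (8 * η / θ ^ 2 * (P : ℝ) ^ 3) := by linarith
      _ = _ := by ring
  have hsum2 : z ^ 2 * (Real.exp (-(2 * L)) * A) ≤ z ^ 2 * ((8 * τ / (ζ ^ 2 * θ ^ 3) + 2 * s
      + L * θ + 8 * η / θ ^ 2) * (P : ℝ) ^ 3) := by
    refine le_trans ?_ hsum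
    have : X * z ^ 2 * A = z ^ 2 * (X * A) := by ring
    rw [this]
    exact mul_le_mul_of_nonneg_left (mul_le_mul_of_nonneg_right hX hA) (by positivity)
  have hsum3 := le_of_mul_le_mul_left hsum2 (by positivity)
  have hE : Real.exp (2 * L) * Real.exp (-(2 * L)) = 1 := by
    rw [← Real.exp_add]; simp
  calc A = Real.exp (2 * L) * (Real.exp (-(2 * L)) * A) := by rw [← mul_assoc, hE, one_mul]
    _ ≤ Real.exp (2 * L) * ((8 * τ / (ζ ^ 2 * θ ^ 3) + 2 * s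
      + L * θ + 8 * η / θ ^ 2) * (P : ℝ) ^ 3) :=
        mul_le_mul_of_nonneg_left hsum3 (Real.exp_pos _).le
    _ = _ := by ring

theorem min_abs_le (x s : ℝ) (hs : 0 ≤ s) : min 1 |x| ≤ min 1 (max 0 (1 * x - 2 * s)) +
    min 1 (max 0 (-1 * x - 2 * s)) + 2 * s := by
  have h1 : 0 ≤ min 1 (max 0 (1 * x - 2 * s)) := le_min zero_le_one (le_max_left _ _)
  have h2 : 0 ≤ min 1 (max 0 (-1 * x - 2 * s)) := le_min zero_le_one (le_max_left _ _)
  rcases le_total 0 x with hx | hx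
  · rw [abs_of_nonneg hx]
    have h3 : min 1 x ≤ min 1 (max 0 (1 * x - 2 * s)) + 2 * s := by
      rw [← sub_le_iff_le_add]
      refine le_min ?_ ?_
      · have := min_le_left (1 : ℝ) x
        linarith
      · have := min_le_right (1 : ℝ) x
        exact le_trans (by linarith) (le_max_right _ _)
    linarith
  · rw [abs_of_nonpos hx]
    have h3 : min 1 (-x) ≤ min 1 (max 0 (-1 * x - 2 * s)) + 2 * s := by
      rw [← sub_le_iff_le_add]
      refine le_min ?_ ?_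
      · have := min_le_left (1 : ℝ) (-x)
        linarith
      · have := min_le_right (1 : ℝ) (-x)
        exact le_trans (by linarith) (le_max_right _ _)
    linarith

end Numbers

/-! ### Sums over vertices -/

section Sums

variable {n : ℕ}

theorem card_lt (j : Fin n) : (Finset.univ.filter (fun i : Fin n => i < j)).card = (j : ℕ) := by
  have : Finset.univ.filter (fun i : Fin n => i < j) = Finset.Iio j := by
    ext i; simp
  rw [this, Fin.card_Iio]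

theorem card_ltP (P : ℕ) : (Finset.univ.filter (fun i : Fin n => (i : ℕ) < P)).card ≤ P := by
  have h := Finset.card_le_card_of_injOn (s := Finset.univ.filter (fun i : Fin n => (i : ℕ) < P))
    (t := Finset.range P) (fun i : Fin n => (i : ℕ)) (fun i hi => by
      have := (Finset.mem_filter.1 hi).2
      exact Finset.mem_range.2 this) (fun i _ j _ hij => Fin.ext hij)
  rwa [Finset.card_range] at h

theorem edge_sum (P : ℕ) (f : Edge n → ℝ) :
    ∑ e ∈ Finset.univ.filter (fun e : Edge n => (e.b : ℕ) < P), f e =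
    ∑ k ∈ Finset.univ.filter (fun k : Fin n => (k : ℕ) < P),
      ∑ i ∈ Finset.univ.filter (fun i => i < k), ext 0 f i k := by
  rw [Finset.sum_sigma']
  refine Finset.sum_bij' (fun e _ => (⟨e.b, e.a⟩ : (_ : Fin n) × Fin n))
    (fun x hx => ⟨x.2, x.1, (Finset.mem_filter.1 (Finset.mem_sigma.1 hx).2).2⟩) ?_ ?_ ?_ ?_ ?_
  · intro e he
    have := (Finset.mem_filter.1 he).2
    simp only [Finset.mem_sigma, Finset.mem_filter, Finset.mem_univ, true_and]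
    exact ⟨this, e.lt⟩
  · intro x hx
    have := (Finset.mem_filter.1 (Finset.mem_sigma.1 hx).1).2
    simp only [Finset.mem_filter, Finset.mem_univ, true_and]
    exact this
  · intro e _
    rfl
  · intro x _
    rfl
  · intro e _
    exact (ext_edge 0 f e).symm

theorem card_edge_le : (Fintype.card (Edge n) : ℝ) ≤ n ^ 2 := by
  have h : Fintype.card (Edge n) ≤ Fintype.card (Fin n × Fin n) :=
    Fintype.card_le_of_injective (fun e : Edge n => (e.a, e.b)) (by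
      intro e f hef
      simp only [Prod.mk.injEq] at hef
      exact Edge.ext hef.1 hef.2)
  rw [Fintype.card_prod, Fintype.card_fin] at h
  calc (Fintype.card (Edge n) : ℝ) ≤ ((n * n : ℕ) : ℝ) := by exact_mod_cast h
    _ = _ := by push_cast; ring

/-- triple sums -/
noncomputable def TS (n P : ℕ) (f : Fin n → Fin n → Fin n → ℝ) : ℝ :=
  ∑ k ∈ Finset.univ.filter (fun k : Fin n => (k : ℕ) < P),
    ∑ j ∈ Finset.univ.filter (fun j => j < k), ∑ i ∈ Finset.univ.filter (fun i => i < j), f i j k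

theorem TS_mono (P : ℕ) (f g : Fin n → Fin n → Fin n → ℝ) (h : ∀ i j k, f i j k ≤ g i j k) :
    TS n P f ≤ TS n P g :=
  Finset.sum_le_sum fun k _ => Finset.sum_le_sum fun j _ => Finset.sum_le_sum fun i _ => h i j k

theorem TS_nonneg (P : ℕ) (f : Fin n → Fin n → Fin n → ℝ) (h : ∀ i j k, 0 ≤ f i j k) :
    0 ≤ TS n P f :=
  Finset.sum_nonneg fun k _ => Finset.sum_nonneg fun j _ => Finset.sum_nonneg fun i _ => h i j k

theorem TS_add (P : ℕ) (f g : Fin n → Fin n → Fin n → ℝ) :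
    TS n P (fun i j k => f i j k + g i j k) = TS n P f + TS n P g := by
  unfold TS
  simp only [Finset.sum_add_distrib]

theorem TS_const (P : ℕ) (r : ℝ) (hr : 0 ≤ r) : TS n P (fun _ _ _ => r) ≤ r * (P : ℝ) ^ 3 := by
  unfold TS
  have h1 : ∀ k ∈ Finset.univ.filter (fun k : Fin n => (k : ℕ) < P),
      ∑ j ∈ Finset.univ.filter (fun j => j < k),
        ∑ i ∈ Finset.univ.filter (fun i => i < j), r ≤ r * (P : ℝ) ^ 2 := by
    intro k hk
    have hk' : (k : ℕ) < P := (Finset.mem_filter.1 hk).2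
    have hkP : ((k : ℕ) : ℝ) ≤ P := by exact_mod_cast hk'.le
    have h2 : ∀ j ∈ Finset.univ.filter (fun j => j < k),
        ∑ i ∈ Finset.univ.filter (fun i => i < j), r ≤ r * (P : ℝ) := by
      intro j hj
      have hj' : j < k := (Finset.mem_filter.1 hj).2
      have hjP : ((j : ℕ) : ℝ) ≤ P := by
        have : (j : ℕ) < k := hj'
        exact_mod_cast (by omega : (j : ℕ) ≤ P)
      rw [Finset.sum_const, card_lt, nsmul_eq_mul]
      nlinarith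
    refine (Finset.sum_le_sum h2).trans ?_
    rw [Finset.sum_const, card_lt, nsmul_eq_mul]
    have : 0 ≤ r * (P : ℝ) := by positivity
    nlinarith
  refine (Finset.sum_le_sum h1).trans ?_
  rw [Finset.sum_const, nsmul_eq_mul]
  have h3 : ((Finset.univ.filter (fun k : Fin n => (k : ℕ) < P)).card : ℝ) ≤ P := by
    exact_mod_cast card_ltP P
  have : 0 ≤ r * (P : ℝ) ^ 2 := by positivity
  nlinarith

end Sums

/-! ### Main part -/

section Main

variable {δ : ℝ} {n : ℕ}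

theorem AE_sum_le (hn : 2 ≤ n) (F : Edge n → (Edge n → Fin (HH δ n + 1)) → ℝ) (x : ℝ)
    (hx : 0 ≤ x) (h : AE δ n F ≤ x) : ∑ e, EE (pw δ n) (F e) ≤ n ^ 2 * x := by
  have hc := card_edge_pos hn
  unfold AE AV at h
  rw [div_le_iff₀ hc] at h
  refine h.trans ?_
  rw [mul_comm]
  exact mul_le_mul_of_nonneg_right card_edge_le hx

/-- the deviations at the zero -/
noncomputable def sg (T : TT δ n) (i0 : ℕ) (e : Edge n) (c : Edge n → Fin (HH δ n + 1)) : ℝ :=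
  pos T e c i0 - qv T i0

theorem one_sign (hCore : StCore) (hGL : StGapLow) (hGN : StGapNN) (T : TT δ n)
    (C0 c1 γa Γ L s θ τ η ς : ℝ) (i0 P : ℕ)
    (hC0 : 1 ≤ C0) (hc1 : 0 < c1) (hγc : γa ≤ c1) (hΓ : 2 * C0 + 5 ≤ Γ)
    (hL1 : 1 ≤ L) (hL : δ ^ 2 * cnt (md δ) (qv T) 0 ≤ L) (hς : ς = 1 ∨ ς = -1)
    (hs : 0 < s) (hs1 : s ≤ 1) (hsc : s ≤ c1 / 2) (hθ : 0 < θ) (hτ : 0 < τ) (hη : 0 < η)
    (hδ : 0 < δ) (hδ2 : δ ≤ c1 / 2) (hδ4 : δ ≤ 1 / (2 * C0 + 3))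
    (hδ3 : δ * (C0 * (1 + 2 / c1) ^ 2) ≤ s / 2)
    (hn3 : 3 ≤ n) (hm : (md δ + 1) * δ * rr n < 1) (hnL : 2 * (L + Γ ^ 2) ≤ n)
    (hPn : P ≤ n) (hP1 : θ * n / 2 ≤ P) (hP2 : (P : ℝ) ≤ θ * n)
    (hCP : ((2 * (4 * Kd δ) / s + 2 + 4 * Kd δ) / s) ^ 2 ≤
      s / (2 * (C0 * (1 + 2 / c1) ^ 2)) * rr n * P)
    (hq : Good C0 c1 δ (qv T)) (hi0 : i0 ≤ md δ)
    (hz : qv T i0 ≤ 0) (hp : ∀ i < i0, 0 < qv T i) (hlev : c1 < ((i0 : ℝ) + 1) * δ)
    (hlev2 : ((i0 : ℝ) + 1) * δ ≤ 2 * C0 + 3)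
    (htv : AE δ n (tv T γa Γ) ≤ η) (hsl : slackB T ≤ τ) :
    TS n P (fun i j k => EE (pw δ n) (fun c => min 1 (max 0 (ς *
      (ext 0 (fun e => sg T i0 e c) i k + ext 0 (fun e => sg T i0 e c) j k) - 2 * s)))) ≤
    Real.exp (2 * (L + Γ ^ 2)) * (8 * τ / ((s / (2 * (C0 * (1 + 2 / c1) ^ 2))) ^ 2 * θ ^ 3)
      + 2 * s + (L + Γ ^ 2) * θ + 8 * η / θ ^ 2) * (P : ℝ) ^ 3 := by
  classical
  have hr := rr_pos (n := n) (by omega)
  have hpn : ∀ h, 0 ≤ pw δ n h := pw_nonneg hδ hm.le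
  have hp1 : ∑ h, pw δ n h = 1 := pw_sum
  have hΓ0 : 0 ≤ Γ := by linarith
  have hK : ∀ i ≤ md δ, |qv T i| ≤ Kd δ := hq.1.2.1
  have hKd := Kd_nonneg hδ
  set Z := Zc δ n γa Γ s ς (qv T) with hZ
  set bad := Bc δ n γa Γ s ς (qv T) with hbad
  have hZZ : Z ×ˢ Z ⊆ bad := by
    intro y hy
    rw [Finset.mem_product] at hy
    rw [hbad]
    unfold Bc
    rw [Finset.mem_filter]
    exact ⟨Finset.mem_univ _, Or.inr hy⟩
  have hZc : ∀ h ∈ Z, (h : ℕ) ≠ HH δ n ∧ γa ≤ ((cls n h : ℝ) + 1) * δ ∧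
      ((cls n h : ℝ) + 1) * δ ≤ Γ ∧ |qv T (cls n h)| ≤ s ∧ (ς = 1 → qv T (cls n h) ≤ 0) ∧
      (ς = -1 → 0 < qv T (cls n h)) := by
    intro h hh
    rw [hZ] at hh
    unfold Zc at hh
    rw [Finset.mem_filter] at hh
    obtain ⟨-, h1, h2, h3, h4, h5, h6⟩ := hh
    exact ⟨h1, h2, h3, h4, h5, h6⟩
  have hbadc : ∀ h h' : Fin (HH δ n + 1), (h : ℕ) ≠ HH δ n → (h' : ℕ) ≠ HH δ n →
      0 < qv T (cls n h) + qv T (cls n h') → (h, h') ∈ bad := by
    intro h h' h1 h2 h3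
    rw [hbad]
    unfold Bc
    rw [Finset.mem_filter]
    exact ⟨Finset.mem_univ _, Or.inl ⟨h1, h2, h3⟩⟩
  have hcore := hCore n P (Fin (HH δ n + 1)) (pw δ n) (Fin.last (HH δ n)) Z bad
    (fun e c => sg T i0 e c) (fun e c => tv T γa Γ e c)
    (fun e c => gap (fun f => ref (Kd δ) n (qv T) (c f))
      (val (Kd δ) n (ps T.Q (rr n) n) c) e) (4 * Kd δ) s ς hpn hp1 hPn hς hs
    (by linarith) hZZ
    (fun e c c' h => by
      show sg T i0 e c = sg T i0 e c'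
      unfold sg
      rw [pos_pred T e c c' h])
    (fun e c => by
      show |sg T i0 e c| ≤ 4 * Kd δ
      unfold sg
      have h1 := abs_le.1 (abs_pos_le hδ T e c i0)
      have h2 := abs_le.1 (hK i0 hi0)
      rw [abs_le]
      constructor <;> linarith [h1.1, h1.2, h2.1, h2.2])
    (fun e c c' h => tv_pred T γa Γ e c c' h)
    (fun e c => ⟨tv_nonneg T γa Γ e c, tv_le hδ T γa Γ hq.1.1 hK e c⟩)
    (fun e c => hGN _ _ _ _)
    (fun i j k hij hjk c => hGL δ n T γa Γ s ς i0 Z bad hδ hn3 hς hs hK hi0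
      (hγc.trans hlev.le) (hlev2.trans (by linarith)) hZc hZZ hbadc i j k hij hjk c)
  have hbsum : ∑ y ∈ bad, pw δ n y.1 * pw δ n y.2 ≤ (L + Γ ^ 2) / n :=
    Bc_sum_le hpn γa Γ s ς (qv T) hδ hΓ0 L hL
  have hb0 : 0 ≤ ∑ y ∈ bad, pw δ n y.1 * pw δ n y.2 :=
    Finset.sum_nonneg fun y _ => mul_nonneg (hpn _) (hpn _)
  have hX := pow_ge n _ (L + Γ ^ 2) (by omega) hb0 hbsum hnL
  have hzge : s / (2 * (C0 * (1 + 2 / c1) ^ 2)) * rr n ≤ ∑ h ∈ Z, pw δ n h := by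
    rw [hZ, Zc_sum, mul_comm]
    exact mul_le_mul_of_nonneg_left (Ic_card_ge C0 c1 γa Γ s ς hC0 hc1 hγc hΓ hs hς hδ hδ2 hδ4
      hδ3 hq hsc hs1 i0 hi0 hz hp hlev hlev2) hr.le
  have hS := AE_sum_le (δ := δ) (n := n) (by omega) (fun e c =>
    gap (fun f => ref (Kd δ) n (qv T) (c f)) (val (Kd δ) n (ps T.Q (rr n) n) c) e) τ hτ.le hsl
  have hTv : ∑ e ∈ Finset.univ.filter (fun e : Edge n => (e.b : ℕ) < P),
      EE (pw δ n) (fun c => tv T γa Γ e c) ≤ n ^ 2 * η := by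
    refine le_trans ?_ (AE_sum_le (δ := δ) (n := n) (by omega) (tv T γa Γ) η hη.le htv)
    exact Finset.sum_le_sum_of_subset_of_nonneg (Finset.filter_subset _ _)
      fun e _ _ => EE_nonneg hpn fun c => tv_nonneg T γa Γ e c
  refine core_num n P (s / (2 * (C0 * (1 + 2 / c1) ^ 2))) (∑ h ∈ Z, pw δ n h) s θ
    (∑ y ∈ bad, pw δ n y.1 * pw δ n y.2) (L + Γ ^ 2) _ _ (2 * (4 * Kd δ) / s + 2 + 4 * Kd δ) _
    τ η ((1 - ∑ y ∈ bad, pw δ n y.1 * pw δ n y.2) ^ n) (by omega) (by positivity) hzge hs hθ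
    (by positivity) ?_ hτ hη hX hbsum hcore hS hTv hP1 hP2 ?_
  · exact TS_nonneg _ _ fun i j k => EE_nonneg hpn fun c =>
      le_min zero_le_one (le_max_left _ _)
  · exact hCP.trans (mul_le_mul_of_nonneg_right hzge (Nat.cast_nonneg _))

theorem per_T (hCore : StCore) (hGL : StGapLow) (hGN : StGapNN) (hTr : StTriple) (T : TT δ n)
    (C0 c1 γa Γ L s θ τ η κ ε3 : ℝ) (P : ℕ)
    (hC0 : 1 ≤ C0) (hc1 : 0 < c1) (hγc : γa ≤ c1) (hΓ : 2 * C0 + 5 ≤ Γ)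
    (hL1 : 1 ≤ L) (hL : δ ^ 2 * cnt (md δ) (qv T) 0 ≤ L)
    (hs : 0 < s) (hs1 : s ≤ 1) (hsc : s ≤ c1 / 2) (hθ : 0 < θ) (hτ : 0 < τ) (hη : 0 < η)
    (hδ : 0 < δ) (hδ1 : δ ≤ 1) (hδ2 : δ ≤ c1 / 2) (hδ4 : δ ≤ 1 / (2 * C0 + 3))
    (hδ3 : δ * (C0 * (1 + 2 / c1) ^ 2) ≤ s / 2)
    (hn3 : 3 ≤ n) (hm : (md δ + 1) * δ * rr n < 1) (hnL : 2 * (L + Γ ^ 2) ≤ n)
    (hPn : P ≤ n) (hP1 : θ * n / 2 ≤ P) (hP2 : (P : ℝ) ≤ θ * n)
    (hCP : ((2 * (4 * Kd δ) / s + 2 + 4 * Kd δ) / s) ^ 2 ≤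
      s / (2 * (C0 * (1 + 2 / c1) ^ 2)) * rr n * P)
    (hq : Good C0 c1 δ (qv T)) (hκ : 0 < κ) (hκP : 3 ≤ κ * P) (hε3 : 0 < ε3)
    (hnum : 2 * (Real.exp (2 * (L + Γ ^ 2)) *
      (8 * τ / ((s / (2 * (C0 * (1 + 2 / c1) ^ 2))) ^ 2 * θ ^ 3)
      + 2 * s + (L + Γ ^ 2) * θ + 8 * η / θ ^ 2)) + 2 * s ≤ ε3)
    (htv : AE δ n (tv T γa Γ) ≤ η) (hsl : slackB T ≤ τ) :
    ∑ e ∈ Finset.univ.filter (fun e : Edge n => (e.b : ℕ) < P),
      EE (pw δ n) (fun c => min 1 (dev T γa Γ e c)) ≤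
      (2 * κ ^ 2 + 12 * ε3 / κ + 4 * η / θ ^ 2) * (P : ℝ) ^ 2 := by
  classical
  obtain ⟨i0, hi0, hz, hp, hlev, hlev2⟩ := zero_index C0 c1 hC0 hc1 hδ hδ1 hδ4 hq
  have hpn : ∀ h, 0 ≤ pw δ n h := pw_nonneg hδ hm.le
  have hp1 : ∑ h, pw δ n h = 1 := pw_sum
  have hn' : (0 : ℝ) < n := by
    have : 0 < n := by omega
    exact_mod_cast this
  have hP0 : (0 : ℝ) < P := lt_of_lt_of_le (by positivity) hP1
  have hA1 := one_sign hCore hGL hGN T C0 c1 γa Γ L s θ τ η 1 i0 P hC0 hc1 hγc hΓ hL1 hL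
    (Or.inl rfl) hs hs1 hsc hθ hτ hη hδ hδ2 hδ4 hδ3 hn3 hm hnL hPn hP1 hP2 hCP hq hi0 hz hp hlev
    hlev2 htv hsl
  have hA2 := one_sign hCore hGL hGN T C0 c1 γa Γ L s θ τ η (-1) i0 P hC0 hc1 hγc hΓ hL1 hL
    (Or.inr rfl) hs hs1 hsc hθ hτ hη hδ hδ2 hδ4 hδ3 hn3 hm hnL hPn hP1 hP2 hCP hq hi0 hz hp hlev
    hlev2 htv hsl
  -- the triple sum
  have hS3 : TS n P (fun i j k => EE (pw δ n) (fun c => min 1 |ext 0 (fun e => sg T i0 e c) i k
      + ext 0 (fun e => sg T i0 e c) j k|)) ≤ ε3 * (P : ℝ) ^ 3 := by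
    have h1 : TS n P (fun i j k => EE (pw δ n) (fun c => min 1 |ext 0 (fun e => sg T i0 e c) i k
      + ext 0 (fun e => sg T i0 e c) j k|)) ≤ TS n P (fun i j k =>
        (EE (pw δ n) (fun c => min 1 (max 0 (1 *
      (ext 0 (fun e => sg T i0 e c) i k + ext 0 (fun e => sg T i0 e c) j k) - 2 * s)))
        + EE (pw δ n) (fun c => min 1 (max 0 (-1 *
      (ext 0 (fun e => sg T i0 e c) i k + ext 0 (fun e => sg T i0 e c) j k) - 2 * s))))
        + 2 * s) := by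
      refine TS_mono _ _ _ fun i j k => ?_
      rw [← EE_add]
      refine (EE_mono hpn fun c => min_abs_le _ s hs.le).trans ?_
      rw [EE_add, EE_const hp1]
    rw [TS_add, TS_add] at h1
    have h3 := TS_const (n := n) P (2 * s) (by positivity)
    have h4 : (0 : ℝ) ≤ (P : ℝ) ^ 3 := by positivity
    have h5 := mul_le_mul_of_nonneg_right hnum h4
    linarith
  -- one vertex
  have hone : ∀ k ∈ Finset.univ.filter (fun k : Fin n => (k : ℕ) < P),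
      ∑ i ∈ Finset.univ.filter (fun i => i < k),
        EE (pw δ n) (fun c => min 1 |ext 0 (fun e => sg T i0 e c) i k|) ≤
      (if ((k : ℕ) : ℝ) < κ * P then κ * P else 0) + 12 / (κ * P) *
        ∑ j ∈ Finset.univ.filter (fun j => j < k), ∑ i ∈ Finset.univ.filter (fun i => i < j),
          EE (pw δ n) (fun c => min 1 |ext 0 (fun e => sg T i0 e c) i k
            + ext 0 (fun e => sg T i0 e c) j k|) := by
    intro k hk
    have hX0 : 0 ≤ ∑ j ∈ Finset.univ.filter (fun j => j < k),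
        ∑ i ∈ Finset.univ.filter (fun i => i < j),
          EE (pw δ n) (fun c => min 1 |ext 0 (fun e => sg T i0 e c) i k
            + ext 0 (fun e => sg T i0 e c) j k|) :=
      Finset.sum_nonneg fun j _ => Finset.sum_nonneg fun i _ => EE_nonneg hpn fun c =>
        le_min zero_le_one (abs_nonneg _)
    split_ifs with hc
    · have h1 : ∑ i ∈ Finset.univ.filter (fun i => i < k),
          EE (pw δ n) (fun c => min 1 |ext 0 (fun e => sg T i0 e c) i k|) ≤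
          ∑ i ∈ Finset.univ.filter (fun i => i < k), (1 : ℝ) := by
        refine Finset.sum_le_sum fun i _ => ?_
        calc EE (pw δ n) (fun c => min 1 |ext 0 (fun e => sg T i0 e c) i k|)
            ≤ EE (pw δ n) (fun _ : Edge n → Fin (HH δ n + 1) => (1 : ℝ)) :=
              EE_mono hpn fun c => min_le_left _ _
          _ = 1 := EE_one hp1
      rw [Finset.sum_const, card_lt, nsmul_eq_mul, mul_one] at h1
      have h2 : 0 ≤ 12 / (κ * P) := by positivity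
      have h3 := mul_nonneg h2 hX0
      linarith
    · have hk3 : κ * P ≤ ((k : ℕ) : ℝ) := not_lt.1 hc
      have hk3' : 3 ≤ (k : ℕ) := by
        have : (3 : ℝ) ≤ ((k : ℕ) : ℝ) := hκP.trans hk3
        exact_mod_cast this
      have h6 : 6 / (((k : ℕ) : ℝ) - 1) ≤ 12 / (κ * P) := by
        rw [div_le_div_iff₀ (by linarith) (by positivity)]
        linarith
      rw [zero_add]
      calc ∑ i ∈ Finset.univ.filter (fun i => i < k),
          EE (pw δ n) (fun c => min 1 |ext 0 (fun e => sg T i0 e c) i k|)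
          = EE (pw δ n) (fun c => ∑ i ∈ Finset.univ.filter (fun i => i < k),
              min 1 |ext 0 (fun e => sg T i0 e c) i k|) := (EE_sum _ _ _).symm
        _ ≤ EE (pw δ n) (fun c => 6 / (((k : ℕ) : ℝ) - 1) *
            ∑ j ∈ Finset.univ.filter (fun j => j < k), ∑ i ∈ Finset.univ.filter (fun i => i < j),
              min 1 |ext 0 (fun e => sg T i0 e c) i k + ext 0 (fun e => sg T i0 e c) j k|) :=
            EE_mono hpn fun c => hTr n (fun i => ext 0 (fun e => sg T i0 e c) i k) k hk3'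
        _ = 6 / (((k : ℕ) : ℝ) - 1) * ∑ j ∈ Finset.univ.filter (fun j => j < k),
              ∑ i ∈ Finset.univ.filter (fun i => i < j), EE (pw δ n) (fun c =>
                min 1 |ext 0 (fun e => sg T i0 e c) i k + ext 0 (fun e => sg T i0 e c) j k|) := by
            rw [EE_mul_left, EE_sum]
            congr 1
            refine Finset.sum_congr rfl fun j _ => ?_
            rw [EE_sum]
        _ ≤ _ := mul_le_mul_of_nonneg_right h6 hX0
  have hsum1 := Finset.sum_le_sum hone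
  rw [Finset.sum_add_distrib, ← Finset.mul_sum] at hsum1
  have hS3' : ∑ k ∈ Finset.univ.filter (fun k : Fin n => (k : ℕ) < P),
      ∑ j ∈ Finset.univ.filter (fun j => j < k), ∑ i ∈ Finset.univ.filter (fun i => i < j),
        EE (pw δ n) (fun c => min 1 |ext 0 (fun e => sg T i0 e c) i k
          + ext 0 (fun e => sg T i0 e c) j k|) ≤ ε3 * (P : ℝ) ^ 3 := hS3
  have hcount : ∑ k ∈ Finset.univ.filter (fun k : Fin n => (k : ℕ) < P),
      (if ((k : ℕ) : ℝ) < κ * P then κ * (P : ℝ) else 0) ≤ 2 * κ ^ 2 * (P : ℝ) ^ 2 := by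
    rw [← Finset.sum_filter, Finset.sum_const, nsmul_eq_mul]
    have h1 : (((Finset.univ.filter (fun k : Fin n => (k : ℕ) < P)).filter
        (fun k : Fin n => ((k : ℕ) : ℝ) < κ * P)).card : ℝ) ≤ κ * P + 1 := by
      have h2 : (Finset.univ.filter (fun k : Fin n => (k : ℕ) < P)).filter
          (fun k : Fin n => ((k : ℕ) : ℝ) < κ * P) ⊆
          Finset.univ.filter (fun k : Fin n => (k : ℕ) < ⌈κ * P⌉₊) := by
        intro k hk
        rw [Finset.mem_filter] at hk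
        rw [Finset.mem_filter]
        exact ⟨Finset.mem_univ _, Nat.lt_ceil.2 hk.2⟩
      have h3 := (Finset.card_le_card h2).trans (card_ltP _)
      have h4 : (⌈κ * P⌉₊ : ℝ) < κ * P + 1 := Nat.ceil_lt_add_one (by positivity)
      have h5 : (((Finset.univ.filter (fun k : Fin n => (k : ℕ) < P)).filter
        (fun k : Fin n => ((k : ℕ) : ℝ) < κ * P)).card : ℝ) ≤ (⌈κ * P⌉₊ : ℝ) := by
        exact_mod_cast h3
      linarith
    have h2 : 0 ≤ κ * (P : ℝ) := by positivity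
    calc _ ≤ (κ * P + 1) * (κ * (P : ℝ)) := mul_le_mul_of_nonneg_right h1 h2
      _ ≤ (2 * (κ * P)) * (κ * (P : ℝ)) := mul_le_mul_of_nonneg_right (by linarith) h2
      _ = _ := by ring
  -- the sum of the deviations at the zero
  have hσ : ∑ e ∈ Finset.univ.filter (fun e : Edge n => (e.b : ℕ) < P),
      EE (pw δ n) (fun c => min 1 |sg T i0 e c|) ≤
      (2 * κ ^ 2 + 12 * ε3 / κ) * (P : ℝ) ^ 2 := by
    rw [edge_sum P (fun e => EE (pw δ n) (fun c => min 1 |sg T i0 e c|))]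
    have h1 : ∀ k ∈ Finset.univ.filter (fun k : Fin n => (k : ℕ) < P),
        ∑ i ∈ Finset.univ.filter (fun i => i < k),
          ext 0 (fun e => EE (pw δ n) (fun c => min 1 |sg T i0 e c|)) i k =
        ∑ i ∈ Finset.univ.filter (fun i => i < k),
          EE (pw δ n) (fun c => min 1 |ext 0 (fun e => sg T i0 e c) i k|) := by
      intro k _
      refine Finset.sum_congr rfl fun i hi => ?_
      have hik : i < k := (Finset.mem_filter.1 hi).2
      rw [ext_of_lt _ _ hik]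
      refine EE_congr fun c => ?_
      rw [ext_of_lt _ _ hik]
    rw [Finset.sum_congr rfl h1]
    have h2 : 0 ≤ 12 / (κ * P) := by positivity
    have h3 := mul_le_mul_of_nonneg_left hS3' h2
    have h4 : 12 / (κ * P) * (ε3 * (P : ℝ) ^ 3) = 12 * ε3 / κ * (P : ℝ) ^ 2 := by
      field_simp
    rw [h4] at h3
    calc _ ≤ _ := hsum1
      _ ≤ 2 * κ ^ 2 * (P : ℝ) ^ 2 + 12 * ε3 / κ * (P : ℝ) ^ 2 := add_le_add hcount h3
      _ = _ := by ring
  have hTv : ∑ e ∈ Finset.univ.filter (fun e : Edge n => (e.b : ℕ) < P),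
      EE (pw δ n) (fun c => tv T γa Γ e c) ≤ 4 * η / θ ^ 2 * (P : ℝ) ^ 2 := by
    have h1 : ∑ e ∈ Finset.univ.filter (fun e : Edge n => (e.b : ℕ) < P),
        EE (pw δ n) (fun c => tv T γa Γ e c) ≤ n ^ 2 * η := by
      refine le_trans ?_ (AE_sum_le (δ := δ) (n := n) (by omega) (tv T γa Γ) η hη.le htv)
      exact Finset.sum_le_sum_of_subset_of_nonneg (Finset.filter_subset _ _)
        fun e _ _ => EE_nonneg hpn fun c => tv_nonneg T γa Γ e c
    have hn2 : (n : ℝ) ^ 2 ≤ 4 / θ ^ 2 * (P : ℝ) ^ 2 := by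
      have h1 : (θ * n / 2) ^ 2 ≤ (P : ℝ) ^ 2 := pow_le_pow_left₀ (by positivity) hP1 2
      calc (n : ℝ) ^ 2 = 4 / θ ^ 2 * (θ * n / 2) ^ 2 := by field_simp; ring
        _ ≤ _ := mul_le_mul_of_nonneg_left h1 (by positivity)
    calc _ ≤ _ := h1
      _ ≤ 4 / θ ^ 2 * (P : ℝ) ^ 2 * η := mul_le_mul_of_nonneg_right hn2 hη.le
      _ = _ := by ring
  have hfin : ∑ e ∈ Finset.univ.filter (fun e : Edge n => (e.b : ℕ) < P),
      EE (pw δ n) (fun c => min 1 (dev T γa Γ e c)) ≤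
      ∑ e ∈ Finset.univ.filter (fun e : Edge n => (e.b : ℕ) < P),
        (EE (pw δ n) (fun c => min 1 |sg T i0 e c|) + EE (pw δ n) (fun c => tv T γa Γ e c)) := by
    refine Finset.sum_le_sum fun e _ => ?_
    rw [← EE_add]
    refine EE_mono hpn fun c => ?_
    have h1 := dev_le hδ T γa Γ e c i0 hi0 (hγc.trans hlev.le) (hlev2.trans (by linarith))
    have h2 := tv_nonneg T γa Γ e c
    have h3 : min 1 (dev T γa Γ e c) ≤ min 1 (|sg T i0 e c| + tv T γa Γ e c) :=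
      min_le_min le_rfl h1
    refine h3.trans ?_
    rw [← sub_le_iff_le_add]
    refine le_min ?_ ?_
    · have := min_le_left 1 (|sg T i0 e c| + tv T γa Γ e c)
      linarith
    · have := min_le_right 1 (|sg T i0 e c| + tv T γa Γ e c)
      linarith
  rw [Finset.sum_add_distrib] at hfin
  calc _ ≤ _ := hfin
    _ ≤ (2 * κ ^ 2 + 12 * ε3 / κ) * (P : ℝ) ^ 2 + 4 * η / θ ^ 2 * (P : ℝ) ^ 2 :=
      add_le_add hσ hTv
    _ = _ := by ring

end Main

/-! ### The parameters -/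

section Param

theorem nat_large (X : ℝ) : ∀ᶠ n : ℕ in atTop, X ≤ Real.sqrt n :=
  (Real.tendsto_sqrt_atTop.comp tendsto_natCast_atTop_atTop).eventually_ge_atTop X

theorem sqrt_le_self' {n : ℕ} (h : 1 ≤ Real.sqrt n) : Real.sqrt n ≤ n := by
  have h1 : Real.sqrt n * Real.sqrt n = n := Real.mul_self_sqrt (Nat.cast_nonneg n)
  nlinarith

/-- everything about large `n` -/
theorem n_facts (A L' θ κ ζ CB : ℝ) (hA : 0 ≤ A) (hL : 0 ≤ L') (hθ : 0 < θ) (hθ1 : θ ≤ 1)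
    (hκ : 0 < κ) (hζ : 0 < ζ) (n : ℕ)
    (h : 3 + A + 2 * L' + 2 / θ + 6 / (κ * θ) + 2 * CB ^ 2 / (ζ * θ) ≤ Real.sqrt n) :
    3 ≤ n ∧ A * rr n < 1 ∧ 2 * L' ≤ n ∧ ⌊θ * n⌋₊ ≤ n ∧ θ * n / 2 ≤ (⌊θ * n⌋₊ : ℝ) ∧
      (⌊θ * n⌋₊ : ℝ) ≤ θ * n ∧ 3 ≤ κ * (⌊θ * n⌋₊ : ℝ) ∧
      CB ^ 2 ≤ ζ * rr n * (⌊θ * n⌋₊ : ℝ) := by
  have a1 : 0 ≤ 2 / θ := by positivity
  have a2 : 0 ≤ 6 / (κ * θ) := by positivity
  have a3 : 0 ≤ 2 * CB ^ 2 / (ζ * θ) := by positivity
  have hs1 : 1 ≤ Real.sqrt n := by linarith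
  have hsn := sqrt_le_self' hs1
  have hn3 : 3 ≤ n := by
    have : (3 : ℝ) ≤ n := by linarith
    exact_mod_cast this
  have hn' : (0 : ℝ) < n := by linarith
  have hs0 : 0 < Real.sqrt n := by linarith
  have hfl : (⌊θ * n⌋₊ : ℝ) ≤ θ * n := Nat.floor_le (by positivity)
  have hfl2 : θ * n < (⌊θ * n⌋₊ : ℝ) + 1 := Nat.lt_floor_add_one _
  have hθn : 2 ≤ θ * n := by
    have : 2 / θ ≤ n := by linarith
    rw [div_le_iff₀ hθ] at this
    linarith
  have hP : θ * n / 2 ≤ (⌊θ * n⌋₊ : ℝ) := by linarith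
  refine ⟨hn3, ?_, by linarith, ?_, hP, hfl, ?_, ?_⟩
  · unfold rr
    rw [mul_one_div, div_lt_one hs0]
    linarith
  · have : (⌊θ * n⌋₊ : ℝ) ≤ n := hfl.trans (by nlinarith)
    exact_mod_cast this
  · have : 6 / (κ * θ) ≤ n := by linarith
    rw [div_le_iff₀ (by positivity)] at this
    nlinarith
  · have h1 : 2 * CB ^ 2 / (ζ * θ) ≤ Real.sqrt n := by linarith
    rw [div_le_iff₀ (by positivity)] at h1
    have h2 : rr n * n = Real.sqrt n := by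
      unfold rr
      rw [one_div, inv_mul_eq_div, Real.div_sqrt]
    have hr := rr_nonneg n
    calc CB ^ 2 ≤ ζ * (Real.sqrt n) * θ / 2 := by linarith
      _ = ζ * (rr n * n) * θ / 2 := by rw [h2]
      _ = ζ * rr n * (θ * n / 2) := by ring
      _ ≤ _ := mul_le_mul_of_nonneg_left hP (by positivity)

theorem num1 (E ε3 ζ θ L' s τ η : ℝ) (hE : 1 ≤ E) (hε3 : 0 < ε3) (hζ : 0 < ζ) (hθ : 0 < θ)
    (hs0 : 0 < s) (hs : s ≤ ε3 / (24 * E)) (hL : 0 < L') (hθ2 : θ ≤ ε3 / (8 * E * L'))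
    (hτ : τ = ε3 * ζ ^ 2 * θ ^ 3 / (64 * E)) (hη : η = ε3 * θ ^ 2 / (64 * E)) :
    2 * (E * (8 * τ / (ζ ^ 2 * θ ^ 3) + 2 * s + L' * θ + 8 * η / θ ^ 2)) + 2 * s ≤ ε3 := by
  have hE0 : 0 < E := by linarith
  have t1 : E * (8 * τ / (ζ ^ 2 * θ ^ 3)) = ε3 / 8 := by
    rw [hτ]; field_simp; ring
  have t4 : E * (8 * η / θ ^ 2) = ε3 / 8 := by
    rw [hη]; field_simp; ring
  have t2 : E * s ≤ ε3 / 24 := by
    rw [le_div_iff₀ (by positivity)] at hs
    linarith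
  have t3 : E * (L' * θ) ≤ ε3 / 8 := by
    rw [le_div_iff₀ (by positivity)] at hθ2
    linarith
  have t5 : s ≤ ε3 / 24 := by nlinarith
  have : E * (8 * τ / (ζ ^ 2 * θ ^ 3) + 2 * s + L' * θ + 8 * η / θ ^ 2) =
    E * (8 * τ / (ζ ^ 2 * θ ^ 3)) + 2 * (E * s) + E * (L' * θ) + E * (8 * η / θ ^ 2) := by ring
  rw [this, t1, t4]
  linarith

theorem num2 (E ε3 θ κ η ρ : ℝ) (hE : 1 ≤ E) (hθ : 0 < θ) (hρ : 0 < ρ)
    (hκ : κ = min 1 ρ / 6) (hε : ε3 = ρ * κ / 36)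
    (hη : η = ε3 * θ ^ 2 / (64 * E)) :
    2 * κ ^ 2 + 12 * ε3 / κ + 4 * η / θ ^ 2 ≤ ρ := by
  have hE0 : 0 < E := by linarith
  have hm : 0 < min 1 ρ := lt_min one_pos hρ
  have hκ0 : 0 < κ := by rw [hκ]; positivity
  have hκ1 : κ ≤ 1 / 6 := by
    rw [hκ]
    have := min_le_left 1 ρ
    linarith
  have hκ2 : κ ≤ ρ / 6 := by
    rw [hκ]
    have := min_le_right 1 ρ
    linarith
  have t1 : 12 * ε3 / κ = ρ / 3 := by rw [hε]; field_simp; ring
  have t2 : 4 * η / θ ^ 2 = ε3 / (16 * E) := by rw [hη]; field_simp; ring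
  have t3 : ε3 ≤ ρ / 36 := by
    rw [hε]
    nlinarith
  have t3' : 0 < ε3 := by rw [hε]; positivity
  have t4 : ε3 / (16 * E) ≤ ε3 := by
    rw [div_le_iff₀ (by positivity)]
    nlinarith
  have t5 : 2 * κ ^ 2 ≤ ρ / 3 := by nlinarith
  rw [t1, t2]
  linarith

end Param

end RigidAux

open RigidAux in
/-- G7: RIGIDITY -/
theorem stRigid (hCore : StCore) (hGL : StGapLow) (hGN : StGapNN) (hTr : StTriple)
    (hCnt : StCnt0) : StRigid := by
  intro C0 c1 γa Γ ρ hC0 hc1 hγ hγc hΓ hρ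
  obtain ⟨L, hL1, hL⟩ := hCnt C0 hC0
  obtain ⟨Y, hY⟩ : ∃ Y, Y = C0 * (1 + 2 / c1) ^ 2 := ⟨_, rfl⟩
  obtain ⟨κ, hκ⟩ : ∃ κ, κ = min 1 ρ / 6 := ⟨_, rfl⟩
  obtain ⟨ε3, hε3⟩ : ∃ ε3, ε3 = ρ * κ / 36 := ⟨_, rfl⟩
  obtain ⟨L', hL'⟩ : ∃ L', L' = L + Γ ^ 2 := ⟨_, rfl⟩
  obtain ⟨E, hE⟩ : ∃ E, E = Real.exp (2 * L') := ⟨_, rfl⟩
  obtain ⟨s, hs⟩ : ∃ s, s = min 1 (min (c1 / 2) (ε3 / (24 * E))) := ⟨_, rfl⟩
  obtain ⟨θ, hθ⟩ : ∃ θ, θ = min (1 / 2) (ε3 / (8 * E * L')) := ⟨_, rfl⟩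
  obtain ⟨ζ, hζ⟩ : ∃ ζ, ζ = s / (2 * Y) := ⟨_, rfl⟩
  obtain ⟨τ, hτ⟩ : ∃ τ, τ = ε3 * ζ ^ 2 * θ ^ 3 / (64 * E) := ⟨_, rfl⟩
  obtain ⟨η, hη⟩ : ∃ η, η = ε3 * θ ^ 2 / (64 * E) := ⟨_, rfl⟩
  have hm0 : 0 < min 1 ρ := lt_min one_pos hρ
  have hY0 : 0 < Y := by rw [hY]; positivity
  have hκ0 : 0 < κ := by rw [hκ]; positivity
  have hε30 : 0 < ε3 := by rw [hε3]; positivity
  have hL'0 : 0 < L' := by rw [hL']; positivity
  have hE1 : 1 ≤ E := by
    rw [hE]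
    exact Real.one_le_exp (by positivity)
  have hE0 : 0 < E := by linarith
  have hs0 : 0 < s := by
    rw [hs]
    refine lt_min one_pos (lt_min (by positivity) (by positivity))
  have hs1 : s ≤ 1 := by rw [hs]; exact min_le_left _ _
  have hsc : s ≤ c1 / 2 := by rw [hs]; exact (min_le_right _ _).trans (min_le_left _ _)
  have hsE : s ≤ ε3 / (24 * E) := by rw [hs]; exact (min_le_right _ _).trans (min_le_right _ _)
  have hθ0 : 0 < θ := by
    rw [hθ]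
    exact lt_min (by norm_num) (by positivity)
  have hθ1 : θ ≤ 1 / 2 := by rw [hθ]; exact min_le_left _ _
  have hθE : θ ≤ ε3 / (8 * E * L') := by rw [hθ]; exact min_le_right _ _
  have hζ0 : 0 < ζ := by rw [hζ]; positivity
  have hτ0 : 0 < τ := by rw [hτ]; positivity
  have hη0 : 0 < η := by rw [hη]; positivity
  refine ⟨θ, τ, η, hθ0, by linarith, hτ0, hη0, ?_⟩
  obtain ⟨D0, hD0⟩ : ∃ D0, D0 = min 1 (min (c1 / 2) (min (1 / (2 * C0 + 3)) (s / (2 * Y)))) :=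
    ⟨_, rfl⟩
  have hD0p : 0 < D0 := by
    rw [hD0]
    refine lt_min one_pos (lt_min (by positivity) (lt_min ?_ (by positivity)))
    have : 0 < 2 * C0 + 3 := by linarith
    positivity
  filter_upwards [self_mem_nhdsWithin, nhdsWithin_le_nhds (Iio_mem_nhds hD0p)] with δ hδ0 hδD
  have hδ : 0 < δ := hδ0
  have hδD' : δ ≤ D0 := le_of_lt hδD
  have hδ1 : δ ≤ 1 := hδD'.trans (by rw [hD0]; exact min_le_left _ _)
  have hδ2 : δ ≤ c1 / 2 :=
    hδD'.trans (by rw [hD0]; exact (min_le_right _ _).trans (min_le_left _ _))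
  have hδ4 : δ ≤ 1 / (2 * C0 + 3) := hδD'.trans (by
    rw [hD0]; exact (min_le_right _ _).trans ((min_le_right _ _).trans (min_le_left _ _)))
  have hδ3 : δ ≤ s / (2 * Y) := hδD'.trans (by
    rw [hD0]; exact (min_le_right _ _).trans ((min_le_right _ _).trans (min_le_right _ _)))
  have hδ3' : δ * (C0 * (1 + 2 / c1) ^ 2) ≤ s / 2 := by
    rw [← hY]
    rw [le_div_iff₀ (by positivity)] at hδ3
    linarith
  filter_upwards [nat_large (3 + (md δ + 1) * δ + 2 * L' + 2 / θ + 6 / (κ * θ) +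
    2 * ((2 * (4 * Kd δ) / s + 2 + 4 * Kd δ) / s) ^ 2 / (ζ * θ))] with n hn T hq htv hsl
  obtain ⟨f1, f2, f3, f4, f5, f6, f7, f8⟩ := n_facts ((md δ + 1) * δ) L' θ κ ζ
    ((2 * (4 * Kd δ) / s + 2 + 4 * Kd δ) / s) (by positivity) hL'0.le hθ0 (by linarith) hκ0 hζ0
    n hn
  rw [hζ, hY] at f8
  rw [hL'] at f3
  have hnum := num1 E ε3 ζ θ L' s τ η hE1 hε30 hζ0 hθ0 hs0 hsE hL'0 hθE hτ hη
  rw [hE, hL', hζ, hY] at hnum
  have hmain := per_T hCore hGL hGN hTr T C0 c1 γa Γ L s θ τ η κ ε3 ⌊θ * n⌋₊ hC0 hc1 hγc hΓ hL1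
    (hL δ (qv T) hδ hδ1 hq.1) hs0 hs1 hsc hθ0 hτ0 hη0 hδ hδ1 hδ2 hδ4 hδ3' f1 f2 f3 f4 f5 f6 f8 hq
    hκ0 f7 hε30 hnum htv hsl
  refine hmain.trans (mul_le_mul_of_nonneg_right ?_ (by positivity))
  exact num2 E ε3 θ κ η ρ hE1 hθ0 hρ hκ hε3 hη

end Pool.Agent.Lib.MP_193d8d_pr
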