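import Pool.Agent.Lib.MP_193d8d_pr.StA
import Pool.Agent.Lib.MP_193d8d_pr.StB
import Pool.Agent.Lib.MP_193d8d_pr.Base

set_option autoImplicit false

open MeasureTheory Set

namespace Pool.Agent.Lib.MP_193d8d_pr

namespace SlackNNAux

/-! ### the weights -/

theorem lev_mono {ε δ : ℝ} (h0 : 0 ≤ ε * δ) {J m : ℕ} (h1 : ((m : ℝ) + 1) * (ε * δ) ≤ 1) (h : ℕ) :
    lev ε δ J m h ≤ lev ε δ J m (h + 1) := by
  have hm : (0 : ℝ) ≤ m := Nat.cast_nonneg m
  have hed : ε * δ ≤ ((m : ℝ) + 1) * (ε * δ) := by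
    have := mul_nonneg hm h0
    linarith
  unfold lev
  rw [if_neg (Nat.succ_ne_zero h)]
  by_cases a : h = 0
  · rw [if_pos a]
    subst a
    split_ifs
    · positivity
    · omega
    · exact zero_le_one
  · rw [if_neg a]
    by_cases b : h + 1 ≤ J + 1
    · rw [if_pos (by omega : h ≤ J + 1), if_pos b]
      exact mul_le_mul_of_nonneg_left
        (pow_le_pow_of_le_one (by norm_num) (by norm_num) (by omega)) h0
    · rw [if_neg b]
      by_cases c : h ≤ J + 1
      · have hJ : h = J + 1 := by omega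
        subst hJ
        rw [if_pos le_rfl, Nat.sub_self, pow_zero, mul_one]
        split_ifs
        · push_cast
          have e : ε * δ * ((J : ℝ) + 1 + 1 - J) = 2 * (ε * δ) := by ring
          rw [e]
          linarith
        · linarith
      · rw [if_neg c]
        by_cases d : h + 1 ≤ J + 1 + m
        · rw [if_pos (by omega : h ≤ J + 1 + m), if_pos d]
          apply mul_le_mul_of_nonneg_left _ h0
          push_cast
          linarith
        · rw [if_neg d]
          split_ifs with f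
          · have hh : h = J + 1 + m := by omega
            subst hh
            push_cast
            have e : ε * δ * ((J : ℝ) + 1 + m - J) = ((m : ℝ) + 1) * (ε * δ) := by ring
            rw [e]
            exact h1
          · exact le_rfl

theorem pw_nonneg {δ : ℝ} {n : ℕ} (hδ : 0 < δ) (h1 : (md δ + 1) * δ * rr n < 1)
    (h : Fin (HH δ n + 1)) : 0 ≤ pw δ n h := by
  have hr : 0 ≤ rr n := by
    unfold rr
    positivity
  refine sub_nonneg.2 (lev_mono (mul_nonneg hr hδ.le) ?_ _)
  calc ((md δ : ℝ) + 1) * (rr n * δ) = (md δ + 1) * δ * rr n := by ring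
    _ ≤ 1 := h1.le

theorem pw_sum (δ : ℝ) (n : ℕ) : ∑ h, pw δ n h = 1 := by
  have hH : HH δ n = n + md δ + 1 := rfl
  unfold pw wts
  rw [Fin.sum_univ_eq_sum_range (fun h => lv δ n (h + 1) - lv δ n h) (HH δ n + 1),
    Finset.sum_range_sub]
  unfold lv lev
  rw [if_neg (Nat.succ_ne_zero _), if_neg (by omega), if_neg (by omega), if_pos rfl, sub_zero]

/-! ### the average -/

section AE

variable {δ : ℝ} {n : ℕ}

theorem AE_nonneg (hp : ∀ h, 0 ≤ pw δ n h) {F : Edge n → (Edge n → Fin (HH δ n + 1)) → ℝ}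
    (h : ∀ e c, 0 ≤ F e c) : 0 ≤ AE δ n F :=
  AV_nonneg fun e => EE_nonneg hp (h e)

theorem AE_mono (hp : ∀ h, 0 ≤ pw δ n h) {F F' : Edge n → (Edge n → Fin (HH δ n + 1)) → ℝ}
    (h : ∀ e c, F e c ≤ F' e c) : AE δ n F ≤ AE δ n F' :=
  AV_mono fun e => EE_mono hp (h e)

theorem AE_add (F F' : Edge n → (Edge n → Fin (HH δ n + 1)) → ℝ) :
    AE δ n (fun e c => F e c + F' e c) = AE δ n F + AE δ n F' := by
  unfold AE
  rw [← AV_add]
  congr 1
  funext e
  exact EE_add _ _ _

theorem AE_sub (F F' : Edge n → (Edge n → Fin (HH δ n + 1)) → ℝ) :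
    AE δ n (fun e c => F e c - F' e c) = AE δ n F - AE δ n F' := by
  unfold AE
  rw [← AV_sub]
  congr 1
  funext e
  exact EE_sub _ _ _

theorem AE_mul_left (r : ℝ) (F : Edge n → (Edge n → Fin (HH δ n + 1)) → ℝ) :
    AE δ n (fun e c => r * F e c) = r * AE δ n F := by
  unfold AE
  rw [← AV_mul_left]
  congr 1
  funext e
  exact EE_mul_left _ _ _

theorem AE_const (hn : 2 ≤ n) (r : ℝ) : AE δ n (fun _ _ => r) = r := by
  unfold AE
  have e : (fun _ : Edge n => EE (pw δ n) (fun _ : Edge n → Fin (HH δ n + 1) => r)) =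
      fun _ => r := by
    funext _
    exact EE_const (pw_sum δ n) r
  rw [e]
  exact AV_const hn r

theorem AE_sum (s : Finset ℕ) (F : ℕ → Edge n → (Edge n → Fin (HH δ n + 1)) → ℝ) :
    AE δ n (fun e c => ∑ i ∈ s, F i e c) = ∑ i ∈ s, AE δ n (F i) := by
  unfold AE
  have e1 : (fun e : Edge n => EE (pw δ n) (fun c => ∑ i ∈ s, F i e c)) =
      fun e => ∑ i ∈ s, EE (pw δ n) (F i e) := by
    funext e
    exact EE_sum _ _ _
  rw [e1]
  unfold AV
  rw [Finset.sum_comm, Finset.sum_div]

end AE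

/-! ### tangent lines -/

theorem tangent {δ : ℝ} (hδ : 0 < δ) (y : ℝ) : ∃ s : ℝ, ∀ x : ℝ,
    lamf δ x ≤ lamf δ y + s * (x - y) := by
  have hlog : ∀ t : ℝ, 0 < t → Real.log t ≤ t - 1 := fun t ht => Real.log_le_sub_one_of_pos ht
  by_cases hy : y ≤ δ
  · refine ⟨1, fun x => ?_⟩
    unfold lamf
    rw [if_pos hy]
    split_ifs with hx
    · linarith
    · have hx' : 0 < x := hδ.trans (not_le.1 hx)
      have h1 := mul_le_mul_of_nonneg_left (hlog (x / δ) (div_pos hx' hδ)) hδ.le
      have e : δ * (x / δ - 1) = x - δ := by field_simp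
      linarith
  · have hy' : δ < y := not_le.1 hy
    have hy0 : 0 < y := hδ.trans hy'
    refine ⟨δ / y, fun x => ?_⟩
    unfold lamf
    rw [if_neg hy]
    split_ifs with hx
    · -- `x ≤ δ < y`
      have h1 := hlog (δ / y) (div_pos hδ hy0)
      have h2 : Real.log (y / δ) = - Real.log (δ / y) := by
        rw [← Real.log_inv, inv_div]
      have h3 : δ / y < 1 := (div_lt_one hy0).2 hy'
      have h4 : δ * (1 - δ / y) ≤ δ * Real.log (y / δ) := by
        apply mul_le_mul_of_nonneg_left _ hδ.le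
        rw [h2]
        linarith
      have h5 : x * (1 - δ / y) ≤ δ * (1 - δ / y) :=
        mul_le_mul_of_nonneg_right hx (by linarith)
      have e : δ / y * (x - y) = x * (δ / y) - δ := by field_simp
      rw [e]
      nlinarith
    · have hx' : 0 < x := hδ.trans (not_le.1 hx)
      have h1 := mul_le_mul_of_nonneg_left (hlog (x / y) (div_pos hx' hy0)) hδ.le
      have h2 : Real.log (x / δ) = Real.log (x / y) + Real.log (y / δ) := by
        rw [← Real.log_mul (div_pos hx' hy0).ne' (div_pos hy0 hδ).ne']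
        congr 1
        field_simp
      have e : δ * (x / y - 1) = δ / y * (x - y) := by field_simp
      rw [h2, mul_add]
      linarith

theorem jensen {δ : ℝ} {n : ℕ} (hδ : 0 < δ) (hn : 2 ≤ n) (hp : ∀ h, 0 ≤ pw δ n h)
    (F : Edge n → (Edge n → Fin (HH δ n + 1)) → ℝ) :
    AE δ n (fun e c => lamf δ (F e c)) ≤ lamf δ (AE δ n F) := by
  obtain ⟨s, hs⟩ := tangent hδ (AE δ n F)
  calc AE δ n (fun e c => lamf δ (F e c))
      ≤ AE δ n (fun e c => lamf δ (AE δ n F) + s * (F e c - AE δ n F)) :=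
        AE_mono hp fun e c => hs _
    _ = lamf δ (AE δ n F) := by
        rw [AE_add, AE_const hn, AE_mul_left, AE_sub, AE_const hn, sub_self, mul_zero, add_zero]

end SlackNNAux

open SlackNNAux in
/-- D6: the slacks are nonnegative -/
theorem stSlackNN (hGap : StGapNN) : StSlackNN := by
  intro δ n T hδ hn h1
  have hp : ∀ h, 0 ≤ pw δ n h := pw_nonneg hδ h1
  refine ⟨?_, AE_nonneg hp fun e c => hGap _ _ _ _⟩
  have hn2 : 2 ≤ n := by omega
  unfold slackA
  rw [sub_nonneg]
  have e1 : AE δ n (fun e c => Lam δ (md δ) (pos T e c)) =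
      (∑ i ∈ Finset.range (md δ), AE δ n (fun e c => lamf δ (pos T e c i - pos T e c (i + 1))))
        + AE δ n (fun e c => pos T e c (md δ)) := by
    unfold Lam
    rw [AE_add, AE_sum]
  rw [e1]
  unfold Lam
  refine add_le_add (Finset.sum_le_sum fun i _ => ?_) le_rfl
  have h2 := jensen hδ hn2 hp (fun e c => pos T e c i - pos T e c (i + 1))
  rw [AE_sub] at h2
  exact h2

end Pool.Agent.Lib.MP_193d8d_pr
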