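import Pool.Agent.Lib.MP_193d8d_pr.StA
import Pool.Agent.Lib.MP_193d8d_pr.StB
import Pool.Agent.Lib.MP_193d8d_pr.Base

set_option autoImplicit false
open MeasureTheory Set Filter Topology

namespace Pool.Agent.Lib.MP_193d8d_pr

namespace SteepTAux

/-- the weights sum to one -/
lemma sum_wts {H : ℕ} {l : ℕ → ℝ} (h0 : l 0 = 0) (h1 : l (H + 1) = 1) :
    ∑ h : Fin (H + 1), wts H l h = 1 := by
  unfold wts
  rw [Fin.sum_univ_eq_sum_range (fun i => l (i + 1) - l i), Finset.sum_range_sub, h0, h1]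
  ring

lemma wts_nonneg {H : ℕ} {l : ℕ → ℝ} (h : ∀ h, h ≤ H → l h < l (h + 1)) (i : Fin (H + 1)) :
    0 ≤ wts H l i := by
  unfold wts
  have := h i (by omega)
  linarith

lemma lev_zero (ε δ : ℝ) (J m : ℕ) : lev ε δ J m 0 = 0 := by simp [lev]

lemma lev_top (ε δ : ℝ) (J m : ℕ) : lev ε δ J m (J + m + 1 + 1) = 1 := by
  unfold lev
  rw [if_neg (by omega), if_neg (by omega), if_neg (by omega)]

lemma lev_main (ε δ : ℝ) (J : ℕ) {m i : ℕ} (hi : i ≤ m) :
    lev ε δ J m (J + 1 + i) = ε * δ * (i + 1) := by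
  unfold lev
  rw [if_neg (by omega)]
  by_cases h : J + 1 + i ≤ J + 1
  · have : i = 0 := by omega
    subst this
    simp
  · rw [if_neg h, if_pos (by omega)]
    push_cast
    ring

lemma lev_lt {ε δ : ℝ} (J m : ℕ) (hp : 0 < ε * δ) (h1 : (m + 1) * δ * ε < 1) :
    ∀ h, h ≤ J + m + 1 → lev ε δ J m h < lev ε δ J m (h + 1) := by
  intro h hh
  rcases Nat.eq_zero_or_pos h with rfl | h0
  · rw [lev_zero]
    unfold lev
    rw [if_neg (by omega), if_pos (by omega)]
    positivity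
  · rcases Nat.lt_or_ge h (J + 1) with h2 | h2
    · unfold lev
      rw [if_neg (by omega), if_pos (by omega), if_neg (by omega), if_pos (by omega)]
      have e1 : J + 1 - h = (J + 1 - (h + 1)) + 1 := by omega
      rw [e1, pow_succ]
      have : 0 < ε * δ * (1 / 2 : ℝ) ^ (J + 1 - (h + 1)) := by positivity
      linarith
    · obtain ⟨i, rfl⟩ : ∃ i, h = J + 1 + i := ⟨h - (J + 1), by omega⟩
      rcases Nat.lt_or_ge i m with h3 | h3
      · rw [lev_main ε δ J h3.le, show J + 1 + i + 1 = J + 1 + (i + 1) by omega,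
          lev_main ε δ J h3]
        push_cast
        nlinarith
      · have e1 : i = m := by omega
        subst e1
        rw [lev_main ε δ J le_rfl, show J + 1 + i + 1 = J + i + 1 + 1 by omega, lev_top]
        calc ε * δ * (i + 1) = (i + 1) * δ * ε := by ring
          _ < 1 := h1

lemma rr_small (A : ℝ) : ∀ᶠ n : ℕ in atTop, A * rr n ≤ 1 / 2 := by
  have h1 : Tendsto (fun n : ℕ => rr n) atTop (𝓝 0) := by
    unfold rr
    exact tendsto_const_nhds.div_atTop
      (Real.tendsto_sqrt_atTop.comp tendsto_natCast_atTop_atTop)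
  have h2 : Tendsto (fun n : ℕ => A * rr n) atTop (𝓝 0) := by
    simpa using h1.const_mul A
  filter_upwards [h2.eventually (gt_mem_nhds (show (0 : ℝ) < 1 / 2 by norm_num))] with n hn
  exact hn.le


/-- the mass of a cell -/
lemma mass {E : Type} [Fintype E] [LinearOrder E] {S : Set (E → ℝ)} {H : ℕ} {l : ℕ → ℝ}
    (T : Tree S H l) (e : E) (c : E → Fin (H + 1)) {h : ℕ} (hh : h + 1 ≤ H + 1) (hl0 : 0 ≤ l h)
    (hl1 : 0 ≤ l (h + 1)) (hfin : volume (Rset S H T.Q e c) ≠ ⊤) :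
    (l (h + 1) - l h) * vol (Rset S H T.Q e c) ≤
      vol (Rset S H T.Q e c ∩ {x | T.Q e c h < x e ∧ x e ≤ T.Q e c (h + 1)}) := by
  have hA : vol (Rset S H T.Q e c ∩ {x | x e ≤ T.Q e c h}) = l h * vol (Rset S H T.Q e c) := by
    unfold vol
    rw [T.cut e c h (by omega), ENNReal.toReal_mul, ENNReal.toReal_ofReal hl0]
  have hB : vol (Rset S H T.Q e c ∩ {x | x e ≤ T.Q e c (h + 1)}) =
      l (h + 1) * vol (Rset S H T.Q e c) := by
    unfold vol
    rw [T.cut e c (h + 1) hh, ENNReal.toReal_mul, ENNReal.toReal_ofReal hl1]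
  have hsub : Rset S H T.Q e c ∩ {x | x e ≤ T.Q e c (h + 1)} ⊆
      (Rset S H T.Q e c ∩ {x | x e ≤ T.Q e c h}) ∪
        (Rset S H T.Q e c ∩ {x | T.Q e c h < x e ∧ x e ≤ T.Q e c (h + 1)}) := by
    rintro x ⟨hx, hx2⟩
    by_cases h1 : x e ≤ T.Q e c h
    · exact Or.inl ⟨hx, h1⟩
    · exact Or.inr ⟨hx, lt_of_not_ge h1, hx2⟩
  have hfin' : ∀ X : Set (E → ℝ), volume (Rset S H T.Q e c ∩ X) ≠ ⊤ := fun X =>
    ne_top_of_le_ne_top hfin (measure_mono inter_subset_left)
  have hle : vol (Rset S H T.Q e c ∩ {x | x e ≤ T.Q e c (h + 1)}) ≤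
      vol (Rset S H T.Q e c ∩ {x | x e ≤ T.Q e c h}) +
        vol (Rset S H T.Q e c ∩ {x | T.Q e c h < x e ∧ x e ≤ T.Q e c (h + 1)}) := by
    unfold vol
    rw [← ENNReal.toReal_add (hfin' _) (hfin' _)]
    refine ENNReal.toReal_mono (ENNReal.add_ne_top.2 ⟨hfin' _, hfin' _⟩) ?_
    exact (measure_mono hsub).trans (measure_union_le _ _)
  rw [hA, hB] at hle
  linarith

/-- pointwise estimate -/
lemma pt {K δ a b y : ℝ} (hK : 0 < K) (hδ : 0 ≤ δ) (hba : b ≤ a) (hy : δ * y ≤ a - b)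
    (hy2 : y ≤ 2) :
    δ * y - 2 * δ / K ^ 2 * max 0 a ^ 2 - 2 * δ / K * max 0 (-b) ≤ clamp K a - clamp K b := by
  have h0 : 0 ≤ clamp K a - clamp K b := by
    have := clamp_mono (K := K) hba
    linarith
  have h1 : 0 ≤ 2 * δ / K ^ 2 * max 0 a ^ 2 := by positivity
  have h2 : 0 ≤ 2 * δ / K * max 0 (-b) := mul_nonneg (by positivity) (le_max_left _ _)
  have h3 : δ * y ≤ 2 * δ := by nlinarith
  by_cases ha : a ≤ K
  · by_cases hb : -K ≤ b
    · rw [clamp_eq (abs_le.2 ⟨hb.trans hba, ha⟩), clamp_eq (abs_le.2 ⟨hb, hba.trans ha⟩)]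
      linarith
    · push Not at hb
      have h4 : 2 * δ ≤ 2 * δ / K * max 0 (-b) := by
        calc 2 * δ = 2 * δ / K * K := by field_simp
          _ ≤ 2 * δ / K * max 0 (-b) := by
            refine mul_le_mul_of_nonneg_left ?_ (by positivity)
            exact le_trans (by linarith) (le_max_right 0 (-b))
      linarith
  · push Not at ha
    have h4 : 2 * δ ≤ 2 * δ / K ^ 2 * max 0 a ^ 2 := by
      calc 2 * δ = 2 * δ / K ^ 2 * K ^ 2 := by field_simp
        _ ≤ 2 * δ / K ^ 2 * max 0 a ^ 2 := by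
          refine mul_le_mul_of_nonneg_left ?_ (by positivity)
          refine pow_le_pow_left₀ hK.le ?_ 2
          exact le_trans ha.le (le_max_right 0 a)
    linarith

end SteepTAux

open SteepTAux in
theorem stSteepT (hPs : StPsMom) (hXi : StXi) (hXiT : StXiT) (hVol : StVol) : StSteepT := by
  intro η Γ hη hΓ
  obtain ⟨C, hC, hPs⟩ := hPs
  have hsm : ∀ᶠ δ in 𝓝[>] (0 : ℝ),
      2 * (C * δ / 16 + (2 * Γ + 2 * δ + C) * δ / 4) ≤ η / 2 := by
    have h2 : Continuous (fun δ : ℝ => 2 * (C * δ / 16 + (2 * Γ + 2 * δ + C) * δ / 4)) := by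
      fun_prop
    have h3 := h2.tendsto 0
    have h4 : (2 * (C * 0 / 16 + (2 * Γ + 2 * 0 + C) * 0 / 4) : ℝ) = 0 := by ring
    rw [h4] at h3
    have h5 := h3.mono_left (nhdsWithin_le_nhds (s := Ioi (0 : ℝ)))
    exact (h5.eventually (gt_mem_nhds (show (0 : ℝ) < η / 2 by positivity))).mono
      fun δ h => h.le
  have hn2 : ∀ᶠ n : ℕ in atTop, 1 / (n : ℝ) ^ 2 ≤ η / 2 := by
    have h1 : Tendsto (fun n : ℕ => 1 / (n : ℝ) ^ 2) atTop (𝓝 0) :=
      tendsto_const_nhds.div_atTop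
        ((tendsto_pow_atTop two_ne_zero).comp tendsto_natCast_atTop_atTop)
    exact (h1.eventually (gt_mem_nhds (show (0 : ℝ) < η / 2 by positivity))).mono
      fun δ h => h.le
  filter_upwards [hPs, self_mem_nhdsWithin, hsm] with δ hδ hδ0 hδs
  have hδ0 : 0 < δ := hδ0
  filter_upwards [hδ, hXiT, eventually_ge_atTop 3, rr_small ((md δ + 1) * δ), hn2]
    with n hn hxt h3 hr hnη T i hi hg
  have hr0 : 0 < rr n := by
    have : (0 : ℝ) < n := by
      have : 0 < n := by omega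
      exact_mod_cast this
    unfold rr
    positivity
  have hp : 0 < rr n * δ := mul_pos hr0 hδ0
  have hr1 : ((md δ : ℝ) + 1) * δ * rr n < 1 := by linarith
  have l0 : lv δ n 0 = 0 := lev_zero _ _ _ _
  have l1 : lv δ n (HH δ n + 1) = 1 := lev_top _ _ _ _
  have llt : ∀ h, h ≤ HH δ n → lv δ n h < lv δ n (h + 1) := lev_lt n (md δ) hp hr1
  have hw0 : ∀ h, 0 ≤ pw δ n h := fun h => wts_nonneg llt h
  have hlm : ∀ j, j ≤ md δ → lv δ n (n + 1 + j) = rr n * δ * (j + 1) := fun j hj =>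
    lev_main _ _ _ hj
  have hK : 0 < Kd δ := by unfold Kd; positivity
  obtain ⟨hM1, -, -, hM4⟩ := hVol (9 / 10) n (by norm_num) (by norm_num)
  have hM0 : volume (M (9 / 10) n) ≠ 0 := by
    intro h0
    unfold vol at hM4
    rw [h0] at hM4
    norm_num at hM4
  have hbox : ∀ x ∈ M (9 / 10) n, ∀ e, 0 < x e ∧ x e ≤ 2 := fun x hx e =>
    ⟨by have := (hx.1 e).1; linarith, (hx.1 e).2⟩
  obtain ⟨hX1, -, -⟩ := hXi (Edge n) (M (9 / 10) n) (HH δ n) (lv δ n) T hM1 hbox hM0 l0 l1 llt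
  -- pointwise
  have hpt : ∀ (e : Edge n) (c : Edge n → Fin (HH δ n + 1)),
      δ * (vol (Rset (M (9 / 10) n) (HH δ n) T.Q e c) /
        vol (cyl (Rset (M (9 / 10) n) (HH δ n) T.Q e c) e))
        - 2 * δ / Kd δ ^ 2 * max 0 (ps T.Q (rr n) n e c i) ^ 2
        - 2 * δ / Kd δ * max 0 (-ps T.Q (rr n) n e c (i + 1)) ≤
      pos T e c i - pos T e c (i + 1) := by
    intro e c
    have hps : ps T.Q (rr n) n e c i - ps T.Q (rr n) n e c (i + 1) =
        (T.Q e c (n + 1 + i + 1) - T.Q e c (n + 1 + i)) / rr n := by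
      unfold ps
      rw [← sub_div]
      congr 1
      rw [show n + 1 + (i + 1) = n + 1 + i + 1 by omega]
      ring
    have hdec : ps T.Q (rr n) n e c (i + 1) ≤ ps T.Q (rr n) n e c i := by
      have h2 := T.lt e c (n + 1 + i) (by unfold HH; omega)
      have h3 : 0 ≤ (T.Q e c (n + 1 + i + 1) - T.Q e c (n + 1 + i)) / rr n :=
        div_nonneg (by linarith) hr0.le
      linarith
    obtain ⟨hy1, hy2⟩ := (hxt δ T e hδ0 hr1).2 c
    refine pt hK hδ0.le hdec ?_ hy2
    have hV : 0 < vol (Rset (M (9 / 10) n) (HH δ n) T.Q e c) := by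
      refine lt_of_le_of_ne ENNReal.toReal_nonneg fun h => ?_
      rw [← h, zero_div] at hy1
      norm_num at hy1
    have hCy : 0 < vol (cyl (Rset (M (9 / 10) n) (HH δ n) T.Q e c) e) := by
      refine lt_of_le_of_ne ENNReal.toReal_nonneg fun h => ?_
      rw [← h, div_zero] at hy1
      norm_num at hy1
    have hfin : volume (Rset (M (9 / 10) n) (HH δ n) T.Q e c) ≠ ⊤ := by
      intro h
      unfold vol at hV
      rw [h] at hV
      simp at hV
    have hl1 : lv δ n (n + 1 + i) = rr n * δ * (i + 1) := hlm i hi.le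
    have hl2 : lv δ n (n + 1 + i + 1) = rr n * δ * (((i + 1 : ℕ) : ℝ) + 1) := by
      rw [show n + 1 + i + 1 = n + 1 + (i + 1) by omega]
      exact hlm (i + 1) hi
    have hm := mass T e c (h := n + 1 + i) (by unfold HH; omega) (by rw [hl1]; positivity)
      (by rw [hl2]; positivity) hfin
    have hx := hX1 e c (T.Q e c (n + 1 + i)) (T.Q e c (n + 1 + i + 1))
      (T.lt e c (n + 1 + i) (by unfold HH; omega)).le
    have hle := hm.trans hx
    rw [hl1, hl2] at hle
    push_cast at hle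
    rw [hps, ← mul_div_assoc, div_le_div_iff₀ hCy hr0]
    linarith
  -- averages
  have hav : ∀ e : Edge n, (1 - η) * δ ≤
      EE (pw δ n) (fun c => pos T e c i - pos T e c (i + 1)) := by
    intro e
    have h1 := EE_mono hw0 (hpt e)
    rw [EE_sub, EE_sub, EE_mul_left, EE_mul_left, EE_mul_left] at h1
    refine le_trans ?_ h1
    have hy := (hxt δ T e hδ0 hr1).1
    have hA := (hn T e i hi.le).1
    have hB := (hn T e (i + 1) hi).2
    have hA' : EE (pw δ n) (fun c => max 0 (ps T.Q (rr n) n e c i) ^ 2) ≤ C / δ := by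
      refine hA.trans ?_
      have hi0 : (0 : ℝ) ≤ i := by positivity
      refine div_le_div_of_nonneg_left (by linarith) hδ0 ?_
      nlinarith
    have hB' : EE (pw δ n) (fun c => max 0 (-ps T.Q (rr n) n e c (i + 1))) ≤
        2 * Γ + 2 * δ + C := by
      refine hB.trans ?_
      push_cast
      nlinarith
    have e1 : 2 * δ / Kd δ ^ 2 = δ ^ 3 / 8 := by
      unfold Kd
      field_simp
      ring
    have e2 : 2 * δ / Kd δ = δ ^ 2 / 2 := by
      unfold Kd
      field_simp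
      ring
    rw [e1, e2]
    have hA2 := mul_le_mul_of_nonneg_left hA' (show (0 : ℝ) ≤ δ ^ 3 / 8 by positivity)
    have hB2 := mul_le_mul_of_nonneg_left hB' (show (0 : ℝ) ≤ δ ^ 2 / 2 by positivity)
    have hy2 := mul_le_mul_of_nonneg_left (show (1 : ℝ) - η / 2 ≤ _ from le_trans (by linarith) hy)
      hδ0.le
    have e3 : δ ^ 3 / 8 * (C / δ) = δ * (C * δ / 8) := by
      field_simp
    rw [e3] at hA2
    have hs2 := mul_le_mul_of_nonneg_left hδs hδ0.le
    nlinarith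
  have e1 : qv T i - qv T (i + 1) =
      AV (fun e : Edge n => EE (pw δ n) (fun c => pos T e c i - pos T e c (i + 1))) := by
    unfold qv AE
    rw [← AV_sub]
    congr 1
    funext e
    exact (EE_sub _ _ _).symm
  rw [e1]
  have h5 := AV_mono hav
  rwa [AV_const (by omega)] at h5

end Pool.Agent.Lib.MP_193d8d_pr
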