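import Pool.Agent.Lib.MP_193d8d_pr.StA
import Pool.Agent.Lib.MP_193d8d_pr.StB
import Pool.Agent.Lib.MP_193d8d_pr.Base

set_option autoImplicit false
open MeasureTheory Set Filter Topology

namespace Pool.Agent.Lib.MP_193d8d_pr

namespace TailPosAux

/-! ### `beta` -/

lemma pow_sub_le (N : ℕ) {a b : ℝ} (hb : 0 ≤ b) (hab : b ≤ a) (ha : a ≤ 1) :
    a ^ N - b ^ N ≤ N * (a - b) := by
  induction N with
  | zero => simp
  | succ N ih =>
    have h1 : a ^ (N + 1) - b ^ (N + 1) = a * (a ^ N - b ^ N) + b ^ N * (a - b) := by ring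
    have h2 : b ^ N ≤ 1 := pow_le_one₀ hb (hab.trans ha)
    have h3 : 0 ≤ a ^ N - b ^ N := sub_nonneg.2 (pow_le_pow_left₀ hb hab N)
    have h4 : a * (a ^ N - b ^ N) ≤ 1 * (a ^ N - b ^ N) := mul_le_mul_of_nonneg_right ha h3
    have h5 : b ^ N * (a - b) ≤ 1 * (a - b) := mul_le_mul_of_nonneg_right h2 (by linarith)
    push_cast
    linarith

/-- index set of the pairs -/
def PP (m : ℕ) : Finset (ℕ × ℕ) := Finset.range (m + 1) ×ˢ Finset.range (m + 1)

lemma cnt_eq (m : ℕ) (q : ℕ → ℝ) (s : ℝ) :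
    cnt m q s = ∑ z ∈ PP m, (if s < q z.1 + q z.2 then (1 : ℝ) else 0) := by
  unfold cnt PP
  rw [Finset.card_filter]
  push_cast
  rfl

lemma cnt_nonneg (m : ℕ) (q : ℕ → ℝ) (s : ℝ) : 0 ≤ cnt m q s := by
  unfold cnt; positivity

lemma cnt_le (m : ℕ) (q : ℕ → ℝ) (s : ℝ) : cnt m q s ≤ ((m : ℝ) + 1) ^ 2 := by
  rw [cnt_eq]
  calc _ ≤ ∑ z ∈ PP m, (1 : ℝ) := Finset.sum_le_sum fun z _ => by split_ifs <;> norm_num
    _ = _ := by
      simp [PP]
      ring

lemma integrable_ind (x : ℝ) :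
    IntegrableOn (fun s : ℝ => if s < x then (1 : ℝ) else 0) (Ioi 0) := by
  have h1 : (fun s : ℝ => if s < x then (1 : ℝ) else 0) = (Iio x).indicator (fun _ => (1 : ℝ)) := by
    funext s
    simp [indicator]
  rw [h1]
  have h2 : IntegrableOn (fun _ : ℝ => (1 : ℝ)) (Iio x ∩ Ioi 0) := by
    rw [Iio_inter_Ioi]
    exact integrableOn_const (by simp)
  exact (integrableOn_indicator_iff measurableSet_Iio).2 h2

lemma integral_ind (x : ℝ) : ∫ s in Ioi (0 : ℝ), (if s < x then (1 : ℝ) else 0) = max 0 x := by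
  have h1 : (fun s : ℝ => if s < x then (1 : ℝ) else 0) = (Iio x).indicator (fun _ => (1 : ℝ)) := by
    funext s
    simp [indicator]
  rw [h1, integral_indicator measurableSet_Iio, Measure.restrict_restrict measurableSet_Iio,
    Iio_inter_Ioi]
  simp [Real.volume_Ioo, Measure.real, ENNReal.toReal_ofReal', max_comm]

lemma measurable_ind (x : ℝ) : Measurable (fun s : ℝ => if s < x then (1 : ℝ) else 0) :=
  Measurable.ite measurableSet_Iio measurable_const measurable_const

lemma measurable_cnt (m : ℕ) (q : ℕ → ℝ) : Measurable (cnt m q) := by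
  have h : cnt m q = fun s => ∑ z ∈ PP m, (if s < q z.1 + q z.2 then (1 : ℝ) else 0) :=
    funext fun s => cnt_eq m q s
  rw [h]
  exact Finset.measurable_sum _ fun z _ => measurable_ind _

lemma integrable_cnt (m : ℕ) (q : ℕ → ℝ) : IntegrableOn (cnt m q) (Ioi 0) := by
  have h : cnt m q = fun s => ∑ z ∈ PP m, (if s < q z.1 + q z.2 then (1 : ℝ) else 0) :=
    funext fun s => cnt_eq m q s
  rw [h]
  exact integrable_finsetSum _ fun z _ => integrable_ind _

lemma integral_cnt (m : ℕ) (q : ℕ → ℝ) :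
    ∫ s in Ioi (0 : ℝ), cnt m q s = ∑ z ∈ PP m, max 0 (q z.1 + q z.2) := by
  have h : cnt m q = fun s => ∑ z ∈ PP m, (if s < q z.1 + q z.2 then (1 : ℝ) else 0) :=
    funext fun s => cnt_eq m q s
  rw [h, integral_finsetSum _ fun z _ => integrable_ind _]
  exact Finset.sum_congr rfl fun z _ => integral_ind _

lemma integrable_beta (N m : ℕ) (ρ : ℝ) (q : ℕ → ℝ) (h1 : ρ ^ 2 * ((m : ℝ) + 1) ^ 2 ≤ 1) :
    IntegrableOn (fun s => 1 - (1 - ρ ^ 2 * cnt m q s) ^ N) (Ioi 0) := by
  refine Integrable.mono' ((integrable_cnt m q).const_mul (N * ρ ^ 2)) ?_ ?_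
  · exact (measurable_const.sub ((measurable_const.sub
      ((measurable_cnt m q).const_mul _)).pow_const N)).aestronglyMeasurable
  · refine Filter.Eventually.of_forall fun s => ?_
    have h2 : 0 ≤ ρ ^ 2 * cnt m q s := mul_nonneg (sq_nonneg _) (cnt_nonneg _ _ _)
    have h3 : ρ ^ 2 * cnt m q s ≤ 1 :=
      (mul_le_mul_of_nonneg_left (cnt_le m q s) (sq_nonneg _)).trans h1
    have h4 := pow_sub_le N (a := 1) (b := 1 - ρ ^ 2 * cnt m q s) (by linarith) (by linarith) le_rfl
    rw [one_pow] at h4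
    have h5 : (1 - ρ ^ 2 * cnt m q s) ^ N ≤ 1 := pow_le_one₀ (by linarith) (by linarith)
    rw [Real.norm_eq_abs, abs_of_nonneg (by linarith)]
    calc _ ≤ (N : ℝ) * (1 - (1 - ρ ^ 2 * cnt m q s)) := h4
      _ = _ := by ring

lemma beta_diff (N m : ℕ) (ρ : ℝ) (q q' : ℕ → ℝ) (h1 : ρ ^ 2 * ((m : ℝ) + 1) ^ 2 ≤ 1)
    (hq : ∀ i ≤ m, q i ≤ q' i) :
    beta N ρ m q' - beta N ρ m q ≤
      N * ρ ^ 2 * ∑ z ∈ PP m, (max 0 (q' z.1 + q' z.2) - max 0 (q z.1 + q z.2)) := by
  unfold beta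
  rw [← integral_sub (integrable_beta N m ρ q' h1) (integrable_beta N m ρ q h1)]
  have h2 : N * ρ ^ 2 * ∑ z ∈ PP m, (max 0 (q' z.1 + q' z.2) - max 0 (q z.1 + q z.2)) =
      ∫ s in Ioi (0 : ℝ), (N * ρ ^ 2 * (cnt m q' s - cnt m q s)) := by
    rw [integral_const_mul, integral_sub (integrable_cnt m q') (integrable_cnt m q), integral_cnt,
      integral_cnt, Finset.sum_sub_distrib]
  rw [h2]
  refine integral_mono ((integrable_beta N m ρ q' h1).sub (integrable_beta N m ρ q h1))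
    (((integrable_cnt m q').sub (integrable_cnt m q)).const_mul _) fun s => ?_
  have hm : cnt m q s ≤ cnt m q' s := by
    rw [cnt_eq, cnt_eq]
    refine Finset.sum_le_sum fun z hz => ?_
    simp only [PP, Finset.mem_product, Finset.mem_range] at hz
    have h3 := hq z.1 (by omega)
    have h4 := hq z.2 (by omega)
    split_ifs with h5 h6 h6
    · exact le_rfl
    · exact absurd (by linarith) h6
    · exact zero_le_one
    · exact le_rfl
  have h3 : ρ ^ 2 * cnt m q s ≤ ρ ^ 2 * cnt m q' s := mul_le_mul_of_nonneg_left hm (sq_nonneg _)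
  have h4 : ρ ^ 2 * cnt m q' s ≤ 1 :=
    (mul_le_mul_of_nonneg_left (cnt_le m q' s) (sq_nonneg _)).trans h1
  have h5 : 0 ≤ ρ ^ 2 * cnt m q s := mul_nonneg (sq_nonneg _) (cnt_nonneg _ _ _)
  have h6 := pow_sub_le N (a := 1 - ρ ^ 2 * cnt m q s) (b := 1 - ρ ^ 2 * cnt m q' s)
    (by linarith) (by linarith) (by linarith)
  show (1 - (1 - ρ ^ 2 * cnt m q' s) ^ N) - (1 - (1 - ρ ^ 2 * cnt m q s) ^ N) ≤ _
  calc _ = (1 - ρ ^ 2 * cnt m q s) ^ N - (1 - ρ ^ 2 * cnt m q' s) ^ N := by ring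
    _ ≤ _ := h6
    _ = _ := by ring

/-- the cost of a nonnegative perturbation `w` -/
lemma beta_cost (N m : ℕ) (ρ D : ℝ) (q w X : ℕ → ℝ) (h1 : ρ ^ 2 * ((m : ℝ) + 1) ^ 2 ≤ 1)
    (hw : ∀ i ≤ m, 0 ≤ w i) (hD : N * ρ ^ 2 ≤ D)
    (hX : ∀ i ≤ m, w i * ((Finset.range (m + 1)).filter
      (fun j => 0 < q i + w i + (q j + w j))).card ≤ X i) :
    beta N ρ m (fun i => q i + w i) - beta N ρ m q ≤
      2 * D * ∑ i ∈ Finset.range (m + 1), X i := by
  refine (beta_diff N m ρ q (fun i => q i + w i) h1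
    (fun i hi => by have := hw i hi; linarith)).trans ?_
  set S : ℝ := ∑ z ∈ PP m, (if 0 < q z.1 + w z.1 + (q z.2 + w z.2) then w z.1 else 0) with hS
  have hS' : S ≤ ∑ i ∈ Finset.range (m + 1), X i := by
    rw [hS, PP, Finset.sum_product]
    refine Finset.sum_le_sum fun i hi => ?_
    refine le_trans (le_of_eq ?_) (hX i (by simpa [Nat.lt_succ_iff] using hi))
    rw [Finset.card_filter]
    push_cast
    rw [Finset.mul_sum]
    exact Finset.sum_congr rfl fun j _ => by simp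
  have hS2 : ∑ z ∈ PP m, (if 0 < q z.1 + w z.1 + (q z.2 + w z.2) then w z.2 else 0) = S := by
    rw [hS, PP, Finset.sum_product_right, Finset.sum_product]
    refine Finset.sum_congr rfl fun i _ => Finset.sum_congr rfl fun j _ => ?_
    rw [add_comm (q j + w j)]
  have hS0 : 0 ≤ S := Finset.sum_nonneg fun z hz => by
    simp only [PP, Finset.mem_product, Finset.mem_range] at hz
    have := hw z.1 (by omega)
    split_ifs <;> first | exact this | exact le_rfl
  have h2 : ∑ z ∈ PP m, (max 0 ((fun i => q i + w i) z.1 + (fun i => q i + w i) z.2)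
      - max 0 (q z.1 + q z.2)) ≤ 2 * S := by
    have h2S : 2 * S = ∑ z ∈ PP m,
        ((if 0 < q z.1 + w z.1 + (q z.2 + w z.2) then w z.1 else 0) +
          (if 0 < q z.1 + w z.1 + (q z.2 + w z.2) then w z.2 else 0)) := by
      rw [Finset.sum_add_distrib, hS2, ← hS, two_mul]
    rw [h2S]
    refine Finset.sum_le_sum fun z hz => ?_
    simp only [PP, Finset.mem_product, Finset.mem_range] at hz
    have h3 := hw z.1 (by omega)
    have h4 := hw z.2 (by omega)
    simp only
    split_ifs with h5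
    · rw [max_eq_right h5.le]
      have := le_max_right 0 (q z.1 + q z.2)
      linarith
    · rw [max_eq_left (not_lt.1 h5)]
      have := le_max_left 0 (q z.1 + q z.2)
      linarith
  have h3 : 0 ≤ (N : ℝ) * ρ ^ 2 := by positivity
  calc _ ≤ N * ρ ^ 2 * (2 * S) := mul_le_mul_of_nonneg_left h2 h3
    _ ≤ D * (2 * S) := mul_le_mul_of_nonneg_right hD (by linarith)
    _ = 2 * D * S := by ring
    _ ≤ _ := mul_le_mul_of_nonneg_left hS' (by linarith)

/-! ### elementary sums -/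

lemma card_level (m : ℕ) {δ X : ℝ} (hδ : 0 < δ) (hX : 0 ≤ X) (p : ℕ → Prop) [DecidablePred p]
    (hp : ∀ j ≤ m, p j → ((j : ℝ) + 1) * δ ≤ X) :
    (((Finset.range (m + 1)).filter p).card : ℝ) * δ ≤ X := by
  have h1 : (Finset.range (m + 1)).filter p ⊆ Finset.range ⌊X / δ⌋₊ := by
    intro j hj
    rw [Finset.mem_filter, Finset.mem_range] at hj
    rw [Finset.mem_range]
    have h2 := hp j (by omega) hj.2
    have h3 : ((j + 1 : ℕ) : ℝ) ≤ X / δ := by
      rw [le_div_iff₀ hδ]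
      push_cast
      exact h2
    have := Nat.le_floor h3
    omega
  have h2 := Finset.card_le_card h1
  rw [Finset.card_range] at h2
  have h3 : (((Finset.range (m + 1)).filter p).card : ℝ) ≤ X / δ :=
    (Nat.cast_le.2 h2).trans (Nat.floor_le (by positivity))
  rwa [le_div_iff₀ hδ] at h3

lemma sum_sqrt (k : ℕ) {δ : ℝ} (hδ : 0 < δ) :
    ∑ i ∈ Finset.range k, δ / Real.sqrt (((i : ℝ) + 1) * δ) ≤ 2 * Real.sqrt (k * δ) := by
  induction k with
  | zero => simp
  | succ k ih =>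
    rw [Finset.sum_range_succ]
    push_cast
    set a := Real.sqrt ((k : ℝ) * δ) with ha
    set b := Real.sqrt (((k : ℝ) + 1) * δ) with hb
    have hk : (0 : ℝ) ≤ k := k.cast_nonneg
    have hbp : 0 < b := Real.sqrt_pos.2 (by positivity)
    have ha0 : 0 ≤ a := Real.sqrt_nonneg _
    have hab : a ≤ b := Real.sqrt_le_sqrt (by nlinarith)
    have ha2 : a ^ 2 = k * δ := Real.sq_sqrt (by positivity)
    have hb2 : b ^ 2 = (k + 1) * δ := Real.sq_sqrt (by positivity)
    have h1 : δ / b ≤ 2 * (b - a) := by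
      rw [div_le_iff₀ hbp]
      nlinarith
    linarith

/-! ### the entropy gain -/

lemma lamf_ge {δ z u : ℝ} (hδ : 0 < δ) (hu : 1 ≤ u) (hz : u * δ ≤ z) :
    δ + δ * Real.log u ≤ lamf δ z := by
  have h0 : δ ≤ z := by nlinarith
  have h1 : Real.log u ≤ Real.log (z / δ) := by
    refine Real.log_le_log (by linarith) ?_
    rwa [le_div_iff₀ hδ]
  unfold lamf
  split_ifs with h
  · have hz' : z = δ := le_antisymm h h0
    subst hz'
    have : u ≤ 1 := by
      by_contra hc
      push Not at hc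
      nlinarith
    have hu1 : u = 1 := le_antisymm this hu
    rw [hu1, Real.log_one]
    simp
  · nlinarith

lemma lamf_le {δ x : ℝ} (hδ : 0 < δ) (hx : 0 ≤ x) :
    lamf δ x ≤ δ + δ * Real.log (1 + x / δ) := by
  have h0 : 0 ≤ x / δ := by positivity
  have h1 : 0 ≤ Real.log (1 + x / δ) := Real.log_nonneg (by linarith)
  unfold lamf
  split_ifs with h
  · nlinarith
  · push Not at h
    have h2 : Real.log (x / δ) ≤ Real.log (1 + x / δ) :=
      Real.log_le_log (div_pos (hδ.trans h) hδ) (by linarith)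
    nlinarith

lemma lamf_gain {δ x u A : ℝ} (hδ : 0 < δ) (hx : 0 ≤ x) (hu : 1 ≤ u) (hA : 0 < A) :
    δ * (Real.log u - Real.log A + 1) - (δ + x) / A ≤ lamf δ (x + u * δ) - lamf δ x := by
  have h1 := lamf_ge (z := x + u * δ) hδ hu (by linarith)
  have h2 := lamf_le hδ hx
  have h0 : 0 ≤ x / δ := by positivity
  have h3 : Real.log (1 + x / δ) ≤ Real.log A + ((1 + x / δ) / A - 1) := by
    have h4 := Real.log_le_sub_one_of_pos (x := (1 + x / δ) / A) (by positivity)
    rw [Real.log_div (by positivity) hA.ne'] at h4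
    linarith
  have h5 : δ * Real.log (1 + x / δ) ≤ δ * (Real.log A + ((1 + x / δ) / A - 1)) :=
    mul_le_mul_of_nonneg_left h3 hδ.le
  have h6 : δ * (Real.log A + ((1 + x / δ) / A - 1)) = δ * (Real.log A - 1) + (δ + x) / A := by
    field_simp
    ring
  linarith

/-- sum over a block of `N` indices -/
lemma lam_gain_sum {δ s : ℝ} (q : ℕ → ℝ) (i1 N : ℕ) (hδ : 0 < δ) (hN : 0 < N)
    (hN1 : N * δ ≤ 1) (hs : 0 ≤ s) (hq : ∀ i, i1 ≤ i → i < i1 + N → q (i + 1) ≤ q i)
    (hqs : q i1 - q (i1 + N) ≤ s) :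
    N * δ * -Real.log (N * δ + s) ≤
      ∑ i ∈ Finset.Ico i1 (i1 + N), (lamf δ (q i - q (i + 1) + 1 / N) - lamf δ (q i - q (i + 1))) := by
  have hNr : (0 : ℝ) < N := by exact_mod_cast hN
  have hNd : 0 < N * δ := by positivity
  set u : ℝ := 1 / (N * δ) with hu
  have hu1 : 1 ≤ u := by rw [hu, le_div_iff₀ hNd]; linarith
  have huδ : u * δ = 1 / N := by rw [hu]; field_simp
  set A : ℝ := 1 + u * s with hA
  have hA0 : 0 < A := by positivity
  have h1 : ∀ i ∈ Finset.Ico i1 (i1 + N),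
      δ * (Real.log u - Real.log A + 1) - (δ + (q i - q (i + 1))) / A ≤
      lamf δ (q i - q (i + 1) + 1 / N) - lamf δ (q i - q (i + 1)) := by
    intro i hi
    rw [Finset.mem_Ico] at hi
    have := hq i hi.1 hi.2
    rw [← huδ]
    exact lamf_gain hδ (by linarith) hu1 hA0
  refine le_trans ?_ (Finset.sum_le_sum h1)
  rw [Finset.sum_sub_distrib, ← Finset.sum_div, Finset.sum_add_distrib]
  have h2 : ∑ i ∈ Finset.Ico i1 (i1 + N), (q i - q (i + 1)) = q i1 - q (i1 + N) := by
    rw [Finset.sum_Ico_eq_sum_range]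
    have h3 := Finset.sum_range_sub' (fun k => q (i1 + k)) (i1 + N - i1)
    simp only [add_zero, Nat.add_sub_cancel_left] at h3 ⊢
    rw [← h3]
    rfl
  rw [h2]
  simp only [Finset.sum_const, Nat.card_Ico, Nat.add_sub_cancel_left, nsmul_eq_mul]
  have h3 : (N * δ + (q i1 - q (i1 + N))) / A ≤ N * δ := by
    rw [div_le_iff₀ hA0, hA, hu]
    have : N * δ * (1 + 1 / (N * δ) * s) = N * δ + s := by field_simp
    rw [this]
    linarith
  have h4 : Real.log u - Real.log A = -Real.log (N * δ + s) := by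
    rw [← Real.log_div (by positivity) hA0.ne', ← Real.log_inv]
    congr 1
    rw [hA, hu]
    field_simp
  have h5 : (N : ℝ) * (δ * (Real.log u - Real.log A + 1)) =
      N * δ * -Real.log (N * δ + s) + N * δ := by
    rw [← h4]; ring
  rw [h5]
  linarith

/-! ### the ramp -/

/-- `1` up to `i1`, then decreasing to `0` at `i1 + N` -/
noncomputable def ramp (i1 N : ℕ) (i : ℕ) : ℝ := min 1 (max 0 ((((i1 : ℝ) + N) - i) / N))

lemma ramp_nonneg (i1 N i : ℕ) : 0 ≤ ramp i1 N i := by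
  unfold ramp
  exact le_min zero_le_one (le_max_left _ _)

lemma ramp_le_one (i1 N i : ℕ) : ramp i1 N i ≤ 1 := min_le_left _ _

lemma ramp_succ_le (i1 N i : ℕ) : ramp i1 N (i + 1) ≤ ramp i1 N i := by
  unfold ramp
  refine min_le_min le_rfl (max_le_max le_rfl ?_)
  refine div_le_div_of_nonneg_right ?_ N.cast_nonneg
  push_cast
  linarith

lemma ramp_eq_one {i1 N i : ℕ} (hN : 0 < N) (h : i ≤ i1) : ramp i1 N i = 1 := by
  have hNr : (0 : ℝ) < N := by exact_mod_cast hN
  have hi : (i : ℝ) ≤ i1 := by exact_mod_cast h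
  have : (1 : ℝ) ≤ ((i1 : ℝ) + N - i) / N := by
    rw [le_div_iff₀ hNr]; linarith
  unfold ramp
  rw [max_eq_right (by linarith), min_eq_left this]

lemma ramp_eq_zero {i1 N i : ℕ} (h : i1 + N ≤ i) : ramp i1 N i = 0 := by
  have hi : (i1 : ℝ) + N ≤ i := by exact_mod_cast h
  have : ((i1 : ℝ) + N - i) / N ≤ 0 := div_nonpos_of_nonpos_of_nonneg (by linarith) N.cast_nonneg
  unfold ramp
  rw [max_eq_left this, min_eq_right zero_le_one]

lemma ramp_mid {i1 N i : ℕ} (hN : 0 < N) (h1 : i1 ≤ i) (h2 : i ≤ i1 + N) :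
    ramp i1 N i = ((i1 : ℝ) + N - i) / N := by
  have hNr : (0 : ℝ) < N := by exact_mod_cast hN
  have hi : (i1 : ℝ) ≤ i := by exact_mod_cast h1
  have hi2 : (i : ℝ) ≤ i1 + N := by exact_mod_cast h2
  have h3 : ((i1 : ℝ) + N - i) / N ≤ 1 := by
    rw [div_le_iff₀ hNr]; linarith
  have h4 : 0 ≤ ((i1 : ℝ) + N - i) / N := div_nonneg (by linarith) hNr.le
  unfold ramp
  rw [max_eq_right h4, min_eq_right h3]

lemma ramp_diff_mid {i1 N i : ℕ} (hN : 0 < N) (h1 : i1 ≤ i) (h2 : i < i1 + N) :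
    ramp i1 N i - ramp i1 N (i + 1) = 1 / N := by
  have hNr : (0 : ℝ) < N := by exact_mod_cast hN
  rw [ramp_mid hN h1 h2.le, ramp_mid hN (by omega) (by omega)]
  push_cast
  field_simp
  ring

lemma ramp_diff_out {i1 N i : ℕ} (hN : 0 < N) (h : i < i1 ∨ i1 + N ≤ i) :
    ramp i1 N i - ramp i1 N (i + 1) = 0 := by
  rcases h with h | h
  · rw [ramp_eq_one hN h.le, ramp_eq_one hN (by omega)]; ring
  · rw [ramp_eq_zero h, ramp_eq_zero (by omega)]; ring

/-- gain in `Lam` -/
lemma Lam_gain {δ s : ℝ} (m : ℕ) (q : ℕ → ℝ) (i1 N : ℕ) (hδ : 0 < δ) (hN : 0 < N)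
    (hN1 : N * δ ≤ 1) (hs : 0 ≤ s) (hm : i1 + N ≤ m) (hq : ∀ i < m, q (i + 1) ≤ q i)
    (hqs : q i1 - q (i1 + N) ≤ s) :
    N * δ * -Real.log (N * δ + s) ≤ Lam δ m (fun i => q i + ramp i1 N i) - Lam δ m q := by
  refine (lam_gain_sum q i1 N hδ hN hN1 hs (fun i _ h2 => hq i (by omega)) hqs).trans ?_
  unfold Lam
  have h1 : (∑ i ∈ Finset.range m, lamf δ (q i + ramp i1 N i - (q (i + 1) + ramp i1 N (i + 1)))
      + (q m + ramp i1 N m)) - (∑ i ∈ Finset.range m, lamf δ (q i - q (i + 1)) + q m) =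
      ∑ i ∈ Finset.range m, (lamf δ (q i + ramp i1 N i - (q (i + 1) + ramp i1 N (i + 1)))
        - lamf δ (q i - q (i + 1))) + ramp i1 N m := by
    rw [Finset.sum_sub_distrib]; ring
  simp only
  rw [h1, ramp_eq_zero hm, add_zero]
  refine le_of_eq ?_
  have hsub : Finset.Ico i1 (i1 + N) ⊆ Finset.range m := by
    intro i hi
    rw [Finset.mem_Ico] at hi
    rw [Finset.mem_range]
    omega
  rw [← Finset.sum_subset hsub]
  · refine Finset.sum_congr rfl fun i hi => ?_
    rw [Finset.mem_Ico] at hi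
    have h2 := ramp_diff_mid hN hi.1 hi.2
    have h3 : q i + ramp i1 N i - (q (i + 1) + ramp i1 N (i + 1)) = q i - q (i + 1) + 1 / N := by
      rw [← h2]; ring
    rw [h3]
  · intro i _ hi
    rw [Finset.mem_Ico, not_and_or, not_le, not_lt] at hi
    have h2 := ramp_diff_out hN hi
    have h3 : q i + ramp i1 N i - (q (i + 1) + ramp i1 N (i + 1)) = q i - q (i + 1) := by
      linarith
    rw [h3, sub_self]

end TailPosAux

open TailPosAux

theorem stTailPos : StTailPos := by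
  intro C0 c1 T0 hC0 hc1 hT0
  set CC : ℝ := 16 * C0 + 4 * T0 + 16 with hCC
  have hCC0 : 0 < CC := by positivity
  set η : ℝ := Real.exp (-(4 * (CC + 1))) with hη
  have hη0 : 0 < η := Real.exp_pos _
  set e1 : ℝ := min (min c1 1) (η / 2) with he1
  have he10 : 0 < e1 := lt_min (lt_min hc1 one_pos) (by positivity)
  have he1c : e1 ≤ c1 := (min_le_left _ _).trans (min_le_left _ _)
  have he11 : e1 ≤ 1 := (min_le_left _ _).trans (min_le_right _ _)
  have he1η : e1 ≤ η / 2 := min_le_right _ _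
  set L : ℕ := ⌈2 * T0 / η⌉₊ + 1 with hL
  have hL0 : 0 < L := by omega
  have hLr : (0 : ℝ) < L := by exact_mod_cast hL0
  have hTL : T0 / L ≤ η / 2 := by
    rw [div_le_iff₀ hLr]
    have h1 : 2 * T0 / η ≤ L := by
      rw [hL]
      push_cast
      exact (Nat.le_ceil _).trans (by linarith)
    rw [div_le_iff₀ hη0] at h1
    linarith
  set ee : ℕ → ℝ := fun l => e1 / 2 ^ l with hee
  have hee0 : ∀ l, 0 < ee l := fun l => by simp only [hee]; positivity
  have heeS : ∀ l, ee (l + 1) = ee l / 2 := fun l => by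
    simp only [hee, pow_succ]; field_simp
  have heeA : ∀ k l, k ≤ l → ee l ≤ ee k := by
    intro k l hkl
    simp only [hee]
    exact div_le_div_of_nonneg_left he10.le (by positivity)
      (pow_le_pow_right₀ (by norm_num) hkl)
  have hee1 : ∀ l, ee l ≤ e1 := fun l => by
    have := heeA 0 l (Nat.zero_le _)
    simpa [hee] using this
  have heL : 0 < ee L := hee0 L
  have heL1 : ee L ≤ 1 := (hee1 L).trans he11
  refine ⟨ee L ^ 2, ee L, by positivity, heL, ?_⟩
  have hδev : ∀ᶠ δ in 𝓝[>] (0 : ℝ), 0 < δ ∧ δ ≤ ee L / 4 := by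
    filter_upwards [self_mem_nhdsWithin, Ioo_mem_nhdsGT (show (0 : ℝ) < ee L / 4 by positivity)]
      with δ h1 h2
    exact ⟨h1, h2.2.le⟩
  filter_upwards [hδev] with δ hδ
  obtain ⟨hδ, hδL⟩ := hδ
  have hδ1 : δ ≤ 1 := by linarith
  -- `n` large
  have hnev : ∀ᶠ n : ℕ in atTop, 1 ≤ n ∧ (((md δ : ℝ) + 1) * δ) ^ 2 ≤ n := by
    filter_upwards [eventually_ge_atTop (⌈(((md δ : ℝ) + 1) * δ) ^ 2⌉₊ + 1)] with n hn
    refine ⟨by omega, (Nat.le_ceil _).trans ?_⟩
    exact_mod_cast (Nat.le_succ _).trans hn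
  filter_upwards [hnev] with n hn
  obtain ⟨hn1, hn2⟩ := hn
  intro q hq hopt i0 hi0m hi0γ
  by_contra hqT
  push Not at hqT
  obtain ⟨⟨hq1, hq2, hq3, hq4, hq5, hq6, hq7⟩, hq8⟩ := hq
  have hmd : ∀ x : ℝ, x ≤ 1 → x / δ ≤ md δ := by
    intro x hx
    have h1 : 1 / δ ^ 2 ≤ md δ := Nat.le_ceil _
    refine le_trans ?_ h1
    rw [div_le_div_iff₀ hδ (by positivity)]
    nlinarith
  -- monotonicity
  have hanti : ∀ i j, i ≤ j → j ≤ md δ → q j ≤ q i := by
    intro i j hij
    induction j, hij using Nat.le_induction with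
    | base => intro _; exact le_rfl
    | succ j hij ih => intro hj; exact (hq1 j (by omega)).trans (ih (by omega))
  -- the indices
  set jj : ℕ → ℕ := fun l => ⌊ee l / δ⌋₊ with hjj
  have hjle : ∀ l, (jj l : ℝ) * δ ≤ ee l := by
    intro l
    have := Nat.floor_le (show 0 ≤ ee l / δ by have := hee0 l; positivity)
    rwa [le_div_iff₀ hδ] at this
  have hjgt : ∀ l, ee l - δ < (jj l : ℝ) * δ := by
    intro l
    have h1 := Nat.lt_floor_add_one (ee l / δ)
    rw [div_lt_iff₀ hδ] at h1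
    have h2 : ((jj l : ℝ) + 1) * δ = jj l * δ + δ := by ring
    simp only [hjj] at h2 ⊢
    linarith
  have hjm : ∀ l, jj l ≤ md δ := by
    intro l
    have h1 : (jj l : ℝ) ≤ md δ := (Nat.floor_le (by have := hee0 l; positivity)).trans
      (hmd _ ((hee1 l).trans he11))
    exact_mod_cast h1
  have hjpos : ∀ l ≤ L, 0 < jj l := by
    intro l hl
    have h1 := hjgt l
    have h2 := heeA l L hl
    by_contra hc
    have : jj l = 0 := by omega
    rw [this] at h1
    push_cast at h1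
    linarith
  have hjanti : ∀ l, jj (l + 1) ≤ jj l := fun l =>
    Nat.floor_le_floor (div_le_div_of_nonneg_right (heeA l (l + 1) (Nat.le_succ l)) hδ.le)
  have hi0L : i0 + 1 ≤ jj L := by
    refine Nat.le_floor ?_
    rw [le_div_iff₀ hδ]
    push_cast
    refine hi0γ.trans ?_
    nlinarith
  -- pigeonhole
  obtain ⟨l, hl, hql⟩ : ∃ l < L, q (jj (l + 1) - 1) - q (jj l - 1) ≤ T0 / L := by
    by_contra hc
    push Not at hc
    have h1 : ∑ l ∈ Finset.range L, T0 / L <
        ∑ l ∈ Finset.range L, (q (jj (l + 1) - 1) - q (jj l - 1)) :=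
      Finset.sum_lt_sum_of_nonempty ⟨0, Finset.mem_range.2 hL0⟩
        fun l hl => hc l (Finset.mem_range.1 hl)
    rw [Finset.sum_range_sub (fun l => q (jj l - 1)), Finset.sum_const, Finset.card_range,
      nsmul_eq_mul, mul_div_cancel₀ _ hLr.ne'] at h1
    have h2 : q (jj L - 1) ≤ q i0 := hanti _ _ (by omega) (by have := hjm L; omega)
    have h3 : c1 ≤ q (jj 0 - 1) := by
      refine hq8 _ (by have := hjm 0; omega) ?_
      have h4 : ((jj 0 - 1 : ℕ) : ℝ) + 1 = jj 0 := by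
        have := hjpos 0 (Nat.zero_le _)
        rw [Nat.cast_sub (by omega)]
        push_cast
        ring
      rw [h4]
      exact (hjle 0).trans ((hee1 0).trans he1c)
    linarith
  set i1 : ℕ := jj (l + 1) - 1 with hi1
  set N : ℕ := jj l - jj (l + 1) with hN
  have hjl1 : 0 < jj (l + 1) := hjpos _ (by omega)
  have hjl0 : 0 < jj l := hjpos _ (by omega)
  have hi2 : i1 + N = jj l - 1 := by have := hjanti l; omega
  have hNr : (N : ℝ) = jj l - jj (l + 1) := by rw [hN, Nat.cast_sub (hjanti l)]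
  have hNlow : ee l / 4 ≤ N * δ := by
    have h1 := hjgt l
    have h2 := hjle (l + 1)
    have h3 := heeS l
    have h4 := heeA l L (by omega)
    rw [hNr]
    have h5 : ((jj l : ℝ) - jj (l + 1)) * δ = jj l * δ - jj (l + 1) * δ := by ring
    rw [h5]
    linarith
  have hNup : N * δ ≤ ee l := by
    have h1 := hjle l
    have h2 : (0 : ℝ) ≤ jj (l + 1) * δ := by positivity
    rw [hNr]
    have h5 : ((jj l : ℝ) - jj (l + 1)) * δ = jj l * δ - jj (l + 1) * δ := by ring
    rw [h5]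
    linarith
  have hN0 : 0 < N := by
    by_contra hc
    have h1 : N = 0 := by omega
    rw [h1] at hNlow
    push_cast at hNlow
    have := hee0 l
    linarith
  have hel1 : ee l ≤ 1 := (hee1 l).trans he11
  have hi2m : i1 + N ≤ md δ := by have := hjm l; omega
  have hi2δ : ((i1 + N : ℕ) : ℝ) * δ ≤ ee l := by
    have h1 := hjle l
    have h2 : ((i1 + N : ℕ) : ℝ) ≤ jj l := by exact_mod_cast (by omega : i1 + N ≤ jj l)
    exact (mul_le_mul_of_nonneg_right h2 hδ.le).trans h1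
  have hi0i1 : i0 ≤ i1 := by
    have h1 : jj L ≤ jj (l + 1) := by
      refine Nat.floor_le_floor (div_le_div_of_nonneg_right (heeA (l + 1) L (by omega)) hδ.le)
    omega
  have hqs : q i1 - q (i1 + N) ≤ T0 / L := by rw [hi2]; exact hql
  -- gain
  have hgain := Lam_gain (s := T0 / L) (md δ) q i1 N hδ hN0 (hNup.trans hel1) (by positivity) hi2m
    hq1 hqs
  have hlog : 4 * (CC + 1) ≤ -Real.log (N * δ + T0 / L) := by
    have h1 : N * δ + T0 / L ≤ η := by
      have := hee1 l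
      linarith
    have h2 : 0 < N * δ + T0 / L := by positivity
    have h3 := Real.log_le_log h2 h1
    rw [hη, Real.log_exp] at h3
    linarith
  have hgain2 : (CC + 1) * ee l ≤ N * δ * -Real.log (N * δ + T0 / L) := by
    calc (CC + 1) * ee l = ee l / 4 * (4 * (CC + 1)) := by ring
      _ ≤ N * δ * (4 * (CC + 1)) := mul_le_mul_of_nonneg_right hNlow (by positivity)
      _ ≤ _ := mul_le_mul_of_nonneg_left hlog (by positivity)
  -- cost
  have hrr : (rr n) ^ 2 = 1 / n := by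
    unfold rr
    rw [div_pow, one_pow, Real.sq_sqrt n.cast_nonneg]
  have hn0 : (0 : ℝ) < n := by exact_mod_cast hn1
  have hρ : (δ * rr n) ^ 2 * ((md δ : ℝ) + 1) ^ 2 ≤ 1 := by
    have h1 : (δ * rr n) ^ 2 * ((md δ : ℝ) + 1) ^ 2 = (((md δ : ℝ) + 1) * δ) ^ 2 / n := by
      rw [mul_pow δ, hrr]; ring
    rw [h1, div_le_one hn0]
    exact hn2
  have hD : ((n - 2 : ℕ) : ℝ) * (δ * rr n) ^ 2 ≤ δ ^ 2 := by
    rw [mul_pow δ, hrr]
    have h1 : ((n - 2 : ℕ) : ℝ) ≤ n := by exact_mod_cast Nat.sub_le n 2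
    calc ((n - 2 : ℕ) : ℝ) * (δ ^ 2 * (1 / n)) ≤ n * (δ ^ 2 * (1 / n)) :=
          mul_le_mul_of_nonneg_right h1 (by positivity)
      _ = δ ^ 2 := by field_simp
  have hqpos : ∀ i < i1 + N, c1 ≤ q i := by
    intro i hi
    refine hq8 i (by omega) ?_
    have h1 : ((i : ℝ) + 1) ≤ ((i1 + N : ℕ) : ℝ) := by exact_mod_cast hi
    exact (mul_le_mul_of_nonneg_right h1 hδ.le).trans (hi2δ.trans ((hee1 l).trans he1c))
  have hcost := beta_cost (n - 2) (md δ) (δ * rr n) (δ ^ 2) q (ramp i1 N)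
    (fun i => if i < i1 + N then 2 * (C0 + q i + 2) / δ else 0) hρ
    (fun i _ => ramp_nonneg i1 N i) hD (by
      intro i him
      by_cases hi : i < i1 + N
      · simp only [if_pos hi]
        have hqi := hqpos i hi
        have hcard := card_level (md δ) (X := 2 * (C0 + q i + 2)) hδ (by linarith)
          (fun j => 0 < q i + ramp i1 N i + (q j + ramp i1 N j)) (by
            intro j hj hp
            have h1 := ramp_le_one i1 N i
            have h2 := ramp_le_one i1 N j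
            by_cases hj1 : 1 ≤ ((j : ℝ) + 1) * δ
            · have h3 := hq4 j hj hj1
              linarith
            · push Not at hj1
              linarith)
        rw [le_div_iff₀ hδ]
        refine le_trans ?_ hcard
        have h1 := ramp_le_one i1 N i
        have h2 := ramp_nonneg i1 N i
        rw [mul_assoc]
        exact mul_le_of_le_one_left (by positivity) h1
      · simp only [if_neg hi]
        rw [ramp_eq_zero (not_lt.1 hi), zero_mul])
  have hsum : 2 * δ ^ 2 * ∑ i ∈ Finset.range (md δ + 1),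
      (if i < i1 + N then 2 * (C0 + q i + 2) / δ else 0) ≤ CC * ee l := by
    have h1 : ∑ i ∈ Finset.range (md δ + 1),
        (if i < i1 + N then 2 * (C0 + q i + 2) / δ else 0) =
        ∑ i ∈ Finset.range (i1 + N), 2 * (C0 + q i + 2) / δ := by
      rw [← Finset.sum_filter]
      congr 1
      ext i
      simp only [Finset.mem_filter, Finset.mem_range]
      omega
    rw [h1, Finset.mul_sum]
    have h2 : ∀ i ∈ Finset.range (i1 + N), 2 * δ ^ 2 * (2 * (C0 + q i + 2) / δ) ≤
        4 * (C0 + 2 + T0) * δ +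
          (if i < i0 then 4 * C0 * (δ / Real.sqrt (((i : ℝ) + 1) * δ)) else 0) := by
      intro i hi
      rw [Finset.mem_range] at hi
      have h3 : 2 * δ ^ 2 * (2 * (C0 + q i + 2) / δ) = 4 * (C0 + 2 + q i) * δ := by
        field_simp
        ring
      rw [h3]
      split_ifs with h4
      · have h5 := hq3 i (by omega)
        have h6 : 4 * C0 * (δ / Real.sqrt (((i : ℝ) + 1) * δ)) =
            4 * (C0 / Real.sqrt (((i : ℝ) + 1) * δ)) * δ := by ring
        rw [h6]
        have h7 : 4 * (C0 + 2 + q i) * δ ≤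
            4 * (C0 + 2 + C0 / Real.sqrt (((i : ℝ) + 1) * δ)) * δ := by
          refine mul_le_mul_of_nonneg_right ?_ hδ.le
          linarith
        nlinarith [mul_pos hT0 hδ]
      · have h5 : q i ≤ T0 := (hanti i0 i (by omega) (by omega)).trans hqT.le
        rw [add_zero]
        refine mul_le_mul_of_nonneg_right ?_ hδ.le
        linarith
    refine (Finset.sum_le_sum h2).trans ?_
    rw [Finset.sum_add_distrib, Finset.sum_const, Finset.card_range, nsmul_eq_mul]
    have h3 : ∑ i ∈ Finset.range (i1 + N),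
        (if i < i0 then 4 * C0 * (δ / Real.sqrt (((i : ℝ) + 1) * δ)) else 0) =
        4 * C0 * ∑ i ∈ Finset.range i0, δ / Real.sqrt (((i : ℝ) + 1) * δ) := by
      rw [← Finset.sum_filter, Finset.mul_sum]
      congr 1
      ext i
      simp only [Finset.mem_filter, Finset.mem_range]
      omega
    rw [h3]
    have h4 := sum_sqrt i0 hδ
    have h5 : Real.sqrt (i0 * δ) ≤ ee L := by
      rw [← Real.sqrt_sq heL.le]
      refine Real.sqrt_le_sqrt ?_
      nlinarith
    have h6 : ee L ≤ ee l := heeA l L (by omega)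
    have h7 : ((i1 + N : ℕ) : ℝ) * (4 * (C0 + 2 + T0) * δ) ≤ 4 * (C0 + 2 + T0) * ee l := by
      calc ((i1 + N : ℕ) : ℝ) * (4 * (C0 + 2 + T0) * δ)
          = 4 * (C0 + 2 + T0) * (((i1 + N : ℕ) : ℝ) * δ) := by ring
        _ ≤ _ := mul_le_mul_of_nonneg_left hi2δ (by positivity)
    have h8 : 4 * C0 * ∑ i ∈ Finset.range i0, δ / Real.sqrt (((i : ℝ) + 1) * δ) ≤
        4 * C0 * (2 * ee l) :=
      mul_le_mul_of_nonneg_left (by linarith) (by positivity)
    have h9 := hee0 l
    rw [hCC]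
    nlinarith [mul_pos (show (0 : ℝ) < C0 by linarith) h9]
  -- contradiction
  have hJ := hopt (fun i => q i + ramp i1 N i)
    (fun i hi => by
      have h1 := hq1 i hi
      have h2 := ramp_succ_le i1 N i
      show q (i + 1) + ramp i1 N (i + 1) ≤ q i + ramp i1 N i
      linarith)
    (fun i hi => by
      have h1 := hq2 i hi
      have h2 := ramp_nonneg i1 N i
      have h3 := ramp_le_one i1 N i
      show |q i + ramp i1 N i| ≤ Kd δ + 1
      rw [abs_le] at h1 ⊢
      constructor <;> linarith)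
    (by
      have h2 := ramp_le_one i1 N 0
      have h3 := ramp_le_one i1 N (md δ)
      show q 0 + ramp i1 N 0 + (q (md δ) + ramp i1 N (md δ)) ≤ 0
      linarith)
  unfold Jn at hJ
  have h1 : ee L < ee l := by
    have h2 := heeA (l + 1) L (by omega)
    have h3 := heeS l
    have h4 := hee0 l
    linarith
  linarith

end Pool.Agent.Lib.MP_193d8d_pr
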