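import Pool.Agent.Lib.MP_193d8d_pr.StA
import Pool.Agent.Lib.MP_193d8d_pr.StB
import Pool.Agent.Lib.MP_193d8d_pr.Base

set_option autoImplicit false
open MeasureTheory Set Filter Topology

namespace Pool.Agent.Lib.MP_193d8d_pr

namespace TripleAux

theorem tri (a b c : ℝ) : min 1 |a| ≤ min 1 |a + b| + min 1 |a + c| + min 1 |b + c| := by
  have h0 : ∀ x : ℝ, 0 ≤ min 1 |x| := fun x => le_min zero_le_one (abs_nonneg x)
  have h1 := h0 (a + b)
  have h2 := h0 (a + c)
  have h3 := h0 (b + c)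
  by_cases c1 : 1 ≤ |a + b|
  · have : min 1 |a + b| = 1 := min_eq_left c1
    have h4 := min_le_left 1 |a|
    linarith
  by_cases c2 : 1 ≤ |a + c|
  · have : min 1 |a + c| = 1 := min_eq_left c2
    have h4 := min_le_left 1 |a|
    linarith
  by_cases c3 : 1 ≤ |b + c|
  · have : min 1 |b + c| = 1 := min_eq_left c3
    have h4 := min_le_left 1 |a|
    linarith
  rw [min_eq_right (not_le.1 c1).le, min_eq_right (not_le.1 c2).le,
    min_eq_right (not_le.1 c3).le]
  refine (min_le_right _ _).trans ?_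
  rw [abs_le]
  have e1 := abs_le.1 (le_refl |a + b|)
  have e2 := abs_le.1 (le_refl |a + c|)
  have e3 := abs_le.1 (le_refl |b + c|)
  have f1 := abs_nonneg (a + b)
  have f2 := abs_nonneg (a + c)
  have f3 := abs_nonneg (b + c)
  constructor
  · linarith [e1.1, e1.2, e2.1, e2.2, e3.1, e3.2]
  · linarith [e1.1, e1.2, e2.1, e2.2, e3.1, e3.2]

section Sum

variable {α : Type} [DecidableEq α] (F : Finset α)

theorem inner (m : α → α → ℝ) (x y : α) (hx : x ∈ F) (hy : y ∈ F) :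
    ∑ z ∈ F, (if x ≠ y ∧ x ≠ z ∧ y ≠ z then m x y else 0) =
      if x ≠ y then ((F.card : ℝ) - 2) * m x y else 0 := by
  by_cases hxy : x ≠ y
  · rw [if_pos hxy]
    have h1 : ∀ z ∈ F, (if x ≠ y ∧ x ≠ z ∧ y ≠ z then m x y else 0) =
        if z ∈ (F.erase x).erase y then m x y else 0 := by
      intro z hz
      by_cases h : z ∈ (F.erase x).erase y
      · rw [if_pos h, if_pos]
        rw [Finset.mem_erase, Finset.mem_erase] at h
        exact ⟨hxy, h.2.1.symm, h.1.symm⟩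
      · rw [if_neg h, if_neg]
        intro hcon
        exact h (by
          rw [Finset.mem_erase, Finset.mem_erase]
          exact ⟨hcon.2.2.symm, hcon.2.1.symm, hz⟩)
    rw [Finset.sum_congr rfl h1, ← Finset.sum_filter, Finset.sum_const]
    have h2 : F.filter (fun z => z ∈ (F.erase x).erase y) = (F.erase x).erase y := by
      ext z
      rw [Finset.mem_filter]
      constructor
      · exact fun h => h.2
      · intro h
        exact ⟨Finset.mem_of_mem_erase (Finset.mem_of_mem_erase h), h⟩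
    rw [h2, nsmul_eq_mul]
    congr 1
    have hy' : y ∈ F.erase x := Finset.mem_erase.2 ⟨hxy.symm, hy⟩
    have c1 := Finset.card_erase_add_one hx
    have c2 := Finset.card_erase_add_one hy'
    have c3 : (F.card : ℝ) = (((F.erase x).erase y).card : ℝ) + 1 + 1 := by
      rw [← c1, ← c2]
      push_cast
      ring
    rw [c3]
    ring
  · rw [if_neg hxy]
    refine Finset.sum_eq_zero fun z _ => ?_
    rw [if_neg]
    exact fun h => hxy h.1

/-- the sum over the ordered pairs of different elements -/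
def PP (m : α → α → ℝ) : ℝ := ∑ x ∈ F, ∑ y ∈ F, if x ≠ y then m x y else 0

theorem T1 (m : α → α → ℝ) :
    ∑ x ∈ F, ∑ y ∈ F, ∑ z ∈ F, (if x ≠ y ∧ x ≠ z ∧ y ≠ z then m x y else 0) =
      ((F.card : ℝ) - 2) * PP F m := by
  unfold PP
  rw [Finset.mul_sum]
  refine Finset.sum_congr rfl fun x hx => ?_
  rw [Finset.mul_sum]
  refine Finset.sum_congr rfl fun y hy => ?_
  rw [inner F m x y hx hy]
  split_ifs
  · rfl
  · rw [mul_zero]

theorem T2 (m : α → α → ℝ) :
    ∑ x ∈ F, ∑ y ∈ F, ∑ z ∈ F, (if x ≠ y ∧ x ≠ z ∧ y ≠ z then m x z else 0) =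
      ((F.card : ℝ) - 2) * PP F m := by
  rw [← T1 F m]
  refine Finset.sum_congr rfl fun x _ => ?_
  rw [Finset.sum_comm]
  refine Finset.sum_congr rfl fun z _ => Finset.sum_congr rfl fun y _ => ?_
  refine if_congr ?_ rfl rfl
  constructor
  · rintro ⟨a, b, c⟩
    exact ⟨b, a, c.symm⟩
  · rintro ⟨a, b, c⟩
    exact ⟨b, a, c.symm⟩

theorem T3 (m : α → α → ℝ) :
    ∑ x ∈ F, ∑ y ∈ F, ∑ z ∈ F, (if x ≠ y ∧ x ≠ z ∧ y ≠ z then m y z else 0) =
      ((F.card : ℝ) - 2) * PP F m := by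
  rw [← T1 F m]
  rw [Finset.sum_comm]
  refine Finset.sum_congr rfl fun y _ => ?_
  rw [Finset.sum_comm]
  refine Finset.sum_congr rfl fun z _ => Finset.sum_congr rfl fun x _ => ?_
  refine if_congr ?_ rfl rfl
  constructor
  · rintro ⟨a, b, c⟩
    exact ⟨c, a.symm, b.symm⟩
  · rintro ⟨a, b, c⟩
    exact ⟨b.symm, c.symm, a⟩

theorem T0 (g : α → ℝ) :
    ∑ x ∈ F, ∑ y ∈ F, ∑ z ∈ F, (if x ≠ y ∧ x ≠ z ∧ y ≠ z then g x else 0) =
      ((F.card : ℝ) - 1) * ((F.card : ℝ) - 2) * ∑ x ∈ F, g x := by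
  rw [T1 F (fun x _ => g x)]
  unfold PP
  rw [Finset.mul_sum, Finset.mul_sum]
  refine Finset.sum_congr rfl fun x hx => ?_
  have h : ∑ y ∈ F, (if x ≠ y then g x else 0) = ((F.card : ℝ) - 1) * g x := by
    rw [← Finset.sum_filter, Finset.sum_const, nsmul_eq_mul]
    congr 1
    have h1 : F.filter (fun y => x ≠ y) = F.erase x := by
      ext y
      rw [Finset.mem_filter, Finset.mem_erase]
      tauto
    rw [h1]
    have c1 := Finset.card_erase_add_one hx
    have c2 : (F.card : ℝ) = ((F.erase x).card : ℝ) + 1 := by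
      rw [← c1]
      push_cast
      ring
    rw [c2]
    ring
  rw [h]
  ring

theorem main (s : α → ℝ) (hF : 3 ≤ F.card) :
    ((F.card : ℝ) - 1) * ∑ x ∈ F, min 1 |s x| ≤
      3 * PP F (fun x y => min 1 |s x + s y|) := by
  have e0 := T0 F (fun x => min 1 |s x|)
  have e1 := T1 F (fun x y => min 1 |s x + s y|)
  have e2 := T2 F (fun x y => min 1 |s x + s y|)
  have e3 := T3 F (fun x y => min 1 |s x + s y|)
  have h : ∑ x ∈ F, ∑ y ∈ F, ∑ z ∈ F, (if x ≠ y ∧ x ≠ z ∧ y ≠ z then min 1 |s x| else 0) ≤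
      (∑ x ∈ F, ∑ y ∈ F, ∑ z ∈ F,
        (if x ≠ y ∧ x ≠ z ∧ y ≠ z then min 1 |s x + s y| else 0)) +
      (∑ x ∈ F, ∑ y ∈ F, ∑ z ∈ F,
        (if x ≠ y ∧ x ≠ z ∧ y ≠ z then min 1 |s x + s z| else 0)) +
      (∑ x ∈ F, ∑ y ∈ F, ∑ z ∈ F,
        (if x ≠ y ∧ x ≠ z ∧ y ≠ z then min 1 |s y + s z| else 0)) := by
    simp only [← Finset.sum_add_distrib]
    refine Finset.sum_le_sum fun x _ => Finset.sum_le_sum fun y _ =>
      Finset.sum_le_sum fun z _ => ?_
    split_ifs
    · exact tri (s x) (s y) (s z)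
    · norm_num
  have hc : (3 : ℝ) ≤ F.card := by exact_mod_cast hF
  have hc2 : (0 : ℝ) < (F.card : ℝ) - 2 := by linarith
  rw [e0, e1, e2, e3] at h
  have h2 : ((F.card : ℝ) - 2) * (((F.card : ℝ) - 1) * ∑ x ∈ F, min 1 |s x|) ≤
      ((F.card : ℝ) - 2) * (3 * PP F (fun x y => min 1 |s x + s y|)) := by
    linarith
  exact le_of_mul_le_mul_left h2 hc2

end Sum

theorem PP_eq {n : ℕ} (F : Finset (Fin n)) (m : Fin n → Fin n → ℝ) (hm : ∀ x y, m x y = m y x) :
    PP F m = 2 * ∑ y ∈ F, ∑ x ∈ F, (if x < y then m x y else 0) := by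
  have h1 : PP F m = (∑ x ∈ F, ∑ y ∈ F, (if x < y then m x y else 0)) +
      ∑ x ∈ F, ∑ y ∈ F, (if y < x then m x y else 0) := by
    unfold PP
    simp only [← Finset.sum_add_distrib]
    refine Finset.sum_congr rfl fun x _ => Finset.sum_congr rfl fun y _ => ?_
    rcases lt_trichotomy x y with h | h | h
    · rw [if_pos h.ne, if_pos h, if_neg h.le.not_gt, add_zero]
    · subst h
      simp
    · rw [if_pos h.ne', if_neg h.le.not_gt, if_pos h, zero_add]
  have h2 : ∑ x ∈ F, ∑ y ∈ F, (if y < x then m x y else 0) =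
      ∑ y ∈ F, ∑ x ∈ F, (if x < y then m x y else 0) := by
    refine Finset.sum_congr rfl fun x _ => Finset.sum_congr rfl fun y _ => ?_
    rw [hm]
  rw [h1, h2, Finset.sum_comm]
  ring

end TripleAux

open TripleAux in
theorem stTriple : StTriple := by
  intro n s k hk
  set F : Finset (Fin n) := Finset.univ.filter (fun i => i < k) with hF
  have hcard : F.card = (k : ℕ) := by
    have : F = Finset.Iio k := by
      ext i
      rw [hF, Finset.mem_filter, Finset.mem_Iio]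
      exact ⟨fun h => h.2, fun h => ⟨Finset.mem_univ _, h⟩⟩
    rw [this, Fin.card_Iio]
  have h1 := main F s (by rw [hcard]; exact hk)
  rw [PP_eq F _ (fun x y => by rw [add_comm])] at h1
  have h2 : ∑ y ∈ F, ∑ x ∈ F, (if x < y then min 1 |s x + s y| else 0) =
      ∑ j ∈ F, ∑ i ∈ Finset.univ.filter (fun i => i < j), min 1 |s i + s j| := by
    refine Finset.sum_congr rfl fun j hj => ?_
    rw [← Finset.sum_filter]
    refine Finset.sum_congr ?_ fun _ _ => rfl
    ext i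
    rw [hF, Finset.mem_filter, Finset.mem_filter, Finset.mem_filter]
    rw [hF, Finset.mem_filter] at hj
    exact ⟨fun h => ⟨Finset.mem_univ _, h.2⟩, fun h => ⟨⟨Finset.mem_univ _, h.2.trans hj.2⟩, h.2⟩⟩
  rw [h2, hcard] at h1
  have hk' : (0 : ℝ) < ((k : ℕ) : ℝ) - 1 := by
    have : (3 : ℝ) ≤ ((k : ℕ) : ℝ) := by exact_mod_cast hk
    linarith
  rw [div_mul_eq_mul_div, le_div_iff₀ hk']
  linarith

end Pool.Agent.Lib.MP_193d8d_pr
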