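import Pool.Agent.Lib.MP_193d8d_pr.StA
import Pool.Agent.Lib.MP_193d8d_pr.StB
import Pool.Agent.Lib.MP_193d8d_pr.Base

set_option autoImplicit false
open MeasureTheory Set Filter Topology

namespace Pool.Agent.Lib.MP_193d8d_pr

/-! # H5: two values of `n` -/

namespace TwoAux

/-- admissible profiles -/
def Adm (δ : ℝ) (q : ℕ → ℝ) : Prop :=
  (∀ i < md δ, q (i + 1) ≤ q i) ∧ (∀ i ≤ md δ, |q i| ≤ Kd δ + 1) ∧ q 0 + q (md δ) ≤ 0

theorem adm_of_good {C0 δ : ℝ} {q : ℕ → ℝ} (h : GoodA C0 δ q) : Adm δ q :=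
  ⟨h.1, fun i hi => (h.2.1 i hi).trans (by linarith), by linarith [h.2.2.2.2.2.2]⟩

theorem adm_mid {C0 δ : ℝ} {q q' : ℕ → ℝ} (h : GoodA C0 δ q) (h' : GoodA C0 δ q') :
    Adm δ (fun i => (q i + q' i) / 2) := by
  obtain ⟨a1, a2, a3⟩ := adm_of_good h
  obtain ⟨b1, b2, b3⟩ := adm_of_good h'
  refine ⟨fun i hi => ?_, fun i hi => ?_, ?_⟩
  · have := a1 i hi
    have := b1 i hi
    simp only
    linarith
  · have h1 := abs_le.1 (a2 i hi)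
    have h2 := abs_le.1 (b2 i hi)
    rw [abs_le]
    constructor <;> linarith [h1.1, h1.2, h2.1, h2.2]
  · simp only
    linarith

theorem Steep.mono {η η' Γ δ : ℝ} {q : ℕ → ℝ} (h : Steep η Γ δ q) (hη : η ≤ η') (hδ : 0 ≤ δ) :
    Steep η' Γ δ q := by
  intro i hi hl
  refine le_trans ?_ (h i hi hl)
  exact mul_le_mul_of_nonneg_right (by linarith) hδ

end TwoAux

open TwoAux in
theorem stTwo (h1 : StPack) (h2 : StGoodB) (h3 : StSteepT) (h4 : StCloseQ) (h5 : StCountClose)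
    (h6 : StBetaConv) (h7 : StTailPos) : StTwo := by
  intro t ρ ht hρ
  obtain ⟨C0, c1, hC0, hc1, -, hGood⟩ := h2
  obtain ⟨γ, τ1, hγ, hτ1, hTail⟩ := h7 C0 c1 (t + 2) hC0 hc1 (by linarith)
  obtain ⟨γa, hγa0, hγa1, hγa2⟩ : ∃ γa : ℝ, 0 < γa ∧ 2 * γa ≤ 1 ∧ 2 * γa ≤ γ := by
    refine ⟨min (γ / 2) (1 / 2), lt_min (by linarith) (by norm_num), ?_, ?_⟩
    · linarith [min_le_right (γ / 2) (1 / 2 : ℝ)]
    · linarith [min_le_left (γ / 2) (1 / 2 : ℝ)]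
  obtain ⟨ρ', hρ', hCount⟩ := h5 C0 γa (2 * C0 + 8) t ρ hC0 hγa0 hγa1 ht le_rfl hρ
  obtain ⟨τ2, hτ2, hClose⟩ := h4 C0 c1 γa (2 * C0 + 8) ρ' hC0 hc1 hγa0 (by linarith)
    (by linarith) hρ'
  obtain ⟨τ, hτ0, hτa, hτb, hτc⟩ : ∃ τ : ℝ, 0 < τ ∧ 2 * τ ≤ τ1 ∧ 4 * τ ≤ τ2 ∧ 3 * τ ≤ ρ := by
    refine ⟨min (τ1 / 2) (min (τ2 / 4) (ρ / 3)), by positivity, ?_, ?_, ?_⟩
    · linarith [min_le_left (τ1 / 2) (min (τ2 / 4) (ρ / 3))]
    · linarith [(min_le_right (τ1 / 2) (min (τ2 / 4) (ρ / 3))).trans (min_le_left _ _)]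
    · linarith [(min_le_right (τ1 / 2) (min (τ2 / 4) (ρ / 3))).trans (min_le_right _ _)]
  have hηpos : 0 < min τ2 (1 / 2) := lt_min hτ2 (by norm_num)
  filter_upwards [hGood, hTail, hCount, hClose, h1 τ hτ0,
    h3 (min τ2 (1 / 2)) (2 * C0 + 8) hηpos (by linarith), self_mem_nhdsWithin]
    with δ e1 e2 e3 e4 e5 e6 hδ
  have hδ0 : 0 < δ := hδ
  obtain ⟨n1, hn1⟩ := h6 δ (Kd δ) τ (md δ) hδ0 hτ0
  obtain ⟨n2, hn2⟩ := eventually_atTop.1 ((e1.and e2).and (e4.and (e5.and e6)))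
  refine ⟨max n1 n2, fun n n' hn hn' T T' => ?_⟩
  obtain ⟨⟨a1, a2⟩, -, a4, a5⟩ := hn2 n ((le_max_right _ _).trans hn)
  obtain ⟨⟨b1, b2⟩, b3, b4, b5⟩ := hn2 n' ((le_max_right _ _).trans hn')
  have hb := hn1 n n' ((le_max_left _ _).trans hn) ((le_max_left _ _).trans hn')
  have g := a1 T
  have g' := b1 T'
  obtain ⟨-, -, a6, a7⟩ := a4 T
  obtain ⟨-, -, b6, b7⟩ := b4 T'
  -- comparison of the functionals
  have hJ : ∀ p : ℕ → ℝ, (∀ i ≤ md δ, |p i| ≤ Kd δ) → |Jn δ n p - Jn δ n' p| ≤ τ := by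
    intro p hp
    have := hb p hp
    unfold Jn
    rw [show Lam δ (md δ) p - beta (n - 2) (δ * rr n) (md δ) p -
      (Lam δ (md δ) p - beta (n' - 2) (δ * rr n') (md δ) p) =
      -(beta (n - 2) (δ * rr n) (md δ) p - beta (n' - 2) (δ * rr n') (md δ) p) by ring, abs_neg]
    exact this
  have A1 : ∀ p, Adm δ p → Jn δ n p ≤ vv n + τ := fun p hp => a7 p hp.1 hp.2.1 hp.2.2
  have B1 : ∀ p, Adm δ p → Jn δ n' p ≤ vv n' + τ := fun p hp => b7 p hp.1 hp.2.1 hp.2.2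
  have Jq := abs_le.1 (hJ (qv T) g.1.2.1)
  have Jq' := abs_le.1 (hJ (qv T') g'.1.2.1)
  have c1' := A1 _ (adm_of_good g'.1)
  have c2' := B1 _ (adm_of_good g.1)
  have c3' := B1 _ (adm_mid g.1 g'.1)
  have s1 : Steep τ2 (2 * C0 + 8) δ (qv T) := Steep.mono (a5 T) (min_le_left _ _) hδ0.le
  have s2 : Steep (1 / 2) (2 * C0 + 8) δ (qv T) := Steep.mono (a5 T) (min_le_right _ _) hδ0.le
  have s1' : Steep τ2 (2 * C0 + 8) δ (qv T') := Steep.mono (b5 T') (min_le_left _ _) hδ0.le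
  have s2' : Steep (1 / 2) (2 * C0 + 8) δ (qv T') := Steep.mono (b5 T') (min_le_right _ _) hδ0.le
  constructor
  · refine e3 (qv T) (qv T') g.1 g'.1 s2 s2' ?_ ?_
    · intro i hi hl
      constructor
      · have := a2 (qv T) g (fun p p1 p2 p3 => by
          have := A1 p ⟨p1, p2, p3⟩
          linarith) i hi (by linarith)
        linarith
      · have := b2 (qv T') g' (fun p p1 p2 p3 => by
          have := B1 p ⟨p1, p2, p3⟩
          linarith) i hi (by linarith)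
        linarith
    · refine b3 (qv T) (qv T') g g' s1 s1' ?_
      linarith [Jq.1, Jq.2, Jq'.1, Jq'.2]
  · rw [abs_le]
    constructor <;> linarith [Jq.1, Jq.2, Jq'.1, Jq'.2]

end Pool.Agent.Lib.MP_193d8d_pr
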