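import Pool.Agent.Lib.MP_193d8d_pr.StA
import Pool.Agent.Lib.MP_193d8d_pr.StB
import Pool.Agent.Lib.MP_193d8d_pr.Base

set_option autoImplicit false
open MeasureTheory Set Filter Topology

/-! D8: the upper bound for the normalised volume in terms of the averaged profile. -/

namespace Pool.Agent.Lib.MP_193d8d_pr

namespace UpJAux

theorem lev_zero (ε δ : ℝ) (J m : ℕ) : lev ε δ J m 0 = 0 := by simp [lev]

theorem lev_low (ε δ : ℝ) {J m h : ℕ} (h0 : h ≠ 0) (h1 : h ≤ J + 1) :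
    lev ε δ J m h = ε * δ * (1 / 2) ^ (J + 1 - h) := by
  simp [lev, h0, h1]

theorem lev_main (ε δ : ℝ) {J m i : ℕ} (hi : i ≤ m) :
    lev ε δ J m (J + 1 + i) = ε * δ * ((i : ℝ) + 1) := by
  rcases Nat.eq_zero_or_pos i with rfl | hpos
  · rw [lev_low ε δ (by omega) (by omega)]
    simp
  · have h1 : ¬ (J + 1 + i = 0) := by omega
    have h2 : ¬ (J + 1 + i ≤ J + 1) := by omega
    have h3 : J + 1 + i ≤ J + 1 + m := by omega
    simp only [lev, if_neg h1, if_neg h2, if_pos h3]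
    push_cast
    ring

theorem lev_top (ε δ : ℝ) {J m h : ℕ} (hh : J + 1 + m < h) : lev ε δ J m h = 1 := by
  have h1 : ¬ (h = 0) := by omega
  have h2 : ¬ (h ≤ J + 1) := by omega
  have h3 : ¬ (h ≤ J + 1 + m) := by omega
  simp only [lev, if_neg h1, if_neg h2, if_neg h3]

/-- nonnegative increments -/
theorem inc_nonneg {ε δ : ℝ} {J m : ℕ} (hε : 0 < ε) (hδ : 0 < δ) (hm : (m + 1) * δ * ε ≤ 1)
    {h : ℕ} (hh : h ≤ J + m + 1) : 0 ≤ lev ε δ J m (h + 1) - lev ε δ J m h := by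
  have hp : 0 < ε * δ := mul_pos hε hδ
  rcases Nat.lt_or_ge h (J + 1) with h1 | h1
  · rcases Nat.eq_zero_or_pos h with rfl | h0
    · rw [lev_zero, lev_low ε δ (by omega) (by omega), sub_zero]
      positivity
    · rw [lev_low ε δ (by omega) (by omega), lev_low ε δ (by omega) (by omega)]
      have h2 : J + 1 - h = (J + 1 - (h + 1)) + 1 := by omega
      rw [h2, pow_succ]
      have h3 : (0 : ℝ) < (1 / 2) ^ (J + 1 - (h + 1)) := by positivity
      nlinarith
  · obtain ⟨i, rfl⟩ := Nat.exists_eq_add_of_le h1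
    rcases Nat.lt_or_ge i m with h2 | h2
    · rw [add_assoc (J + 1) i 1, lev_main ε δ (by omega : i + 1 ≤ m), lev_main ε δ h2.le]
      push_cast
      nlinarith
    · have h3 : i = m := by omega
      subst h3
      rw [lev_top ε δ (by omega), lev_main ε δ le_rfl]
      nlinarith

theorem wts_nonneg {ε δ : ℝ} {J m : ℕ} (hε : 0 < ε) (hδ : 0 < δ) (hm : (m + 1) * δ * ε ≤ 1)
    (h : Fin (J + m + 1 + 1)) : 0 ≤ wts (J + m + 1) (lev ε δ J m) h :=
  inc_nonneg hε hδ hm (by have := h.2; omega)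

theorem wts_sum (ε δ : ℝ) (J m : ℕ) : ∑ h, wts (J + m + 1) (lev ε δ J m) h = 1 := by
  have h1 : ∑ h, wts (J + m + 1) (lev ε δ J m) h =
      ∑ h ∈ Finset.range (J + m + 1 + 1), (lev ε δ J m (h + 1) - lev ε δ J m h) :=
    Fin.sum_univ_eq_sum_range (fun h : ℕ => lev ε δ J m (h + 1) - lev ε δ J m h) (J + m + 1 + 1)
  rw [h1, Finset.sum_range_sub, lev_zero, lev_top ε δ (by omega), sub_zero]

/-- averages of bounded functions -/
theorem AV_EE_abs {n : ℕ} {κ : Type} [Fintype κ] {p : κ → ℝ} (hn : 2 ≤ n) (hp : ∀ h, 0 ≤ p h)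
    (hp1 : ∑ h, p h = 1) {F : Edge n → (Edge n → κ) → ℝ} {K : ℝ} (hF : ∀ e c, |F e c| ≤ K) :
    |AV (fun e => EE p (F e))| ≤ K := by
  rw [abs_le]
  constructor
  · rw [← AV_const hn (-K)]
    refine AV_mono fun e => ?_
    rw [← EE_const (ι := Edge n) hp1 (-K)]
    exact EE_mono hp fun c => (abs_le.1 (hF e c)).1
  · conv_rhs => rw [← AV_const hn K]
    refine AV_mono fun e => ?_
    conv_rhs => rw [← EE_const (ι := Edge n) hp1 K]
    exact EE_mono hp fun c => (abs_le.1 (hF e c)).2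

/-- the algebra: one tree -/
theorem main {CU CL CM : ℝ} {n : ℕ} {δ : ℝ} (T : TT δ n) (hn : 3 ≤ n) (hδ : 0 < δ)
    (hr : 0 < rr n) (h1 : (md δ + 1) * δ * rr n < 1) (hBeta : StBetaEE)
    (hU : Real.log (vol (M (9 / 10) n)) / ((Fintype.card (Edge n) : ℝ) * rr n) ≤
      AV (fun e => EE (wts (n + md δ + 1) (lev (rr n) δ n (md δ)))
        (fun c => Lam δ (md δ) (fun i => clamp (Kd δ) (ps T.Q (rr n) n e c i))))
      - AV (fun e => EE (wts (n + md δ + 1) (lev (rr n) δ n (md δ)))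
        (fun c => cherry (val (Kd δ) n (ps T.Q (rr n) n) c) e))
      + CU)
    (hL : |AV (fun e => EE (wts (n + md δ + 1) (lev (rr n) δ n (md δ))) (fun c =>
      lin (fun f => ref (Kd δ) n (qv T) (c f))
        (fun f => val (Kd δ) n (ps T.Q (rr n) n) c f - ref (Kd δ) n (qv T) (c f)) e))| ≤ CL)
    (hM : vv n ≤ Real.log (vol (M (9 / 10) n)) / ((Fintype.card (Edge n) : ℝ) * rr n) + CM) :
    vv n + slackA T + slackB T ≤ Jn δ n (qv T) + (CU + CL + CM) := by
  have hK : 0 < Kd δ := by unfold Kd; positivity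
  have hp := fun h => wts_nonneg (J := n) (m := md δ) hr hδ h1.le h
  have hp1 := wts_sum (rr n) δ n (md δ)
  have hq : ∀ i ≤ md δ, |qv T i| ≤ Kd δ := by
    intro i _
    exact AV_EE_abs (by omega) hp hp1 fun e c => abs_clamp_le hK.le
  -- the first term
  have hA : AV (fun e => EE (wts (n + md δ + 1) (lev (rr n) δ n (md δ)))
        (fun c => Lam δ (md δ) (fun i => clamp (Kd δ) (ps T.Q (rr n) n e c i)))) =
      Lam δ (md δ) (qv T) - slackA T := by
    have : slackA T = Lam δ (md δ) (qv T) - AV (fun e =>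
        EE (wts (n + md δ + 1) (lev (rr n) δ n (md δ)))
        (fun c => Lam δ (md δ) (fun i => clamp (Kd δ) (ps T.Q (rr n) n e c i)))) := rfl
    rw [this]
    ring
  -- the second term
  have hB : AV (fun e => EE (wts (n + md δ + 1) (lev (rr n) δ n (md δ)))
        (fun c => cherry (val (Kd δ) n (ps T.Q (rr n) n) c) e)) =
      slackB T + beta (n - 2) (δ * rr n) (md δ) (qv T) +
        AV (fun e => EE (wts (n + md δ + 1) (lev (rr n) δ n (md δ))) (fun c =>
          lin (fun f => ref (Kd δ) n (qv T) (c f))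
            (fun f => val (Kd δ) n (ps T.Q (rr n) n) c f - ref (Kd δ) n (qv T) (c f)) e)) := by
    have hs : slackB T = AV (fun e => EE (wts (n + md δ + 1) (lev (rr n) δ n (md δ)))
        (fun c => cherry (val (Kd δ) n (ps T.Q (rr n) n) c) e -
          cherry (fun f => ref (Kd δ) n (qv T) (c f)) e -
          lin (fun f => ref (Kd δ) n (qv T) (c f))
            (fun f => val (Kd δ) n (ps T.Q (rr n) n) c f - ref (Kd δ) n (qv T) (c f)) e)) := rfl
    have hb : AV (fun e : Edge n => EE (wts (n + md δ + 1) (lev (rr n) δ n (md δ)))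
        (fun c => cherry (fun f => ref (Kd δ) n (qv T) (c f)) e)) =
        beta (n - 2) (δ * rr n) (md δ) (qv T) := by
      have h2 : ∀ e : Edge n, EE (wts (n + md δ + 1) (lev (rr n) δ n (md δ)))
          (fun c => cherry (fun f => ref (Kd δ) n (qv T) (c f)) e) =
          beta (n - 2) (δ * rr n) (md δ) (qv T) := by
        intro e
        rw [mul_comm δ (rr n)]
        exact hBeta n n (md δ) (rr n) δ (Kd δ) (qv T) e (by omega) hr hδ hK.le h1.le hq
      rw [funext h2, AV_const (by omega)]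
    rw [hs]
    simp only [EE_sub, AV_sub]
    rw [hb]
    ring
  rw [hA, hB] at hU
  have h3 := (abs_le.1 hL).1
  unfold Jn
  linarith

theorem rr_tendsto : Tendsto rr atTop (𝓝 0) := by
  have h1 : Tendsto (fun n : ℕ => Real.sqrt n) atTop atTop :=
    Real.tendsto_sqrt_atTop.comp tendsto_natCast_atTop_atTop
  refine (h1.inv_tendsto_atTop).congr fun n => ?_
  simp [rr]

/-- the error terms which depend on `n` vanish in the limit -/
theorem ev_small (c : ℝ) {s : ℝ} (hs : 0 < s) : ∀ᶠ n : ℕ in atTop, c * rr n ≤ s := by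
  have h1 : Tendsto (fun n : ℕ => c * rr n) atTop (𝓝 (c * 0)) :=
    tendsto_const_nhds.mul rr_tendsto
  rw [mul_zero] at h1
  exact (h1.eventually_lt_const hs).mono fun _ h => h.le

theorem ev_small' (c : ℝ) {s : ℝ} (hs : 0 < s) :
    ∀ᶠ n : ℕ in atTop, c / Real.sqrt (Real.sqrt n) ≤ s := by
  have h0 : Tendsto (fun n : ℕ => Real.sqrt (Real.sqrt n)) atTop atTop :=
    Real.tendsto_sqrt_atTop.comp (Real.tendsto_sqrt_atTop.comp tendsto_natCast_atTop_atTop)
  have h1 : Tendsto (fun n : ℕ => c / Real.sqrt (Real.sqrt n)) atTop (𝓝 0) :=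
    h0.const_div_atTop c
  exact (h1.eventually_lt_const hs).mono fun _ h => h.le

theorem ev_inv {s : ℝ} (hs : 0 < s) : ∀ᶠ n : ℕ in atTop, 2 / (n : ℝ) ≤ s := by
  have h1 : Tendsto (fun n : ℕ => 2 / (n : ℝ)) atTop (𝓝 0) :=
    tendsto_natCast_atTop_atTop.const_div_atTop 2
  exact (h1.eventually_lt_const hs).mono fun _ h => h.le

theorem ev_log {δ : ℝ} (hδ : 0 < δ) : ∀ᶠ n : ℕ in atTop,
    (1 / 2 : ℝ) ^ n * Real.log (2 / (rr n * (δ * (1 / 2) ^ n))) ≤ 1 := by
  have h1 : Tendsto (fun n : ℕ => (1 / 2 : ℝ) ^ n * (1 + |Real.log δ|) + 2 * (n * (1 / 2 : ℝ) ^ n))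
      atTop (𝓝 (0 * (1 + |Real.log δ|) + 2 * 0)) := by
    refine Tendsto.add ?_ ?_
    · exact (tendsto_pow_atTop_nhds_zero_of_lt_one (by norm_num) (by norm_num)).mul_const _
    · exact (tendsto_self_mul_const_pow_of_lt_one (by norm_num) (by norm_num)).const_mul _
  rw [zero_mul, mul_zero, add_zero] at h1
  filter_upwards [h1.eventually_lt_const one_pos, eventually_ge_atTop 1] with n hn hn1
  have hn0 : (0 : ℝ) < n := by exact_mod_cast hn1
  have hr : rr n = 1 / Real.sqrt n := rfl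
  have hs : 0 < Real.sqrt n := Real.sqrt_pos.2 hn0
  have hp : (0 : ℝ) < (1 / 2) ^ n := by positivity
  have h2 : Real.log (2 / (rr n * (δ * (1 / 2) ^ n))) =
      Real.log 2 + Real.log (Real.sqrt n) - Real.log δ + n * Real.log 2 := by
    rw [hr, Real.log_div (by norm_num) (by positivity), Real.log_mul (by positivity) (by positivity),
      Real.log_mul (by positivity) (by positivity), Real.log_pow, Real.log_div (by norm_num)
      (by positivity), Real.log_div (by norm_num) (by norm_num), Real.log_one]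
    ring
  have h3 : Real.log 2 ≤ 1 := by
    have := Real.log_two_lt_d9
    linarith
  have h4 : Real.log (Real.sqrt n) ≤ n := by
    rw [Real.log_sqrt hn0.le]
    have := Real.log_le_sub_one_of_pos hn0
    have h5 : 0 ≤ Real.log (n : ℝ) := Real.log_nonneg (by exact_mod_cast hn1)
    linarith
  have h5 : -Real.log δ ≤ |Real.log δ| := neg_le_abs _
  have h6 : Real.log (2 / (rr n * (δ * (1 / 2) ^ n))) ≤ (1 + |Real.log δ|) + 2 * n := by
    rw [h2]
    nlinarith
  calc (1 / 2 : ℝ) ^ n * Real.log (2 / (rr n * (δ * (1 / 2) ^ n)))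
      ≤ (1 / 2 : ℝ) ^ n * ((1 + |Real.log δ|) + 2 * n) := by gcongr
    _ = (1 / 2 : ℝ) ^ n * (1 + |Real.log δ|) + 2 * (n * (1 / 2 : ℝ) ^ n) := by ring
    _ ≤ 1 := hn.le

theorem small_delta {δ : ℝ} (h0 : 0 < δ) (h1 : δ ≤ 1) :
    δ * (1 + Real.log (1 / δ)) + 1 / (δ * Kd δ ^ 3) ≤ 3 * Real.sqrt δ := by
  have hs : 0 < Real.sqrt δ := Real.sqrt_pos.2 h0
  have hs1 : Real.sqrt δ ≤ 1 := by
    rw [← Real.sqrt_one]
    exact Real.sqrt_le_sqrt h1
  have hss : Real.sqrt δ * Real.sqrt δ = δ := Real.mul_self_sqrt h0.le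
  have h2 : Real.log (1 / δ) ≤ 2 * (1 / Real.sqrt δ - 1) := by
    have h3 : Real.log (1 / δ) = 2 * Real.log (1 / Real.sqrt δ) := by
      rw [one_div, one_div, Real.log_inv, Real.log_inv, Real.log_sqrt h0.le]
      ring
    rw [h3]
    have h4 := Real.log_le_sub_one_of_pos (show 0 < 1 / Real.sqrt δ by positivity)
    linarith
  have h3 : δ * (1 + Real.log (1 / δ)) ≤ 2 * Real.sqrt δ := by
    calc δ * (1 + Real.log (1 / δ)) ≤ δ * (1 + 2 * (1 / Real.sqrt δ - 1)) := by gcongr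
      _ = 2 * (δ / Real.sqrt δ) - δ := by ring
      _ = 2 * Real.sqrt δ - δ := by rw [Real.div_sqrt]
      _ ≤ 2 * Real.sqrt δ := by linarith
  have h4 : 1 / (δ * Kd δ ^ 3) ≤ Real.sqrt δ := by
    have h5 : 1 / (δ * Kd δ ^ 3) = δ ^ 2 / 64 := by
      unfold Kd
      field_simp
      norm_num
    rw [h5]
    nlinarith
  linarith

theorem vv_le {n : ℕ} (hn : 3 ≤ n) (hVol : StVol)
    (hM : (1 - 1 / (n : ℝ) ^ 2) * vol (M 0 n) ≤ vol (M (9 / 10) n)) :
    vv n ≤ Real.log (vol (M (9 / 10) n)) / ((Fintype.card (Edge n) : ℝ) * rr n) + 2 / n := by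
  have hn0 : (3 : ℝ) ≤ n := by exact_mod_cast hn
  have hcard := card_edge_pos (n := n) (by omega)
  have hcard1 : (1 : ℝ) ≤ (Fintype.card (Edge n) : ℝ) := by
    have : 0 < Fintype.card (Edge n) := by exact_mod_cast hcard
    exact_mod_cast this
  have hs : 0 < Real.sqrt n := Real.sqrt_pos.2 (by linarith)
  have hr : 0 < rr n := by unfold rr; positivity
  have hv0 := (hVol 0 n le_rfl (by norm_num)).2.2.2
  have hv9 := (hVol (9 / 10) n (by norm_num) (by norm_num)).2.2.2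
  have hy0 : (0 : ℝ) < 1 / (n : ℝ) ^ 2 := by positivity
  have hy : 1 / (n : ℝ) ^ 2 ≤ 1 / 2 := by
    apply one_div_le_one_div_of_le (by norm_num)
    nlinarith
  have h1 : Real.log (1 - 1 / (n : ℝ) ^ 2) + Real.log (vol (M 0 n)) ≤
      Real.log (vol (M (9 / 10) n)) := by
    rw [← Real.log_mul (by linarith) (by linarith)]
    exact Real.log_le_log (mul_pos (by linarith) (by linarith)) hM
  have h2 : -(2 * (1 / (n : ℝ) ^ 2)) ≤ Real.log (1 - 1 / (n : ℝ) ^ 2) := by
    have h3 := Real.one_sub_inv_le_log_of_pos (show 0 < 1 - 1 / (n : ℝ) ^ 2 by linarith)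
    refine le_trans ?_ h3
    have h4 : (1 - 1 / (n : ℝ) ^ 2)⁻¹ ≤ 1 + 2 * (1 / (n : ℝ) ^ 2) := by
      rw [inv_le_iff_one_le_mul₀ (by linarith)]
      nlinarith
    linarith
  unfold vv
  have hcr : 0 < (Fintype.card (Edge n) : ℝ) * rr n := mul_pos hcard hr
  rw [div_add' _ _ _ hcr.ne', div_le_div_iff_of_pos_right hcr]
  have h5 : 2 * (1 / (n : ℝ) ^ 2) ≤ 2 / n * ((Fintype.card (Edge n) : ℝ) * rr n) := by
    have h6 : 1 / (n : ℝ) ≤ rr n := by
      unfold rr
      apply one_div_le_one_div_of_le hs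
      rw [Real.sqrt_le_left (by linarith)]
      nlinarith
    calc 2 * (1 / (n : ℝ) ^ 2) = 2 / n * (1 * (1 / (n : ℝ))) := by
          field_simp
      _ ≤ 2 / n * ((Fintype.card (Edge n) : ℝ) * rr n) := by gcongr
  linarith

end UpJAux

open UpJAux

theorem stUpJ (hMom : StMomK) (hUp : StUpE) (hLin : StLin) (hBeta : StBetaEE) (hVol : StVol) :
    StUpJ := by
  obtain ⟨CM, hCM, hM⟩ := hMom
  obtain ⟨CU, hCU, hU⟩ := hUp CM hCM
  obtain ⟨CL, hCL, hL⟩ := hLin
  refine ⟨3 * CU + 3, by linarith, ?_⟩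
  have h01 : ∀ᶠ δ : ℝ in 𝓝[>] (0 : ℝ), δ ∈ Ioc (0 : ℝ) 1 := Ioc_mem_nhdsGT one_pos
  filter_upwards [h01] with δ hδ
  have hδ0 : 0 < δ := hδ.1
  have hs : 0 < Real.sqrt δ := Real.sqrt_pos.2 hδ0
  have hK : 0 < Kd δ := by unfold Kd; positivity
  have e1 := ev_small ((md δ + 1) * δ) (show (0 : ℝ) < 1 / 2 by norm_num)
  have e2 := ev_small' (CL * Kd δ * (1 + (md δ + 1) * δ) ^ 4) hs
  have e3 := ev_small (CU * ((md δ + 1) * δ) * (Kd δ + (md δ + 1) * δ + 1)) hs
  filter_upwards [hM, e1, e2, e3, ev_inv hs, ev_log hδ0, eventually_ge_atTop 3]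
    with n hMn h1 h2 h3 h4 h5 hn T
  have hn0 : (3 : ℝ) ≤ n := by exact_mod_cast hn
  have hr : 0 < rr n := by
    have : 0 < Real.sqrt n := Real.sqrt_pos.2 (by linarith)
    unfold rr
    positivity
  have h1' : ((md δ : ℝ) + 1) * δ * rr n < 1 := by linarith
  have hu := hU (9 / 10) (rr n) δ (Kd δ) n n (md δ) T (by norm_num) (by norm_num) hn hr hδ0 hδ.2 hK
    h1' (fun e => ⟨(hMn.2 e).1, (hMn.2 e).2.1, (hMn.2 e).2.2.1⟩) h5
  have hl := hL n (md δ) n δ (Kd δ) (ps T.Q (rr n) n) (qv T) hn hδ0 hK h1'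
    (fun e c h => by
      funext i
      unfold ps
      rw [T.pred e (Function.update c e h) c fun e' he' => Function.update_of_ne he'.ne _ _])
    (fun i _ => rfl)
  have hm := main T hn hδ0 hr h1' hBeta hu hl (vv_le hn hVol hMn.1)
  refine hm.trans ?_
  have h6 := small_delta hδ0 hδ.2
  have h7 : CU * (δ * (1 + Real.log (1 / δ)) + 1 / (δ * Kd δ ^ 3) +
      ((md δ : ℝ) + 1) * δ * rr n * (Kd δ + (md δ + 1) * δ + 1)) ≤
      3 * CU * Real.sqrt δ + Real.sqrt δ := by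
    have h8 : CU * (δ * (1 + Real.log (1 / δ)) + 1 / (δ * Kd δ ^ 3)) ≤ CU * (3 * Real.sqrt δ) := by
      gcongr
    have h9 : CU * (((md δ : ℝ) + 1) * δ * rr n * (Kd δ + (md δ + 1) * δ + 1)) =
        CU * ((md δ + 1) * δ) * (Kd δ + (md δ + 1) * δ + 1) * rr n := by ring
    rw [mul_add, h9]
    linarith
  linarith

end Pool.Agent.Lib.MP_193d8d_pr
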