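import Pool.Agent.Lib.MP_193d8d_pr.StA
import Pool.Agent.Lib.MP_193d8d_pr.StB
import Pool.Agent.Lib.MP_193d8d_pr.Base

set_option autoImplicit false
open MeasureTheory Set Filter Topology

namespace Pool.Agent.Lib.MP_193d8d_pr

theorem stVlim (hT : StTwo) (hE : StEx) : StVlim := by
  have hc : CauchySeq vv := by
    rw [Metric.cauchySeq_iff]
    intro ε hε
    obtain ⟨δ, ⟨n0, h1⟩, h2⟩ := ((hT 0 (ε / 2) (by norm_num) (by linarith)).and hE).exists
    obtain ⟨n1, h3⟩ := eventually_atTop.1 h2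
    refine ⟨max n0 n1, fun n hn n' hn' => ?_⟩
    obtain ⟨T⟩ := h3 n ((le_max_right _ _).trans hn)
    obtain ⟨T'⟩ := h3 n' ((le_max_right _ _).trans hn')
    have := (h1 n n' ((le_max_left _ _).trans hn) ((le_max_left _ _).trans hn') T T').2
    rw [Real.dist_eq]
    linarith
  exact cauchySeq_tendsto_of_complete hc

end Pool.Agent.Lib.MP_193d8d_pr
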