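import Pool.Agent.Lib.MP_193d8d_pr.StA
import Pool.Agent.Lib.MP_193d8d_pr.StB
import Pool.Agent.Lib.MP_193d8d_pr.Base

set_option autoImplicit false

open MeasureTheory Set

namespace Pool.Agent.Lib.MP_193d8d_pr

namespace VlowAux

theorem int_ind (a : ℝ) : IntegrableOn (fun s : ℝ => if s < a then (1 : ℝ) else 0) (Ioi 0) ∧
    ∫ s in Ioi (0 : ℝ), (if s < a then (1 : ℝ) else 0) = max a 0 := by
  have e : (fun s : ℝ => if s < a then (1 : ℝ) else 0) = (Iio a).indicator (fun _ => (1 : ℝ)) := by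
    funext s
    by_cases h : s < a
    · rw [if_pos h, indicator_of_mem (mem_Iio.2 h)]
    · rw [if_neg h, indicator_of_notMem (fun h' => h (mem_Iio.1 h'))]
  have hI : Iio a ∩ Ioi 0 = Ioo 0 a := by
    ext x
    simp only [mem_inter_iff, mem_Iio, mem_Ioi, mem_Ioo, and_comm]
  rw [e]
  constructor
  · rw [IntegrableOn, integrable_indicator_iff measurableSet_Iio, IntegrableOn,
      Measure.restrict_restrict measurableSet_Iio, hI]
    exact integrableOn_const (by rw [Real.volume_Ioo]; exact ENNReal.ofReal_ne_top)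
  · rw [integral_indicator measurableSet_Iio, Measure.restrict_restrict measurableSet_Iio, hI,
      setIntegral_const, Real.volume_real_Ioo, smul_eq_mul, mul_one, sub_zero]

/-- the profile -/
noncomputable def q (i : ℕ) : ℝ := 1 / 4 - ((i : ℝ) + 1) / 20

theorem cnt_eq (s : ℝ) : cnt 9 q s = ∑ z ∈ Finset.range (9 + 1) ×ˢ Finset.range (9 + 1),
    if s < q z.1 + q z.2 then (1 : ℝ) else 0 := by
  unfold cnt
  rw [Finset.card_filter]
  push_cast
  rfl

theorem cnt_le (s : ℝ) : 0 ≤ cnt 9 q s ∧ cnt 9 q s ≤ 100 := by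
  unfold cnt
  refine ⟨Nat.cast_nonneg _, ?_⟩
  have h := Finset.card_filter_le (Finset.range (9 + 1) ×ˢ Finset.range (9 + 1))
    (fun z => s < q z.1 + q z.2)
  rw [Finset.card_product, Finset.card_range] at h
  have h2 : ((Finset.filter (fun z => s < q z.1 + q z.2)
      (Finset.range (9 + 1) ×ˢ Finset.range (9 + 1))).card : ℝ) ≤ ((9 + 1) * (9 + 1) : ℕ) := by
    exact_mod_cast h
  norm_num at h2 ⊢
  exact h2

theorem int_cnt : IntegrableOn (fun s => cnt 9 q s) (Ioi 0) ∧
    ∫ s in Ioi (0 : ℝ), cnt 9 q s = 6 := by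
  have e : (fun s => cnt 9 q s) = fun s => ∑ z ∈ Finset.range (9 + 1) ×ˢ Finset.range (9 + 1),
      if s < q z.1 + q z.2 then (1 : ℝ) else 0 := funext cnt_eq
  rw [e]
  refine ⟨integrable_finsetSum _ fun z _ => (int_ind _).1, ?_⟩
  rw [integral_finsetSum _ fun z _ => (int_ind _).1]
  simp only [(int_ind _).2]
  rw [Finset.sum_product]
  simp only [Finset.sum_range_succ, Finset.sum_range_zero, q]
  norm_num

theorem beta_le {n : ℕ} (hn : 2 ≤ n) : beta (n - 2) (1 / 20 * rr n) 9 q ≤ 3 / 200 := by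
  have hn0 : (0 : ℝ) < n := by exact_mod_cast (by omega : 0 < n)
  have hr : (1 / 20 * rr n) ^ 2 = 1 / (400 * n) := by
    unfold rr
    rw [mul_pow, div_pow, div_pow, Real.sq_sqrt hn0.le]
    field_simp
    norm_num
  unfold beta
  rw [hr]
  have h1 : ∀ s : ℝ, 0 ≤ 1 - (1 - 1 / (400 * (n : ℝ)) * cnt 9 q s) ^ (n - 2) ∧
      1 - (1 - 1 / (400 * (n : ℝ)) * cnt 9 q s) ^ (n - 2) ≤ 1 / 400 * cnt 9 q s := by
    intro s
    obtain ⟨c0, c1⟩ := cnt_le s
    have hx0 : 0 ≤ 1 / (400 * (n : ℝ)) * cnt 9 q s := by positivity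
    have hx1 : 1 / (400 * (n : ℝ)) * cnt 9 q s ≤ 1 := by
      rw [div_mul_eq_mul_div, one_mul, div_le_one (by positivity)]
      have : (1 : ℝ) ≤ n := by exact_mod_cast (by omega : 1 ≤ n)
      linarith
    refine ⟨sub_nonneg.2 (pow_le_one₀ (by linarith) (by linarith)), ?_⟩
    have h2 := one_add_mul_le_pow (a := -(1 / (400 * (n : ℝ)) * cnt 9 q s)) (by linarith) (n - 2)
    rw [← sub_eq_add_neg] at h2
    have h3 : ((n - 2 : ℕ) : ℝ) * (1 / (400 * (n : ℝ)) * cnt 9 q s) ≤ 1 / 400 * cnt 9 q s := by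
      have h4 : ((n - 2 : ℕ) : ℝ) ≤ n := by exact_mod_cast Nat.sub_le n 2
      calc ((n - 2 : ℕ) : ℝ) * (1 / (400 * (n : ℝ)) * cnt 9 q s)
          ≤ (n : ℝ) * (1 / (400 * (n : ℝ)) * cnt 9 q s) := mul_le_mul_of_nonneg_right h4 hx0
        _ = 1 / 400 * cnt 9 q s := by field_simp
    linarith
  calc ∫ s in Ioi (0 : ℝ), (1 - (1 - 1 / (400 * (n : ℝ)) * cnt 9 q s) ^ (n - 2))
      ≤ ∫ s in Ioi (0 : ℝ), 1 / 400 * cnt 9 q s := by
        refine integral_mono_of_nonneg (Filter.Eventually.of_forall fun s => (h1 s).1)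
          (int_cnt.1.const_mul _) (Filter.Eventually.of_forall fun s => (h1 s).2)
    _ = 3 / 200 := by
        rw [integral_const_mul, int_cnt.2]
        norm_num

theorem lam_eq : Lam (1 / 20) 9 q = 1 / 5 := by
  unfold Lam
  simp only [Finset.sum_range_succ, Finset.sum_range_zero, q, lamf]
  norm_num

end VlowAux

open VlowAux in
/-- C6: a numerical lower bound -/
theorem stVlow (hLow : StLow) : StVlow := by
  obtain ⟨C, n0, h⟩ := hLow (1 / 20) 1 9 (by norm_num) one_pos
  obtain ⟨N, hN⟩ := exists_nat_ge (((|C| + 1) / (7 / 200)) ^ 2)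
  refine ⟨max n0 (max 2 N), fun n hn => ?_⟩
  have hn1 : n0 ≤ n := (le_max_left _ _).trans hn
  have hn2 : 2 ≤ n := ((le_max_left _ _).trans (le_max_right _ _)).trans hn
  have hn3 : N ≤ n := ((le_max_right _ _).trans (le_max_right _ _)).trans hn
  have h1 := h n hn1 q (fun i _ => by unfold q; push_cast; linarith)
    (fun i hi => by
      have hi' : (i : ℝ) ≤ 9 := by exact_mod_cast hi
      have hi0 : (0 : ℝ) ≤ i := Nat.cast_nonneg i
      unfold q
      rw [abs_le]
      constructor <;> linarith)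
    (by unfold q; norm_num)
  rw [lam_eq] at h1
  have h2 := beta_le hn2
  have h3 : C * rr n ≤ 7 / 200 := by
    have hc : 0 < |C| + 1 := by positivity
    have h4 : (|C| + 1) / (7 / 200) ≤ Real.sqrt n := by
      apply Real.le_sqrt_of_sq_le
      exact hN.trans (by exact_mod_cast hn3)
    have h5 : 0 < Real.sqrt n := lt_of_lt_of_le (by positivity) h4
    unfold rr
    rw [div_le_iff₀ (by norm_num)] at h4
    rw [mul_one_div, div_le_iff₀ h5]
    have := le_abs_self C
    linarith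
  linarith

end Pool.Agent.Lib.MP_193d8d_pr
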