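import Pool.Agent.Lib.MP_193d8d_pr.StA
import Pool.Agent.Lib.MP_193d8d_pr.StB
import Pool.Agent.Lib.MP_193d8d_pr.Base

set_option autoImplicit false
open MeasureTheory Set Filter Topology

namespace Pool.Agent.Lib.MP_193d8d_pr

namespace XiSAux

theorem ext_upd {n : ℕ} (x : Edge n → ℝ) (e : Edge n) (y : ℝ) {i j : Fin n} (hij : i ≠ j) :
    ext 0 (Function.update x e y) i j = if edge i j hij = e then y else ext 0 x i j := by
  rw [ext_ne _ _ hij, ext_ne _ _ hij, Function.update_apply]

theorem edge_eq {n : ℕ} {i j k l : Fin n} (hij : i ≠ j) (hkl : k ≠ l)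
    (h : edge i j hij = edge k l hkl) : (i = k ∧ j = l) ∨ (i = l ∧ j = k) := by
  unfold edge at h
  split_ifs at h <;> simp only [Edge.mk.injEq] at h <;> tauto

/-- points of the fibre -/
theorem upd_mem {n : ℕ} {κ : ℝ} (hκ : 0 ≤ κ) (x : Edge n → ℝ) (hx : x ∈ M κ n) (e : Edge n)
    (y : ℝ) (h1 : κ < y) (h2 : y ≤ 2) (h3 : 2 - κ ≤ y) (h4 : y ≤ 2 * κ) :
    Function.update x e y ∈ M κ n := by
  obtain ⟨ha, hb⟩ := hx
  refine ⟨fun e' => ?_, fun i j k => ?_⟩
  · by_cases h : e' = e
    · subst h
      rw [Function.update_self]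
      exact ⟨h1, h2⟩
    · rw [Function.update_of_ne h]
      exact ha e'
  · have hpos : ∀ i j : Fin n, 0 ≤ ext 0 (Function.update x e y) i j := by
      intro i j
      by_cases hij : i = j
      · rw [hij, ext_self]
      · rw [ext_upd x e y hij]
        split_ifs
        · linarith
        · rw [ext_ne _ _ hij]
          linarith [(ha (edge i j hij)).1]
    by_cases hij : i = j
    · rw [hij, ext_self]
      exact add_nonneg (hpos _ _) (hpos _ _)
    by_cases hik : i = k
    · rw [hik, ext_self, zero_add]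
    by_cases hkj : k = j
    · rw [hkj, ext_self, add_zero]
    have e1 : ∀ {i j : Fin n} (hij : i ≠ j), κ < ext 0 x i j ∧ ext 0 x i j ≤ 2 := by
      intro i j hij
      rw [ext_ne _ _ hij]
      exact ha _
    have b1 := e1 hij
    have b2 := e1 hik
    have b3 := e1 hkj
    have b4 := hb i j k
    rw [ext_upd x e y hij, ext_upd x e y hik, ext_upd x e y hkj]
    by_cases c1 : edge i j hij = e
    · have c2 : edge i k hik ≠ e := fun h => by
        rcases edge_eq hij hik (c1.trans h.symm) with h | h
        · exact hkj h.2.symm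
        · exact hik h.1
      have c3 : edge k j hkj ≠ e := fun h => by
        rcases edge_eq hij hkj (c1.trans h.symm) with h | h
        · exact hik h.1
        · exact hij h.1
      rw [if_pos c1, if_neg c2, if_neg c3]
      linarith
    · rw [if_neg c1]
      by_cases c2 : edge i k hik = e
      · rw [if_pos c2]
        split_ifs
        · linarith
        · linarith
      · rw [if_neg c2]
        split_ifs
        · linarith
        · exact b4

theorem fib_R {n H : ℕ} (S : Set (Edge n → ℝ)) (Q : Edge n → (Edge n → Fin (H + 1)) → ℕ → ℝ)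
    (e : Edge n) (c : Edge n → Fin (H + 1)) (x : Edge n → ℝ) (y : ℝ)
    (hy : y ∈ fib (Rset S H Q e c) e x) (z : ℝ) (hz : Function.update x e z ∈ S) :
    z ∈ fib (Rset S H Q e c) e x := by
  refine ⟨hz, fun e' he' => ?_⟩
  have h := hy.2 e' he'
  rw [Function.update_of_ne he'.ne] at h ⊢
  exact h

end XiSAux

open XiSAux in
theorem stXiS (h1 : StVol) (h2 : StVolR) (h3 : StFubB) : StXiS := by
  intro n H l T hn hl0 hl1 hlt e c
  obtain ⟨hMm, -, hMfin, hV1⟩ := h1 (9 / 10) n (by norm_num) (by norm_num)
  have hM0 : volume (M (9 / 10) n) ≠ 0 := by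
    intro h
    unfold vol at hV1
    rw [h] at hV1
    norm_num at hV1
  have hbox : ∀ x ∈ M (9 / 10) n, ∀ e, 0 < x e ∧ x e ≤ 2 := fun x hx e =>
    ⟨by linarith [(hx.1 e).1], (hx.1 e).2⟩
  obtain ⟨hRm, -, hRpos⟩ := (h2 (Edge n) (M (9 / 10) n) H l T hMm hbox hM0 hl0 hl1 hlt).1 e c
  set R := Rset (M (9 / 10) n) H T.Q e c with hR
  have hRfin : volume R ≠ ⊤ := ne_top_of_le_ne_top hMfin (measure_mono fun x hx => hx.1)
  obtain ⟨-, -, hF⟩ := h3 (Edge n) R e (fun _ => 1) hRm measurable_const (fun _ _ => rfl)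
  simp only [one_mul, lintegral_one, Measure.restrict_apply_univ] at hF
  have hfib : ∀ x ∈ cyl R e, ENNReal.ofReal (7 / 10) ≤ volume (fib R e x) := by
    intro x hx
    have hne : (fib R e x).Nonempty := by
      rw [nonempty_iff_ne_empty]
      intro h
      apply hx.2
      rw [h, measure_empty]
    obtain ⟨y, hy⟩ := hne
    have hsub : Ioc (11 / 10 : ℝ) (9 / 5) ⊆ fib R e x := by
      intro z hz
      refine fib_R _ _ _ _ _ y hy z ?_
      have h := upd_mem (κ := 9 / 10) (by norm_num) (Function.update x e y) hy.1 e z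
        (by linarith [hz.1]) (by linarith [hz.2]) (by linarith [hz.1]) (by linarith [hz.2])
      rw [Function.update_idem] at h
      exact h
    refine le_trans (le_of_eq ?_) (measure_mono hsub)
    rw [Real.volume_Ioc]
    norm_num
  have hle : ENNReal.ofReal (7 / 10) * volume (cyl R e) ≤ volume R := by
    rw [hF, ← setLIntegral_const]
    refine lintegral_mono_ae ?_
    obtain ⟨-, hcm, -⟩ := h3 (Edge n) R e (fun _ => 1) hRm measurable_const (fun _ _ => rfl)
    rw [ae_restrict_iff' hcm]
    exact Filter.Eventually.of_forall hfib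
  have hcfin : volume (cyl R e) ≠ ⊤ := by
    intro h
    rw [h, ENNReal.mul_top (by norm_num)] at hle
    exact hRfin (top_le_iff.1 hle)
  constructor
  · have h := ENNReal.toReal_mono hRfin hle
    rw [ENNReal.toReal_mul, ENNReal.toReal_ofReal (by norm_num)] at h
    exact h
  · refine ENNReal.toReal_pos ?_ hcfin
    intro h0
    have hz : volume R = 0 := by
      rw [hF]
      exact setLIntegral_measure_zero _ _ h0
    unfold vol at hRpos
    rw [hz] at hRpos
    exact lt_irrefl _ hRpos

end Pool.Agent.Lib.MP_193d8d_pr
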