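import Pool.Agent.Lib.MP_193d8d_pr.StA
import Pool.Agent.Lib.MP_193d8d_pr.StB
import Pool.Agent.Lib.MP_193d8d_pr.Base

set_option autoImplicit false
open MeasureTheory Set Filter Topology

namespace Pool.Agent.Lib.MP_193d8d_pr

namespace XiTAux

section lev

variable {ε δ : ℝ} {J m : ℕ}

theorem lev_zero : lev ε δ J m 0 = 0 := by simp [lev]

theorem lev_low {j : ℕ} (hj : j ≤ J) : lev ε δ J m (J + 1 - j) = ε * δ * (1 / 2) ^ j := by
  have h1 : J + 1 - j ≠ 0 := by omega
  have h2 : J + 1 - j ≤ J + 1 := by omega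
  have h3 : J + 1 - (J + 1 - j) = j := by omega
  rw [lev, if_neg h1, if_pos h2, h3]

theorem lev_main {i : ℕ} (hi : i ≤ m) : lev ε δ J m (J + 1 + i) = ε * δ * (i + 1) := by
  rcases Nat.eq_zero_or_pos i with h | h
  · subst h
    have := lev_low (ε := ε) (δ := δ) (J := J) (m := m) (j := 0) (Nat.zero_le J)
    simpa using this
  · have h1 : J + 1 + i ≠ 0 := by omega
    have h2 : ¬ J + 1 + i ≤ J + 1 := by omega
    have h3 : J + 1 + i ≤ J + 1 + m := by omega
    rw [lev, if_neg h1, if_neg h2, if_pos h3]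
    push_cast
    ring

theorem lev_top : lev ε δ J m (J + m + 1 + 1) = 1 := by
  have h1 : J + m + 1 + 1 ≠ 0 := by omega
  have h2 : ¬ J + m + 1 + 1 ≤ J + 1 := by omega
  have h3 : ¬ J + m + 1 + 1 ≤ J + 1 + m := by omega
  rw [lev, if_neg h1, if_neg h2, if_neg h3]

theorem lev_one : lev ε δ J m 1 = ε * δ * (1 / 2) ^ J := by
  have := lev_low (ε := ε) (δ := δ) (J := J) (m := m) (j := J) le_rfl
  rwa [show J + 1 - J = 1 by omega] at this

theorem lev_last : lev ε δ J m (J + m + 1) = ε * δ * (m + 1) := by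
  have := lev_main (ε := ε) (δ := δ) (J := J) (m := m) (i := m) le_rfl
  rwa [show J + 1 + m = J + m + 1 by omega] at this

theorem lev_lt (hε : 0 < ε) (hδ : 0 < δ) (hm : (m + 1) * δ * ε < 1) :
    ∀ h, h ≤ J + m + 1 → lev ε δ J m h < lev ε δ J m (h + 1) := by
  intro h hh
  have hεδ : 0 < ε * δ := mul_pos hε hδ
  rcases Nat.eq_zero_or_pos h with h0 | h0
  · subst h0
    rw [lev_zero, zero_add, lev_one]
    positivity
  · by_cases h1 : h ≤ J
    · obtain ⟨j, hj, rfl⟩ : ∃ j, j + 1 ≤ J ∧ h = J + 1 - (j + 1) := ⟨J - h, by omega, by omega⟩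
      rw [lev_low hj, show J + 1 - (j + 1) + 1 = J + 1 - j by omega, lev_low (by omega)]
      apply mul_lt_mul_of_pos_left _ hεδ
      rw [pow_succ]
      have : (0 : ℝ) < (1 / 2) ^ j := by positivity
      linarith
    · by_cases h2 : h ≤ J + m
      · obtain ⟨i, hi, rfl⟩ : ∃ i, i + 1 ≤ m ∧ h = J + 1 + i := ⟨h - (J + 1), by omega, by omega⟩
        rw [lev_main (by omega), show J + 1 + i + 1 = J + 1 + (i + 1) by omega, lev_main hi]
        push_cast
        nlinarith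
      · have h3 : h = J + m + 1 := by omega
        subst h3
        rw [lev_last, lev_top]
        nlinarith

end lev

/-- the weights sum to one -/
theorem sum_wts {H : ℕ} {l : ℕ → ℝ} (h0 : l 0 = 0) (h1 : l (H + 1) = 1) :
    ∑ h : Fin (H + 1), wts H l h = 1 := by
  unfold wts
  rw [Fin.sum_univ_eq_sum_range (fun i => l (i + 1) - l i), Finset.sum_range_sub, h0, h1]
  ring

theorem wts_nonneg {H : ℕ} {l : ℕ → ℝ} (h : ∀ h, h ≤ H → l h < l (h + 1)) (i : Fin (H + 1)) :
    0 ≤ wts H l i := by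
  unfold wts
  have := h i (by omega)
  linarith

/-- tangent of `1/x` -/
theorem tangent {a u v : ℝ} (hu : 0 < u) (hv : 0 < v) : 2 * a - a ^ 2 * (v / u) ≤ u / v := by
  have h1 : u / v - (2 * a - a ^ 2 * (v / u)) = (u - a * v) ^ 2 / (u * v) := by
    field_simp
    ring
  have h2 : 0 ≤ (u - a * v) ^ 2 / (u * v) := by positivity
  linarith

end XiTAux

open XiTAux in
/-- E5: the inverse of the cylinder ratio -/
theorem stXiT (hK : StMomK) (hX : StXi) (hS : StXiS) (hV : StVol) : StXiT := by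
  obtain ⟨C, hC, hK⟩ := hK
  filter_upwards [hK, eventually_ge_atTop 3] with n hn hn3 δ T e hδ hm
  obtain ⟨-, hn⟩ := hn
  obtain ⟨-, -, -, -, hcyl⟩ := hn e
  have hn0 : (0 : ℝ) < n := by exact_mod_cast (by omega : 0 < n)
  have hr : 0 < rr n := by
    unfold rr
    have := Real.sqrt_pos.2 hn0
    positivity
  obtain ⟨hmeas, -, -, hv⟩ := hV (9 / 10) n (by norm_num) (by norm_num)
  have hbd : ∀ x ∈ M (9 / 10) n, ∀ e, 0 < x e ∧ x e ≤ 2 := by
    intro x hx e
    have := hx.1 e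
    exact ⟨by linarith [this.1], this.2⟩
  have hv0 : volume (M (9 / 10) n) ≠ 0 := by
    intro h0
    unfold vol at hv
    rw [h0] at hv
    norm_num at hv
  have hl0 : lv δ n 0 = 0 := lev_zero
  have hl1 : lv δ n (HH δ n + 1) = 1 := lev_top
  have hll : ∀ h, h ≤ HH δ n → lv δ n h < lv δ n (h + 1) := lev_lt hr hδ hm
  obtain ⟨-, hX2, hX3⟩ := hX (Edge n) (M (9 / 10) n) (HH δ n) (lv δ n) T hmeas hbd hv0 hl0 hl1 hll
  have hS' := hS n (HH δ n) (lv δ n) T hn3 hl0 hl1 hll e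
  have hposR : ∀ c, 0 < vol (Rset (M (9 / 10) n) (HH δ n) T.Q e c) := by
    intro c
    obtain ⟨h1, h2⟩ := hS' c
    linarith
  refine ⟨?_, fun c => ?_⟩
  · set a : ℝ := 1 - 1 / (n : ℝ) ^ 2 with ha
    have ha0 : 0 ≤ a := by
      have h1 : 1 / (n : ℝ) ^ 2 ≤ 1 := by
        rw [div_le_one (by positivity)]
        have : (1 : ℝ) ≤ n := by exact_mod_cast (by omega : 1 ≤ n)
        nlinarith
      linarith
    have hp0 : ∀ h, 0 ≤ pw δ n h := wts_nonneg hll
    have hp1 : ∑ h, pw δ n h = 1 := sum_wts hl0 hl1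
    have h1 : EE (pw δ n) (fun c => 2 * a - a ^ 2 *
        (vol (cyl (Rset (M (9 / 10) n) (HH δ n) T.Q e c) e) /
          vol (Rset (M (9 / 10) n) (HH δ n) T.Q e c))) ≤
        EE (pw δ n) (fun c => vol (Rset (M (9 / 10) n) (HH δ n) T.Q e c) /
          vol (cyl (Rset (M (9 / 10) n) (HH δ n) T.Q e c) e)) :=
      EE_mono hp0 fun c => tangent (hposR c) (hS' c).2
    rw [EE_sub, EE_const hp1 (2 * a), EE_mul_left] at h1
    have h2 : EE (pw δ n) (fun c => vol (cyl (Rset (M (9 / 10) n) (HH δ n) T.Q e c) e) /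
        vol (Rset (M (9 / 10) n) (HH δ n) T.Q e c)) ≤
        vol (cyl (M (9 / 10) n) e) / vol (M (9 / 10) n) := hX3 e
    have h3 : a * (vol (cyl (M (9 / 10) n) e) / vol (M (9 / 10) n)) ≤ 1 := by
      rw [← mul_div_assoc, div_le_one (by linarith)]
      exact hcyl
    have h4 : a ^ 2 * EE (pw δ n) (fun c => vol (cyl (Rset (M (9 / 10) n) (HH δ n) T.Q e c) e) /
        vol (Rset (M (9 / 10) n) (HH δ n) T.Q e c)) ≤ a := by
      calc a ^ 2 * EE (pw δ n) (fun c => vol (cyl (Rset (M (9 / 10) n) (HH δ n) T.Q e c) e) /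
            vol (Rset (M (9 / 10) n) (HH δ n) T.Q e c))
          ≤ a ^ 2 * (vol (cyl (M (9 / 10) n) e) / vol (M (9 / 10) n)) :=
            mul_le_mul_of_nonneg_left h2 (by positivity)
        _ = a * (a * (vol (cyl (M (9 / 10) n) e) / vol (M (9 / 10) n))) := by ring
        _ ≤ a * 1 := mul_le_mul_of_nonneg_left h3 ha0
        _ = a := mul_one a
    linarith
  · obtain ⟨h1, h2⟩ := hS' c
    constructor
    · rw [le_div_iff₀ h2]
      exact h1
    · rw [div_le_iff₀ h2]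
      exact hX2 e c

end Pool.Agent.Lib.MP_193d8d_pr
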