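import Pool.Agent.Lib.MP_193d8d_pr.AllA
import Pool.Agent.Lib.MP_193d8d_pr.Fin
import Pool.Agent.Lib.MP_193d8d_pr.BetaG
import Pool.Agent.Lib.MP_193d8d_pr.BetaEE
import Pool.Agent.Lib.MP_193d8d_pr.BetaDom
import Pool.Agent.Lib.MP_193d8d_pr.LowBox
import Pool.Agent.Lib.MP_193d8d_pr.Low
import Pool.Agent.Lib.MP_193d8d_pr.Vlow
import Pool.Agent.Lib.MP_193d8d_pr.BetaConv
import Pool.Agent.Lib.MP_193d8d_pr.Efron
import Pool.Agent.Lib.MP_193d8d_pr.Dvar
import Pool.Agent.Lib.MP_193d8d_pr.Dsym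
import Pool.Agent.Lib.MP_193d8d_pr.Lin
import Pool.Agent.Lib.MP_193d8d_pr.GapNN
import Pool.Agent.Lib.MP_193d8d_pr.SlackNN
import Pool.Agent.Lib.MP_193d8d_pr.MomK
import Pool.Agent.Lib.MP_193d8d_pr.UpJ
import Pool.Agent.Lib.MP_193d8d_pr.MonoT
import Pool.Agent.Lib.MP_193d8d_pr.XiS
import Pool.Agent.Lib.MP_193d8d_pr.NegC
import Pool.Agent.Lib.MP_193d8d_pr.PsMom
import Pool.Agent.Lib.MP_193d8d_pr.XiT
import Pool.Agent.Lib.MP_193d8d_pr.Qa
import Pool.Agent.Lib.MP_193d8d_pr.Qb
import Pool.Agent.Lib.MP_193d8d_pr.Qc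
import Pool.Agent.Lib.MP_193d8d_pr.GoodA
import Pool.Agent.Lib.MP_193d8d_pr.SteepT
import Pool.Agent.Lib.MP_193d8d_pr.LamTail
import Pool.Agent.Lib.MP_193d8d_pr.GoodB
import Pool.Agent.Lib.MP_193d8d_pr.Incr
import Pool.Agent.Lib.MP_193d8d_pr.IncQ
import Pool.Agent.Lib.MP_193d8d_pr.Cnt0
import Pool.Agent.Lib.MP_193d8d_pr.BetaGap
import Pool.Agent.Lib.MP_193d8d_pr.CloseQ
import Pool.Agent.Lib.MP_193d8d_pr.TailPos
import Pool.Agent.Lib.MP_193d8d_pr.IndepS
import Pool.Agent.Lib.MP_193d8d_pr.MartS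
import Pool.Agent.Lib.MP_193d8d_pr.ErrS
import Pool.Agent.Lib.MP_193d8d_pr.Triple
import Pool.Agent.Lib.MP_193d8d_pr.Core
import Pool.Agent.Lib.MP_193d8d_pr.GapLow
import Pool.Agent.Lib.MP_193d8d_pr.Rigid
import Pool.Agent.Lib.MP_193d8d_pr.Marg
import Pool.Agent.Lib.MP_193d8d_pr.CountClose
import Pool.Agent.Lib.MP_193d8d_pr.Pack
import Pool.Agent.Lib.MP_193d8d_pr.One
import Pool.Agent.Lib.MP_193d8d_pr.Two
import Pool.Agent.Lib.MP_193d8d_pr.Ex
import Pool.Agent.Lib.MP_193d8d_pr.LimG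
import Pool.Agent.Lib.MP_193d8d_pr.PosG
import Pool.Agent.Lib.MP_193d8d_pr.Vlim
import Pool.Agent.Lib.MP_193d8d_pr.OneD2
import Pool.Agent.Lib.MP_193d8d_pr.LCConv
import Pool.Agent.Lib.MP_193d8d_pr.Conv

/-! # Block 2 assembled -/

set_option autoImplicit false

namespace Pool.Agent.Lib.MP_193d8d_pr.MF

theorem bBetaG : StBetaG := stBetaG
theorem bBetaEE : StBetaEE := stBetaEE bBetaG
theorem bBetaDom : StBetaDom := stBetaDom bBetaG
theorem bLowBox : StLowBox := stLowBox
theorem bLow : StLow := stLow bLowBox bBetaDom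
theorem bVlow : StVlow := stVlow bLow
theorem bBetaConv : StBetaConv := stBetaConv
theorem bEfron : StEfron := stEfron
theorem bDvar : StDvar := stDvar bEfron
theorem bDsym : StDsym := stDsym
theorem bLin : StLin := stLin bDvar bDsym
theorem bGapNN : StGapNN := stGapNN
theorem bSlackNN : StSlackNN := stSlackNN bGapNN
theorem bMomK : StMomK := stMomK vol mom tight sharp zz proj
theorem bUpJ : StUpJ := stUpJ bMomK upE bLin bBetaEE vol
theorem bMonoT : StMonoT := stMonoT vol volR fubA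
theorem bXiS : StXiS := stXiS vol volR fubB
theorem bNegC : StNegC := stNegC vol volR fubB
theorem bPsMom : StPsMom := stPsMom bMomK momT negT vol
theorem bXiT : StXiT := stXiT bMomK xi bXiS vol
theorem bQa : StQa := stQa bPsMom
theorem bQb : StQb := stQb bMomK bPsMom xi bXiT bNegC vol volR avg
theorem bQc : StQc := stQc bPsMom bMonoT
theorem bGoodA : StGoodA := stGoodA bQa bQb bQc
theorem bSteepT : StSteepT := stSteepT bPsMom xi bXiT vol
theorem bLamTail : StLamTail := stLamTail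
theorem bGoodB : StGoodB := stGoodB bGoodA bSteepT bUpJ bSlackNN bVlow bLamTail
theorem bIncr : StIncr := stIncr
theorem bIncQ : StIncQ := stIncQ
theorem bCnt0 : StCnt0 := stCnt0
theorem bBetaGap : StBetaGap := stBetaGap bBetaG
theorem bCloseQ : StCloseQ := stCloseQ bIncQ bBetaGap bCnt0
theorem bTailPos : StTailPos := stTailPos
theorem bIndepS : StIndepS := stIndepS
theorem bMartS : StMartS := stMartS
theorem bErrS : StErrS := stErrS
theorem bTriple : StTriple := stTriple
theorem bCore : StCore := stCore bIndepS bMartS bErrS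
theorem bGapLow : StGapLow := stGapLow
theorem bRigid : StRigid := stRigid bCore bGapLow bGapNN bTriple bCnt0
theorem bMarg : StMarg := stMarg bPsMom xi bXiS avg vol volR sym
theorem bCountClose : StCountClose := stCountClose
theorem bPack : StPack := stPack bUpJ bLow bGoodA bSlackNN
theorem bOne : StOne := stOne bPack bGoodB bSteepT bIncr bRigid bMarg bTailPos
theorem bTwo : StTwo := stTwo bPack bGoodB bSteepT bCloseQ bCountClose bBetaConv bTailPos
theorem bEx : StEx := stEx tree vol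
theorem bLimG : StLimG := stLimG bOne bTwo bEx
theorem bPosG : StPosG := stPosG bOne bPack bGoodB bTailPos bEx
theorem bVlim : StVlim := stVlim bTwo bEx
theorem bOneD2 : StOneD2 := stOneD2
theorem bLCConv : StLCConv := stLCConv
theorem bConv : StConv := stConv bLCConv oneD bOneD2 densT densLe densLC tight mom sym bLimG bPosG sharp vol

theorem main : ConvStatement := stMain densT vol bConv
theorem volMain : VolStatement := stVolMain bVlim

end Pool.Agent.Lib.MP_193d8d_pr.MF
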