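import Mathlib

set_option autoImplicit false
open MeasureTheory Set

namespace Pool.Agent.Lib.MP_193d8d_pr

/-! ## edges -/

/-- the unordered pairs of `Fin n`, written with `a < b` -/
@[ext] structure Edge (n : ℕ) where
  a : Fin n
  b : Fin n
  lt : a < b

/-- sorting key: larger vertex first (colexicographic order) -/
def Edge.key {n : ℕ} (e : Edge n) : Lex (Fin n × Fin n) := toLex (e.b, e.a)

theorem Edge.key_inj {n : ℕ} : Function.Injective (Edge.key (n := n)) := by
  intro e f h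
  have h' : (e.b, e.a) = (f.b, f.a) := toLex.injective h
  rw [Prod.mk.injEq] at h'
  exact Edge.ext h'.2 h'.1

/-- colexicographic order on the edges -/
noncomputable instance {n : ℕ} : LinearOrder (Edge n) := LinearOrder.lift' Edge.key Edge.key_inj

instance {n : ℕ} : Fintype (Edge n) :=
  Fintype.ofEquiv {p : Fin n × Fin n // p.1 < p.2}
    { toFun := fun p => ⟨p.1.1, p.1.2, p.2⟩
      invFun := fun e => ⟨(e.a, e.b), e.lt⟩
      left_inv := fun _ => rfl
      right_inv := fun _ => rfl }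

/-- symmetric extension of a function on edges to ordered pairs, with value `d` on the diagonal -/
def ext {n : ℕ} {α : Type*} (d : α) (x : Edge n → α) (i j : Fin n) : α :=
  if h : i < j then x ⟨i, j, h⟩ else if h : j < i then x ⟨j, i, h⟩ else d

/-! ## the metric polytope -/

/-- metrics on `n` points with all distances in `(κ, 2]`; `M 0 n` is the metric polytope -/
def M (κ : ℝ) (n : ℕ) : Set (Edge n → ℝ) :=
  {x | (∀ e, κ < x e ∧ x e ≤ 2) ∧ ∀ i j k, ext 0 x i j ≤ ext 0 x i k + ext 0 x k j}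

section general

variable {E : Type} [Fintype E] [DecidableEq E]

/-- volume as a real number -/
noncomputable def vol (S : Set (E → ℝ)) : ℝ := (volume S).toReal

/-- the slice `x e = t` of `S`, as a cylinder over `(0,1)` -/
def slice (S : Set (E → ℝ)) (e : E) (t : ℝ) : Set (E → ℝ) :=
  {x | x e ∈ Ioo (0 : ℝ) 1 ∧ Function.update x e t ∈ S}

/-- fibre of `S` over the other coordinates of `x` -/
def fib (S : Set (E → ℝ)) (e : E) (x : E → ℝ) : Set ℝ := {y | Function.update x e y ∈ S}

/-- the projection of `S` along the coordinate `e` (points with a fibre of positive length),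
as a cylinder over `(0,1)` -/
def cyl (S : Set (E → ℝ)) (e : E) : Set (E → ℝ) :=
  {x | x e ∈ Ioo (0 : ℝ) 1 ∧ volume (fib S e x) ≠ 0}

/-- mean value of `g` on `S` -/
noncomputable def mean (S : Set (E → ℝ)) (g : (E → ℝ) → ℝ) : ℝ := (∫ x in S, g x) / vol S

end general

/-- density of the coordinate `e` of a uniform random point of `M κ n` -/
noncomputable def dens (κ : ℝ) (n : ℕ) (e : Edge n) (t : ℝ) : ℝ :=
  vol (slice (M κ n) e t) / vol (M κ n)

/-- probability of `x e ≤ 1` -/
noncomputable def wt (κ : ℝ) (n : ℕ) (e : Edge n) : ℝ :=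
  vol {x | x ∈ M κ n ∧ x e ≤ 1} / vol (M κ n)

/-! ## finite product expectations -/

/-- expectation of `f` under the product of the weights `p` -/
noncomputable def EE {ι κ : Type} [Fintype ι] [DecidableEq ι] [Fintype κ] (p : κ → ℝ)
    (f : (ι → κ) → ℝ) : ℝ := ∑ c : ι → κ, (∏ e, p (c e)) * f c

/-- average over the edges -/
noncomputable def AV {n : ℕ} (f : Edge n → ℝ) : ℝ := (∑ e, f e) / (Fintype.card (Edge n) : ℝ)

/-- `max (0, max_k f k)` -/
noncomputable def sup0 {ι : Type} [Fintype ι] (f : ι → ℝ) : ℝ :=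
  (insert 0 (Finset.univ.image f)).max' (Finset.insert_nonempty _ _)

/-- clamp to `[-K, K]` -/
noncomputable def clamp (K x : ℝ) : ℝ := max (-K) (min x K)

/-! ## trees of conditional quantiles -/

section tree

variable {E : Type} [Fintype E] [LinearOrder E]

/-- the part of `S` where every coordinate before `e` lies in its cell -/
def Rset (S : Set (E → ℝ)) (H : ℕ) (Q : E → (E → Fin (H + 1)) → ℕ → ℝ) (e : E)
    (c : E → Fin (H + 1)) : Set (E → ℝ) :=
  {x | x ∈ S ∧ ∀ e', e' < e → Q e' c (c e') < x e' ∧ x e' ≤ Q e' c ((c e' : ℕ) + 1)}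

/-- the part of `S` where all coordinates lie in their cells -/
def Rall (S : Set (E → ℝ)) (H : ℕ) (Q : E → (E → Fin (H + 1)) → ℕ → ℝ)
    (c : E → Fin (H + 1)) : Set (E → ℝ) :=
  {x | x ∈ S ∧ ∀ e', Q e' c (c e') < x e' ∧ x e' ≤ Q e' c ((c e' : ℕ) + 1)}

/-- tree of conditional quantiles of the uniform measure on `S`: levels `lev 0 = 0, ..,
`lev (H+1) = 1`; given the cells of the coordinates before `e`, the coordinate `e` is
`≤ Q e c h` with probability `lev h` -/
structure Tree (S : Set (E → ℝ)) (H : ℕ) (lev : ℕ → ℝ) where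
  Q : E → (E → Fin (H + 1)) → ℕ → ℝ
  pred : ∀ e c c', (∀ e', e' < e → c e' = c' e') → Q e c = Q e c'
  zero : ∀ e c, Q e c 0 = 0
  top : ∀ e c, Q e c (H + 1) = 2
  lt : ∀ e c h, h ≤ H → Q e c h < Q e c (h + 1)
  cut : ∀ e c h, h ≤ H + 1 → volume (Rset S H Q e c ∩ {x | x e ≤ Q e c h}) =
    ENNReal.ofReal (lev h) * volume (Rset S H Q e c)

/-- cell probabilities -/
def wts (H : ℕ) (lev : ℕ → ℝ) (h : Fin (H + 1)) : ℝ := lev ((h : ℕ) + 1) - lev h

end tree

/-- levels: `J` dyadic tail cells below `ε δ`, then `m` cells of mass `ε δ`, then the rest;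
`lev (J+1+i) = ε δ (i+1)` for `i ≤ m`; the number of cells is `J + m + 2` -/
noncomputable def lev (ε δ : ℝ) (J m : ℕ) (h : ℕ) : ℝ :=
  if h = 0 then 0 else if h ≤ J + 1 then ε * δ * (1 / 2) ^ (J + 1 - h)
  else if h ≤ J + 1 + m then ε * δ * ((h : ℝ) - J) else 1

/-- class of a cell: `0` for the tail cells, `i` for the main cell number `i` -/
def cls (J : ℕ) {H : ℕ} (h : Fin (H + 1)) : ℕ := (h : ℕ) - J

/-- position (in the scale `ε`, seen from `1`, large = short edge) of the quantile of level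
`ε δ (i+1)` -/
noncomputable def ps {E : Type} {H : ℕ} (Q : E → (E → Fin (H + 1)) → ℕ → ℝ) (ε : ℝ) (J : ℕ)
    (e : E) (c : E → Fin (H + 1)) (i : ℕ) : ℝ := (1 - Q e c (J + 1 + i)) / ε

/-- position of the quantile of level `ε δ 2^(-j)`, `j ≤ J` -/
noncomputable def al {E : Type} {H : ℕ} (Q : E → (E → Fin (H + 1)) → ℕ → ℝ) (ε : ℝ) (J : ℕ)
    (e : E) (c : E → Fin (H + 1)) (j : ℕ) : ℝ := (1 - Q e c (J + 1 - j)) / ε

/-- clamped lower bound for the position of the edge `e` in its cell; `-K` for the last cell -/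
noncomputable def val {E : Type} {H : ℕ} (K : ℝ) (J : ℕ) (a : E → (E → Fin (H + 1)) → ℕ → ℝ)
    (c : E → Fin (H + 1)) (e : E) : ℝ :=
  if (c e : ℕ) = H then -K else clamp K (a e c (cls J (c e)))

/-- `max (0, max_k (v(a,k) + v(k,b)))` for an edge `e = {a,b}` -/
noncomputable def cherry {n : ℕ} (v : Edge n → ℝ) (e : Edge n) : ℝ :=
  sup0 (fun k : Fin n => if k = e.a ∨ k = e.b then 0 else ext 0 v e.a k + ext 0 v k e.b)

/-- the concave function `δ + δ log (x/δ)` for `x ≥ δ`, continued by `x` -/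
noncomputable def lamf (δ x : ℝ) : ℝ := if x ≤ δ then x else δ + δ * Real.log (x / δ)

/-- entropy functional of a profile `a 0 ≥ a 1 ≥ .. ≥ a m` -/
noncomputable def Lam (δ : ℝ) (m : ℕ) (a : ℕ → ℝ) : ℝ :=
  (∑ i ∈ Finset.range m, lamf δ (a i - a (i + 1))) + a m

/-- upper bound for the distances `x i j` from the cherries of the cells (in absolute scale):
`2 - max (0, max_k (2 - up(i,k) - up(k,j)))` -/
noncomputable def bt {n H : ℕ} (Q : Edge n → (Edge n → Fin (H + 1)) → ℕ → ℝ)
    (c : Edge n → Fin (H + 1)) (e : Edge n) : ℝ :=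
  sup0 (fun k : Fin n => if k = e.a ∨ k = e.b ∨ ((ext (Fin.last H) c e.a k : Fin (H + 1)) : ℕ) = H
      ∨ ((ext (Fin.last H) c k e.b : Fin (H + 1)) : ℕ) = H then 0
    else 2 - ext 0 (fun e' => Q e' c ((c e' : ℕ) + 1)) e.a k
      - ext 0 (fun e' => Q e' c ((c e' : ℕ) + 1)) k e.b)

/-- side length of the box which contains `Rall`, coordinate `e` -/
noncomputable def len {n H : ℕ} (Q : Edge n → (Edge n → Fin (H + 1)) → ℕ → ℝ)
    (c : Edge n → Fin (H + 1)) (e : Edge n) : ℝ :=
  if (c e : ℕ) = H then 2 - bt Q c e - Q e c H else Q e c ((c e : ℕ) + 1) - Q e c (c e)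

end Pool.Agent.Lib.MP_193d8d_pr
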