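import Pool.Agent.Lib.MP_193d8d_pr.Defs

set_option autoImplicit false
open MeasureTheory Set

namespace Pool.Agent.Lib.MP_193d8d_pr

/-! ## the functional -/

/-- number of pairs `(i,i')`, `i, i' ≤ m`, with `q i + q i' > s` -/
noncomputable def cnt (m : ℕ) (q : ℕ → ℝ) (s : ℝ) : ℝ :=
  (((Finset.range (m + 1) ×ˢ Finset.range (m + 1)).filter (fun z => s < q z.1 + q z.2)).card : ℝ)

/-- expectation of the cherry term: `N` independent pairs of cells, each cell `i ≤ m` has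
probability `ρ` -/
noncomputable def beta (N : ℕ) (ρ : ℝ) (m : ℕ) (q : ℕ → ℝ) : ℝ :=
  ∫ s in Ioi (0 : ℝ), (1 - (1 - ρ ^ 2 * cnt m q s) ^ N)

/-- reference value of a cell -/
noncomputable def ref {H : ℕ} (K : ℝ) (J : ℕ) (q : ℕ → ℝ) (h : Fin (H + 1)) : ℝ :=
  if (h : ℕ) = H then -K else q (cls J h)

/-- the vertices `k` with a maximal cherry -/
noncomputable def amax {n : ℕ} (u : Edge n → ℝ) (e : Edge n) : Finset (Fin n) :=
  Finset.univ.filter (fun k => k ≠ e.a ∧ k ≠ e.b ∧ ext 0 u e.a k + ext 0 u k e.b = cherry u e)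

/-- derivative of the cherry function at `u` in the direction `d` (uniform subgradient) -/
noncomputable def lin {n : ℕ} (u d : Edge n → ℝ) (e : Edge n) : ℝ :=
  if 0 < cherry u e then
    (∑ k ∈ amax u e, (ext 0 d e.a k + ext 0 d k e.b)) / ((amax u e).card : ℝ) else 0

/-- convexity gap -/
noncomputable def gap {n : ℕ} (u v : Edge n → ℝ) (e : Edge n) : ℝ :=
  cherry v e - cherry u e - lin u (fun f => v f - u f) e

/-- total subgradient in the coordinate `g` -/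
noncomputable def Dw {n : ℕ} (u : Edge n → ℝ) (g : Edge n) : ℝ :=
  ∑ e, lin u (fun f => if f = g then 1 else 0) e

/-- side of the boxes in the lower bound: labels `0..m-1` are the cells `(q (i+1), q i]`, label
`m` is the rest -/
noncomputable def lowside {n : ℕ} (r K : ℝ) (m : ℕ) (q : ℕ → ℝ) (ω : Edge n → Fin (m + 1))
    (e : Edge n) : ℝ :=
  if (ω e : ℕ) = m then
    1 + r * (q m - cherry (fun f => if (ω f : ℕ) = m then -K else q (ω f)) e)
  else r * (q (ω e) - q ((ω e : ℕ) + 1))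

/-! ## fixed choices of the parameters -/

noncomputable def rr (n : ℕ) : ℝ := 1 / Real.sqrt n
noncomputable def md (δ : ℝ) : ℕ := ⌈1 / δ ^ 2⌉₊
noncomputable def Kd (δ : ℝ) : ℝ := 4 / δ

/-- number of cells minus one -/
noncomputable abbrev HH (δ : ℝ) (n : ℕ) : ℕ := n + md δ + 1

noncomputable def lv (δ : ℝ) (n : ℕ) : ℕ → ℝ := lev (rr n) δ n (md δ)

/-- trees of the polytope with distances above 9/10 -/
abbrev TT (δ : ℝ) (n : ℕ) : Type := Tree (M (9 / 10) n) (HH δ n) (lv δ n)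

noncomputable def pw (δ : ℝ) (n : ℕ) : Fin (HH δ n + 1) → ℝ := wts (HH δ n) (lv δ n)

/-- average over edges and cells -/
noncomputable def AE (δ : ℝ) (n : ℕ) (F : Edge n → (Edge n → Fin (HH δ n + 1)) → ℝ) : ℝ :=
  AV (fun e => EE (pw δ n) (F e))

/-- clamped position -/
noncomputable def pos {δ : ℝ} {n : ℕ} (T : TT δ n) (e : Edge n)
    (c : Edge n → Fin (HH δ n + 1)) (i : ℕ) : ℝ := clamp (Kd δ) (ps T.Q (rr n) n e c i)

/-- the averaged profile -/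
noncomputable def qv {δ : ℝ} {n : ℕ} (T : TT δ n) (i : ℕ) : ℝ := AE δ n (fun e c => pos T e c i)

/-- the functional `J` -/
noncomputable def Jn (δ : ℝ) (n : ℕ) (q : ℕ → ℝ) : ℝ :=
  Lam δ (md δ) q - beta (n - 2) (δ * rr n) (md δ) q

noncomputable def slackA {δ : ℝ} {n : ℕ} (T : TT δ n) : ℝ :=
  Lam δ (md δ) (qv T) - AE δ n (fun e c => Lam δ (md δ) (pos T e c))

noncomputable def slackB {δ : ℝ} {n : ℕ} (T : TT δ n) : ℝ :=
  AE δ n (fun e c => gap (fun f => ref (Kd δ) n (qv T) (c f))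
    (val (Kd δ) n (ps T.Q (rr n) n) c) e)

/-- normalised logarithm of the volume of the metric polytope -/
noncomputable def vv (n : ℕ) : ℝ :=
  Real.log (vol (M 0 n)) / ((Fintype.card (Edge n) : ℝ) * rr n)

/-- profiles with a priori bounds -/
def GoodA (C0 δ : ℝ) (q : ℕ → ℝ) : Prop :=
  (∀ i < md δ, q (i + 1) ≤ q i) ∧ (∀ i ≤ md δ, |q i| ≤ Kd δ) ∧
  (∀ i ≤ md δ, q i ≤ C0 / Real.sqrt ((i + 1) * δ)) ∧
  (∀ i ≤ md δ, 1 ≤ ((i : ℝ) + 1) * δ → q i ≤ C0 - (i + 1) * δ / 2) ∧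
  (∀ i ≤ md δ, -C0 - 2 * (((i : ℝ) + 1) * δ) ≤ q i) ∧
  (∀ i < md δ, q i - q (i + 1) ≤ δ * (C0 * (1 + 1 / (((i : ℝ) + 1) * δ)) ^ 2)) ∧
  q 0 + q (md δ) ≤ -2

def Good (C0 c1 δ : ℝ) (q : ℕ → ℝ) : Prop :=
  GoodA C0 δ q ∧ ∀ i ≤ md δ, ((i : ℝ) + 1) * δ ≤ c1 → c1 ≤ q i

/-- increments bounded below, up to level `Γ` -/
def Steep (η Γ δ : ℝ) (q : ℕ → ℝ) : Prop :=
  ∀ i < md δ, ((i : ℝ) + 1) * δ ≤ Γ → (1 - η) * δ ≤ q i - q (i + 1)

/-- indices `i < m` of level in `[γ, Γ]` -/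
noncomputable def rg (δ γ Γ : ℝ) : Finset ℕ :=
  (Finset.range (md δ)).filter (fun i => γ ≤ ((i : ℝ) + 1) * δ ∧ ((i : ℝ) + 1) * δ ≤ Γ)

/-- total deviation of the increments on the levels `[γ, Γ]` -/
noncomputable def tv {δ : ℝ} {n : ℕ} (T : TT δ n) (γ Γ : ℝ) (e : Edge n)
    (c : Edge n → Fin (HH δ n + 1)) : ℝ :=
  ∑ i ∈ rg δ γ Γ, |(pos T e c i - pos T e c (i + 1)) - (qv T i - qv T (i + 1))|

/-- maximal deviation of the positions on the levels `[γ, Γ]` -/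
noncomputable def dev {δ : ℝ} {n : ℕ} (T : TT δ n) (γ Γ : ℝ) (e : Edge n)
    (c : Edge n → Fin (HH δ n + 1)) : ℝ :=
  sup0 (fun i : Fin (md δ + 1) => if γ ≤ ((i : ℕ) + 1 : ℝ) * δ ∧ ((i : ℕ) + 1 : ℝ) * δ ≤ Γ then
    |pos T e c i - qv T i| else 0)

/-- rescaled distribution function of one distance, polytope with distances above 9/10 -/
noncomputable def Gs (n : ℕ) (e : Edge n) (t : ℝ) : ℝ :=
  Real.sqrt n * (vol {x | x ∈ M (9 / 10) n ∧ x e < 1 - t * rr n} / vol (M (9 / 10) n))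

/-- level of the profile at `t` -/
noncomputable def lq (δ : ℝ) (q : ℕ → ℝ) (t : ℝ) : ℝ :=
  δ * (((Finset.range (md δ + 1)).filter (fun i => t < q i)).card : ℝ)

end Pool.Agent.Lib.MP_193d8d_pr
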