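import Pool.Agent.Lib.MP_193d8d_pr.StA
import Pool.Agent.Lib.MP_193d8d_pr.StB
import Pool.Agent.Lib.MP_193d8d_pr.Base

set_option autoImplicit false
open MeasureTheory Set

/-! # D3: the symmetry of the subgradients -/

namespace Pool.Agent.Lib.MP_193d8d_pr

namespace DsymAux

variable {n : ℕ}

/-- the image of an edge under a map of the vertices -/
noncomputable def mv (π : Equiv.Perm (Fin n)) (f : Edge n) : Edge n :=
  edge (π f.a) (π f.b) (fun h => f.lt.ne (π.injective h))

theorem ext_mv {α : Type*} (d : α) (π : Equiv.Perm (Fin n)) (x : Edge n → α) (f : Edge n) :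
    x (mv π f) = ext d x (π f.a) (π f.b) :=
  (ext_ne d x _).symm

theorem ext_comp_mv {α : Type*} (d : α) (π : Equiv.Perm (Fin n)) (x : Edge n → α) (i j : Fin n) :
    ext d (fun f => x (mv π f)) i j = ext d x (π i) (π j) := by
  rcases lt_trichotomy i j with h | h | h
  · rw [ext_of_lt d _ h]
    exact ext_mv d π x _
  · subst h
    rw [ext_self, ext_self]
  · rw [ext_of_gt d _ h, ext_symm d x]
    exact ext_mv d π x _

/-- two edges with the same ends -/
theorem edge_eq_of {f g : Edge n} (h : (f.a = g.a ∧ f.b = g.b) ∨ (f.a = g.b ∧ f.b = g.a)) :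
    f = g := by
  rcases h with ⟨h1, h2⟩ | ⟨h1, h2⟩
  · exact Edge.ext h1 h2
  · exact absurd f.lt (by rw [h1, h2]; exact not_lt.2 g.lt.le)

theorem edge_ends (i j : Fin n) (h : i ≠ j) :
    ((edge i j h).a = i ∧ (edge i j h).b = j) ∨ ((edge i j h).a = j ∧ (edge i j h).b = i) := by
  unfold edge
  split_ifs with h'
  · exact Or.inl ⟨rfl, rfl⟩
  · exact Or.inr ⟨rfl, rfl⟩

theorem mv_ends (π : Equiv.Perm (Fin n)) (f : Edge n) :
    ((mv π f).a = π f.a ∧ (mv π f).b = π f.b) ∨ ((mv π f).a = π f.b ∧ (mv π f).b = π f.a) :=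
  edge_ends (π f.a) (π f.b) (fun h => f.lt.ne (π.injective h))

theorem mv_mv (π ρ : Equiv.Perm (Fin n)) (h : ∀ i, π (ρ i) = i) (f : Edge n) :
    mv π (mv ρ f) = f := by
  apply edge_eq_of
  have h1 := mv_ends ρ f
  have h2 := mv_ends π (mv ρ f)
  rcases h1 with ⟨h1, h1'⟩ | ⟨h1, h1'⟩ <;> rcases h2 with ⟨h2, h2'⟩ | ⟨h2, h2'⟩ <;>
    rw [h1, h] at * <;> rw [h1', h] at * <;> simp_all

/-- the permutation of the edges -/
noncomputable def sg (π : Equiv.Perm (Fin n)) : Equiv.Perm (Edge n) where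
  toFun := mv π
  invFun := mv π⁻¹
  left_inv := mv_mv _ _ (fun i => by simp)
  right_inv := mv_mv _ _ (fun i => by simp)

theorem sg_apply (π : Equiv.Perm (Fin n)) (f : Edge n) : sg π f = mv π f := rfl

/-- there is a permutation which moves an edge to another edge -/
theorem exists_perm (e e' : Edge n) : ∃ π : Equiv.Perm (Fin n), mv π e = e' := by
  obtain ⟨π, h1, h2⟩ : ∃ π : Equiv.Perm (Fin n), π e.a = e'.a ∧ π e.b = e'.b := by
    refine ⟨(Equiv.swap (Equiv.swap e.a e'.a e.b) e'.b) * (Equiv.swap e.a e'.a), ?_, ?_⟩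
    · rw [Equiv.Perm.mul_apply, Equiv.swap_apply_left]
      apply Equiv.swap_apply_of_ne_of_ne
      · intro h
        have h3 : Equiv.swap e.a e'.a e.a = Equiv.swap e.a e'.a e.b := by
          rw [Equiv.swap_apply_left]
          exact h
        exact e.lt.ne ((Equiv.swap e.a e'.a).injective h3)
      · exact e'.lt.ne
    · rw [Equiv.Perm.mul_apply, Equiv.swap_apply_left]
  refine ⟨π, ?_⟩
  have h3 := mv_ends π e
  apply edge_eq_of
  rwa [h1, h2] at h3

/-- one path of length two -/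
theorem two_path (π : Equiv.Perm (Fin n)) (u : Edge n → ℝ) (e : Edge n) (k : Fin n) :
    ext 0 u (mv π e).a (π k) + ext 0 u (π k) (mv π e).b =
      ext 0 (fun f => u (mv π f)) e.a k + ext 0 (fun f => u (mv π f)) k e.b := by
  rw [ext_comp_mv, ext_comp_mv]
  rcases mv_ends π e with ⟨h1, h2⟩ | ⟨h1, h2⟩
  · rw [h1, h2]
  · rw [h1, h2, ext_symm 0 u (π e.b) (π k), ext_symm 0 u (π k) (π e.a)]
    ring

theorem ends_iff (π : Equiv.Perm (Fin n)) (e : Edge n) (k : Fin n) :
    (π k = (mv π e).a ∨ π k = (mv π e).b) ↔ (k = e.a ∨ k = e.b) := by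
  rcases mv_ends π e with ⟨h1, h2⟩ | ⟨h1, h2⟩
  · rw [h1, h2, π.injective.eq_iff, π.injective.eq_iff]
  · rw [h1, h2, π.injective.eq_iff, π.injective.eq_iff, or_comm]

theorem cherry_mv (π : Equiv.Perm (Fin n)) (u : Edge n → ℝ) (e : Edge n) :
    cherry u (mv π e) = cherry (fun f => u (mv π f)) e := by
  have key : ∀ k : Fin n,
      (if π k = (mv π e).a ∨ π k = (mv π e).b then (0 : ℝ) else
        ext 0 u (mv π e).a (π k) + ext 0 u (π k) (mv π e).b) =
      (if k = e.a ∨ k = e.b then 0 else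
        ext 0 (fun f => u (mv π f)) e.a k + ext 0 (fun f => u (mv π f)) k e.b) := by
    intro k
    rw [two_path]
    by_cases h : k = e.a ∨ k = e.b
    · rw [if_pos h, if_pos ((ends_iff π e k).2 h)]
    · rw [if_neg h, if_neg (fun h' => h ((ends_iff π e k).1 h'))]
  unfold cherry
  apply le_antisymm
  · apply sup0_le (sup0_nonneg _)
    intro k
    have h1 := key (π.symm k)
    rw [Equiv.apply_symm_apply] at h1
    rw [h1]
    exact le_sup0 (fun k : Fin n => if k = e.a ∨ k = e.b then (0 : ℝ) else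
        ext 0 (fun f => u (mv π f)) e.a k + ext 0 (fun f => u (mv π f)) k e.b) (π.symm k)
  · apply sup0_le (sup0_nonneg _)
    intro k
    rw [← key k]
    exact le_sup0 (fun k : Fin n => if k = (mv π e).a ∨ k = (mv π e).b then (0 : ℝ) else
        ext 0 u (mv π e).a k + ext 0 u k (mv π e).b) (π k)

theorem amax_mv (π : Equiv.Perm (Fin n)) (u : Edge n → ℝ) (e : Edge n) :
    amax u (mv π e) = (amax (fun f => u (mv π f)) e).map π.toEmbedding := by
  ext k
  rw [Finset.mem_map_equiv]
  unfold amax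
  rw [Finset.mem_filter, Finset.mem_filter]
  have h0 : π (π.symm k) = k := π.apply_symm_apply k
  have h1 := ends_iff π e (π.symm k)
  have h2 := two_path π u e (π.symm k)
  rw [h0] at h1 h2
  rw [← h2, ← cherry_mv]
  constructor
  · rintro ⟨-, g1, g2, g3⟩
    refine ⟨Finset.mem_univ _, fun h => ?_, fun h => ?_, g3⟩
    · rcases h1.2 (Or.inl h) with h' | h'
      · exact g1 h'
      · exact g2 h'
    · rcases h1.2 (Or.inr h) with h' | h'
      · exact g1 h'
      · exact g2 h'
  · rintro ⟨-, g1, g2, g3⟩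
    refine ⟨Finset.mem_univ _, fun h => ?_, fun h => ?_, g3⟩
    · rcases h1.1 (Or.inl h) with h' | h'
      · exact g1 h'
      · exact g2 h'
    · rcases h1.1 (Or.inr h) with h' | h'
      · exact g1 h'
      · exact g2 h'

theorem lin_mv (π : Equiv.Perm (Fin n)) (u d : Edge n → ℝ) (e : Edge n) :
    lin u d (mv π e) = lin (fun f => u (mv π f)) (fun f => d (mv π f)) e := by
  unfold lin
  rw [cherry_mv, amax_mv, Finset.card_map, Finset.sum_map]
  simp only [Equiv.coe_toEmbedding, two_path]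

theorem Dw_mv (π : Equiv.Perm (Fin n)) (u : Edge n → ℝ) (g : Edge n) :
    Dw u (mv π g) = Dw (fun f => u (mv π f)) g := by
  unfold Dw
  rw [← Equiv.sum_comp (sg π)]
  apply Finset.sum_congr rfl
  intro e _
  rw [sg_apply, lin_mv]
  congr 1
  funext f
  have h : (mv π f = mv π g) ↔ f = g := (sg π).injective.eq_iff
  by_cases hf : f = g
  · rw [if_pos hf, if_pos (h.2 hf)]
  · rw [if_neg hf, if_neg (fun h' => hf (h.1 h'))]

theorem EE_mv {κ : Type} [Fintype κ] (p : κ → ℝ) (π : Equiv.Perm (Fin n))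
    (F : (Edge n → κ) → ℝ) : EE p (fun c => F (fun f => c (mv π f))) = EE p F := by
  unfold EE
  rw [← Equiv.sum_comp (Equiv.arrowCongr (sg π).symm (Equiv.refl κ)) (fun c => (∏ e, p (c e)) * F c)]
  apply Finset.sum_congr rfl
  intro c _
  have h1 : (Equiv.arrowCongr (sg π).symm (Equiv.refl κ)) c = fun f => c (mv π f) := by
    funext f
    rfl
  rw [h1]
  congr 1
  rw [← Equiv.prod_comp (sg π) (fun e => p (c e))]
  rfl

end DsymAux

open DsymAux in
/-- D3 -/
theorem stDsym : StDsym := by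
  intro n κ _ _ p rv h0 g g'
  obtain ⟨π, hπ⟩ := exists_perm g g'
  rw [← EE_mv p π]
  apply EE_congr
  intro c
  rw [← hπ, Dw_mv]
  congr 1
  funext f
  congr 1
  by_cases hf : f = g
  · rw [hf, Function.update_self, Function.update_self]
  · rw [Function.update_of_ne hf, Function.update_of_ne]
    intro h
    exact hf ((sg π).injective h)

end Pool.Agent.Lib.MP_193d8d_pr
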