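import Pool.Agent.Lib.MP_193d8d_pr.StB
import Pool.Agent.Lib.MP_193d8d_pr.Base

/-!
Quantitative strict concavity of `lam y = y (y ≤ 1), 1 + log y (y ≥ 1)` for averages.
-/

set_option autoImplicit false
open MeasureTheory Set

namespace Pool.Agent.Lib.MP_193d8d_pr

namespace IncrBase

/-- the normalised concave function -/
noncomputable def lam (y : ℝ) : ℝ := if y ≤ 1 then y else 1 + Real.log y

theorem lamf_eq {δ : ℝ} (hδ : 0 < δ) (x : ℝ) : lamf δ x = δ * lam (x / δ) := by
  unfold lamf lam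
  by_cases h : x ≤ δ
  · rw [if_pos h, if_pos ((div_le_one hδ).2 h)]
    field_simp
  · rw [if_neg h, if_neg (fun h' => h ((div_le_one hδ).1 h'))]
    ring

theorem lam_eq (y : ℝ) : lam y = 1 + Real.log (max y 1) - max 0 (1 - y) := by
  unfold lam
  split_ifs with h
  · rw [max_eq_right h, Real.log_one, max_eq_right (by linarith)]
    ring
  · have h' : 1 ≤ y := (not_le.1 h).le
    rw [max_eq_left h', max_eq_left (by linarith)]
    ring

/-- `z - 1 - log z` -/
noncomputable def ph (z : ℝ) : ℝ := z - 1 - Real.log z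

theorem ph_nonneg {z : ℝ} (hz : 0 < z) : 0 ≤ ph z := by
  unfold ph
  have := Real.log_le_sub_one_of_pos hz
  linarith

theorem ph_ge {z : ℝ} (hz : 1 ≤ z) : (z - 1) ^ 2 / (2 * z) ≤ ph z := by
  -- derivative comparison
  have hmono : MonotoneOn (fun z : ℝ => z - 1 - Real.log z - (z - 1) ^ 2 / (2 * z)) (Ici 1) := by
    apply monotoneOn_of_deriv_nonneg (convex_Ici 1)
    · apply ContinuousOn.sub
      · apply ContinuousOn.sub (by fun_prop)
        apply ContinuousOn.log continuousOn_id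
        intro x hx
        have : (1 : ℝ) ≤ x := hx
        exact ne_of_gt (by simpa using lt_of_lt_of_le one_pos this)
      · apply ContinuousOn.div (by fun_prop) (by fun_prop)
        intro x hx
        have : (1 : ℝ) ≤ x := hx
        have : 0 < x := lt_of_lt_of_le one_pos this
        positivity
    · intro x hx
      rw [interior_Ici] at hx
      have hx0 : 0 < x := lt_trans one_pos hx
      have h1 : DifferentiableAt ℝ Real.log x := Real.differentiableAt_log hx0.ne'
      apply DifferentiableAt.differentiableWithinAt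
      apply DifferentiableAt.sub
      · exact (differentiableAt_id.sub_const 1).sub h1
      · apply DifferentiableAt.div (by fun_prop) (by fun_prop)
        positivity
    · intro x hx
      rw [interior_Ici] at hx
      have hx0 : 0 < x := lt_trans one_pos hx
      have hd : HasDerivAt (fun z : ℝ => z - 1 - Real.log z - (z - 1) ^ 2 / (2 * z))
          (1 - x⁻¹ - ((2 * (x - 1)) * (2 * x) - (x - 1) ^ 2 * 2) / (2 * x) ^ 2) x := by
        have h1 : HasDerivAt (fun z : ℝ => z - 1 - Real.log z) (1 - x⁻¹) x :=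
          ((hasDerivAt_id x).sub_const 1).sub (Real.hasDerivAt_log hx0.ne')
        have h2 : HasDerivAt (fun z : ℝ => (z - 1) ^ 2) (2 * (x - 1)) x := by
          have := ((hasDerivAt_id' x).sub_const 1).fun_pow 2
          simpa using this
        have h3 : HasDerivAt (fun z : ℝ => 2 * z) 2 x := by
          simpa using (hasDerivAt_id x).const_mul 2
        exact h1.sub (h2.div h3 (by positivity))
      rw [hd.deriv]
      have e : 1 - x⁻¹ - ((2 * (x - 1)) * (2 * x) - (x - 1) ^ 2 * 2) / (2 * x) ^ 2 =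
          (x - 1) ^ 2 / (2 * x ^ 2) := by
        field_simp
        ring
      rw [e]
      positivity
  have h := hmono (mem_Ici.2 le_rfl) (mem_Ici.2 hz) hz
  simp only [sub_self, Real.log_one, ne_eq, OfNat.ofNat_ne_zero, not_false_eq_true, zero_pow,
    zero_div] at h
  unfold ph
  linarith

theorem ph_ge' {z : ℝ} (hz0 : 0 < z) (hz : z ≤ 1) : (z - 1) ^ 2 / 2 ≤ ph z := by
  have hanti : AntitoneOn (fun z : ℝ => z - 1 - Real.log z - (z - 1) ^ 2 / 2) (Ioc 0 1) := by
    apply antitoneOn_of_deriv_nonpos (convex_Ioc 0 1)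
    · apply ContinuousOn.sub
      · apply ContinuousOn.sub (by fun_prop)
        apply ContinuousOn.log continuousOn_id
        intro x hx
        exact ne_of_gt (by simpa using hx.1)
      · fun_prop
    · intro x hx
      rw [interior_Ioc] at hx
      have h1 : DifferentiableAt ℝ Real.log x := Real.differentiableAt_log hx.1.ne'
      apply DifferentiableAt.differentiableWithinAt
      apply DifferentiableAt.sub
      · exact (differentiableAt_id.sub_const 1).sub h1
      · fun_prop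
    · intro x hx
      rw [interior_Ioc] at hx
      have hx0 : 0 < x := hx.1
      have hd : HasDerivAt (fun z : ℝ => z - 1 - Real.log z - (z - 1) ^ 2 / 2)
          (1 - x⁻¹ - (2 * (x - 1)) / 2) x := by
        have h1 : HasDerivAt (fun z : ℝ => z - 1 - Real.log z) (1 - x⁻¹) x :=
          ((hasDerivAt_id x).sub_const 1).sub (Real.hasDerivAt_log hx0.ne')
        have h2 : HasDerivAt (fun z : ℝ => (z - 1) ^ 2) (2 * (x - 1)) x := by
          have := ((hasDerivAt_id' x).sub_const 1).fun_pow 2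
          simpa using this
        exact h1.sub (h2.div_const 2)
      rw [hd.deriv]
      have e : 1 - x⁻¹ - (2 * (x - 1)) / 2 = -((x - 1) ^ 2 / x) := by
        field_simp
        ring
      rw [e]
      have : 0 ≤ (x - 1) ^ 2 / x := by positivity
      linarith
  have h := hanti ⟨hz0, hz⟩ ⟨one_pos, le_rfl⟩ hz
  simp only [sub_self, Real.log_one, ne_eq, OfNat.ofNat_ne_zero, not_false_eq_true, zero_pow,
    zero_div] at h
  unfold ph
  linarith

theorem abs_le_ph {z : ℝ} (hz0 : 0 < z) : |z - 1| ≤ 2 * Real.sqrt (ph z) + 4 * ph z := by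
  have hp := ph_nonneg hz0
  have hs : 0 ≤ Real.sqrt (ph z) := Real.sqrt_nonneg _
  have hsq : Real.sqrt (ph z) ^ 2 = ph z := Real.sq_sqrt hp
  rcases le_total z 1 with h | h
  · have h1 := ph_ge' hz0 h
    have h2 : |z - 1| ≤ 2 * Real.sqrt (ph z) := by
      apply abs_le_of_sq_le_sq' _ (by positivity) |> abs_le.2
      rw [mul_pow, hsq]
      linarith
    linarith
  · have h1 := ph_ge h
    have hz : 0 < z := hz0
    rw [div_le_iff₀ (by positivity)] at h1
    rw [abs_of_nonneg (sub_nonneg.2 h)]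
    rcases le_total (z - 1) 1 with h2 | h2
    · have h3 : (z - 1) ^ 2 ≤ (2 * Real.sqrt (ph z)) ^ 2 := by
        rw [mul_pow, hsq]
        nlinarith
      have h4 := abs_le_of_sq_le_sq h3 (by positivity)
      have h5 := (le_abs_self _).trans h4
      linarith
    · nlinarith

/-- The quantitative Jensen inequality for `lam`. -/
theorem key {ι : Type} [Fintype ι] (w y : ι → ℝ) (hw0 : ∀ j, 0 ≤ w j) (hw1 : ∑ j, w j = 1)
    {Y s : ℝ} (hY : Y = ∑ j, w j * y j)
    (hs : s = lam Y - ∑ j, w j * lam (y j)) :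
    0 ≤ s ∧ ∀ τ Ym : ℝ, 1 - τ ≤ Y → Y ≤ Ym → 1 ≤ Ym → 0 ≤ τ →
      ∑ j, w j * |y j - Y| ≤ 3 * Ym * (2 * Real.sqrt s + 4 * s + τ) := by
  set M : ι → ℝ := fun j => max (y j) 1 with hM
  have hM1 : ∀ j, 1 ≤ M j := fun j => le_max_right _ _
  have hM0 : ∀ j, 0 < M j := fun j => lt_of_lt_of_le one_pos (hM1 j)
  set e : ℝ := ∑ j, w j * max 0 (1 - y j) with he
  have he0 : 0 ≤ e := Finset.sum_nonneg fun j _ => mul_nonneg (hw0 j) (le_max_left _ _)
  have hMy : ∀ j, M j = y j + max 0 (1 - y j) := by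
    intro j
    rw [hM]
    simp only
    rcases le_total (y j) 1 with h | h
    · rw [max_eq_right h, max_eq_right (by linarith)]
      ring
    · rw [max_eq_left h, max_eq_left (by linarith)]
      ring
  have hEM : ∑ j, w j * M j = Y + e := by
    rw [hY, he, ← Finset.sum_add_distrib]
    apply Finset.sum_congr rfl
    intro j _
    rw [hMy]
    ring
  have hElam : ∑ j, w j * lam (y j) = 1 + ∑ j, w j * Real.log (M j) - e := by
    have : ∀ j, w j * lam (y j) =
        w j + w j * Real.log (M j) - w j * max 0 (1 - y j) := by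
      intro j
      rw [lam_eq]
      ring
    rw [Finset.sum_congr rfl (fun j _ => this j), Finset.sum_sub_distrib, Finset.sum_add_distrib,
      hw1]
  -- the bound through `ph (M j / X)`
  have main : ∀ X : ℝ, 0 < X → ∀ σ : ℝ, ∑ j, w j * ph (M j / X) = σ →
      0 ≤ σ ∧ ∑ j, w j * |M j - X| ≤ X * (2 * Real.sqrt σ + 4 * σ) := by
    intro X hX σ hσ
    have hp : ∀ j, 0 ≤ ph (M j / X) := fun j => ph_nonneg (div_pos (hM0 j) hX)
    have hσ0 : 0 ≤ σ := by
      rw [← hσ]
      exact Finset.sum_nonneg fun j _ => mul_nonneg (hw0 j) (hp j)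
    refine ⟨hσ0, ?_⟩
    have h1 : ∀ j, w j * |M j - X| ≤
        X * (2 * (w j * Real.sqrt (ph (M j / X))) + 4 * (w j * ph (M j / X))) := by
      intro j
      have h2 : |M j - X| = X * |M j / X - 1| := by
        rw [← abs_of_pos hX, ← abs_mul, abs_of_pos hX]
        congr 1
        field_simp
      rw [h2]
      have h3 := mul_le_mul_of_nonneg_left (abs_le_ph (div_pos (hM0 j) hX))
        (mul_nonneg (hw0 j) hX.le)
      calc w j * (X * |M j / X - 1|) = w j * X * |M j / X - 1| := by ring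
        _ ≤ w j * X * (2 * Real.sqrt (ph (M j / X)) + 4 * ph (M j / X)) := h3
        _ = _ := by ring
    have h4 : ∑ j, w j * Real.sqrt (ph (M j / X)) ≤ Real.sqrt σ := by
      apply Real.le_sqrt_of_sq_le
      have h5 := Finset.sum_mul_sq_le_sq_mul_sq Finset.univ (fun j => Real.sqrt (w j))
        (fun j => Real.sqrt (w j) * Real.sqrt (ph (M j / X)))
      have e1 : ∀ j, Real.sqrt (w j) * (Real.sqrt (w j) * Real.sqrt (ph (M j / X))) =
          w j * Real.sqrt (ph (M j / X)) := by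
        intro j
        rw [← mul_assoc, Real.mul_self_sqrt (hw0 j)]
      have e2 : ∀ j, Real.sqrt (w j) ^ 2 = w j := fun j => Real.sq_sqrt (hw0 j)
      have e3 : ∀ j, (Real.sqrt (w j) * Real.sqrt (ph (M j / X))) ^ 2 =
          w j * ph (M j / X) := by
        intro j
        rw [mul_pow, e2, Real.sq_sqrt (hp j)]
      simp only [e1, e2, e3] at h5
      rw [hw1, one_mul, hσ] at h5
      exact h5
    calc ∑ j, w j * |M j - X| ≤
        ∑ j, X * (2 * (w j * Real.sqrt (ph (M j / X))) + 4 * (w j * ph (M j / X))) :=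
          Finset.sum_le_sum fun j _ => h1 j
      _ = X * (2 * ∑ j, w j * Real.sqrt (ph (M j / X)) + 4 * σ) := by
          rw [← Finset.mul_sum, Finset.sum_add_distrib, ← Finset.mul_sum, ← Finset.mul_sum, hσ]
      _ ≤ _ := by gcongr
  have hEph : ∀ X : ℝ, 0 < X → ∑ j, w j * ph (M j / X) =
      (Y + e) / X - 1 - ∑ j, w j * Real.log (M j) + Real.log X := by
    intro X hX
    have : ∀ j, w j * ph (M j / X) =
        w j * M j / X - w j - w j * Real.log (M j) + w j * Real.log X := by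
      intro j
      unfold ph
      rw [Real.log_div (hM0 j).ne' hX.ne']
      ring
    rw [Finset.sum_congr rfl (fun j _ => this j), Finset.sum_add_distrib,
      Finset.sum_sub_distrib, Finset.sum_sub_distrib, ← Finset.sum_div, hEM, hw1,
      ← Finset.sum_mul, hw1, one_mul]
  have hyM : ∀ j, |y j - M j| = max 0 (1 - y j) := by
    intro j
    rw [hMy j, sub_add_cancel_left, abs_neg, abs_of_nonneg (le_max_left _ _)]
  have htri : ∀ X, ∑ j, w j * |y j - X| ≤ e + ∑ j, w j * |M j - X| := by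
    intro X
    rw [he, ← Finset.sum_add_distrib]
    apply Finset.sum_le_sum
    intro j _
    rw [← mul_add, ← hyM]
    exact mul_le_mul_of_nonneg_left (abs_sub_le _ _ _) (hw0 j)
  have habs : ∀ X, ∑ j, w j * M j - X ≤ ∑ j, w j * |M j - X| := by
    intro X
    have : ∑ j, w j * M j - X = ∑ j, w j * (M j - X) := by
      simp only [mul_sub]
      rw [Finset.sum_sub_distrib, ← Finset.sum_mul, hw1, one_mul]
    rw [this]
    exact Finset.sum_le_sum fun j _ => mul_le_mul_of_nonneg_left (le_abs_self _) (hw0 j)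
  rcases le_or_gt 1 Y with h1 | h1
  · have hY0 : 0 < Y := lt_of_lt_of_le one_pos h1
    obtain ⟨hσ, hb⟩ := main Y hY0 _ rfl
    set σ := ∑ j, w j * ph (M j / Y) with hσd
    have hlamY : lam Y = 1 + Real.log Y := by
      rw [lam_eq, max_eq_left h1, max_eq_left (by linarith)]
      ring
    have hsσ : σ = s - e * (1 - 1 / Y) := by
      rw [hσd, hEph Y hY0, hs, hlamY, hElam]
      field_simp
      ring
    have h2 : 0 ≤ 1 - 1 / Y := by
      rw [sub_nonneg, div_le_one hY0]
      exact h1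
    have hσs : σ ≤ s := by
      rw [hsσ]
      have := mul_nonneg he0 h2
      linarith
    refine ⟨hσ.trans hσs, fun τ Ym _ hYm hYm1 hτ => ?_⟩
    have h3 := htri Y
    have h4 := habs Y
    rw [hEM, add_sub_cancel_left] at h4
    have h5 : Y * (2 * Real.sqrt σ + 4 * σ) ≤ Ym * (2 * Real.sqrt s + 4 * s) := by
      gcongr
    have h6 : 0 ≤ Ym * (2 * Real.sqrt s + 4 * s) := by
      have : 0 ≤ s := hσ.trans hσs
      positivity
    have h7 : 0 ≤ Ym * τ := by positivity
    calc ∑ j, w j * |y j - Y| ≤ e + ∑ j, w j * |M j - Y| := h3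
      _ ≤ 2 * (Ym * (2 * Real.sqrt s + 4 * s)) := by linarith
      _ ≤ 3 * Ym * (2 * Real.sqrt s + 4 * s + τ) := by nlinarith
  · obtain ⟨hσ, hb⟩ := main 1 one_pos _ rfl
    set σ := ∑ j, w j * ph (M j / 1) with hσd
    have hlamY : lam Y = Y := by
      rw [lam_eq, max_eq_right h1.le, Real.log_one, max_eq_right (by linarith)]
      ring
    have hsσ : σ = s := by
      rw [hσd, hEph 1 one_pos, hs, hlamY, hElam, Real.log_one]
      ring
    rw [hsσ] at hb hσ
    refine ⟨hσ, fun τ Ym hτY hYm hYm1 hτ => ?_⟩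
    have h3 := htri Y
    have h4 := habs 1
    rw [hEM] at h4
    have h5 : ∑ j, w j * |M j - Y| ≤ ∑ j, w j * |M j - 1| + (1 - Y) := by
      have : ∑ j, w j * |M j - 1| + (1 - Y) = ∑ j, w j * (|M j - 1| + (1 - Y)) := by
        simp only [mul_add]
        rw [Finset.sum_add_distrib, ← Finset.sum_mul, hw1, one_mul]
      rw [this]
      apply Finset.sum_le_sum
      intro j _
      apply mul_le_mul_of_nonneg_left _ (hw0 j)
      calc |M j - Y| ≤ |M j - 1| + |1 - Y| := abs_sub_le _ _ _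
        _ = _ := by rw [abs_of_nonneg (by linarith : (0 : ℝ) ≤ 1 - Y)]
    rw [one_mul] at hb
    set D := 2 * Real.sqrt s + 4 * s with hD
    have hD0 : 0 ≤ D := by positivity
    calc ∑ j, w j * |y j - Y| ≤ 2 * D + 2 * τ := by linarith
      _ ≤ 3 * 1 * (D + τ) := by linarith
      _ ≤ 3 * Ym * (D + τ) := by gcongr

/-- summation over the levels -/
theorem sum_levels {m : ℕ} {δ Γ τ Ym : ℝ} (R : Finset ℕ) (hR : R ⊆ Finset.range m) (hδ : 0 < δ)
    (hcard : δ * (R.card : ℝ) ≤ Γ) (hτ : 0 ≤ τ) (hYm : 1 ≤ Ym) (s D : ℕ → ℝ)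
    (hs0 : ∀ i < m, 0 ≤ s i) (hs : ∑ i ∈ Finset.range m, δ * s i ≤ τ)
    (hD : ∀ i ∈ R, D i ≤ 3 * Ym * (2 * Real.sqrt (s i) + 4 * s i + τ)) :
    ∑ i ∈ R, δ * D i ≤ 3 * Ym * (2 * Real.sqrt (Γ * τ) + 4 * τ + Γ * τ) := by
  have hs0' : ∀ i ∈ R, 0 ≤ s i := fun i hi => hs0 i (Finset.mem_range.1 (hR hi))
  have h1 : ∑ i ∈ R, δ * s i ≤ τ := by
    refine (Finset.sum_le_sum_of_subset_of_nonneg hR ?_).trans hs
    intro i hi _
    exact mul_nonneg hδ.le (hs0 i (Finset.mem_range.1 hi))
  have h2 : ∑ i ∈ R, δ * Real.sqrt (s i) ≤ Real.sqrt (Γ * τ) := by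
    apply Real.le_sqrt_of_sq_le
    have h5 := Finset.sum_mul_sq_le_sq_mul_sq R (fun _ => Real.sqrt δ)
      (fun i => Real.sqrt δ * Real.sqrt (s i))
    have e1 : ∀ i, Real.sqrt δ * (Real.sqrt δ * Real.sqrt (s i)) = δ * Real.sqrt (s i) := by
      intro i
      rw [← mul_assoc, Real.mul_self_sqrt hδ.le]
    have e3 : ∑ i ∈ R, (Real.sqrt δ * Real.sqrt (s i)) ^ 2 = ∑ i ∈ R, δ * s i := by
      apply Finset.sum_congr rfl
      intro i hi
      rw [mul_pow, Real.sq_sqrt hδ.le, Real.sq_sqrt (hs0' i hi)]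
    simp only [e1] at h5
    rw [e3, Finset.sum_const, Real.sq_sqrt hδ.le, nsmul_eq_mul, mul_comm (R.card : ℝ) δ] at h5
    refine h5.trans ?_
    have h6 : 0 ≤ ∑ i ∈ R, δ * s i :=
      Finset.sum_nonneg fun i hi => mul_nonneg hδ.le (hs0' i hi)
    exact mul_le_mul hcard h1 h6 (le_trans (by positivity) hcard)
  calc ∑ i ∈ R, δ * D i ≤ ∑ i ∈ R, δ * (3 * Ym * (2 * Real.sqrt (s i) + 4 * s i + τ)) :=
        Finset.sum_le_sum fun i hi => mul_le_mul_of_nonneg_left (hD i hi) hδ.le
    _ = 3 * Ym * (2 * ∑ i ∈ R, δ * Real.sqrt (s i) + 4 * ∑ i ∈ R, δ * s i +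
          δ * (R.card : ℝ) * τ) := by
        have : ∀ i, δ * (3 * Ym * (2 * Real.sqrt (s i) + 4 * s i + τ)) =
            3 * Ym * (2 * (δ * Real.sqrt (s i)) + 4 * (δ * s i) + δ * τ) := by
          intro i; ring
        rw [Finset.sum_congr rfl (fun i _ => this i), ← Finset.mul_sum, Finset.sum_add_distrib,
          Finset.sum_add_distrib, ← Finset.mul_sum R (fun i => δ * Real.sqrt (s i)) 2,
          ← Finset.mul_sum R (fun i => δ * s i) 4, Finset.sum_const, nsmul_eq_mul]
        ring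
    _ ≤ _ := by gcongr

/-- the number of levels in `[γ, Γ]` -/
theorem card_rg {δ γ Γ : ℝ} (hδ : 0 < δ) (hΓ : 0 ≤ Γ) :
    δ * ((rg δ γ Γ).card : ℝ) ≤ Γ := by
  have h1 : rg δ γ Γ ⊆ Finset.range ⌊Γ / δ⌋₊ := by
    intro i hi
    rw [rg, Finset.mem_filter] at hi
    rw [Finset.mem_range]
    apply Nat.lt_of_succ_le
    apply Nat.le_floor
    rw [le_div_iff₀ hδ]
    push_cast
    exact hi.2.2
  have h2 := Finset.card_le_card h1
  rw [Finset.card_range] at h2
  have h3 : ((rg δ γ Γ).card : ℝ) ≤ Γ / δ := by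
    calc ((rg δ γ Γ).card : ℝ) ≤ (⌊Γ / δ⌋₊ : ℝ) := by exact_mod_cast h2
      _ ≤ Γ / δ := Nat.floor_le (by positivity)
  calc δ * ((rg δ γ Γ).card : ℝ) ≤ δ * (Γ / δ) := by gcongr
    _ = Γ := by field_simp

/-- a small `τ` -/
theorem exists_tau (Ym Γ ρ : ℝ) (hρ : 0 < ρ) :
    ∃ τ : ℝ, 0 < τ ∧ 3 * Ym * (2 * Real.sqrt (Γ * τ) + 4 * τ + Γ * τ) ≤ ρ := by
  have hc : Continuous fun τ : ℝ => 3 * Ym * (2 * Real.sqrt (Γ * τ) + 4 * τ + Γ * τ) := by
    fun_prop
  have h0 : 3 * Ym * (2 * Real.sqrt (Γ * 0) + 4 * 0 + Γ * 0) = 0 := by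
    simp
  have h1 : ∀ᶠ τ in nhds (0 : ℝ),
      3 * Ym * (2 * Real.sqrt (Γ * τ) + 4 * τ + Γ * τ) < ρ := by
    have := hc.continuousAt (x := 0)
    rw [ContinuousAt, h0] at this
    exact this.eventually (gt_mem_nhds hρ)
  obtain ⟨ε, hε, h2⟩ := Metric.eventually_nhds_iff.1 h1
  refine ⟨ε / 2, by positivity, (h2 ?_).le⟩
  rw [Real.dist_eq, sub_zero, abs_of_pos (by positivity)]
  linarith

end IncrBase

end Pool.Agent.Lib.MP_193d8d_pr
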