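import Pool.Agent.Lib.MP_193d8d_pr.StA
import Pool.Agent.Lib.MP_193d8d_pr.StB
import Pool.Agent.Lib.MP_193d8d_pr.Base

set_option autoImplicit false
open MeasureTheory Set Filter Topology

namespace Pool.Agent.Lib.MP_193d8d_pr

namespace LimGAux

theorem edge_nonempty (n : ℕ) (hn : 2 ≤ n) : Nonempty (Edge n) :=
  ⟨⟨⟨0, by omega⟩, ⟨1, by omega⟩, by simp [Fin.lt_def]⟩⟩

theorem key (h1 : StOne) (h2 : StTwo) (h3 : StEx) (t : ℝ) (ht : -1 ≤ t) (ρ : ℝ) (hρ : 0 < ρ) :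
    ∃ n0 : ℕ, ∀ n n' : ℕ, n0 ≤ n → n0 ≤ n' → ∀ (e : Edge n) (e' : Edge n'),
      |Gs n e t - Gs n' e' t| ≤ 3 * ρ := by
  obtain ⟨δ, hA, hB, hC⟩ := ((h1 t ρ ht hρ).and ((h2 t ρ ht hρ).and h3)).exists
  obtain ⟨n1, hn1⟩ := eventually_atTop.1 hA
  obtain ⟨n2, hn2⟩ := hB
  obtain ⟨n3, hn3⟩ := eventually_atTop.1 hC
  refine ⟨max n1 (max n2 n3), fun n n' hn hn' e e' => ?_⟩
  have a1 : n1 ≤ n := (le_max_left _ _).trans hn
  have a1' : n1 ≤ n' := (le_max_left _ _).trans hn'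
  have a2 : n2 ≤ n := (le_max_left n2 n3).trans ((le_max_right _ _).trans hn)
  have a2' : n2 ≤ n' := (le_max_left n2 n3).trans ((le_max_right _ _).trans hn')
  have a3 : n3 ≤ n := (le_max_right n2 n3).trans ((le_max_right _ _).trans hn)
  have a3' : n3 ≤ n' := (le_max_right n2 n3).trans ((le_max_right _ _).trans hn')
  obtain ⟨T⟩ := hn3 n a3
  obtain ⟨T'⟩ := hn3 n' a3'
  have b1 := abs_le.1 (hn1 n a1 T e)
  have b2 := abs_le.1 (hn1 n' a1' T' e')
  have b3 := abs_le.1 (hn2 n n' a2 a2' T T').1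
  rw [abs_le]
  constructor
  · linarith [b1.1, b1.2, b2.1, b2.2, b3.1, b3.2]
  · linarith [b1.1, b1.2, b2.1, b2.2, b3.1, b3.2]

end LimGAux

open LimGAux in
theorem stLimG (h1 : StOne) (h2 : StTwo) (h3 : StEx) : StLimG := by
  classical
  intro t ht
  set a : ℕ → ℝ := fun n => if h : Nonempty (Edge n) then Gs n h.some t else 0 with ha
  have hclose : ∀ ρ : ℝ, 0 < ρ → ∃ n0 : ℕ, ∀ n n' : ℕ, n0 ≤ n → n0 ≤ n' →
      (∀ e : Edge n, |Gs n e t - a n'| ≤ 3 * ρ) ∧ |a n - a n'| ≤ 3 * ρ := by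
    intro ρ hρ
    obtain ⟨n0, hn0⟩ := key h1 h2 h3 t ht ρ hρ
    refine ⟨max n0 2, fun n n' hn hn' => ?_⟩
    have e1 := edge_nonempty n ((le_max_right _ _).trans hn)
    have e2 := edge_nonempty n' ((le_max_right _ _).trans hn')
    have f1 : a n = Gs n e1.some t := by
      simp only [ha]
      rw [dif_pos e1]
    have f2 : a n' = Gs n' e2.some t := by
      simp only [ha]
      rw [dif_pos e2]
    rw [f1, f2]
    exact ⟨fun e => hn0 n n' ((le_max_left _ _).trans hn) ((le_max_left _ _).trans hn') e _,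
      hn0 n n' ((le_max_left _ _).trans hn) ((le_max_left _ _).trans hn') _ _⟩
  have hcau : CauchySeq a := by
    rw [Metric.cauchySeq_iff']
    intro ε hε
    obtain ⟨n0, hn0⟩ := hclose (ε / 6) (by positivity)
    refine ⟨n0, fun n hn => ?_⟩
    rw [Real.dist_eq]
    have := (hn0 n n0 hn le_rfl).2
    linarith
  obtain ⟨G, hG⟩ := cauchySeq_tendsto_of_complete hcau
  refine ⟨G, fun ρ hρ => ?_⟩
  obtain ⟨n0, hn0⟩ := hclose (ρ / 3) (by positivity)
  filter_upwards [eventually_ge_atTop n0] with n hn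
  intro e
  have h : Tendsto (fun n' => |Gs n e t - a n'|) atTop (𝓝 |Gs n e t - G|) :=
    (tendsto_const_nhds.sub hG).abs
  refine le_of_tendsto h ?_
  filter_upwards [eventually_ge_atTop n0] with n' hn'
  have := (hn0 n n' hn hn').1 e
  linarith

end Pool.Agent.Lib.MP_193d8d_pr
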