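import Pool.Agent.Lib.MP_193d8d_pr.StA
import Pool.Agent.Lib.MP_193d8d_pr.StB
import Pool.Agent.Lib.MP_193d8d_pr.Base

set_option autoImplicit false
open MeasureTheory Set

namespace Pool.Agent.Lib.MP_193d8d_pr

namespace MartSAux

section

variable {ι κ : Type} [Fintype ι] [LinearOrder ι] [Fintype κ] [DecidableEq κ]

/-- the centred indicator -/
noncomputable def cen (p : κ → ℝ) (Z : Finset κ) (h : κ) : ℝ :=
  (if h ∈ Z then 1 else 0) - ∑ h ∈ Z, p h

theorem sum_ind (p : κ → ℝ) (Z : Finset κ) :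
    ∑ h, p h * (if h ∈ Z then (1 : ℝ) else 0) = ∑ h ∈ Z, p h := by
  simp only [mul_ite, mul_one, mul_zero]
  rw [Finset.sum_ite_mem, Finset.univ_inter]

theorem sum_cen {p : κ → ℝ} (hp1 : ∑ h, p h = 1) (Z : Finset κ) : ∑ h, p h * cen p Z h = 0 := by
  unfold cen
  simp only [mul_sub]
  rw [Finset.sum_sub_distrib, sum_ind, ← Finset.sum_mul, hp1, one_mul, sub_self]

theorem sum_cen_sq {p : κ → ℝ} (hp1 : ∑ h, p h = 1) (Z : Finset κ) :
    ∑ h, p h * cen p Z h ^ 2 ≤ ∑ h ∈ Z, p h := by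
  obtain ⟨z, hz⟩ : ∃ z, z = ∑ h ∈ Z, p h := ⟨_, rfl⟩
  have h1 : ∀ h, p h * cen p Z h ^ 2 =
      (1 - 2 * z) * (p h * (if h ∈ Z then (1 : ℝ) else 0)) + z ^ 2 * p h := by
    intro h
    unfold cen
    rw [← hz]
    split_ifs <;> ring
  simp only [h1]
  rw [Finset.sum_add_distrib, ← Finset.mul_sum, ← Finset.mul_sum, sum_ind, hp1, ← hz]
  nlinarith [sq_nonneg z]

/-- the variance of a martingale -/
theorem mart {p : κ → ℝ} (hp : ∀ h, 0 ≤ p h) (hp1 : ∑ h, p h = 1) (Z : Finset κ)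
    (φ : ι → (ι → κ) → ℝ) (hφ : ∀ e c c', (∀ e', e' < e → c e' = c' e') → φ e c = φ e c')
    (h01 : ∀ e c, 0 ≤ φ e c ∧ φ e c ≤ 1) (S : Finset ι) :
    EE p (fun c => (∑ e ∈ S, cen p Z (c e) * φ e c) ^ 2) ≤ S.card * ∑ h ∈ Z, p h := by
  induction S using Finset.induction_on_max with
  | empty =>
    simp only [Finset.sum_empty, Finset.card_empty, Nat.cast_zero, zero_mul]
    rw [EE_const hp1]
    norm_num
  | insert a S ha ih =>
    have hna : a ∉ S := fun h => lt_irrefl _ (ha a h)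
    have hup : ∀ e, e ≤ a → ∀ c h, φ e (Function.update c a h) = φ e c := by
      intro e he c h
      refine hφ _ _ _ fun e' he' => ?_
      rw [Function.update_of_ne (he'.trans_le he).ne]
    have h1 : ∀ c : ι → κ, (∑ e ∈ insert a S, cen p Z (c e) * φ e c) ^ 2 =
        (∑ e ∈ S, cen p Z (c e) * φ e c) ^ 2 +
          (2 * (cen p Z (c a) * (φ a c * ∑ e ∈ S, cen p Z (c e) * φ e c)) +
            (cen p Z (c a) * φ a c) ^ 2) := by
      intro c
      rw [Finset.sum_insert hna]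
      ring
    rw [EE_congr h1, EE_add, EE_add, EE_mul_left]
    have h2 : EE p (fun c => cen p Z (c a) * (φ a c * ∑ e ∈ S, cen p Z (c e) * φ e c)) = 0 := by
      rw [EE_indep hp1 a (cen p Z) (fun c => φ a c * ∑ e ∈ S, cen p Z (c e) * φ e c), sum_cen hp1,
        zero_mul]
      intro c h
      rw [hup a le_rfl]
      congr 1
      refine Finset.sum_congr rfl fun e he => ?_
      rw [hup e (ha e he).le, Function.update_of_ne (ha e he).ne]
    have h3 : EE p (fun c => (cen p Z (c a) * φ a c) ^ 2) ≤ ∑ h ∈ Z, p h := by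
      have h4 : EE p (fun c : ι → κ => (cen p Z (c a) * φ a c) ^ 2) ≤
          EE p (fun c : ι → κ => cen p Z (c a) ^ 2 * 1) := by
        refine EE_mono hp fun c => ?_
        rw [mul_pow]
        refine mul_le_mul_of_nonneg_left ?_ (sq_nonneg _)
        obtain ⟨h5, h6⟩ := h01 a c
        exact pow_le_one₀ h5 h6
      refine h4.trans ?_
      rw [EE_indep hp1 a (fun h => cen p Z h ^ 2) (fun _ => (1 : ℝ)) (fun _ _ => rfl), EE_one hp1,
        mul_one]
      exact sum_cen_sq hp1 Z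
    rw [h2, Finset.card_insert_of_notMem hna]
    push_cast
    linarith

end

/-- points of a grid -/
noncomputable def gr (B s : ℝ) (g : ℕ) : ℝ := -B + (2 * g + 1) * s

theorem exists_gr {B s x : ℝ} (hs : 0 < s) (hx : |x| ≤ B) :
    ∃ g ∈ Finset.range (⌊B / s⌋₊ + 1), |x - gr B s g| ≤ s := by
  obtain ⟨h1, h2⟩ := abs_le.1 hx
  have h0 : 0 ≤ (x + B) / (2 * s) := div_nonneg (by linarith) (by linarith)
  refine ⟨⌊(x + B) / (2 * s)⌋₊, ?_, ?_⟩
  · rw [Finset.mem_range, Nat.lt_succ_iff]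
    refine Nat.floor_le_floor ?_
    rw [div_le_div_iff₀ (by linarith) hs]
    nlinarith
  · have h3 := Nat.floor_le h0
    have h4 := Nat.lt_floor_add_one ((x + B) / (2 * s))
    rw [le_div_iff₀ (by linarith)] at h3
    rw [div_lt_iff₀ (by linarith)] at h4
    unfold gr
    rw [abs_le]
    constructor <;> linarith

end MartSAux

open MartSAux in
/-- G2 -/
theorem stMartS : StMartS := by
  intro n κ _ _ p l0 Z σ F B s j k hjk hp hp1 hσ hσB hs hF01 hFl
  obtain ⟨z, hz⟩ : ∃ z, z = ∑ h ∈ Z, p h := ⟨_, rfl⟩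
  have hz0 : 0 ≤ z := by
    rw [hz]
    exact Finset.sum_nonneg fun h _ => hp h
  -- the edges
  let e : Fin n → Edge n := fun i => if h : i < k then ⟨i, k, h⟩ else ⟨j, k, hjk⟩
  have he : ∀ i (h : i < k), e i = ⟨i, k, h⟩ := fun i h => dif_pos h
  obtain ⟨I, hI⟩ : ∃ I : Finset (Fin n), I = Finset.univ.filter (fun i => i < j) := ⟨_, rfl⟩
  have hIj : ∀ i ∈ I, i < j := fun i hi => by
    rw [hI] at hi
    exact (Finset.mem_filter.1 hi).2
  have hIk : ∀ i ∈ I, i < k := fun i hi => (hIj i hi).trans hjk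
  have hcard : I.card = (j : ℕ) := by
    rw [hI]
    have : (Finset.univ.filter (fun i => i < j)) = Finset.Iio j := by
      ext i
      simp
    rw [this, Fin.card_Iio]
  have hinj : Set.InjOn e I := by
    intro a ha b hb hab
    rw [he a (hIk a ha), he b (hIk b hb)] at hab
    exact congrArg Edge.a hab
  have hx1 : ∀ i ∈ I, ∀ c : Edge n → κ, ext l0 c i k = c (e i) := fun i hi c => by
    rw [ext_of_lt _ _ (hIk i hi), he i (hIk i hi)]
  have hx2 : ∀ i ∈ I, ∀ c : Edge n → κ, ext 0 (fun e => σ e c) i k = σ (e i) c := fun i hi c => by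
    rw [ext_of_lt _ _ (hIk i hi), he i (hIk i hi)]
  have hx3 : ∀ c : Edge n → κ, ext 0 (fun e => σ e c) j k = σ (e j) c := fun c => by
    rw [ext_of_lt _ _ hjk, he j hjk]
  rw [← hI, ← hz]
  have hL : ∑ i ∈ I, EE p (fun c => F (ext 0 (fun e => σ e c) i k)
      (ext 0 (fun e => σ e c) j k)) = ∑ i ∈ I, EE p (fun c => F (σ (e i) c) (σ (e j) c)) :=
    Finset.sum_congr rfl fun i hi => EE_congr fun c => by rw [hx2 i hi, hx3]
  have hR : ∑ i ∈ I, EE p (fun c => (if ext l0 c i k ∈ Z then 1 else 0) *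
        F (ext 0 (fun e => σ e c) i k) (ext 0 (fun e => σ e c) j k)) =
      ∑ i ∈ I, EE p (fun c => (if c (e i) ∈ Z then 1 else 0) * F (σ (e i) c) (σ (e j) c)) :=
    Finset.sum_congr rfl fun i hi => EE_congr fun c => by rw [hx1 i hi, hx2 i hi, hx3]
  rw [hL, hR]
  -- the martingales
  obtain ⟨Mg, hMg⟩ : ∃ Mg : ℕ → (Edge n → κ) → ℝ, Mg = fun g c =>
      ∑ i ∈ I, cen p Z (c (e i)) * F (σ (e i) c) (gr B s g) := ⟨_, rfl⟩
  have hvar : ∀ g, EE p (fun c => |Mg g c|) ≤ Real.sqrt ((j : ℕ) * z) := by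
    intro g
    refine Real.le_sqrt_of_sq_le ((EE_abs_le hp hp1 _).trans ?_)
    have h1 := mart hp hp1 Z (fun e c => F (σ e c) (gr B s g))
      (fun e c c' h => by rw [hσ e c c' h]) (fun e c => hF01 _ _) (I.image e)
    rw [Finset.card_image_of_injOn hinj, hcard, ← hz] at h1
    refine le_trans (le_of_eq (EE_congr fun c => ?_)) h1
    rw [hMg, Finset.sum_image hinj]
  -- pointwise
  have hpt : ∀ c : Edge n → κ,
      z * (∑ i ∈ I, F (σ (e i) c) (σ (e j) c)) - z * s * (j : ℕ) -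
        s * (∑ i ∈ I, if c (e i) ∈ Z then (1 : ℝ) else 0) -
          ∑ g ∈ Finset.range (⌊B / s⌋₊ + 1), |Mg g c| ≤
      ∑ i ∈ I, (if c (e i) ∈ Z then (1 : ℝ) else 0) * F (σ (e i) c) (σ (e j) c) := by
    intro c
    obtain ⟨g, hg, hgs⟩ := exists_gr hs (hσB (e j) c)
    have h1 : |Mg g c| ≤ ∑ g ∈ Finset.range (⌊B / s⌋₊ + 1), |Mg g c| :=
      Finset.single_le_sum (f := fun g => |Mg g c|) (fun _ _ => abs_nonneg _) hg
    have h2 : -|Mg g c| ≤ Mg g c := neg_abs_le _
    have h3 : ∀ i, |F (σ (e i) c) (σ (e j) c) - F (σ (e i) c) (gr B s g)| ≤ s := fun i =>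
      (hFl _ _ _).trans hgs
    have h4 : Mg g c = ∑ i ∈ I, (if c (e i) ∈ Z then (1 : ℝ) else 0) *
        F (σ (e i) c) (gr B s g) - z * ∑ i ∈ I, F (σ (e i) c) (gr B s g) := by
      rw [hMg, Finset.mul_sum, ← Finset.sum_sub_distrib]
      refine Finset.sum_congr rfl fun i _ => ?_
      unfold cen
      rw [← hz]
      ring
    have h5 : ∑ i ∈ I, (if c (e i) ∈ Z then (1 : ℝ) else 0) * F (σ (e i) c) (gr B s g) ≤
        ∑ i ∈ I, (if c (e i) ∈ Z then (1 : ℝ) else 0) * F (σ (e i) c) (σ (e j) c) +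
          s * ∑ i ∈ I, (if c (e i) ∈ Z then (1 : ℝ) else 0) := by
      rw [Finset.mul_sum, ← Finset.sum_add_distrib]
      refine Finset.sum_le_sum fun i _ => ?_
      have := (abs_le.1 (h3 i)).1
      split_ifs <;> linarith
    have h6 : ∑ i ∈ I, F (σ (e i) c) (σ (e j) c) ≤
        ∑ i ∈ I, F (σ (e i) c) (gr B s g) + s * (j : ℕ) := by
      have h7 : s * (j : ℕ) = ∑ i ∈ I, s := by
        rw [Finset.sum_const, hcard, nsmul_eq_mul, mul_comm]
      rw [h7, ← Finset.sum_add_distrib]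
      refine Finset.sum_le_sum fun i _ => ?_
      have := (abs_le.1 (h3 i)).2
      linarith
    have h8 := mul_le_mul_of_nonneg_left h6 hz0
    rw [mul_add] at h8
    have h9 : z * (s * (j : ℕ)) = z * s * (j : ℕ) := by ring
    rw [h9] at h8
    linarith
  -- expectations
  have hE := EE_mono hp hpt
  rw [EE_sub, EE_sub, EE_sub, EE_mul_left, EE_const hp1, EE_sum, EE_sum, EE_sum] at hE
  rw [EE_mul_left, EE_sum] at hE
  have hind : ∀ i ∈ I, EE p (fun c : Edge n → κ => if c (e i) ∈ Z then (1 : ℝ) else 0) = z := by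
    intro i _
    have h1 := EE_indep hp1 (e i) (fun h => if h ∈ Z then (1 : ℝ) else 0)
      (fun _ : Edge n → κ => (1 : ℝ)) (fun _ _ => rfl)
    rw [EE_one hp1, mul_one, sum_ind, ← hz] at h1
    rw [← h1]
    exact EE_congr fun c => (mul_one _).symm
  have hind2 : ∑ i ∈ I, EE p (fun c : Edge n → κ => if c (e i) ∈ Z then (1 : ℝ) else 0) =
      (j : ℕ) * z := by
    rw [Finset.sum_congr rfl hind, Finset.sum_const, hcard, nsmul_eq_mul]
  rw [hind2] at hE
  have hG : ∑ g ∈ Finset.range (⌊B / s⌋₊ + 1), EE p (fun c => |Mg g c|) ≤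
      (2 * B / s + 2) * Real.sqrt ((j : ℕ) * z) := by
    have hne : Nonempty κ := by
      by_contra h
      rw [not_nonempty_iff] at h
      rw [Finset.univ_eq_empty, Finset.sum_empty] at hp1
      exact zero_ne_one hp1
    have hB : 0 ≤ B := (abs_nonneg _).trans (hσB (e j) (fun _ => hne.some))
    have hBs : 0 ≤ B / s := div_nonneg hB hs.le
    refine (Finset.sum_le_sum fun g _ => hvar g).trans ?_
    rw [Finset.sum_const, Finset.card_range, nsmul_eq_mul]
    refine mul_le_mul_of_nonneg_right ?_ (Real.sqrt_nonneg _)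
    have := Nat.floor_le hBs
    push_cast
    have h2 : 2 * B / s = 2 * (B / s) := by ring
    rw [h2]
    linarith
  have h10 : 2 * s * z * (j : ℕ) = z * s * (j : ℕ) + s * ((j : ℕ) * z) := by ring
  rw [h10]
  linarith

end Pool.Agent.Lib.MP_193d8d_pr
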