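import Pool.Agent.Lib.MP_193d8d_pr.StA
import Pool.Agent.Lib.MP_193d8d_pr.StB
import Pool.Agent.Lib.MP_193d8d_pr.Base

set_option autoImplicit false
open MeasureTheory Set Filter Topology

namespace Pool.Agent.Lib.MP_193d8d_pr

namespace QcAux

/-- the weights sum to one -/
lemma sum_wts {H : ℕ} {l : ℕ → ℝ} (h0 : l 0 = 0) (h1 : l (H + 1) = 1) :
    ∑ h : Fin (H + 1), wts H l h = 1 := by
  unfold wts
  rw [Fin.sum_univ_eq_sum_range (fun i => l (i + 1) - l i), Finset.sum_range_sub, h0, h1]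
  ring

lemma wts_nonneg {H : ℕ} {l : ℕ → ℝ} (h : ∀ h, h ≤ H → l h < l (h + 1)) (i : Fin (H + 1)) :
    0 ≤ wts H l i := by
  unfold wts
  have := h i (by omega)
  linarith

lemma lev_zero (ε δ : ℝ) (J m : ℕ) : lev ε δ J m 0 = 0 := by simp [lev]

lemma lev_top (ε δ : ℝ) (J m : ℕ) : lev ε δ J m (J + m + 1 + 1) = 1 := by
  unfold lev
  rw [if_neg (by omega), if_neg (by omega), if_neg (by omega)]

lemma lev_main (ε δ : ℝ) (J : ℕ) {m i : ℕ} (hi : i ≤ m) :
    lev ε δ J m (J + 1 + i) = ε * δ * (i + 1) := by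
  unfold lev
  rw [if_neg (by omega)]
  by_cases h : J + 1 + i ≤ J + 1
  · have : i = 0 := by omega
    subst this
    simp
  · rw [if_neg h, if_pos (by omega)]
    push_cast
    ring

lemma lev_lt {ε δ : ℝ} (J m : ℕ) (hp : 0 < ε * δ) (h1 : (m + 1) * δ * ε < 1) :
    ∀ h, h ≤ J + m + 1 → lev ε δ J m h < lev ε δ J m (h + 1) := by
  intro h hh
  rcases Nat.eq_zero_or_pos h with rfl | h0
  · rw [lev_zero]
    unfold lev
    rw [if_neg (by omega), if_pos (by omega)]
    positivity
  · rcases Nat.lt_or_ge h (J + 1) with h2 | h2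
    · unfold lev
      rw [if_neg (by omega), if_pos (by omega), if_neg (by omega), if_pos (by omega)]
      have e1 : J + 1 - h = (J + 1 - (h + 1)) + 1 := by omega
      rw [e1, pow_succ]
      have : 0 < ε * δ * (1 / 2 : ℝ) ^ (J + 1 - (h + 1)) := by positivity
      linarith
    · obtain ⟨i, rfl⟩ : ∃ i, h = J + 1 + i := ⟨h - (J + 1), by omega⟩
      rcases Nat.lt_or_ge i m with h3 | h3
      · rw [lev_main ε δ J h3.le, show J + 1 + i + 1 = J + 1 + (i + 1) by omega,
          lev_main ε δ J h3]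
        push_cast
        nlinarith
      · have e1 : i = m := by omega
        subst e1
        rw [lev_main ε δ J le_rfl, show J + 1 + i + 1 = J + i + 1 + 1 by omega, lev_top]
        calc ε * δ * (i + 1) = (i + 1) * δ * ε := by ring
          _ < 1 := h1

/-- `clamp` is 1-Lipschitz -/
lemma clamp_sub_le {K x y : ℝ} (h : y ≤ x) : clamp K x - clamp K y ≤ x - y := by
  unfold clamp
  have h1 : min x K ≤ min y K + (x - y) := by
    rcases le_total y K with h2 | h2
    · rw [min_eq_left h2]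
      have := min_le_left x K
      linarith
    · rw [min_eq_right h2, min_eq_right (h2.trans h)]
      linarith
  have h2 : max (-K) (min x K) ≤ max (-K) (min y K) + (x - y) := by
    apply max_le
    · have := le_max_left (-K) (min y K)
      linarith
    · have := le_max_right (-K) (min y K)
      linarith
  linarith

/-- sequences with nonincreasing increments -/
lemma incr_le {a : ℕ → ℝ} {m i : ℕ} (hi : i < m)
    (h : ∀ l, l + 2 ≤ m → a (l + 1) - a (l + 2) ≤ a l - a (l + 1)) :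
    ∀ k, k ≤ i → a i - a (i + 1) ≤ a (i - k) - a (i - k + 1) ∧
      ((k : ℝ) + 1) * (a i - a (i + 1)) ≤ a (i - k) - a (i + 1) := by
  intro k
  induction k with
  | zero =>
    intro _
    rw [Nat.sub_zero]
    refine ⟨le_rfl, ?_⟩
    push_cast
    linarith
  | succ k ih =>
    intro hk
    obtain ⟨h1, h2⟩ := ih (by omega)
    have h3 := h (i - (k + 1)) (by omega)
    rw [show i - (k + 1) + 2 = i - k + 1 by omega, show i - (k + 1) + 1 = i - k by omega] at h3
    rw [show i - (k + 1) + 1 = i - k by omega]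
    refine ⟨h1.trans h3, ?_⟩
    push_cast
    linarith

lemma incr_half {a : ℕ → ℝ} {m i : ℕ} (hi : i < m) (h0 : a (i + 1) ≤ a i)
    (h : ∀ l, l + 2 ≤ m → a (l + 1) - a (l + 2) ≤ a l - a (l + 1)) :
    a i - a (i + 1) ≤ 2 / ((i : ℝ) + 1) * (max 0 (a (i / 2)) + max 0 (-a (i + 1))) := by
  have h1 := (incr_le hi h (i - i / 2) (by omega)).2
  rw [show i - (i - i / 2) = i / 2 by omega] at h1
  have h2 : ((i : ℝ) + 1) / 2 ≤ ((i - i / 2 : ℕ) : ℝ) + 1 := by
    have h3 : i ≤ 2 * (i - i / 2) := by omega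
    have h4 : (i : ℝ) ≤ 2 * ((i - i / 2 : ℕ) : ℝ) := by exact_mod_cast h3
    linarith
  have h3 : ((i : ℝ) + 1) / 2 * (a i - a (i + 1)) ≤
      max 0 (a (i / 2)) + max 0 (-a (i + 1)) := by
    calc ((i : ℝ) + 1) / 2 * (a i - a (i + 1))
        ≤ (((i - i / 2 : ℕ) : ℝ) + 1) * (a i - a (i + 1)) :=
          mul_le_mul_of_nonneg_right h2 (by linarith)
      _ ≤ a (i / 2) - a (i + 1) := h1
      _ ≤ _ := by
        have := le_max_right 0 (a (i / 2))
        have := le_max_right 0 (-a (i + 1))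
        linarith
  have h5 : (0 : ℝ) < (i : ℝ) + 1 := by positivity
  rw [div_mul_eq_mul_div, le_div_iff₀ h5]
  linarith

lemma rr_small (A : ℝ) : ∀ᶠ n : ℕ in atTop, A * rr n ≤ 1 / 2 := by
  have h1 : Tendsto (fun n : ℕ => rr n) atTop (𝓝 0) := by
    unfold rr
    exact tendsto_const_nhds.div_atTop
      (Real.tendsto_sqrt_atTop.comp tendsto_natCast_atTop_atTop)
  have h2 : Tendsto (fun n : ℕ => A * rr n) atTop (𝓝 0) := by
    simpa using h1.const_mul A
  filter_upwards [h2.eventually (gt_mem_nhds (show (0 : ℝ) < 1 / 2 by norm_num))] with n hn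
  exact hn.le

/-- numerical estimate -/
lemma num {C g δ i1 a b : ℝ} (hC : 1 ≤ C) (hδ : 0 < δ) (hi : 0 < i1) (hg : g = i1 * δ)
    (ha0 : 0 ≤ a) (ha : a ^ 2 ≤ 2 * C / g) (hb : b ≤ 4 * g + C) :
    2 / i1 * (a + b) ≤ δ * ((8 * C + 8) * (1 + 1 / g) ^ 2) := by
  have hg0 : 0 < g := by rw [hg]; positivity
  have e1 : 2 / i1 = 2 * δ / g := by
    rw [hg]
    field_simp
  obtain ⟨u, hu⟩ : ∃ u : ℝ, u = 1 / g := ⟨_, rfl⟩
  have hu0 : 0 < u := by rw [hu]; positivity
  have hug : u * g = 1 := by rw [hu]; field_simp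
  have ha' : a ^ 2 ≤ 2 * C * u := by
    rw [hu]
    calc a ^ 2 ≤ 2 * C / g := ha
      _ = 2 * C * (1 / g) := by ring
  have ha2 : a ≤ 2 * C * (1 + u) := by
    apply le_of_sq_le_sq _ (by positivity)
    nlinarith [mul_pos hu0 hu0, mul_pos (lt_of_lt_of_le one_pos hC) hu0]
  have e2 : 2 / i1 * (a + b) = δ * (2 * u * (a + b)) := by
    rw [e1, hu]
    ring
  rw [e2, ← hu]
  apply mul_le_mul_of_nonneg_left _ hδ.le
  have h3 : u * (a + b) ≤ u * (2 * C * (1 + u) + (4 * g + C)) :=
    mul_le_mul_of_nonneg_left (by linarith) hu0.le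
  have h4 : u * (2 * C * (1 + u) + (4 * g + C)) = 2 * C * u * (1 + u) + 4 + C * u := by
    calc u * (2 * C * (1 + u) + (4 * g + C)) = 2 * C * u * (1 + u) + 4 * (u * g) + C * u := by ring
      _ = _ := by rw [hug]; ring
  nlinarith [mul_pos hu0 hu0, mul_pos (lt_of_lt_of_le one_pos hC) hu0,
    mul_pos (lt_of_lt_of_le one_pos hC) (mul_pos hu0 hu0)]

end QcAux

open QcAux in
theorem stQc (hPs : StPsMom) (hMono : StMonoT) : StQc := by
  obtain ⟨C, hC, hPs⟩ := hPs
  refine ⟨8 * C + 8, by linarith, ?_⟩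
  filter_upwards [hPs, self_mem_nhdsWithin] with δ hδ hδ0
  have hδ0 : 0 < δ := hδ0
  filter_upwards [hδ, eventually_ge_atTop 3, rr_small ((md δ + 1) * δ)] with n hn h3 hr T i hi
  have hr0 : 0 < rr n := by
    have : (0 : ℝ) < n := by
      have : 0 < n := by omega
      exact_mod_cast this
    unfold rr
    positivity
  have hp : 0 < rr n * δ := mul_pos hr0 hδ0
  have l0 : lv δ n 0 = 0 := lev_zero _ _ _ _
  have l1 : lv δ n (HH δ n + 1) = 1 := lev_top _ _ _ _
  have llt : ∀ h, h ≤ HH δ n → lv δ n h < lv δ n (h + 1) := lev_lt n (md δ) hp (by linarith)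
  have hw0 : ∀ h, 0 ≤ pw δ n h := fun h => wts_nonneg llt h
  have hw1 : ∑ h, pw δ n h = 1 := sum_wts l0 l1
  have hlm : ∀ j, j ≤ md δ → lv δ n (n + 1 + j) = rr n * δ * (j + 1) := fun j hj =>
    lev_main _ _ _ hj
  -- pointwise
  have hpt : ∀ (e : Edge n) (c : Edge n → Fin (HH δ n + 1)),
      pos T e c i - pos T e c (i + 1) ≤ 2 / ((i : ℝ) + 1) *
        (max 0 (ps T.Q (rr n) n e c (i / 2)) + max 0 (-ps T.Q (rr n) n e c (i + 1))) := by
    intro e c
    have hps : ∀ l, ps T.Q (rr n) n e c l - ps T.Q (rr n) n e c (l + 1) =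
        (T.Q e c (n + 1 + l + 1) - T.Q e c (n + 1 + l)) / rr n := by
      intro l
      unfold ps
      rw [← sub_div]
      congr 1
      rw [show n + 1 + (l + 1) = n + 1 + l + 1 by omega]
      ring
    have hdec : ps T.Q (rr n) n e c (i + 1) ≤ ps T.Q (rr n) n e c i := by
      have h1 := hps i
      have h2 := T.lt e c (n + 1 + i) (by unfold HH; omega)
      have h3 : 0 ≤ (T.Q e c (n + 1 + i + 1) - T.Q e c (n + 1 + i)) / rr n :=
        div_nonneg (by linarith) hr0.le
      linarith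
    refine (clamp_sub_le hdec).trans ?_
    refine incr_half (a := fun l => ps T.Q (rr n) n e c l) hi hdec ?_
    intro l hl
    have h1 := hps l
    have h2 := hps (l + 1)
    have hlast : lv δ n (n + 1 + l + 2) ≤ 1 / 2 := by
      rw [show n + 1 + l + 2 = n + 1 + (l + 2) by omega, hlm (l + 2) hl]
      have h4 : ((l + 2 : ℕ) : ℝ) ≤ md δ := by exact_mod_cast hl
      calc rr n * δ * (((l + 2 : ℕ) : ℝ) + 1) ≤ rr n * δ * ((md δ : ℝ) + 1) :=
            mul_le_mul_of_nonneg_left (by linarith) hp.le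
        _ = ((md δ : ℝ) + 1) * δ * rr n := by ring
        _ ≤ 1 / 2 := hr
    have h5 := hMono n (HH δ n) (lv δ n) T h3 l0 l1 llt e c (n + 1 + l)
      (by unfold HH; omega) (by
        rw [show n + 1 + l + 2 = n + 1 + (l + 2) by omega,
          show n + 1 + l + 1 = n + 1 + (l + 1) by omega, hlm (l + 2) hl, hlm (l + 1) (by omega),
          hlm l (by omega)]
        push_cast
        ring) hlast
    change ps T.Q (rr n) n e c (l + 1) - ps T.Q (rr n) n e c (l + 1 + 1) ≤
      ps T.Q (rr n) n e c l - ps T.Q (rr n) n e c (l + 1)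
    rw [h1, h2]
    apply div_le_div_of_nonneg_right _ hr0.le
    rw [show n + 1 + (l + 1) = n + 1 + l + 1 by omega]
    exact h5
  -- averages
  have hav : ∀ e : Edge n, EE (pw δ n) (fun c => pos T e c i - pos T e c (i + 1)) ≤
      δ * ((8 * C + 8) * (1 + 1 / (((i : ℝ) + 1) * δ)) ^ 2) := by
    intro e
    have h1 := EE_mono hw0 (hpt e)
    rw [EE_mul_left, EE_add] at h1
    refine h1.trans ?_
    have hi0 : (0 : ℝ) < (i : ℝ) + 1 := by positivity
    refine num hC hδ0 hi0 rfl (EE_nonneg hw0 fun c => le_max_left _ _) ?_ ?_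
    · have h2 := EE_abs_le hw0 hw1 (fun c => max 0 (ps T.Q (rr n) n e c (i / 2)))
      have e1 : (fun c : Edge n → Fin (HH δ n + 1) => |max 0 (ps T.Q (rr n) n e c (i / 2))|) =
          fun c => max 0 (ps T.Q (rr n) n e c (i / 2)) := by
        funext c
        exact abs_of_nonneg (le_max_left _ _)
      rw [e1] at h2
      refine h2.trans (((hn T e (i / 2) (by omega)).1).trans ?_)
      rw [div_le_div_iff₀ (by positivity) (by positivity)]
      have h3 : (i : ℝ) ≤ 2 * ((i / 2 : ℕ) : ℝ) + 1 := by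
        have : i ≤ 2 * (i / 2) + 1 := by omega
        exact_mod_cast this
      have h4 : ((i : ℝ) + 1) * δ ≤ 2 * ((((i / 2 : ℕ) : ℝ) + 1) * δ) := by nlinarith
      nlinarith
    · refine ((hn T e (i + 1) (by omega)).2).trans ?_
      have h3 : (((i + 1 : ℕ) : ℝ) + 1) ≤ 2 * ((i : ℝ) + 1) := by
        push_cast
        have : (0 : ℝ) ≤ i := by positivity
        linarith
      nlinarith
  have e1 : qv T i - qv T (i + 1) =
      AV (fun e : Edge n => EE (pw δ n) (fun c => pos T e c i - pos T e c (i + 1))) := by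
    unfold qv AE
    rw [← AV_sub]
    congr 1
    funext e
    exact (EE_sub _ _ _).symm
  rw [e1]
  refine (AV_mono hav).trans ?_
  rw [AV_const (by omega)]

end Pool.Agent.Lib.MP_193d8d_pr
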