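import Pool.Agent.Lib.MP_193d8d_pr.StA
import Pool.Agent.Lib.MP_193d8d_pr.Base

set_option autoImplicit false
open MeasureTheory Set

namespace Pool.Agent.Lib.MP_193d8d_pr

namespace UpEAux

/-- the weights sum to one -/
lemma sum_wts {H : ℕ} {l : ℕ → ℝ} (h0 : l 0 = 0) (h1 : l (H + 1) = 1) :
    ∑ h : Fin (H + 1), wts H l h = 1 := by
  unfold wts
  rw [Fin.sum_univ_eq_sum_range (fun i => l (i + 1) - l i), Finset.sum_range_sub, h0, h1]
  ring

lemma wts_nonneg {H : ℕ} {l : ℕ → ℝ} (h : ∀ h, h ≤ H → l h < l (h + 1)) (i : Fin (H + 1)) :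
    0 ≤ wts H l i := by
  unfold wts
  have := h i (by omega)
  linarith

lemma lev_zero (ε δ : ℝ) (J m : ℕ) : lev ε δ J m 0 = 0 := by simp [lev]

lemma lev_top (ε δ : ℝ) (J m : ℕ) : lev ε δ J m (J + m + 1 + 1) = 1 := by
  unfold lev
  rw [if_neg (by omega), if_neg (by omega), if_neg (by omega)]

lemma lev_main (ε δ : ℝ) (J : ℕ) {m i : ℕ} (hi : i ≤ m) :
    lev ε δ J m (J + 1 + i) = ε * δ * (i + 1) := by
  unfold lev
  rw [if_neg (by omega)]
  by_cases h : J + 1 + i ≤ J + 1
  · have : i = 0 := by omega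
    subst this
    simp
  · rw [if_neg h, if_pos (by omega)]
    push_cast
    ring

lemma lev_tail (ε δ : ℝ) {J j : ℕ} (m : ℕ) (hj : j ≤ J) :
    lev ε δ J m (J + 1 - j) = ε * (δ * (1 / 2) ^ j) := by
  unfold lev
  rw [if_neg (by omega), if_pos (by omega)]
  rw [show J + 1 - (J + 1 - j) = j by omega]
  ring

lemma lev_lt {ε δ : ℝ} (J m : ℕ) (hp : 0 < ε * δ) (h1 : (m + 1) * δ * ε < 1) :
    ∀ h, h ≤ J + m + 1 → lev ε δ J m h < lev ε δ J m (h + 1) := by
  intro h hh
  rcases Nat.eq_zero_or_pos h with rfl | h0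
  · rw [lev_zero]
    unfold lev
    rw [if_neg (by omega), if_pos (by omega)]
    positivity
  · rcases Nat.lt_or_ge h (J + 1) with h2 | h2
    · unfold lev
      rw [if_neg (by omega), if_pos (by omega), if_neg (by omega), if_pos (by omega)]
      have e1 : J + 1 - h = (J + 1 - (h + 1)) + 1 := by omega
      rw [e1, pow_succ]
      have : 0 < ε * δ * (1 / 2 : ℝ) ^ (J + 1 - (h + 1)) := by positivity
      linarith
    · obtain ⟨i, rfl⟩ : ∃ i, h = J + 1 + i := ⟨h - (J + 1), by omega⟩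
      rcases Nat.lt_or_ge i m with h3 | h3
      · rw [lev_main ε δ J h3.le, show J + 1 + i + 1 = J + 1 + (i + 1) by omega,
          lev_main ε δ J h3]
        push_cast
        nlinarith
      · have e1 : i = m := by omega
        subst e1
        rw [lev_main ε δ J le_rfl, show J + 1 + i + 1 = J + i + 1 + 1 by omega, lev_top]
        calc ε * δ * (i + 1) = (i + 1) * δ * ε := by ring
          _ < 1 := h1

/-- monotonicity of the mean, for continuous functions of one coordinate -/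
lemma mean_mono {n : ℕ} {S : Set (Edge n → ℝ)} (mS : MeasurableSet S) (fS : volume S ≠ ⊤)
    (hS : ∀ x ∈ S, ∀ e, 0 < x e ∧ x e ≤ 2) (e : Edge n) {f g : ℝ → ℝ} (hf : Continuous f)
    (hg : Continuous g) (h : ∀ t, f t ≤ g t) :
    mean S (fun x => f (x e)) ≤ mean S (fun x => g (x e)) := by
  have hint : ∀ u : ℝ → ℝ, Continuous u → IntegrableOn (fun x : Edge n → ℝ => u (x e)) S := by
    intro u hu
    obtain ⟨B, hB⟩ := (isCompact_Icc (a := (0 : ℝ)) (b := 2)).exists_bound_of_continuousOn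
      hu.continuousOn
    refine Measure.integrableOn_of_bounded fS
      (hu.comp (continuous_apply e)).aestronglyMeasurable (M := B) ?_
    refine (ae_restrict_iff' mS).2 (Filter.Eventually.of_forall fun x hx => ?_)
    exact hB _ ⟨(hS x hx e).1.le, (hS x hx e).2⟩
  unfold mean
  refine div_le_div_of_nonneg_right ?_ ENNReal.toReal_nonneg
  exact setIntegral_mono (hint f hf) (hint g hg) fun x => h (x e)

lemma mean_mul {E : Type} [Fintype E] (S : Set (E → ℝ)) (r : ℝ) (g : (E → ℝ) → ℝ) :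
    mean S (fun x => g x * r) = mean S g * r := by
  unfold mean
  rw [integral_mul_const]
  ring

lemma sum_geo (J : ℕ) : ∑ j ∈ Finset.range J, (1 / 2 : ℝ) ^ (j + 1) = 1 - (1 / 2) ^ J := by
  induction J with
  | zero => simp
  | succ J ih =>
    rw [Finset.sum_range_succ, ih]
    ring

lemma sum_geo2 (J : ℕ) : ∑ j ∈ Finset.range J, (1 / 2 : ℝ) ^ (j + 1) * (j + 1) =
    2 - (J + 2) * (1 / 2) ^ J := by
  induction J with
  | zero => simp
  | succ J ih =>
    rw [Finset.sum_range_succ, ih]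
    push_cast
    ring

end UpEAux

open UpEAux in
theorem stUpE (hMain : StMainS) (hMomT : StMomT) (hNegT : StNegT) (hVol : StVol) : StUpE := by
  intro C2 hC2
  refine ⟨2 * C2 + 7, by linarith, ?_⟩
  intro κ ε δ K n J m T hκ hκ1 hn hε hδ hδ1 hK hm hmom hJ
  obtain ⟨mM, -, fM, vM⟩ := hVol κ n hκ hκ1
  have hS2 : ∀ x ∈ M κ n, ∀ e, 0 < x e ∧ x e ≤ 2 := fun x hx e =>
    ⟨hκ.trans_lt (hx.1 e).1, (hx.1 e).2⟩
  have hS0 : volume (M κ n) ≠ 0 := by
    intro h
    rw [vol, h] at vM
    simp at vM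
    linarith
  have hl0 := lev_zero ε δ J m
  have hl1 := lev_top ε δ J m
  have hp : 0 < ε * δ := mul_pos hε hδ
  have hll := lev_lt J m hp hm
  have hsum : ∑ h, wts (J + m + 1) (lev ε δ J m) h = 1 := sum_wts hl0 hl1
  have hnn : ∀ h, 0 ≤ wts (J + m + 1) (lev ε δ J m) h := wts_nonneg hll
  have hMT := hMomT (Edge n) (M κ n) (J + m + 1) (lev ε δ J m) T mM hS2 hS0 hl0 hl1 hll
  have hNT := hNegT κ n (J + m + 1) (lev ε δ J m) T hκ hκ1 hn hl0 hl1 hll
  have hmain := hMain κ ε δ K n J m T hκ hκ1 hn hε hδ hK hm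
  have hn2 : 2 ≤ n := by omega
  have hav : ∀ {g : Edge n → ℝ} {r : ℝ}, (∀ e, g e ≤ r) → AV g ≤ r := fun {g r} h =>
    (AV_mono h).trans (AV_const hn2 r).le
  -- term 1
  have t1 : AV (fun e => EE (wts (J + m + 1) (lev ε δ J m))
      (fun c => max 0 (ps T.Q ε J e c 0 - K))) ≤ C2 * (1 / (δ * K ^ 3)) := by
    refine hav fun e => ?_
    have h1 := hMT e (J + 1) (fun t => max 0 (t / ε - K)) (by omega)
      (fun s t hst => max_le_max le_rfl (by gcongr)) (fun t => le_max_left _ _)
    have h2 : mean (M κ n) (fun x => max 0 ((1 - x e) / ε - K)) ≤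
        mean (M κ n) (fun x => max 0 (1 - x e) ^ 4 * (1 / (ε ^ 4 * K ^ 3))) := by
      refine mean_mono mM fM hS2 e (f := fun t => max 0 ((1 - t) / ε - K))
        (g := fun t => max 0 (1 - t) ^ 4 * (1 / (ε ^ 4 * K ^ 3))) (by fun_prop) (by fun_prop) ?_
      intro t
      show max 0 ((1 - t) / ε - K) ≤ max 0 (1 - t) ^ 4 * (1 / (ε ^ 4 * K ^ 3))
      refine max_le (by positivity) ?_
      rcases le_or_gt ((1 - t) / ε) K with h | h
      · exact (sub_nonpos.2 h).trans (by positivity)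
      · have h3 : 0 < 1 - t := by
          rw [lt_div_iff₀ hε] at h
          nlinarith
        rw [max_eq_right h3.le]
        have h4 : (1 - t) ^ 4 * (1 / (ε ^ 4 * K ^ 3)) = ((1 - t) / ε) * (((1 - t) / ε) / K) ^ 3 := by
          field_simp
        rw [h4]
        have h5 : 1 ≤ ((1 - t) / ε / K) ^ 3 := by
          refine one_le_pow₀ ?_
          rw [le_div_iff₀ hK]
          linarith
        have h6 : 0 < (1 - t) / ε := by positivity
        nlinarith
    rw [mean_mul] at h2
    have h3 := (hmom e).2.1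
    have h4 : lev ε δ J m (J + 1) = ε * δ := by
      have := lev_main ε δ J (Nat.zero_le m)
      simpa using this
    rw [h4] at h1
    have h5 : mean (M κ n) (fun x => max 0 (1 - x e) ^ 4) * (1 / (ε ^ 4 * K ^ 3)) ≤
        C2 * ε ^ 5 * (1 / (ε ^ 4 * K ^ 3)) := mul_le_mul_of_nonneg_right h3 (by positivity)
    have h6 := h1.trans (h2.trans h5)
    have h7 : C2 * ε ^ 5 * (1 / (ε ^ 4 * K ^ 3)) = ε * δ * (C2 * (1 / (δ * K ^ 3))) := by
      field_simp
    rw [h7] at h6
    exact le_of_mul_le_mul_left h6 hp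
  -- term 5
  have t5 : AV (fun e => EE (wts (J + m + 1) (lev ε δ J m))
      (fun c => max 0 (-ps T.Q ε J e c m))) ≤ 2 * ((m + 1) * δ) + C2 := by
    refine hav fun e => ?_
    have h1 := hNT e (J + 1 + m) (by omega)
    rw [lev_main ε δ J le_rfl] at h1
    have h2 : ∀ c, max 0 (-ps T.Q ε J e c m) = (1 / ε) * max 0 (T.Q e c (J + 1 + m) - 1) := by
      intro c
      rw [mul_max_of_nonneg _ _ (by positivity)]
      unfold ps
      congr 1
      · ring
      · ring
    rw [EE_congr h2, EE_mul_left]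
    have h3 := (hmom e).2.2
    have h4 := h1.trans (add_le_add le_rfl h3)
    have h5 := mul_le_mul_of_nonneg_left h4 (show 0 ≤ 1 / ε by positivity)
    refine h5.trans (le_of_eq ?_)
    field_simp
  -- term 3
  have hneg : ∀ e, EE (wts (J + m + 1) (lev ε δ J m))
      (fun c => max 0 (-al T.Q ε J e c 0)) ≤ 2 * δ + C2 := by
    intro e
    have h1 := hNT e (J + 1) (by omega)
    have h4 : lev ε δ J m (J + 1) = ε * δ := by
      have := lev_main ε δ J (Nat.zero_le m)
      simpa using this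
    rw [h4] at h1
    have h2 : ∀ c, max 0 (-al T.Q ε J e c 0) = (1 / ε) * max 0 (T.Q e c (J + 1) - 1) := by
      intro c
      rw [mul_max_of_nonneg _ _ (by positivity)]
      unfold al
      congr 1
      · ring
      · rw [Nat.sub_zero]
        ring
    rw [EE_congr h2, EE_mul_left]
    have h3 := (hmom e).2.2
    have h4 := h1.trans (add_le_add le_rfl h3)
    have h5 := mul_le_mul_of_nonneg_left h4 (show 0 ≤ 1 / ε by positivity)
    refine h5.trans (le_of_eq ?_)
    field_simp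
  have hpos : ∀ e, ∀ j, j ≤ J → EE (wts (J + m + 1) (lev ε δ J m))
      (fun c => max 0 (al T.Q ε J e c j)) ≤ C2 / (δ * (1 / 2) ^ j) + 1 := by
    intro e j hj
    have h1 := hMT e (J + 1 - j) (fun t => max 0 t ^ 2) (by omega)
      (fun s t hst => pow_le_pow_left₀ (le_max_left _ _) (max_le_max le_rfl hst) 2)
      (fun t => by positivity)
    rw [lev_tail ε δ m hj] at h1
    have h2 := h1.trans (hmom e).1
    have h3 : ∀ c, max 0 (al T.Q ε J e c j) ≤
        (1 / ε ^ 2) * (max 0 (1 - T.Q e c (J + 1 - j)) ^ 2) + 1 := by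
      intro c
      have h4 : max 0 (al T.Q ε J e c j) = (1 / ε) * max 0 (1 - T.Q e c (J + 1 - j)) := by
        rw [mul_max_of_nonneg _ _ (by positivity)]
        unfold al
        congr 1
        · ring
        · ring
      rw [h4]
      have h5 : (1 / ε ^ 2) * (max 0 (1 - T.Q e c (J + 1 - j)) ^ 2) =
          ((1 / ε) * max 0 (1 - T.Q e c (J + 1 - j))) ^ 2 := by
        field_simp
      rw [h5]
      nlinarith [sq_nonneg ((1 / ε) * max 0 (1 - T.Q e c (J + 1 - j)) - 1),
        sq_nonneg ((1 / ε) * max 0 (1 - T.Q e c (J + 1 - j)))]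
    refine (EE_mono hnn h3).trans ?_
    rw [EE_add, EE_mul_left, EE_const hsum]
    have h6 : 0 < ε * (δ * (1 / 2 : ℝ) ^ j) := by positivity
    have h7 : EE (wts (J + m + 1) (lev ε δ J m))
        (fun c => max 0 (1 - T.Q e c (J + 1 - j)) ^ 2) ≤ C2 * ε ^ 3 / (ε * (δ * (1 / 2) ^ j)) := by
      rw [le_div_iff₀ h6]
      linarith
    have h8 := mul_le_mul_of_nonneg_left h7 (show 0 ≤ 1 / ε ^ 2 by positivity)
    have h9 : 1 / ε ^ 2 * (C2 * ε ^ 3 / (ε * (δ * (1 / 2) ^ j))) = C2 / (δ * (1 / 2) ^ j) := by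
      field_simp
    linarith
  have hQmono : ∀ e c a b, a ≤ b → b ≤ J + m + 1 + 1 → T.Q e c a ≤ T.Q e c b := by
    intro e c a b hab
    induction b, hab using Nat.le_induction with
    | base => intro _; exact le_rfl
    | succ b hb ih => intro hb'; exact (ih (by omega)).trans (T.lt e c b (by omega)).le
  have t3' : ∀ j, j < J → AV (fun e => EE (wts (J + m + 1) (lev ε δ J m)) (fun c =>
      Real.log ((al T.Q ε J e c (j + 1) - al T.Q ε J e c j) / (δ * (1 / 2) ^ (j + 1))))) ≤
      (2 * C2 + 2 + 2 * Real.log (1 / δ)) + 2 * (j + 1) * Real.log 2 := by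
    intro j hj
    refine hav fun e => ?_
    set u : ℝ := 1 / (δ * (1 / 2) ^ (j + 1)) with hu
    have hu0 : 0 < δ * (1 / 2 : ℝ) ^ (j + 1) := by positivity
    have hu1 : 1 ≤ u := by
      rw [hu, le_div_iff₀ hu0, one_mul]
      calc δ * (1 / 2 : ℝ) ^ (j + 1) ≤ 1 * 1 :=
            mul_le_mul hδ1 (pow_le_one₀ (by norm_num) (by norm_num)) (by positivity) one_pos.le
        _ = 1 := one_mul 1
    have hu00 : 0 < u := by linarith
    set B : ℝ := (2 * C2 + 3) * u ^ 2 with hB
    have hB0 : 0 < B := by positivity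
    have hX : ∀ c, Real.log ((al T.Q ε J e c (j + 1) - al T.Q ε J e c j) /
        (δ * (1 / 2) ^ (j + 1))) ≤
        (u / B) * (max 0 (al T.Q ε J e c (j + 1)) + max 0 (-al T.Q ε J e c 0)) +
          (Real.log B - 1) := by
      intro c
      have h1 : 0 < al T.Q ε J e c (j + 1) - al T.Q ε J e c j := by
        unfold al
        have h2 := T.lt e c (J + 1 - (j + 1)) (by omega)
        rw [show J + 1 - (j + 1) + 1 = J + 1 - j by omega] at h2
        rw [← sub_div]
        apply div_pos _ hε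
        linarith
      have h2 : al T.Q ε J e c 0 ≤ al T.Q ε J e c j := by
        unfold al
        apply div_le_div_of_nonneg_right _ hε.le
        have := hQmono e c (J + 1 - j) (J + 1 - 0) (by omega) (by omega)
        linarith
      have h3 : al T.Q ε J e c (j + 1) - al T.Q ε J e c j ≤
          max 0 (al T.Q ε J e c (j + 1)) + max 0 (-al T.Q ε J e c 0) := by
        have a1 := le_max_right 0 (al T.Q ε J e c (j + 1))
        have a2 := le_max_right 0 (-al T.Q ε J e c 0)
        linarith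
      set X : ℝ := (al T.Q ε J e c (j + 1) - al T.Q ε J e c j) / (δ * (1 / 2) ^ (j + 1)) with hXd
      have hX0 : 0 < X := div_pos h1 hu0
      have h4 := Real.log_le_sub_one_of_pos (div_pos hX0 hB0)
      rw [Real.log_div hX0.ne' hB0.ne'] at h4
      have h5 : X / B ≤ (u / B) * (max 0 (al T.Q ε J e c (j + 1)) + max 0 (-al T.Q ε J e c 0)) := by
        have h6 : X / B = (u / B) * (al T.Q ε J e c (j + 1) - al T.Q ε J e c j) := by
          rw [hXd, hu]
          field_simp
        rw [h6]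
        exact mul_le_mul_of_nonneg_left h3 (by positivity)
      linarith
    refine (EE_mono hnn hX).trans ?_
    rw [EE_add, EE_const hsum, EE_mul_left, EE_add]
    have h1 := hpos e (j + 1) hj
    have h2 := hneg e
    have h3 : EE (wts (J + m + 1) (lev ε δ J m)) (fun c => max 0 (al T.Q ε J e c (j + 1))) +
        EE (wts (J + m + 1) (lev ε δ J m)) (fun c => max 0 (-al T.Q ε J e c 0)) ≤
        (2 * C2 + 3) * u := by
      have h4 : C2 / (δ * (1 / 2) ^ (j + 1)) = C2 * u := by
        rw [hu]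
        ring
      rw [h4] at h1
      have h5 : 2 * δ + C2 + 1 ≤ (C2 + 3) * u := by nlinarith
      linarith
    have h4 : (u / B) * (EE (wts (J + m + 1) (lev ε δ J m))
        (fun c => max 0 (al T.Q ε J e c (j + 1))) +
        EE (wts (J + m + 1) (lev ε δ J m)) (fun c => max 0 (-al T.Q ε J e c 0))) ≤ 1 := by
      refine (mul_le_mul_of_nonneg_left h3 (by positivity)).trans (le_of_eq ?_)
      rw [hB]
      field_simp
    have h5 : Real.log B = Real.log (2 * C2 + 3) + 2 * Real.log (1 / δ) +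
        2 * (j + 1) * Real.log 2 := by
      rw [hB, Real.log_mul (by linarith) (by positivity), Real.log_pow, hu, one_div,
        Real.log_inv, Real.log_mul hδ.ne' (by positivity), Real.log_pow, one_div, Real.log_inv,
        one_div, Real.log_inv]
      push_cast
      ring
    have h6 : Real.log (2 * C2 + 3) ≤ 2 * C2 + 2 := by
      have := Real.log_le_sub_one_of_pos (show 0 < 2 * C2 + 3 by linarith)
      linarith
    linarith
  have t3 : (∑ j ∈ Finset.range J, δ * (1 / 2) ^ (j + 1) *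
        AV (fun e => EE (wts (J + m + 1) (lev ε δ J m)) (fun c =>
          Real.log ((al T.Q ε J e c (j + 1) - al T.Q ε J e c j) / (δ * (1 / 2) ^ (j + 1)))))) ≤
      δ * ((2 * C2 + 2 + 2 * Real.log (1 / δ)) + 4 * Real.log 2) := by
    have hlog : 0 ≤ Real.log (1 / δ) := Real.log_nonneg (by rw [le_div_iff₀ hδ]; linarith)
    have hlog2 : 0 ≤ Real.log 2 := Real.log_nonneg (by norm_num)
    calc _ ≤ ∑ j ∈ Finset.range J, δ * (1 / 2) ^ (j + 1) *
          ((2 * C2 + 2 + 2 * Real.log (1 / δ)) + 2 * (j + 1) * Real.log 2) := by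
          refine Finset.sum_le_sum fun j hj => ?_
          exact mul_le_mul_of_nonneg_left (t3' j (Finset.mem_range.1 hj)) (by positivity)
      _ = δ * ((2 * C2 + 2 + 2 * Real.log (1 / δ)) * (∑ j ∈ Finset.range J, (1 / 2 : ℝ) ^ (j + 1)) +
          2 * Real.log 2 * ∑ j ∈ Finset.range J, (1 / 2 : ℝ) ^ (j + 1) * (j + 1)) := by
          rw [Finset.mul_sum, Finset.mul_sum, ← Finset.sum_add_distrib, Finset.mul_sum]
          exact Finset.sum_congr rfl fun j _ => by ring
      _ ≤ _ := by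
          rw [sum_geo, sum_geo2]
          apply mul_le_mul_of_nonneg_left _ hδ.le
          have h1 : 0 ≤ (1 / 2 : ℝ) ^ J := by positivity
          have h2 : 0 ≤ ((J : ℝ) + 2) * (1 / 2) ^ J := by positivity
          have h3 : 0 ≤ 2 * C2 + 2 + 2 * Real.log (1 / δ) := by linarith
          nlinarith [mul_nonneg h3 h1, mul_nonneg hlog2 h2]
  have t4 : δ * (1 / 2) ^ J * Real.log (2 / (ε * (δ * (1 / 2) ^ J))) ≤ δ := by
    calc δ * (1 / 2) ^ J * Real.log (2 / (ε * (δ * (1 / 2) ^ J)))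
        = δ * ((1 / 2) ^ J * Real.log (2 / (ε * (δ * (1 / 2) ^ J)))) := by ring
      _ ≤ δ * 1 := mul_le_mul_of_nonneg_left hJ hδ.le
      _ = δ := mul_one δ
  have t5' : (m + 1) * δ * ε * (2 * K +
        AV (fun e => EE (wts (J + m + 1) (lev ε δ J m)) (fun c => max 0 (-ps T.Q ε J e c m)))) ≤
      (2 * C2 + 7) * ((m + 1) * δ * ε * (K + (m + 1) * δ + 1)) := by
    have h1 : 0 ≤ ((m : ℝ) + 1) * δ * ε := by positivity
    have h2 : 2 * K + AV (fun e => EE (wts (J + m + 1) (lev ε δ J m))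
        (fun c => max 0 (-ps T.Q ε J e c m))) ≤ (2 * C2 + 7) * (K + (m + 1) * δ + 1) := by
      have h3 : 0 ≤ ((m : ℝ) + 1) * δ := by positivity
      nlinarith [mul_nonneg (show 0 ≤ C2 by linarith) hK.le, mul_nonneg (show 0 ≤ C2 by linarith) h3]
    calc _ ≤ (m + 1) * δ * ε * ((2 * C2 + 7) * (K + (m + 1) * δ + 1)) :=
          mul_le_mul_of_nonneg_left h2 h1
      _ = _ := by ring
  have hlog : 0 ≤ Real.log (1 / δ) := Real.log_nonneg (by rw [le_div_iff₀ hδ]; linarith)
  have h9 : δ + δ * ((2 * C2 + 2 + 2 * Real.log (1 / δ)) + 4 * Real.log 2) + δ ≤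
      (2 * C2 + 7) * (δ * (1 + Real.log (1 / δ))) := by
    have h1 : 4 * Real.log 2 ≤ 3 := by
      have := Real.log_two_lt_d9
      linarith
    have h2 : 1 + ((2 * C2 + 2 + 2 * Real.log (1 / δ)) + 4 * Real.log 2) + 1 ≤
        (2 * C2 + 7) * (1 + Real.log (1 / δ)) := by nlinarith
    calc _ = δ * (1 + ((2 * C2 + 2 + 2 * Real.log (1 / δ)) + 4 * Real.log 2) + 1) := by ring
      _ ≤ δ * ((2 * C2 + 7) * (1 + Real.log (1 / δ))) := mul_le_mul_of_nonneg_left h2 hδ.le
      _ = _ := by ring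
  have h10 : C2 * (1 / (δ * K ^ 3)) ≤ (2 * C2 + 7) * (1 / (δ * K ^ 3)) := by
    apply mul_le_mul_of_nonneg_right (by linarith) (by positivity)
  have h11 : (2 * C2 + 7) * (δ * (1 + Real.log (1 / δ)) + 1 / (δ * K ^ 3) +
        (m + 1) * δ * ε * (K + (m + 1) * δ + 1)) =
      (2 * C2 + 7) * (δ * (1 + Real.log (1 / δ))) + (2 * C2 + 7) * (1 / (δ * K ^ 3)) +
        (2 * C2 + 7) * ((m + 1) * δ * ε * (K + (m + 1) * δ + 1)) := by ring
  rw [h11]
  linarith

end Pool.Agent.Lib.MP_193d8d_pr
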