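import Pool.Agent.Lib.MP_193d8d_pr.StA
import Pool.Agent.Lib.MP_193d8d_pr.Base

/-! The metric polytope: measurability, convexity, volume at least `1`. -/

set_option autoImplicit false
open MeasureTheory Set

namespace Pool.Agent.Lib.MP_193d8d_pr

namespace VolAux

variable {n : ℕ}

theorem continuous_ext (i j : Fin n) : Continuous (fun x : Edge n → ℝ => ext 0 x i j) := by
  unfold ext
  split_ifs
  · exact continuous_apply _
  · exact continuous_apply _
  · exact continuous_const

theorem ext_lin (a b : ℝ) (x y : Edge n → ℝ) (i j : Fin n) :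
    ext 0 (a • x + b • y) i j = a * ext 0 x i j + b * ext 0 y i j := by
  unfold ext
  split_ifs
  · simp
  · simp
  · simp

theorem box_subset {κ : ℝ} (hκ : κ < 1) :
    (Set.pi univ fun _ : Edge n => Ioc (1 : ℝ) 2) ⊆ M κ n := by
  intro x hx
  have h : ∀ e, 1 < x e ∧ x e ≤ 2 := fun e => hx e (mem_univ e)
  refine ⟨fun e => ⟨hκ.trans (h e).1, (h e).2⟩, fun i j k => ?_⟩
  have h0 : ∀ i j, 0 ≤ ext 0 x i j := by
    intro i j
    rcases eq_or_ne i j with rfl | hij
    · rw [ext_self]
    · rw [ext_ne 0 x hij]
      linarith [(h (edge i j hij)).1]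
  rcases eq_or_ne i j with rfl | hij
  · rw [ext_self]
    exact add_nonneg (h0 _ _) (h0 _ _)
  rcases eq_or_ne i k with rfl | hik
  · rw [ext_self 0 x i, zero_add]
  rcases eq_or_ne k j with rfl | hkj
  · rw [ext_self 0 x k, add_zero]
  rw [ext_ne 0 x hij, ext_ne 0 x hik, ext_ne 0 x hkj]
  linarith [(h (edge i j hij)).2, (h (edge i k hik)).1, (h (edge k j hkj)).1]

end VolAux

open VolAux

/-- A1 -/
theorem stVol : StVol := by
  intro κ n _ hκ
  have hfin : volume (M κ n) ≠ ⊤ := by
    have h1 : M κ n ⊆ Icc (fun _ : Edge n => κ) (fun _ => 2) := fun x hx =>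
      ⟨fun e => (hx.1 e).1.le, fun e => (hx.1 e).2⟩
    exact ((measure_mono h1).trans_lt isCompact_Icc.measure_lt_top).ne
  refine ⟨?_, ?_, hfin, ?_⟩
  · unfold M
    rw [Set.ofPred_and]
    refine MeasurableSet.inter ?_ ?_
    · rw [Set.ofPred_forall]
      refine MeasurableSet.iInter fun e => ?_
      rw [Set.ofPred_and]
      exact (measurableSet_lt measurable_const (measurable_pi_apply e)).inter
        (measurableSet_le (measurable_pi_apply e) measurable_const)
    · simp only [Set.ofPred_forall]
      refine MeasurableSet.iInter fun i => MeasurableSet.iInter fun j =>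
        MeasurableSet.iInter fun k => ?_
      exact measurableSet_le (continuous_ext i j).measurable
        ((continuous_ext i k).measurable.add (continuous_ext k j).measurable)
  · intro x hx y hy a b ha hb hab
    refine ⟨fun e => ⟨?_, ?_⟩, fun i j k => ?_⟩
    · have h1 := (hx.1 e).1
      have h2 := (hy.1 e).1
      simp only [Pi.add_apply, Pi.smul_apply, smul_eq_mul]
      rcases eq_or_lt_of_le ha with h0 | h0
      · rw [← h0] at hab ⊢
        have : b = 1 := by linarith
        rw [this]
        linarith
      · nlinarith [mul_lt_mul_of_pos_left h1 h0, mul_le_mul_of_nonneg_left h2.le hb]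
    · have h1 := (hx.1 e).2
      have h2 := (hy.1 e).2
      simp only [Pi.add_apply, Pi.smul_apply, smul_eq_mul]
      nlinarith [mul_le_mul_of_nonneg_left h1 ha, mul_le_mul_of_nonneg_left h2 hb]
    · rw [ext_lin, ext_lin, ext_lin]
      have h1 := hx.2 i j k
      have h2 := hy.2 i j k
      nlinarith [mul_le_mul_of_nonneg_left h1 ha, mul_le_mul_of_nonneg_left h2 hb]
  · have h1 : (1 : ENNReal) ≤ volume (M κ n) := by
      have h2 : volume (Set.pi univ fun _ : Edge n => Ioc (1 : ℝ) 2) = 1 := by
        rw [Real.volume_pi_Ioc]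
        norm_num
      rw [← h2]
      exact measure_mono (box_subset hκ)
    have h3 := ENNReal.toReal_mono hfin h1
    rwa [ENNReal.toReal_one] at h3

end Pool.Agent.Lib.MP_193d8d_pr
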