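import Pool.Agent.Lib.MP_193d8d_pr.StA
import Pool.Agent.Lib.MP_193d8d_pr.Base

set_option autoImplicit false
open MeasureTheory Set

namespace Pool.Agent.Lib.MP_193d8d_pr

namespace ZAux

variable {n : ℕ}

theorem ext_update (x : Edge n → ℝ) (e : Edge n) (t : ℝ) (i j : Fin n) :
    ext 0 (Function.update x e t) i j =
      if (i = e.a ∧ j = e.b) ∨ (i = e.b ∧ j = e.a) then t else ext 0 x i j := by
  have hab := e.lt
  rcases lt_trichotomy i j with h | h | h
  · rw [ext_of_lt _ _ h, ext_of_lt _ _ h]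
    by_cases he : (⟨i, j, h⟩ : Edge n) = e
    · subst he
      simp
    · rw [Function.update_of_ne he, if_neg]
      rintro (⟨rfl, rfl⟩ | ⟨rfl, rfl⟩)
      · exact he rfl
      · exact absurd h (not_lt.2 hab.le)
  · subst h
    rw [ext_self, ext_self, if_neg]
    rintro (⟨h1, h2⟩ | ⟨h1, h2⟩)
    · exact hab.ne (h1.symm.trans h2)
    · exact hab.ne (h2.symm.trans h1)
  · rw [ext_of_gt _ _ h, ext_of_gt _ _ h]
    by_cases he : (⟨j, i, h⟩ : Edge n) = e
    · subst he
      simp
    · rw [Function.update_of_ne he, if_neg]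
      rintro (⟨rfl, rfl⟩ | ⟨rfl, rfl⟩)
      · exact absurd h (not_lt.2 hab.le)
      · exact he rfl

/-- the lower bounds for the coordinate `e` -/
noncomputable def lo (e : Edge n) (k : Fin n) (x : Edge n → ℝ) : ℝ :=
  if k = e.a ∨ k = e.b then 0 else |ext 0 x e.a k - ext 0 x k e.b|

/-- the lower end -/
noncomputable def LE (e : Edge n) (x : Edge n → ℝ) : ℝ := sup0 (fun k => lo e k x)

theorem measurable_ext (i j : Fin n) : Measurable (fun x : Edge n → ℝ => ext 0 x i j) := by
  unfold ext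
  split_ifs
  · exact measurable_pi_apply _
  · exact measurable_pi_apply _
  · exact measurable_const

theorem measurable_lo (e : Edge n) (k : Fin n) : Measurable (lo e k) := by
  unfold lo
  split_ifs
  · exact measurable_const
  · exact ((measurable_ext _ _).sub (measurable_ext _ _)).abs

theorem measurable_LE (e : Edge n) : Measurable (LE e) := by
  refine measurable_of_Iic fun b => ?_
  have h1 : LE e ⁻¹' Iic b = {_x | 0 ≤ b} ∩ ⋂ k, lo e k ⁻¹' Iic b := by
    ext x
    simp only [LE, mem_preimage, mem_Iic, mem_inter_iff, mem_iInter, sup0_le_iff]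
    exact Iff.rfl
  rw [h1]
  exact (MeasurableSet.const _).inter
    (MeasurableSet.iInter fun k => measurable_lo e k measurableSet_Iic)

theorem lo_update (e : Edge n) (k : Fin n) (x : Edge n → ℝ) (t : ℝ) :
    lo e k (Function.update x e t) = lo e k x := by
  unfold lo
  split_ifs with h
  · rfl
  · push Not at h
    rw [ext_update, ext_update, if_neg, if_neg]
    · rintro (⟨h1, h2⟩ | ⟨h1, h2⟩)
      · exact h.1 h1
      · exact h.2 h1
    · rintro (⟨h1, h2⟩ | ⟨h1, h2⟩)
      · exact h.2 h2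
      · exact h.1 h2

theorem LE_update (e : Edge n) (x : Edge n → ℝ) (t : ℝ) :
    LE e (Function.update x e t) = LE e x := by
  unfold LE
  simp only [lo_update]

theorem LE_le {κ : ℝ} (hκ : 0 ≤ κ) {e : Edge n} {x : Edge n → ℝ} {y : ℝ}
    (hy : y ∈ fib (M κ n) e x) : LE e x ≤ y := by
  have hy' : Function.update x e y ∈ M κ n := hy
  have h1 := (hy'.1 e).1
  rw [Function.update_self] at h1
  refine sup0_le (hκ.trans h1.le) fun k => ?_
  rw [← lo_update e k x y]
  unfold lo
  split_ifs with h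
  · exact hκ.trans h1.le
  · have h2 := hy'.2 e.a k e.b
    have h3 := hy'.2 k e.b e.a
    have h4 : ext 0 (Function.update x e y) e.a e.b = y := by
      rw [ext_edge, Function.update_self]
    rw [ext_symm _ _ e.b k] at h2
    rw [ext_symm _ _ k e.a] at h3
    rw [h4] at h2 h3
    rw [abs_le]
    constructor <;> linarith

theorem fib_sub {κ : ℝ} {e : Edge n} {x : Edge n → ℝ} {y : ℝ}
    (hy : y ∈ fib (M κ n) e x) : κ < y ∧ y ≤ 2 := by
  have hy' : Function.update x e y ∈ M κ n := hy
  have h1 := hy'.1 e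
  rwa [Function.update_self] at h1

theorem mem_fib {κ : ℝ} (hκ : 0 ≤ κ) {e : Edge n} {x : Edge n → ℝ} (hx : x ∈ M κ n) {y : ℝ}
    (h1 : κ < y) (h2 : LE e x ≤ y) (h3 : y ≤ x e) : y ∈ fib (M κ n) e x := by
  show Function.update x e y ∈ M κ n
  have hlo : ∀ k, k ≠ e.a → k ≠ e.b → |ext 0 x e.a k - ext 0 x k e.b| ≤ y := by
    intro k ha hb
    have h4 := (le_sup0 (fun k => lo e k x) k).trans h2
    simp only [lo, ha, hb, or_self, if_false] at h4
    exact h4
  refine ⟨fun e' => ?_, fun i j k => ?_⟩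
  · by_cases he : e' = e
    · subst he
      rw [Function.update_self]
      exact ⟨h1, h3.trans (hx.1 _).2⟩
    · rw [Function.update_of_ne he]
      exact hx.1 e'
  · have h0 : 0 ≤ y := hκ.trans h1.le
    have hxy : y ≤ ext 0 x e.a e.b := by rwa [ext_edge]
    have hab : e.a ≠ e.b := e.lt.ne
    rw [ext_update, ext_update, ext_update]
    have ht := hx.2 i j k
    by_cases hik : i = k
    · subst hik
      have h5 : ¬ ((i = e.a ∧ i = e.b) ∨ (i = e.b ∧ i = e.a)) := by
        rintro (⟨h6, h7⟩ | ⟨h6, h7⟩)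
        · exact hab (h6.symm.trans h7)
        · exact hab (h7.symm.trans h6)
      rw [if_neg h5, ext_self, zero_add]
    by_cases hkj : k = j
    · subst hkj
      have h5 : ¬ ((k = e.a ∧ k = e.b) ∨ (k = e.b ∧ k = e.a)) := by
        rintro (⟨h6, h7⟩ | ⟨h6, h7⟩)
        · exact hab (h6.symm.trans h7)
        · exact hab (h7.symm.trans h6)
      rw [if_neg h5, ext_self, add_zero]
    by_cases hij : i = j
    · subst hij
      have h5 : ¬ ((i = e.a ∧ i = e.b) ∨ (i = e.b ∧ i = e.a)) := by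
        rintro (⟨h6, h7⟩ | ⟨h6, h7⟩)
        · exact hab (h6.symm.trans h7)
        · exact hab (h7.symm.trans h6)
      rw [if_neg h5, ext_self]
      have h6 : ∀ a b : Fin n, a ≠ b → 0 ≤ ext 0 x a b := by
        intro a b hne
        rw [ext_ne _ _ hne]
        exact hκ.trans (hx.1 _).1.le
      split_ifs
      · linarith
      · linarith [h6 _ _ (Ne.symm hik)]
      · linarith [h6 _ _ hik]
      · linarith [h6 _ _ (Ne.symm hik), h6 _ _ hik]
    · -- three different vertices
      by_cases c1 : (i = e.a ∧ j = e.b) ∨ (i = e.b ∧ j = e.a)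
      · have hkab : k ≠ e.a ∧ k ≠ e.b := by
          rcases c1 with ⟨rfl, rfl⟩ | ⟨rfl, rfl⟩
          · exact ⟨Ne.symm hik, hkj⟩
          · exact ⟨hkj, Ne.symm hik⟩
        rw [if_pos c1, if_neg (by tauto), if_neg (by tauto)]
        rcases c1 with ⟨rfl, rfl⟩ | ⟨rfl, rfl⟩
        · linarith
        · rw [ext_symm _ _ e.b e.a] at ht
          linarith
      · rw [if_neg c1]
        by_cases c2 : (i = e.a ∧ k = e.b) ∨ (i = e.b ∧ k = e.a)
        · have hjab : j ≠ e.a ∧ j ≠ e.b := by
            rcases c2 with ⟨rfl, rfl⟩ | ⟨rfl, rfl⟩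
            · exact ⟨Ne.symm hij, Ne.symm hkj⟩
            · exact ⟨Ne.symm hkj, Ne.symm hij⟩
          rw [if_pos c2, if_neg (by tauto)]
          have h5 := abs_le.1 (hlo j hjab.1 hjab.2)
          rcases c2 with ⟨rfl, rfl⟩ | ⟨rfl, rfl⟩
          · rw [ext_symm _ _ e.b j]
            linarith
          · rw [ext_symm _ _ e.b j]
            linarith
        · rw [if_neg c2]
          by_cases c3 : (k = e.a ∧ j = e.b) ∨ (k = e.b ∧ j = e.a)
          · have hiab : i ≠ e.a ∧ i ≠ e.b := by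
              rcases c3 with ⟨rfl, rfl⟩ | ⟨rfl, rfl⟩
              · exact ⟨hik, hij⟩
              · exact ⟨hij, hik⟩
            rw [if_pos c3]
            have h5 := abs_le.1 (hlo i hiab.1 hiab.2)
            rcases c3 with ⟨rfl, rfl⟩ | ⟨rfl, rfl⟩
            · rw [ext_symm _ _ i e.a]
              linarith
            · rw [ext_symm _ _ i e.a]
              linarith
          · rw [if_neg c3]
            exact ht

theorem sInf_le {κ : ℝ} (hκ : 0 ≤ κ) {e : Edge n} {x : Edge n → ℝ} (hx : x ∈ M κ n) :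
    sInf (fib (M κ n) e x) ≤ max κ (LE e x) := by
  by_contra hc
  push Not at hc
  have hb : BddBelow (fib (M κ n) e x) := ⟨κ, fun y hy => (fib_sub hy).1.le⟩
  have h1 : sInf (fib (M κ n) e x) ≤ x e := csInf_le hb (by
    show Function.update x e (x e) ∈ M κ n
    rwa [Function.update_eq_self])
  have h2 : (max κ (LE e x) + sInf (fib (M κ n) e x)) / 2 ∈ fib (M κ n) e x := by
    refine mem_fib hκ hx ?_ ?_ ?_
    · have := le_max_left κ (LE e x)
      linarith
    · have := le_max_right κ (LE e x)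
      linarith
    · linarith
  have h3 := csInf_le hb h2
  linarith

/-- the excess -/
noncomputable def zz (e : Edge n) (x : Edge n → ℝ) : ℝ := max 0 (LE e x - 1)

theorem zz_nonneg (e : Edge n) (x : Edge n → ℝ) : 0 ≤ zz e x := le_max_left _ _

theorem measurable_zz (e : Edge n) : Measurable (zz e) :=
  measurable_const.max ((measurable_LE e).sub_const 1)

theorem le_zz {κ : ℝ} (hκ : 0 ≤ κ) (hκ1 : κ < 1) {e : Edge n} {x : Edge n → ℝ}
    (hx : x ∈ M κ n) : max 0 (sInf (fib (M κ n) e x) - 1) ≤ zz e x := by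
  refine max_le (zz_nonneg e x) ?_
  have h1 := sInf_le (e := e) hκ hx
  unfold zz
  rcases le_total κ (LE e x) with h | h
  · rw [max_eq_right h] at h1
    exact le_max_of_le_right (by linarith)
  · rw [max_eq_left h] at h1
    exact le_max_of_le_left (by linarith)

theorem M_mono {κ : ℝ} (hκ : 0 ≤ κ) : M κ n ⊆ M 0 n := fun _ hx =>
  ⟨fun e => ⟨hκ.trans_lt (hx.1 e).1, (hx.1 e).2⟩, hx.2⟩

/-- the part of `M 0 n` with `x e > 1` -/
def S1 (e : Edge n) : Set (Edge n → ℝ) := M 0 n \ {x | x e ≤ 1}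

theorem cyl_sub (e : Edge n) : cyl (S1 e) e ⊆ cyl (M 0 n) e := by
  rintro x ⟨h1, h2⟩
  refine ⟨h1, fun h3 => h2 (measure_mono_null ?_ h3)⟩
  intro y hy
  exact hy.1

theorem add_le_one {e : Edge n} {x : Edge n → ℝ} (hx : x ∈ cyl (M 0 n) e) :
    ENNReal.ofReal (zz e x) + volume (fib (S1 e) e x) ≤ 1 := by
  obtain ⟨y, hy⟩ : (fib (M 0 n) e x).Nonempty := by
    by_contra hc
    rw [not_nonempty_iff_eq_empty] at hc
    exact hx.2 (by rw [hc, measure_empty])
  have h1 : LE e x ≤ 2 := (LE_le le_rfl hy).trans (fib_sub hy).2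
  have h2 : fib (S1 e) e x ⊆ Icc (max 1 (LE e x)) 2 := by
    intro t ht
    have h3 : t ∈ fib (M 0 n) e x := ht.1
    have h4 : ¬ (Function.update x e t) e ≤ 1 := ht.2
    rw [Function.update_self] at h4
    exact ⟨max_le (not_le.1 h4).le (LE_le le_rfl h3), (fib_sub h3).2⟩
  have h5 : max 1 (LE e x) ≤ 2 := max_le (by norm_num) h1
  have h6 : zz e x = max 1 (LE e x) - 1 := by
    unfold zz
    rcases le_total 1 (LE e x) with h | h
    · rw [max_eq_right h, max_eq_right (by linarith)]
    · rw [max_eq_left h, max_eq_left (by linarith)]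
      ring
  calc ENNReal.ofReal (zz e x) + volume (fib (S1 e) e x)
      ≤ ENNReal.ofReal (zz e x) + volume (Icc (max 1 (LE e x)) 2) := by gcongr
    _ = ENNReal.ofReal (max 1 (LE e x) - 1) + ENNReal.ofReal (2 - max 1 (LE e x)) := by
        rw [Real.volume_Icc, h6]
    _ = ENNReal.ofReal 1 := by
        rw [← ENNReal.ofReal_add (by linarith [le_max_left 1 (LE e x)]) (by linarith)]
        congr 1
        ring
    _ = 1 := ENNReal.ofReal_one

theorem cyl_finite (e : Edge n) : volume (cyl (M 0 n) e) ≠ ⊤ := by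
  have h1 : cyl (M 0 n) e ⊆ Icc (fun _ => 0) (fun _ => 2) := by
    rintro x ⟨h1, h2⟩
    obtain ⟨y, hy⟩ : (fib (M 0 n) e x).Nonempty := by
      by_contra hc
      rw [not_nonempty_iff_eq_empty] at hc
      exact h2 (by rw [hc, measure_empty])
    have hy' : Function.update x e y ∈ M 0 n := hy
    have h3 : ∀ e', 0 ≤ x e' ∧ x e' ≤ 2 := by
      intro e'
      by_cases he : e' = e
      · subst he
        exact ⟨h1.1.le, h1.2.le.trans (by norm_num)⟩
      · have h4 := hy'.1 e'
        rw [Function.update_of_ne he] at h4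
        exact ⟨h4.1.le, h4.2⟩
    exact ⟨fun e' => (h3 e').1, fun e' => (h3 e').2⟩
  exact ((measure_mono h1).trans_lt (isCompact_Icc.measure_lt_top)).ne

/-- the integral of the excess -/
theorem main (hV : StVol) (hB : StFubB) (hP : StProj) (e : Edge n) (hn : 3 ≤ n) :
    ∫⁻ x in M 0 n, ENNReal.ofReal (zz e x) ≤
      2 * volume (M 0 n ∩ {x | x e ≤ 1}) := by
  classical
  obtain ⟨hM, -, hfin, -⟩ := hV 0 n le_rfl one_pos
  have hm1 : MeasurableSet {x : Edge n → ℝ | x e ≤ 1} := measurable_pi_apply e measurableSet_Iic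
  have hS1 : MeasurableSet (S1 e) := hM.diff hm1
  have hgm : Measurable (fun x => ENNReal.ofReal (zz e x)) := (measurable_zz e).ennreal_ofReal
  obtain ⟨-, hcyl, hfub⟩ := hB (Edge n) (M 0 n) e (fun x => ENNReal.ofReal (zz e x)) hM hgm
    (fun x t => by
      show ENNReal.ofReal (max 0 (LE e _ - 1)) = ENNReal.ofReal (max 0 (LE e _ - 1))
      rw [LE_update])
  obtain ⟨-, -, hfub1⟩ := hB (Edge n) (S1 e) e (fun _ => 1) hS1 measurable_const
    (fun _ _ => rfl)
  simp only [one_mul, lintegral_const, Measure.restrict_apply MeasurableSet.univ,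
    univ_inter] at hfub1
  have h1 : ∫⁻ x in M 0 n, ENNReal.ofReal (zz e x) ≤
      2 * ∫⁻ x in cyl (M 0 n) e, ENNReal.ofReal (zz e x) := by
    rw [hfub, ← lintegral_const_mul _ hgm]
    refine setLIntegral_mono' hcyl fun x _ => ?_
    rw [mul_comm]
    gcongr
    have h2 : fib (M 0 n) e x ⊆ Ioc 0 2 := fun y hy => fib_sub hy
    refine (measure_mono h2).trans ?_
    rw [Real.volume_Ioc]
    simp
  refine h1.trans ?_
  gcongr
  have h2 : (∫⁻ x in cyl (M 0 n) e, ENNReal.ofReal (zz e x)) + volume (S1 e) ≤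
      volume (cyl (M 0 n) e) := by
    rw [hfub1]
    calc (∫⁻ x in cyl (M 0 n) e, ENNReal.ofReal (zz e x)) +
          ∫⁻ x in cyl (S1 e) e, volume (fib (S1 e) e x)
        ≤ (∫⁻ x in cyl (M 0 n) e, ENNReal.ofReal (zz e x)) +
          ∫⁻ x in cyl (M 0 n) e, volume (fib (S1 e) e x) := by
          gcongr
          exact cyl_sub e
      _ = ∫⁻ x in cyl (M 0 n) e, (ENNReal.ofReal (zz e x) + volume (fib (S1 e) e x)) := by
          rw [lintegral_add_left hgm]
      _ ≤ ∫⁻ x in cyl (M 0 n) e, 1 := setLIntegral_mono' hcyl fun x hx => add_le_one hx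
      _ = volume (cyl (M 0 n) e) := by
          rw [setLIntegral_const, one_mul]
  have h3 : volume (cyl (M 0 n) e) ≤ volume (M 0 n) :=
    (ENNReal.toReal_le_toReal (cyl_finite e) hfin).1 (hP n e hn)
  have h4 : volume (M 0 n ∩ {x | x e ≤ 1}) + volume (S1 e) = volume (M 0 n) :=
    measure_inter_add_sdiff _ hm1
  have h5 : volume (S1 e) ≠ ⊤ := ((measure_mono sdiff_subset).trans_lt hfin.lt_top).ne
  exact (ENNReal.add_le_add_iff_right h5).1 ((h2.trans h3).trans h4.symm.le)

end ZAux

open ZAux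

theorem stZ (hV : StVol) (hB : StFubB) (hP : StProj) : StZ := by
  intro κ n e hκ hκ1 hn
  obtain ⟨hM, -, hfin, hvol⟩ := hV 0 n le_rfl one_pos
  obtain ⟨hMκ, -, hfinκ, hvolκ⟩ := hV κ n hκ hκ1
  have hmain := main hV hB hP e hn
  have hfin1 : volume (M 0 n ∩ {x | x e ≤ 1}) ≠ ⊤ :=
    ((measure_mono inter_subset_left).trans_lt hfin.lt_top).ne
  have hint : IntegrableOn (zz e) (M 0 n) := by
    refine ⟨(measurable_zz e).aestronglyMeasurable, ?_⟩
    rw [hasFiniteIntegral_iff_ofReal (Filter.Eventually.of_forall fun x => zz_nonneg e x)]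
    exact hmain.trans_lt (ENNReal.mul_lt_top (by simp) hfin1.lt_top)
  have h1 : ∫ x in M κ n, max 0 (sInf (fib (M κ n) e x) - 1) ≤ ∫ x in M κ n, zz e x := by
    refine integral_mono_of_nonneg (Filter.Eventually.of_forall fun x => le_max_left _ _)
      (hint.mono_set (M_mono hκ)) ?_
    exact (ae_restrict_iff' hMκ).2 (Filter.Eventually.of_forall fun x hx => le_zz hκ hκ1 hx)
  have h2 : ∫ x in M κ n, zz e x ≤ ∫ x in M 0 n, zz e x :=
    setIntegral_mono_set hint (Filter.Eventually.of_forall fun x => zz_nonneg e x)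
      (Filter.Eventually.of_forall (M_mono hκ))
  have h3 : ∫ x in M 0 n, zz e x ≤ 2 * vol {x | x ∈ M 0 n ∧ x e ≤ 1} := by
    rw [integral_eq_lintegral_of_nonneg_ae (Filter.Eventually.of_forall fun x => zz_nonneg e x)
      (measurable_zz e).aestronglyMeasurable]
    have h4 := ENNReal.toReal_mono (ENNReal.mul_ne_top (by simp) hfin1) hmain
    rw [ENNReal.toReal_mul, ENNReal.toReal_ofNat] at h4
    exact h4
  have h5 : 2 * wt 0 n e * vol (M 0 n) = 2 * vol {x | x ∈ M 0 n ∧ x e ≤ 1} := by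
    unfold wt
    have : vol (M 0 n) ≠ 0 := by linarith
    field_simp
  rw [h5]
  unfold mean
  exact div_le_div_of_nonneg_right ((h1.trans h2).trans h3) (by linarith)

end Pool.Agent.Lib.MP_193d8d_pr
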